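import Mathlib

/-!
# MP_dd0ddf_al, module SchurC: Schur's lemma in countable dimension (Dixmier) and the density theorem

`A` a set of operators on the complex vector space S, irreducible (no proper nonzero A-stable subspace), S of countable dimension (spanned by a countable set), S ≠ 0.
`schurC`: T commutes with A.  If `T - a` is bijective for all `a ∈ ℂ`, take s ≠ 0: the vectors `(T - a)⁻¹ s`, a ∈ ℂ, are linearly independent (a linear relation gives `p(T) s = 0`, p ≠ 0 a polynomial, which splits over ℂ, but all T - a are injective), uncountably many: contradiction (a countably spanned space has no uncountable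
linearly independent family).  So some `T - a` is not injective or not surjective; kernel and range are A-stable: `T = a`.
`densityC`: for linearly independent `s_1..s_n` and arbitrary `t_i` there is `a` in the span of the monoid generated by A with `a s_i = t_i`: Jacobson density (Mathlib `jacobson_density`?, or by induction on n) using schurC.
-/

set_option linter.unusedSectionVars false
set_option linter.style.haveILetI false

namespace Pool.Agent.Work.MP_dd0ddf_al

noncomputable section

open Polynomial in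
private theorem isUnit_aeval {S : Type*} [AddCommGroup S] [Module ℂ S] (T : Module.End ℂ S)
    (h : spectrum ℂ T = ∅) (q : ℂ[X]) (hq : q ≠ 0) : IsUnit (aeval T q) := by
  by_cases hd : 0 < q.degree
  · rw [← spectrum.zero_notMem_iff ℂ, spectrum.map_polynomial_aeval_of_degree_pos T q hd, h]
    simp
  · have h1 : q = C (q.coeff 0) := eq_C_of_degree_le_zero (not_lt.1 hd)
    have h2 : q.coeff 0 ≠ 0 := fun h0 => hq (by rw [h1, h0, C_0])
    rw [h1, aeval_C]
    exact (IsUnit.mk0 _ h2).map (algebraMap ℂ (Module.End ℂ S))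

open Polynomial in
private theorem spec_nonempty {S : Type*} [AddCommGroup S] [Module ℂ S] (T : Module.End ℂ S)
    (hne : ∃ s : S, s ≠ 0) (hc : ∃ C : Set S, C.Countable ∧ Submodule.span ℂ C = ⊤) :
    (spectrum ℂ T).Nonempty := by
  by_contra hemp
  rw [Set.not_nonempty_iff_eq_empty] at hemp
  obtain ⟨s, hs⟩ := hne
  obtain ⟨C0, hC0, hspan⟩ := hc
  have hu := isUnit_aeval T hemp
  have hX : ∀ c : ℂ, (X - C c : ℂ[X]) ≠ 0 := fun c => X_sub_C_ne_zero c
  have hex : ∀ c : ℂ, ∃ v : S, aeval T (X - C c) v = s := fun c =>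
    ((Module.End.isUnit_iff _).1 (hu _ (hX c))).2 s
  choose v hv using hex
  have hli : LinearIndependent ℂ v := by
    rw [linearIndependent_iff']
    intro F g hsum c0 hc0
    have hz : aeval T (∑ c ∈ F, C (g c) * ∏ c' ∈ F.erase c, (X - C c')) s = 0 := by
      have h1 : aeval T (∏ c' ∈ F, (X - C c')) (∑ c ∈ F, g c • v c) = 0 := by
        rw [hsum, map_zero]
      rw [map_sum] at h1
      rw [map_sum, LinearMap.sum_apply, ← h1]
      refine Finset.sum_congr rfl fun c hc => ?_
      rw [← Finset.prod_erase_mul F _ hc, map_mul, map_mul, aeval_C, map_smul]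
      simp only [Module.End.mul_apply, hv, Module.algebraMap_end_apply]
    have hQ : (∑ c ∈ F, C (g c) * ∏ c' ∈ F.erase c, (X - C c')) = 0 := by
      by_contra hQ
      have h2 := ((Module.End.isUnit_iff _).1 (hu _ hQ)).1
      exact hs (h2 (by rw [hz, map_zero]))
    have he : eval c0 (∑ c ∈ F, C (g c) * ∏ c' ∈ F.erase c, (X - C c')) = 0 := by
      rw [hQ, eval_zero]
    rw [eval_finsetSum, Finset.sum_eq_single c0] at he
    · rw [eval_mul, eval_C, eval_prod] at he
      rcases mul_eq_zero.1 he with h3 | h3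
      · exact h3
      · rw [Finset.prod_eq_zero_iff] at h3
        obtain ⟨c', hc', h4⟩ := h3
        rw [eval_sub, eval_X, eval_C, sub_eq_zero] at h4
        exact absurd h4.symm (Finset.ne_of_mem_erase hc')
    · intro c _ hcc
      rw [eval_mul, eval_prod, Finset.prod_eq_zero (i := c0) (Finset.mem_erase.2 ⟨hcc.symm, hc0⟩)
        (by simp), mul_zero]
    · intro h; exact absurd hc0 h
  have h1 := hli.cardinal_lift_le_rank
  have h2 : Module.rank ℂ S ≤ Cardinal.mk C0 := by
    rw [← rank_top (R := ℂ) (M := S), ← hspan]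
    exact rank_span_le C0
  have h3 : Cardinal.mk C0 ≤ Cardinal.aleph0 := Cardinal.mk_le_aleph0_iff.2 hC0.to_subtype
  have h4 := h1.trans (Cardinal.lift_le.2 (h2.trans h3))
  rw [Cardinal.mk_complex, Cardinal.lift_continuum, Cardinal.lift_aleph0] at h4
  exact absurd Cardinal.aleph0_lt_continuum (not_lt.2 h4)

theorem schurC {S : Type*} [AddCommGroup S] [Module ℂ S] (A : Set (Module.End ℂ S))
    (hirr : ∀ N : Submodule ℂ S, (∀ a ∈ A, ∀ s ∈ N, a s ∈ N) → N = ⊥ ∨ N = ⊤)
    (hne : ∃ s : S, s ≠ 0) (hc : ∃ C : Set S, C.Countable ∧ Submodule.span ℂ C = ⊤)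
    (T : Module.End ℂ S) (hT : ∀ a ∈ A, T * a = a * T) : ∃ c : ℂ, T = c • 1 := by
  obtain ⟨c, hcs⟩ := spec_nonempty T hne hc
  rw [spectrum.mem_iff, Module.End.isUnit_iff] at hcs
  refine ⟨c, ?_⟩
  set U : Module.End ℂ S := algebraMap ℂ (Module.End ℂ S) c - T with hU
  have hUa : ∀ a ∈ A, ∀ s, U (a s) = a (U s) := by
    intro a ha s
    have h1 := congrArg (fun f : Module.End ℂ S => f s) (hT a ha)
    simp only [Module.End.mul_apply] at h1
    simp only [hU, LinearMap.sub_apply, Module.algebraMap_end_apply, map_sub, map_smul, h1]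
  have hz : U = 0 → T = c • 1 := by
    intro h0
    rw [hU, sub_eq_zero] at h0
    rw [← h0, Algebra.algebraMap_eq_smul_one]
  rcases hirr (LinearMap.ker U) (fun a ha s hs => by
    rw [LinearMap.mem_ker] at hs ⊢
    rw [hUa a ha, hs, map_zero]) with h | h
  · rcases hirr (LinearMap.range U) (fun a ha s hs => by
      obtain ⟨t, rfl⟩ := hs
      exact ⟨a t, hUa a ha t⟩) with h' | h'
    · exact hz (LinearMap.range_eq_bot.1 h')
    · exact absurd ⟨LinearMap.ker_eq_bot.1 h, LinearMap.range_eq_top.1 h'⟩ hcs
  · exact hz (LinearMap.ker_eq_top.1 h)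

theorem densityC {S : Type*} [AddCommGroup S] [Module ℂ S] (A : Submonoid (Module.End ℂ S))
    (hirr : ∀ N : Submodule ℂ S, (∀ a ∈ A, ∀ s ∈ N, a s ∈ N) → N = ⊥ ∨ N = ⊤)
    (hne : ∃ s : S, s ≠ 0) (hc : ∃ C : Set S, C.Countable ∧ Submodule.span ℂ C = ⊤)
    {n : ℕ} (s t : Fin n → S) (hs : LinearIndependent ℂ s) :
    ∃ a ∈ Submodule.span ℂ (A : Set (Module.End ℂ S)), ∀ i, a (s i) = t i := by
  classical
  let R := Algebra.adjoin ℂ (A : Set (Module.End ℂ S))
  have hsimple : IsSimpleModule R S := by
    haveI : Nontrivial S := by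
      obtain ⟨x, hx⟩ := hne
      exact ⟨⟨x, 0, hx⟩⟩
    rw [isSimpleModule_iff]
    refine { exists_pair_ne := ⟨⊥, ⊤, bot_ne_top⟩, eq_bot_or_eq_top := fun N => ?_ }
    rcases hirr (N.restrictScalars ℂ) (fun a ha x hx => by
      have h1 : (⟨a, Algebra.subset_adjoin ha⟩ : R) • x ∈ N := N.smul_mem _ hx
      exact h1) with h | h
    · left
      rw [eq_bot_iff]
      intro x hx
      have h1 : x ∈ N.restrictScalars ℂ := hx
      rw [h] at h1
      exact h1
    · right
      rw [eq_top_iff]
      intro x _
      have h1 : x ∈ N.restrictScalars ℂ := by rw [h]; trivial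
      exact h1
  have hcomm : ∀ φ : Module.End R S, ∃ c : ℂ, ∀ x, φ x = c • x := by
    intro φ
    obtain ⟨c, hc'⟩ := schurC (A : Set (Module.End ℂ S)) hirr hne hc
      (φ.restrictScalars ℂ : S →ₗ[ℂ] S) (fun a ha => by
        refine LinearMap.ext fun x => ?_
        have h1 : φ ((⟨a, Algebra.subset_adjoin ha⟩ : R) • x) =
          (⟨a, Algebra.subset_adjoin ha⟩ : R) • φ x := map_smul φ _ x
        exact h1)
    refine ⟨c, fun x => ?_⟩
    have h1 := congrArg (fun f : Module.End ℂ S => f x) hc'
    exact h1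
  -- a linear map with the required values
  obtain ⟨f, hf⟩ : ∃ f : S →ₗ[ℂ] S, ∀ i, f (s i) = t i := by
    obtain ⟨f, hf⟩ := LinearMap.exists_extend ((Module.Basis.span hs).constr ℂ t)
    refine ⟨f, fun i => ?_⟩
    have h1 : ((Module.Basis.span hs i : Submodule.span ℂ (Set.range s)) : S) = s i :=
      congrArg Subtype.val (Module.Basis.span_apply hs i)
    have h2 := congrArg (fun g => g (Module.Basis.span hs i)) hf
    simp only [LinearMap.comp_apply, Submodule.subtype_apply, Module.Basis.constr_basis, h1] at h2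
    exact h2
  let F : Module.End (Module.End R S) S :=
    { toFun := f
      map_add' := map_add f
      map_smul' := fun φ x => by
        obtain ⟨c, hc⟩ := hcomm φ
        simp only [Module.End.smul_def, hc, RingHom.id_apply, map_smul] }
  obtain ⟨r, hr⟩ := jacobson_density (R := R) F (Finset.univ.image s)
  refine ⟨r.1, ?_, fun i => ?_⟩
  · have h1 : r.1 ∈ Subalgebra.toSubmodule (Algebra.adjoin ℂ (A : Set (Module.End ℂ S))) := r.2
    rw [Algebra.adjoin_eq_span, Submonoid.closure_eq] at h1
    exact h1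
  · have h1 := hr (s i) (Finset.mem_image_of_mem _ (Finset.mem_univ i))
    rw [← hf i]
    exact h1.symm

end

end Pool.Agent.Work.MP_dd0ddf_al
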