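import Pool.Agent.Work.MP_dd0ddf_al.AdCart
import Pool.Agent.Work.MP_dd0ddf_al.AdUnif
import Pool.Agent.Work.MP_dd0ddf_al.AdFix
import Pool.Agent.Work.MP_dd0ddf_al.SchurC

/-!
# MP_dd0ddf_al, module AdCusp: irreducible cuspidal representations of Levi subgroups: the fixed vectors of congruence subgroups are finite dimensional

σ : Pcg c → End W irreducible, trivial on Ncg c, smooth in the sense hsm, cuspidal in the sense hcusp: for every i with i + 1 < n and c i = c (i+1), W is spanned by the σ(u) w - w with u in Ncg (refc c i).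
Q = Krg r ⊓ Lcg c.  W(Q) = span{σ(q) w - w : q ∈ Q}.
`adcusp_contract`: for i as above and w ∈ W there is R : ℕ such that for all a with `a p - a q ≥ R` whenever c p = c q, p ≤ i < q: `σ(tz a) w ∈ W(Q)`.  w = ∑ (σ(u_j) w_j - w_j), u_j ∈ Ncg (refc c i); levi_dec: u_j = l_j v_j, σ(u_j) = σ(l_j); l_j and l_j⁻¹ have entries δ_pq except for c p = c q, p ≤ i < q;
κ_j = tz a l_j (tz a)⁻¹ (tz_conj) and its inverse have off-diagonal entries t^(a p - a q) x, of norm ≤ min(r, 1) if R is large: κ_j ∈ Q.  `σ(tz a) w = ∑ (σ(κ_j) σ(tz a) w_j - σ(tz a) w_j)`.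
Finite spanning set modulo W(Q): fix w0 ≠ 0.  W is spanned by the σ(l) w0, l ∈ Lcg c (levi_dec, N trivial, irreducible).  cartan: l = k tz(a) k'.  {σ(k') w0} is a finite set F1 (k0_fin with a small radius, hsm).  R = max over w' ∈ F1 and i of the bounds of adcusp_contract.  If a i - a (i+1) ≥ R for some i with c i = c (i+1), then σ(tz a) w' ∈ W(Q)
(monotone c: p ≤ i < q with c p = c q = c i; a antitone on blocks), and W(Q) is stable under σ(k) (krg_normal).  Otherwise a = a' + z, z constant on blocks (z j = a(max of the block of j)), 0 ≤ a' ≤ n R: finitely many a'; σ(tz z) commutes with σ(Lcg c) and so with all of σ(Pcg c) (tz_central; N trivial: σ factors through levi_dec, bdiag), so it is a scalar by schurC.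
So σ(l) w0 is in ℂ σ(k) σ(tz a') w', and for each of the finitely many x = σ(tz a') w' the set {σ(k) x : k ∈ K0g ⊓ Lcg c} is finite.
Conclusion by fix_fd for σ restricted to Q (finite index from k0_fin with H = Q and hsm).
-/

set_option linter.unusedSectionVars false
set_option linter.style.haveILetI false

namespace Pool.Agent.Work.MP_dd0ddf_al

noncomputable section

variable {E : Type*} [NontriviallyNormedField E] [IsUltrametricDist E] [ProperSpace E] {n : ℕ}
variable {P : Type*} [AddCommGroup P] [Module ℂ P]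

open Matrix

private theorem cw_key (t : E) (ht : t ≠ 0) (ht1 : ‖t‖ < 1) (c : Fin n → ℕ) (i : Fin n)
    (B m : ℝ) (hm : 0 < m) (R : ℕ) (hR : ‖t‖ ^ R * (|B| + 1) ≤ m) (a : Fin n → ℤ)
    (ha : ∀ p q, c p = c q → p ≤ i → i < q → (R : ℤ) ≤ a p - a q)
    (v : GL (Fin n) E) (hvL : v ∈ Lcg E c) (hvN : v ∈ Ncg E (refc c i))
    (hvB : ∀ p q, ‖v.1 p q‖ ≤ B) (p q : Fin n) :
    ‖(tz t ht a * v * (tz t ht a)⁻¹).1 p q - (1 : Matrix (Fin n) (Fin n) E) p q‖ ≤ m := by
  rw [tz_conj]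
  by_cases h1 : refc c i q ≤ refc c i p
  · rw [(hvN p q h1).1]
    by_cases hpq : p = q
    · subst hpq
      rw [Matrix.one_apply_eq, sub_self, zpow_zero, mul_one, sub_self, norm_zero]
      exact hm.le
    · rw [Matrix.one_apply_ne hpq, mul_zero, sub_self, norm_zero]
      exact hm.le
  · have hpq : p ≠ q := fun e => h1 (by rw [e])
    rw [Matrix.one_apply_ne hpq, sub_zero]
    by_cases h2 : c p = c q
    · have h3 : p ≤ i ∧ i < q := by
        unfold refc at h1
        rw [h2] at h1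
        by_cases h4 : p ≤ i
        · refine ⟨h4, ?_⟩
          by_contra h5
          rw [if_pos (not_lt.1 h5), if_pos h4] at h1
          exact h1 le_rfl
        · exfalso
          rw [if_neg h4] at h1
          apply h1
          split_ifs <;> omega
      have h4 := ha p q h2 h3.1 h3.2
      rw [norm_mul, norm_zpow]
      have h5 : ‖t‖ ^ (a p - a q) ≤ ‖t‖ ^ R := by
        rw [← zpow_natCast]
        exact zpow_le_zpow_right_of_le_one₀ (norm_pos_iff.2 ht) ht1.le h4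
      refine le_trans (mul_le_mul h5 ((hvB p q).trans ?_) (norm_nonneg _)
        (pow_nonneg (norm_nonneg _) _)) hR
      exact (le_abs_self B).trans (by linarith)
    · rw [(hvL p q h2).1, mul_zero, norm_zero]
      exact hm.le

private theorem cw_kappa (t : E) (ht : t ≠ 0) (ht1 : ‖t‖ < 1) (c : Fin n → ℕ) (i : Fin n)
    (r : ℝ) (hr : 0 < r) (u : GL (Fin n) E) (huL : u ∈ Lcg E c) (hu : u ∈ Ncg E (refc c i)) :
    ∃ R : ℕ, ∀ a : Fin n → ℤ, (∀ p q, c p = c q → p ≤ i → i < q → (R : ℤ) ≤ a p - a q) →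
      tz t ht a * u * (tz t ht a)⁻¹ ∈ Krg E n r hr := by
  -- bound of the entries
  obtain ⟨B, hB⟩ : ∃ B : ℝ, ∀ p q, ‖u.1 p q‖ ≤ B ∧ ‖u⁻¹.1 p q‖ ≤ B := by
    refine ⟨∑ p, ∑ q, (‖u.1 p q‖ + ‖u⁻¹.1 p q‖), fun p q => ?_⟩
    have h1 : ‖u.1 p q‖ + ‖u⁻¹.1 p q‖ ≤ ∑ p, ∑ q, (‖u.1 p q‖ + ‖u⁻¹.1 p q‖) := by
      refine le_trans ?_ (Finset.single_le_sum (f := fun p => ∑ q,
        (‖u.1 p q‖ + ‖u⁻¹.1 p q‖)) (fun p _ => Finset.sum_nonneg fun q _ =>
          add_nonneg (norm_nonneg _) (norm_nonneg _)) (Finset.mem_univ p))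
      exact Finset.single_le_sum (f := fun q => (‖u.1 p q‖ + ‖u⁻¹.1 p q‖))
        (fun q _ => add_nonneg (norm_nonneg _) (norm_nonneg _)) (Finset.mem_univ q)
    have h2 := norm_nonneg (u.1 p q)
    have h3 := norm_nonneg (u⁻¹.1 p q)
    exact ⟨by linarith, by linarith⟩
  have hm : 0 < min r 1 := lt_min hr one_pos
  obtain ⟨R, hR⟩ : ∃ R : ℕ, ‖t‖ ^ R * (|B| + 1) ≤ min r 1 := by
    have hB1 : 0 < |B| + 1 := by positivity
    obtain ⟨R, hR⟩ := exists_pow_lt_of_lt_one (div_pos hm hB1) ht1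
    exact ⟨R, by rw [lt_div_iff₀ hB1] at hR; exact hR.le⟩
  refine ⟨R, fun a ha => ?_⟩
  have k1 := cw_key t ht ht1 c i B _ hm R hR a ha u huL hu (fun p q => (hB p q).1)
  have k2 := cw_key t ht ht1 c i B _ hm R hR a ha u⁻¹ (inv_mem huL) (inv_mem hu)
    (fun p q => (hB p q).2)
  have hinv : (tz t ht a * u * (tz t ht a)⁻¹)⁻¹ = tz t ht a * u⁻¹ * (tz t ht a)⁻¹ := by
    rw [_root_.mul_inv_rev, _root_.mul_inv_rev, inv_inv, mul_assoc]
  have one_ent : ∀ p q, ‖(1 : Matrix (Fin n) (Fin n) E) p q‖ ≤ 1 := by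
    intro p q
    rw [Matrix.one_apply]
    split_ifs <;> simp
  have k3 : ∀ x y : E, ‖x - y‖ ≤ min r 1 → ‖y‖ ≤ 1 → ‖x‖ ≤ 1 := by
    intro x y h1 h2
    have : x = (x - y) + y := by ring
    rw [this]
    exact (IsUltrametricDist.norm_add_le_max _ _).trans
      (max_le (h1.trans (min_le_right _ _)) h2)
  refine ⟨fun p q => ⟨k3 _ _ (k1 p q) (one_ent p q), ?_⟩,
    fun p q => (k1 p q).trans (min_le_left _ _)⟩
  rw [hinv]
  exact k3 _ _ (k2 p q) (one_ent p q)

private theorem cw_gen (c : Fin n → ℕ) (τ : Lcg E c →* Module.End ℂ P) (r : ℝ) (hr : 0 < r)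
    (z u : Lcg E c) (h : z.1 * u.1 * z.1⁻¹ ∈ Krg E n r hr) (w : P) :
    τ z (τ u w - w) ∈ Submodule.span ℂ {x : P | ∃ q : Lcg E c,
        q.1 ∈ Krg E n r hr ∧ ∃ w, x = τ q w - w} := by
  refine Submodule.subset_span ⟨z * u * z⁻¹, h, τ z w, ?_⟩
  rw [map_sub, ← Module.End.mul_apply, ← Module.End.mul_apply, ← map_mul, ← map_mul,
    inv_mul_cancel_right]

private theorem cw_contract (t : E) (ht : t ≠ 0) (ht1 : ‖t‖ < 1) (c : Fin n → ℕ)
    (τ : Lcg E c →* Module.End ℂ P) (r : ℝ) (hr : 0 < r) (i : Fin n)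
    (hcusp : Submodule.span ℂ {x : P | ∃ u : Lcg E c, u.1 ∈ Ncg E (refc c i) ∧
        ∃ w, x = τ u w - w} = ⊤) (w : P) :
    ∃ R : ℕ, ∀ a : Fin n → ℤ, (∀ p q, c p = c q → p ≤ i → i < q → (R : ℤ) ≤ a p - a q) →
      τ ⟨tz t ht a, tz_mem t ht a c⟩ w ∈ Submodule.span ℂ {x : P | ∃ q : Lcg E c,
        q.1 ∈ Krg E n r hr ∧ ∃ w, x = τ q w - w} := by
  have hw : w ∈ Submodule.span ℂ {x : P | ∃ u : Lcg E c, u.1 ∈ Ncg E (refc c i) ∧
        ∃ w, x = τ u w - w} := by rw [hcusp]; trivial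
  induction hw using Submodule.span_induction with
  | mem x hx =>
    obtain ⟨u, hu, w, rfl⟩ := hx
    obtain ⟨R, hR⟩ := cw_kappa t ht ht1 c i r hr u.1 u.2 hu
    exact ⟨R, fun a ha => cw_gen c τ r hr ⟨tz t ht a, tz_mem t ht a c⟩ u (hR a ha) w⟩
  | zero => exact ⟨0, fun a _ => by rw [map_zero]; exact zero_mem _⟩
  | add x y _ _ hx hy =>
    obtain ⟨R1, h1⟩ := hx
    obtain ⟨R2, h2⟩ := hy
    refine ⟨max R1 R2, fun a ha => ?_⟩
    rw [map_add]
    refine add_mem (h1 a fun p q e1 e2 e3 => ?_) (h2 a fun p q e1 e2 e3 => ?_)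
    · refine le_trans ?_ (ha p q e1 e2 e3)
      exact_mod_cast le_max_left R1 R2
    · refine le_trans ?_ (ha p q e1 e2 e3)
      exact_mod_cast le_max_right R1 R2
  | smul z x _ hx =>
    obtain ⟨R1, h1⟩ := hx
    refine ⟨R1, fun a ha => ?_⟩
    rw [map_smul]
    exact Submodule.smul_mem _ _ (h1 a ha)

/-- stability of the coinvariant kernel under the maximal compact subgroup -/
private theorem cw_stable (c : Fin n → ℕ) (τ : Lcg E c →* Module.End ℂ P) (r : ℝ) (hr : 0 < r)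
    (k : Lcg E c) (hk : k.1 ∈ K0g E n) (w : P)
    (hw : w ∈ Submodule.span ℂ {x : P | ∃ q : Lcg E c,
        q.1 ∈ Krg E n r hr ∧ ∃ w, x = τ q w - w}) :
    τ k w ∈ Submodule.span ℂ {x : P | ∃ q : Lcg E c,
        q.1 ∈ Krg E n r hr ∧ ∃ w, x = τ q w - w} := by
  induction hw using Submodule.span_induction with
  | mem x hx =>
    obtain ⟨q, hq, w, rfl⟩ := hx
    refine Submodule.subset_span ⟨k * q * k⁻¹, krg_normal r hr k.1 q.1 hk hq, τ k w, ?_⟩
    rw [map_sub, ← Module.End.mul_apply, ← Module.End.mul_apply, ← map_mul, ← map_mul,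
      inv_mul_cancel_right]
  | zero => rw [map_zero]; exact zero_mem _
  | add x y _ _ hx hy => rw [map_add]; exact add_mem hx hy
  | smul z x _ hx => rw [map_smul]; exact Submodule.smul_mem _ _ hx

/-- the orbit of a smooth vector under the maximal compact subgroup of the Levi is finite -/
private theorem cw_orbit (c : Fin n → ℕ) (τ : Lcg E c →* Module.End ℂ P)
    (hsm : ∀ w : P, ∃ (r : ℝ) (hr : 0 < r), ∀ k : Lcg E c, k.1 ∈ Krg E n r hr → τ k w = w)
    (w : P) : ∃ F : Finset P, ∀ k : Lcg E c, k.1 ∈ K0g E n → τ k w ∈ F := by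
  classical
  obtain ⟨r, hr, h⟩ := hsm w
  obtain ⟨S, hS, hk⟩ := k0_fin r hr (K0g E n ⊓ Lcg E c) inf_le_left
  refine ⟨S.attach.image fun s => τ ⟨s.1, (hS s.1 s.2).2⟩ w, fun k hk0 => ?_⟩
  obtain ⟨s, hs, hsk⟩ := hk k.1 ⟨hk0, k.2⟩
  rw [Finset.mem_image]
  refine ⟨⟨s, hs⟩, Finset.mem_attach _ _, ?_⟩
  have h1 := h ((⟨s, (hS s hs).2⟩ : Lcg E c)⁻¹ * k) hsk
  have h2 : τ k w = τ ⟨s, (hS s hs).2⟩ (τ ((⟨s, (hS s hs).2⟩ : Lcg E c)⁻¹ * k) w) := by
    rw [← Module.End.mul_apply, ← map_mul, mul_inv_cancel_left]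
  rw [h2, h1]

/-- last element of the block of `j` -/
private def lastB (c : Fin n → ℕ) (j : Fin n) : Fin n :=
  (Finset.univ.filter fun q => c q = c j).max' ⟨j, by simp⟩

private theorem lastB_le (c : Fin n → ℕ) (j : Fin n) : j ≤ lastB c j :=
  Finset.le_max' _ _ (by simp)

private theorem lastB_mem (c : Fin n → ℕ) (j : Fin n) : c (lastB c j) = c j := by
  have := Finset.max'_mem (Finset.univ.filter fun q => c q = c j) ⟨j, by simp⟩
  rw [Finset.mem_filter] at this
  exact this.2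

private theorem lastB_eq (c : Fin n → ℕ) (i j : Fin n) (h : c i = c j) :
    lastB c i = lastB c j := by
  unfold lastB
  simp only [h]

/-- bound of the differences from a bound of consecutive differences -/
private theorem diff_bd (c : Fin n → ℕ) (hc : Monotone c) (a : Fin n → ℤ) (R : ℕ)
    (h : ∀ i j : Fin n, j.1 = i.1 + 1 → c i = c j → a i - a j ≤ R) (d : ℕ) :
    ∀ p q : Fin n, q.1 = p.1 + d → c p = c q → a p - a q ≤ d * R := by
  induction d with
  | zero =>
    intro p q h1 _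
    have : p = q := Fin.ext (by omega)
    subst this
    simp
  | succ d ih =>
    intro p q h1 h2
    have hlt : p.1 + d < n := by have := q.2; omega
    let m : Fin n := ⟨p.1 + d, hlt⟩
    have hpm : p ≤ m := by change p.1 ≤ p.1 + d; omega
    have hmq : m ≤ q := by change p.1 + d ≤ q.1; omega
    have e1 := hc hpm
    have e2 := hc hmq
    have e3 : c p = c m := by omega
    have e4 : c m = c q := by omega
    have h3 := ih p m rfl e3
    have h4 := h m q (by change q.1 = p.1 + d + 1; omega) e4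
    push_cast
    linarith

private theorem cw_core (c : Fin n → ℕ) (hc : Monotone c) (τ : Lcg E c →* Module.End ℂ P)
    (hsm : ∀ w : P, ∃ (r : ℝ) (hr : 0 < r), ∀ k : Lcg E c, k.1 ∈ Krg E n r hr → τ k w = w)
    (hirr : ∀ M : Submodule ℂ P, (∀ g, ∀ w ∈ M, τ g w ∈ M) → M = ⊥ ∨ M = ⊤)
    (hcount : ∃ C : Set P, C.Countable ∧ Submodule.span ℂ C = ⊤)
    (hcusp : ∀ (i j : Fin n), j.1 = i.1 + 1 → c i = c j →
      Submodule.span ℂ {x : P | ∃ u : Lcg E c, u.1 ∈ Ncg E (refc c i) ∧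
        ∃ w, x = τ u w - w} = ⊤)
    (r : ℝ) (hr : 0 < r) : ∃ N : Submodule ℂ P, Module.Finite ℂ N ∧
      ∀ w : P, (∀ k : Lcg E c, k.1 ∈ Krg E n r hr → τ k w = w) → w ∈ N := by
  classical
  by_cases hne : ∃ w0 : P, w0 ≠ 0
  swap
  · push Not at hne
    exact ⟨⊥, inferInstance, fun w _ => by rw [hne w]; exact zero_mem _⟩
  obtain ⟨w0, hw0⟩ := hne
  obtain ⟨t, ht, ht1, hv⟩ := exists_unif (E := E)
  set WQ : Submodule ℂ P := Submodule.span ℂ {x : P | ∃ q : Lcg E c,
        q.1 ∈ Krg E n r hr ∧ ∃ w, x = τ q w - w} with hWQ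
  -- the finite orbit of `w0`
  obtain ⟨F1, hF1⟩ := cw_orbit c τ hsm w0
  -- uniform contraction bound
  have hR0 : ∀ (i : Fin n) (w : P), ∃ R : ℕ, (∃ j : Fin n, j.1 = i.1 + 1 ∧ c i = c j) →
      ∀ a : Fin n → ℤ, (∀ p q, c p = c q → p ≤ i → i < q → (R : ℤ) ≤ a p - a q) →
      τ ⟨tz t ht a, tz_mem t ht a c⟩ w ∈ WQ := by
    intro i w
    by_cases h : ∃ j : Fin n, j.1 = i.1 + 1 ∧ c i = c j
    · obtain ⟨j, h1, h2⟩ := h
      obtain ⟨R, hR⟩ := cw_contract t ht ht1 c τ r hr i (hcusp i j h1 h2) w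
      exact ⟨R, fun _ => hR⟩
    · exact ⟨0, fun h' => absurd h' h⟩
  choose Rf hRf using hR0
  set R : ℕ := F1.sup fun w => Finset.univ.sup fun i => Rf i w with hRdef
  have hRle : ∀ w ∈ F1, ∀ i, Rf i w ≤ R := by
    intro w hw i
    refine le_trans ?_ (Finset.le_sup (f := fun w => Finset.univ.sup fun i => Rf i w) hw)
    exact Finset.le_sup (f := fun i => Rf i w) (Finset.mem_univ i)
  -- the finite set of the second kind
  set T : Finset (Fin n → ℤ) := Fintype.piFinset fun _ => Finset.Icc (0 : ℤ) (n * R) with hT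
  set F2 : Finset P := (T ×ˢ F1).image fun x => τ ⟨tz t ht x.1, tz_mem t ht x.1 c⟩ x.2 with hF2
  have horb := fun w => cw_orbit c τ hsm w
  choose Fo hFo using horb
  set F3 : Finset P := F2.biUnion Fo with hF3
  have hmain : ∀ l : Lcg E c, τ l w0 ∈ Submodule.span ℂ (F3 : Set P) ⊔ WQ := by
    intro l
    obtain ⟨k, hk, k', hk', a, ha, hl⟩ := cartan t ht ht1 hv c l.1 l.2
    have hl' : l = ⟨k, hk.2⟩ * ⟨tz t ht a, tz_mem t ht a c⟩ * ⟨k', hk'.2⟩ := Subtype.ext hl
    set w1 : P := τ ⟨k', hk'.2⟩ w0 with hw1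
    have hw1F : w1 ∈ F1 := hF1 ⟨k', hk'.2⟩ hk'.1
    have e1 : τ l w0 = τ ⟨k, hk.2⟩ (τ ⟨tz t ht a, tz_mem t ht a c⟩ w1) := by
      rw [hl', map_mul, map_mul]
      rfl
    rw [e1]
    by_cases hbig : ∃ i j : Fin n, j.1 = i.1 + 1 ∧ c i = c j ∧ (R : ℤ) ≤ a i - a j
    · obtain ⟨i, j, hij, hcij, hRij⟩ := hbig
      refine Submodule.mem_sup_right (cw_stable c τ r hr ⟨k, hk.2⟩ hk.1 _ ?_)
      refine hRf i w1 ⟨j, hij, hcij⟩ a fun p q hpq hpi hiq => ?_
      have m1 := hc hpi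
      have m2 := hc hiq.le
      have m3 : c p = c i := by omega
      have m4 : c j = c q := by omega
      have hjq : j ≤ q := by
        change j.1 ≤ q.1
        have : i.1 < q.1 := hiq
        omega
      have n1 := ha p i hpi m3
      have n2 := ha j q hjq m4
      have n3 : (Rf i w1 : ℤ) ≤ R := by exact_mod_cast hRle w1 hw1F i
      linarith
    · push Not at hbig
      set z : Fin n → ℤ := fun j => a (lastB c j) with hz
      set a' : Fin n → ℤ := fun j => a j - z j with ha'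
      have haz : a = a' + z := by
        funext j
        simp [ha']
      have hzc : ∀ i j, c i = c j → z i = z j := by
        intro i j hij
        simp only [hz]
        rw [lastB_eq c i j hij]
      obtain ⟨μ, hμ⟩ : ∃ μ : ℂ, τ ⟨tz t ht z, tz_mem t ht z c⟩ = μ • 1 := by
        refine schurC (Set.range τ) ?_ ⟨w0, hw0⟩ hcount _ ?_
        · intro N hN
          exact hirr N fun g w hw => hN (τ g) ⟨g, rfl⟩ w hw
        · rintro _ ⟨g, rfl⟩
          rw [← map_mul, ← map_mul]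
          congr 1
          exact Subtype.ext (tz_central t ht z c hzc g.1 g.2)
      have e2 : τ ⟨tz t ht a, tz_mem t ht a c⟩ w1 =
          μ • τ ⟨tz t ht a', tz_mem t ht a' c⟩ w1 := by
        have e3 : (⟨tz t ht a, tz_mem t ht a c⟩ : Lcg E c) =
            ⟨tz t ht a', tz_mem t ht a' c⟩ * ⟨tz t ht z, tz_mem t ht z c⟩ := by
          apply Subtype.ext
          change tz t ht a = tz t ht a' * tz t ht z
          rw [← tz_add, ← haz]
        rw [e3, map_mul, hμ, Module.End.mul_apply, LinearMap.smul_apply, map_smul]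
        rfl
      rw [e2, map_smul]
      refine Submodule.smul_mem _ _ (Submodule.mem_sup_left (Submodule.subset_span ?_))
      rw [hF3, Finset.mem_coe, Finset.mem_biUnion]
      refine ⟨τ ⟨tz t ht a', tz_mem t ht a' c⟩ w1, ?_, hFo _ ⟨k, hk.2⟩ hk.1⟩
      rw [hF2, Finset.mem_image]
      refine ⟨(a', w1), ?_, rfl⟩
      rw [Finset.mem_product]
      refine ⟨?_, hw1F⟩
      change a' ∈ T
      rw [hT, Fintype.mem_piFinset]
      intro j
      rw [Finset.mem_Icc]
      have hj := lastB_le c j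
      have hj2 := lastB_mem c j
      constructor
      · have := ha j (lastB c j) hj hj2.symm
        simp only [ha', hz]
        linarith
      · have h5 := diff_bd c hc a R (fun i j h1 h2 => (hbig i j h1 h2).le)
          ((lastB c j).1 - j.1) j (lastB c j) (by
            have : j.1 ≤ (lastB c j).1 := hj
            omega) hj2.symm
        have h6 : (((lastB c j).1 - j.1 : ℕ) : ℤ) ≤ n := by
          have := (lastB c j).2
          have h7 : (lastB c j).1 - j.1 ≤ n := by omega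
          exact_mod_cast h7
        have h8 : (((lastB c j).1 - j.1 : ℕ) : ℤ) * R ≤ n * R :=
          mul_le_mul_of_nonneg_right h6 (Int.natCast_nonneg R)
        simp only [ha', hz]
        linarith
  -- the span of the orbit of `w0` is everything
  have htop : Submodule.span ℂ (F3 : Set P) ⊔ WQ = ⊤ := by
    set M : Submodule ℂ P := Submodule.span ℂ (Set.range fun l : Lcg E c => τ l w0) with hM
    have hMs : ∀ g, ∀ w ∈ M, τ g w ∈ M := by
      intro g w hw
      rw [hM] at hw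
      induction hw using Submodule.span_induction with
      | mem x hx =>
        obtain ⟨l, rfl⟩ := hx
        refine Submodule.subset_span ⟨g * l, ?_⟩
        change τ (g * l) w0 = τ g (τ l w0)
        rw [map_mul]
        rfl
      | zero => rw [map_zero]; exact zero_mem _
      | add x y _ _ hx hy => rw [map_add]; exact add_mem hx hy
      | smul z x _ hx => rw [map_smul]; exact Submodule.smul_mem _ _ hx
    have hw0M : w0 ∈ M := Submodule.subset_span ⟨1, by
      change τ 1 w0 = w0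
      rw [map_one]
      rfl⟩
    rcases hirr M hMs with h | h
    · rw [h] at hw0M
      exact absurd ((Submodule.mem_bot ℂ).1 hw0M) hw0
    · rw [eq_top_iff, ← h, hM, Submodule.span_le]
      rintro _ ⟨l, rfl⟩
      exact hmain l
  -- conclusion
  let Q : Subgroup (Lcg E c) := (Krg E n r hr).comap (Lcg E c).subtype
  have hfd := fix_fd (τ.comp Q.subtype) ?_ F3 ?_
  · refine ⟨fixV (τ.comp Q.subtype), hfd, fun w hw q => ?_⟩
    exact hw q.1 q.2
  · intro w
    obtain ⟨rw', hrw', h⟩ := hsm w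
    let H : Subgroup Q := (Krg E n rw' hrw').comap ((Lcg E c).subtype.comp Q.subtype)
    refine ⟨H, ?_, fun q hq => h q.1 hq⟩
    obtain ⟨S, hS, hk⟩ := k0_fin rw' hrw' (Krg E n r hr ⊓ Lcg E c)
      (inf_le_left.trans (krg_le r hr))
    have hsur : Function.Surjective (fun s : {s // s ∈ S} =>
        (QuotientGroup.mk (⟨⟨s.1, (hS s.1 s.2).2⟩, (hS s.1 s.2).1⟩ : Q) : Q ⧸ H)) := by
      intro x
      obtain ⟨q, rfl⟩ := QuotientGroup.mk_surjective x
      obtain ⟨s, hs, hsq⟩ := hk q.1.1 ⟨q.2, q.1.2⟩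
      refine ⟨⟨s, hs⟩, ?_⟩
      rw [QuotientGroup.eq]
      exact hsq
    haveI : Finite (Q ⧸ H) := Finite.of_surjective _ hsur
    exact Subgroup.finiteIndex_of_finite_quotient
  · rw [eq_top_iff, ← htop]
    refine sup_le_sup le_rfl ?_
    rw [hWQ, Submodule.span_le]
    rintro _ ⟨q, hq, w, rfl⟩
    exact Submodule.subset_span ⟨⟨q, hq⟩, w, rfl⟩

theorem cusp_fd (c : Fin n → ℕ) (hc : Monotone c) (σ : Pcg E c →* Module.End ℂ P)
    (hsm : ∀ w : P, ∃ (r : ℝ) (hr : 0 < r), ∀ k : Pcg E c, k.1 ∈ Krg E n r hr → σ k w = w)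
    (hN : ∀ u : Pcg E c, u.1 ∈ Ncg E c → σ u = 1)
    (hirr : ∀ M : Submodule ℂ P, (∀ g, ∀ w ∈ M, σ g w ∈ M) → M = ⊥ ∨ M = ⊤)
    (hcount : ∃ C : Set P, C.Countable ∧ Submodule.span ℂ C = ⊤)
    (hcusp : ∀ (i j : Fin n), j.1 = i.1 + 1 → c i = c j →
      Submodule.span ℂ {x : P | ∃ u : Pcg E c, u.1 ∈ Ncg E (refc c i) ∧
        ∃ w, x = σ u w - w} = ⊤)
    (r : ℝ) (hr : 0 < r) : ∃ N : Submodule ℂ P, Module.Finite ℂ N ∧
      ∀ w : P, (∀ k : Pcg E c, k.1 ∈ Krg E n r hr → k.1 ∈ Lcg E c → σ k w = w) → w ∈ N := by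
  let ι : Lcg E c →* Pcg E c := Subgroup.inclusion (lcg_le c)
  have hι : ∀ l : Lcg E c, (ι l).1 = l.1 := fun l => rfl
  -- `σ` factors through the Levi subgroup
  have hfac : ∀ g : Pcg E c, ∃ l : Lcg E c, σ g = σ (ι l) ∧
      (∀ i j, c i = c j → l.1.1 i j = g.1.1 i j) ∧
      ∀ i j, c i = c j → l.1⁻¹.1 i j = g.1⁻¹.1 i j := by
    intro g
    obtain ⟨l, hl, u, hu, hg, h1, h2⟩ := levi_dec c g.1 g.2
    refine ⟨⟨l, hl⟩, ?_, h1, h2⟩
    have e1 : g = ι ⟨l, hl⟩ * ⟨u, ncg_le c hu⟩ := Subtype.ext hg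
    rw [e1, map_mul, hN ⟨u, ncg_le c hu⟩ hu, mul_one]
  obtain ⟨N, hN1, hN2⟩ := cw_core c hc (σ.comp ι)
    (by
      intro w
      obtain ⟨r', hr', h⟩ := hsm w
      exact ⟨r', hr', fun k hk => h (ι k) hk⟩)
    (by
      intro M hM
      refine hirr M fun g w hw => ?_
      obtain ⟨l, hl, -, -⟩ := hfac g
      rw [hl]
      exact hM l w hw)
    hcount
    (by
      intro i j hij hcij
      rw [eq_top_iff, ← hcusp i j hij hcij, Submodule.span_le]
      rintro _ ⟨u, hu, w, rfl⟩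
      obtain ⟨l, hl, h1, h2⟩ := hfac u
      refine Submodule.subset_span ⟨l, ?_, w, by rw [hl]; rfl⟩
      intro p q hpq
      by_cases hc' : c p = c q
      · rw [h1 p q hc', h2 p q hc']
        exact hu p q hpq
      · have hne : p ≠ q := fun e => hc' (by rw [e])
        rw [Matrix.one_apply_ne hne]
        exact l.2 p q hc')
    r hr
  exact ⟨N, hN1, fun w hw => hN2 w fun k hk => hw (ι k) hk k.2⟩

end

end Pool.Agent.Work.MP_dd0ddf_al
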