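import Pool.Agent.Work.MP_dd0ddf_al.DescEx

/-!
# MP_dd0ddf_al, module DescZero: T is determined by its values on the functions E_U f

Use `vanish_local` for `T` and an arbitrary `F : SF X B`: let `x : X` with `F x ≠ 0`; choose `γ` with `γ o = π x` and `x_0 = γ⁻¹ x ∈ Fib`.
Enough: `T` kills all `single K b`, `K` a small compact open neighbourhood... Precisely use `sf_induction`: for every `x` there is an
open `W ∋ x` such that `T (single K b) = 0` for all compact open `K ⊆ W` (all b): translate by `γ⁻¹` (T is invariant,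
`A.op R γ⁻¹ (single K b) = single (γ⁻¹ K) (β(γ⁻¹) b)`): so only `x = x_0 ∈ Fib` matters, but `K ⊆ W` is arbitrary, it need not meet Fib.
Given any `K` compact open and `b`: the function `G = single K b`; every point `y` of `K` is `γ y_0` with `y_0 ∈ Fib`; let
`U` be a compact open subgroup with `β(u) β(γ⁻¹) b = β(γ⁻¹) b` and `U y_0 ⊆ γ⁻¹ K`, and more precisely choose a compact open neighbourhood `L` of
`y_0` in `Fib` with `U L ⊆ γ⁻¹ K`, `L` invariant under the compact group `U ⊓ stab` (replace `L` by `(U ⊓ stab) L`).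
Then `E_U (single L (β(γ⁻¹) b))` = `single (U L) (β(γ⁻¹) b)`, so `T (single (γ U L) b) = 0`.  The sets `γ U L ⊆ K` obtained in this way
(all `y ∈ K`, all sufficiently small `U`, `L`) are a neighbourhood basis of open compact sets at `y`; the family of compact open
`K' ⊆ K` with `T (single K' b) = 0` is closed under disjoint unions, but to write `K` as a DISJOINT union one needs one more remark:
for fixed `U` the sets `U L` (L ⊆ Fib compact open, `U ⊓ stab`-stable) form a Boolean ring (`U L1 \ U L2 = U (L1 \ L2)`).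
Argument: cover `K` by finitely many `K_i = γ_i U_i L_i ⊆ K`.  Let `U` be a compact open subgroup such that `U ⊆ γ_i U_i γ_i⁻¹` for all
`i` (so every `K_i` is `U`-stable) and `β(u) b = b` for `u ∈ U`.  The Boolean combinations `K'` of the `K_i` are `U`-stable
compact open sets, `K' ⊆ K_i ⊆ γ_i U_i Fib`.  For a `U`-stable compact open `K'` with `U` fixing `b`: decompose `π(K')` (compact) into
finitely many `U`-orbits `U γ' o` (open), so `K'` is the disjoint union of the sets `U γ' L'`, `L' = {z ∈ Fib : γ' z ∈ K'}` compact open, and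
`U γ' L' = γ' (γ'⁻¹ U γ') L'`, `single (U γ' L') b = γ' · E_{γ'⁻¹ U γ'} (single L' (β(γ'⁻¹) b))`: killed by `T`.
In fact this last paragraph applies directly to ANY `K`: a compact open `K` is stable under a small compact open subgroup `U`
(same compactness argument as in `eu_small`), so no covering is needed.
-/

set_option linter.unusedSectionVars false
set_option linter.style.haveILetI false

namespace Pool.Agent.Work.MP_dd0ddf_al

noncomputable section

variable {Γ X O B : Type*} [Group Γ] [TopologicalSpace Γ] [IsTopologicalGroup Γ]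
  [LocallyCompactSpace Γ] [T2Space Γ] [TotallyDisconnectedSpace Γ] [SigmaCompactSpace Γ]
  [TopologicalSpace X] [T2Space X] [LocallyCompactSpace X] [TotallyDisconnectedSpace X]
  [TopologicalSpace O] [T2Space O] [AddCommGroup B] [Module ℂ B]

private theorem desczero_ev (D : DescData Γ X O B) (f : SF X B) :
    ∀ᶠ γ in nhds (1 : Γ), ∀ x ∈ tsupport f.1, D.R.β γ (f (D.A.act γ⁻¹ x)) = f x := by
  have hK : IsCompact (tsupport f.1) := f.2.2
  refine hK.eventually_forall_of_forall_eventually ?_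
  intro x _
  have c1 : Continuous fun z : Γ × X => D.A.act z.1⁻¹ z.2 :=
    D.A.cont.comp (continuous_fst.inv.prodMk continuous_snd)
  have hlc := (IsLocallyConstant.iff_eventually_eq _).mp f.2.1 x
  have e1 : ∀ᶠ z : Γ × X in nhds (1, x), f.1 (D.A.act z.1⁻¹ z.2) = f.1 x := by
    have : Filter.Tendsto (fun z : Γ × X => D.A.act z.1⁻¹ z.2) (nhds (1, x)) (nhds x) := by
      have h := c1.continuousAt (x := ((1, x) : Γ × X))
      unfold ContinuousAt at h
      simp only [inv_one, D.A.one] at h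
      exact h
    exact this.eventually hlc
  have e2 : ∀ᶠ z : Γ × X in nhds (1, x), f.1 z.2 = f.1 x :=
    (continuous_snd.continuousAt (x := ((1, x) : Γ × X))).eventually hlc
  obtain ⟨V, hV, hV1, hVb⟩ := D.R.smooth (f.1 x)
  have e3 : ∀ᶠ z : Γ × X in nhds (1, x), z.1 ∈ V :=
    (continuous_fst.continuousAt (x := ((1, x) : Γ × X))).eventually (hV.mem_nhds hV1)
  filter_upwards [e1, e2, e3] with z h1 h2 h3
  show D.R.β z.1 (f.1 (D.A.act z.1⁻¹ z.2)) = f.1 z.2
  rw [h1, h2, hVb _ h3]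

private theorem desczero_small (D : DescData Γ X O B) (f : SF X B) :
    ∃ U : Subgroup Γ, DescData.CO U ∧ ∀ γ ∈ U, ∀ x, f (D.A.act γ x) = D.R.β γ (f x) := by
  obtain ⟨V, hV, hVo, hV1⟩ := eventually_nhds_iff.1 (desczero_ev D f)
  obtain ⟨U, hU, hUV⟩ := co_basis V hVo hV1
  have key : ∀ γ ∈ U, ∀ x ∈ tsupport f.1, D.R.β γ (f (D.A.act γ⁻¹ x)) = f x :=
    fun γ hγ => hV γ (hUV hγ)
  have key2 : ∀ γ ∈ U, ∀ x, D.R.β γ (f (D.A.act γ⁻¹ x)) = f x := by
    intro γ hγ x
    by_cases hx : x ∈ tsupport f.1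
    · exact key γ hγ x hx
    · have h0 : f x = 0 := image_eq_zero_of_notMem_tsupport hx
      have h1 : f (D.A.act γ⁻¹ x) = 0 := by
        by_contra hne
        have hy : D.A.act γ⁻¹ x ∈ tsupport f.1 := subset_tsupport _ hne
        have h2 := key γ⁻¹ (U.inv_mem hγ) _ hy
        rw [inv_inv, D.A.act_inv, h0, map_zero] at h2
        exact hne h2.symm
      rw [h1, map_zero, h0]
  refine ⟨U, hU, fun γ hγ x => ?_⟩
  have := key2 γ hγ (D.A.act γ x)
  rw [D.A.inv_act] at this
  exact this.symm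

/-- the `U`-orbit of `γ o` -/
private def desczero_orb (D : DescData Γ X O B) (U : Subgroup Γ) (γ : Γ) : Set O :=
  {y | ∃ u ∈ U, D.C.act (u * γ) D.o = y}

private theorem desczero_orb_clopen (D : DescData Γ X O B) {U : Subgroup Γ} (hU : DescData.CO U)
    (γ : Γ) : IsClopen (desczero_orb D U γ) := by
  have hset : desczero_orb D U γ =
      (fun g => D.C.act g D.o) '' ((fun u => u * γ) '' (U : Set Γ)) := by
    ext y
    constructor
    · rintro ⟨u, hu, h⟩
      exact ⟨u * γ, ⟨u, hu, rfl⟩, h⟩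
    · rintro ⟨_, ⟨u, hu, rfl⟩, h⟩
      exact ⟨u, hu, h⟩
  have hcont : Continuous fun g : Γ => D.C.act g D.o :=
    D.C.cont.comp (continuous_id.prodMk continuous_const)
  rw [hset]
  constructor
  · exact ((hU.2.image (continuous_id.mul continuous_const)).image hcont).isClosed
  · exact D.opn _ ((isOpenMap_mul_right γ) _ hU.1)

private theorem desczero_orb_eq (D : DescData Γ X O B) {U : Subgroup Γ} {γ γ' : Γ} {y : O}
    (h : y ∈ desczero_orb D U γ) (h' : y ∈ desczero_orb D U γ') :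
    desczero_orb D U γ = desczero_orb D U γ' := by
  have key : ∀ {γ γ' : Γ}, y ∈ desczero_orb D U γ → y ∈ desczero_orb D U γ' →
      desczero_orb D U γ ⊆ desczero_orb D U γ' := by
    rintro γ γ' ⟨u, hu, h1⟩ ⟨v, hv, h2⟩ z ⟨w, hw, rfl⟩
    refine ⟨w * (u⁻¹ * v), U.mul_mem hw (U.mul_mem (U.inv_mem hu) hv), ?_⟩
    have e1 : D.C.act γ' D.o = D.C.act v⁻¹ y := by
      rw [← h2, D.C.mul, D.C.inv_act]
    have e2 : D.C.act γ D.o = D.C.act u⁻¹ y := by
      rw [← h1, D.C.mul, D.C.inv_act]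
    rw [D.C.mul, e1, D.C.mul, D.C.mul, D.C.act_inv, ← e2, ← D.C.mul]
  exact (key h h').antisymm (key h' h)

private theorem desczero_cj_CO {γ : Γ} {U : Subgroup Γ} (hU : DescData.CO U) :
    DescData.CO (U.map (MulAut.conj γ : Γ ≃* Γ).toMonoidHom) := by
  have h1 : Continuous fun x : Γ => γ * x * γ⁻¹ :=
    (continuous_const.mul continuous_id).mul continuous_const
  have h2 : Continuous fun x : Γ => γ⁻¹ * x * γ :=
    (continuous_const.mul continuous_id).mul continuous_const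
  constructor
  · have : ((U.map (MulAut.conj γ : Γ ≃* Γ).toMonoidHom : Subgroup Γ) : Set Γ) =
        (fun x : Γ => γ⁻¹ * x * γ) ⁻¹' (U : Set Γ) := by
      ext x
      constructor
      · rintro ⟨y, hy, rfl⟩
        show γ⁻¹ * (γ * y * γ⁻¹) * γ ∈ U
        have : γ⁻¹ * (γ * y * γ⁻¹) * γ = y := by group
        rw [this]
        exact hy
      · intro hx
        exact ⟨γ⁻¹ * x * γ, hx, by
          show γ * (γ⁻¹ * x * γ) * γ⁻¹ = x
          group⟩
    rw [this]
    exact hU.1.preimage h2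
  · exact hU.2.image h1

private theorem desczero_piece (D : DescData Γ X O B) {U : Subgroup Γ} (hU : DescData.CO U)
    (F : SF X B) (hF : ∀ γ ∈ U, ∀ x, F (D.A.act γ x) = D.R.β γ (F x)) (γ : Γ)
    (hcl : IsClopen (D.π ⁻¹' desczero_orb D U γ))
    (T : SF X B →ₗ[ℂ] ℂ)
    (hT : ∀ γ f, T (D.A.op D.R γ f) = T f)
    (h : ∀ U f F, DescData.CO U → D.IsEU U f F → T F = 0) :
    T (SF.ind (D.π ⁻¹' desczero_orb D U γ) hcl F) = 0 := by
  have hclF : IsClosed {x : X | D.π x = D.o} := isClosed_eq D.hπ continuous_const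
  rw [← hT γ⁻¹]
  refine h (U.map (MulAut.conj γ⁻¹ : Γ ≃* Γ).toMonoidHom)
    (SF.restr {x : X | D.π x = D.o} hclF (D.A.op D.R γ⁻¹ F)) _ (desczero_cj_CO hU) ⟨?_, ?_⟩
  · rintro _ ⟨u, hu, rfl⟩ z
    show D.R.β γ⁻¹ ((SF.ind (D.π ⁻¹' desczero_orb D U γ) hcl F)
        (D.A.act γ⁻¹⁻¹ (D.A.act (γ⁻¹ * u * γ⁻¹⁻¹) z.1))) =
      D.R.β (γ⁻¹ * u * γ⁻¹⁻¹) (D.R.β γ⁻¹ (F (D.A.act γ⁻¹⁻¹ z.1)))
    have e1 : D.A.act γ⁻¹⁻¹ (D.A.act (γ⁻¹ * u * γ⁻¹⁻¹) z.1) = D.A.act u (D.A.act γ z.1) := by
      rw [← D.A.mul, ← D.A.mul]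
      congr 1
      group
    have hz : D.π z.1 = D.o := z.2
    have hmem : D.A.act u (D.A.act γ z.1) ∈ D.π ⁻¹' desczero_orb D U γ := by
      refine ⟨u, hu, ?_⟩
      rw [D.eqv, D.eqv, hz, D.C.mul]
    rw [e1, SF.ind_apply_mem _ _ _ _ hmem, hF u hu, inv_inv]
    have e3 : D.R.β (γ⁻¹ * u * γ) * D.R.β γ⁻¹ = D.R.β γ⁻¹ * D.R.β u := by
      rw [← map_mul, ← map_mul]
      congr 1
      group
    exact (congrArg (fun φ : Module.End ℂ B => φ (F (D.A.act γ z.1))) e3).symm
  · intro x hx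
    show D.R.β γ⁻¹ ((SF.ind (D.π ⁻¹' desczero_orb D U γ) hcl F) (D.A.act γ⁻¹⁻¹ x)) = 0
    rw [SF.ind_apply_not_mem, map_zero]
    rintro ⟨u, hu, h1⟩
    apply hx (γ⁻¹ * u * γ⁻¹⁻¹) ⟨u, hu, rfl⟩
    rw [inv_inv, D.eqv] at h1
    rw [inv_inv, mul_assoc, D.C.mul, h1, D.C.inv_act]

theorem desc_zero (D : DescData Γ X O B) (T : SF X B →ₗ[ℂ] ℂ)
    (hT : ∀ γ f, T (D.A.op D.R γ f) = T f)
    (h : ∀ U f F, DescData.CO U → D.IsEU U f F → T F = 0) : T = 0 := by
  classical
  apply LinearMap.ext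
  intro F
  rw [LinearMap.zero_apply]
  obtain ⟨U, hU, hF⟩ := desczero_small D F
  have hcl : ∀ γ, IsClopen (D.π ⁻¹' desczero_orb D U γ) := fun γ =>
    (desczero_orb_clopen D hU γ).preimage D.hπ
  obtain ⟨s, hs⟩ : ∃ s : Finset Γ, tsupport F.1 ⊆ ⋃ γ ∈ s, D.π ⁻¹' desczero_orb D U γ := by
    have hK : IsCompact (tsupport F.1) := F.2.2
    refine hK.elim_finite_subcover _ (fun γ => (hcl γ).isOpen) ?_
    intro x _
    obtain ⟨γ, hγ⟩ := D.tr (D.π x)
    exact Set.mem_iUnion.2 ⟨γ, ⟨1, U.one_mem, by rw [one_mul]; exact hγ⟩⟩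
  let G : Set O → SF X B := fun C => if hC : IsClopen (D.π ⁻¹' C) then SF.ind _ hC F else 0
  have hG : ∀ γ, G (desczero_orb D U γ) = SF.ind _ (hcl γ) F := fun γ => dif_pos (hcl γ)
  have hGx : ∀ (C : Set O) (x : X), IsClopen (D.π ⁻¹' C) →
      (G C).1 x = if D.π x ∈ C then F.1 x else 0 := by
    intro C x hC
    have e : G C = SF.ind _ hC F := dif_pos hC
    rw [e]
    split_ifs with hx
    · exact SF.ind_apply_mem _ hC F x hx
    · exact SF.ind_apply_not_mem _ hC F x hx
  have hsum : F = ∑ C ∈ s.image (desczero_orb D U), G C := by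
    apply SF.ext
    intro x
    have hev : (∑ C ∈ s.image (desczero_orb D U), G C).1 x =
        ∑ C ∈ s.image (desczero_orb D U), (if D.π x ∈ C then F.1 x else 0) := by
      rw [Submodule.coe_sum, Finset.sum_apply]
      refine Finset.sum_congr rfl fun C hC => ?_
      obtain ⟨γ, -, rfl⟩ := Finset.mem_image.1 hC
      exact hGx _ x (hcl γ)
    rw [hev]
    by_cases hx : F.1 x = 0
    · simp [hx]
    · obtain ⟨γ, hγ, hxγ⟩ := Set.mem_iUnion₂.1 (hs (subset_tsupport _ hx))
      rw [Finset.sum_eq_single (desczero_orb D U γ)]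
      · rw [if_pos (show D.π x ∈ desczero_orb D U γ from hxγ)]
      · intro C hC hne
        obtain ⟨γ', -, rfl⟩ := Finset.mem_image.1 hC
        rw [if_neg]
        intro hx'
        exact hne (desczero_orb_eq D hx' hxγ)
      · intro hn
        exact absurd (Finset.mem_image_of_mem _ hγ) hn
  rw [hsum, map_sum]
  refine Finset.sum_eq_zero fun C hC => ?_
  obtain ⟨γ, -, rfl⟩ := Finset.mem_image.1 hC
  rw [hG]
  exact desczero_piece D hU F hF γ (hcl γ) T hT h

end

end Pool.Agent.Work.MP_dd0ddf_al
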