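import Pool.Agent.Work.MP_dd0ddf_al.WfLR
import Pool.Agent.Work.MP_dd0ddf_al.WrRep

/-!
# MP_dd0ddf_al, module GkDefs: Heisenberg representations, smooth duals, irreducible admissible representations (definitions, fill the sorries)
-/

set_option linter.unusedSectionVars false
set_option linter.style.haveILetI false

namespace Pool.Agent.Work.MP_dd0ddf_al

noncomputable section

universe u

/-- smooth representation -/
def SmRep {G P : Type*} [Group G] [TopologicalSpace G] [AddCommGroup P] [Module ℂ P]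
    (π : G →* Module.End ℂ P) : Prop :=
  ∀ w : P, ∃ U : Set G, IsOpen U ∧ (1 : G) ∈ U ∧ ∀ g ∈ U, π g w = w

/-- irreducible admissible smooth representation -/
structure IrrAdm {G P : Type*} [Group G] [TopologicalSpace G] [AddCommGroup P] [Module ℂ P]
    (π : G →* Module.End ℂ P) : Prop where
  smooth : SmRep π
  nontriv : ∃ w : P, w ≠ 0
  irr : ∀ N : Submodule ℂ P, (∀ g, ∀ w ∈ N, π g w ∈ N) → N = ⊥ ∨ N = ⊤
  adm : ∀ K : Subgroup G, IsOpen (K : Set G) → ∃ N : Submodule ℂ P, Module.Finite ℂ N ∧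
    ∀ w : P, (∀ k ∈ K, π k w = w) → w ∈ N

/-- the smooth dual -/
def sdual {G P : Type*} [Group G] [TopologicalSpace G] [AddCommGroup P] [Module ℂ P]
    (π : G →* Module.End ℂ P) : Submodule ℂ (Module.Dual ℂ P) where
  carrier := {ξ | ∃ U : Set G, IsOpen U ∧ (1 : G) ∈ U ∧ ∀ g ∈ U, ∀ w, ξ (π g w) = ξ w}
  add_mem' := fun {a b} ha hb => by
    obtain ⟨U, hU, h1, h⟩ := ha
    obtain ⟨U', hU', h1', h'⟩ := hb
    exact ⟨U ∩ U', hU.inter hU', ⟨h1, h1'⟩, fun g hg w => by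
      show a (π g w) + b (π g w) = a w + b w
      rw [h g hg.1 w, h' g hg.2 w]⟩
  zero_mem' := ⟨Set.univ, isOpen_univ, Set.mem_univ _, fun g _ w => rfl⟩
  smul_mem' := fun c a ha => by
    obtain ⟨U, hU, h1, h⟩ := ha
    exact ⟨U, hU, h1, fun g hg w => by
      show c • a (π g w) = c • a w
      rw [h g hg w]⟩

/-- the contragredient action `ξ ↦ ξ ∘ π(g⁻¹)` -/
def sdAct {G P : Type*} [Group G] [TopologicalSpace G] [IsTopologicalGroup G] [AddCommGroup P]
    [Module ℂ P] (π : G →* Module.End ℂ P) : G →* Module.End ℂ (sdual π) where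
  toFun g :=
    { toFun := fun ξ => ⟨ξ.1 ∘ₗ π g⁻¹, by
        obtain ⟨U, hU, h1, h⟩ := ξ.2
        refine ⟨(fun k => g⁻¹ * k * g) ⁻¹' U,
          hU.preimage ((continuous_const.mul continuous_id).mul continuous_const), ?_, ?_⟩
        · show g⁻¹ * 1 * g ∈ U
          rw [mul_one, inv_mul_cancel]
          exact h1
        · intro k hk w
          show ξ.1 (π g⁻¹ (π k w)) = ξ.1 (π g⁻¹ w)
          have e1 : π g⁻¹ (π k w) = π (g⁻¹ * k * g) (π g⁻¹ w) := by
            rw [← Module.End.mul_apply, ← Module.End.mul_apply, ← map_mul, ← map_mul]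
            congr 2
            rw [mul_assoc, mul_inv_cancel, mul_one]
          rw [e1]
          exact h _ hk _⟩
      map_add' := fun a b => rfl
      map_smul' := fun c a => rfl }
  map_one' := by
    apply LinearMap.ext
    intro ξ
    apply Subtype.ext
    apply LinearMap.ext
    intro w
    show ξ.1 (π 1⁻¹ w) = ξ.1 w
    rw [inv_one, map_one]
    rfl
  map_mul' := by
    intro g h
    apply LinearMap.ext
    intro ξ
    apply Subtype.ext
    apply LinearMap.ext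
    intro w
    show ξ.1 (π (g * h)⁻¹ w) = ξ.1 (π h⁻¹ (π g⁻¹ w))
    rw [mul_inv_rev, map_mul]
    rfl

theorem sdAct_apply {G P : Type*} [Group G] [TopologicalSpace G] [IsTopologicalGroup G]
    [AddCommGroup P] [Module ℂ P] (π : G →* Module.End ℂ P) (g : G) (ξ : sdual π) (w : P) :
    (sdAct π g ξ).1 w = ξ.1 (π g⁻¹ w) := rfl

variable {F E : Type u} [NontriviallyNormedField F] [IsUltrametricDist F] [ProperSpace F]
  [CharZero F] [NontriviallyNormedField E] [NormedAlgebra F E] [ProperSpace E] [StarRing E]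
  [QExt F E]
variable {V : Type u} [AddCommGroup V] [Module E V] [Module.Finite E V] [TopologicalSpace V]
  [IsTopologicalAddGroup V] [T2Space V] [ContinuousSMul E V]
variable {S : Type*} [AddCommGroup S] [Module ℂ S]

/-- irreducible smooth representation of the Heisenberg group of `V` with central character `ψ` -/
structure Heis (B : SkewH E V) (p : PChar F) (S : Type*) [AddCommGroup S] [Module ℂ S] where
  ρ : V → Module.End ℂ S
  mul : ∀ v w, ρ v * ρ w = p.ψ (2⁻¹ * om F B v w) • ρ (v + w)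
  one : ρ 0 = 1
  smooth : ∀ s : S, ∃ U : Set V, IsOpen U ∧ (0 : V) ∈ U ∧ ∀ v ∈ U, ρ v s = s
  nontriv : ∃ s : S, s ≠ 0
  irr : ∀ N : Submodule ℂ S, (∀ v, ∀ s ∈ N, ρ v s ∈ N) → N = ⊥ ∨ N = ⊤

/-- the smooth dual -/
def Heis.sd {B : SkewH E V} {p : PChar F} (H : Heis B p S) : Submodule ℂ (Module.Dual ℂ S) where
  carrier := {lam | ∃ U : Set V, IsOpen U ∧ (0 : V) ∈ U ∧ ∀ v ∈ U, ∀ s, lam (H.ρ v s) = lam s}
  add_mem' := fun {a b} ha hb => by
    obtain ⟨U, hU, h1, h⟩ := ha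
    obtain ⟨U', hU', h1', h'⟩ := hb
    exact ⟨U ∩ U', hU.inter hU', ⟨h1, h1'⟩, fun g hg w => by
      show a (H.ρ g w) + b (H.ρ g w) = a w + b w
      rw [h g hg.1 w, h' g hg.2 w]⟩
  zero_mem' := ⟨Set.univ, isOpen_univ, Set.mem_univ _, fun g _ w => rfl⟩
  smul_mem' := fun c a ha => by
    obtain ⟨U, hU, h1, h⟩ := ha
    exact ⟨U, hU, h1, fun g hg w => by
      show c • a (H.ρ g w) = c • a w
      rw [h g hg w]⟩

private theorem gkd_psi_zero (p : PChar F) : p.ψ 0 = 1 := by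
  have h := p.add 0 0
  rw [add_zero] at h
  have hn : p.ψ 0 ≠ 0 := by
    intro h0
    have := p.norm_one 0
    rw [h0, norm_zero] at this
    exact zero_ne_one this
  exact (mul_right_cancel₀ hn (by rw [one_mul]; exact h)).symm

private theorem gkd_zero_right (B : SkewH E V) (x : V) : om F B x 0 = 0 := by
  have h := om_add_right (F := F) B x 0 0
  rw [add_zero] at h
  exact left_eq_add.1 h

/-- commutation of `ρ(x)` and `ρ(v)` -/
private theorem gkd_comm {B : SkewH E V} {p : PChar F} (H : Heis B p S) (x v : V) (s : S) :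
    H.ρ x (H.ρ v s) = p.ψ (om F B x v) • H.ρ v (H.ρ x s) := by
  have e1 := congrArg (fun T : Module.End ℂ S => T s) (H.mul x v)
  have e2 := congrArg (fun T : Module.End ℂ S => T s) (H.mul v x)
  have e1' : H.ρ x (H.ρ v s) = p.ψ (2⁻¹ * om F B x v) • H.ρ (x + v) s := e1
  have e2' : H.ρ v (H.ρ x s) = p.ψ (2⁻¹ * om F B v x) • H.ρ (v + x) s := e2
  rw [e1', e2', add_comm v x, smul_smul, ← p.add, om_swap B x v]
  congr 2
  have h2 : (2 : F) ≠ 0 := two_ne_zero
  field_simp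
  ring

private theorem gkd_rd_mem {B : SkewH E V} {p : PChar F} (H : Heis B p S) (x : V) (lam : H.sd) :
    lam.1 ∘ₗ H.ρ (-x) ∈ H.sd := by
  obtain ⟨U, hU, h1, h⟩ := lam.2
  have hlc : IsLocallyConstant (fun v : V => p.ψ (om F B (-x) v)) :=
    p.lc.comp_continuous (continuous_om_right B (-x))
  obtain ⟨W, hW, hW0, hWc⟩ := IsLocallyConstant.exists_open hlc (0 : V)
  refine ⟨U ∩ W, hU.inter hW, ⟨h1, hW0⟩, fun v hv s => ?_⟩
  show lam.1 (H.ρ (-x) (H.ρ v s)) = lam.1 (H.ρ (-x) s)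
  have e : p.ψ (om F B (-x) v) = 1 := by
    rw [hWc v hv.2, gkd_zero_right, gkd_psi_zero]
  rw [gkd_comm H, e, one_smul]
  exact h v hv.1 _

/-- `ρ^∨(x) lam = lam ∘ ρ(-x)` -/
def Heis.rd {B : SkewH E V} {p : PChar F} (H : Heis B p S) (x : V) : H.sd →ₗ[ℂ] H.sd where
  toFun lam := ⟨lam.1 ∘ₗ H.ρ (-x), gkd_rd_mem H x lam⟩
  map_add' a b := rfl
  map_smul' c a := rfl

/-- a smooth action of `U(V)` on `S` compatible with `ρ` (e.g. the Weil representation
`ω_{V,ψ,μ}`) -/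
structure OmRep {B : SkewH E V} {p : PChar F} (H : Heis B p S) where
  ω : UU B →* Module.End ℂ S
  comm : ∀ (h : UU B) (v : V), ω h * H.ρ v = H.ρ (h.1.1 v) * ω h
  smooth : ∀ s : S, ∃ U : Set (UU B), IsOpen U ∧ (1 : UU B) ∈ U ∧ ∀ h ∈ U, ω h s = s

/-- `ω^∨(h) lam = lam ∘ ω(h⁻¹)` -/
def OmRep.od {B : SkewH E V} {p : PChar F} {H : Heis B p S} (O : OmRep H) (h : UU B) :
    H.sd →ₗ[ℂ] H.sd where
  toFun lam := ⟨lam.1 ∘ₗ O.ω h⁻¹, by
    obtain ⟨U, hU, h1, hl⟩ := lam.2
    have hc : Continuous (fun v : V => h⁻¹.1.1 v) := LinearMap.continuous_of_finiteDimensional _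
    refine ⟨(fun v : V => h⁻¹.1.1 v) ⁻¹' U, hU.preimage hc, ?_, fun v hv s => ?_⟩
    · show h⁻¹.1.1 0 ∈ U
      rw [map_zero]
      exact h1
    · show lam.1 (O.ω h⁻¹ (H.ρ v s)) = lam.1 (O.ω h⁻¹ s)
      have e := congrArg (fun T : Module.End ℂ S => T s) (O.comm h⁻¹ v)
      have e' : O.ω h⁻¹ (H.ρ v s) = H.ρ (h⁻¹.1.1 v) (O.ω h⁻¹ s) := e
      rw [e']
      exact hl _ hv _⟩
  map_add' a b := rfl
  map_smul' c a := rfl

/-- the space `Hom_{U(V)}(Π, ω)` -/
def HomU {P : Type*} [AddCommGroup P] [Module ℂ P] {B : SkewH E V} (π : GV E V →* Module.End ℂ P)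
    (ω : UU B →* Module.End ℂ S) : Submodule ℂ (P →ₗ[ℂ] S) where
  carrier := {l | ∀ (h : UU B) (w : P), l (π h.1 w) = ω h (l w)}
  add_mem' := fun {a b} ha hb h w => by
    show a (π h.1 w) + b (π h.1 w) = ω h (a w + b w)
    rw [ha h w, hb h w, map_add]
  zero_mem' := fun h w => by
    show (0 : S) = ω h 0
    rw [map_zero]
  smul_mem' := fun c a ha h w => by
    show c • a (π h.1 w) = ω h (c • a w)
    rw [ha h w, map_smul]

end

end Pool.Agent.Work.MP_dd0ddf_al
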