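import Pool.Agent.Work.MP_dd0ddf_al.FourDefs

/-!
# MP_dd0ddf_al, module FourSpan: the characters `χ(·, w)` span the locally constant functions on compact sets

`dual_sep`: let `K` be a compact open subgroup and `M ⊆ K` an open subgroup.  By compactness of `K \ M` and nondegeneracy there is a finite
set `W0` with `K ∩ W0^⊥ ⊆ M`, `M' := K ∩ W0^⊥`, an open subgroup of `K` (each `χ(·,w)` is locally constant and K/M' finite).  The characters of the finite abelian
group `K/M'` of the form `χ(·, w)`, `w` in the subgroup generated by `W0`, separate points, hence they are all characters of `K/M'` (finite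
abelian duality; or: linear algebra: the algebra of functions on a finite set generated by functions separating points is everything; characters are
closed under products, so their span is an algebra, closed under star, separating points: it contains all functions on `K/M'`).
So every function on `K` which is constant on cosets of `M'` (in particular of `M`) is a linear combination of `χ(·, w)|_K`.
`mod_span`: for `f : SF U B`... statement: for every locally constant `c : U → ℂ` and compact open `K` there is a finite linear combination of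
characters `χ(·,w)` agreeing with `c` on `K` (enlarge `K` to a compact open subgroup... K is contained in a compact open SET, not subgroup in
general; but `U` need not be a union of compact subgroups.  We therefore ASSUME it: hypothesis `hU`: every compact set is contained in a compact open
subgroup; it holds for vector spaces over p-adic fields).
`perp_perp`: for a compact open subgroup `L` and `v ∉ L` there is `w` with `χ(·,w) = 1` on `L` and `χ(v,w) ≠ 1`: take a compact open
subgroup `K` containing `L` and `v` and the function `1_L` on `K`: `1_L = ∑ c_w χ(·,w)` on K; average over translation by L: only `w ∈ L^⊥` remain;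
since `1_L(v) ≠ 1_L(0)` some `w ∈ L^⊥` has `χ(v,w) ≠ 1`.
-/

set_option linter.unusedSectionVars false
set_option linter.style.haveILetI false

namespace Pool.Agent.Work.MP_dd0ddf_al

noncomputable section

variable {U : Type*} [AddCommGroup U] [TopologicalSpace U] [IsTopologicalAddGroup U]
  [LocallyCompactSpace U] [T2Space U] [TotallyDisconnectedSpace U]
  {X : Type*} [TopologicalSpace X] [T2Space X] [LocallyCompactSpace X]
  [TotallyDisconnectedSpace X]
  {B B' : Type*} [AddCommGroup B] [Module ℂ B] [AddCommGroup B'] [Module ℂ B']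

/-- every compact set is contained in a compact open subgroup -/
def UnionCompact (U : Type*) [AddCommGroup U] [TopologicalSpace U] : Prop :=
  ∀ K : Set U, IsCompact K → ∃ L : AddSubgroup U, IsOpen (L : Set U) ∧ IsCompact (L : Set U) ∧
    K ⊆ L

/-- the characters as a submonoid of the functions -/
private def fourspan_M (χ : BiChar U) : Submonoid (U → ℂ) where
  carrier := Set.range (fun w : U => fun v : U => χ.χ v w)
  mul_mem' := by
    rintro _ _ ⟨w, rfl⟩ ⟨w', rfl⟩
    refine ⟨w + w', ?_⟩
    funext v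
    exact χ.addr v w w'
  one_mem' := by
    refine ⟨0, ?_⟩
    funext v
    show χ.χ v 0 = 1
    have h := χ.addr v 0 0
    rw [add_zero] at h
    have hn : χ.χ v 0 ≠ 0 := by
      intro h0
      have := χ.norm v 0
      rw [h0, norm_zero] at this
      exact zero_ne_one this
    exact (mul_right_cancel₀ hn (by rw [one_mul]; exact h)).symm

private def fourspan_A (χ : BiChar U) : Subalgebra ℂ (U → ℂ) :=
  Algebra.adjoin ℂ (fourspan_M χ : Set (U → ℂ))

private theorem fourspan_char (χ : BiChar U) (w : U) :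
    (fun v : U => χ.χ v w) ∈ fourspan_A χ :=
  Algebra.subset_adjoin ⟨w, rfl⟩

private theorem fourspan_exists (χ : BiChar U) {g : U → ℂ} (hg : g ∈ fourspan_A χ) :
    ∃ (s : Finset U) (a : U → ℂ), ∀ v, g v = ∑ w ∈ s, a w * χ.χ v w := by
  have h1 : g ∈ Submodule.span ℂ (Set.range (fun w : U => fun v : U => χ.χ v w)) := by
    have h2 : g ∈ Subalgebra.toSubmodule (fourspan_A χ) := hg
    rw [fourspan_A, Algebra.adjoin_eq_span, Submonoid.closure_eq] at h2
    exact h2
  obtain ⟨c, hc⟩ := Finsupp.mem_span_range_iff_exists_finsupp.1 h1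
  refine ⟨c.support, c, fun v => ?_⟩
  rw [← hc, Finsupp.sum, Finset.sum_apply]
  rfl

private theorem fourspan_step1 (χ : BiChar U) (L : Set U) (hL : IsCompact L) (x w : U) :
    ∃ e ∈ fourspan_A χ, ∀ v ∈ L, (χ.χ v w = χ.χ x w → e v = 1) ∧
      (χ.χ v w ≠ χ.χ x w → e v = 0) := by
  classical
  have hfin : ((fun v => χ.χ v w) '' L).Finite := by
    letI : TopologicalSpace ℂ := ⊥
    haveI : DiscreteTopology ℂ := ⟨rfl⟩
    have hc : Continuous (fun v => χ.χ v w) := (χ.lcl w).continuous
    exact (hL.image hc).finite_of_discrete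
  let Z : Finset ℂ := hfin.toFinset.erase (χ.χ x w)
  let h : U → ℂ := fun v => χ.χ v w
  refine ⟨∏ z ∈ Z, ((χ.χ x w - z)⁻¹ • (h - algebraMap ℂ (U → ℂ) z)), ?_, ?_⟩
  · refine Subalgebra.prod_mem _ fun z _ => ?_
    refine Subalgebra.smul_mem _ ?_ _
    exact Subalgebra.sub_mem _ (fourspan_char χ w) (Subalgebra.algebraMap_mem _ z)
  · intro v hv
    rw [Finset.prod_apply]
    constructor
    · intro hvx
      refine Finset.prod_eq_one fun z hz => ?_
      have hz' : z ≠ χ.χ x w := (Finset.mem_erase.1 hz).1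
      show (χ.χ x w - z)⁻¹ * (χ.χ v w - z) = 1
      rw [hvx]
      exact inv_mul_cancel₀ (sub_ne_zero.2 (Ne.symm hz'))
    · intro hvx
      have hz : χ.χ v w ∈ Z :=
        Finset.mem_erase.2 ⟨hvx, hfin.mem_toFinset.2 ⟨v, hv, rfl⟩⟩
      refine Finset.prod_eq_zero hz ?_
      show (χ.χ x w - χ.χ v w)⁻¹ * (χ.χ v w - χ.χ v w) = 0
      rw [sub_self, mul_zero]

private theorem fourspan_sep (χ : BiChar U) {x y : U} (h : x ≠ y) :
    ∃ w, χ.χ y w ≠ χ.χ x w := by
  by_contra hcon
  push Not at hcon
  apply h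
  have h0 : y - x = 0 := by
    apply χ.nd
    intro w
    have h1 := χ.addl (y - x) x w
    rw [sub_add_cancel, hcon w] at h1
    have hn : χ.χ x w ≠ 0 := by
      intro h0
      have := χ.norm x w
      rw [h0, norm_zero] at this
      exact zero_ne_one this
    exact (mul_right_cancel₀ hn (by rw [one_mul]; exact h1)).symm
  exact (sub_eq_zero.1 h0).symm

private theorem fourspan_step2 (χ : BiChar U) (L : Set U) (hL : IsCompact L) (x : U)
    (N : Set U) (hN : IsOpen N) (hxN : x ∈ N) :
    ∃ e ∈ fourspan_A χ, (∀ᶠ v in nhdsWithin x L, e v = 1) ∧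
      ∀ v ∈ L, e v = 0 ∨ (e v = 1 ∧ v ∈ N) := by
  have key : ∃ e ∈ fourspan_A χ, (∀ᶠ v in nhdsWithin x L, e v = 1) ∧
      (∀ v ∈ L, e v = 0 ∨ e v = 1) ∧ ∀ v ∈ L \ N, e v = 0 := by
    have hcomp : IsCompact (L \ N) := hL.diff hN
    refine hcomp.induction_on (p := fun S => ∃ e ∈ fourspan_A χ,
      (∀ᶠ v in nhdsWithin x L, e v = 1) ∧ (∀ v ∈ L, e v = 0 ∨ e v = 1) ∧ ∀ v ∈ S, e v = 0)
      ?_ ?_ ?_ ?_
    · exact ⟨1, Subalgebra.one_mem _, Filter.Eventually.of_forall fun _ => rfl,
        fun v _ => Or.inr rfl, fun v hv => absurd hv (Set.notMem_empty v)⟩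
    · rintro s t hst ⟨e, h1, h2, h3, h4⟩
      exact ⟨e, h1, h2, h3, fun v hv => h4 v (hst hv)⟩
    · rintro s t ⟨e, h1, h2, h3, h4⟩ ⟨e', h1', h2', h3', h4'⟩
      refine ⟨e * e', Subalgebra.mul_mem _ h1 h1', ?_, ?_, ?_⟩
      · filter_upwards [h2, h2'] with v a b
        rw [Pi.mul_apply, a, b, one_mul]
      · intro v hv
        rw [Pi.mul_apply]
        rcases h3 v hv with a | a
        · left
          rw [a, zero_mul]
        · rcases h3' v hv with b | b
          · left
            rw [b, mul_zero]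
          · right
            rw [a, b, one_mul]
      · rintro v (hv | hv)
        · rw [Pi.mul_apply, h4 v hv, zero_mul]
        · rw [Pi.mul_apply, h4' v hv, mul_zero]
    · intro y hy
      have hne : x ≠ y := fun h => hy.2 (h ▸ hxN)
      obtain ⟨w, hw⟩ := fourspan_sep χ hne
      obtain ⟨e, he, h⟩ := fourspan_step1 χ L hL x w
      have hlc := fun z => (IsLocallyConstant.iff_eventually_eq _).mp (χ.lcl w) z
      refine ⟨{v | v ∈ L ∧ χ.χ v w = χ.χ y w}, ?_, e, he, ?_, ?_, ?_⟩
      · have h1 : ∀ᶠ v in nhdsWithin y (L \ N), χ.χ v w = χ.χ y w :=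
          (hlc y).filter_mono nhdsWithin_le_nhds
        filter_upwards [h1, self_mem_nhdsWithin] with v a b
        exact ⟨b.1, a⟩
      · have h1 : ∀ᶠ v in nhdsWithin x L, χ.χ v w = χ.χ x w :=
          (hlc x).filter_mono nhdsWithin_le_nhds
        filter_upwards [h1, self_mem_nhdsWithin] with v a b
        exact (h v b).1 a
      · intro v hv
        by_cases hvx : χ.χ v w = χ.χ x w
        · exact Or.inr ((h v hv).1 hvx)
        · exact Or.inl ((h v hv).2 hvx)
      · rintro v ⟨hv, hv'⟩
        exact (h v hv).2 (by rw [hv']; exact hw)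
  obtain ⟨e, h1, h2, h3, h4⟩ := key
  refine ⟨e, h1, h2, fun v hv => ?_⟩
  rcases h3 v hv with a | a
  · exact Or.inl a
  · by_cases hvN : v ∈ N
    · exact Or.inr ⟨a, hvN⟩
    · exact Or.inl (h4 v ⟨hv, hvN⟩)

private theorem fourspan_step3 (χ : BiChar U) (c : U → ℂ) (hc : IsLocallyConstant c)
    (L : Set U) (hL : IsCompact L) : ∃ g ∈ fourspan_A χ, ∀ v ∈ L, g v = c v := by
  have key : ∃ e ∈ fourspan_A χ, ∃ g ∈ fourspan_A χ, (∀ v ∈ L, e v = 1) ∧
      ∀ v ∈ L, g v = e v * c v := by
    refine hL.induction_on (p := fun S => ∃ e ∈ fourspan_A χ, ∃ g ∈ fourspan_A χ,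
      (∀ v ∈ S, e v = 1) ∧ ∀ v ∈ L, g v = e v * c v) ?_ ?_ ?_ ?_
    · refine ⟨0, Subalgebra.zero_mem _, 0, Subalgebra.zero_mem _,
        fun v hv => absurd hv (Set.notMem_empty v), fun v _ => ?_⟩
      simp
    · rintro s t hst ⟨e, h1, g, h2, h3, h4⟩
      exact ⟨e, h1, g, h2, fun v hv => h3 v (hst hv), h4⟩
    · rintro s t ⟨e, h1, g, h2, h3, h4⟩ ⟨e', h1', g', h2', h3', h4'⟩
      refine ⟨e + e' - e * e', Subalgebra.sub_mem _ (Subalgebra.add_mem _ h1 h1')
        (Subalgebra.mul_mem _ h1 h1'), g + g' - e * g',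
        Subalgebra.sub_mem _ (Subalgebra.add_mem _ h2 h2') (Subalgebra.mul_mem _ h1 h2'), ?_, ?_⟩
      · rintro v (hv | hv)
        · simp only [Pi.sub_apply, Pi.add_apply, Pi.mul_apply]
          rw [h3 v hv]
          ring
        · simp only [Pi.sub_apply, Pi.add_apply, Pi.mul_apply]
          rw [h3' v hv]
          ring
      · intro v hv
        simp only [Pi.sub_apply, Pi.add_apply, Pi.mul_apply]
        rw [h4 v hv, h4' v hv]
        ring
    · intro x _
      have hN : IsOpen {v | c v = c x} := hc.isOpen_fiber (c x)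
      obtain ⟨e, h1, h2, h3⟩ := fourspan_step2 χ L hL x {v | c v = c x} hN rfl
      refine ⟨{v | e v = 1}, h2, e, h1, c x • e, Subalgebra.smul_mem _ h1 _,
        fun v hv => hv, fun v hv => ?_⟩
      show c x * e v = e v * c v
      rcases h3 v hv with a | ⟨a, b⟩
      · rw [a]
        ring
      · rw [a, show c v = c x from b]
        ring
  obtain ⟨e, _, g, h2, h3, h4⟩ := key
  refine ⟨g, h2, fun v hv => ?_⟩
  rw [h4 v hv, h3 v hv, one_mul]

theorem mod_span (χ : BiChar U) (hU : UnionCompact U) (c : U → ℂ) (hc : IsLocallyConstant c)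
    (K : Set U) (hK : IsCompact K) :
    ∃ (s : Finset U) (a : U → ℂ), ∀ v ∈ K, c v = ∑ w ∈ s, a w * χ.χ v w := by
  obtain ⟨g, hg, h⟩ := fourspan_step3 χ c hc K hK
  obtain ⟨s, a, hs⟩ := fourspan_exists χ hg
  exact ⟨s, a, fun v hv => by rw [← h v hv, hs v]⟩

private theorem fourspan_elim (χ : BiChar U) (L : AddSubgroup U) (v : U)
    (h : ∀ w, (∀ x ∈ L, χ.χ x w = 1) → χ.χ v w = 1) (n : ℕ) :
    ∀ (s : Finset U) (a : U → ℂ), s.card = n →
      (∀ l ∈ L, ∑ w ∈ s, a w * χ.χ l w = 1) →
      (∀ l ∈ L, ∑ w ∈ s, a w * χ.χ (v + l) w = 0) → False := by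
  classical
  have hone : ∀ w, χ.χ 0 w = 1 := by
    intro w
    have h1 := χ.addl 0 0 w
    rw [add_zero] at h1
    have hn : χ.χ 0 w ≠ 0 := by
      intro h0
      have := χ.norm 0 w
      rw [h0, norm_zero] at this
      exact zero_ne_one this
    exact (mul_right_cancel₀ hn (by rw [one_mul]; exact h1)).symm
  induction n with
  | zero =>
    intro s a hs h1 _
    rw [Finset.card_eq_zero] at hs
    subst hs
    have := h1 0 L.zero_mem
    rw [Finset.sum_empty] at this
    exact zero_ne_one this
  | succ n ih =>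
    intro s a hs h1 h2
    by_cases hall : ∀ w ∈ s, ∀ x ∈ L, χ.χ x w = 1
    · have e1 := h1 0 L.zero_mem
      have e2 := h2 0 L.zero_mem
      rw [add_zero] at e2
      have e3 : ∑ w ∈ s, a w * χ.χ v w = ∑ w ∈ s, a w * χ.χ 0 w := by
        refine Finset.sum_congr rfl fun w hw => ?_
        rw [h w (hall w hw), hone]
      rw [e3, e1] at e2
      exact one_ne_zero e2
    · push Not at hall
      obtain ⟨w0, hw0, l0, hl0, hne⟩ := hall
      have hd : 1 - χ.χ l0 w0 ≠ 0 := sub_ne_zero.2 (Ne.symm hne)
      let a' : U → ℂ := fun w => a w * ((χ.χ l0 w - χ.χ l0 w0) / (1 - χ.χ l0 w0))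
      have hstep : ∀ u : U, ∑ w ∈ s.erase w0, a' w * χ.χ u w =
          (∑ w ∈ s, a w * χ.χ (u + l0) w - χ.χ l0 w0 * ∑ w ∈ s, a w * χ.χ u w) /
            (1 - χ.χ l0 w0) := by
        intro u
        have e1 : ∑ w ∈ s.erase w0, a' w * χ.χ u w = ∑ w ∈ s, a' w * χ.χ u w := by
          rw [← Finset.sum_erase_add _ _ hw0]
          have : a' w0 = 0 := by
            show a w0 * ((χ.χ l0 w0 - χ.χ l0 w0) / (1 - χ.χ l0 w0)) = 0
            rw [sub_self, zero_div, mul_zero]
          rw [this, zero_mul, add_zero]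
        rw [e1, Finset.mul_sum, ← Finset.sum_sub_distrib, Finset.sum_div]
        refine Finset.sum_congr rfl fun w _ => ?_
        rw [χ.addl]
        show a w * ((χ.χ l0 w - χ.χ l0 w0) / (1 - χ.χ l0 w0)) * χ.χ u w = _
        ring
      refine ih (s.erase w0) a' (by rw [Finset.card_erase_of_mem hw0, hs]; rfl) ?_ ?_
      · intro l hl
        rw [hstep, h1 _ (L.add_mem hl hl0), h1 l hl, mul_one]
        exact div_self hd
      · intro l hl
        rw [hstep, add_assoc, h2 _ (L.add_mem hl hl0), h2 l hl, mul_zero, sub_zero, zero_div]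

theorem perp_perp (χ : BiChar U) (hU : UnionCompact U) (L : AddSubgroup U)
    (hL : IsOpen (L : Set U)) (hL' : IsCompact (L : Set U)) (v : U)
    (h : ∀ w, (∀ x ∈ L, χ.χ x w = 1) → χ.χ v w = 1) : v ∈ L := by
  classical
  by_contra hv
  have hLc : IsClosed (L : Set U) := hL'.isClosed
  let c : U → ℂ := fun u => if u ∈ (L : Set U) then 1 else 0
  have hc : IsLocallyConstant c := by
    rw [IsLocallyConstant.iff_eventually_eq]
    intro x
    by_cases hx : x ∈ (L : Set U)
    · filter_upwards [hL.mem_nhds hx] with y hy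
      show (if y ∈ (L : Set U) then (1 : ℂ) else 0) = if x ∈ (L : Set U) then 1 else 0
      rw [if_pos hy, if_pos hx]
    · filter_upwards [hLc.isOpen_compl.mem_nhds hx] with y hy
      show (if y ∈ (L : Set U) then (1 : ℂ) else 0) = if x ∈ (L : Set U) then 1 else 0
      rw [if_neg hy, if_neg hx]
  have hK : IsCompact ((L : Set U) ∪ (fun l => v + l) '' (L : Set U)) :=
    hL'.union (hL'.image (continuous_const.add continuous_id))
  obtain ⟨s, a, hs⟩ := mod_span χ hU c hc _ hK
  refine fourspan_elim χ L v h s.card s a rfl ?_ ?_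
  · intro l hl
    rw [← hs l (Or.inl hl)]
    exact if_pos hl
  · intro l hl
    rw [← hs (v + l) (Or.inr ⟨l, hl, rfl⟩)]
    refine if_neg ?_
    intro hvl
    apply hv
    have := L.sub_mem hvl hl
    rwa [add_sub_cancel_right] at this

theorem isOpen_perp (χ : BiChar U) (L : AddSubgroup U) (hL : IsCompact (L : Set U)) :
    IsOpen {w | ∀ x ∈ L, χ.χ x w = 1} := by
  have hone : ∀ x, χ.χ x 0 = 1 := by
    intro x
    have h1 := χ.addr x 0 0
    rw [add_zero] at h1
    have hn : χ.χ x 0 ≠ 0 := by
      intro h0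
      have := χ.norm x 0
      rw [h0, norm_zero] at this
      exact zero_ne_one this
    exact (mul_right_cancel₀ hn (by rw [one_mul]; exact h1)).symm
  have hev : ∀ᶠ w in nhds (0 : U), ∀ x ∈ (L : Set U), χ.χ x w = 1 := by
    refine hL.eventually_forall_of_forall_eventually ?_
    intro x _
    have h1 := (IsLocallyConstant.iff_eventually_eq _).mp χ.lc (x, 0)
    have h2 : Filter.Tendsto (fun z : U × U => (z.2, z.1)) (nhds (0, x)) (nhds (x, 0)) :=
      (continuous_snd.prodMk continuous_fst).tendsto (0, x)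
    filter_upwards [h2.eventually h1] with z hz
    show χ.χ z.2 z.1 = 1
    have e : χ.χ z.2 z.1 = χ.χ x 0 := hz
    rw [e, hone]
  rw [isOpen_iff_mem_nhds]
  intro w0 hw0
  have h3 : Filter.Tendsto (fun w : U => w - w0) (nhds w0) (nhds 0) := by
    have hc : Continuous fun w : U => w - w0 := continuous_id.sub continuous_const
    have := hc.tendsto w0
    simpa only [sub_self] using this
  filter_upwards [h3.eventually hev] with w hw
  intro x hx
  have h4 := χ.addr x (w - w0) w0
  rw [sub_add_cancel, hw x hx, hw0 x hx, mul_one] at h4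
  exact h4

end

end Pool.Agent.Work.MP_dd0ddf_al
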