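import Pool.Agent.Work.MP_dd0ddf_al.FxDefs

/-!
# MP_dd0ddf_al, module BlkAux: algebra of one cyclic block

Auxiliary file for `FxInert` and `FxSplit`.
-/

set_option linter.unusedSectionVars false
set_option linter.style.haveILetI false

namespace Pool.Agent.Work.MP_dd0ddf_al

noncomputable section

open Polynomial

universe u

variable {F E : Type u} [NontriviallyNormedField F] [IsUltrametricDist F] [ProperSpace F]
  [CharZero F] [NontriviallyNormedField E] [NormedAlgebra F E] [ProperSpace E] [StarRing E]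
  [QExt F E]
variable {V : Type u} [AddCommGroup V] [Module E V] [Module.Finite E V] [TopologicalSpace V]
  [IsTopologicalAddGroup V] [T2Space V] [ContinuousSMul E V]

/-- the conjugate polynomial -/
def bar (f : Polynomial E) : Polynomial E := f.map (starRingEnd E)

theorem bar_bar (f : Polynomial E) : bar (bar f) = f := by
  unfold bar
  rw [Polynomial.map_map]
  have h : (starRingEnd E).comp (starRingEnd E) = RingHom.id E := by
    ext x
    exact star_star x
  rw [h, Polynomial.map_id]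

theorem bar_mul (f g : Polynomial E) : bar (f * g) = bar f * bar g := Polynomial.map_mul _

theorem bar_add (f g : Polynomial E) : bar (f + g) = bar f + bar g := Polynomial.map_add _

theorem bar_sub (f g : Polynomial E) : bar (f - g) = bar f - bar g := Polynomial.map_sub _

theorem bar_one : bar (1 : Polynomial E) = 1 := Polynomial.map_one _

theorem bar_pow (f : Polynomial E) (n : ℕ) : bar (f ^ n) = bar f ^ n := Polynomial.map_pow _ _

theorem bar_natDegree (f : Polynomial E) : (bar f).natDegree = f.natDegree :=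
  Polynomial.natDegree_map_eq_of_injective (starRingEnd E).injective f

theorem bar_base (q : Polynomial F) : bar (q.map (algebraMap F E)) = q.map (algebraMap F E) := by
  unfold bar
  rw [Polynomial.map_map]
  congr 1
  ext x
  exact QExt.star_alg x

theorem bar_dvd {f g : Polynomial E} (h : f ∣ g) : bar f ∣ bar g := by
  obtain ⟨c, rfl⟩ := h
  exact ⟨bar c, bar_mul f c⟩

theorem ip_bar (B : SkewH E V) (X : SA B) (f : Polynomial E) (v w : V) :
    B.ip (aeval X.1 f v) w = B.ip v (aeval X.1 (bar f) w) := ip_aeval B X.2 f v w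

theorem ip_bar' (B : SkewH E V) (X : SA B) (f : Polynomial E) (v w : V) :
    B.ip v (aeval X.1 f w) = B.ip (aeval X.1 (bar f) v) w := by
  rw [ip_bar, bar_bar]

theorem aeval_mul' (X : Module.End E V) (f g : Polynomial E) (v : V) :
    aeval X (f * g) v = aeval X f (aeval X g v) := by
  rw [map_mul]
  rfl

/-- `⟨X^n u, u⟩ = 0` for all `n` implies `⟨g(X) u, u⟩ = 0` for all `g` -/
theorem blkaux_all (B : SkewH E V) (X : SA B) (u : V) (h : ∀ n : ℕ, B.ip ((X.1 ^ n) u) u = 0)
    (g : Polynomial E) : B.ip (aeval X.1 g u) u = 0 := by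
  rw [aeval_eq_sum_range, LinearMap.sum_apply]
  have h1 : B.lin u (∑ i ∈ Finset.range (g.natDegree + 1), (g.coeff i • X.1 ^ i) u) = 0 := by
    rw [map_sum]
    refine Finset.sum_eq_zero fun i _ => ?_
    show B.ip (g.coeff i • (X.1 ^ i) u) u = 0
    rw [B.smul_left, h, mul_zero]
  exact h1

/-- the vectors in the null cone of a block -/
theorem blkaux_cone {B : SkewH E V} (X : SA B) (e : V)
    (hU : NDeg B (cyc X.1 e)) (Q : Polynomial E)
    (hann : ∀ f : Polynomial E, aeval X.1 f e = 0 ↔ Q ∣ f) (f : Polynomial E)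
    (h : ∀ n : ℕ, B.ip ((X.1 ^ n) (aeval X.1 f e)) (aeval X.1 f e) = 0) : Q ∣ f * bar f := by
  rw [← hann]
  refine hU _ ((mem_cyc X.1 e _).2 ⟨_, rfl⟩) fun w hw => ?_
  obtain ⟨g, rfl⟩ := (mem_cyc X.1 e w).1 hw
  have h1 := blkaux_all B X _ h (bar g)
  rw [ip_bar' B X f, ← aeval_mul', ← aeval_mul'] at h1
  rw [ip_bar', ← aeval_mul']
  have h2 : bar f * bar g * f = bar g * (f * bar f) := by ring
  rw [h2] at h1
  exact h1

/-- orthogonality of `q^i U` and `q^j U`, `i + j = k` -/
theorem blkaux_orth {B : SkewH E V} (X : SA B) (e : V) (q : Polynomial F) (k : ℕ)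
    (hann : ∀ f : Polynomial E, aeval X.1 f e = 0 ↔ (q.map (algebraMap F E)) ^ k ∣ f)
    (i j : ℕ) (hij : i + j = k) {v y : V} (hv : v ∈ qSub F X.1 e q i)
    (hy : y ∈ qSub F X.1 e q j) : B.ip v y = 0 := by
  obtain ⟨a, ha, rfl⟩ := hv
  obtain ⟨b, hb, rfl⟩ := hy
  obtain ⟨f, rfl⟩ := (mem_cyc X.1 e a).1 ha
  rw [ip_bar', bar_pow, bar_base, ← aeval_mul', ← aeval_mul']
  have h1 : aeval X.1 (q.map (algebraMap F E) ^ j * q.map (algebraMap F E) ^ i * f) e = 0 := by
    rw [hann, ← pow_add, add_comm j i, hij]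
    exact Dvd.intro _ rfl
  rw [h1]
  have h3 := B.smul_left 0 0 b
  rw [zero_smul, zero_mul] at h3
  exact h3

/-- the second half of the conclusion for a block -/
theorem blkaux_c2 {B : SkewH E V} (p : PChar F) (X : SA B) (e : V)
    (hU : NDeg B (cyc X.1 e)) (q : Polynomial F) (k : ℕ)
    (hann : ∀ f : Polynomial E, aeval X.1 f e = 0 ↔ (q.map (algebraMap F E)) ^ k ∣ f)
    (S : SF V ℂ →ₗ[ℂ] ℂ) (i j : ℕ) (hij : i + j = k)
    (h : SF.SuppOn (S ∘ₗ fourV B p) {v | prO B _ hU v ∈ qSub F X.1 e q i}) (y : V)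
    (hy : y ∈ qSub F X.1 e q j) (φ : SF V ℂ) :
    S (SF.comp (Homeomorph.addRight y) φ) = S φ := by
  refine four_trans B p S _ h y (fun v hv => ?_) φ
  have hyU : y ∈ cyc X.1 e := by
    obtain ⟨b, hb, rfl⟩ := hy
    obtain ⟨g, rfl⟩ := (mem_cyc X.1 e b).1 hb
    exact (mem_cyc X.1 e _).2 ⟨_, (aeval_mul' _ _ _ _).symm⟩
  have h1 := ip_prO B _ hU v hyU
  have h2 := blkaux_orth X e q k hann i j hij hv hy
  unfold om
  rw [← h1, h2, map_zero]

end

end Pool.Agent.Work.MP_dd0ddf_al
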