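import Pool.Agent.Work.MP_dd0ddf_al.OrthoB
import Pool.Agent.Work.MP_dd0ddf_al.Topo
import Pool.Agent.Work.MP_dd0ddf_al.Witt

/-!
# MP_dd0ddf_al, module ExtU: nondegenerate subspaces: projection, extension of isometries

`NDeg B U`: the form is nondegenerate on `U`.  `exists_prO`: for `v ∈ V` the functional `u ↦ ⟨u, v⟩` on `U` is `⟨·, w⟩` for a unique `w ∈ U`
(`exists_repr` for `B.restrict U`), so `v - w ∈ U^⊥`; linear in v by uniqueness.  `U^⊥` is again nondegenerate.
`extU k`: `k` on `U`, identity on `U^⊥`: `v ↦ k (pr v) + (v - pr v)`.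
`continuous_extU`: topologies of pointwise convergence; for the inverse use `(extU k)⁻¹ = extU k⁻¹`; the topology of `UU` is induced from the units.
`tauRes`: an anti-unitary involution with `τ U = U` restricts.
-/

set_option linter.unusedSectionVars false
set_option linter.style.haveILetI false

namespace Pool.Agent.Work.MP_dd0ddf_al

noncomputable section

universe u

/-- the form is nondegenerate on `U` -/
def NDeg {E V : Type*} [Field E] [StarRing E] [AddCommGroup V] [Module E V] (B : SkewH E V)
    (U : Submodule E V) : Prop := ∀ u ∈ U, (∀ w ∈ U, B.ip u w = 0) → u = 0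

section Alg

variable {E V : Type*} [Field E] [StarRing E] [AddCommGroup V] [Module E V]
  [Module.Finite E V] (B : SkewH E V) (U : Submodule E V)

omit [Module.Finite E V] in
private theorem extu_sub_left (a b w : V) : B.ip (a - b) w = B.ip a w - B.ip b w := by
  have h := B.smul_left (-1) b w
  rw [neg_smul, one_smul] at h
  rw [sub_eq_add_neg, B.add_left, h]
  ring

omit [Module.Finite E V] in
private theorem extu_sub_right (a b w : V) : B.ip w (a - b) = B.ip w a - B.ip w b := by
  have h := B.smul_right (-1) w b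
  rw [neg_smul, one_smul, star_neg, star_one] at h
  rw [sub_eq_add_neg, B.add_right, h]
  ring

omit [Module.Finite E V] in
private theorem extu_symm {a b : V} (h : B.ip a b = 0) : B.ip b a = 0 := by
  rw [B.skew a b, h, star_zero, neg_zero]

omit [Module.Finite E V] in
private theorem extu_zero_right (a : V) : B.ip a 0 = 0 := by
  have h := B.smul_right 0 a 0
  rw [zero_smul, star_zero, zero_mul] at h
  exact h

theorem exists_prO (h : NDeg B U) : ∃ P : Module.End E V, (∀ v, P v ∈ U) ∧
    (∀ v, v - P v ∈ orth B U) ∧ (∀ u ∈ U, P u = u) ∧ ∀ w ∈ orth B U, P w = 0 := by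
  have hr := fun v : V => exists_repr (B.restrict U h) ((B.lin v).comp U.subtype)
  choose r hr using hr
  have hr' : ∀ (v : V) (u : U), B.ip (u : V) v = B.ip (u : V) (r v : V) := fun v u => hr v u
  have huniq : ∀ w w' : U, (∀ u : U, B.ip (u : V) (w : V) = B.ip (u : V) (w' : V)) → w = w' :=
    fun w w' hw => ip_ext (B.restrict U h) hw
  refine ⟨U.subtype ∘ₗ
    { toFun := r
      map_add' := fun x y => ?_
      map_smul' := fun a x => ?_ }, fun v => (r v).2, fun v u hu => ?_, fun u hu => ?_,
      fun w hw => ?_⟩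
  · apply huniq
    intro u
    rw [← hr', Submodule.coe_add, B.add_right, B.add_right, ← hr', ← hr']
  · apply huniq
    intro u
    rw [← hr', RingHom.id_apply, Submodule.coe_smul, B.smul_right, B.smul_right, ← hr']
  · show B.ip (v - (r v : V)) u = 0
    apply extu_symm
    rw [extu_sub_right]
    have := hr' v ⟨u, hu⟩
    simp only at this
    rw [this, sub_self]
  · show ((r u : U) : V) = u
    have : r u = ⟨u, hu⟩ := by
      apply huniq
      intro x
      rw [← hr']
    rw [this]
  · show ((r w : U) : V) = 0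
    have : r w = 0 := by
      apply huniq
      intro x
      rw [← hr', Submodule.coe_zero, extu_zero_right]
      exact extu_symm B (hw x x.2)
    rw [this, Submodule.coe_zero]

/-- the orthogonal projection onto a nondegenerate subspace -/
def prO (h : NDeg B U) : Module.End E V := (exists_prO B U h).choose

theorem prO_mem (h : NDeg B U) (v : V) : prO B U h v ∈ U := (exists_prO B U h).choose_spec.1 v

theorem sub_prO_mem (h : NDeg B U) (v : V) : v - prO B U h v ∈ orth B U :=
  (exists_prO B U h).choose_spec.2.1 v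

theorem prO_of_mem (h : NDeg B U) {u : V} (hu : u ∈ U) : prO B U h u = u :=
  (exists_prO B U h).choose_spec.2.2.1 u hu

theorem prO_of_orth (h : NDeg B U) {w : V} (hw : w ∈ orth B U) : prO B U h w = 0 :=
  (exists_prO B U h).choose_spec.2.2.2 w hw

theorem ip_prO (h : NDeg B U) (v : V) {u : V} (hu : u ∈ U) :
    B.ip (prO B U h v) u = B.ip v u := by
  have h1 := sub_prO_mem B U h v u hu
  rw [extu_sub_left, sub_eq_zero] at h1
  exact h1.symm

theorem prO_SA (h : NDeg B U) : prO B U h ∈ SA B := by
  intro v w
  have h1 := ip_prO B U h v (prO_mem B U h w)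
  have h2 : B.ip (prO B U h v) (w - prO B U h w) = 0 :=
    extu_symm B (sub_prO_mem B U h w _ (prO_mem B U h v))
  rw [extu_sub_right, sub_eq_zero] at h2
  rw [h2, h1]

omit [Module.Finite E V] in
private theorem extu_orth {u w : V} (hu : u ∈ U) (hw : w ∈ orth B U) : B.ip u w = 0 :=
  extu_symm B (hw u hu)

theorem ndeg_orth (h : NDeg B U) : NDeg B (orth B U) := by
  intro u hu hw
  apply B.nondeg
  intro x
  have h1 : x = prO B U h x + (x - prO B U h x) := by abel
  rw [h1, B.add_right, hw _ (sub_prO_mem B U h x), hu _ (prO_mem B U h x), add_zero]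

theorem ndeg_span (v : V) (hv : B.ip v v ≠ 0) : NDeg B (Submodule.span E {v}) := by
  intro u hu hw
  obtain ⟨c, rfl⟩ := Submodule.mem_span_singleton.1 hu
  have h1 := hw v (Submodule.mem_span_singleton_self v)
  rw [B.smul_left] at h1
  rw [(mul_eq_zero.1 h1).resolve_right hv, zero_smul]

/-- extension of an endomorphism of `U` by the identity of `U^⊥` -/
private def extuM (h : NDeg B U) : Module.End E U →* Module.End E V where
  toFun f := U.subtype ∘ₗ f ∘ₗ ((prO B U h).codRestrict U (prO_mem B U h)) + (1 - prO B U h)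
  map_one' := by
    ext v
    show prO B U h v + (v - prO B U h v) = v
    abel
  map_mul' f g := by
    ext v
    set P := prO B U h with hP
    have h1 : ∀ u : U, P (u : V) = u := fun u => prO_of_mem B U h u.2
    have h2 : P (v - P v) = 0 := prO_of_orth B U h (sub_prO_mem B U h v)
    show ((f (g (P.codRestrict U (prO_mem B U h) v)) : U) : V) + (v - P v) =
      ((f (P.codRestrict U (prO_mem B U h)
        (((g (P.codRestrict U (prO_mem B U h) v) : U) : V) + (v - P v))) : U) : V) +
      ((((g (P.codRestrict U (prO_mem B U h) v) : U) : V) + (v - P v)) -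
        P (((g (P.codRestrict U (prO_mem B U h) v) : U) : V) + (v - P v)))
    have h3 : P.codRestrict U (prO_mem B U h)
        (((g (P.codRestrict U (prO_mem B U h) v) : U) : V) + (v - P v)) =
        g (P.codRestrict U (prO_mem B U h) v) := by
      apply Subtype.ext
      show P (((g (P.codRestrict U (prO_mem B U h) v) : U) : V) + (v - P v)) = _
      rw [map_add, h1, h2, add_zero]
    rw [h3, map_add, h1, h2]
    abel

private theorem extuM_apply (h : NDeg B U) (f : Module.End E U) (v : V) :
    extuM B U h f v = ((f ⟨prO B U h v, prO_mem B U h v⟩ : U) : V) + (v - prO B U h v) := rfl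

private theorem extu_uniq (h : NDeg B U) (g g' : UU B)
    (h1 : ∀ u ∈ U, g.1.1 u = g'.1.1 u) (h2 : ∀ w ∈ orth B U, g.1.1 w = g'.1.1 w) : g = g' := by
  apply Subtype.ext
  apply Units.ext
  ext v
  have h3 : v = prO B U h v + (v - prO B U h v) := by abel
  rw [h3, map_add, map_add, h1 _ (prO_mem B U h v), h2 _ (sub_prO_mem B U h v)]

private theorem extu_isom (h : NDeg B U) (k : UU (B.restrict U h)) :
    Units.map (extuM B U h) k.1 ∈ UU B := by
  intro v w
  show B.ip (extuM B U h k.1.1 v) (extuM B U h k.1.1 w) = B.ip v w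
  rw [extuM_apply, extuM_apply]
  have h1 := sub_prO_mem B U h v
  have h2 := sub_prO_mem B U h w
  have h3 := k.2 ⟨prO B U h v, prO_mem B U h v⟩ ⟨prO B U h w, prO_mem B U h w⟩
  have h4 : B.ip ((k.1.1 ⟨prO B U h v, prO_mem B U h v⟩ : U) : V)
      ((k.1.1 ⟨prO B U h w, prO_mem B U h w⟩ : U) : V) = B.ip (prO B U h v) (prO B U h w) := h3
  rw [B.add_left, B.add_right, B.add_right, h4, extu_orth B U (Subtype.mem _) h2,
    h1 _ (Subtype.mem _)]
  have h5 : B.ip v w = B.ip (prO B U h v + (v - prO B U h v))
      (prO B U h w + (w - prO B U h w)) := by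
    rw [add_sub_cancel, add_sub_cancel]
  rw [h5, B.add_left, B.add_right, B.add_right, extu_orth B U (prO_mem B U h v) h2,
    h1 _ (prO_mem B U h w)]

theorem exists_extU (h : NDeg B U) (k : UU (B.restrict U h)) : ∃ g : UU B,
    (∀ u : U, g.1.1 (u : V) = (k.1.1 u : V)) ∧ ∀ w ∈ orth B U, g.1.1 w = w := by
  refine ⟨⟨Units.map (extuM B U h) k.1, extu_isom B U h k⟩, fun u => ?_, fun w hw => ?_⟩
  · show extuM B U h k.1.1 (u : V) = _
    rw [extuM_apply]
    have h1 : (⟨prO B U h u, prO_mem B U h u⟩ : U) = u := Subtype.ext (prO_of_mem B U h u.2)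
    rw [h1, prO_of_mem B U h u.2, sub_self, add_zero]
  · show extuM B U h k.1.1 w = _
    rw [extuM_apply]
    have h1 : (⟨prO B U h w, prO_mem B U h w⟩ : U) = 0 := Subtype.ext (prO_of_orth B U h hw)
    rw [h1, map_zero, prO_of_orth B U h hw, Submodule.coe_zero, zero_add, sub_zero]

/-- extension of an isometry of `U` by the identity of `U^⊥` -/
def extU (h : NDeg B U) : UU (B.restrict U h) →* UU B where
  toFun k := (exists_extU B U h k).choose
  map_one' := by
    refine extu_uniq B U h _ _ (fun u hu => ?_) (fun w hw => ?_)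
    · exact (exists_extU B U h 1).choose_spec.1 ⟨u, hu⟩
    · exact (exists_extU B U h 1).choose_spec.2 w hw
  map_mul' := fun k l => by
    refine extu_uniq B U h _ _ (fun u hu => ?_) (fun w hw => ?_)
    · rw [(exists_extU B U h (k * l)).choose_spec.1 ⟨u, hu⟩]
      show _ = (exists_extU B U h k).choose.1.1 ((exists_extU B U h l).choose.1.1 u)
      rw [(exists_extU B U h l).choose_spec.1 ⟨u, hu⟩, (exists_extU B U h k).choose_spec.1]
      rfl
    · rw [(exists_extU B U h (k * l)).choose_spec.2 w hw]
      show _ = (exists_extU B U h k).choose.1.1 ((exists_extU B U h l).choose.1.1 w)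
      rw [(exists_extU B U h l).choose_spec.2 w hw, (exists_extU B U h k).choose_spec.2 w hw]

theorem extU_mem (h : NDeg B U) (k : UU (B.restrict U h)) (u : U) :
    (extU B U h k).1.1 (u : V) = (k.1.1 u : V) := (exists_extU B U h k).choose_spec.1 u

theorem extU_orth (h : NDeg B U) (k : UU (B.restrict U h)) {w : V} (hw : w ∈ orth B U) :
    (extU B U h k).1.1 w = w := (exists_extU B U h k).choose_spec.2 w hw

private theorem extu_stab (g : UU B) (hg : ∀ w ∈ orth B U, g.1.1 w = w) :
    ∀ u ∈ U, g.1.1 u ∈ U := by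
  intro u hu
  rw [← orth_orth B U]
  intro w hw
  have h1 := g.2 u w
  rw [hg w hw] at h1
  rw [h1]
  exact extu_orth B U hu hw

omit [Module.Finite E V] in
private theorem extu_inv (g : UU B) (hg : ∀ w ∈ orth B U, g.1.1 w = w) :
    ∀ w ∈ orth B U, (g⁻¹ : UU B).1.1 w = w := by
  intro w hw
  have h1 : (g⁻¹ : UU B).1.1 (g.1.1 w) = w :=
    congrArg (fun f : Module.End E V => f w) g.1.inv_mul
  rw [hg w hw] at h1
  exact h1

theorem extU_surj (h : NDeg B U) (g : UU B) (hg : ∀ w ∈ orth B U, g.1.1 w = w) :
    ∃ k, extU B U h k = g := by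
  have hgU := extu_stab B U g hg
  have hgU' := extu_stab B U g⁻¹ (extu_inv B U g hg)
  have h1 : ∀ v, (g⁻¹ : UU B).1.1 (g.1.1 v) = v := fun v =>
    congrArg (fun f : Module.End E V => f v) g.1.inv_mul
  have h2 : ∀ v, g.1.1 ((g⁻¹ : UU B).1.1 v) = v := fun v =>
    congrArg (fun f : Module.End E V => f v) g.1.mul_inv
  let k0 : GV E U := ⟨g.1.1.restrict hgU, (g⁻¹ : UU B).1.1.restrict hgU',
    LinearMap.ext fun u => Subtype.ext (h2 u), LinearMap.ext fun u => Subtype.ext (h1 u)⟩
  refine ⟨⟨k0, fun v w => g.2 v w⟩, ?_⟩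
  refine extu_uniq B U h _ _ (fun u hu => ?_) (fun w hw => ?_)
  · exact extU_mem B U h _ ⟨u, hu⟩
  · rw [extU_orth B U h _ hw, hg w hw]

/-- restriction of an anti-unitary involution -/
def tauRes {B : SkewH E V} (τ : AntiU B) (U : Submodule E V) (h : NDeg B U)
    (hU : ∀ u ∈ U, τ.t u ∈ U) : AntiU (B.restrict U h) where
  t u := ⟨τ.t u.1, hU u.1 u.2⟩
  add v w := Subtype.ext (τ.add _ _)
  smul a v := Subtype.ext (τ.smul _ _)
  ip v w := τ.ip _ _
  inv v := Subtype.ext (τ.inv _)

end Alg

section Topol

variable {F E : Type u} [NontriviallyNormedField F] [IsUltrametricDist F] [ProperSpace F]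
  [CharZero F] [NontriviallyNormedField E] [NormedAlgebra F E] [ProperSpace E] [StarRing E]
  [QExt F E]
variable {V : Type u} [AddCommGroup V] [Module E V] [Module.Finite E V] [TopologicalSpace V]
  [IsTopologicalAddGroup V] [T2Space V] [ContinuousSMul E V]

theorem continuous_extU (B : SkewH E V) (U : Submodule E V) (h : NDeg B U) :
    Continuous (extU B U h) := by
  have h1 : ∀ k : UU (B.restrict U h), extU B U h k =
      ⟨Units.map (extuM B U h) k.1, extu_isom B U h k⟩ := by
    intro k
    refine extu_uniq B U h _ _ (fun u hu => ?_) (fun w hw => ?_)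
    · rw [extU_mem B U h k ⟨u, hu⟩]
      show _ = extuM B U h k.1.1 u
      rw [extuM_apply]
      have h2 : (⟨prO B U h u, prO_mem B U h u⟩ : U) = ⟨u, hu⟩ :=
        Subtype.ext (prO_of_mem B U h hu)
      rw [h2, prO_of_mem B U h hu, sub_self, add_zero]
    · rw [extU_orth B U h k hw]
      show _ = extuM B U h k.1.1 w
      rw [extuM_apply]
      have h2 : (⟨prO B U h w, prO_mem B U h w⟩ : U) = 0 := Subtype.ext (prO_of_orth B U h hw)
      rw [h2, map_zero, prO_of_orth B U h hw, Submodule.coe_zero, zero_add, sub_zero]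
  have h3 : Continuous (extuM B U h) := by
    refine continuous_induced_rng.mpr (continuous_pi fun v => ?_)
    show Continuous (fun f : Module.End E U =>
      ((f ⟨prO B U h v, prO_mem B U h v⟩ : U) : V) + (v - prO B U h v))
    exact (continuous_subtype_val.comp ((continuous_apply _).comp continuous_induced_dom)).add
      continuous_const
  have h4 : (extU B U h : UU (B.restrict U h) → UU B) = fun k =>
      ⟨Units.map (extuM B U h) k.1, extu_isom B U h k⟩ := funext h1
  rw [h4]
  exact (((h3.units_map (extuM B U h)).comp continuous_subtype_val).subtype_mk _)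

end Topol

end

end Pool.Agent.Work.MP_dd0ddf_al
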