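import Pool.Agent.Work.MP_dd0ddf_al.FdRestr

/-!
# MP_dd0ddf_al, module SFPull: restriction along closed embeddings

`pull_surjective`: `j` is a homeomorphism onto the closed set `range j`; use restr_surjective.
-/

set_option linter.unusedSectionVars false
set_option linter.style.haveILetI false

namespace Pool.Agent.Work.MP_dd0ddf_al

noncomputable section

/-- restriction along a closed embedding -/
def SF.pull {X Y B : Type*} [TopologicalSpace X] [TopologicalSpace Y] [AddCommGroup B]
    [Module ℂ B] (j : X → Y) (hj : Topology.IsClosedEmbedding j) : SF Y B →ₗ[ℂ] SF X B where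
  toFun f := ⟨fun x => f (j x), f.2.1.comp_continuous hj.continuous,
    f.2.2.comp_isClosedEmbedding hj⟩
  map_add' _ _ := rfl
  map_smul' _ _ := rfl

theorem SF.pull_apply {X Y B : Type*} [TopologicalSpace X] [TopologicalSpace Y] [AddCommGroup B]
    [Module ℂ B] (j : X → Y) (hj : Topology.IsClosedEmbedding j) (f : SF Y B) (x : X) :
    SF.pull j hj f x = f (j x) := rfl

theorem SF.pull_surjective {X Y B : Type*} [TopologicalSpace X] [TopologicalSpace Y] [T2Space Y]
    [LocallyCompactSpace Y] [TotallyDisconnectedSpace Y] [AddCommGroup B]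
    [Module ℂ B] (j : X → Y) (hj : Topology.IsClosedEmbedding j) :
    Function.Surjective (SF.pull j hj : SF Y B → SF X B) := by
  intro g
  let e : X ≃ₜ Set.range j := hj.isEmbedding.toHomeomorph
  obtain ⟨f, hf⟩ := restr_surjective (B := B) (Set.range j) hj.isClosed_range (SF.comp e.symm g)
  refine ⟨f, SF.ext fun x => ?_⟩
  have h1 := congrArg (fun k : SF (Set.range j) B => k (e x)) hf
  have h2 : f (e x).1 = g (e.symm (e x)) := h1
  rw [e.symm_apply_apply] at h2
  exact h2

end

end Pool.Agent.Work.MP_dd0ddf_al
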