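import Pool.Agent.Work.MP_dd0ddf_al.BlkDefs
import Pool.Agent.Work.MP_dd0ddf_al.SFCurry
import Pool.Agent.Work.MP_dd0ddf_al.SFPull

/-!
# MP_dd0ddf_al, module BlkSpan: tensor products of functions on the blocks span

`ext2`: `(a1, a2) ↦ tens (f1 a1) (f2 a2)` is locally constant with compact support.  `ext2_span`: by `SFCurry.boxes_span` for `X = GV E U`, `Y = GV E U^⊥`, values in `SF V ℂ`: the functions `1_K(a1) 1_{K'}(a2) b` span; `b` is a combination of `tens b1 b2` (tens_span).
-/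

set_option linter.unusedSectionVars false
set_option linter.style.haveILetI false

namespace Pool.Agent.Work.MP_dd0ddf_al

noncomputable section

universe u

variable {F E : Type u} [NontriviallyNormedField F] [IsUltrametricDist F] [ProperSpace F]
  [CharZero F] [NontriviallyNormedField E] [NormedAlgebra F E] [ProperSpace E] [StarRing E]
  [QExt F E] [MeasurableSpace E] [BorelSpace E]
variable {V : Type u} [AddCommGroup V] [Module E V] [Module.Finite E V] [TopologicalSpace V]
  [IsTopologicalAddGroup V] [T2Space V] [ContinuousSMul E V]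

private theorem blkspan_tens (B : SkewH E V) (U : Submodule E V) (hU : NDeg B U) (f1 : SF U ℂ)
    (f2 : SF (orth B U) ℂ) (v : V) : tens B U hU f1 f2 v =
    f1 ⟨prO B U hU v, prO_mem B U hU v⟩ * f2 ⟨v - prO B U hU v, sub_prO_mem B U hU v⟩ := rfl

private theorem blkspan_t0 (B : SkewH E V) (U : Submodule E V) (hU : NDeg B U)
    (f2 : SF (orth B U) ℂ) : tens B U hU 0 f2 = 0 := by
  apply SF.ext
  intro v
  rw [blkspan_tens]
  exact zero_mul _

private theorem blkspan_t0' (B : SkewH E V) (U : Submodule E V) (hU : NDeg B U)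
    (f1 : SF U ℂ) : tens B U hU f1 0 = 0 := by
  apply SF.ext
  intro v
  rw [blkspan_tens]
  exact mul_zero _

private theorem blkspan_fun (B : SkewH E V) (U : Submodule E V) (hU : NDeg B U)
    (f1 : SF (GV E U) (SF U ℂ)) (f2 : SF (GV E (orth B U)) (SF (orth B U) ℂ)) :
    IsLocallyConstant (fun a : GV E U × GV E (orth B U) => tens B U hU (f1 a.1) (f2 a.2)) ∧
    HasCompactSupport (fun a : GV E U × GV E (orth B U) => tens B U hU (f1 a.1) (f2 a.2)) := by
  constructor
  · have h1 : IsLocallyConstant fun a : GV E U × GV E (orth B U) => f1 a.1 :=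
      f1.2.1.comp_continuous continuous_fst
    have h2 : IsLocallyConstant fun a : GV E U × GV E (orth B U) => f2 a.2 :=
      f2.2.1.comp_continuous continuous_snd
    exact (h1.prodMk h2).comp fun q => tens B U hU q.1 q.2
  · refine HasCompactSupport.of_support_subset_isCompact (K := tsupport f1.1 ×ˢ tsupport f2.1)
      (f1.2.2.isCompact.prod f2.2.2.isCompact) ?_
    intro a ha
    by_contra h
    apply ha
    show tens B U hU (f1 a.1) (f2 a.2) = 0
    rw [Set.mem_prod, not_and_or] at h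
    rcases h with h | h
    · have h1 : f1 a.1 = 0 := image_eq_zero_of_notMem_tsupport h
      rw [h1, blkspan_t0]
    · have h1 : f2 a.2 = 0 := image_eq_zero_of_notMem_tsupport h
      rw [h1, blkspan_t0']

/-- `f1 ⊠ f2` -/
def ext2 (B : SkewH E V) (U : Submodule E V) (hU : NDeg B U) (f1 : SF (GV E U) (SF U ℂ))
    (f2 : SF (GV E (orth B U)) (SF (orth B U) ℂ)) :
    SF (GV E U × GV E (orth B U)) (SF V ℂ) :=
  ⟨fun a => tens B U hU (f1 a.1) (f2 a.2), by exact blkspan_fun B U hU f1 f2⟩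

theorem ext2_apply (B : SkewH E V) (U : Submodule E V) (hU : NDeg B U)
    (f1 : SF (GV E U) (SF U ℂ)) (f2 : SF (GV E (orth B U)) (SF (orth B U) ℂ))
    (a : GV E U × GV E (orth B U)) :
    ext2 B U hU f1 f2 a = tens B U hU (f1 a.1) (f2 a.2) := rfl

/-- bilinearity -/
theorem ext2_add_left (B : SkewH E V) (U : Submodule E V) (hU : NDeg B U)
    (f1 f1' : SF (GV E U) (SF U ℂ)) (f2 : SF (GV E (orth B U)) (SF (orth B U) ℂ)) :
    ext2 B U hU (f1 + f1') f2 = ext2 B U hU f1 f2 + ext2 B U hU f1' f2 := by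
  apply SF.ext
  intro a
  apply SF.ext
  intro v
  show (f1 a.1 _ + f1' a.1 _) * f2 a.2 _ = f1 a.1 _ * f2 a.2 _ + f1' a.1 _ * f2 a.2 _
  ring

theorem ext2_smul_left (B : SkewH E V) (U : Submodule E V) (hU : NDeg B U) (c : ℂ)
    (f1 : SF (GV E U) (SF U ℂ)) (f2 : SF (GV E (orth B U)) (SF (orth B U) ℂ)) :
    ext2 B U hU (c • f1) f2 = c • ext2 B U hU f1 f2 := by
  apply SF.ext
  intro a
  apply SF.ext
  intro v
  show (c * f1 a.1 _) * f2 a.2 _ = c * (f1 a.1 _ * f2 a.2 _)
  ring

theorem ext2_add_right (B : SkewH E V) (U : Submodule E V) (hU : NDeg B U)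
    (f1 : SF (GV E U) (SF U ℂ)) (f2 f2' : SF (GV E (orth B U)) (SF (orth B U) ℂ)) :
    ext2 B U hU f1 (f2 + f2') = ext2 B U hU f1 f2 + ext2 B U hU f1 f2' := by
  apply SF.ext
  intro a
  apply SF.ext
  intro v
  show f1 a.1 _ * (f2 a.2 _ + f2' a.2 _) = f1 a.1 _ * f2 a.2 _ + f1 a.1 _ * f2' a.2 _
  ring

theorem ext2_smul_right (B : SkewH E V) (U : Submodule E V) (hU : NDeg B U) (c : ℂ)
    (f1 : SF (GV E U) (SF U ℂ)) (f2 : SF (GV E (orth B U)) (SF (orth B U) ℂ)) :
    ext2 B U hU f1 (c • f2) = c • ext2 B U hU f1 f2 := by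
  apply SF.ext
  intro a
  apply SF.ext
  intro v
  show f1 a.1 _ * (c * f2 a.2 _) = c * (f1 a.1 _ * f2 a.2 _)
  ring

variable (F) in
include F in
theorem ext2_span (B : SkewH E V) (U : Submodule E V) (hU : NDeg B U) :
    Submodule.span ℂ {f : SF (GV E U × GV E (orth B U)) (SF V ℂ) |
      ∃ f1 f2, f = ext2 B U hU f1 f2} = ⊤ := by
  haveI := td_GV F E U
  haveI := td_GV F E (orth B U)
  set N := Submodule.span ℂ {f : SF (GV E U × GV E (orth B U)) (SF V ℂ) |
      ∃ f1 f2, f = ext2 B U hU f1 f2} with hN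
  rw [eq_top_iff, ← SF.boxes_span, Submodule.span_le]
  rintro f ⟨K, K', b, hK, hKo, hK', hKo', h1, h2⟩
  have hf : f = SF.single (K ×ˢ K') (hK.prod hK') (hKo.prod hKo') b := by
    apply SF.ext
    rintro ⟨x, y⟩
    by_cases h : (x, y) ∈ K ×ˢ K'
    · rw [SF.single_apply_mem _ _ _ _ _ h]
      exact h1 x y h.1 h.2
    · rw [SF.single_apply_not_mem _ _ _ _ _ h]
      rw [Set.mem_prod, not_and_or] at h
      exact h2 x y h
  rw [hf]
  have hb : b ∈ Submodule.span ℂ {f : SF V ℂ | ∃ f1 f2, f = tens B U hU f1 f2} := by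
    rw [tens_span F B U hU]
    exact Submodule.mem_top
  refine Submodule.span_induction (p := fun b _ =>
    SF.single (K ×ˢ K') (hK.prod hK') (hKo.prod hKo') b ∈ N) ?_ ?_ ?_ ?_ hb
  · rintro _ ⟨b1, b2, rfl⟩
    refine Submodule.subset_span ⟨SF.single K hK hKo b1, SF.single K' hK' hKo' b2, ?_⟩
    apply SF.ext
    rintro ⟨x, y⟩
    show _ = tens B U hU (SF.single K hK hKo b1 x) (SF.single K' hK' hKo' b2 y)
    by_cases hx : x ∈ K
    · by_cases hy : y ∈ K'
      · rw [SF.single_apply_mem _ _ _ _ _ (Set.mk_mem_prod hx hy),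
          SF.single_apply_mem _ _ _ _ _ hx, SF.single_apply_mem _ _ _ _ _ hy]
      · rw [SF.single_apply_not_mem _ _ _ _ _ (fun h => hy h.2),
          SF.single_apply_not_mem _ _ _ _ _ hy, blkspan_t0']
    · rw [SF.single_apply_not_mem _ _ _ _ _ (fun h => hx h.1),
        SF.single_apply_not_mem _ _ _ _ _ hx, blkspan_t0]
  · have h0 : SF.single (K ×ˢ K') (hK.prod hK') (hKo.prod hKo') (0 : SF V ℂ) = 0 := by
      apply SF.ext
      intro x
      by_cases h : x ∈ K ×ˢ K'
      · rw [SF.single_apply_mem _ _ _ _ _ h]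
        rfl
      · rw [SF.single_apply_not_mem _ _ _ _ _ h]
        rfl
    rw [h0]
    exact N.zero_mem
  · intro b b' _ _ hb hb'
    have h0 : SF.single (K ×ˢ K') (hK.prod hK') (hKo.prod hKo') (b + b') =
        SF.single (K ×ˢ K') (hK.prod hK') (hKo.prod hKo') b +
        SF.single (K ×ˢ K') (hK.prod hK') (hKo.prod hKo') b' := by
      apply SF.ext
      intro x
      show _ = SF.single (K ×ˢ K') (hK.prod hK') (hKo.prod hKo') b x +
        SF.single (K ×ˢ K') (hK.prod hK') (hKo.prod hKo') b' x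
      by_cases h : x ∈ K ×ˢ K'
      · rw [SF.single_apply_mem _ _ _ _ _ h, SF.single_apply_mem _ _ _ _ _ h,
          SF.single_apply_mem _ _ _ _ _ h]
      · rw [SF.single_apply_not_mem _ _ _ _ _ h, SF.single_apply_not_mem _ _ _ _ _ h,
          SF.single_apply_not_mem _ _ _ _ _ h, add_zero]
    rw [h0]
    exact N.add_mem hb hb'
  · intro c b _ hb
    have h0 : SF.single (K ×ˢ K') (hK.prod hK') (hKo.prod hKo') (c • b) =
        c • SF.single (K ×ˢ K') (hK.prod hK') (hKo.prod hKo') b := by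
      apply SF.ext
      intro x
      show _ = c • SF.single (K ×ˢ K') (hK.prod hK') (hKo.prod hKo') b x
      by_cases h : x ∈ K ×ˢ K'
      · rw [SF.single_apply_mem _ _ _ _ _ h, SF.single_apply_mem _ _ _ _ _ h]
      · rw [SF.single_apply_not_mem _ _ _ _ _ h, SF.single_apply_not_mem _ _ _ _ _ h, smul_zero]
    rw [h0]
    exact N.smul_mem c hb

end

end Pool.Agent.Work.MP_dd0ddf_al
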