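import Pool.Agent.Work.MP_dd0ddf_al.KDefs

/-!
# MP_dd0ddf_al, module KEx: existence of the fields attached to an inert polynomial

`q ∈ F[x]` monic, irreducible over `E` (hence over `F`).  `K = AdjoinRoot q`, `L = AdjoinRoot (q.map (algebraMap F E))`, with the spectral norms over `F`: Mathlib `spectralNorm.nontriviallyNormedField F K`,
`spectralNorm.normedAlgebra`, `completeSpace`, `isNonarchimedean_spectralNorm`; a complete finite dimensional space over the proper field F is proper.  `L` is finite over `F`, give it the norm
`spectralNorm F L`; `K → L` and `E → L` are norm preserving (`NormedAlgebra.norm_eq_spectralNorm` for E, `spectralNorm.eq_of_tower`), so `NormedAlgebra K L`, `NormedAlgebra E L`.  `star` on `L`: apply star to the coefficients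
(`AdjoinRoot.map` of `starRingEnd E`, q.map is fixed).  `QExt K L`: `star` fixes `K`; `[L:K] = 2` from degrees; nontrivial.  `CharZero` from F.
`s = root`; K is generated by `s` over F, L by the image of `s` over E.
-/

set_option linter.unusedSectionVars false
set_option linter.style.haveILetI false

namespace Pool.Agent.Work.MP_dd0ddf_al

noncomputable section

universe u

/-- the fields attached to an inert irreducible polynomial -/
structure KData (F E : Type u) [NontriviallyNormedField F] [IsUltrametricDist F] [ProperSpace F]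
    [CharZero F] [NontriviallyNormedField E] [NormedAlgebra F E] [ProperSpace E] [StarRing E]
    [QExt F E] (q : Polynomial F) where
  K : Type u
  L : Type u
  [nK : NontriviallyNormedField K]
  [uK : IsUltrametricDist K]
  [pK : ProperSpace K]
  [cK : CharZero K]
  [nL : NontriviallyNormedField L]
  [aKL : NormedAlgebra K L]
  [pL : ProperSpace L]
  [sL : StarRing L]
  [qKL : QExt K L]
  [aFK : NormedAlgebra F K]
  [aEL : NormedAlgebra E L]
  [aFL : Algebra F L]
  [comp : KCompat F E K L]
  s : K
  root : Polynomial.aeval s q = 0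
  min : ∀ f : Polynomial F, Polynomial.aeval s f = 0 ↔ q ∣ f
  minL : ∀ f : Polynomial E, Polynomial.aeval (algebraMap K L s) f = 0 ↔
    q.map (algebraMap F E) ∣ f
  genK : ∀ x : K, ∃ f : Polynomial F, x = Polynomial.aeval s f
  genL : ∀ x : L, ∃ f : Polynomial E, x = Polynomial.aeval (algebraMap K L s) f
  degK : Module.finrank F K = q.natDegree

attribute [instance] KData.nK KData.uK KData.pK KData.cK KData.nL KData.aKL KData.pL KData.sL
  KData.qKL KData.aFK KData.aEL KData.aFL KData.comp

private theorem kex_abs {F E : Type u} [NontriviallyNormedField F] [IsUltrametricDist F]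
    [ProperSpace F] [CharZero F] [NontriviallyNormedField E] [NormedAlgebra F E] [ProperSpace E]
    [StarRing E] [QExt F E] (q : Polynomial F) (K L : Type u) [Field K] [Field L] [Algebra F K]
    [Algebra F L] [Algebra E L] [Algebra K L] [IsScalarTower F K L] [IsScalarTower F E L]
    [FiniteDimensional F K] [FiniteDimensional F L] [StarRing L]
    (hstarE : ∀ x : E, star (algebraMap E L x) = algebraMap E L (star x))
    (hstarK : ∀ x : K, star (algebraMap K L x) = algebraMap K L x)
    (hdeg : Module.finrank F K = Module.finrank E L) (s : K)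
    (root : Polynomial.aeval s q = 0)
    (min : ∀ f : Polynomial F, Polynomial.aeval s f = 0 ↔ q ∣ f)
    (minL : ∀ f : Polynomial E, Polynomial.aeval (algebraMap K L s) f = 0 ↔
      q.map (algebraMap F E) ∣ f)
    (genK : ∀ x : K, ∃ f : Polynomial F, x = Polynomial.aeval s f)
    (genL : ∀ x : L, ∃ f : Polynomial E, x = Polynomial.aeval (algebraMap K L s) f)
    (degK : Module.finrank F K = q.natDegree) : Nonempty (KData F E q) := by
  haveI : FiniteDimensional F E := qext_findim F E
  haveI : FiniteDimensional K L := FiniteDimensional.right F K L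
  haveI : FiniteDimensional E L := FiniteDimensional.right F E L
  letI nK : NontriviallyNormedField K := spectralNorm.nontriviallyNormedField F K
  letI nL : NontriviallyNormedField L := spectralNorm.nontriviallyNormedField F L
  letI aFK : NormedAlgebra F K := spectralNorm.normedAlgebra F K
  letI aFL : NormedAlgebra F L := spectralNorm.normedAlgebra F L
  letI aKL : NormedAlgebra K L := spectralNorm.normedAlgebra' F K L
  letI aEL : NormedAlgebra E L := spectralNorm.normedAlgebra' F E L
  haveI : ProperSpace K := FiniteDimensional.proper F K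
  haveI : ProperSpace L := FiniteDimensional.proper F L
  haveI : IsUltrametricDist K := by
    apply IsUltrametricDist.isUltrametricDist_of_isNonarchimedean_norm
    exact isNonarchimedean_spectralNorm (K := F) (L := K)
  haveI : CharZero K := charZero_of_injective_algebraMap (algebraMap F K).injective
  haveI hq : QExt K L := by
    refine ⟨hstarK, ?_, ?_⟩
    · have h1 := Module.finrank_mul_finrank F K L
      have h2 := Module.finrank_mul_finrank F E L
      rw [QExt.finrank_two (F := F) (E := E), ← hdeg, ← h1, mul_comm 2] at h2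
      have h3 : 0 < Module.finrank F K := Module.finrank_pos
      exact (Nat.eq_of_mul_eq_mul_left h3 h2).symm
    · obtain ⟨x, hx⟩ := QExt.nontriv (F := F) (E := E)
      refine ⟨algebraMap E L x, fun h => hx ?_⟩
      rw [hstarE] at h
      exact (algebraMap E L).injective h
  haveI hc : KCompat F E K L :=
    { tower1 := inferInstance
      tower2 := inferInstance
      star_comm := hstarE
      fd := inferInstance
      deg := hdeg }
  exact ⟨{ K := K
           L := L
           s := s
           root := root
           min := min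
           minL := minL
           genK := genK
           genL := genL
           degK := degK }⟩

open Polynomial in
theorem exists_KData {F E : Type u} [NontriviallyNormedField F] [IsUltrametricDist F]
    [ProperSpace F] [CharZero F] [NontriviallyNormedField E] [NormedAlgebra F E] [ProperSpace E]
    [StarRing E] [QExt F E] (q : Polynomial F) (hq : q.Monic)
    (hirr : Irreducible (q.map (algebraMap F E))) : Nonempty (KData F E q) := by
  haveI : FiniteDimensional F E := qext_findim F E
  have hstar : ∀ x : F, star (algebraMap F E x) = algebraMap F E x := QExt.star_alg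
  set Q : Polynomial E := q.map (algebraMap F E) with hQ
  have hQm : Q.Monic := hq.map _
  have hqi : Irreducible q := by
    refine (hq.irreducible_of_irreducible_map (algebraMap F E) q hirr)
  haveI : Fact (Irreducible q) := ⟨hqi⟩
  haveI : Fact (Irreducible Q) := ⟨hirr⟩
  have hdQ : Q.natDegree = q.natDegree := Polynomial.natDegree_map _
  -- the map `K → L`
  have hev : q.eval₂ ((AdjoinRoot.of Q).comp (algebraMap F E)) (AdjoinRoot.root Q) = 0 := by
    rw [← Polynomial.eval₂_map]
    exact AdjoinRoot.eval₂_root Q
  let κ : AdjoinRoot q →+* AdjoinRoot Q :=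
    AdjoinRoot.lift ((AdjoinRoot.of Q).comp (algebraMap F E)) (AdjoinRoot.root Q) hev
  -- the involution
  have hevs : Q.eval₂ ((AdjoinRoot.of Q).comp (starRingEnd E)) (AdjoinRoot.root Q) = 0 := by
    rw [← Polynomial.eval₂_map]
    have : Q.map (starRingEnd E) = Q := by
      rw [hQ, Polynomial.map_map]
      congr 1
      ext x
      exact hstar x
    rw [this]
    exact AdjoinRoot.eval₂_root Q
  let σ : AdjoinRoot Q →+* AdjoinRoot Q :=
    AdjoinRoot.lift ((AdjoinRoot.of Q).comp (starRingEnd E)) (AdjoinRoot.root Q) hevs
  have hσof : ∀ x : E, σ (AdjoinRoot.of Q x) = AdjoinRoot.of Q (star x) := fun x => by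
    show AdjoinRoot.lift _ _ hevs _ = _
    rw [AdjoinRoot.lift_of]
    rfl
  have hσroot : σ (AdjoinRoot.root Q) = AdjoinRoot.root Q := AdjoinRoot.lift_root hevs
  have hκof : ∀ x : F, κ (AdjoinRoot.of q x) = AdjoinRoot.of Q (algebraMap F E x) := fun x => by
    show AdjoinRoot.lift _ _ hev _ = _
    rw [AdjoinRoot.lift_of]
    rfl
  have hκroot : κ (AdjoinRoot.root q) = AdjoinRoot.root Q := AdjoinRoot.lift_root hev
  have hσσ : ∀ x, σ (σ x) = x := by
    have h1 : σ.comp σ = RingHom.id _ := by
      apply AdjoinRoot.ringHom_ext
      · ext x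
        show σ (σ (AdjoinRoot.of Q x)) = AdjoinRoot.of Q x
        rw [hσof, hσof, star_star]
      · show σ (σ (AdjoinRoot.root Q)) = AdjoinRoot.root Q
        rw [hσroot, hσroot]
    exact fun x => congrArg (fun f : AdjoinRoot Q →+* AdjoinRoot Q => f x) h1
  have hσκ : ∀ x, σ (κ x) = κ x := by
    have h1 : σ.comp κ = κ := by
      apply AdjoinRoot.ringHom_ext
      · ext x
        show σ (κ (AdjoinRoot.of q x)) = κ (AdjoinRoot.of q x)
        rw [hκof, hσof, hstar]
      · show σ (κ (AdjoinRoot.root q)) = κ (AdjoinRoot.root q)
        rw [hκroot, hσroot]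
    exact fun x => congrArg (fun f : AdjoinRoot q →+* AdjoinRoot Q => f x) h1
  letI : Algebra (AdjoinRoot q) (AdjoinRoot Q) := κ.toAlgebra
  letI : StarRing (AdjoinRoot Q) :=
    { star := σ
      star_involutive := hσσ
      star_mul := fun x y => by
        show σ (x * y) = σ y * σ x
        rw [map_mul, mul_comm]
      star_add := fun x y => map_add σ x y }
  haveI : IsScalarTower F (AdjoinRoot q) (AdjoinRoot Q) := by
    apply IsScalarTower.of_algebraMap_eq
    intro x
    show _ = κ (AdjoinRoot.of q x)
    rw [hκof]
    rfl
  have hfK : FiniteDimensional F (AdjoinRoot q) :=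
    (AdjoinRoot.powerBasis hqi.ne_zero).finite
  haveI hfL' : FiniteDimensional E (AdjoinRoot Q) :=
    (AdjoinRoot.powerBasis hirr.ne_zero).finite
  haveI hfL : FiniteDimensional F (AdjoinRoot Q) := FiniteDimensional.trans F E (AdjoinRoot Q)
  have hdK : Module.finrank F (AdjoinRoot q) = q.natDegree := by
    rw [(AdjoinRoot.powerBasis hqi.ne_zero).finrank, AdjoinRoot.powerBasis_dim]
  have hdL : Module.finrank E (AdjoinRoot Q) = Q.natDegree := by
    rw [(AdjoinRoot.powerBasis hirr.ne_zero).finrank, AdjoinRoot.powerBasis_dim]
  have hroot : algebraMap (AdjoinRoot q) (AdjoinRoot Q) (AdjoinRoot.root q) =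
      AdjoinRoot.root Q := hκroot
  refine kex_abs q (AdjoinRoot q) (AdjoinRoot Q) (fun x => hσof x) (fun x => hσκ x)
    (by rw [hdK, hdL, hdQ]) (AdjoinRoot.root q) ?_ ?_ ?_ ?_ ?_ hdK
  · rw [AdjoinRoot.aeval_eq, AdjoinRoot.mk_self]
  · intro f
    rw [AdjoinRoot.aeval_eq, AdjoinRoot.mk_eq_zero]
  · intro f
    rw [hroot, AdjoinRoot.aeval_eq, AdjoinRoot.mk_eq_zero]
  · intro x
    obtain ⟨f, hf⟩ := AdjoinRoot.mk_surjective x
    exact ⟨f, by rw [AdjoinRoot.aeval_eq, hf]⟩
  · intro x
    obtain ⟨f, hf⟩ := AdjoinRoot.mk_surjective x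
    exact ⟨f, by rw [hroot, AdjoinRoot.aeval_eq, hf]⟩

/-- the norm of the root: `N_{K/F}(s) = (-1)^d q(0)` -/
theorem KData.norm_s {F E : Type u} [NontriviallyNormedField F] [IsUltrametricDist F]
    [ProperSpace F] [CharZero F] [NontriviallyNormedField E] [NormedAlgebra F E] [ProperSpace E]
    [StarRing E] [QExt F E] {q : Polynomial F} (hq : q.Monic) (D : KData F E q) :
    Algebra.norm F D.s = (-1) ^ q.natDegree * q.coeff 0 := by
  haveI : FiniteDimensional F D.K := KCompat.fd (F := F) (E := E) (K := D.K) (L := D.L)
  have hint : IsIntegral F D.s := Algebra.IsIntegral.isIntegral D.s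
  have hmin : minpoly F D.s = q := by
    apply Polynomial.eq_of_monic_of_associated (minpoly.monic hint) hq
    exact associated_of_dvd_dvd (minpoly.dvd F D.s D.root) ((D.min _).1 (minpoly.aeval F D.s))
  have htop : Algebra.adjoin F {D.s} = ⊤ := by
    rw [eq_top_iff]
    intro x _
    obtain ⟨f, rfl⟩ := D.genK x
    exact Polynomial.aeval_mem_adjoin_singleton F D.s
  have h1 := Algebra.PowerBasis.norm_gen_eq_coeff_zero_minpoly (PowerBasis.ofAdjoinEqTop hint htop)
  rw [PowerBasis.ofAdjoinEqTop_gen, PowerBasis.ofAdjoinEqTop_dim, hmin] at h1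
  exact h1

end

end Pool.Agent.Work.MP_dd0ddf_al
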