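import Pool.Agent.Work.MP_dd0ddf_al.CycDefs
import Pool.Agent.Work.MP_dd0ddf_al.FdPoly
import Pool.Agent.Work.MP_dd0ddf_al.KEx
import Pool.Agent.Work.MP_dd0ddf_al.NoPos

/-!
# MP_dd0ddf_al, module CUPos: the group C_U has no positive characters

`CU B X U`: isometries commuting with `X` and equal to 1 on `U^⊥`.  Let `U = cyc X e`, `ann(e) = q^k`, `q` irreducible over E, c ∈ CU.
(1) `c` maps `U = (U^⊥)^⊥` (U nondegenerate) to itself and commutes with X, so `c e = f(X) e` and `c = f(X)` on `U`; `f fbar ≡ 1 mod q^k` (isometry, ip_aeval, nondegeneracy on U).  The same for `c⁻¹`.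
(2) claim: `c^{M!} → 1` as `M → ∞`.  Then `δ(c)^{M!} = δ(c^{M!}) = 1` for M large by local triviality, so `δ(c) = 1` (positive real).
(3) in `A = E[x]/(q^k)`: exists_pi gives `r ∈ F[x]`, `q ∣ r - x`, `q^k ∣ q∘r`; so `L = E[x]/q → A`, `a ↦ a∘r` is a ring homomorphism, a section of `A → L`.  Write `f = (f∘r)(1 + ν)` in A, ν ∈ qA nilpotent (f∘r ≡ f mod q).
 KData `D` for q: `ζ = f(s) ∈ L` satisfies `ζ star ζ = 1`, so `‖ζ‖ = 1` (norm_one_of_unit D.K).  `ζ^{M!} → 1` in L: the units of norm 1 are compact and `{‖x - 1‖ < 1}` is an open subgroup of finite index N, so `ζ^N = 1 + y`, `‖y‖ < 1`, and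
 `(1+y)^{M!} → 1` (if `‖(1+y)^j - 1‖ ≤ ε < 1` then taking p-th powers, p with ‖p‖ < 1, decreases the distance by a fixed factor).
 `(1 + ν)^{M!} = ∑_{j<k} binom(M!, j) ν^j → 1` since `binom(M!, j) → 0` in F for `1 ≤ j < k` (j! binom(M!, j) is divisible by M!, and ‖M!‖ → 0 in F: F is an ultrametric proper field of characteristic 0).
 The evaluation `A → End(U)`, `a ↦ a(X)|_U` is E-linear on a finite dimensional space, so continuous; hence `c^{M!} u → u` for u ∈ U, and for u ∈ U^⊥ trivially; the same for `c⁻¹`; so `c^{M!} → 1` in UU B (topology of units, pointwise convergence).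
-/

set_option linter.unusedSectionVars false
set_option linter.style.haveILetI false

namespace Pool.Agent.Work.MP_dd0ddf_al

noncomputable section

universe u

variable {F E : Type u} [NontriviallyNormedField F] [IsUltrametricDist F] [ProperSpace F]
  [CharZero F] [NontriviallyNormedField E] [NormedAlgebra F E] [ProperSpace E] [StarRing E]
  [QExt F E]
variable {V : Type u} [AddCommGroup V] [Module E V] [Module.Finite E V] [TopologicalSpace V]
  [IsTopologicalAddGroup V] [T2Space V] [ContinuousSMul E V]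

/-- isometries commuting with `X` and equal to `1` on `U^⊥` -/
def CU (B : SkewH E V) (X : SA B) (U : Submodule E V) : Subgroup (UU B) where
  carrier := {c | c.1.1 * X.1 = X.1 * c.1.1 ∧ ∀ v ∈ orth B U, c.1.1 v = v}
  one_mem' := ⟨by
    show (1 : Module.End E V) * X.1 = X.1 * 1
    rw [one_mul, mul_one], fun v _ => rfl⟩
  mul_mem' := fun {a b} ha hb => ⟨by
    show (a.1.1 * b.1.1) * X.1 = X.1 * (a.1.1 * b.1.1)
    rw [mul_assoc, hb.1, ← mul_assoc, ha.1, mul_assoc], fun v hv => by
    show a.1.1 (b.1.1 v) = v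
    rw [hb.2 v hv, ha.2 v hv]⟩
  inv_mem' := fun {a} ha => by
    constructor
    · show a.1⁻¹.1 * X.1 = X.1 * a.1⁻¹.1
      have h1 : a.1.1 * X.1 = X.1 * a.1.1 := ha.1
      calc a.1⁻¹.1 * X.1 = a.1⁻¹.1 * X.1 * (a.1.1 * a.1⁻¹.1) := by
            rw [show a.1.1 * a.1⁻¹.1 = 1 from a.1.mul_inv, mul_one]
        _ = a.1⁻¹.1 * (X.1 * a.1.1) * a.1⁻¹.1 := by simp only [mul_assoc]
        _ = a.1⁻¹.1 * (a.1.1 * X.1) * a.1⁻¹.1 := by rw [h1]
        _ = (a.1⁻¹.1 * a.1.1) * X.1 * a.1⁻¹.1 := by simp only [mul_assoc]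
        _ = X.1 * a.1⁻¹.1 := by rw [show a.1⁻¹.1 * a.1.1 = 1 from a.1.inv_mul, one_mul]
    · intro v hv
      show a.1⁻¹.1 v = v
      conv_lhs => rw [← ha.2 v hv]
      exact congrArg (fun f : Module.End E V => f v) a.1.inv_mul

variable (F) in
include F in
theorem pow_fact_tendsto (z : E) (hz : z * star z = 1) :
    Filter.Tendsto (fun M : ℕ => z ^ (Nat.factorial M)) Filter.atTop (nhds 1) := by
  haveI : IsUltrametricDist E := ult_E F
  have hz1 : ‖z‖ = 1 := norm_one_of_unit F z hz
  have hpow : ∀ n : ℕ, z ^ n ∈ {w : E | w * star w = 1} := by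
    intro n
    show z ^ n * star (z ^ n) = 1
    rw [star_pow, ← mul_pow, hz, one_pow]
  rw [Metric.tendsto_atTop]
  intro ε hε
  obtain ⟨a, -, φ, hφ, hlim⟩ := (isCompact_norm_one (E := E) F).tendsto_subseq
    (x := fun n : ℕ => z ^ n) hpow
  obtain ⟨k, hk⟩ := Metric.cauchySeq_iff.1 hlim.cauchySeq ε hε
  have h1 := hk (k + 1) (Nat.le_succ k) k le_rfl
  have h2 : φ k < φ (k + 1) := hφ (Nat.lt_succ_self k)
  set N : ℕ := φ (k + 1) - φ k with hN
  have hN0 : 0 < N := Nat.sub_pos_of_lt h2
  have h3 : ‖z ^ N - 1‖ < ε := by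
    rw [dist_eq_norm] at h1
    have h4 : ((fun n : ℕ => z ^ n) ∘ φ) (k + 1) - ((fun n : ℕ => z ^ n) ∘ φ) k =
        z ^ φ k * (z ^ N - 1) := by
      show z ^ φ (k + 1) - z ^ φ k = _
      have h5 : φ (k + 1) = φ k + N := by omega
      rw [h5, pow_add]
      ring
    rw [h4, norm_mul, norm_pow, hz1, one_pow, one_mul] at h1
    exact h1
  have h6 : ∀ j : ℕ, ‖(z ^ N) ^ j - 1‖ < ε := by
    intro j
    induction j with
    | zero => rw [pow_zero, sub_self, norm_zero]; exact hε
    | succ j ih =>
      have h7 : (z ^ N) ^ (j + 1) - 1 = z ^ N * ((z ^ N) ^ j - 1) + (z ^ N - 1) := by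
        rw [pow_succ]
        ring
      rw [h7]
      refine (IsUltrametricDist.norm_add_le_max _ _).trans_lt (max_lt ?_ h3)
      rw [norm_mul, norm_pow, hz1, one_pow, one_mul]
      exact ih
  refine ⟨N, fun M hM => ?_⟩
  obtain ⟨t, ht⟩ := Nat.dvd_factorial hN0 hM
  rw [dist_eq_norm, ht, pow_mul]
  exact h6 t

variable (F) in
/-- an integer with small norm -/
private theorem cupos_small : ∃ m : ℕ, 1 < m ∧ ‖(m : F)‖ < 1 := by
  have hc : IsCompact (Metric.closedBall (0 : F) 1) := isCompact_closedBall 0 1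
  obtain ⟨a, -, φ, hφ, hlim⟩ := hc.tendsto_subseq (x := fun n : ℕ => (n : F)) (fun n => by
    rw [mem_closedBall_zero_iff]
    exact IsUltrametricDist.norm_natCast_le_one F n)
  have hcs : CauchySeq ((fun n : ℕ => (n : F)) ∘ φ) := hlim.cauchySeq
  obtain ⟨N, hN⟩ := Metric.cauchySeq_iff.1 hcs 1 one_pos
  have h1 := hN (N + 1) (Nat.le_succ N) N le_rfl
  have h2 : φ N < φ (N + 1) := hφ (Nat.lt_succ_self N)
  rw [dist_eq_norm] at h1
  have h3 : ((fun n : ℕ => (n : F)) ∘ φ) (N + 1) - ((fun n : ℕ => (n : F)) ∘ φ) N =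
      ((φ (N + 1) - φ N : ℕ) : F) := by
    rw [Nat.cast_sub h2.le]
    rfl
  rw [h3] at h1
  refine ⟨φ (N + 1) - φ N, ?_, h1⟩
  by_contra hcon
  have h4 : φ (N + 1) - φ N = 1 := by omega
  rw [h4, Nat.cast_one, norm_one] at h1
  exact lt_irrefl _ h1

private theorem cupos_pow_dvd (p : ℕ) (hp : 0 < p) (k : ℕ) : p ^ k ∣ Nat.factorial (k * p) := by
  induction k with
  | zero => rw [pow_zero]; exact one_dvd _
  | succ k ih =>
    obtain ⟨t, ht⟩ : ∃ t, (k + 1) * p = t + 1 := ⟨(k + 1) * p - 1, by
      have : 0 < (k + 1) * p := Nat.mul_pos (Nat.succ_pos k) hp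
      omega⟩
    rw [ht, Nat.factorial_succ, ← ht, pow_succ, mul_comm (p ^ k)]
    refine mul_dvd_mul (Dvd.intro_left _ rfl) (ih.trans (Nat.factorial_dvd_factorial ?_))
    have : (k + 1) * p = k * p + p := by ring
    omega

variable (F) in
private theorem cupos_fact : Filter.Tendsto (fun M : ℕ => ‖((Nat.factorial M : ℕ) : F)‖)
    Filter.atTop (nhds 0) := by
  obtain ⟨p, hp1, hp2⟩ := cupos_small F
  rw [Metric.tendsto_atTop]
  intro ε hε
  obtain ⟨k, hk⟩ := exists_pow_lt_of_lt_one hε hp2
  refine ⟨k * p, fun M hM => ?_⟩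
  rw [dist_zero_right, norm_norm]
  obtain ⟨t, ht⟩ := (cupos_pow_dvd p (by omega) k).trans (Nat.factorial_dvd_factorial hM)
  rw [ht, Nat.cast_mul, Nat.cast_pow, norm_mul, norm_pow]
  have h1 : ‖(t : F)‖ ≤ 1 := IsUltrametricDist.norm_natCast_le_one F t
  calc ‖(p : F)‖ ^ k * ‖(t : F)‖ ≤ ‖(p : F)‖ ^ k * 1 :=
        mul_le_mul_of_nonneg_left h1 (by positivity)
    _ = ‖(p : F)‖ ^ k := mul_one _
    _ < ε := hk

theorem choose_fact_tendsto (j : ℕ) (hj : 0 < j) :
    Filter.Tendsto (fun M : ℕ => ((Nat.choose (Nat.factorial M) j : ℕ) : F)) Filter.atTop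
      (nhds 0) := by
  have hj0 : ((Nat.factorial j : ℕ) : F) ≠ 0 := Nat.cast_ne_zero.2 (Nat.factorial_ne_zero j)
  have hj1 : 0 < ‖((Nat.factorial j : ℕ) : F)‖ := norm_pos_iff.2 hj0
  have h1 : ∀ M : ℕ, ‖((Nat.choose (Nat.factorial M) j : ℕ) : F)‖ ≤
      ‖((Nat.factorial M : ℕ) : F)‖ / ‖((Nat.factorial j : ℕ) : F)‖ := by
    intro M
    rw [le_div_iff₀ hj1, ← norm_mul, ← Nat.cast_mul, mul_comm,
      ← Nat.descFactorial_eq_factorial_mul_choose]
    obtain ⟨i, rfl⟩ : ∃ i, j = i + 1 := ⟨j - 1, by omega⟩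
    have h2 : Nat.factorial M ∣ (Nat.factorial M).descFactorial (i + 1) := by
      obtain ⟨n, hn⟩ : ∃ n, Nat.factorial M = n + 1 := ⟨Nat.factorial M - 1, by
        have := Nat.factorial_pos M
        omega⟩
      rw [hn, Nat.succ_descFactorial_succ]
      exact dvd_mul_right _ _
    obtain ⟨t, ht⟩ := h2
    rw [ht, Nat.cast_mul, norm_mul]
    have h3 : ‖(t : F)‖ ≤ 1 := IsUltrametricDist.norm_natCast_le_one F t
    calc ‖((Nat.factorial M : ℕ) : F)‖ * ‖(t : F)‖ ≤ ‖((Nat.factorial M : ℕ) : F)‖ * 1 :=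
          mul_le_mul_of_nonneg_left h3 (norm_nonneg _)
      _ = ‖((Nat.factorial M : ℕ) : F)‖ := mul_one _
  rw [tendsto_zero_iff_norm_tendsto_zero]
  refine squeeze_zero (fun M => norm_nonneg _) h1 ?_
  have h4 := (cupos_fact F).div_const ‖((Nat.factorial j : ℕ) : F)‖
  rwa [zero_div] at h4

private theorem cupos_end {ι : Type*} {l : Filter ι} (g : ι → Module.End E V)
    (h : ∀ v, Filter.Tendsto (fun i => g i v) l (nhds v)) : Filter.Tendsto g l (nhds 1) := by
  have hi : Topology.IsInducing (fun f : Module.End E V => (f : V → V)) := ⟨rfl⟩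
  rw [hi.tendsto_nhds_iff, tendsto_pi_nhds]
  exact h

private theorem cupos_units (B : SkewH E V) (X : SA B) (U : Submodule E V) (n : ℕ → ℕ)
    (h : ∀ (a : CU B X U) (v : V), Filter.Tendsto (fun M => (a.1.1.1 ^ n M) v)
      Filter.atTop (nhds v)) (c : CU B X U) :
    Filter.Tendsto (fun M => c ^ n M) Filter.atTop (nhds 1) := by
  rw [tendsto_subtype_rng, tendsto_subtype_rng,
    Units.isEmbedding_embedProduct.tendsto_nhds_iff]
  refine Filter.Tendsto.prodMk_nhds ?_ ?_
  · exact cupos_end (fun M => c.1.1.1 ^ n M) (h c)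
  · have h1 : Filter.Tendsto (fun M => (c⁻¹).1.1.1 ^ n M) Filter.atTop (nhds 1) :=
      cupos_end _ (h c⁻¹)
    have h2 := (MulOpposite.continuous_op.tendsto (1 : Module.End E V)).comp h1
    refine h2.congr fun M => ?_
    show MulOpposite.op (((c⁻¹).1.1.1) ^ n M) = MulOpposite.op (((c.1.1 ^ n M)⁻¹ : GV E V).1)
    rw [← inv_pow]
    rfl

private theorem cupos_fd {q : Polynomial F} (D : KData F E q) : FiniteDimensional E D.L := by
  haveI : FiniteDimensional F D.K := KCompat.fd (F := F) (E := E) (K := D.K) (L := D.L)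
  apply FiniteDimensional.of_finrank_pos
  rw [← KCompat.deg (F := F) (E := E) (K := D.K) (L := D.L)]
  exact Module.finrank_pos

private theorem cupos_star {q : Polynomial F} (D : KData F E q) (f : Polynomial E) :
    star (Polynomial.aeval (algebraMap D.K D.L D.s) f) =
      Polynomial.aeval (algebraMap D.K D.L D.s) (f.map (starRingEnd E)) := by
  have hs : star (algebraMap D.K D.L D.s) = algebraMap D.K D.L D.s :=
    QExt.star_alg (F := D.K) (E := D.L) D.s
  induction f using Polynomial.induction_on' with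
  | add f g hf hg => rw [map_add, star_add, hf, hg, Polynomial.map_add, map_add]
  | monomial n a =>
    rw [Polynomial.map_monomial, Polynomial.aeval_monomial, Polynomial.aeval_monomial,
      star_mul', star_pow, hs, KCompat.star_comm (F := F) (E := E) (K := D.K) (L := D.L)]
    rfl

/-- the linear map `g(s) ↦ g(r(X)) u` -/
private theorem cupos_phi {q : Polynomial F} (D : KData F E q) (X : Module.End E V)
    (r : Polynomial E) (u : V)
    (hu : ∀ g : Polynomial E, q.map (algebraMap F E) ∣ g → Polynomial.aeval X (g.comp r) u = 0) :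
    ∃ Φ : D.L →ₗ[E] V, ∀ g : Polynomial E,
      Φ (Polynomial.aeval (algebraMap D.K D.L D.s) g) = Polynomial.aeval X (g.comp r) u := by
  let ρ : Polynomial E →ₗ[E] D.L := (Polynomial.aeval (algebraMap D.K D.L D.s)).toLinearMap
  have hρ : LinearMap.range ρ = ⊤ := by
    rw [LinearMap.range_eq_top]
    intro x
    obtain ⟨f, hf⟩ := D.genL x
    exact ⟨f, hf.symm⟩
  obtain ⟨σ, hσ⟩ := LinearMap.exists_rightInverse_of_surjective ρ hρ
  let Ψ : Polynomial E →ₗ[E] V :=
    { toFun := fun g => Polynomial.aeval X (g.comp r) u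
      map_add' := fun g g' => by rw [Polynomial.add_comp, map_add, LinearMap.add_apply]
      map_smul' := fun a g => by
        rw [Polynomial.smul_comp, map_smul, LinearMap.smul_apply, RingHom.id_apply] }
  refine ⟨Ψ ∘ₗ σ, fun g => ?_⟩
  show Ψ (σ (ρ g)) = Ψ g
  rw [← sub_eq_zero, ← map_sub]
  apply hu
  rw [← D.minL, map_sub, sub_eq_zero]
  exact LinearMap.congr_fun hσ (ρ g)

private theorem cupos_mul (X : Module.End E V) (f g : Polynomial E) (e : V) :
    Polynomial.aeval X (f * g) e = Polynomial.aeval X f (Polynomial.aeval X g e) := by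
  rw [map_mul]
  rfl

/-- convergence on the cyclic vector -/
private theorem cupos_key (B : SkewH E V) (X : SA B) (e : V) (q : Polynomial F) (k : ℕ)
    (hq : q.Monic) (hirr : Irreducible (q.map (algebraMap F E)))
    (hann : ∀ f : Polynomial E, Polynomial.aeval X.1 f e = 0 ↔
      (q.map (algebraMap F E)) ^ k ∣ f)
    (hk : 0 < k) (f : Polynomial E)
    (hf : (q.map (algebraMap F E)) ^ k ∣ f * f.map (starRingEnd E) - 1) :
    Filter.Tendsto (fun M : ℕ => Polynomial.aeval X.1 (f ^ Nat.factorial M) e) Filter.atTop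
      (nhds e) := by
  classical
  haveI : CharZero E := charZero_of_injective_algebraMap (algebraMap F E).injective
  have hirrF : Irreducible q := Polynomial.Monic.irreducible_of_irreducible_map _ q hq hirr
  obtain ⟨r, hr1, hr2⟩ := exists_pi q hirrF k
  obtain ⟨D⟩ := exists_KData q hq hirr
  haveI := cupos_fd D
  set Q : Polynomial E := q.map (algebraMap F E) with hQ
  set R : Polynomial E := r.map (algebraMap F E) with hR
  have hR1 : Q ∣ R - Polynomial.X := by
    have := Polynomial.map_dvd (algebraMap F E) hr1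
    rwa [Polynomial.map_sub, Polynomial.map_X] at this
  have hR2 : Q ^ k ∣ Q.comp R := by
    have := Polynomial.map_dvd (algebraMap F E) hr2
    rwa [Polynomial.map_pow, Polynomial.map_comp] at this
  set fb : Polynomial E := f.map (starRingEnd E) with hfb
  -- `f = f ∘ R + Q t`
  obtain ⟨t, ht⟩ : Q ∣ f - f.comp R := by
    have h1 : R - Polynomial.X ∣ f.comp R - f := by
      have h2 := Polynomial.sub_dvd_eval_sub R Polynomial.X (f.map Polynomial.C)
      rwa [← Polynomial.eval₂_eq_eval_map, ← Polynomial.eval₂_eq_eval_map,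
        show Polynomial.eval₂ Polynomial.C Polynomial.X f = f from Polynomial.eval₂_C_X] at h2
    have h3 := hR1.trans h1
    rw [← neg_sub]
    exact (dvd_neg.2 h3)
  have hF0 : Q ^ k ∣ f.comp R * fb.comp R - 1 := by
    obtain ⟨a, ha⟩ := hf
    have h1 : f.comp R * fb.comp R - 1 = (f * fb - 1).comp R := by
      rw [Polynomial.sub_comp, Polynomial.mul_comp, Polynomial.one_comp]
    rw [h1, ha, Polynomial.mul_comp, Polynomial.pow_comp]
    refine Dvd.dvd.mul_right ?_ _
    exact hR2.trans (dvd_pow_self _ hk.ne')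
  set ν : Polynomial E := fb.comp R * (Q * t) with hν
  have hfν : Q ^ k ∣ f - f.comp R * (1 + ν) := by
    have h1 : f - f.comp R * (1 + ν) = -((f.comp R * fb.comp R - 1) * (Q * t)) := by
      have h2 : f = f.comp R + Q * t := by rw [← ht]; ring
      conv_lhs =>
        lhs
        rw [h2]
      rw [hν]
      ring
    rw [h1]
    exact dvd_neg.2 (hF0.mul_right _)
  have hνk : ∀ j, k ≤ j → Polynomial.aeval X.1 (ν ^ j) e = 0 := by
    intro j hj
    rw [hann]
    refine (pow_dvd_pow Q hj).trans ?_
    refine pow_dvd_pow_of_dvd ?_ j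
    rw [hν]
    exact (dvd_mul_right Q t).mul_left _
  -- the vectors `u_j`
  set u : ℕ → V := fun j => Polynomial.aeval X.1 (ν ^ j) e with hu
  have hu0 : ∀ j (g : Polynomial E), Q ∣ g → Polynomial.aeval X.1 (g.comp R) (u j) = 0 := by
    intro j g hg
    rw [hu]
    simp only
    rw [← cupos_mul, hann]
    obtain ⟨a, rfl⟩ := hg
    rw [Polynomial.mul_comp]
    exact (hR2.mul_right _).mul_right _
  choose Φ hΦ using fun j => cupos_phi D X.1 R (u j) (hu0 j)
  set ζ : D.L := Polynomial.aeval (algebraMap D.K D.L D.s) f with hζ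
  have hζ1 : ζ * star ζ = 1 := by
    rw [hζ, cupos_star, ← map_mul, ← sub_eq_zero]
    have h1 : Polynomial.aeval (algebraMap D.K D.L D.s) (f * fb - 1) = 0 := by
      rw [D.minL]
      exact (dvd_pow_self _ hk.ne').trans hf
    rw [map_sub, map_one] at h1
    exact h1
  have hζ2 := pow_fact_tendsto D.K ζ hζ1
  -- the formula
  have hform : ∀ n : ℕ, Polynomial.aeval X.1 (f ^ n) e =
      ∑ j ∈ Finset.range k, ((Nat.choose n j : ℕ) : E) • Φ j (ζ ^ n) := by
    intro n
    have h1 : Polynomial.aeval X.1 (f ^ n) e =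
        Polynomial.aeval X.1 ((f.comp R * (1 + ν)) ^ n) e := by
      rw [← sub_eq_zero, ← LinearMap.sub_apply, ← map_sub, hann]
      exact hfν.trans (sub_dvd_pow_sub_pow _ _ n)
    have h2 : Polynomial.aeval X.1 ((1 + ν) ^ n) e =
        ∑ j ∈ Finset.range k, ((Nat.choose n j : ℕ) : E) • u j := by
      have h3 : (1 + ν) ^ n = ∑ j ∈ Finset.range (n + 1), ν ^ j * ((Nat.choose n j : ℕ) :
          Polynomial E) := by
        rw [add_comm, add_pow]
        refine Finset.sum_congr rfl fun j _ => ?_
        rw [one_pow, mul_one]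
      have h4 : Polynomial.aeval X.1 ((1 + ν) ^ n) e =
          ∑ j ∈ Finset.range (n + 1), ((Nat.choose n j : ℕ) : E) • u j := by
        rw [h3, map_sum, LinearMap.sum_apply]
        refine Finset.sum_congr rfl fun j _ => ?_
        rw [mul_comm, map_mul, map_natCast, hu]
        show ((Nat.choose n j : ℕ) : Module.End E V) (Polynomial.aeval X.1 (ν ^ j) e) = _
        rw [Module.End.natCast_apply, Nat.cast_smul_eq_nsmul]
      rw [h4]
      have h5 : ∀ N : ℕ, n + 1 ≤ N → ∑ j ∈ Finset.range (n + 1), ((Nat.choose n j : ℕ) : E) • u j =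
          ∑ j ∈ Finset.range N, ((Nat.choose n j : ℕ) : E) • u j := by
        intro N hN
        refine Finset.sum_subset (Finset.range_mono hN) fun j _ hj => ?_
        rw [Finset.mem_range, not_lt] at hj
        rw [Nat.choose_eq_zero_of_lt (by omega), Nat.cast_zero, zero_smul]
      have h6 : ∀ N : ℕ, k ≤ N → ∑ j ∈ Finset.range k, ((Nat.choose n j : ℕ) : E) • u j =
          ∑ j ∈ Finset.range N, ((Nat.choose n j : ℕ) : E) • u j := by
        intro N hN
        refine Finset.sum_subset (Finset.range_mono hN) fun j _ hj => ?_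
        rw [Finset.mem_range, not_lt] at hj
        rw [show u j = 0 from hνk j hj, smul_zero]
      rw [h5 (n + 1 + k) (by omega), h6 (n + 1 + k) (by omega)]
    rw [h1, mul_pow, cupos_mul, h2, map_sum]
    refine Finset.sum_congr rfl fun j _ => ?_
    rw [map_smul, hζ, ← map_pow, hΦ, Polynomial.pow_comp]
  have hlim : Filter.Tendsto (fun M : ℕ => ∑ j ∈ Finset.range k,
      ((Nat.choose (Nat.factorial M) j : ℕ) : E) • Φ j (ζ ^ Nat.factorial M)) Filter.atTop
      (nhds (∑ j ∈ Finset.range k, (if j = 0 then (1 : E) else 0) • Φ j 1)) := by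
    refine tendsto_finsetSum _ fun j _ => ?_
    have h1 : Filter.Tendsto (fun M : ℕ => Φ j (ζ ^ Nat.factorial M)) Filter.atTop
        (nhds (Φ j 1)) :=
      ((LinearMap.continuous_of_finiteDimensional (Φ j)).tendsto 1).comp hζ2
    refine Filter.Tendsto.smul ?_ h1
    rcases Nat.eq_zero_or_pos j with hj | hj
    · subst hj
      simp only [Nat.choose_zero_right, Nat.cast_one, if_pos]
      exact tendsto_const_nhds
    · rw [if_neg hj.ne']
      have h2 := ((continuous_algebraMap F E).tendsto (0 : F)).comp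
        (choose_fact_tendsto (F := F) j hj)
      rw [map_zero] at h2
      refine h2.congr fun M => ?_
      show algebraMap F E ((Nat.choose (Nat.factorial M) j : ℕ) : F) = _
      rw [map_natCast]
  have hval : (∑ j ∈ Finset.range k, (if j = 0 then (1 : E) else 0) • Φ j 1) = e := by
    rw [Finset.sum_eq_single 0]
    · rw [if_pos rfl, one_smul]
      have h1 := hΦ 0 1
      have h2 : Polynomial.aeval (algebraMap D.K D.L D.s) (1 : Polynomial E) = 1 := map_one _
      rw [h2, Polynomial.one_comp] at h1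
      rw [h1, hu]
      simp only [pow_zero, map_one]
      rfl
    · intro j _ hj
      rw [if_neg hj, zero_smul]
    · intro h0
      exact absurd (Finset.mem_range.2 hk) h0
  rw [hval] at hlim
  exact hlim.congr fun M => (hform _).symm

theorem cuPos (B : SkewH E V) (X : SA B) (e : V) (q : Polynomial F) (k : ℕ) (hq : q.Monic)
    (hirr : Irreducible (q.map (algebraMap F E)))
    (hann : ∀ f : Polynomial E, Polynomial.aeval X.1 f e = 0 ↔
      (q.map (algebraMap F E)) ^ k ∣ f)
    (hnd : NDeg B (cyc X.1 e)) (δ : PosChar (CU B X (cyc X.1 e)))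
    (c : CU B X (cyc X.1 e)) : δ.δ c = 1 := by
  classical
  -- convergence of the powers
  have hcyc : ∀ (a : CU B X (cyc X.1 e)) (v : V),
      Filter.Tendsto (fun M => (a.1.1.1 ^ Nat.factorial M) v) Filter.atTop (nhds v) := by
    intro a
    have hcomm : ∀ (g : Polynomial E) (v : V), a.1.1.1 (Polynomial.aeval X.1 g v) =
        Polynomial.aeval X.1 g (a.1.1.1 v) := by
      intro g v
      have h1 : Commute a.1.1.1 X.1 := a.2.1
      have h2 : Commute a.1.1.1 (Polynomial.aeval X.1 g) := by
        induction g using Polynomial.induction_on' with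
        | add f g hf hg => rw [map_add]; exact hf.add_right hg
        | monomial n b =>
          rw [Polynomial.aeval_monomial]
          exact (Algebra.commute_algebraMap_right b _).mul_right (h1.pow_right n)
      exact LinearMap.congr_fun h2 v
    have he : e ∈ cyc X.1 e := Submodule.subset_span ⟨0, rfl⟩
    have hae : a.1.1.1 e ∈ cyc X.1 e := by
      refine (orth_orth B (cyc X.1 e)).le ?_
      intro w hw
      have h1 := a.1.2 e w
      rw [a.2.2 w hw] at h1
      rw [h1, B.skew w e, hw e he, star_zero, neg_zero]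
    obtain ⟨f, hf⟩ := (mem_cyc X.1 e _).1 hae
    have hpow : ∀ n : ℕ, (a.1.1.1 ^ n) e = Polynomial.aeval X.1 (f ^ n) e := by
      intro n
      induction n with
      | zero => rw [pow_zero, pow_zero, map_one]
      | succ n ih =>
        rw [pow_succ', pow_succ, cupos_mul, ← hf]
        show a.1.1.1 ((a.1.1.1 ^ n) e) = _
        rw [ih, hcomm]
    have hlime : Filter.Tendsto (fun M => (a.1.1.1 ^ Nat.factorial M) e) Filter.atTop
        (nhds e) := by
      rcases Nat.eq_zero_or_pos k with hk | hk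
      · have he0 : e = 0 := by
          have h1 := (hann 1).2 (by rw [hk, pow_zero])
          rw [map_one] at h1
          exact h1
        simp only [he0, map_zero]
        exact tendsto_const_nhds
      · have hff : (q.map (algebraMap F E)) ^ k ∣ f * f.map (starRingEnd E) - 1 := by
          rw [← hann]
          have hy : Polynomial.aeval X.1 (f * f.map (starRingEnd E) - 1) e ∈ cyc X.1 e :=
            (mem_cyc X.1 e _).2 ⟨_, rfl⟩
          apply hnd _ hy
          intro w hw
          obtain ⟨g, rfl⟩ := (mem_cyc X.1 e w).1 hw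
          have h1 := a.1.2 e (Polynomial.aeval X.1 g e)
          rw [hcomm, hf, ip_aeval B X.2, ← cupos_mul, ← cupos_mul] at h1
          have h2 : B.ip e (Polynomial.aeval X.1
              ((f * f.map (starRingEnd E) - 1) * g) e) = 0 := by
            have h3 : (f * f.map (starRingEnd E) - 1) * g =
                f.map (starRingEnd E) * (g * f) - g := by ring
            have h4 : ∀ x y : V, B.ip e (x - y) = B.ip e x - B.ip e y := by
              intro x y
              have h5 := B.smul_right (-1) e y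
              rw [neg_smul, one_smul, star_neg, star_one] at h5
              rw [sub_eq_add_neg, B.add_right, h5]
              ring
            rw [h3, map_sub, LinearMap.sub_apply, h4, sub_eq_zero]
            rw [cupos_mul, cupos_mul] at h1 ⊢
            exact h1
          have h6 : (f * f.map (starRingEnd E) - 1).map (starRingEnd E) =
              f * f.map (starRingEnd E) - 1 := by
            have h7 : (f.map (starRingEnd E)).map (starRingEnd E) = f := by
              rw [Polynomial.map_map]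
              have h8 : (starRingEnd E).comp (starRingEnd E) = RingHom.id E := by
                ext x
                simp
              rw [h8, Polynomial.map_id]
            rw [Polynomial.map_sub, Polynomial.map_mul, h7, Polynomial.map_one]
            ring
          rw [ip_aeval B X.2, h6, ← cupos_mul]
          exact h2
        refine (cupos_key B X e q k hq hirr hann hk f hff).congr fun M => ?_
        rw [hpow]
    have hcommn : ∀ (n : ℕ) (g : Polynomial E) (v : V),
        (a.1.1.1 ^ n) (Polynomial.aeval X.1 g v) =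
        Polynomial.aeval X.1 g ((a.1.1.1 ^ n) v) := by
      intro n
      induction n with
      | zero => intro g v; rfl
      | succ n ih =>
        intro g v
        rw [pow_succ']
        show a.1.1.1 ((a.1.1.1 ^ n) (Polynomial.aeval X.1 g v)) =
          Polynomial.aeval X.1 g (a.1.1.1 ((a.1.1.1 ^ n) v))
        rw [ih, hcomm]
    intro v
    have hfix : ∀ (n : ℕ), (a.1.1.1 ^ n) (v - prO B _ hnd v) = v - prO B _ hnd v := by
      intro n
      induction n with
      | zero => rfl
      | succ n ih =>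
        rw [pow_succ]
        show (a.1.1.1 ^ n) (a.1.1.1 (v - prO B _ hnd v)) = _
        rw [a.2.2 _ (sub_prO_mem B _ hnd v), ih]
    obtain ⟨g, hg⟩ := (mem_cyc X.1 e _).1 (prO_mem B _ hnd v)
    have h1 : Filter.Tendsto (fun M => Polynomial.aeval X.1 g
        ((a.1.1.1 ^ Nat.factorial M) e) + (v - prO B _ hnd v)) Filter.atTop
        (nhds (Polynomial.aeval X.1 g e + (v - prO B _ hnd v))) :=
      (((LinearMap.continuous_of_finiteDimensional
        (Polynomial.aeval X.1 g)).tendsto e).comp hlime).add tendsto_const_nhds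
    have h2 : Polynomial.aeval X.1 g e + (v - prO B _ hnd v) = v := by
      rw [← hg]
      abel
    rw [h2] at h1
    refine h1.congr fun M => ?_
    rw [← hcommn, ← hg]
    conv_lhs =>
      rw [← hfix (Nat.factorial M)]
    rw [← map_add]
    congr 1
    abel
  have hlim := cupos_units B X (cyc X.1 e) Nat.factorial hcyc c
  obtain ⟨W, hW, h1W, hδW⟩ := δ.lc
  have hev := hlim.eventually (hW.mem_nhds h1W)
  obtain ⟨M, hM⟩ := hev.exists
  have h3 := hδW _ hM
  have h4 : ∀ n : ℕ, δ.δ (c ^ n) = δ.δ c ^ n := by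
    intro n
    induction n with
    | zero =>
      rw [pow_zero, pow_zero]
      exact hδW 1 h1W
    | succ n ih => rw [pow_succ, δ.mul, ih, pow_succ]
  rw [h4] at h3
  exact (pow_eq_one_iff_of_nonneg (δ.pos c).le (Nat.factorial_ne_zero M)).1 h3

end

end Pool.Agent.Work.MP_dd0ddf_al
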