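import Pool.Agent.Work.MP_dd0ddf_al.NiDefs
import Pool.Agent.Work.MP_dd0ddf_al.NiF

/-!
# MP_dd0ddf_al, module NiE1: square classes of the group of norm one elements

`[E^1 : (E^1)^2] = 2 m_F`.  `E^1` is compact (module NoPos, `isCompact_norm_one`; here one may re-prove: `‖star x‖ = ‖x‖` by `norm_one_of_unit`-type argument),
`E^1[2] = {±1}`, `U = {z ∈ E^1 : ‖z - 1‖ ≤ r}`, `r = ‖2‖ s`, `s < 1`, is open of finite index, without 2-torsion, and
`U² = {z ∈ E^1 : ‖z - 1‖ ≤ ‖2‖ r}` (NiSq in `E`: if `z ∈ E^1`, `‖z-1‖ ≤ ‖2‖r`, `z = x²`, `‖x-1‖ ≤ r`, then `(x star x)² = 1`, `x star x` close to 1, hence `= 1`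
by uniqueness).  Cayley transform: `x ↦ (1+x)/(1-x)` is a bijection `{x : star x = -x, ‖x‖ ≤ s} → {z ∈ E^1 : ‖z-1‖ ≤ ‖2‖ s}` with
`z - z' = 2(x-x')/((1-x)(1-x'))`, so `‖z/z' - 1‖ = ‖2‖ ‖x - x'‖`; hence `[U : U²] = [B⁻_s : B⁻_{‖2‖s}]`, `B⁻_s = {x : star x = -x, ‖x‖ ≤ s}`; with
`x = η f`, `f ∈ F` (η fixed with star η = -η; every x with star x = -x is η f) this is an index of balls in `F` of radii `s/‖η‖` and `‖2‖ s/‖η‖`
(`‖algebraMap f‖ = ‖f‖`, NormedAlgebra); choose `s = ‖η‖ ‖f0‖`, `f0 ∈ F`; use `ball_index`.  Conclude with `index_squares` for the group `A = E1 E`.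
-/

set_option linter.unusedSectionVars false
set_option linter.style.haveILetI false

namespace Pool.Agent.Work.MP_dd0ddf_al

noncomputable section

universe u

variable {F E : Type u} [NontriviallyNormedField F] [IsUltrametricDist F] [ProperSpace F]
  [CharZero F] [NontriviallyNormedField E] [NormedAlgebra F E] [ProperSpace E] [StarRing E]
  [QExt F E]

variable (F E) in
include F in
private theorem nie1_ultra : IsUltrametricDist E := by
  apply IsUltrametricDist.isUltrametricDist_of_forall_norm_natCast_le_one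
  intro n
  have h1 : ((n : ℕ) : E) = algebraMap F E (n : F) := (map_natCast (algebraMap F E) n).symm
  rw [h1, norm_algebraMap']
  exact IsUltrametricDist.norm_natCast_le_one F n

variable (F) in
include F in
private theorem nie1_not_lt (z : E) (hz : z * star z = 1) : ¬ ‖z‖ < 1 := by
  intro h
  have h1 : Filter.Tendsto (fun n : ℕ => z ^ n) Filter.atTop (nhds 0) :=
    tendsto_pow_atTop_nhds_zero_of_norm_lt_one h
  have h2 : Filter.Tendsto (fun n : ℕ => star (z ^ n)) Filter.atTop (nhds (star (0 : E))) :=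
    ((continuous_star_E F E).tendsto 0).comp h1
  have h3 := h1.mul h2
  rw [star_zero, mul_zero] at h3
  have h4 : (fun n : ℕ => z ^ n * star (z ^ n)) = fun _ => (1 : E) := by
    funext n
    rw [star_pow, ← mul_pow, hz, one_pow]
  rw [h4] at h3
  exact one_ne_zero (tendsto_nhds_unique tendsto_const_nhds h3)

variable (F) in
include F in
private theorem nie1_one (z : E) (hz : z * star z = 1) : ‖z‖ = 1 := by
  have h1 := nie1_not_lt F z hz
  have h2 := nie1_not_lt F (star z) (by rw [star_star, mul_comm]; exact hz)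
  have h3 : ‖z‖ * ‖star z‖ = 1 := by rw [← norm_mul, hz, norm_one]
  push Not at h1 h2
  nlinarith [norm_nonneg z, norm_nonneg (star z)]

variable (F E) in
include F in
theorem norm_star_eq (x : E) : ‖star x‖ = ‖x‖ := by
  rcases eq_or_ne x 0 with rfl | hx
  · rw [star_zero]
  · have hsx : star x ≠ 0 := by
      intro h
      apply hx
      rw [← star_star x, h, star_zero]
    have h1 : (star x / x) * star (star x / x) = 1 := by
      rw [star_div₀, star_star]
      field_simp
    have h2 := nie1_one F _ h1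
    rw [norm_div, div_eq_one_iff_eq (norm_ne_zero_iff.2 hx)] at h2
    exact h2

variable (F E) in
theorem exists_eta : ∃ η : E, η ≠ 0 ∧ star η = -η ∧ (∃ d : F, d ≠ 0 ∧ η ^ 2 = algebraMap F E d) ∧
    (∀ x : E, star x = -x → ∃ f : F, x = algebraMap F E f * η) ∧
    (∀ x : E, star x = x → ∃ f : F, x = algebraMap F E f) := by
  haveI : CharZero E := charZero_of_injective_algebraMap (algebraMap F E).injective
  haveI : FiniteDimensional F E := qext_findim F E
  obtain ⟨x0, hx0⟩ := QExt.nontriv (F := F) (E := E)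
  set η : E := x0 - star x0 with hη
  have hη0 : η ≠ 0 := sub_ne_zero.2 (Ne.symm hx0)
  have hstar : star η = -η := by rw [hη, star_sub, star_star]; ring
  have hstarF : ∀ f : F, star (algebraMap F E f) = algebraMap F E f := QExt.star_alg
  have hli : LinearIndependent F ![(1 : E), η] := by
    rw [LinearIndependent.pair_iff]
    intro s t hst
    have h1 : algebraMap F E s + algebraMap F E t * η = 0 := by
      rw [Algebra.smul_def, Algebra.smul_def, mul_one] at hst
      exact hst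
    have h2 : algebraMap F E s - algebraMap F E t * η = 0 := by
      have := congrArg star h1
      rw [star_add, star_mul', hstarF, hstarF, hstar, star_zero] at this
      linear_combination this
    have h3 : algebraMap F E s = 0 := by
      have : (2 : E) * algebraMap F E s = 0 := by linear_combination h1 + h2
      exact (mul_eq_zero.1 this).resolve_left two_ne_zero
    have h4 : algebraMap F E t = 0 := by
      have : (2 : E) * (algebraMap F E t * η) = 0 := by linear_combination h1 - h2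
      exact (mul_eq_zero.1 ((mul_eq_zero.1 this).resolve_left two_ne_zero)).resolve_right hη0
    exact ⟨(map_eq_zero _).1 h3, (map_eq_zero _).1 h4⟩
  have hspan : ∀ x : E, ∃ f g : F, x = algebraMap F E f + algebraMap F E g * η := by
    intro x
    have h1 := hli.span_eq_top_of_card_eq_finrank (by
      rw [Fintype.card_fin]; exact (QExt.finrank_two (F := F) (E := E)).symm)
    have h2 : x ∈ Submodule.span F (Set.range ![(1 : E), η]) := by rw [h1]; trivial
    rw [Matrix.range_cons, Matrix.range_cons, Matrix.range_empty, Set.union_empty,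
      Set.singleton_union, Submodule.mem_span_pair] at h2
    obtain ⟨f, g, hfg⟩ := h2
    refine ⟨f, g, ?_⟩
    rw [← hfg, Algebra.smul_def, Algebra.smul_def, mul_one]
  have hfix : ∀ x : E, star x = x → ∃ f : F, x = algebraMap F E f := by
    intro x hx
    obtain ⟨f, g, hfg⟩ := hspan x
    rw [hfg, star_add, star_mul', hstarF, hstarF, hstar] at hx
    have : (2 : E) * (algebraMap F E g * η) = 0 := by linear_combination -hx
    have h4 := (mul_eq_zero.1 this).resolve_left two_ne_zero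
    exact ⟨f, by rw [hfg, h4, add_zero]⟩
  refine ⟨η, hη0, hstar, ?_, ?_, hfix⟩
  · obtain ⟨d, hd⟩ := hfix (η ^ 2) (by rw [star_pow, hstar]; ring)
    refine ⟨d, ?_, hd⟩
    rintro rfl
    rw [map_zero] at hd
    exact hη0 (pow_eq_zero_iff (two_ne_zero)|>.1 hd)
  · intro x hx
    obtain ⟨f, g, hfg⟩ := hspan x
    rw [hfg, star_add, star_mul', hstarF, hstarF, hstar] at hx
    have : (2 : E) * algebraMap F E f = 0 := by linear_combination hx
    have h4 := (mul_eq_zero.1 this).resolve_left two_ne_zero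
    exact ⟨g, by rw [hfg, h4, zero_add]⟩

variable (F) in
include F in
private theorem nie1_finite [IsUltrametricDist E] (r : ℝ) (hr : 0 < r) (hr1 : r < 1) :
    ((uball E r hr hr1).subgroupOf (E1 E)).index ≠ 0 := by
  have hCc : IsCompact {z : E | z * star z = 1} := by
    apply Metric.isCompact_of_isClosed_isBounded
    · exact isClosed_eq (continuous_id.mul (continuous_star_E F E)) continuous_const
    · refine (Metric.isBounded_closedBall (x := (0 : E)) (r := 1)).subset ?_
      intro z hz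
      rw [Metric.mem_closedBall, dist_zero_right, nie1_one F z hz]
  obtain ⟨t, ht⟩ := hCc.elim_nhds_subcover' (fun x _ => Metric.ball x r)
    (fun x _ => Metric.ball_mem_nhds x hr)
  let f : {x // x ∈ t} → (E1 E) ⧸ ((uball E r hr hr1).subgroupOf (E1 E)) := fun x =>
    (((⟨Units.mk0 (x.1.1 : E) (by
      intro h0
      have h1 : (x.1.1 : E) * star (x.1.1 : E) = 1 := x.1.2
      rw [h0, zero_mul] at h1
      exact zero_ne_one h1), x.1.2⟩ : E1 E)) : (E1 E) ⧸ ((uball E r hr hr1).subgroupOf (E1 E)))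
  have hf : Function.Surjective f := by
    intro q
    obtain ⟨x, rfl⟩ := QuotientGroup.mk_surjective q
    have hx : ((x : Eˣ) : E) * star ((x : Eˣ) : E) = 1 := x.2
    have hyC := ht (show ((x : Eˣ) : E) ∈ _ from hx)
    rw [Set.mem_iUnion₂] at hyC
    obtain ⟨z, hz, hyz⟩ := hyC
    refine ⟨⟨z, hz⟩, ?_⟩
    rw [Metric.mem_ball, dist_eq_norm] at hyz
    have hz1 : ‖(z.1 : E)‖ = 1 := nie1_one F _ z.2
    have hz0 : (z.1 : E) ≠ 0 := by
      intro h0
      rw [h0, norm_zero] at hz1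
      exact zero_ne_one hz1
    rw [QuotientGroup.eq]
    show ‖(z.1 : E)⁻¹ * ((x : Eˣ) : E) - 1‖ ≤ r
    have e3 : (z.1 : E)⁻¹ * ((x : Eˣ) : E) - 1 = (z.1 : E)⁻¹ * (((x : Eˣ) : E) - z.1) := by
      field_simp
    rw [e3, norm_mul, norm_inv, hz1, inv_one, one_mul]
    exact hyz.le
  haveI := Finite.of_surjective f hf
  exact Subgroup.index_ne_zero_of_finite

private theorem nie1_card_tors [CharZero E] : Nat.card (twoTors (E1 E)) = 2 := by
  have hm1 : (-1 : Eˣ) ∈ E1 E := by
    show ((-1 : Eˣ) : E) * star ((-1 : Eˣ) : E) = 1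
    rw [Units.val_neg, Units.val_one, star_neg, star_one]
    ring
  have hsq : ∀ b : Bool, (if b then (⟨-1, hm1⟩ : E1 E) else 1) ∈ twoTors (E1 E) := by
    intro b
    show (if b then (⟨-1, hm1⟩ : E1 E) else 1) ^ 2 = 1
    cases b
    · simp
    · apply Subtype.ext
      simp
  let f : Bool → twoTors (E1 E) := fun b => ⟨if b then ⟨-1, hm1⟩ else 1, hsq b⟩
  have hne : (-1 : Eˣ) ≠ 1 := by
    intro h9
    have h10 := congrArg (fun u : Eˣ => (u : E)) h9
    simp only [Units.val_neg, Units.val_one] at h10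
    have : (2 : E) = 0 := by linear_combination -h10
    exact two_ne_zero this
  have hbij : Function.Bijective f := by
    constructor
    · intro b b' h
      have h1 : (if b then (⟨-1, hm1⟩ : E1 E) else 1) = (if b' then (⟨-1, hm1⟩ : E1 E) else 1) :=
        congrArg Subtype.val h
      have h2 : ((if b then (⟨-1, hm1⟩ : E1 E) else 1 : E1 E) : Eˣ) =
        ((if b' then (⟨-1, hm1⟩ : E1 E) else 1 : E1 E) : Eˣ) := congrArg Subtype.val h1
      cases b <;> cases b'
      · rfl
      · exact absurd h2.symm hne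
      · exact absurd h2 hne
      · rfl
    · rintro ⟨x, hx⟩
      have hx2 : x ^ 2 = 1 := hx
      have hx3 : ((x : Eˣ) : E) ^ 2 = 1 := by
        have := congrArg (fun u : E1 E => ((u : Eˣ) : E)) hx2
        simpa using this
      have h4 : (((x : Eˣ) : E) - 1) * (((x : Eˣ) : E) + 1) = 0 := by linear_combination hx3
      rcases mul_eq_zero.1 h4 with h5 | h5
      · refine ⟨false, ?_⟩
        apply Subtype.ext
        show (1 : E1 E) = x
        apply Subtype.ext
        apply Units.ext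
        show (1 : E) = ((x : Eˣ) : E)
        exact (sub_eq_zero.1 h5).symm
      · refine ⟨true, ?_⟩
        apply Subtype.ext
        show (⟨-1, hm1⟩ : E1 E) = x
        apply Subtype.ext
        apply Units.ext
        show ((-1 : Eˣ) : E) = ((x : Eˣ) : E)
        rw [Units.val_neg, Units.val_one]
        linear_combination -h5
  rw [← Nat.card_congr (Equiv.ofBijective f hbij)]
  simp

variable (F) in
include F in
private theorem nie1_sq [IsUltrametricDist E] [CharZero E] (r : ℝ) (hr : 0 < r) (hr1 : r < 1)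
    (hr2 : r < ‖(2 : E)‖) (h2 : 0 < ‖(2 : E)‖ * r) (h21 : ‖(2 : E)‖ * r < 1) :
    sqSub ((uball E r hr hr1).subgroupOf (E1 E)) =
      (uball E (‖(2 : E)‖ * r) h2 h21).subgroupOf (E1 E) := by
  ext y
  constructor
  · rintro ⟨x, hx, rfl⟩
    have hx' : ‖((x : Eˣ) : E) - 1‖ ≤ r := hx
    show ‖((x : Eˣ) : E) ^ 2 - 1‖ ≤ ‖(2 : E)‖ * r
    exact sq_near hr hr2 hx'
  · intro hy
    have hy' : ‖((y : Eˣ) : E) - 1‖ ≤ ‖(2 : E)‖ * r := hy
    obtain ⟨x, ⟨hx1, hx2⟩, -⟩ := sqrt_near hr hr2 hy'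
    have hy1 : ((y : Eˣ) : E) * star ((y : Eˣ) : E) = 1 := y.2
    have hx0 : x ≠ 0 := by
      intro h0
      rw [h0] at hx2
      apply (y : Eˣ).ne_zero
      rw [← hx2]
      ring
    -- x * star x = 1 by uniqueness
    have hxx : x * star x = 1 := by
      obtain ⟨z, -, huniq⟩ := sqrt_near (L := E) (y := 1) hr hr2 (by
        rw [sub_self, norm_zero]; positivity)
      have h3 := huniq (x * star x) ⟨by
        have e : x * star x - 1 = x * (star x - 1) + (x - 1) := by ring
        have hxn : ‖x‖ = 1 := by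
          have h1 : ‖x‖ ≤ 1 := by
            have := IsUltrametricDist.norm_add_le_max (x - 1) (1 : E)
            rw [sub_add_cancel, norm_one] at this
            exact this.trans (max_le (hx1.trans hr1.le) le_rfl)
          have h2 : ‖x‖ ^ 2 = 1 := by
            rw [← norm_pow, hx2]
            exact nie1_one F _ hy1
          nlinarith [norm_nonneg x]
        rw [e]
        refine (IsUltrametricDist.norm_add_le_max _ _).trans (max_le ?_ hx1)
        rw [norm_mul, hxn, one_mul]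
        have : star x - 1 = star (x - 1) := by rw [star_sub, star_one]
        rw [this, norm_star_eq F E]
        exact hx1, by
        rw [mul_pow, ← star_pow, hx2]
        exact hy1⟩
      have h4 := huniq 1 ⟨by rw [sub_self, norm_zero]; exact hr.le, by ring⟩
      rw [h3]
      exact h4.symm
    refine ⟨⟨Units.mk0 x hx0, hxx⟩, hx1, ?_⟩
    apply Subtype.ext
    apply Units.ext
    exact hx2

variable (F E) in
private theorem nie1_index [IsUltrametricDist E] [CharZero E] (η : E) (hη0 : η ≠ 0)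
    (hηs : star η = -η) (hη : ∀ x : E, star x = -x → ∃ f : F, x = algebraMap F E f * η)
    (f0 : F) (hf0 : f0 ≠ 0) (hs1 : ‖f0‖ * ‖η‖ < 1) (h2 : ‖(2 : E)‖ = ‖(2 : F)‖)
    (h2le : ‖(2 : E)‖ ≤ 1)
    (ha : 0 < ‖(2 : E)‖ * (‖f0‖ * ‖η‖)) (ha1 : ‖(2 : E)‖ * (‖f0‖ * ‖η‖) < 1)
    (hb : 0 < ‖(2 : E)‖ * (‖(2 : E)‖ * (‖f0‖ * ‖η‖)))
    (hb1 : ‖(2 : E)‖ * (‖(2 : E)‖ * (‖f0‖ * ‖η‖)) < 1) :
    ((uball E (‖(2 : E)‖ * (‖(2 : E)‖ * (‖f0‖ * ‖η‖))) hb hb1).subgroupOf (E1 E)).relIndex
      ((uball E (‖(2 : E)‖ * (‖f0‖ * ‖η‖)) ha ha1).subgroupOf (E1 E)) = mTwo F := by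
  have hηn : 0 < ‖η‖ := norm_pos_iff.2 hη0
  have h20 : 0 < ‖(2 : E)‖ := norm_pos_iff.2 two_ne_zero
  have hstarF : ∀ f : F, star (algebraMap F E f) = algebraMap F E f := QExt.star_alg
  -- facts on f η
  have hfn : ∀ f : F, ‖algebraMap F E f * η‖ = ‖f‖ * ‖η‖ := by
    intro f
    rw [norm_mul, norm_algebraMap']
  have hsub1 : ∀ x : E, ‖x‖ < 1 → ‖1 - x‖ = 1 := by
    intro x hx
    have h3 : ‖1 - x‖ ≤ 1 := by
      have := IsUltrametricDist.norm_add_le_max (1 : E) (-x)
      rw [norm_neg, norm_one, ← sub_eq_add_neg] at this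
      exact this.trans (max_le le_rfl hx.le)
    have h4 : (1 : ℝ) ≤ max ‖1 - x‖ ‖x‖ := by
      have := IsUltrametricDist.norm_add_le_max (1 - x) x
      rw [sub_add_cancel, norm_one] at this
      exact this
    rcases le_max_iff.1 h4 with h5 | h5
    · exact le_antisymm h3 h5
    · linarith
  have hne1 : ∀ x : E, ‖x‖ < 1 → 1 - x ≠ 0 := by
    intro x hx h0
    have := hsub1 x hx
    rw [h0, norm_zero] at this
    exact zero_ne_one this
  have hlt : ∀ f : F, ‖f‖ ≤ ‖f0‖ → ‖algebraMap F E f * η‖ < 1 := by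
    intro f hf
    rw [hfn]
    calc ‖f‖ * ‖η‖ ≤ ‖f0‖ * ‖η‖ := by gcongr
      _ < 1 := hs1
  -- z + 1
  have hz1 : ∀ z : E, ‖z - 1‖ ≤ ‖(2 : E)‖ * (‖f0‖ * ‖η‖) → ‖z + 1‖ = ‖(2 : E)‖ := by
    intro z hz
    have hlt2 : ‖z - 1‖ < ‖(2 : E)‖ := by
      refine hz.trans_lt ?_
      nlinarith
    have h3 : ‖z + 1‖ ≤ ‖(2 : E)‖ := by
      have := IsUltrametricDist.norm_add_le_max (z - 1) (2 : E)
      have e : z - 1 + 2 = z + 1 := by ring
      rw [e] at this
      exact this.trans (max_le hlt2.le le_rfl)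
    have h4 : ‖(2 : E)‖ ≤ max ‖z + 1‖ ‖z - 1‖ := by
      have := IsUltrametricDist.norm_add_le_max (z + 1) (-(z - 1))
      rw [norm_neg] at this
      have e : z + 1 + -(z - 1) = 2 := by ring
      rw [e] at this
      exact this
    rcases le_max_iff.1 h4 with h5 | h5
    · exact le_antisymm h3 h5
    · linarith
  -- the forward map
  have hfwd : ∀ z : E, z * star z = 1 → ‖z - 1‖ ≤ ‖(2 : E)‖ * (‖f0‖ * ‖η‖) →
      ∃ f : F, ‖f‖ ≤ ‖f0‖ ∧ algebraMap F E f * η * (z + 1) = z - 1 := by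
    intro z hz hzn
    have hzp : z + 1 ≠ 0 := by
      intro h0
      have := hz1 z hzn
      rw [h0, norm_zero] at this
      exact h20.ne this
    have hz0 : z ≠ 0 := by
      intro h0
      rw [h0, zero_mul] at hz
      exact zero_ne_one hz
    have hsz : star z = z⁻¹ := eq_inv_of_mul_eq_one_right hz
    obtain ⟨f, hf⟩ := hη ((z - 1) / (z + 1)) (by
      rw [star_div₀, star_sub, star_add, star_one, hsz]
      have hzp' : 1 + z ≠ 0 := by rw [add_comm]; exact hzp
      have hi : z⁻¹ + 1 ≠ 0 := by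
        intro h0
        apply hzp
        have : z * (z⁻¹ + 1) = 0 := by rw [h0, mul_zero]
        rw [mul_add, mul_inv_cancel₀ hz0, mul_one] at this
        rw [add_comm]
        exact this
      rw [div_eq_iff hi, neg_mul, div_mul_eq_mul_div, eq_neg_iff_add_eq_zero, add_comm,
        div_add' _ _ _ hzp, div_eq_zero_iff]
      left
      field_simp
      ring)
    have hf' : algebraMap F E f * η * (z + 1) = z - 1 := by
      rw [← hf, div_mul_cancel₀ _ hzp]
    refine ⟨f, ?_, hf'⟩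
    have h5 := congrArg norm hf'
    rw [norm_mul, hfn, hz1 z hzn] at h5
    have h6 : ‖f‖ * ‖η‖ * ‖(2 : E)‖ ≤ ‖f0‖ * ‖η‖ * ‖(2 : E)‖ := by
      rw [h5]
      linarith [mul_comm ‖(2 : E)‖ (‖f0‖ * ‖η‖)]
    have h7 := le_of_mul_le_mul_right h6 h20
    exact le_of_mul_le_mul_right h7 hηn
  choose! φ hφ1 hφ2 using hfwd
  -- the inverse map
  set g : F → E := fun f => (1 + algebraMap F E f * η) / (1 - algebraMap F E f * η) with hg
  have hgs : ∀ f : F, ‖f‖ ≤ ‖f0‖ → g f * star (g f) = 1 := by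
    intro f hf
    have h3 := hne1 _ (hlt f hf)
    have h4 : 1 + algebraMap F E f * η ≠ 0 := by
      have := hne1 (-(algebraMap F E f * η)) (by rw [norm_neg]; exact hlt f hf)
      rwa [sub_neg_eq_add] at this
    simp only [hg]
    rw [star_div₀, star_add, star_sub, star_one, star_mul', hstarF, hηs, mul_neg, sub_neg_eq_add,
      ← sub_eq_add_neg]
    field_simp
  have hgn : ∀ f : F, ‖f‖ ≤ ‖f0‖ → ‖g f - 1‖ ≤ ‖(2 : E)‖ * (‖f0‖ * ‖η‖) := by
    intro f hf
    have h3 := hne1 _ (hlt f hf)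
    have e : g f - 1 = 2 * (algebraMap F E f * η) / (1 - algebraMap F E f * η) := by
      simp only [hg]
      field_simp
      ring
    rw [e, norm_div, norm_mul, hfn, hsub1 _ (hlt f hf), div_one]
    gcongr
  have hg0 : ∀ f : F, ‖f‖ ≤ ‖f0‖ → g f ≠ 0 := by
    intro f hf h0
    have := hgs f hf
    rw [h0, zero_mul] at this
    exact zero_ne_one this
  have hφg : ∀ f : F, ‖f‖ ≤ ‖f0‖ → φ (g f) = f := by
    intro f hf
    have h3 := hφ2 (g f) (hgs f hf) (hgn f hf)
    have h4 := hne1 _ (hlt f hf)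
    have e1 : g f + 1 = 2 / (1 - algebraMap F E f * η) := by
      simp only [hg]
      field_simp
      ring
    have e2 : g f - 1 = 2 * (algebraMap F E f * η) / (1 - algebraMap F E f * η) := by
      simp only [hg]
      field_simp
      ring
    rw [e1, e2, mul_div_assoc', div_left_inj' h4] at h3
    have h5 : algebraMap F E (φ (g f)) * (η * 2) = algebraMap F E f * (η * 2) := by
      linear_combination h3
    have h6 := mul_right_cancel₀ (mul_ne_zero hη0 two_ne_zero) h5
    exact (algebraMap F E).injective h6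
  have hgφ : ∀ z : E, z * star z = 1 → ‖z - 1‖ ≤ ‖(2 : E)‖ * (‖f0‖ * ‖η‖) → g (φ z) = z := by
    intro z hz hzn
    have h3 := hφ2 z hz hzn
    have h4 := hne1 _ (hlt (φ z) (hφ1 z hz hzn))
    simp only [hg]
    rw [div_eq_iff h4]
    linear_combination h3
  let e : ((uball E (‖(2 : E)‖ * (‖f0‖ * ‖η‖)) ha ha1).subgroupOf (E1 E)) ≃
      (aball F ‖f0‖ (norm_nonneg _)) :=
    { toFun := fun z => ⟨φ (((z : E1 E) : Eˣ) : E), hφ1 _ (z : E1 E).2 z.2⟩
      invFun := fun f => ⟨⟨Units.mk0 (g f) (hg0 f f.2), hgs f f.2⟩, hgn f f.2⟩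
      left_inv := fun z => by
        apply Subtype.ext
        apply Subtype.ext
        apply Units.ext
        exact hgφ _ (z : E1 E).2 z.2
      right_inv := fun f => by
        apply Subtype.ext
        exact hφg f f.2 }
  have hball := ball_index F (2 : F) f0 hf0
  rw [mTwo, ← hball]
  unfold Subgroup.relIndex AddSubgroup.relIndex Subgroup.index AddSubgroup.index
  apply Nat.card_congr
  refine Quotient.congr e ?_
  intro a b
  rw [QuotientGroup.leftRel_apply, QuotientAddGroup.leftRel_apply]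
  set za : E := (((a : E1 E) : Eˣ) : E) with hza
  set zb : E := (((b : E1 E) : Eˣ) : E) with hzb
  have hza1 : za * star za = 1 := (a : E1 E).2
  have hzb1 : zb * star zb = 1 := (b : E1 E).2
  have hzan : ‖za - 1‖ ≤ ‖(2 : E)‖ * (‖f0‖ * ‖η‖) := a.2
  have hzbn : ‖zb - 1‖ ≤ ‖(2 : E)‖ * (‖f0‖ * ‖η‖) := b.2
  have h3 : (a⁻¹ * b ∈ ((uball E (‖(2 : E)‖ * (‖(2 : E)‖ * (‖f0‖ * ‖η‖))) hb hb1).subgroupOf
      (E1 E)).subgroupOf ((uball E (‖(2 : E)‖ * (‖f0‖ * ‖η‖)) ha ha1).subgroupOf (E1 E))) ↔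
      ‖za⁻¹ * zb - 1‖ ≤ ‖(2 : E)‖ * (‖(2 : E)‖ * (‖f0‖ * ‖η‖)) := by
    rw [← Units.val_inv_eq_inv_val]
    exact Iff.rfl
  have h4 : (-(e a) + e b ∈ (aball F (‖(2 : F)‖ * ‖f0‖) (by positivity)).addSubgroupOf
      (aball F ‖f0‖ (norm_nonneg _))) ↔ ‖-(φ za) + φ zb‖ ≤ ‖(2 : F)‖ * ‖f0‖ := Iff.rfl
  rw [h3, h4]
  have hzan1 : ‖za‖ = 1 := nie1_one F _ hza1
  have hza0 : za ≠ 0 := by
    intro h0
    rw [h0, norm_zero] at hzan1
    exact zero_ne_one hzan1
  have h5 : ‖za⁻¹ * zb - 1‖ = ‖zb - za‖ := by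
    have e3 : za⁻¹ * zb - 1 = za⁻¹ * (zb - za) := by field_simp
    rw [e3, norm_mul, norm_inv, hzan1, inv_one, one_mul]
  have hfa := hφ1 za hza1 hzan
  have hfb := hφ1 zb hzb1 hzbn
  have h6 : ‖zb - za‖ = ‖(2 : E)‖ * (‖-(φ za) + φ zb‖ * ‖η‖) := by
    have e1 := (hgφ za hza1 hzan).symm
    have e2 := (hgφ zb hzb1 hzbn).symm
    have n1 := hne1 _ (hlt _ hfa)
    have n2 := hne1 _ (hlt _ hfb)
    have e4 : zb - za = 2 * (algebraMap F E (-(φ za) + φ zb) * η) /
        ((1 - algebraMap F E (φ za) * η) * (1 - algebraMap F E (φ zb) * η)) := by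
      rw [e1, e2, hφg _ hfa, hφg _ hfb]
      simp only [hg]
      have e5 : algebraMap F E (-(φ za) + φ zb) * η =
          algebraMap F E (φ zb) * η - algebraMap F E (φ za) * η := by
        rw [map_add, map_neg]
        ring
      rw [e5]
      generalize algebraMap F E (φ za) * η = P at n1 ⊢
      generalize algebraMap F E (φ zb) * η = Q at n2 ⊢
      field_simp
      ring
    rw [e4, norm_div, norm_mul, hfn, norm_mul, hsub1 _ (hlt _ hfa), hsub1 _ (hlt _ hfb), mul_one,
      div_one]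
  rw [h5, h6, ← h2]
  have hpos : 0 < ‖(2 : E)‖ * ‖η‖ := by positivity
  constructor
  · intro h
    have h7 : (‖-(φ za) + φ zb‖) * (‖(2 : E)‖ * ‖η‖) ≤ (‖(2 : E)‖ * ‖f0‖) * (‖(2 : E)‖ * ‖η‖) := by
      linarith
    exact le_of_mul_le_mul_right h7 hpos
  · intro h
    have h7 := mul_le_mul_of_nonneg_right h hpos.le
    linarith

variable (F E) in
theorem index_sq_E1 : (sqSub (⊤ : Subgroup (E1 E))).index = 2 * mTwo F := by
  haveI := nie1_ultra F E
  haveI : CharZero E := charZero_of_injective_algebraMap (algebraMap F E).injective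
  obtain ⟨η, hη0, hηs, -, hη, -⟩ := exists_eta F E
  have hηn : 0 < ‖η‖ := norm_pos_iff.2 hη0
  have h2 : ‖(2 : E)‖ = ‖(2 : F)‖ := by
    have : (2 : E) = algebraMap F E 2 := (map_ofNat (algebraMap F E) 2).symm
    rw [this, norm_algebraMap']
  have h20 : 0 < ‖(2 : E)‖ := norm_pos_iff.2 two_ne_zero
  have h2le : ‖(2 : E)‖ ≤ 1 := by
    have := IsUltrametricDist.norm_add_le_max (1 : E) 1
    rw [one_add_one_eq_two, norm_one, max_self] at this
    exact this
  obtain ⟨f0, hf0, hf0lt⟩ := NormedField.exists_norm_lt F (r := 1 / ‖η‖) (by positivity)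
  have hf0ne : f0 ≠ 0 := norm_pos_iff.1 hf0
  have hs1 : ‖f0‖ * ‖η‖ < 1 := by
    rw [lt_div_iff₀ hηn] at hf0lt
    exact hf0lt
  have hs0 : 0 < ‖f0‖ * ‖η‖ := by positivity
  have ha : 0 < ‖(2 : E)‖ * (‖f0‖ * ‖η‖) := by positivity
  have ha1 : ‖(2 : E)‖ * (‖f0‖ * ‖η‖) < 1 := by nlinarith
  have ha2 : ‖(2 : E)‖ * (‖f0‖ * ‖η‖) < ‖(2 : E)‖ := by nlinarith
  have hb : 0 < ‖(2 : E)‖ * (‖(2 : E)‖ * (‖f0‖ * ‖η‖)) := by positivity
  have hb1 : ‖(2 : E)‖ * (‖(2 : E)‖ * (‖f0‖ * ‖η‖)) < 1 := by nlinarith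
  have hsq := nie1_sq F (‖(2 : E)‖ * (‖f0‖ * ‖η‖)) ha ha1 ha2 hb hb1
  have hrel : (sqSub ((uball E (‖(2 : E)‖ * (‖f0‖ * ‖η‖)) ha ha1).subgroupOf (E1 E))).relIndex
      ((uball E (‖(2 : E)‖ * (‖f0‖ * ‖η‖)) ha ha1).subgroupOf (E1 E)) = mTwo F := by
    rw [hsq]
    exact nie1_index F E η hη0 hηs hη f0 hf0ne hs1 h2 h2le ha ha1 hb hb1
  have hmain := index_squares ((uball E (‖(2 : E)‖ * (‖f0‖ * ‖η‖)) ha ha1).subgroupOf (E1 E))
    ⟨nie1_finite F _ ha ha1⟩ (by
      intro u hu hu2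
      have hu' : ‖((u : Eˣ) : E) - 1‖ ≤ ‖(2 : E)‖ * (‖f0‖ * ‖η‖) := hu
      have hu3 : ((u : Eˣ) : E) ^ 2 = 1 := by
        have := congrArg (fun u : E1 E => ((u : Eˣ) : E)) hu2
        simpa using this
      obtain ⟨z, -, huniq⟩ := sqrt_near (L := E) (y := 1) ha ha2 (by
        rw [sub_self, norm_zero]; positivity)
      have h3 := huniq ((u : Eˣ) : E) ⟨hu', hu3⟩
      have h4 := huniq 1 ⟨by rw [sub_self, norm_zero]; exact ha.le, by ring⟩
      apply Subtype.ext
      apply Units.ext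
      rw [h3]
      exact h4.symm) (by
      rw [hrel]
      exact mTwo_ne_zero F)
  rw [hmain, hrel, nie1_card_tors]

end

end Pool.Agent.Work.MP_dd0ddf_al
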