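import Pool.Agent.Work.MP_dd0ddf_al.BiOm
import Pool.Agent.Work.MP_dd0ddf_al.ExtU
import Pool.Agent.Work.MP_dd0ddf_al.NiE1

/-!
# MP_dd0ddf_al, module ExSkew: auxiliary skew-Hermitian forms and products

`exists_SkewH`: with a basis b of V and η (exists_eta): `ip v w = η ∑ v_i star w_i`.  `SkewH.prod`: orthogonal sum.
`exists_zeta`: for `x ∈ V` the functional `y ↦ B.ip y x` on Y is `BY.ip · (ζ x)` (exists_repr, unique by ip_ext); ζ is E-linear; its kernel is Y^⊥; surjective: the dimension of the range is dim V - dim Y^⊥ = dim Y (finrank_orth).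
-/

set_option linter.unusedSectionVars false
set_option linter.style.haveILetI false

namespace Pool.Agent.Work.MP_dd0ddf_al

noncomputable section

universe u

/-- orthogonal sum -/
def SkewH.prod {E V V' : Type*} [Field E] [StarRing E] [AddCommGroup V] [Module E V]
    [AddCommGroup V'] [Module E V'] (B : SkewH E V) (B' : SkewH E V') : SkewH E (V × V') where
  ip v w := B.ip v.1 w.1 + B'.ip v.2 w.2
  add_left := fun u v w => by
    show B.ip (u.1 + v.1) w.1 + B'.ip (u.2 + v.2) w.2 = _
    rw [B.add_left, B'.add_left]
    ring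
  smul_left := fun a v w => by
    show B.ip (a • v.1) w.1 + B'.ip (a • v.2) w.2 = _
    rw [B.smul_left, B'.smul_left]
    ring
  skew := fun v w => by
    rw [B.skew v.1 w.1, B'.skew v.2 w.2, star_add]
    ring
  nondeg := fun v h => by
    refine Prod.ext (B.nondeg _ fun w => ?_) (B'.nondeg _ fun w => ?_)
    · have h1 := h (w, 0)
      have h2 : B'.ip v.2 0 = 0 := by
        have h3 := B'.smul_right 0 v.2 0
        rwa [zero_smul, star_zero, zero_mul] at h3
      change B.ip v.1 w + B'.ip v.2 0 = 0 at h1
      rwa [h2, add_zero] at h1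
    · have h1 := h (0, w)
      have h2 : B.ip v.1 0 = 0 := by
        have h3 := B.smul_right 0 v.1 0
        rwa [zero_smul, star_zero, zero_mul] at h3
      change B.ip v.1 0 + B'.ip v.2 w = 0 at h1
      rwa [h2, zero_add] at h1

variable {F E : Type u} [NontriviallyNormedField F] [IsUltrametricDist F] [ProperSpace F]
  [CharZero F] [NontriviallyNormedField E] [NormedAlgebra F E] [ProperSpace E] [StarRing E]
  [QExt F E]
variable {V : Type u} [AddCommGroup V] [Module E V] [Module.Finite E V] [TopologicalSpace V]
  [IsTopologicalAddGroup V] [T2Space V] [ContinuousSMul E V]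

variable (F) in
include F in
theorem exists_SkewH (V : Type u) [AddCommGroup V] [Module E V] [Module.Finite E V] :
    Nonempty (SkewH E V) := by
  classical
  obtain ⟨η, hη0, hηs, -, -, -⟩ := exists_eta F E
  let b := Module.finBasis E V
  refine ⟨{ ip := fun v w => η * ∑ i, b.repr v i * star (b.repr w i)
            add_left := fun u v w => ?_
            smul_left := fun a v w => ?_
            skew := fun v w => ?_
            nondeg := fun v h => ?_ }⟩
  · show η * ∑ i, b.repr (u + v) i * star (b.repr w i) =
      η * ∑ i, b.repr u i * star (b.repr w i) + η * ∑ i, b.repr v i * star (b.repr w i)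
    have h1 : ∑ i, b.repr (u + v) i * star (b.repr w i) =
        ∑ i, b.repr u i * star (b.repr w i) + ∑ i, b.repr v i * star (b.repr w i) := by
      rw [← Finset.sum_add_distrib]
      refine Finset.sum_congr rfl fun i _ => ?_
      rw [map_add, Finsupp.add_apply, add_mul]
    rw [h1, mul_add]
  · show η * ∑ i, b.repr (a • v) i * star (b.repr w i) =
      a * (η * ∑ i, b.repr v i * star (b.repr w i))
    have h1 : ∑ i, b.repr (a • v) i * star (b.repr w i) =
        a * ∑ i, b.repr v i * star (b.repr w i) := by
      rw [Finset.mul_sum]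
      refine Finset.sum_congr rfl fun i _ => ?_
      rw [map_smul, Finsupp.smul_apply, smul_eq_mul, mul_assoc]
    rw [h1]
    ring
  · show η * ∑ i, b.repr w i * star (b.repr v i) =
      -star (η * ∑ i, b.repr v i * star (b.repr w i))
    have h1 : star (∑ i, b.repr v i * star (b.repr w i)) =
        ∑ i, b.repr w i * star (b.repr v i) := by
      rw [star_sum]
      refine Finset.sum_congr rfl fun i _ => ?_
      rw [star_mul', star_star, mul_comm]
    rw [star_mul', h1, hηs, neg_mul, neg_neg]
  · apply b.repr.injective
    rw [map_zero]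
    ext j
    have h1 := h (b j)
    rw [Finset.sum_eq_single j] at h1
    · rw [b.repr_self, Finsupp.single_eq_same, star_one, mul_one] at h1
      exact (mul_eq_zero.1 h1).resolve_left hη0
    · intro i _ hij
      rw [b.repr_self, Finsupp.single_eq_of_ne hij, star_zero, mul_zero]
    · intro h2
      exact absurd (Finset.mem_univ _) h2

theorem om_prod {V' : Type u} [AddCommGroup V'] [Module E V'] (B : SkewH E V)
    (B' : SkewH E V') (v w : V × V') :
    om F (B.prod B') v w = om F B v.1 w.1 + om F B' v.2 w.2 := by
  show Algebra.trace F E (B.ip v.1 w.1 + B'.ip v.2 w.2) = _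
  rw [map_add]
  rfl

theorem exists_zeta (B : SkewH E V) (Y : Submodule E V) (BY : SkewH E Y) :
    ∃ ζ : V →ₗ[E] Y, Function.Surjective ζ ∧ (∀ x, ζ x = 0 ↔ x ∈ orth B Y) ∧
      ∀ (y : Y) (x : V), BY.ip y (ζ x) = B.ip (y : V) x := by
  have hr := fun x : V => exists_repr BY ((B.lin x).comp Y.subtype)
  choose r hr using hr
  have hr' : ∀ (x : V) (y : Y), BY.ip y (r x) = B.ip (y : V) x := fun x y => (hr x y).symm
  let ζ : V →ₗ[E] Y :=
    { toFun := r
      map_add' := fun x y => by
        apply ip_ext BY
        intro u
        rw [hr', BY.add_right, hr', hr', B.add_right]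
      map_smul' := fun a x => by
        apply ip_ext BY
        intro u
        rw [hr', RingHom.id_apply, BY.smul_right, hr', B.smul_right] }
  have hker : ∀ x, ζ x = 0 ↔ x ∈ orth B Y := by
    intro x
    constructor
    · intro h u hu
      have h1 := hr' x ⟨u, hu⟩
      have h2 : r x = 0 := h
      have h3 := BY.smul_right 0 ⟨u, hu⟩ 0
      rw [zero_smul, star_zero, zero_mul] at h3
      rw [h2, h3] at h1
      rw [B.skew u x, ← h1, star_zero, neg_zero]
    · intro h
      show r x = 0
      apply BY.nondeg_right
      intro y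
      rw [hr', B.skew x y, h y y.2, star_zero, neg_zero]
  refine ⟨ζ, ?_, hker, fun y x => hr' x y⟩
  have h1 : LinearMap.ker ζ = orth B Y := by
    ext x
    rw [LinearMap.mem_ker]
    exact hker x
  have h2 := ζ.finrank_range_add_finrank_ker
  rw [h1] at h2
  have h3 := finrank_orth B Y
  rw [← LinearMap.range_eq_top]
  apply Submodule.eq_top_of_finrank_eq
  omega

end

end Pool.Agent.Work.MP_dd0ddf_al
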