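import Mathlib

/-!
# MP_dd0ddf_al, module ClassG: conjugacy classes of operators: symmetric forms, countably many classes with given characteristic polynomial

Structure theorem for the torsion E[X]-module V (Module.AEval', Module.equiv_directSum_of_isTorsion): V is a finite direct sum of cyclic modules `E[X]/(q_i)`.
`symm_form`: on `E[X]/(q)`, q monic of degree d ≥ 1, the form `(f, g) ↦ coefficient of X^(d-1) of (f g mod q)` is symmetric, nondegenerate, and multiplication by X
is self-adjoint.  Take the orthogonal direct sum.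
`conj_countable`: `(V, g)` is determined up to isomorphism by the finite list of ideals (q_i) (each contains the characteristic polynomial χ): finitely many lists.  Isomorphic E[X]-modules (V, g), (V, g') : g, g' conjugate under GL(V).
-/

set_option linter.unusedSectionVars false
set_option linter.style.haveILetI false

namespace Pool.Agent.Work.MP_dd0ddf_al

noncomputable section

universe u

open Polynomial DirectSum

variable {E : Type u} [Field E] {V : Type u} [AddCommGroup V] [Module E V] [Module.Finite E V]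

/-- the form on polynomials: top coefficient of the product modulo `q` -/
private def classgB (q : E[X]) : E[X] →ₗ[E] E[X] →ₗ[E] E :=
  (LinearMap.mul E E[X]).compr₂ ((lcoeff E (q.natDegree - 1)).comp (modByMonicHom q))

private theorem classgB_apply (q f g : E[X]) :
    classgB q f g = ((f * g) %ₘ q).coeff (q.natDegree - 1) := rfl

private theorem classgB_symm (q f g : E[X]) : classgB q f g = classgB q g f := by
  rw [classgB_apply, classgB_apply, mul_comm]

private theorem classgB_dvd {q : E[X]} (hq : q.Monic) {f : E[X]} (h : q ∣ f) (g : E[X]) :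
    classgB q f g = 0 := by
  rw [classgB_apply, (modByMonic_eq_zero_iff_dvd hq).2 (h.mul_right g), coeff_zero]

private theorem classgB_X (q f g : E[X]) : classgB q (X * f) g = classgB q f (X * g) := by
  rw [classgB_apply, classgB_apply]
  congr 2
  ring

private theorem classgB_nd {q : E[X]} (hq : q.Monic) {f : E[X]} (h : ∀ g, classgB q f g = 0) :
    q ∣ f := by
  by_contra hf
  have hr : f %ₘ q ≠ 0 := fun h0 => hf ((modByMonic_eq_zero_iff_dvd hq).1 h0)
  have hq1 : q ≠ 1 := fun h1 => hf (h1 ▸ one_dvd f)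
  have hlt : (f %ₘ q).natDegree < q.natDegree := natDegree_modByMonic_lt f hq hq1
  set r := f %ₘ q with hrdef
  set k := q.natDegree - 1 - r.natDegree with hk
  have h1 := h (X ^ k)
  rw [classgB_apply] at h1
  have h2 : (f * X ^ k) %ₘ q = r * X ^ k := by
    have h3 : (f * X ^ k) %ₘ q = (r * X ^ k) %ₘ q := by
      have h4 : f = r + q * (f /ₘ q) := (modByMonic_add_div f q).symm
      have h5 : f * X ^ k = r * X ^ k + q * ((f /ₘ q) * X ^ k) := by
        conv_lhs => rw [h4]
        ring
      rw [h5, add_modByMonic, (modByMonic_eq_zero_iff_dvd hq).2 (Dvd.intro _ rfl), add_zero]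
    rw [h3, modByMonic_eq_self_iff hq]
    apply degree_lt_degree
    rw [natDegree_mul_X_pow k hr]
    omega
  have h6 : q.natDegree - 1 = r.natDegree + k := by omega
  rw [h2, h6, coeff_mul_X_pow] at h1
  exact hr (leadingCoeff_eq_zero.1 h1)

private theorem classg_form_quot (q : E[X]) (hq : q ≠ 0) :
    ∃ b : (E[X] ⧸ E[X] ∙ q) →ₗ[E] (E[X] ⧸ E[X] ∙ q) →ₗ[E] E,
      (∀ v w, b v w = b w v) ∧ (∀ v, (∀ w, b v w = 0) → v = 0) ∧
      ∀ v w, b ((X : E[X]) • v) w = b v ((X : E[X]) • w) := by
  classical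
  obtain ⟨q1, hq1, hass⟩ : ∃ q1 : E[X], q1.Monic ∧ Associated q q1 :=
    ⟨q * C q.leadingCoeff⁻¹, monic_mul_leadingCoeff_inv hq,
      associated_mul_unit_right q _ (isUnit_C.2 (IsUnit.mk0 _
        (inv_ne_zero (leadingCoeff_ne_zero.2 hq))))⟩
  have hmem : ∀ f : E[X], f ∈ E[X] ∙ q ↔ q1 ∣ f := fun f => by
    rw [Submodule.mem_span_singleton]
    constructor
    · rintro ⟨a, rfl⟩
      exact hass.dvd_iff_dvd_left.1 (Dvd.intro_left a rfl)
    · intro h
      obtain ⟨a, ha⟩ := hass.dvd_iff_dvd_left.2 h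
      exact ⟨a, by rw [ha, smul_eq_mul, mul_comm]⟩
  have hout : ∀ v : E[X] ⧸ E[X] ∙ q, (Submodule.Quotient.mk (Quotient.out v) :
      E[X] ⧸ E[X] ∙ q) = v := fun v => Quotient.out_eq' v
  have hcong : ∀ f f' g : E[X], (Submodule.Quotient.mk f : E[X] ⧸ E[X] ∙ q) =
      Submodule.Quotient.mk f' → classgB q1 f g = classgB q1 f' g := by
    intro f f' g h
    have h1 : f - f' ∈ E[X] ∙ q := (Submodule.Quotient.eq _).1 h
    have h2 := classgB_dvd hq1 ((hmem _).1 h1) g
    rw [map_sub, LinearMap.sub_apply] at h2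
    exact sub_eq_zero.1 h2
  have hcong' : ∀ f g g' : E[X], (Submodule.Quotient.mk g : E[X] ⧸ E[X] ∙ q) =
      Submodule.Quotient.mk g' → classgB q1 f g = classgB q1 f g' := by
    intro f g g' h
    rw [classgB_symm, classgB_symm q1 f g']
    exact hcong _ _ _ h
  have hadd : ∀ v v' : E[X] ⧸ E[X] ∙ q, ∀ g, classgB q1 (Quotient.out (v + v')) g =
      classgB q1 (Quotient.out v) g + classgB q1 (Quotient.out v') g := by
    intro v v' g
    rw [← LinearMap.add_apply, ← map_add]
    apply hcong
    rw [hout, Submodule.Quotient.mk_add, hout, hout]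
  have hsmul : ∀ (a : E) (v : E[X] ⧸ E[X] ∙ q), ∀ g, classgB q1 (Quotient.out (a • v)) g =
      a • classgB q1 (Quotient.out v) g := by
    intro a v g
    rw [← LinearMap.smul_apply, ← map_smul]
    apply hcong
    rw [hout, Submodule.Quotient.mk_smul, hout]
  refine ⟨LinearMap.mk₂ E (fun v w => classgB q1 (Quotient.out v) (Quotient.out w))
    (fun v v' w => hadd v v' _) (fun a v w => hsmul a v _)
    (fun v w w' => ?_) (fun a v w => ?_), fun v w => ?_, fun v hv => ?_, fun v w => ?_⟩
  · rw [classgB_symm, hadd, classgB_symm, classgB_symm q1 (Quotient.out w')]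
  · rw [classgB_symm, hsmul, classgB_symm]
  · exact classgB_symm _ _ _
  · have h1 : q1 ∣ Quotient.out v := by
      apply classgB_nd hq1
      intro g
      have h2 := hv (Submodule.Quotient.mk g)
      rw [LinearMap.mk₂_apply] at h2
      rw [← h2]
      apply hcong'
      rw [hout]
    have h3 := (Submodule.Quotient.mk_eq_zero _).2 ((hmem _).2 h1)
    rw [hout] at h3
    exact h3
  · show classgB q1 (Quotient.out ((X : E[X]) • v)) (Quotient.out w) =
      classgB q1 (Quotient.out v) (Quotient.out ((X : E[X]) • w))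
    have h1 : classgB q1 (Quotient.out ((X : E[X]) • v)) (Quotient.out w) =
        classgB q1 (X * Quotient.out v) (Quotient.out w) := by
      apply hcong
      rw [hout, ← smul_eq_mul, Submodule.Quotient.mk_smul, hout]
    have h2 : classgB q1 (Quotient.out v) (Quotient.out ((X : E[X]) • w)) =
        classgB q1 (Quotient.out v) (X * Quotient.out w) := by
      apply hcong'
      rw [hout, ← smul_eq_mul, Submodule.Quotient.mk_smul, hout]
    rw [h1, h2, classgB_X]

private theorem classg_struct (g : Module.End E V) :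
    ∃ (m : ℕ) (I : Fin m → Ideal E[X]), (∀ i, ∃ q : E[X], q ≠ 0 ∧ I i = E[X] ∙ q) ∧
      Nonempty (Module.AEval' g ≃ₗ[E[X]] ⨁ i : Fin m, E[X] ⧸ I i) := by
  classical
  obtain ⟨ι, hι, p, hp, e, ⟨φ⟩⟩ := Module.equiv_directSum_of_isTorsion (R := E[X])
    (M := Module.AEval' g) (Module.AEval.isTorsion_of_finiteDimensional E V g)
  refine ⟨Fintype.card ι, fun i => E[X] ∙ p ((Fintype.equivFin ι).symm i) ^
    e ((Fintype.equivFin ι).symm i), fun i => ⟨_, pow_ne_zero _ (hp _).ne_zero, rfl⟩,
    ⟨φ.trans (DirectSum.lequivCongrLeft E[X] (Fintype.equivFin ι))⟩⟩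

theorem symm_form (g : Module.End E V) : ∃ b : V →ₗ[E] V →ₗ[E] E,
    (∀ v w, b v w = b w v) ∧ (∀ v, (∀ w, b v w = 0) → v = 0) ∧
    ∀ v w, b (g v) w = b v (g w) := by
  classical
  obtain ⟨m, I, hI, ⟨φ⟩⟩ := classg_struct g
  have hforms : ∀ i, ∃ b : (E[X] ⧸ I i) →ₗ[E] (E[X] ⧸ I i) →ₗ[E] E,
      (∀ v w, b v w = b w v) ∧ (∀ v, (∀ w, b v w = 0) → v = 0) ∧
      ∀ v w, b ((X : E[X]) • v) w = b v ((X : E[X]) • w) := by
    intro i
    obtain ⟨q, hq, h⟩ := hI i
    rw [h]
    exact classg_form_quot q hq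
  choose b hbs hbn hbX using hforms
  set ψ : V → ∀ i, E[X] ⧸ I i := fun v i => φ (Module.AEval.of E V g v) i with hψ
  have hψadd : ∀ v w i, ψ (v + w) i = ψ v i + ψ w i := fun v w i => by
    simp only [hψ, map_add, DirectSum.add_apply]
  have hψsm : ∀ (a : E) v i, ψ (a • v) i = a • ψ v i := fun a v i => by
    have h1 : Module.AEval.of E V g (a • v) = (C a : E[X]) • Module.AEval.of E V g v := by
      rw [Module.AEval.C_smul, map_smul]
    have h2 : (a • ψ v i) = (C a : E[X]) • ψ v i := by
      rw [← algebraMap_eq, algebraMap_smul]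
    rw [h2]
    simp only [hψ, h1, map_smul, DirectSum.smul_apply]
  have hψX : ∀ v i, ψ (g v) i = (X : E[X]) • ψ v i := fun v i => by
    have h1 : Module.AEval.of E V g (g v) = (X : E[X]) • Module.AEval.of E V g v := by
      rw [Module.AEval.X_smul_of]
      rfl
    simp only [hψ, h1, map_smul, DirectSum.smul_apply]
  refine ⟨LinearMap.mk₂ E (fun v w => ∑ i, b i (ψ v i) (ψ w i)) (fun v v' w => ?_)
    (fun a v w => ?_) (fun v w w' => ?_) (fun a v w => ?_), fun v w => ?_, fun v hv => ?_,
    fun v w => ?_⟩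
  · simp only [hψadd, map_add, LinearMap.add_apply, Finset.sum_add_distrib]
  · simp only [hψsm, map_smul, LinearMap.smul_apply, Finset.smul_sum]
  · simp only [hψadd, map_add, Finset.sum_add_distrib]
  · simp only [hψsm, map_smul, Finset.smul_sum]
  · show ∑ i, b i (ψ v i) (ψ w i) = ∑ i, b i (ψ w i) (ψ v i)
    exact Finset.sum_congr rfl fun i _ => hbs i _ _
  · have h0 : φ (Module.AEval.of E V g v) = 0 := by
      ext i
      show ψ v i = _
      rw [DirectSum.zero_apply]
      apply hbn i
      intro w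
      have h1 := hv ((Module.AEval.of E V g).symm (φ.symm (DirectSum.of _ i w)))
      rw [LinearMap.mk₂_apply] at h1
      have h2 : ∀ j, ψ ((Module.AEval.of E V g).symm (φ.symm (DirectSum.of _ i w))) j =
          DirectSum.of (fun i => E[X] ⧸ I i) i w j := by
        intro j
        show φ _ j = _
        rw [LinearEquiv.apply_symm_apply, LinearEquiv.apply_symm_apply]
      rw [Finset.sum_eq_single i] at h1
      · rw [h2, DirectSum.of_eq_same] at h1
        exact h1
      · intro j _ hj
        rw [h2, DirectSum.of_eq_of_ne _ _ _ hj, map_zero]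
      · intro h
        exact absurd (Finset.mem_univ i) h
    have h1 := φ.map_eq_zero_iff.1 h0
    exact (Module.AEval.of E V g).map_eq_zero_iff.1 h1
  · show ∑ i, b i (ψ (g v) i) (ψ w i) = ∑ i, b i (ψ v i) (ψ (g w) i)
    exact Finset.sum_congr rfl fun i _ => by rw [hψX, hψX, hbX]

/-- countably many conjugacy classes with given characteristic polynomial -/
theorem conj_countable (χ : Polynomial E) : ∃ s : Set (Module.End E V)ˣ, s.Countable ∧
    ∀ g : (Module.End E V)ˣ, LinearMap.charpoly g.1 = χ →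
      ∃ x ∈ s, LinearMap.charpoly x.1 = χ ∧ ∃ a : (Module.End E V)ˣ, a * x * a⁻¹ = g := by
  classical
  by_cases hχ : χ = 0
  · refine ⟨∅, Set.countable_empty, fun g hg => ?_⟩
    exact absurd (hg.trans hχ) (LinearMap.charpoly_monic g.1).ne_zero
  have hfin : Finite {J : Ideal E[X] // J ∣ Ideal.span {χ}} := by
    have := UniqueFactorizationMonoid.fintypeSubtypeDvd (Ideal.span {χ})
      (by rwa [Ne, Ideal.zero_eq_bot, Ideal.span_singleton_eq_bot])
    exact Finite.of_fintype _
  let D := Σ m : ℕ, (Fin m → {J : Ideal E[X] // J ∣ Ideal.span {χ}})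
  let P : D → (Module.End E V)ˣ → Prop := fun d x => LinearMap.charpoly x.1 = χ ∧
    Nonempty (Module.AEval' x.1 ≃ₗ[E[X]] ⨁ i : Fin d.1, E[X] ⧸ (d.2 i).1)
  refine ⟨Set.range fun d : {d : D // ∃ x, P d x} => d.2.choose, Set.countable_range _,
    fun g hg => ?_⟩
  obtain ⟨m, I, hI, ⟨φ⟩⟩ := classg_struct g.1
  have hmem : ∀ i, I i ∣ Ideal.span {χ} := by
    intro i
    rw [Ideal.dvd_iff_le, Ideal.span_singleton_le_iff_mem]
    have h1 : ∀ y : ⨁ i : Fin m, E[X] ⧸ I i, χ • y = 0 := by
      intro y
      obtain ⟨v, rfl⟩ := φ.surjective y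
      obtain ⟨v, rfl⟩ := (Module.AEval.of E V g.1).surjective v
      rw [← map_smul, ← Module.AEval.of_aeval_smul, ← hg, LinearMap.aeval_self_charpoly,
        zero_smul, map_zero, map_zero]
    have h2 := congrArg (fun y => y i) (h1 (DirectSum.of (fun i => E[X] ⧸ I i) i
      (Submodule.Quotient.mk 1)))
    simp only [DirectSum.smul_apply, DirectSum.of_eq_same, DirectSum.zero_apply] at h2
    rw [← Submodule.Quotient.mk_smul, smul_eq_mul, mul_one, Submodule.Quotient.mk_eq_zero] at h2
    exact h2
  have hP : ∃ x, P ⟨m, fun i => ⟨I i, hmem i⟩⟩ x := ⟨g, hg, ⟨φ⟩⟩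
  refine ⟨hP.choose, ⟨⟨_, hP⟩, rfl⟩, hP.choose_spec.1, ?_⟩
  obtain ⟨φ'⟩ := hP.choose_spec.2
  set x := hP.choose with hx
  let θ : Module.AEval' x.1 ≃ₗ[E[X]] Module.AEval' g.1 := φ'.trans φ.symm
  have hCsm : ∀ (h : Module.End E V) (a : E) (y : Module.AEval' h), (C a : E[X]) • y = a • y :=
    fun h a y => Module.AEval.C_smul h a y
  let a : V →ₗ[E] V :=
    { toFun := fun v => (Module.AEval.of E V g.1).symm (θ (Module.AEval.of E V x.1 v))
      map_add' := fun v w => by simp only [map_add]
      map_smul' := fun c v => by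
        rw [map_smul, ← hCsm, map_smul, hCsm, map_smul, RingHom.id_apply] }
  let a' : V →ₗ[E] V :=
    { toFun := fun v => (Module.AEval.of E V x.1).symm (θ.symm (Module.AEval.of E V g.1 v))
      map_add' := fun v w => by simp only [map_add]
      map_smul' := fun c v => by
        rw [map_smul, ← hCsm, map_smul, hCsm, map_smul, RingHom.id_apply] }
  have haa' : ∀ v, a (a' v) = v := fun v => by
    show (Module.AEval.of E V g.1).symm (θ (Module.AEval.of E V x.1
      ((Module.AEval.of E V x.1).symm (θ.symm (Module.AEval.of E V g.1 v))))) = v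
    rw [LinearEquiv.apply_symm_apply, LinearEquiv.apply_symm_apply, LinearEquiv.symm_apply_apply]
  have ha'a : ∀ v, a' (a v) = v := fun v => by
    show (Module.AEval.of E V x.1).symm (θ.symm (Module.AEval.of E V g.1
      ((Module.AEval.of E V g.1).symm (θ (Module.AEval.of E V x.1 v))))) = v
    rw [LinearEquiv.apply_symm_apply, LinearEquiv.symm_apply_apply, LinearEquiv.symm_apply_apply]
  refine ⟨⟨a, a', LinearMap.ext haa', LinearMap.ext ha'a⟩, ?_⟩
  rw [mul_inv_eq_iff_eq_mul]
  apply Units.ext
  apply LinearMap.ext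
  intro v
  show a (x.1 v) = g.1 (a v)
  show (Module.AEval.of E V g.1).symm (θ (Module.AEval.of E V x.1 (x.1 v))) =
    g.1 ((Module.AEval.of E V g.1).symm (θ (Module.AEval.of E V x.1 v)))
  have h1 : Module.AEval.of E V x.1 (x.1 v) = (X : E[X]) • Module.AEval.of E V x.1 v := by
    rw [Module.AEval.X_smul_of]
    rfl
  rw [h1, map_smul, Module.AEval.of_symm_X_smul]
  rfl

end

end Pool.Agent.Work.MP_dd0ddf_al
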