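import Pool.Agent.Work.MP_dd0ddf_al.SdIrr
import Pool.Agent.Work.MP_dd0ddf_al.FrTrace

/-!
# MP_dd0ddf_al, module HeckeTh: π(f) = 0 implies π(f ∘ θ) = 0

χ(f) = ftr π(f), linear (hOp_finite, ftr_add, ftr_smul), invariant under conjugation: `π(f ∘ c_a) = π(a) π(f) π(a)⁻¹` (hOp_left, hOp_right), ftr_comm.  By hypothesis χ(f ∘ θ) = χ(f).
Let π(f) = 0.  For a ∈ G: π(f(a⁻¹ ·)) = π(a) π(f) = 0, so 0 = χ(f(a⁻¹ ·)) = χ(f(a⁻¹ ·) ∘ θ); `f(a⁻¹ θ(g)) = f(θ(g θ(a⁻¹)))` (θ² = 1), so this is χ((f ∘ θ)(· b)) = ftr(A π(b⁻¹)), b = θ(a⁻¹) arbitrary, A = π(f ∘ θ).  So ftr(π(b) A) = 0 for all b, hence ftr(a A) = 0 for all a in the span of the π(b).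
If A ≠ 0: ftr_nondeg gives u, η with ftr((η ⊗ u) A) ≠ 0; densityC gives a in the span with a = η ⊗ u on (a basis of) the finite dimensional range of A: `a A = (η ⊗ u) A`, contradiction.
-/

set_option linter.unusedSectionVars false
set_option linter.style.haveILetI false

namespace Pool.Agent.Work.MP_dd0ddf_al

noncomputable section

universe u

variable {E : Type u} [NontriviallyNormedField E] [IsUltrametricDist E] [ProperSpace E]
variable {V : Type u} [AddCommGroup V] [Module E V] [Module.Finite E V] [TopologicalSpace V]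
  [IsTopologicalAddGroup V] [T2Space V] [ContinuousSMul E V]
variable {P : Type*} [AddCommGroup P] [Module ℂ P]

/-- conjugation as a homeomorphism: `g ↦ a⁻¹ g a` -/
def cjHomeo {G : Type*} [Group G] [TopologicalSpace G] [IsTopologicalGroup G] (a : G) : G ≃ₜ G :=
  (Homeomorph.mulLeft a⁻¹).trans (Homeomorph.mulRight a)

private theorem heckeTh_finL (a A : Module.End ℂ P) (hA : Module.Finite ℂ (LinearMap.range A)) :
    Module.Finite ℂ (LinearMap.range (a * A)) := by
  have h : LinearMap.range (a * A) = (LinearMap.range A).map a := LinearMap.range_comp A a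
  rw [h]
  infer_instance

private theorem heckeTh_finR (A a : Module.End ℂ P) (hA : Module.Finite ℂ (LinearMap.range A)) :
    Module.Finite ℂ (LinearMap.range (A * a)) :=
  Submodule.finiteDimensional_of_le (S₂ := LinearMap.range A) (LinearMap.range_comp_le_range a A)

theorem hOp_theta (π : GV E V →* Module.End ℂ P) (hπ : IrrAdm π) (θ : GV E V ≃ₜ GV E V)
    (hθ : ∀ a b, θ (a * b) = θ b * θ a) (hθ2 : ∀ a, θ (θ a) = a)
    (hinv : ∀ T : SF (GV E V) ℂ →ₗ[ℂ] ℂ, (∀ a f, T (SF.comp (cjHomeo a) f) = T f) →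
      ∀ f, T (SF.comp θ f) = T f)
    (f : SF (GV E V) ℂ) (h0 : hOp π hπ.smooth f = 0) : hOp π hπ.smooth (SF.comp θ f) = 0 := by
  classical
  have hfin := hOp_finite π hπ
  let χ : SF (GV E V) ℂ →ₗ[ℂ] ℂ :=
    { toFun := fun f => ftr (hOp π hπ.smooth f)
      map_add' := fun f g => by rw [map_add, ftr_add _ _ (hfin f) (hfin g)]
      map_smul' := fun c f => by rw [map_smul, ftr_smul c _ (hfin f)]; rfl }
  have hχ : ∀ f, χ f = ftr (hOp π hπ.smooth f) := fun f => rfl
  have h1 : ∀ a f, χ (SF.comp (cjHomeo a) f) = χ f := by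
    intro a f
    have h2 : SF.comp (cjHomeo a) f =
        SF.comp (Homeomorph.mulLeft a⁻¹) (SF.comp (Homeomorph.mulRight a) f) := rfl
    rw [hχ, hχ, h2, hOp_left, hOp_right, inv_inv,
      ← ftr_comm (hOp π hπ.smooth f * π a⁻¹) (π a) (heckeTh_finR _ _ (hfin f)), mul_assoc,
      ← map_mul, inv_mul_cancel, map_one, mul_one]
  have h2 := hinv χ h1
  set A := hOp π hπ.smooth (SF.comp θ f) with hAdef
  have hA : Module.Finite ℂ (LinearMap.range A) := hfin _
  have h3 : ∀ b, ftr (π b * A) = 0 := by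
    intro b
    let a : GV E V := (θ b⁻¹)⁻¹
    have h4 : SF.comp θ (SF.comp (Homeomorph.mulLeft a⁻¹) f) =
        SF.comp (Homeomorph.mulRight b⁻¹) (SF.comp θ f) := by
      apply SF.ext
      intro g
      show f (a⁻¹ * θ g) = f (θ (g * b⁻¹))
      rw [hθ]
      congr 2
    have h5 := h2 (SF.comp (Homeomorph.mulLeft a⁻¹) f)
    rw [h4, hχ, hχ, hOp_right, hOp_left, h0, mul_zero, inv_inv] at h5
    rw [← ftr_comm A (π b) hA, hAdef, h5]
    have h6 := ftr_smul (0 : ℂ) (0 : Module.End ℂ P) (by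
      rw [← h0]
      exact hfin f)
    rw [zero_smul, zero_mul] at h6
    exact h6
  have h4 : ∀ a ∈ Submodule.span ℂ ((MonoidHom.mrange π : Submonoid (Module.End ℂ P)) :
      Set (Module.End ℂ P)), ftr (a * A) = 0 := by
    intro a ha
    induction ha using Submodule.span_induction with
    | mem x hx =>
      obtain ⟨g, rfl⟩ := hx
      exact h3 g
    | zero =>
      rw [zero_mul]
      have h6 := ftr_smul (0 : ℂ) A hA
      rw [zero_smul, zero_mul] at h6
      exact h6
    | add x y _ _ hx hy =>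
      rw [add_mul, ftr_add _ _ (heckeTh_finL _ _ hA) (heckeTh_finL _ _ hA), hx, hy, add_zero]
    | smul c x _ hx =>
      rw [smul_mul_assoc, ftr_smul c _ (heckeTh_finL _ _ hA), hx, mul_zero]
  by_contra hne
  obtain ⟨u, η, h5⟩ := ftr_nondeg A hne
  let s := Module.finBasis ℂ (LinearMap.range A)
  have hli : LinearIndependent ℂ (fun i => (s i : P)) :=
    s.linearIndependent.map' (LinearMap.range A).subtype (Submodule.ker_subtype _)
  obtain ⟨a, ha, has⟩ := densityC (MonoidHom.mrange π)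
    (fun N hN => hπ.irr N fun g w hw => hN _ ⟨g, rfl⟩ w hw) hπ.nontriv (irr_countable π hπ)
    (fun i => (s i : P)) (fun i => η (s i) • u) hli
  have h6 : a ∘ₗ (LinearMap.range A).subtype =
      (η.smulRight u) ∘ₗ (LinearMap.range A).subtype := by
    apply s.ext
    intro i
    exact has i
  have h7 : a * A = (η.smulRight u) * A := by
    apply LinearMap.ext
    intro w
    exact congrArg (fun T => T ⟨A w, w, rfl⟩) h6
  apply h5
  rw [← h7]
  exact h4 a ha

end

end Pool.Agent.Work.MP_dd0ddf_al
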