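import Pool.Agent.Work.MP_dd0ddf_al.FdCount

/-!
# MP_dd0ddf_al, module OrbSym: an invariant functional on a space with countably many orbits that is antisymmetric under an orbit preserving symmetry vanishes

Same proof as `orbit_principle` (module FdCount, copy its private lemmas).  Suppose T ≠ 0.  Z = {x : every open W ∋ x supports some f with T f ≠ 0}: closed, Γ-stable and s-stable (T (f ∘ s) = -T f); T is supported on Z; the countably many orbits give an open orbit O in Z (exists_open_orbit); O is s-stable by horb.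
On O: T_O invariant under Γ with T_O (f ∘ s) = - T_O f.  Homogeneous case: base point x, γ0 with γ0 · s x = x; `s' = γ0 ∘ s`, automorphism σ' γ = σ (γ0⁻¹ γ γ0): `s' (σ' γ · y) = γ · s' y`, s' x = x, T_O (f ∘ s') = - T_O f.  `descent` with π = id, symmetry s' (D.DSym with sB = id), ε = -1: S (f ∘ s') = - c S f, c > 0, but the fibre
is a point, so f ∘ s' = f on the fibre and (1 + c) S f = 0: S = 0, T_O = 0.  Contradiction as in orbit_principle.
-/

set_option linter.unusedSectionVars false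
set_option linter.style.haveILetI false

namespace Pool.Agent.Work.MP_dd0ddf_al

noncomputable section

private theorem orbsym_ext0 {X B : Type*} [TopologicalSpace X] [T2Space X] [AddCommGroup B]
    [Module ℂ B] (W : Set X) (hW : IsOpen W) (f : SF X B) (hf : ∀ x, x ∉ W → f x = 0) :
    ∃ g : SF W B, SF.ext0 W hW g = f := by
  have hs : IsClosed (Function.support f.1) := by
    have h : (Function.support f.1)ᶜ = f.1 ⁻¹' {0} := by
      ext x
      simp [Function.mem_support]
    exact ⟨by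
      rw [h]
      exact f.2.1 _⟩
  have hc : IsCompact (Function.support f.1) := by
    have h1 : tsupport f.1 = Function.support f.1 := hs.closure_eq
    rw [← h1]
    exact f.2.2
  have hsW : Function.support f.1 ⊆ W := by
    intro x hx
    by_contra hn
    exact hx (hf x hn)
  refine ⟨⟨fun x => f x.1, f.2.1.comp_continuous continuous_subtype_val, ?_⟩, ?_⟩
  · refine HasCompactSupport.of_support_subset_isCompact
      (K := (Subtype.val : W → X) ⁻¹' (Function.support f.1)) ?_ (fun x hx => hx)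
    refine Topology.IsEmbedding.subtypeVal.isCompact_preimage_iff ?_ |>.2 hc
    rw [Subtype.range_val]
    exact hsW
  · apply SF.ext
    intro x
    by_cases hx : x ∈ W
    · rw [SF.ext0_apply_mem _ _ _ _ hx]
    · rw [SF.ext0_apply_not_mem _ _ _ _ hx, hf x hx]

/-- homogeneous case -/
private theorem orbsym_hom {Γ X : Type*} [Group Γ] [TopologicalSpace Γ]
    [IsTopologicalGroup Γ] [LocallyCompactSpace Γ] [T2Space Γ] [TotallyDisconnectedSpace Γ]
    [SigmaCompactSpace Γ] [TopologicalSpace X] [T2Space X] [LocallyCompactSpace X]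
    [TotallyDisconnectedSpace X] (A : CAct Γ X)
    (x : X) (htr : ∀ y, ∃ γ, A.act γ x = y)
    (s : X ≃ₜ X) (σ : Γ ≃* Γ) (hσ : Continuous σ) (hσ' : Continuous σ.symm)
    (hcomp : ∀ γ x, s (A.act (σ γ) x) = A.act γ (s x))
    (T : SF X ℂ →ₗ[ℂ] ℂ) (hT : ∀ γ f, T (SF.comp (A.homeo γ) f) = T f)
    (hs : ∀ f, T (SF.comp s f) = - T f) : T = 0 := by
  let D : DescData Γ X X ℂ :=
    { A := A
      C := A
      R := SRep.triv Γ ℂ
      π := id
      hπ := continuous_id
      eqv := fun _ _ => rfl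
      o := x
      tr := htr
      opn := orbit_map_open A x htr }
  obtain ⟨γ0, hγ0⟩ : ∃ γ0, A.act γ0 (s x) = x := by
    obtain ⟨γ, hγ⟩ := htr (s x)
    refine ⟨γ⁻¹, ?_⟩
    rw [← hγ, A.inv_act]
  obtain ⟨S, hS, -, hsym⟩ := descent D T (fun γ f => hT γ⁻¹ f)
  refine hS ?_
  let sX : X ≃ₜ X := s.trans (A.homeo γ0)
  have hsX : ∀ y, sX y = A.act γ0 (s y) := fun _ => rfl
  have hsXx : sX x = x := hγ0
  let sΓ : Γ ≃* Γ := (MulAut.conj γ0⁻¹ : Γ ≃* Γ).trans σ
  have hsΓ : ∀ γ, sΓ γ = σ (γ0⁻¹ * γ * γ0) := by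
    intro γ
    show σ (γ0⁻¹ * γ * γ0⁻¹⁻¹) = _
    rw [inv_inv]
  have hcX : ∀ γ y, sX (A.act (sΓ γ) y) = A.act γ (sX y) := by
    intro γ y
    rw [hsX, hsΓ, hcomp, hsX, ← A.mul, ← A.mul]
    congr 1
    group
  let ds : D.DSym :=
    { sX := sX
      sB := LinearMap.id
      sΓ := sΓ
      cont := by
        have : (sΓ : Γ → Γ) = fun γ => σ (γ0⁻¹ * γ * γ0) := funext hsΓ
        rw [this]
        exact hσ.comp ((continuous_const.mul continuous_id).mul continuous_const)
      cont' := by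
        have : (sΓ.symm : Γ → Γ) = fun γ => γ0 * σ.symm γ * γ0⁻¹ := by
          funext γ
          rw [MulEquiv.symm_apply_eq, hsΓ]
          have e : γ0⁻¹ * (γ0 * σ.symm γ * γ0⁻¹) * γ0 = σ.symm γ := by group
          rw [e, MulEquiv.apply_symm_apply]
        rw [this]
        exact (continuous_const.mul hσ').mul continuous_const
      compX := hcX
      compB := fun _ _ => rfl
      fib := by
        intro y
        show sX y = x ↔ y = x
        constructor
        · intro h
          apply sX.injective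
          rw [h, hsXx]
        · rintro rfl
          exact hsXx
      stb := by
        intro γ
        show A.act γ x = x ↔ A.act (sΓ γ) x = x
        constructor
        · intro h
          apply sX.injective
          rw [hcX, hsXx]
          exact h
        · intro h
          have h1 := hcX γ x
          rw [h, hsXx] at h1
          exact h1.symm }
  obtain ⟨c, hc, h⟩ := hsym ds (-1) (fun f => by
    have e1 : SF.opr ds.sX ds.sB f = SF.comp s (SF.comp (A.homeo γ0) f) := by
      apply SF.ext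
      intro y
      rfl
    rw [e1, hs, hT, neg_one_mul])
  haveI : Subsingleton D.Fib := ⟨fun a b => Subtype.ext (a.2.trans b.2.symm)⟩
  refine LinearMap.ext fun f => ?_
  have e2 : SF.opr ds.fibHomeo ds.sB f = f := by
    apply SF.ext
    intro y
    show f (ds.fibHomeo y) = f y
    rw [Subsingleton.elim (ds.fibHomeo y) y]
  have h1 := h f
  rw [e2] at h1
  have h2 : (1 + (c : ℂ)) * S f = 0 := by linear_combination h1
  rcases mul_eq_zero.1 h2 with h3 | h3
  · exfalso
    have h4 : ((1 + c : ℝ) : ℂ) = 0 := by push_cast; exact h3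
    have h5 : (1 + c : ℝ) = 0 := Complex.ofReal_eq_zero.1 h4
    linarith
  · rw [h3, LinearMap.zero_apply]

theorem orbit_principle_sym {Γ X : Type*} [Group Γ] [TopologicalSpace Γ]
    [IsTopologicalGroup Γ] [LocallyCompactSpace Γ] [T2Space Γ] [TotallyDisconnectedSpace Γ]
    [SigmaCompactSpace Γ] [TopologicalSpace X] [T2Space X] [LocallyCompactSpace X]
    [TotallyDisconnectedSpace X] (A : CAct Γ X)
    (s0 : Set X) (hs0 : s0.Countable) (hcov : ∀ x, ∃ y ∈ s0, ∃ γ, A.act γ y = x)
    (s : X ≃ₜ X) (σ : Γ ≃* Γ) (hσ : Continuous σ) (hσ' : Continuous σ.symm)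
    (hcomp : ∀ γ x, s (A.act (σ γ) x) = A.act γ (s x)) (horb : ∀ x, ∃ γ, A.act γ x = s x)
    (T : SF X ℂ →ₗ[ℂ] ℂ) (hT : ∀ γ f, T (SF.comp (A.homeo γ) f) = T f)
    (hs : ∀ f, T (SF.comp s f) = - T f) : T = 0 := by
  classical
  by_contra hT0
  let Z : Set X := {x | ∀ W : Set X, IsOpen W → x ∈ W →
    ∃ f : SF X ℂ, (∀ y, y ∉ W → f y = 0) ∧ T f ≠ 0}
  have hZc : IsClosed Z := by
    rw [← isOpen_compl_iff, isOpen_iff_forall_mem_open]
    intro x hx
    have hx' : ¬ ∀ W : Set X, IsOpen W → x ∈ W →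
      ∃ f : SF X ℂ, (∀ y, y ∉ W → f y = 0) ∧ T f ≠ 0 := hx
    push Not at hx'
    obtain ⟨W, hW, hxW, h1⟩ := hx'
    refine ⟨W, fun y hy hyZ => ?_, hW, hxW⟩
    obtain ⟨f, hf, hf'⟩ := hyZ W hW hy
    exact hf' (h1 f hf)
  have hsupp : SF.SuppOn T Z := by
    intro f hf
    refine vanish_local T f fun x hx => ?_
    have hx' : ¬ ∀ W : Set X, IsOpen W → x ∈ W →
      ∃ f : SF X ℂ, (∀ y, y ∉ W → f y = 0) ∧ T f ≠ 0 := fun h1 => hx (hf x h1)
    push Not at hx'
    exact hx'
  have hZne : Z.Nonempty := by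
    by_contra hne
    rw [Set.not_nonempty_iff_eq_empty] at hne
    refine hT0 (LinearMap.ext fun f => ?_)
    exact hsupp f fun z hz => absurd hz (by rw [hne]; exact Set.notMem_empty z)
  have hZs : ∀ γ x, x ∈ Z → A.act γ x ∈ Z := by
    intro γ x hx W hW hxW
    obtain ⟨f, hf, hf'⟩ := hx (A.act γ ⁻¹' W) (hW.preimage (A.homeo γ).continuous) hxW
    refine ⟨SF.comp (A.homeo γ⁻¹) f, fun y hy => ?_, by rw [hT]; exact hf'⟩
    show f (A.act γ⁻¹ y) = 0
    exact hf _ (fun h1 => hy (by
      have h2 : A.act γ (A.act γ⁻¹ y) ∈ W := h1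
      rwa [A.act_inv] at h2))
  haveI : LocallyCompactSpace Z := hZc.isClosedEmbedding_subtypeVal.locallyCompactSpace
  haveI : Nonempty Z := hZne.to_subtype
  let AZ := A.sub Z hZs
  -- the symmetry on an invariant subset
  have horb' : ∀ x, ∃ γ, A.act γ x = s.symm x := by
    intro x
    obtain ⟨γ, hγ⟩ := horb (s.symm x)
    rw [s.apply_symm_apply] at hγ
    refine ⟨γ⁻¹, ?_⟩
    rw [← hγ, A.inv_act, hγ]
  have hZsy : ∀ z : Z, s z.1 ∈ Z := by
    intro z
    obtain ⟨γ, hγ⟩ := horb z.1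
    rw [← hγ]
    exact hZs γ _ z.2
  have hZsy' : ∀ z : Z, s.symm z.1 ∈ Z := by
    intro z
    obtain ⟨γ, hγ⟩ := horb' z.1
    rw [← hγ]
    exact hZs γ _ z.2
  let sZ : Z ≃ₜ Z :=
    { toFun := fun z => ⟨s z.1, hZsy z⟩
      invFun := fun z => ⟨s.symm z.1, hZsy' z⟩
      left_inv := fun z => Subtype.ext (s.symm_apply_apply z.1)
      right_inv := fun z => Subtype.ext (s.apply_symm_apply z.1)
      continuous_toFun := (s.continuous.comp continuous_subtype_val).subtype_mk hZsy
      continuous_invFun := (s.symm.continuous.comp continuous_subtype_val).subtype_mk hZsy' }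
  obtain ⟨x0, hO⟩ := exists_open_orbit AZ {z : Z | z.1 ∈ s0}
    (hs0.preimage Subtype.val_injective) (fun x => by
      obtain ⟨y, hy, γ, hγ⟩ := hcov x.1
      have hyZ : y ∈ Z := by
        have h1 := hZs γ⁻¹ x.1 x.2
        rw [← hγ, A.inv_act] at h1
        exact h1
      exact ⟨⟨y, hyZ⟩, hy, γ, Subtype.ext hγ⟩)
  let O : Set Z := {y | ∃ γ, AZ.act γ x0 = y}
  have hOs : ∀ γ y, y ∈ O → AZ.act γ y ∈ O := by
    rintro γ y ⟨γ', rfl⟩
    exact ⟨γ * γ', AZ.mul _ _ _⟩
  have hOsym : ∀ z, z ∈ O → sZ z ∈ O := by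
    intro z hz
    obtain ⟨γ, hγ⟩ := horb z.1
    have e : sZ z = AZ.act γ z := Subtype.ext hγ.symm
    rw [e]
    exact hOs γ z hz
  have hOsym' : ∀ z, z ∈ O → sZ.symm z ∈ O := by
    intro z hz
    obtain ⟨γ, hγ⟩ := horb' z.1
    have e : sZ.symm z = AZ.act γ z := Subtype.ext hγ.symm
    rw [e]
    exact hOs γ z hz
  let sO : O ≃ₜ O :=
    { toFun := fun z => ⟨sZ z.1, hOsym _ z.2⟩
      invFun := fun z => ⟨sZ.symm z.1, hOsym' _ z.2⟩
      left_inv := fun z => Subtype.ext (sZ.symm_apply_apply z.1)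
      right_inv := fun z => Subtype.ext (sZ.apply_symm_apply z.1)
      continuous_toFun := (sZ.continuous.comp continuous_subtype_val).subtype_mk
        (fun z => hOsym z.1 z.2)
      continuous_invFun := (sZ.symm.continuous.comp continuous_subtype_val).subtype_mk
        (fun z => hOsym' z.1 z.2) }
  let AO := AZ.sub O hOs
  haveI : LocallyCompactSpace O := hO.locallyCompactSpace
  obtain ⟨TZ, hTZ⟩ := supp_on_factor Z hZc T hsupp
  have hx0 : x0 ∈ O := ⟨1, AZ.one _⟩
  have hTO : TZ ∘ₗ SF.ext0 O hO = 0 := by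
    refine orbsym_hom AO ⟨x0, hx0⟩ ?_ sO σ hσ hσ' ?_ _ ?_ ?_
    · rintro ⟨y, γ, hγ⟩
      exact ⟨γ, Subtype.ext hγ⟩
    · intro γ z
      exact Subtype.ext (Subtype.ext (hcomp γ z.1.1))
    · intro γ f
      obtain ⟨f', hf'⟩ := restr_surjective Z hZc (SF.ext0 O hO f)
      have e1 : SF.ext0 O hO (SF.comp (AO.homeo γ) f) =
          SF.restr Z hZc (SF.comp (A.homeo γ) f') := by
        apply SF.ext
        intro z
        have e2 : SF.restr Z hZc (SF.comp (A.homeo γ) f') z =
            SF.restr Z hZc f' (AZ.act γ z) := rfl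
        rw [e2, hf']
        by_cases hz : z ∈ O
        · rw [SF.ext0_apply_mem _ _ _ _ hz, SF.ext0_apply_mem _ _ _ _ (hOs γ z hz)]
          rfl
        · have hz' : AZ.act γ z ∉ O := fun h1 => hz (by
            have h2 := hOs γ⁻¹ _ h1
            rwa [AZ.inv_act] at h2)
          rw [SF.ext0_apply_not_mem _ _ _ _ hz, SF.ext0_apply_not_mem _ _ _ _ hz']
      show TZ (SF.ext0 O hO (SF.comp (AO.homeo γ) f)) = TZ (SF.ext0 O hO f)
      rw [e1, ← hTZ, hT, hTZ, hf']
    · intro f
      obtain ⟨f', hf'⟩ := restr_surjective Z hZc (SF.ext0 O hO f)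
      have e1 : SF.ext0 O hO (SF.comp sO f) =
          SF.restr Z hZc (SF.comp s f') := by
        apply SF.ext
        intro z
        have e2 : SF.restr Z hZc (SF.comp s f') z =
            SF.restr Z hZc f' (sZ z) := rfl
        rw [e2, hf']
        by_cases hz : z ∈ O
        · rw [SF.ext0_apply_mem _ _ _ _ hz, SF.ext0_apply_mem _ _ _ _ (hOsym z hz)]
          rfl
        · have hz' : sZ z ∉ O := fun h1 => hz (by
            have h2 := hOsym' _ h1
            rwa [sZ.symm_apply_apply] at h2)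
          rw [SF.ext0_apply_not_mem _ _ _ _ hz, SF.ext0_apply_not_mem _ _ _ _ hz']
      show TZ (SF.ext0 O hO (SF.comp sO f)) = - TZ (SF.ext0 O hO f)
      rw [e1, ← hTZ, hs, hTZ, hf']
  obtain ⟨W, hW, hWO⟩ := isOpen_induced_iff.1 hO
  have hx0W : x0.1 ∈ W := by
    have h1 : x0 ∈ Subtype.val ⁻¹' W := by
      rw [hWO]
      exact hx0
    exact h1
  obtain ⟨f, hf, hf'⟩ := x0.2 W hW hx0W
  apply hf'
  obtain ⟨g, hg⟩ := orbsym_ext0 O hO (SF.restr Z hZc f) (fun z hz => hf z.1 (fun h1 => hz (by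
    have h2 : z ∈ Subtype.val ⁻¹' W := h1
    rw [hWO] at h2
    exact h2)))
  rw [hTZ, ← hg]
  exact congrArg (fun l : SF O ℂ →ₗ[ℂ] ℂ => l g) hTO

end

end Pool.Agent.Work.MP_dd0ddf_al
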