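import Pool.Agent.Work.MP_dd0ddf_al.ClassG
import Pool.Agent.Work.MP_dd0ddf_al.OrbSym
import Pool.Agent.Work.MP_dd0ddf_al.HeckeTh
import Pool.Agent.Work.MP_dd0ddf_al.GrpLoc

/-!
# MP_dd0ddf_al, module ConjInv: conjugation invariant functionals on GL(V) are invariant under θ (Gelfand-Kazhdan)

`thG_conj`: `c(v, w) = ⟨v, τ w⟩` is E-bilinear, symmetric (⟨w, τ v⟩ = ⟨τ τ w, τ v⟩ = ⟨v, τ w⟩), nondegenerate and `c(g v, w) = c(v, θ(g) w)` (g^* τ w = τ (τ g^* τ w)).  symm_form: b with g self-adjoint; `b(v, w) = c(v, A w)` with A invertible; `b(g v, w) = c(g v, A w) = c(v, θ(g) A w)` and `b(v, g w) = c(v, A g w)`, so θ(g) A = A g.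
`conj_inv`: T' f = T (f ∘ θ) - T f is conjugation invariant (f ∘ cj_a ∘ θ = (f ∘ θ) ∘ cj_b with b = θ(a)⁻¹) and antisymmetric under θ (θ² = 1).  Localise (FdLoc, as in GrpLoc) along g ↦ coefficients of charpoly g : GV E V → (ℕ → E), index Option (GV E V); charpoly θ(g) = charpoly g (thG_conj).
Fibres: {x // coefficients = y} is closed in GV E V, locally compact; if empty nothing to prove, otherwise y = coefficients of some χ; orbit_principle_sym with the conjugation action `a · g = a g a⁻¹` of GV E V on the fibre, conj_countable, s = θ, σ(a) = θ(a)⁻¹ (automorphism), thG_conj.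
-/

set_option linter.unusedSectionVars false
set_option linter.style.haveILetI false

namespace Pool.Agent.Work.MP_dd0ddf_al

noncomputable section

universe u

variable {F E : Type u} [NontriviallyNormedField F] [IsUltrametricDist F] [ProperSpace F]
  [CharZero F] [NontriviallyNormedField E] [NormedAlgebra F E] [ProperSpace E] [StarRing E]
  [QExt F E]
variable {V : Type u} [AddCommGroup V] [Module E V] [Module.Finite E V] [TopologicalSpace V]
  [IsTopologicalAddGroup V] [T2Space V] [ContinuousSMul E V]

private theorem cinv_c (B : SkewH E V) (τ : AntiU B) : ∃ c : V →ₗ[E] V →ₗ[E] E,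
    ∀ v w, c v w = B.ip v (τ.t w) := by
  refine ⟨LinearMap.mk₂ E (fun v w => B.ip v (τ.t w)) (fun u v w => B.add_left _ _ _)
    (fun a v w => B.smul_left _ _ _) (fun u v w => ?_) (fun a v w => ?_), fun v w => rfl⟩
  · rw [τ.add, B.add_right]
  · rw [τ.smul, B.smul_right, star_star]
    rfl

theorem thG_conj {B : SkewH E V} (τ : AntiU B) (g : GV E V) :
    ∃ a : GV E V, a * g * a⁻¹ = thG τ g := by
  obtain ⟨c, hc⟩ := cinv_c B τ
  obtain ⟨b, hbs, hbn, hbg⟩ := symm_form g.1
  have hcn : ∀ w, (∀ v, c v w = 0) → w = 0 := by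
    intro w hw
    have h1 : τ.t w = 0 := by
      apply B.nondeg
      intro v
      rw [B.skew v (τ.t w), ← hc, hw, star_zero, neg_zero]
    have h2 := τ.inv w
    rw [h1] at h2
    rw [← h2]
    have h3 := τ.smul 0 0
    rw [zero_smul, star_zero, zero_smul] at h3
    exact h3
  have hcg : ∀ v w, c (g.1 v) w = c v ((thG τ g).1 w) := by
    intro v w
    rw [hc, hc, adj_spec]
    show B.ip v (adj B g.1 (τ.t w)) = B.ip v (τ.t (τ.t (adj B g.1 (τ.t w))))
    rw [τ.inv]
  have hfr : Module.finrank E V = Module.finrank E (Module.Dual E V) :=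
    Subspace.dual_finrank_eq.symm
  have hci : Function.Injective c.flip := by
    rw [← LinearMap.ker_eq_bot, LinearMap.ker_eq_bot']
    intro w hw
    exact hcn w fun v => by
      have := congrArg (fun l : V →ₗ[E] E => l v) hw
      exact this
  have hbi : Function.Injective b.flip := by
    rw [← LinearMap.ker_eq_bot, LinearMap.ker_eq_bot']
    intro w hw
    exact hbn w fun v => by
      rw [hbs]
      have := congrArg (fun l : V →ₗ[E] E => l v) hw
      exact this
  let ec : V ≃ₗ[E] Module.Dual E V := LinearMap.linearEquivOfInjective c.flip hci hfr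
  let eb : V ≃ₗ[E] Module.Dual E V := LinearMap.linearEquivOfInjective b.flip hbi hfr
  let A : V ≃ₗ[E] V := eb.trans ec.symm
  have hA : ∀ v w, c v (A w) = b v w := by
    intro v w
    have h1 : ec (A w) = eb w := ec.apply_symm_apply _
    have h2 := congrArg (fun l : Module.Dual E V => l v) h1
    exact h2
  have key : ∀ w, (thG τ g).1 (A w) = A (g.1 w) := by
    intro w
    have h1 : (thG τ g).1 (A w) - A (g.1 w) = 0 := by
      apply hcn
      intro v
      rw [map_sub, ← hcg, hA, hA, hbg, sub_self]
    exact sub_eq_zero.1 h1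
  let a : GV E V := ⟨A.toLinearMap, A.symm.toLinearMap,
    LinearMap.ext fun v => A.apply_symm_apply v, LinearMap.ext fun v => A.symm_apply_apply v⟩
  refine ⟨a, ?_⟩
  rw [mul_inv_eq_iff_eq_mul]
  apply Units.ext
  apply LinearMap.ext
  intro w
  exact (key w).symm

private theorem cinv_anti {B : SkewH E V} (τ : AntiU B) (a b : GV E V) :
    thG τ (a * b) = thG τ b * thG τ a := by
  apply Units.ext
  show conjτ τ (adj B (a.1 * b.1)) = conjτ τ (adj B b.1) * conjτ τ (adj B a.1)
  rw [adj_mul, conjτ_mul]

private theorem cinv_one {B : SkewH E V} (τ : AntiU B) : thG τ 1 = 1 := by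
  apply Units.ext
  show conjτ τ (adj B 1) = 1
  rw [adj_one, conjτ_one]

private theorem cinv_inv {B : SkewH E V} (τ : AntiU B) (a : GV E V) :
    thG τ a⁻¹ = (thG τ a)⁻¹ := by
  rw [eq_inv_iff_mul_eq_one, ← cinv_anti, mul_inv_cancel, cinv_one]

private theorem cinv_charpoly (h g : GV E V) :
    LinearMap.charpoly (h * g * h⁻¹).1 = LinearMap.charpoly g.1 := by
  classical
  have hcomm : ∀ x y : Module.End E V, LinearMap.charpoly (x * y) = LinearMap.charpoly (y * x) := by
    intro x y
    let b := Module.finBasis E V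
    rw [← LinearMap.charpoly_toMatrix (x * y) b, ← LinearMap.charpoly_toMatrix (y * x) b,
      LinearMap.toMatrix_mul, LinearMap.toMatrix_mul, Matrix.charpoly_mul_comm]
  rw [Units.val_mul, hcomm, ← Units.val_mul, ← mul_assoc, inv_mul_cancel, one_mul]

theorem conj_inv {B : SkewH E V} (τ : AntiU B) (T : SF (GV E V) ℂ →ₗ[ℂ] ℂ)
    (hT : ∀ (a : GV E V) (f : SF (GV E V) ℂ), T (SF.comp (cjHomeo a) f) = T f)
    (f : SF (GV E V) ℂ) : T (SF.comp (thHomeo F τ) f) = T f := by
  classical
  haveI := td_GV F E V
  haveI : TotallySeparatedSpace (ℕ → E) := ts_seqE F ℕ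
  haveI : LocallyCompactSpace (GV E V) := lc_GV
  haveI : SecondCountableTopology (GV E V) := sc_GV
  let π : GV E V → (ℕ → E) := fun g i => (LinearMap.charpoly g.1).coeff i
  have hπ : Continuous π := continuous_pi fun i =>
    (continuous_charcoef i).comp Units.continuous_val
  have hπ' : ∀ g h : GV E V, π g = π h ↔ LinearMap.charpoly g.1 = LinearMap.charpoly h.1 := by
    intro g h
    constructor
    · intro h1
      exact Polynomial.ext fun i => congrFun h1 i
    · intro h1
      funext i
      show (LinearMap.charpoly g.1).coeff i = (LinearMap.charpoly h.1).coeff i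
      rw [h1]
  let a : Option (GV E V) → GV E V ≃ₜ GV E V := fun i =>
    i.elim (thHomeo F τ) fun γ => cjHomeo γ
  have hconj : ∀ γ g : GV E V, π (γ * g * γ⁻¹) = π g := fun γ g =>
    (hπ' _ _).2 (cinv_charpoly γ g)
  have ha : ∀ i x, π (a i x) = π x := by
    intro i x
    cases i with
    | none =>
      show π (thG τ x) = π x
      obtain ⟨b, hb⟩ := thG_conj τ x
      rw [← hb, hconj]
    | some γ =>
      show π (γ⁻¹ * x * γ) = π x
      have := hconj γ⁻¹ x
      rwa [inv_inv] at this
  let T' : SF (GV E V) ℂ →ₗ[ℂ] ℂ := T ∘ₗ SF.comp (thHomeo F τ) - T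
  have hT' : T' = 0 := by
    refine localise π hπ a ha (fun _ => LinearMap.id)
      (fun i => i.elim (-1) fun _ => 1) ?_ T' ?_
    · intro y S hS
      by_cases hne : ∃ g0, π g0 = y
      · obtain ⟨g0, hg0⟩ := hne
        have hcl : IsClosed {x | π x = y} := isClosed_eq hπ continuous_const
        haveI : LocallyCompactSpace {x // π x = y} :=
          hcl.isClosedEmbedding_subtypeVal.locallyCompactSpace
        obtain ⟨s, hs, hs'⟩ := conj_countable (V := V) (LinearMap.charpoly g0.1)
        let A : CAct (GV E V) {x // π x = y} :=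
          { act := fun γ x => ⟨γ * x.1 * γ⁻¹, by rw [hconj]; exact x.2⟩
            one := fun x => Subtype.ext (by
              show 1 * x.1 * 1⁻¹ = x.1
              rw [one_mul, inv_one, mul_one])
            mul := fun γ δ x => Subtype.ext (by
              show γ * δ * x.1 * (γ * δ)⁻¹ = γ * (δ * x.1 * δ⁻¹) * γ⁻¹
              group)
            cont := (((continuous_fst.mul (continuous_subtype_val.comp continuous_snd)).mul
              continuous_fst.inv)).subtype_mk _ }
        have hσσ : ∀ x : GV E V, (thG τ (thG τ x)⁻¹)⁻¹ = x := by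
          intro x
          rw [cinv_inv, inv_inv, thG_thG]
        let σ : GV E V ≃* GV E V :=
          { toFun := fun x => (thG τ x)⁻¹
            invFun := fun x => (thG τ x)⁻¹
            left_inv := hσσ
            right_inv := hσσ
            map_mul' := fun x y => by
              rw [cinv_anti, mul_inv_rev] }
        have hσc : Continuous fun x : GV E V => (thG τ x)⁻¹ := (continuous_thG F τ).inv
        refine orbit_principle_sym A {z : {x // π x = y} | z.1 ∈ s}
          (hs.preimage Subtype.val_injective) ?_ (fibH π (a none) (ha none) y) σ hσc hσc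
          ?_ ?_ S ?_ ?_
        · intro x
          have h1 : LinearMap.charpoly x.1.1 = LinearMap.charpoly g0.1 :=
            (hπ' _ _).1 (x.2.trans hg0.symm)
          obtain ⟨z, hz, hz', γ, hγ⟩ := hs' x.1 h1
          exact ⟨⟨z, ((hπ' _ _).2 hz').trans hg0⟩, hz, γ, Subtype.ext hγ⟩
        · intro γ x
          apply Subtype.ext
          show thG τ ((thG τ γ)⁻¹ * x.1 * (thG τ γ)⁻¹⁻¹) = γ * thG τ x.1 * γ⁻¹
          rw [inv_inv, cinv_anti, cinv_anti, cinv_inv, thG_thG, mul_assoc]
        · intro x
          obtain ⟨γ, hγ⟩ := thG_conj τ x.1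
          exact ⟨γ, Subtype.ext hγ⟩
        · intro γ f
          have h1 := hS (some γ⁻¹) f
          simp only [Option.elim_some, one_mul] at h1
          refine Eq.trans ?_ h1
          congr 1
        · intro f
          have h1 := hS none f
          simp only [Option.elim_none, neg_mul, one_mul] at h1
          refine Eq.trans ?_ h1
          congr 1
      · refine LinearMap.ext fun g => ?_
        have h1 : g = 0 := by
          apply SF.ext
          intro z
          exact absurd ⟨z.1, z.2⟩ hne
        rw [h1, map_zero, map_zero]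
    · intro i f
      cases i with
      | none =>
        show T (SF.comp (thHomeo F τ) (SF.comp (thHomeo F τ) f)) -
          T (SF.comp (thHomeo F τ) f) = -1 * (T (SF.comp (thHomeo F τ) f) - T f)
        have e : SF.comp (thHomeo F τ) (SF.comp (thHomeo F τ) f) = f := by
          apply SF.ext
          intro x
          show f (thG τ (thG τ x)) = f x
          rw [thG_thG]
        rw [e]
        ring
      | some γ =>
        show T (SF.comp (thHomeo F τ) (SF.comp (cjHomeo γ) f)) -
          T (SF.comp (cjHomeo γ) f) = 1 * (T (SF.comp (thHomeo F τ) f) - T f)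
        have e : SF.comp (thHomeo F τ) (SF.comp (cjHomeo γ) f) =
            SF.comp (cjHomeo (thG τ γ)⁻¹) (SF.comp (thHomeo F τ) f) := by
          apply SF.ext
          intro x
          show f (γ⁻¹ * thG τ x * γ) = f (thG τ ((thG τ γ)⁻¹⁻¹ * x * (thG τ γ)⁻¹))
          rw [inv_inv, cinv_anti, cinv_anti, cinv_inv, thG_thG, mul_assoc]
        rw [e, hT, hT, one_mul]
  have h := congrArg (fun l : SF (GV E V) ℂ →ₗ[ℂ] ℂ => l f) hT'
  have h1 : T (SF.comp (thHomeo F τ) f) - T f = 0 := h
  exact sub_eq_zero.1 h1

end

end Pool.Agent.Work.MP_dd0ddf_al
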