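import Pool.Agent.Work.MP_dd0ddf_al.CritT
import Pool.Agent.Work.MP_dd0ddf_al.SdIrr

/-!
# MP_dd0ddf_al, module CritKer: the kernel of `f ⊗ lam ↦ avg f (lam ∘ l)` does not depend on l

Write `x_a = rTensor (SF.comp (mulLeft a⁻¹)) x` for a ∈ G, x ∈ SF G ⊗ S^∨.  `critA_left`: `critA l x_a = sdAct a (critA l x)` (avg_left).  `critC_left`: `critC x_a η = critC x (η ∘ π(θ(a⁻¹)))`: `(f ∘ mulLeft a⁻¹) ∘ θ = (f ∘ θ) ∘ mulRight (θ a⁻¹)` (θ antiautomorphism, θ² = 1), avg_right.
hstar (linear in x): `κ critC x (dlam l (j⁻¹ s)) = (l' (critA l x)) s` for all x, s.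
(→) critA l x = 0.  For all a, s: `κ critC x ((dlam l (j⁻¹ s)) ∘ π(θ(a⁻¹))) = (l' (sdAct a (critA l x))) s = 0`, so critC x kills the span M of the functionals `lam ∘ l ∘ π(b)`, lam ∈ S^∨, b ∈ G (θ bijective).  x is a finite sum of f_i ⊗ lam_i; avg_K for the f_i ∘ θ gives an open subgroup K (intersection) with: critC x η = 0 if η vanishes on the space P^K of K-fixed vectors,
which is finite dimensional (adm).  M separates the points of P^K: if w ≠ 0 and lam(l(π(b) w)) = 0 for all lam, b, then l(π(b) w) = 0 (sd_sep) and l = 0 since the π(b) w span P.  So each functional on P^K is the restriction of an element of M: for η ∈ P^* there is m ∈ M with m = η on P^K; critC x η = critC x m = 0.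
(←) critC x = 0: `(l' (sdAct a (critA l x))) s = κ critC x_a (..) = 0` for all a, s.  {ξ : l' (sdAct a ξ) = 0 for all a} is stable under sdAct and ≠ ⊤ (l' ≠ 0), so it is ⊥ (sd_irrAdm); critA l x = 0.
`critA_surj`: the range is stable under sdAct (critA_left), nonzero: l w ≠ 0, sd_sep, avg_zero.
-/

set_option linter.unusedSectionVars false
set_option linter.style.haveILetI false

namespace Pool.Agent.Work.MP_dd0ddf_al

noncomputable section

universe u

variable {F E : Type u} [NontriviallyNormedField F] [IsUltrametricDist F] [ProperSpace F]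
  [CharZero F] [NontriviallyNormedField E] [NormedAlgebra F E] [ProperSpace E] [StarRing E]
  [QExt F E] [MeasurableSpace E] [BorelSpace E]
variable {V : Type u} [AddCommGroup V] [Module E V] [Module.Finite E V] [TopologicalSpace V]
  [IsTopologicalAddGroup V] [T2Space V] [ContinuousSMul E V]
variable {S : Type*} [AddCommGroup S] [Module ℂ S] {P : Type*} [AddCommGroup P] [Module ℂ P]

open TensorProduct in
/-- `A_l (f ⊗ lam) = avg f (lam ∘ l)` -/
def critA {B : SkewH E V} {p : PChar F} (H : Heis B p S) (π : GV E V →* Module.End ℂ P)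
    (hπ : SmRep π) (l : P →ₗ[ℂ] S) : SF (GV E V) ℂ ⊗[ℂ] H.sd →ₗ[ℂ] sdual π :=
  TensorProduct.lift ((avg π hπ).compl₂ (dlam H l))

open TensorProduct in
theorem critA_tmul {B : SkewH E V} {p : PChar F} (H : Heis B p S)
    (π : GV E V →* Module.End ℂ P) (hπ : SmRep π) (l : P →ₗ[ℂ] S) (f : SF (GV E V) ℂ)
    (lam : H.sd) : critA H π hπ l (f ⊗ₜ[ℂ] lam) = avg π hπ f (dlam H l lam) := rfl

open TensorProduct in
/-- `C (f ⊗ lam) η = (l' (avg (f ∘ θ) η)) (j lam)` -/
def critC {B : SkewH E V} {p : PChar F} (H : Heis B p S) (π : GV E V →* Module.End ℂ P)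
    (hπ : SmRep π) (l' : sdual π →ₗ[ℂ] H.sd) (θ : GV E V ≃ₜ GV E V) (j : H.sd ≃ₗ[ℂ] S) :
    SF (GV E V) ℂ ⊗[ℂ] H.sd →ₗ[ℂ] Module.Dual ℂ P →ₗ[ℂ] ℂ :=
  TensorProduct.lift (LinearMap.mk₂ ℂ
    (fun f lam =>
      ((LinearMap.applyₗ (j lam)).comp (H.sd.subtype.comp (l'.comp (avg π hπ (SF.comp θ f)))) :
        Module.Dual ℂ P →ₗ[ℂ] ℂ))
    (fun f f' lam => by
      apply LinearMap.ext
      intro η
      show (l' (avg π hπ (SF.comp θ (f + f')) η)).1 (j lam) = _
      rw [map_add, map_add, LinearMap.add_apply, map_add]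
      rfl)
    (fun c f lam => by
      apply LinearMap.ext
      intro η
      show (l' (avg π hπ (SF.comp θ (c • f)) η)).1 (j lam) = _
      rw [map_smul, map_smul, LinearMap.smul_apply, map_smul]
      rfl)
    (fun f lam lam' => by
      apply LinearMap.ext
      intro η
      show (l' (avg π hπ (SF.comp θ f) η)).1 (j (lam + lam')) = _
      rw [map_add, map_add]
      rfl)
    (fun c f lam => by
      apply LinearMap.ext
      intro η
      show (l' (avg π hπ (SF.comp θ f) η)).1 (j (c • lam)) = _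
      rw [map_smul, map_smul]
      rfl))

open TensorProduct in
theorem critC_tmul {B : SkewH E V} {p : PChar F} (H : Heis B p S)
    (π : GV E V →* Module.End ℂ P) (hπ : SmRep π) (l' : sdual π →ₗ[ℂ] H.sd)
    (θ : GV E V ≃ₜ GV E V) (j : H.sd ≃ₗ[ℂ] S) (f : SF (GV E V) ℂ) (lam : H.sd)
    (η : Module.Dual ℂ P) :
    critC H π hπ l' θ j (f ⊗ₜ[ℂ] lam) η = (l' (avg π hπ (SF.comp θ f) η)).1 (j lam) := rfl

open TensorProduct in
theorem critA_left {B : SkewH E V} {p : PChar F} (H : Heis B p S)
    (π : GV E V →* Module.End ℂ P) (hπ : SmRep π) (l : P →ₗ[ℂ] S) (a : GV E V)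
    (x : SF (GV E V) ℂ ⊗[ℂ] H.sd) :
    critA H π hπ l (LinearMap.rTensor H.sd (SF.comp (B := ℂ) (Homeomorph.mulLeft a⁻¹)) x) =
      sdAct π a (critA H π hπ l x) := by
  induction x using TensorProduct.induction_on with
  | zero => rw [map_zero, map_zero, map_zero]
  | tmul f lam =>
    rw [LinearMap.rTensor_tmul, critA_tmul, critA_tmul, avg_left]
  | add x y hx hy => rw [map_add, map_add, map_add, map_add, hx, hy]

private theorem critker_dlam_ne {B : SkewH E V} {p : PChar F} (H : Heis B p S)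
    (l : P →ₗ[ℂ] S) (w : P) (hw : ∀ lam : H.sd, dlam H l lam w = 0) : l w = 0 :=
  sd_sep H (l w) hw

theorem critA_surj {B : SkewH E V} {p : PChar F} (H : Heis B p S)
    (π : GV E V →* Module.End ℂ P) (hπ : IrrAdm π) (l : P →ₗ[ℂ] S) (hl : l ≠ 0) :
    Function.Surjective (critA H π hπ.smooth l) := by
  haveI : IsUltrametricDist E := ult_E F
  rw [← LinearMap.range_eq_top]
  rcases (sd_irrAdm π hπ).irr (LinearMap.range (critA H π hπ.smooth l)) (by
    rintro g _ ⟨x, rfl⟩
    exact ⟨_, critA_left H π hπ.smooth l g x⟩) with h | h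
  · exfalso
    apply hl
    apply LinearMap.ext
    intro w
    show l w = 0
    apply critker_dlam_ne H l w
    intro lam
    have h1 : dlam H l lam = 0 := by
      apply avg_zero π hπ.smooth
      intro f
      have h2 : critA H π hπ.smooth l (f ⊗ₜ[ℂ] lam) ∈
          LinearMap.range (critA H π hπ.smooth l) := ⟨_, rfl⟩
      rw [h, Submodule.mem_bot, critA_tmul] at h2
      exact h2
    rw [h1]
    rfl
  · exact h

open TensorProduct in
/-- `critC` of a left translate -/
private theorem critker_left {B : SkewH E V} {p : PChar F} (H : Heis B p S)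
    (π : GV E V →* Module.End ℂ P) (hπ : SmRep π) (θ : GV E V ≃ₜ GV E V)
    (hθ : ∀ a b, θ (a * b) = θ b * θ a) (hθ2 : ∀ a, θ (θ a) = a)
    (l' : sdual π →ₗ[ℂ] H.sd) (j : H.sd ≃ₗ[ℂ] S) (a : GV E V)
    (x : SF (GV E V) ℂ ⊗[ℂ] H.sd) (η : Module.Dual ℂ P) :
    critC H π hπ l' θ j
      (LinearMap.rTensor H.sd (SF.comp (B := ℂ) (Homeomorph.mulLeft a⁻¹)) x) η =
      critC H π hπ l' θ j x (η ∘ₗ π (θ a⁻¹)) := by
  induction x using TensorProduct.induction_on with
  | zero => rw [map_zero, map_zero, LinearMap.zero_apply, LinearMap.zero_apply]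
  | tmul f lam =>
    rw [LinearMap.rTensor_tmul, critC_tmul, critC_tmul, ← avg_right]
    have h1 : SF.comp θ (SF.comp (B := ℂ) (Homeomorph.mulLeft a⁻¹) f) =
        SF.comp (Homeomorph.mulRight (θ a⁻¹)) (SF.comp θ f) := by
      apply SF.ext
      intro g
      show f (a⁻¹ * θ g) = f (θ (g * θ a⁻¹))
      rw [hθ, hθ2]
    rw [h1]
  | add x y hx hy =>
    rw [map_add, map_add, map_add, LinearMap.add_apply, LinearMap.add_apply, hx, hy]

open TensorProduct in
/-- the basic relation, linear in `x` -/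
private theorem critker_star {B : SkewH E V} {p : PChar F} (H : Heis B p S)
    (π : GV E V →* Module.End ℂ P) (hπ : SmRep π) (θ : GV E V ≃ₜ GV E V)
    (l : P →ₗ[ℂ] S) (l' : sdual π →ₗ[ℂ] H.sd) (j : H.sd ≃ₗ[ℂ] S) (κ : ℂ)
    (hstar : ∀ (f : SF (GV E V) ℂ) (s : S) (lam : H.sd),
      κ * (l' (avg π hπ (SF.comp θ f) (dlam H l (j.symm s)))).1 (j lam) =
        (l' (avg π hπ f (dlam H l lam))).1 s)
    (x : SF (GV E V) ℂ ⊗[ℂ] H.sd) (s : S) :
    κ * critC H π hπ l' θ j x (dlam H l (j.symm s)) = (l' (critA H π hπ l x)).1 s := by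
  induction x using TensorProduct.induction_on with
  | zero =>
    rw [map_zero, map_zero, LinearMap.zero_apply, map_zero, mul_zero]
    rfl
  | tmul f lam => rw [critC_tmul, critA_tmul, hstar]
  | add x y hx hy =>
    rw [map_add, map_add, LinearMap.add_apply, map_add, mul_add, hx, hy]
    rfl

open TensorProduct in
/-- `critC x` only sees the restriction to the vectors fixed by some open subgroup -/
private theorem critker_K {B : SkewH E V} {p : PChar F} (H : Heis B p S)
    (π : GV E V →* Module.End ℂ P) (hπ : SmRep π) (θ : GV E V ≃ₜ GV E V)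
    (l' : sdual π →ₗ[ℂ] H.sd) (j : H.sd ≃ₗ[ℂ] S) (x : SF (GV E V) ℂ ⊗[ℂ] H.sd) :
    ∃ K : Subgroup (GV E V), IsOpen (K : Set (GV E V)) ∧
      ∀ η : Module.Dual ℂ P, (∀ w, (∀ k ∈ K, π k w = w) → η w = 0) →
        critC H π hπ l' θ j x η = 0 := by
  haveI : IsUltrametricDist E := ult_E F
  induction x using TensorProduct.induction_on with
  | zero => exact ⟨⊤, isOpen_univ, fun η _ => by rw [map_zero, LinearMap.zero_apply]⟩
  | tmul f lam =>
    obtain ⟨K, hK, h⟩ := avg_K π hπ (SF.comp θ f)
    refine ⟨K, hK, fun η hη => ?_⟩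
    rw [critC_tmul, h η hη, map_zero]
    rfl
  | add x y hx hy =>
    obtain ⟨K, hK, h⟩ := hx
    obtain ⟨K', hK', h'⟩ := hy
    refine ⟨K ⊓ K', hK.inter hK', fun η hη => ?_⟩
    rw [map_add, LinearMap.add_apply,
      h η (fun w hw => hη w (fun k hk => hw k hk.1)),
      h' η (fun w hw => hη w (fun k hk => hw k hk.2)), add_zero]

open TensorProduct in
theorem crit_ker {B : SkewH E V} {p : PChar F} (H : Heis B p S)
    (π : GV E V →* Module.End ℂ P) (hπ : IrrAdm π) (θ : GV E V ≃ₜ GV E V)
    (hθ : ∀ a b, θ (a * b) = θ b * θ a) (hθ2 : ∀ a, θ (θ a) = a)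
    (l : P →ₗ[ℂ] S) (hl : l ≠ 0) (l' : sdual π →ₗ[ℂ] H.sd) (hl' : l' ≠ 0)
    (j : H.sd ≃ₗ[ℂ] S) (κ : ℂ) (hκ : κ ≠ 0)
    (hstar : ∀ (f : SF (GV E V) ℂ) (s : S) (lam : H.sd),
      κ * (l' (avg π hπ.smooth (SF.comp θ f) (dlam H l (j.symm s)))).1 (j lam) =
        (l' (avg π hπ.smooth f (dlam H l lam))).1 s)
    (x : SF (GV E V) ℂ ⊗[ℂ] H.sd) :
    critA H π hπ.smooth l x = 0 ↔ critC H π hπ.smooth l' θ j x = 0 := by
  haveI : IsUltrametricDist E := ult_E F
  have hst := critker_star H π hπ.smooth θ l l' j κ hstar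
  constructor
  · intro h0
    -- `critC x` kills `lam ∘ l ∘ π(b)`
    have hkill : ∀ (b : GV E V) (lam : H.sd),
        critC H π hπ.smooth l' θ j x (dlam H l lam ∘ₗ π b) = 0 := by
      intro b lam
      have h1 := hst (LinearMap.rTensor H.sd
        (SF.comp (B := ℂ) (Homeomorph.mulLeft ((θ b)⁻¹)⁻¹)) x) (j lam)
      rw [critA_left, h0, map_zero, map_zero, critker_left H π hπ.smooth θ hθ hθ2,
        LinearEquiv.symm_apply_apply, inv_inv, hθ2] at h1
      exact (mul_eq_zero.1 h1).resolve_left hκ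
    obtain ⟨K, hK, hKx⟩ := critker_K H π hπ.smooth θ l' j x
    obtain ⟨N, hNf, hN⟩ := hπ.adm K hK
    let PK : Submodule ℂ P :=
      { carrier := {w | ∀ k ∈ K, π k w = w}
        add_mem' := fun {a b} ha hb k hk => by rw [map_add, ha k hk, hb k hk]
        zero_mem' := fun k hk => map_zero _
        smul_mem' := fun c a ha k hk => by rw [map_smul, ha k hk] }
    have hPN : PK ≤ N := fun w hw => hN w hw
    haveI : FiniteDimensional ℂ PK := Submodule.finiteDimensional_of_le hPN
    let M : Submodule ℂ (Module.Dual ℂ P) :=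
      Submodule.span ℂ (Set.range fun bl : GV E V × H.sd => dlam H l bl.2 ∘ₗ π bl.1)
    have hM : ∀ m ∈ M, critC H π hπ.smooth l' θ j x m = 0 := by
      intro m hm
      have hle : M ≤ LinearMap.ker (critC H π hπ.smooth l' θ j x) := by
        refine Submodule.span_le.2 ?_
        rintro _ ⟨⟨b, lam⟩, rfl⟩
        exact hkill b lam
      exact hle hm
    let W : Submodule ℂ (Module.Dual ℂ PK) := M.map PK.subtype.dualMap
    have hco : W.dualCoannihilator = ⊥ := by
      rw [eq_bot_iff]
      intro w hw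
      rw [Submodule.mem_dualCoannihilator] at hw
      have hz : ∀ b, l (π b (w : P)) = 0 := by
        intro b
        apply critker_dlam_ne H l
        intro lam
        exact hw (PK.subtype.dualMap (dlam H l lam ∘ₗ π b))
          ⟨_, Submodule.subset_span ⟨(b, lam), rfl⟩, rfl⟩
      let Q : Submodule ℂ P :=
        { carrier := {v | ∀ b, l (π b v) = 0}
          add_mem' := fun {a c} ha hc b => by rw [map_add, map_add, ha b, hc b, add_zero]
          zero_mem' := fun b => by rw [map_zero, map_zero]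
          smul_mem' := fun c a ha b => by rw [map_smul, map_smul, ha b, smul_zero] }
      rcases hπ.irr Q (fun g v hv b => by
        rw [← Module.End.mul_apply, ← map_mul]
        exact hv (b * g)) with h | h
      · have h1 : (w : P) ∈ Q := hz
        rw [h, Submodule.mem_bot] at h1
        rw [Submodule.mem_bot]
        exact Subtype.ext h1
      · exfalso
        apply hl
        apply LinearMap.ext
        intro v
        have h1 : v ∈ Q := by rw [h]; trivial
        have h2 := h1 1
        rw [map_one] at h2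
        exact h2
    have hW : W = ⊤ := by
      have h1 := Subspace.dualCoannihilator_dualAnnihilator_eq (W := W)
      rw [hco, Submodule.dualAnnihilator_bot] at h1
      exact h1.symm
    apply LinearMap.ext
    intro η
    have h1 : PK.subtype.dualMap η ∈ W := by rw [hW]; trivial
    obtain ⟨m, hm, hmη⟩ := h1
    have h2 : critC H π hπ.smooth l' θ j x (η - m) = 0 := by
      apply hKx
      intro w hw
      have h3 := congrArg (fun φ : Module.Dual ℂ PK => φ ⟨w, hw⟩) hmη
      have h4 : m w = η w := h3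
      rw [LinearMap.sub_apply, h4, sub_self]
    rw [map_sub, hM m hm, sub_zero] at h2
    rw [h2, LinearMap.zero_apply]
  · intro h0
    have hz : ∀ a, l' (sdAct π a (critA H π hπ.smooth l x)) = 0 := by
      intro a
      apply Subtype.ext
      apply LinearMap.ext
      intro s
      rw [← critA_left, ← hst, critker_left H π hπ.smooth θ hθ hθ2, h0, LinearMap.zero_apply,
        mul_zero]
      rfl
    let Q : Submodule ℂ (sdual π) :=
      { carrier := {ξ | ∀ a, l' (sdAct π a ξ) = 0}
        add_mem' := fun {a c} ha hc b => by rw [map_add, map_add, ha b, hc b, add_zero]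
        zero_mem' := fun b => by rw [map_zero, map_zero]
        smul_mem' := fun c a ha b => by rw [map_smul, map_smul, ha b, smul_zero] }
    rcases (sd_irrAdm π hπ).irr Q (fun g ξ hξ b => by
      rw [← Module.End.mul_apply, ← map_mul]
      exact hξ (b * g)) with h | h
    · have h1 : critA H π hπ.smooth l x ∈ Q := hz
      rwa [h, Submodule.mem_bot] at h1
    · exfalso
      apply hl'
      apply LinearMap.ext
      intro ξ
      have h1 : ξ ∈ Q := by rw [h]; trivial
      have h2 := h1 1
      rw [map_one] at h2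
      exact h2

end

end Pool.Agent.Work.MP_dd0ddf_al
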