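import Pool.Agent.Work.MP_dd0ddf_al.GrpAll

/-!
# MP_dd0ddf_al, module GroupMain: the group level theorem P(V) (blueprint section 1)
-/

set_option linter.unusedSectionVars false
set_option linter.style.haveILetI false

namespace Pool.Agent.Work.MP_dd0ddf_al

noncomputable section

universe u

variable {F E : Type u} [NontriviallyNormedField F] [IsUltrametricDist F] [ProperSpace F]
  [CharZero F] [NontriviallyNormedField E] [NormedAlgebra F E] [ProperSpace E] [StarRing E]
  [QExt F E] [MeasurableSpace E] [BorelSpace E]
variable {V : Type u} [AddCommGroup V] [Module E V] [Module.Finite E V] [TopologicalSpace V]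
  [IsTopologicalAddGroup V] [T2Space V] [ContinuousSMul E V]

/-- **group level theorem**: every `U(V) × U(V)`-invariant functional on `SF (GL(V)) (SF V)` is
invariant under the involution `Θ` -/
theorem group_level {B : SkewH E V} {p : PChar F} (W : WeilRep B p) (τ : AntiU B)
    (T : SF (GV E V) (SF V ℂ) →ₗ[ℂ] ℂ)
    (hT : ∀ (h₁ h₂ : UU B) (G : SF (GV E V) (SF V ℂ)), T (W.act h₁ h₂ G) = T G)
    (G : SF (GV E V) (SF V ℂ)) : T (Theta F τ G) = T G :=
  group_of_good (grp_all _ F E V B p W le_rfl) τ T hT G

end

end Pool.Agent.Work.MP_dd0ddf_al
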