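import Pool.Agent.Work.MP_dd0ddf_al.CycDefs

/-!
# MP_dd0ddf_al, module CycChar: the characteristic polynomial of a cyclic decomposition

`charpoly X = ∏ (q_i)^{k_i}`.  On the cyclic subspace `U = cyc X e` with annihilator `(Q)`, Q monic (Q = q^k), the characteristic polynomial of X|_U is Q: `U ≅ E[x]/(Q)`, dim U = deg Q, `Q(X) = 0` on `U`, minimal polynomial = Q = characteristic polynomial.
The characteristic polynomial of `V = ⊕ U_i` (internal direct sum: ortho + nd + span) is the product (Mathlib: `LinearMap.charpoly` via a block basis: `Matrix.charpoly` of a block diagonal matrix, or `LinearMap.charpoly_prodMap`, or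
 induction on the number of blocks with `U ⊕ U^⊥`).
-/

set_option linter.unusedSectionVars false
set_option linter.style.haveILetI false

namespace Pool.Agent.Work.MP_dd0ddf_al

noncomputable section

universe u

variable {F E : Type u} [NontriviallyNormedField F] [IsUltrametricDist F] [ProperSpace F]
  [CharZero F] [NontriviallyNormedField E] [NormedAlgebra F E] [ProperSpace E] [StarRing E]
  [QExt F E]
variable {V : Type u} [AddCommGroup V] [Module E V] [Module.Finite E V] [TopologicalSpace V]
  [IsTopologicalAddGroup V] [T2Space V] [ContinuousSMul E V]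

private theorem cycchar_blockDiag {R : Type*} [CommRing R] {m : ℕ} {κ : Fin m → Type*}
    [∀ i, Fintype (κ i)] [∀ i, DecidableEq (κ i)] (A : ∀ i, Matrix (κ i) (κ i) R) :
    (Matrix.blockDiagonal' A).charpoly = ∏ i, (A i).charpoly := by
  have hM : Matrix.charmatrix (Matrix.blockDiagonal' A) =
      Matrix.blockDiagonal' fun i => Matrix.charmatrix (A i) := by
    ext1 ⟨i, a⟩ ⟨j, b⟩
    rcases eq_or_ne i j with rfl | hij
    · rw [Matrix.blockDiagonal'_apply_eq]
      rcases eq_or_ne a b with rfl | hab
      · rw [Matrix.charmatrix_apply_eq, Matrix.charmatrix_apply_eq, Matrix.blockDiagonal'_apply_eq]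
      · rw [Matrix.charmatrix_apply_ne _ _ _ hab, Matrix.charmatrix_apply_ne,
          Matrix.blockDiagonal'_apply_eq]
        intro h
        exact hab (eq_of_heq (Sigma.mk.inj_iff.1 h).2)
    · rw [Matrix.blockDiagonal'_apply_ne _ _ _ hij, Matrix.charmatrix_apply_ne,
        Matrix.blockDiagonal'_apply_ne _ _ _ hij, Polynomial.C_0, neg_zero]
      intro h
      exact hij (Sigma.mk.inj_iff.1 h).1
  rw [Matrix.charpoly, hM, (Matrix.blockTriangular_blockDiagonal' _).det_fintype]
  refine Finset.prod_congr rfl fun k _ => ?_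
  let e : κ k ≃ {a : Sigma κ // a.1 = k} :=
    { toFun := fun x => ⟨⟨k, x⟩, rfl⟩
      invFun := fun a => a.2 ▸ a.1.2
      left_inv := fun x => rfl
      right_inv := by
        rintro ⟨⟨i, x⟩, h⟩
        dsimp at h
        subst h
        rfl }
  rw [Matrix.charpoly, ← Matrix.det_submatrix_equiv_self e]
  congr 1
  ext1 a b
  show Matrix.blockDiagonal' (fun i => (A i).charmatrix) ⟨k, a⟩ ⟨k, b⟩ = _
  rw [Matrix.blockDiagonal'_apply_eq]

private theorem cycchar_aeval_restrict {E V : Type*} [Field E] [AddCommGroup V] [Module E V]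
    (X : Module.End E V) (U : Submodule E V) (hX : ∀ v ∈ U, X v ∈ U) (f : Polynomial E) (v : U) :
    ((Polynomial.aeval (X.restrict hX) f v : U) : V) = Polynomial.aeval X f (v : V) := by
  have hpow : ∀ n : ℕ, ((((X.restrict hX) ^ n) v : U) : V) = (X ^ n) (v : V) := by
    intro n
    induction n with
    | zero => rfl
    | succ n ih =>
      rw [pow_succ', pow_succ']
      show X ((((X.restrict hX) ^ n) v : U) : V) = X ((X ^ n) (v : V))
      rw [ih]
  induction f using Polynomial.induction_on' with
  | add f g hf hg =>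
    rw [map_add, map_add, LinearMap.add_apply, LinearMap.add_apply, Submodule.coe_add, hf, hg]
  | monomial n a =>
    rw [Polynomial.aeval_monomial, Polynomial.aeval_monomial]
    show a • ((((X.restrict hX) ^ n) v : U) : V) = a • (X ^ n) (v : V)
    rw [hpow]

theorem charpoly_cyc {E V : Type*} [Field E] [AddCommGroup V] [Module E V] [Module.Finite E V]
    (X : Module.End E V) (e : V) (Q : Polynomial E) (hQ : Q.Monic)
    (hann : ∀ f : Polynomial E, Polynomial.aeval X f e = 0 ↔ Q ∣ f)
    (hX : ∀ v ∈ cyc X e, X v ∈ cyc X e) :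
    LinearMap.charpoly (X.restrict hX) = Q := by
  classical
  have he : e ∈ cyc X e := Submodule.subset_span ⟨0, rfl⟩
  have h1 : Q ∣ LinearMap.charpoly (X.restrict hX) := by
    rw [← hann]
    have h2 := LinearMap.aeval_self_charpoly (X.restrict hX)
    have h3 := cycchar_aeval_restrict X (cyc X e) hX (LinearMap.charpoly (X.restrict hX)) ⟨e, he⟩
    rw [h2] at h3
    exact h3.symm
  have h4 : Module.finrank E (cyc X e) ≤ Q.natDegree := by
    rcases eq_or_ne Q.natDegree 0 with h0 | h0
    · have hQ1 : Q = 1 := hQ.natDegree_eq_zero.1 h0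
      have he0 : e = 0 := by
        have h := (hann 1).2 (by rw [hQ1])
        rw [map_one] at h
        exact h
      have hbot : cyc X e = ⊥ := by
        rw [eq_bot_iff]
        refine Submodule.span_le.2 ?_
        rintro _ ⟨a, rfl⟩
        show (X ^ a) e ∈ (⊥ : Submodule E V)
        rw [he0, map_zero]
        exact Submodule.zero_mem _
      rw [hbot, finrank_bot]
      exact Nat.zero_le _
    have h5 : cyc X e ≤ Submodule.span E (Set.range fun i : Fin Q.natDegree => (X ^ (i : ℕ)) e) := by
      intro v hv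
      obtain ⟨f, rfl⟩ := (mem_cyc X e v).1 hv
      have h6 : Polynomial.aeval X f e = Polynomial.aeval X (f %ₘ Q) e := by
        have h7 : Q ∣ f - f %ₘ Q := by
          have := Polynomial.modByMonic_add_div f Q
          exact ⟨f /ₘ Q, by linear_combination -this⟩
        have h8 := (hann _).2 h7
        rw [map_sub, LinearMap.sub_apply, sub_eq_zero] at h8
        exact h8
      rw [h6, Polynomial.aeval_eq_sum_range' (n := Q.natDegree), LinearMap.sum_apply]
      · refine Submodule.sum_mem _ fun a ha => ?_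
        rw [LinearMap.smul_apply]
        exact Submodule.smul_mem _ _ (Submodule.subset_span ⟨⟨a, Finset.mem_range.1 ha⟩, rfl⟩)
      · exact Polynomial.natDegree_modByMonic_lt f hQ (fun h => h0 (by rw [h]; simp))
    calc Module.finrank E (cyc X e) ≤ Module.finrank E (Submodule.span E
          (Set.range fun i : Fin Q.natDegree => (X ^ (i : ℕ)) e)) :=
        Submodule.finrank_mono h5
      _ ≤ Fintype.card (Fin Q.natDegree) := finrank_range_le_card _
      _ = Q.natDegree := Fintype.card_fin _
  refine Polynomial.eq_of_monic_of_dvd_of_natDegree_le hQ (LinearMap.charpoly_monic _) h1 ?_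
  rw [LinearMap.charpoly_natDegree]
  exact h4

private theorem cycchar_stab {E V : Type*} [Field E] [AddCommGroup V] [Module E V]
    (X : Module.End E V) (e : V) : ∀ v ∈ cyc X e, X v ∈ cyc X e := by
  intro v hv
  obtain ⟨f, rfl⟩ := (mem_cyc X e v).1 hv
  refine (mem_cyc X e _).2 ⟨Polynomial.X * f, ?_⟩
  rw [map_mul, Polynomial.aeval_X]
  rfl

private theorem cycchar_indep {E V : Type u} {F : Type u} [Field F] [Field E] [Algebra F E]
    [StarRing E] [AddCommGroup V] [Module E V] {B : SkewH E V} {X : Module.End E V}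
    (D : CycD F B X) : iSupIndep fun i => cyc X (D.e i) := by
  rw [iSupIndep_def]
  intro i
  rw [Submodule.disjoint_def]
  intro x hx hx'
  apply D.nd i x hx
  have h1 : (⨆ j, ⨆ (_ : j ≠ i), cyc X (D.e j)) ≤ orth B (cyc X (D.e i)) := by
    refine iSup_le fun j => iSup_le fun hj => ?_
    intro w hw u hu
    obtain ⟨f, rfl⟩ := (mem_cyc X _ w).1 hw
    obtain ⟨g, rfl⟩ := (mem_cyc X _ u).1 hu
    exact D.ortho j i hj f g
  exact h1 hx'

theorem cycD_charpoly {B : SkewH E V} {X : Module.End E V} (D : CycD F B X) :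
    LinearMap.charpoly X = ∏ i, ((D.q i).map (algebraMap F E)) ^ (D.k i) := by
  classical
  have hint : DirectSum.IsInternal fun i => cyc X (D.e i) :=
    DirectSum.isInternal_submodule_of_iSupIndep_of_iSup_eq_top (cycchar_indep D) D.span
  have hst : ∀ i, Set.MapsTo X (cyc X (D.e i)) (cyc X (D.e i)) := fun i v hv =>
    cycchar_stab X _ v hv
  have h1 := LinearMap.toMatrix_directSum_collectedBasis_eq_blockDiagonal' hint hint
    (fun i => Module.finBasis E (cyc X (D.e i))) (fun i => Module.finBasis E (cyc X (D.e i)))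
    (f := X) hst
  rw [← LinearMap.charpoly_toMatrix X (hint.collectedBasis fun i =>
    Module.finBasis E (cyc X (D.e i))), h1, cycchar_blockDiag]
  refine Finset.prod_congr rfl fun i _ => ?_
  rw [LinearMap.charpoly_toMatrix]
  exact charpoly_cyc X (D.e i) _ (((D.monic i).map _).pow _) (D.ann i) (cycchar_stab X _)

private theorem cycchar_even {K : Type*} [Field K] {n : ℕ} (q : Fin n → Polynomial K)
    (k : Fin n → ℕ) (hmon : ∀ i, (q i).Monic) (hir : ∀ i, Irreducible (q i))
    (q0 P' : Polynomial K) (m : ℕ) (hq : q0.Monic) (hirr : Irreducible q0) (hnd : ¬ q0 ∣ P')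
    (h : ∏ i, q i ^ k i = q0 ^ m * P') (hev : ∀ i, q i = q0 → Even (k i)) : Even m := by
  classical
  have hprime : Prime q0 := hirr.prime
  set s := Finset.univ.filter fun i => q i = q0 with hs
  have h1 : ∏ i, q i ^ k i = q0 ^ (∑ i ∈ s, k i) *
      ∏ i ∈ Finset.univ.filter (fun i => ¬ q i = q0), q i ^ k i := by
    rw [← Finset.prod_filter_mul_prod_filter_not Finset.univ (fun i => q i = q0),
      ← Finset.prod_pow_eq_pow_sum]
    congr 1
    refine Finset.prod_congr rfl fun i hi => ?_
    rw [(Finset.mem_filter.1 hi).2]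
  set R := ∏ i ∈ Finset.univ.filter (fun i => ¬ q i = q0), q i ^ k i with hR
  have h2 : ¬ q0 ∣ R := by
    intro hd
    obtain ⟨i, hi, hdi⟩ := (Prime.dvd_finsetProd_iff hprime _).1 hd
    have h3 := hprime.dvd_of_dvd_pow hdi
    have h4 : q0 = q i := Polynomial.eq_of_monic_of_associated hq (hmon i)
      (hirr.associated_of_dvd (hir i) h3)
    exact (Finset.mem_filter.1 hi).2 h4.symm
  have h5 : Even (∑ i ∈ s, k i) :=
    Finset.even_sum _ fun i hi => hev i (Finset.mem_filter.1 hi).2
  rw [h1] at h
  have hq0 : q0 ≠ 0 := hirr.ne_zero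
  rcases lt_trichotomy m (∑ i ∈ s, k i) with hlt | heq | hgt
  · exfalso
    obtain ⟨c, hc⟩ := Nat.exists_eq_add_of_lt hlt
    rw [hc, show m + c + 1 = m + (c + 1) by ring, pow_add, mul_assoc] at h
    have h6 := mul_left_cancel₀ (pow_ne_zero m hq0) h
    exact hnd ⟨q0 ^ c * R, by rw [← h6, pow_succ]; ring⟩
  · rw [heq]
    exact h5
  · exfalso
    obtain ⟨c, hc⟩ := Nat.exists_eq_add_of_lt hgt
    rw [hc, show (∑ i ∈ s, k i) + c + 1 = (∑ i ∈ s, k i) + (c + 1) by ring, pow_add,
      mul_assoc] at h
    have h6 := mul_left_cancel₀ (pow_ne_zero _ hq0) h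
    exact h2 ⟨q0 ^ c * P', by rw [h6, pow_succ]; ring⟩

/-- a factor of odd multiplicity occurs in an odd block -/
theorem cycD_odd {B : SkewH E V} {X : Module.End E V} (D : CycD F B X) (q P' : Polynomial F)
    (m : ℕ) (hq : q.Monic) (hirr : Irreducible q) (hm : Odd m) (hnd : ¬ q ∣ P')
    (h : LinearMap.charpoly X = (q ^ m * P').map (algebraMap F E)) :
    ∃ i, D.q i = q ∧ Odd (D.k i) := by
  by_contra hcon
  push Not at hcon
  have h1 : (∏ i, D.q i ^ D.k i) = q ^ m * P' := by
    apply Polynomial.map_injective (algebraMap F E) (algebraMap F E).injective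
    rw [← h, cycD_charpoly D, Polynomial.map_prod]
    simp only [Polynomial.map_pow]
  have h2 := cycchar_even D.q D.k D.monic D.irr q P' m hq hirr hnd h1 fun i hi =>
    Nat.not_odd_iff_even.1 (hcon i hi)
  exact (Nat.not_even_iff_odd.2 hm) h2

end

end Pool.Agent.Work.MP_dd0ddf_al
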