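import Pool.Agent.Work.MP_dd0ddf_al.Defs

/-!
# More definitions for MP_dd0ddf_al
-/

set_option linter.unusedSectionVars false
set_option linter.style.haveILetI false

namespace Pool.Agent.Work.MP_dd0ddf_al

noncomputable section

universe u

open Polynomial

section Orth

variable {E V : Type*} [Field E] [StarRing E] [AddCommGroup V] [Module E V]

/-- the orthogonal complement -/
def orth (B : SkewH E V) (U : Submodule E V) : Submodule E V where
  carrier := {v | ∀ u ∈ U, B.ip v u = 0}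
  add_mem' := fun {a b} ha hb u hu => by rw [B.add_left, ha u hu, hb u hu, add_zero]
  zero_mem' := fun u _ => by
    have := B.smul_left 0 0 u
    rw [zero_smul, zero_mul] at this
    exact this
  smul_mem' := fun c a ha u hu => by rw [B.smul_left, ha u hu, mul_zero]

end Orth

section

variable {F E : Type u} [NontriviallyNormedField F] [IsUltrametricDist F] [ProperSpace F]
  [CharZero F] [NontriviallyNormedField E] [NormedAlgebra F E] [ProperSpace E] [StarRing E]
  [QExt F E]
variable {V : Type u} [AddCommGroup V] [Module E V] [Module.Finite E V] [TopologicalSpace V]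
  [IsTopologicalAddGroup V] [T2Space V] [ContinuousSMul E V]

theorem sa_adj (B : SkewH E V) {X : Module.End E V} (hX : X ∈ SA B) : adj B X = X :=
  (adj_unique B (g := X) (g' := X) hX).symm

theorem sa_of_adj (B : SkewH E V) {X : Module.End E V} (hX : adj B X = X) : X ∈ SA B := by
  intro v w
  rw [adj_spec, hX]

theorem uu_adj (B : SkewH E V) (h : UU B) : adj B h.1.1 = h.1⁻¹.1 := by
  symm
  apply adj_unique
  intro v w
  have h1 : h.1.1 (h.1⁻¹.1 w) = w := congrArg (fun f : Module.End E V => f w) h.1.mul_inv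
  have h2 := h.2 v (h.1⁻¹.1 w)
  rw [h1] at h2
  exact h2

theorem uu_adj_inv (B : SkewH E V) (h : UU B) : adj B h.1⁻¹.1 = h.1.1 := by
  have := uu_adj B h⁻¹
  simpa using this

/-- conjugation by `h ∈ U(V)` on self-adjoint operators -/
def saConj (B : SkewH E V) (h : UU B) : SA B ≃ₜ SA B where
  toFun X := ⟨h.1.1 * X.1 * h.1⁻¹.1, by
    apply sa_of_adj
    rw [adj_mul, adj_mul, uu_adj, uu_adj_inv, sa_adj B X.2, mul_assoc]⟩
  invFun X := ⟨h.1⁻¹.1 * X.1 * h.1.1, by
    apply sa_of_adj
    rw [adj_mul, adj_mul, uu_adj, uu_adj_inv, sa_adj B X.2, mul_assoc]⟩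
  left_inv X := by
    apply Subtype.ext
    show h.1⁻¹.1 * (h.1.1 * X.1 * h.1⁻¹.1) * h.1.1 = X.1
    have h1 : h.1⁻¹.1 * h.1.1 = 1 := h.1.inv_mul
    calc h.1⁻¹.1 * (h.1.1 * X.1 * h.1⁻¹.1) * h.1.1
        = (h.1⁻¹.1 * h.1.1) * X.1 * (h.1⁻¹.1 * h.1.1) := by simp only [mul_assoc]
      _ = X.1 := by rw [h1, one_mul, mul_one]
  right_inv X := by
    apply Subtype.ext
    show h.1.1 * (h.1⁻¹.1 * X.1 * h.1.1) * h.1⁻¹.1 = X.1
    have h1 : h.1.1 * h.1⁻¹.1 = 1 := h.1.mul_inv
    calc h.1.1 * (h.1⁻¹.1 * X.1 * h.1.1) * h.1⁻¹.1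
        = (h.1.1 * h.1⁻¹.1) * X.1 * (h.1.1 * h.1⁻¹.1) := by simp only [mul_assoc]
      _ = X.1 := by rw [h1, one_mul, mul_one]
  continuous_toFun := by
    refine Continuous.subtype_mk ?_ _
    exact (continuous_const.mul continuous_subtype_val).mul continuous_const
  continuous_invFun := by
    refine Continuous.subtype_mk ?_ _
    exact (continuous_const.mul continuous_subtype_val).mul continuous_const

theorem conjτ_mem_SA {B : SkewH E V} (τ : AntiU B) {X : Module.End E V} (hX : X ∈ SA B) :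
    conjτ τ X ∈ SA B := by
  apply sa_of_adj
  rw [adj_conjτ, sa_adj B hX]

variable (F) in
/-- conjugation by `τ` on self-adjoint operators -/
def saTau {B : SkewH E V} (τ : AntiU B) : SA B ≃ₜ SA B where
  toFun X := ⟨conjτ τ X.1, conjτ_mem_SA τ X.2⟩
  invFun X := ⟨conjτ τ X.1, conjτ_mem_SA τ X.2⟩
  left_inv X := Subtype.ext (conjτ_conjτ τ X.1)
  right_inv X := Subtype.ext (conjτ_conjτ τ X.1)
  continuous_toFun := ((continuous_conjτ F τ).comp continuous_subtype_val).subtype_mk _
  continuous_invFun := ((continuous_conjτ F τ).comp continuous_subtype_val).subtype_mk _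

variable (F) in
/-- `τ` as a homeomorphism -/
def tauH {B : SkewH E V} (τ : AntiU B) : V ≃ₜ V where
  toFun := τ.t
  invFun := τ.t
  left_inv := τ.inv
  right_inv := τ.inv
  continuous_toFun := continuous_tau F τ
  continuous_invFun := continuous_tau F τ

/-- the action of `h ∈ U(V)` on `SF (SA × V) ℂ`: `f ↦ ((X, v) ↦ f (h X h⁻¹, h v))` -/
def linAct (B : SkewH E V) (h : UU B) : SF (SA B × V) ℂ →ₗ[ℂ] SF (SA B × V) ℂ :=
  SF.comp ((saConj B h).prodCongr (gvHomeo h.1))

variable (F) in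
/-- the action of `τ` on `SF (SA × V) ℂ`: `f ↦ ((X, v) ↦ f (τ X τ⁻¹, τ v))` -/
def linTau {B : SkewH E V} (τ : AntiU B) : SF (SA B × V) ℂ →ₗ[ℂ] SF (SA B × V) ℂ :=
  SF.comp ((saTau F τ).prodCongr (tauH F τ))

/-- a monic irreducible `q ∈ F[x]` with `q(0) ≠ 0` is bad if it stays irreducible over `E` and
the norm `(-1)^d q(0)` of its root is not a norm from `E` -/
def Bad (F E : Type u) [Field F] [Field E] [Algebra F E] [StarRing E] (q : F[X]) : Prop :=
  q.Monic ∧ Irreducible (q.map (algebraMap F E)) ∧ q.coeff 0 ≠ 0 ∧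
    ¬ IsNorm F E ((-1) ^ q.natDegree * q.coeff 0)

end

end

end Pool.Agent.Work.MP_dd0ddf_al
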