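import Pool.Agent.Work.MP_dd0ddf_al.GaussDefs

/-!
# MP_dd0ddf_al, module GaussSL2: the basic identity for quadratic chirps

With `M_c` = multiplication by `ψ(½ c b(v,v))`, `𝓕 = four1 (β.bi p)`, `𝓕* = four1 (β.bi p).dual`:
`M_{1/c} 𝓕 M_c 𝓕* M_{1/c} g (u) = κ(c β) (𝓕 g)(u/c)`.
Proof.  Fix `g`, `u`.  `h = M_{1/c} g`, `(𝓕* h)(v) = ∫ h(w) ψ(-b(w,v)) dw` has compact support; for a large compact open subgroup `L` containing this
support: `(𝓕 M_c 𝓕* h)(u) = ∫_L ψ(½ c b(v,v)) ψ(b(v,u)) ∫ h(w) ψ(-b(v,w)) dw dv = ∫ h(w) [∫_L ψ(½ c b(v,v) + b(v,u-w)) dv] dw` (Fubini for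
finite sums: `h` is a finite combination of `single`, or use `exists_fubini` both ways) and, for `L` large, the bracket is (kap_spec for `c β`, with
`y = (u-w)/c`, `w` in the compact support of `h`) `κ(cβ) ψ(-½ b(u-w,u-w)/c)`.  Multiply by `ψ(½ b(u,u)/c)` and use
`½ b(u,u) + ½ b(w,w) - ½ b(u-w,u-w) = b(u,w)`.
`kap_ne_zero`: the left side is an injective operator (c = 1, four_inv).
-/

set_option linter.unusedSectionVars false
set_option linter.style.haveILetI false

namespace Pool.Agent.Work.MP_dd0ddf_al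

noncomputable section

universe u

variable {F : Type u} [NontriviallyNormedField F] [IsUltrametricDist F] [ProperSpace F]
  [CharZero F]
variable {U : Type u} [AddCommGroup U] [Module F U] [Module.Finite F U] [TopologicalSpace U]
  [IsTopologicalAddGroup U] [T2Space U] [ContinuousSMul F U] [LocallyCompactSpace U]
  [TotallyDisconnectedSpace U]
variable {U' : Type u} [AddCommGroup U'] [Module F U'] [Module.Finite F U'] [TopologicalSpace U']
  [IsTopologicalAddGroup U'] [T2Space U'] [ContinuousSMul F U'] [LocallyCompactSpace U']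
  [TotallyDisconnectedSpace U']

/-- multiplication by `ψ(½ b(v,v))` -/
def chirp (β : SForm F U) (p : PChar F) : SF U ℂ →ₗ[ℂ] SF U ℂ :=
  SF.mulc (fun v => p.ψ (2⁻¹ * β.b v v)) (β.lcq p)

/-- the product of two functions of different variables -/
private def gausssl2T (f h : SF U ℂ) : SF (U × U) ℂ :=
  ⟨fun q => f q.1 * h q.2,
    (f.2.1.comp_continuous continuous_fst).comp₂ (h.2.1.comp_continuous continuous_snd) (· * ·),
    HasCompactSupport.intro (f.2.2.prod h.2.2) (by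
      intro q hq
      by_contra hne
      apply hq
      refine ⟨subset_tsupport _ ?_, subset_tsupport _ ?_⟩
      · intro h0
        have h1 : f q.1 = 0 := h0
        exact hne (by rw [h1, zero_mul])
      · intro h0
        have h1 : h q.2 = 0 := h0
        exact hne (by rw [h1, mul_zero]))⟩

private theorem gausssl2T_apply (f h : SF U ℂ) (v w : U) : gausssl2T f h (v, w) = f v * h w := rfl

/-- change of the order of integration -/
private theorem gausssl2_swap (f : SF (U × U) ℂ) (g1 g2 : SF U ℂ)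
    (h1 : ∀ x, g1 x = hI (SF.slice x f))
    (h2 : ∀ x, g2 x = hI (SF.slice x (SF.comp (Homeomorph.prodComm U U) f))) :
    hI g1 = hI g2 := by
  obtain ⟨c, hc, hvolp, hfub⟩ := exists_fubini (G := U) (G' := U)
  set α : TAut (U × U) := ⟨Homeomorph.prodComm U U, fun x y => rfl⟩ with hα
  have e1 := hfub f g1 h1
  have e2 := hfub (SF.comp (Homeomorph.prodComm U U) f) g2 h2
  have hm : hmod α = 1 := by
    obtain ⟨N, hNo, hNc, -⟩ := exists_co_addSubgroup (Set.univ : Set U) isOpen_univ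
      (Set.mem_univ 0)
    have hK : IsCompact ((N : Set U) ×ˢ (N : Set U)) := hNc.prod hNc
    have hK' : IsOpen ((N : Set U) ×ˢ (N : Set U)) := hNo.prod hNo
    have h3 := hI_comp_aut α (SF.single _ hK hK' (1 : ℂ))
    have h4 : SF.comp α.h (SF.single _ hK hK' (1 : ℂ)) = SF.single _ hK hK' (1 : ℂ) := by
      apply SF.ext
      rintro ⟨v, w⟩
      have e3 : SF.comp α.h (SF.single _ hK hK' (1 : ℂ)) (v, w) =
          SF.single _ hK hK' (1 : ℂ) (w, v) := rfl
      rw [e3]
      by_cases hvw : v ∈ N ∧ w ∈ N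
      · rw [SF.single_apply_mem _ _ _ _ _ (show (w, v) ∈ (N : Set U) ×ˢ (N : Set U) from
          ⟨hvw.2, hvw.1⟩), SF.single_apply_mem _ _ _ _ _ (show (v, w) ∈ (N : Set U) ×ˢ (N : Set U)
          from ⟨hvw.1, hvw.2⟩)]
      · rw [SF.single_apply_not_mem _ _ _ _ _ (show (w, v) ∉ (N : Set U) ×ˢ (N : Set U) from
          fun h => hvw ⟨h.2, h.1⟩), SF.single_apply_not_mem _ _ _ _ _
          (show (v, w) ∉ (N : Set U) ×ˢ (N : Set U) from fun h => hvw ⟨h.1, h.2⟩)]
    rw [h4, hI_single, smul_eq_mul, smul_eq_mul, mul_one] at h3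
    have hne : ((hvol ((N : Set U) ×ˢ (N : Set U)) : ℝ) : ℂ) ≠ 0 := by
      have := hvol_pos _ hK hK' ⟨(0, 0), N.zero_mem, N.zero_mem⟩
      exact_mod_cast this.ne'
    have h5 : ((hmod α : ℝ) : ℂ) = 1 := by
      refine mul_right_cancel₀ hne ?_
      rw [one_mul]; exact h3.symm
    exact_mod_cast h5
  have e3 := hI_comp_aut α f
  rw [hm, Complex.ofReal_one, one_smul] at e3
  have e4 : hI (SF.comp (Homeomorph.prodComm U U) f) = hI f := e3
  rw [e4, e1] at e2
  have hc' : (c : ℂ) ≠ 0 := by exact_mod_cast hc.ne'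
  exact mul_left_cancel₀ hc' e2

private theorem gausssl2_star {F : Type*} [AddCommGroup F] [TopologicalSpace F] (p : PChar F)
    (x : F) : star (p.ψ x) = p.ψ (-x) := by
  have h1 : p.ψ x * p.ψ (-x) = 1 := by
    rw [← p.add, add_neg_cancel, gaussdefs_psi_zero p]
  have h2 : p.ψ x * star (p.ψ x) = 1 := by
    have h3 := Complex.mul_conj (p.ψ x)
    rw [Complex.normSq_eq_norm_sq, p.norm_one] at h3
    rw [show star (p.ψ x) = (starRingEnd ℂ) (p.ψ x) from rfl, h3]
    norm_num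
  have h4 : p.ψ x ≠ 0 := by
    intro h0
    rw [h0, zero_mul] at h1
    exact zero_ne_one h1
  exact mul_left_cancel₀ h4 (h2.trans h1.symm)

theorem sl2_identity (β : SForm F U) (p : PChar F) (c : F) (hc : c ≠ 0) (g : SF U ℂ) :
    chirp (β.scale c⁻¹ (inv_ne_zero hc)) p (four1 (β.bi p) (chirp (β.scale c hc) p
      (four1 (β.bi p).dual (chirp (β.scale c⁻¹ (inv_ne_zero hc)) p g)))) =
      kap (β.scale c hc) p • SF.comp (dil U c⁻¹ (inv_ne_zero hc)).h (four1 (β.bi p) g) := by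
  apply SF.ext
  intro u
  set h : SF U ℂ := chirp (β.scale c⁻¹ (inv_ne_zero hc)) p g with hh
  set Fh : SF U ℂ := four1 (β.bi p).dual h with hFh
  have hneg_r : ∀ v w, β.b v (-w) = - β.b v w := by
    intro v w
    have := β.smul_right (-1) v w
    rwa [neg_one_smul, neg_one_mul] at this
  have hneg_l : ∀ v w, β.b (-v) w = - β.b v w := by
    intro v w
    rw [β.symm, hneg_r, β.symm]
  -- compact sets
  have hcF : IsCompact {v | Fh v ≠ 0} := by
    refine Fh.2.2.of_isClosed_subset ?_ (subset_tsupport _)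
    rw [← isOpen_compl_iff]
    have : {v | Fh v ≠ 0}ᶜ = Fh.1 ⁻¹' {0} := by
      ext v
      simp
    rw [this]
    exact Fh.2.1 {0}
  have hch : IsCompact {v | h v ≠ 0} := by
    refine h.2.2.of_isClosed_subset ?_ (subset_tsupport _)
    rw [← isOpen_compl_iff]
    have : {v | h v ≠ 0}ᶜ = h.1 ⁻¹' {0} := by
      ext v
      simp
    rw [this]
    exact h.2.1 {0}
  have hKc : IsCompact ((fun w => c⁻¹ • (u - w)) '' {v | h v ≠ 0}) :=
    hch.image (by fun_prop)
  obtain ⟨L0, hL0o, hL0c, hL0s⟩ := kap_spec (β.scale c hc) p _ hKc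
  obtain ⟨L, hLo, hLc, hLs⟩ := uc_U F U _ (hL0c.union hcF)
  have hL0L : L0 ≤ L := fun x hx => hLs (Or.inl hx)
  have hFL : ∀ v, Fh v ≠ 0 → v ∈ L := fun v hv => hLs (Or.inr hv)
  -- the function of two variables
  set A : SF U ℂ := gfun (β.scale c hc) p L hLo hLc (c⁻¹ • u) with hA
  have hA_apply : ∀ v, A v = p.ψ (2⁻¹ * (c * β.b v v)) * (p.ψ (β.b v u) *
      SF.single (L : Set U) hLc hLo (1 : ℂ) v) := by
    intro v
    rw [hA, gaussdefs_apply]
    have e1 : (β.scale c hc).b v (c⁻¹ • u) = β.b v u := by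
      show c * β.b v (c⁻¹ • u) = _
      rw [β.smul_right, ← mul_assoc, mul_inv_cancel₀ hc, one_mul]
    rw [e1]
    rfl
  have hlcd : IsLocallyConstant (fun q : U × U => (β.bi p).dual.χ q.2 q.1) :=
    ((β.bi p).dual.lc).comp_continuous continuous_swap
  set Φ : SF (U × U) ℂ := SF.mulc (fun q : U × U => (β.bi p).dual.χ q.2 q.1) hlcd
    (gausssl2T A h) with hΦ
  have hΦ_apply : ∀ v w, Φ (v, w) = (β.bi p).dual.χ w v * (A v * h w) := fun v w => rfl
  have hdual : ∀ v w, (β.bi p).dual.χ w v = p.ψ (-(β.b v w)) := by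
    intro v w
    show star (p.ψ (β.b v w)) = _
    rw [gausssl2_star]
  -- first order of integration
  set g1 : SF U ℂ := SF.mulc (fun v => (β.bi p).χ v u) ((β.bi p).lcl u)
    (chirp (β.scale c hc) p Fh) with hg1
  have h1 : ∀ v, g1 v = hI (SF.slice v Φ) := by
    intro v
    have e1 : SF.slice v Φ = A v • SF.mulc (fun w => (β.bi p).dual.χ w v)
        ((β.bi p).dual.lcl v) h := by
      apply SF.ext
      intro w
      have e2 : SF.slice v Φ w = Φ (v, w) := rfl
      have e3 : (A v • SF.mulc (fun w => (β.bi p).dual.χ w v) ((β.bi p).dual.lcl v) h : SF U ℂ) w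
          = A v * ((β.bi p).dual.χ w v * h w) := rfl
      rw [e2, e3, hΦ_apply]
      ring
    rw [e1, map_smul, smul_eq_mul]
    have e4 : hI (SF.mulc (fun w => (β.bi p).dual.χ w v) ((β.bi p).dual.lcl v) h) = Fh v := by
      rw [hFh, four1_apply]
      rfl
    rw [e4, hA_apply]
    have e5 : g1 v = p.ψ (β.b v u) * (p.ψ (2⁻¹ * (c * β.b v v)) * Fh v) := rfl
    rw [e5]
    by_cases hv : Fh v = 0
    · rw [hv]; ring
    · rw [SF.single_apply_mem _ _ _ _ _ (hFL v hv)]
      ring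
  -- second order
  have hlq : IsLocallyConstant (fun w : U => p.ψ (-(2⁻¹ * (c⁻¹ * β.b (u - w) (u - w))))) := by
    refine p.lc.comp_continuous ?_
    have hcu : Continuous (fun w : U => (u - w, u - w)) :=
      (continuous_const.sub continuous_id).prodMk (continuous_const.sub continuous_id)
    exact (continuous_const.mul (continuous_const.mul (β.continuous.comp hcu))).neg
  set g2 : SF U ℂ := kap (β.scale c hc) p • SF.mulc
    (fun w : U => p.ψ (-(2⁻¹ * (c⁻¹ * β.b (u - w) (u - w))))) hlq h with hg2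
  have h2 : ∀ w, g2 w = hI (SF.slice w (SF.comp (Homeomorph.prodComm U U) Φ)) := by
    intro w
    have e1 : SF.slice w (SF.comp (Homeomorph.prodComm U U) Φ) =
        h w • gfun (β.scale c hc) p L hLo hLc (c⁻¹ • (u - w)) := by
      apply SF.ext
      intro v
      have e2 : SF.slice w (SF.comp (Homeomorph.prodComm U U) Φ) v = Φ (v, w) := rfl
      have e3 : (h w • gfun (β.scale c hc) p L hLo hLc (c⁻¹ • (u - w)) : SF U ℂ) v =
          h w * gfun (β.scale c hc) p L hLo hLc (c⁻¹ • (u - w)) v := rfl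
      have e4 : (β.scale c hc).b v (c⁻¹ • (u - w)) = β.b v u + -(β.b v w) := by
        show c * β.b v (c⁻¹ • (u - w)) = _
        rw [β.smul_right, ← mul_assoc, mul_inv_cancel₀ hc, one_mul, sub_eq_add_neg, β.add_right,
          hneg_r]
      have e5 : (β.scale c hc).b v v = c * β.b v v := rfl
      rw [e2, e3, hΦ_apply, hdual, hA_apply, gaussdefs_apply, e4, p.add, e5]
      ring
    rw [e1, map_smul, smul_eq_mul]
    have e6 : g2 w = kap (β.scale c hc) p *
        (p.ψ (-(2⁻¹ * (c⁻¹ * β.b (u - w) (u - w)))) * h w) := rfl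
    rw [e6]
    by_cases hw : h w = 0
    · rw [hw]; ring
    · rw [hL0s L hLo hLc hL0L (c⁻¹ • (u - w)) ⟨w, hw, rfl⟩]
      have e7 : (β.scale c hc).b (c⁻¹ • (u - w)) (c⁻¹ • (u - w)) =
          c⁻¹ * β.b (u - w) (u - w) := by
        show c * β.b (c⁻¹ • (u - w)) (c⁻¹ • (u - w)) = _
        rw [β.smul_right, β.smul_left]
        field_simp
      rw [e7]
      ring
  have key := gausssl2_swap Φ g1 g2 h1 h2
  -- the left side
  have hL1 : (chirp (β.scale c⁻¹ (inv_ne_zero hc)) p (four1 (β.bi p)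
      (chirp (β.scale c hc) p Fh))) u = p.ψ (2⁻¹ * (c⁻¹ * β.b u u)) * hI g1 := by
    have e1 : (chirp (β.scale c⁻¹ (inv_ne_zero hc)) p (four1 (β.bi p)
        (chirp (β.scale c hc) p Fh))) u = p.ψ (2⁻¹ * (c⁻¹ * β.b u u)) *
        (four1 (β.bi p) (chirp (β.scale c hc) p Fh)) u := rfl
    rw [e1, four1_apply]
    rfl
  have hR1 : (kap (β.scale c hc) p • SF.comp (dil U c⁻¹ (inv_ne_zero hc)).h
      (four1 (β.bi p) g) : SF U ℂ) u = kap (β.scale c hc) p *
        hI (SF.mulc (fun v => (β.bi p).χ v (c⁻¹ • u)) ((β.bi p).lcl (c⁻¹ • u)) g) := by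
    have e1 : (kap (β.scale c hc) p • SF.comp (dil U c⁻¹ (inv_ne_zero hc)).h
      (four1 (β.bi p) g) : SF U ℂ) u = kap (β.scale c hc) p *
        (four1 (β.bi p) g) (c⁻¹ • u) := rfl
    rw [e1, four1_apply]
    rfl
  rw [hL1, hR1, key, hg2, map_smul, smul_eq_mul, ← mul_assoc, mul_comm (p.ψ _), mul_assoc]
  congr 1
  rw [← smul_eq_mul, ← map_smul]
  congr 1
  apply SF.ext
  intro w
  have e1 : (p.ψ (2⁻¹ * (c⁻¹ * β.b u u)) • SF.mulc
      (fun w : U => p.ψ (-(2⁻¹ * (c⁻¹ * β.b (u - w) (u - w))))) hlq h : SF U ℂ) w =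
      p.ψ (2⁻¹ * (c⁻¹ * β.b u u)) * (p.ψ (-(2⁻¹ * (c⁻¹ * β.b (u - w) (u - w)))) *
        (p.ψ (2⁻¹ * (c⁻¹ * β.b w w)) * g w)) := rfl
  have e2 : (SF.mulc (fun v => (β.bi p).χ v (c⁻¹ • u)) ((β.bi p).lcl (c⁻¹ • u)) g) w =
      p.ψ (β.b w (c⁻¹ • u)) * g w := rfl
  rw [e1, e2, ← mul_assoc, ← mul_assoc, ← p.add, ← p.add]
  congr 2
  rw [β.smul_right, sub_eq_add_neg, β.add_left, β.add_right, β.add_right, hneg_l, hneg_l, hneg_r,
    hneg_r, β.symm u w]
  have h2' : (2 : F) ≠ 0 := two_ne_zero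
  field_simp
  ring

theorem kap_ne_zero (β : SForm F U) (p : PChar F) : kap β p ≠ 0 := by
  intro h0
  have hs : β.scale 1 one_ne_zero = β := by
    cases β
    simp [SForm.scale]
  obtain ⟨N, hNo, hNc, -⟩ := exists_co_addSubgroup (Set.univ : Set U) isOpen_univ
    (Set.mem_univ 0)
  set g : SF U ℂ := SF.single (N : Set U) hNc hNo (1 : ℂ) with hg
  have h1 := sl2_identity β p 1 one_ne_zero g
  rw [hs, h0, zero_smul] at h1
  have hψ : ∀ x, p.ψ x ≠ 0 := by
    intro x hx
    have := p.norm_one x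
    rw [hx, norm_zero] at this
    exact zero_ne_one this
  have hinj : ∀ (γ : SForm F U) (f : SF U ℂ), chirp γ p f = 0 → f = 0 := by
    intro γ f hf
    apply SF.ext
    intro v
    have h2 : (chirp γ p f) v = 0 := by rw [hf]; rfl
    have h3 : (chirp γ p f) v = p.ψ (2⁻¹ * γ.b v v) * f v := rfl
    rw [h3] at h2
    exact (mul_eq_zero.1 h2).resolve_left (hψ _)
  have hC : ((fourC (β.bi p) (uc_U F U) : ℝ) : ℂ) ≠ 0 := by
    exact_mod_cast (fourC_pos (β.bi p) (uc_U F U)).ne'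
  have hf1 : ∀ f : SF U ℂ, four1 (β.bi p) f = 0 → f = 0 := by
    intro f hf
    have h2 := four_inv (β.bi p) (uc_U F U) f
    rw [hf, map_zero] at h2
    exact (smul_eq_zero.1 h2.symm).resolve_left hC
  have hf2 : ∀ f : SF U ℂ, four1 (β.bi p).dual f = 0 → f = 0 := by
    intro f hf
    have h2 := four_inv' (β.bi p) (uc_U F U) f
    rw [hf, map_zero] at h2
    exact (smul_eq_zero.1 h2.symm).resolve_left hC
  have h2 := hinj _ _ (hf2 _ (hinj _ _ (hf1 _ (hinj _ _ h1))))
  have h3 : g 0 = 0 := by rw [h2]; rfl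
  rw [hg, SF.single_apply_mem _ _ _ _ _ N.zero_mem] at h3
  exact one_ne_zero h3

end

end Pool.Agent.Work.MP_dd0ddf_al
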