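import Pool.Agent.Work.MP_dd0ddf_al.KForm
import Pool.Agent.Work.MP_dd0ddf_al.NiGauss
import Pool.Agent.Work.MP_dd0ddf_al.Gauss71
import Pool.Agent.Work.MP_dd0ddf_al.LinChar

/-!
# MP_dd0ddf_al, module K64: functoriality of norms: c ∈ K^× is a norm from L iff N_{K/F}(c) is a norm from E (6.4)

(If c = N_{L/K}(z) then N_{K/F}(c) = N_{E/F}(N_{L/E} z) is a norm.)
Both signs: let `s_K(c) = ±1` (+1 iff norm from L), `s_F` similarly (multiplicative, NiMain).  `p_K = p.ext K`.
(1) `κ_K(nform K L c; p_K) = s_K(c)·positive·κ_K(nform K L 1; p_K)` (kap_norm, kap_nonnorm over K).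
(2) On the F-space `L` consider the symmetric F-form `b_c(x, y) = Tr_{E/F} Tr_{L/E}(c x star y)` `= Tr_{K/F}(c Tr_{L/K}(x star y))` (kc_trace).  `κ_F(b_c; p) = κ_K(nform K L c; p_K)`: both are regularised integrals of the same function on the same
group L (kap_spec for both, with a common large subgroup).
(3) `h_c(x,y) = Tr_{L/E}(c x star y)` is a nondegenerate Hermitian form over E on `L ≅ E^d`; choose an orthogonal E-basis (multiply by η and use exists_ortho), `h_c(e_i,e_i) = a_i ∈ F^×`; then `b_c ≅ ⊕ nform F E a_i` and by kap_isom, kap_prod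
`κ_F(b_c; p) = positive · ∏ κ(nform F E a_i) = positive · s_F(∏ a_i) κ(nform F E 1)^d`.
(4) `∏ a_i` = Gram determinant of `h_c` in an orthogonal basis = (norm from E) × (Gram determinant in the basis kc_basis) = (norm) × N_{L/E}(c) × D1 = (norm) × N_{K/F}(c) × D1, D1 ∈ F^× independent of c (kc_norm_K).
So `s_K(c) = s_F(N_{K/F}(c))` by comparing c and 1.
-/

set_option linter.unusedSectionVars false
set_option linter.style.haveILetI false

namespace Pool.Agent.Work.MP_dd0ddf_al

noncomputable section

universe u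

/-! ## generic facts -/

private theorem k64_trace_star {F E : Type u} [Field F] [Field E] [Algebra F E] [StarRing E]
    [QExt F E] (x : E) : Algebra.trace F E (star x) = Algebra.trace F E x :=
  Algebra.trace_eq_of_algEquiv
    ({ toFun := star
       invFun := star
       left_inv := star_star
       right_inv := star_star
       map_mul' := fun x y => by rw [star_mul']
       map_add' := fun x y => star_add x y
       commutes' := fun a => QExt.star_alg a } : E ≃ₐ[F] E) x

private theorem k64_trace_nd {F E : Type u} [Field F] [CharZero F] [Field E] [Algebra F E]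
    [FiniteDimensional F E] (x : E) (h : ∀ y : E, Algebra.trace F E (x * y) = 0) :
    x = 0 := by
  have hnd := traceForm_nondegenerate F E
  refine hnd.1 x fun y => ?_
  rw [Algebra.traceForm_apply]
  exact h y

/-- `Tr_{E/F}(η⁻¹ B(v,w))` -/
private def k64F {F E : Type u} [Field F] [CharZero F] [Field E] [Algebra F E] [StarRing E]
    [QExt F E] {V : Type u} [AddCommGroup V] [Module E V] [Module F V] [IsScalarTower F E V]
    (B : SkewH E V) (η : E) (hη : η ≠ 0) (hs : star η = -η) : SForm F V where
  b v w := Algebra.trace F E (η⁻¹ * B.ip v w)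
  add_left u v w := by rw [B.add_left, mul_add, map_add]
  smul_left a v w := by
    rw [← algebraMap_smul E a v, B.smul_left, mul_left_comm, ← Algebra.smul_def, map_smul,
      smul_eq_mul]
  symm v w := by
    rw [← k64_trace_star (F := F) (η⁻¹ * B.ip v w), star_mul', star_inv₀, hs, B.skew v w]
    congr 1
    rw [inv_neg]
    ring
  nondeg v h := by
    haveI : FiniteDimensional F E := qext_findim F E
    apply B.nondeg
    intro w
    have h1 : η⁻¹ * B.ip v w = 0 := by
      apply k64_trace_nd (F := F)
      intro y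
      have h2 := h (star y • w)
      rw [B.smul_right, star_star] at h2
      rw [← h2]
      congr 1
      ring
    exact (mul_eq_zero.1 h1).resolve_left (inv_ne_zero hη)

/-- the diagonal form `∑ a_i Tr(x_i star y_i)` -/
private def k64D {F E : Type u} [Field F] [CharZero F] [Field E] [Algebra F E] [StarRing E]
    [QExt F E] {m : ℕ} (a : Fin m → F) (ha : ∀ i, a i ≠ 0) : SForm F (Fin m → E) where
  b x y := ∑ i, a i * Algebra.trace F E (x i * star (y i))
  add_left u v w := by
    rw [← Finset.sum_add_distrib]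
    refine Finset.sum_congr rfl fun i _ => ?_
    rw [Pi.add_apply, add_mul, map_add, mul_add]
  smul_left c v w := by
    rw [Finset.mul_sum]
    refine Finset.sum_congr rfl fun i _ => ?_
    rw [Pi.smul_apply, Algebra.smul_mul_assoc, map_smul, smul_eq_mul]
    ring
  symm x y := by
    refine Finset.sum_congr rfl fun i _ => ?_
    rw [← k64_trace_star (x i * star (y i)), star_mul', star_star, mul_comm (star (x i)) (y i)]
  nondeg x h := by
    classical
    haveI : FiniteDimensional F E := qext_findim F E
    funext i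
    apply k64_trace_nd (F := F)
    intro y
    have h1 := h (Pi.single i (star y))
    rw [Finset.sum_eq_single i, Pi.single_eq_same, star_star] at h1
    · exact (mul_eq_zero.1 h1).resolve_left (ha i)
    · intro j _ hj
      rw [Pi.single_eq_of_ne hj, star_zero, mul_zero, map_zero, mul_zero]
    · intro hi
      exact absurd (Finset.mem_univ i) hi

/-- splitting off the first coordinate -/
private def k64C (F E : Type u) [Field F] [Field E] [Algebra F E] (m : ℕ) :
    (Fin (m + 1) → E) ≃ₗ[F] (E × (Fin m → E)) where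
  toFun f := (f 0, fun i => f i.succ)
  invFun q := Fin.cons q.1 q.2
  map_add' _ _ := rfl
  map_smul' _ _ := rfl
  left_inv f := by
    funext i
    refine Fin.cases ?_ (fun j => ?_) i
    · rfl
    · rfl
  right_inv q := rfl

/-- the skew-Hermitian form `∑ a_i x_i star y_i` in the coordinates of a basis, `star a_i = - a_i` -/
private def k64B {E V : Type*} [Field E] [StarRing E] [AddCommGroup V] [Module E V] {n : ℕ}
    (b : Module.Basis (Fin n) E V) (a : Fin n → E) (ha : ∀ i, a i ≠ 0)
    (hs : ∀ i, star (a i) = - a i) : SkewH E V where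
  ip v w := ∑ i, a i * (b.repr v i * star (b.repr w i))
  add_left u v w := by
    rw [← Finset.sum_add_distrib]
    refine Finset.sum_congr rfl fun i _ => ?_
    rw [map_add, Finsupp.add_apply]
    ring
  smul_left c v w := by
    rw [Finset.mul_sum]
    refine Finset.sum_congr rfl fun i _ => ?_
    rw [map_smul, Finsupp.smul_apply, smul_eq_mul]
    ring
  skew v w := by
    rw [star_sum, ← Finset.sum_neg_distrib]
    refine Finset.sum_congr rfl fun i _ => ?_
    rw [star_mul', star_mul', star_star, hs]
    ring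
  nondeg v h := by
    classical
    apply b.repr.injective
    rw [map_zero]
    ext i
    rw [Finsupp.zero_apply]
    have h1 := h (b i)
    rw [Finset.sum_eq_single i, b.repr_self, Finsupp.single_eq_same, star_one, mul_one] at h1
    · exact (mul_eq_zero.1 h1).resolve_left (ha i)
    · intro j _ hj
      rw [b.repr_self, Finsupp.single_eq_of_ne hj, star_zero, mul_zero, mul_zero]
    · intro hi
      exact absurd (Finset.mem_univ i) hi

private theorem k64B_apply {E V : Type*} [Field E] [StarRing E] [AddCommGroup V] [Module E V]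
    {n : ℕ} (b : Module.Basis (Fin n) E V) (a : Fin n → E) (ha : ∀ i, a i ≠ 0)
    (hs : ∀ i, star (a i) = - a i) (i j : Fin n) :
    (k64B b a ha hs).ip (b i) (b j) = if i = j then a i else 0 := by
  classical
  show ∑ k, a k * (b.repr (b i) k * star (b.repr (b j) k)) = _
  rw [Finset.sum_eq_single i]
  · rw [b.repr_self, Finsupp.single_eq_same, b.repr_self]
    by_cases hij : i = j
    · subst hij
      rw [Finsupp.single_eq_same, if_pos rfl, star_one, mul_one, mul_one]
    · rw [Finsupp.single_eq_of_ne hij, if_neg hij, star_zero, mul_zero, mul_zero]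
  · intro k _ hk
    rw [b.repr_self, Finsupp.single_eq_of_ne hk, zero_mul, mul_zero]
  · intro hi
    exact absurd (Finset.mem_univ i) hi

private theorem k64_sum {E V : Type*} [Field E] [StarRing E] [AddCommGroup V] [Module E V]
    (B : SkewH E V) {n : ℕ} (b : Module.Basis (Fin n) E V)
    (h0 : ∀ i j, i ≠ j → B.ip (b i) (b j) = 0) (v w : V) :
    B.ip v w = ∑ i, B.ip (b i) (b i) * (b.repr v i * star (b.repr w i)) := by
  classical
  have hsum_l : ∀ (s : Finset (Fin n)) (f : Fin n → E) (w : V),
      B.ip (∑ j ∈ s, f j • b j) w = ∑ j ∈ s, f j * B.ip (b j) w := by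
    intro s f w
    have h := map_sum (B.lin w) (fun j => f j • b j) s
    simp only [map_smul] at h
    exact h
  have hsum_r : ∀ (s : Finset (Fin n)) (f : Fin n → E) (v : V),
      B.ip v (∑ j ∈ s, f j • b j) = ∑ j ∈ s, star (f j) * B.ip v (b j) := by
    intro s f v
    rw [B.skew _ v, hsum_l, star_sum, ← Finset.sum_neg_distrib]
    refine Finset.sum_congr rfl fun j _ => ?_
    rw [star_mul', B.skew (b j) v]
    ring
  conv_lhs => rw [← b.sum_repr v]
  rw [hsum_l]
  refine Finset.sum_congr rfl fun i _ => ?_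
  conv_lhs => rw [← b.sum_repr w]
  rw [hsum_r, Finset.sum_eq_single i]
  · ring
  · intro j _ hj
    rw [h0 i j (Ne.symm hj), mul_zero]
  · intro hi
    exact absurd (Finset.mem_univ i) hi

variable {F E : Type u} [NontriviallyNormedField F] [IsUltrametricDist F] [ProperSpace F]
  [CharZero F] [NontriviallyNormedField E] [NormedAlgebra F E] [ProperSpace E] [StarRing E]
  [QExt F E] 

section sgn

variable {V : Type u} [AddCommGroup V] [Module E V] [Module.Finite E V] [Module F V]
  [IsScalarTower F E V] [Module.Finite F V] [TopologicalSpace V]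
  [IsTopologicalAddGroup V] [T2Space V] [ContinuousSMul F V] [LocallyCompactSpace V]
  [TotallyDisconnectedSpace V]

/-- isometric skew-Hermitian forms -/
private theorem k64_pos (B B' : SkewH E V) (η : E) (hη : η ≠ 0) (hs : star η = -η) (p : PChar F)
    (φ : V ≃ₗ[E] V) (hφ : ∀ v w, B'.ip (φ v) (φ w) = B.ip v w) :
    ∃ m : ℝ, 0 < m ∧ kap (k64F (F := F) B η hη hs) p = m * kap (k64F (F := F) B' η hη hs) p := by
  obtain ⟨m, hm, h⟩ := kap_isom (φ.restrictScalars F)
  refine ⟨m, hm, h _ _ p fun v w => ?_⟩
  show Algebra.trace F E (η⁻¹ * B'.ip (φ v) (φ w)) = Algebra.trace F E (η⁻¹ * B.ip v w)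
  rw [hφ]

/-- change of the first diagonal entry by a non-norm -/
private theorem k64_neg0 {m : ℕ} (b : Module.Basis (Fin (m + 1)) E V) (η : E) (hη : η ≠ 0)
    (hs : star η = -η) (p : PChar F) (t : F) (ht : t ≠ 0) (htn : ¬ IsNorm F E t)
    (a a' : Fin (m + 1) → F) (ha : ∀ i, a i ≠ 0) (h0 : a' 0 = a 0 * t)
    (h1 : ∀ i : Fin m, a' i.succ = a i.succ) (B B' : SkewH E V)
    (hB : ∀ i j, i ≠ j → B.ip (b i) (b j) = 0) (hB' : ∀ i j, i ≠ j → B'.ip (b i) (b j) = 0)
    (hBa : ∀ i, B.ip (b i) (b i) = algebraMap F E (a i) * η)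
    (hBa' : ∀ i, B'.ip (b i) (b i) = algebraMap F E (a' i) * η) :
    ∃ m : ℝ, 0 < m ∧
      kap (k64F (F := F) B' η hη hs) p = -(m : ℂ) * kap (k64F (F := F) B η hη hs) p := by
  classical
  haveI : FiniteDimensional F E := qext_findim F E
  haveI : IsUltrametricDist E := ult_E F
  set α : V ≃ₗ[F] (E × (Fin m → E)) :=
    (b.equivFun.restrictScalars F).trans (k64C F E m) with hα
  have hα1 : ∀ v, (α v).1 = b.repr v 0 := fun _ => rfl
  have hα2 : ∀ v i, (α v).2 i = b.repr v (Fin.succ i) := fun _ _ => rfl
  obtain ⟨m1, hm1, e1⟩ := kap_isom α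
  obtain ⟨m2, hm2, e2⟩ := kap_prod (F := F) (U := E) (U' := Fin m → E)
  have ha' : ∀ i : Fin m, a i.succ ≠ 0 := fun i => ha _
  have key : ∀ (c : F) (hc : c ≠ 0) (a'' : Fin (m + 1) → F) (_ : a'' 0 = c)
      (_ : ∀ i : Fin m, a'' i.succ = a i.succ) (B'' : SkewH E V)
      (_ : ∀ i j, i ≠ j → B''.ip (b i) (b j) = 0)
      (_ : ∀ i, B''.ip (b i) (b i) = algebraMap F E (a'' i) * η),
      kap (k64F (F := F) B'' η hη hs) p = m1 * (m2 * (kap (nform F E c hc) p *
        kap (k64D (F := F) (E := E) (fun i : Fin m => a i.succ) ha') p)) := by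
    intro c hc a'' h3 h4 B'' h5 h6
    rw [← e2]
    apply e1
    intro v w
    show c * Algebra.trace F E ((α v).1 * star (α w).1) +
      ∑ i, a (Fin.succ i) * Algebra.trace F E ((α v).2 i * star ((α w).2 i)) =
      Algebra.trace F E (η⁻¹ * B''.ip v w)
    rw [k64_sum B'' b h5, Finset.mul_sum, map_sum, Fin.sum_univ_succ]
    have h7 : ∀ i : Fin (m + 1), Algebra.trace F E (η⁻¹ * (B''.ip (b i) (b i) *
        (b.repr v i * star (b.repr w i)))) =
        a'' i * Algebra.trace F E (b.repr v i * star (b.repr w i)) := by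
      intro i
      rw [h6, ← smul_eq_mul (a'' i), ← map_smul, Algebra.smul_def]
      congr 1
      field_simp
    rw [h7, h3]
    congr 1
    refine Finset.sum_congr rfl fun i _ => ?_
    rw [h7, h4]
    rfl
  have k1 := key (a 0) (ha 0) a rfl (fun _ => rfl) B hB hBa
  have k2 := key (a 0 * t) (mul_ne_zero (ha 0) ht) a' h0 h1 B' hB' hBa'
  refine ⟨hmod (mulT F t ht), hmod_pos _, ?_⟩
  rw [k2, k1, kap_nonnorm F E p (a 0) t (ha 0) ht htn]
  ring

/-- skew-Hermitian forms whose discriminants differ by a non-norm -/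
private theorem k64_neg {m : ℕ} (b : Module.Basis (Fin (m + 1)) E V) (η : E) (hη : η ≠ 0)
    (hs : star η = -η) (p : PChar F) (t : F) (ht : t ≠ 0) (htn : ¬ IsNorm F E t)
    (B B' : SkewH E V) (c : E) (hc : c ≠ 0)
    (h : (gram B' b).det = algebraMap F E t * (c * star c) * (gram B b).det) :
    ∃ m : ℝ, 0 < m ∧
      kap (k64F (F := F) B' η hη hs) p = -(m : ℂ) * kap (k64F (F := F) B η hη hs) p := by
  classical
  haveI : CharZero E := charZero_of_injective_algebraMap (algebraMap F E).injective
  obtain ⟨v0, hv1, hv2⟩ := exists_ortho B (QExt.nontriv (F := F) (E := E))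
  have hdim : Module.finrank E V = m + 1 := by
    rw [Module.finrank_eq_card_basis b, Fintype.card_fin]
  obtain ⟨v, hv1, hv2⟩ : ∃ v : Module.Basis (Fin (m + 1)) E V,
      (∀ i j, i ≠ j → B.ip (v i) (v j) = 0) ∧ ∀ i, B.ip (v i) (v i) ≠ 0 := by
    rw [← hdim]
    exact ⟨v0, hv1, hv2⟩
  obtain ⟨η', hη'0, hη's, -, hfix', hfix⟩ := exists_eta F E
  have hself : ∀ i, ∃ f : F, B.ip (v i) (v i) * η⁻¹ = algebraMap F E f := by
    intro i
    apply hfix
    rw [star_mul', star_inv₀, hs, inv_neg]
    have h1 := B.skew (v i) (v i)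
    have h2 : star (B.ip (v i) (v i)) = - B.ip (v i) (v i) := by
      rw [eq_neg_iff_add_eq_zero, add_comm]
      nth_rewrite 1 [h1]
      rw [neg_add_cancel]
    rw [h2]
    ring
  choose a ha using hself
  have hBa : ∀ i, B.ip (v i) (v i) = algebraMap F E (a i) * η := by
    intro i
    rw [← ha]
    field_simp
  have ha0 : ∀ i, a i ≠ 0 := by
    intro i h0
    apply hv2 i
    rw [hBa, h0, map_zero, zero_mul]
  set a' : Fin (m + 1) → F := fun i => if i = 0 then a 0 * t else a i with ha'
  have ha'0 : ∀ i, a' i ≠ 0 := by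
    intro i
    rw [ha']
    simp only
    split_ifs
    · exact mul_ne_zero (ha0 0) ht
    · exact ha0 i
  set B'' : SkewH E V := k64B v (fun i => algebraMap F E (a' i) * η)
    (fun i => mul_ne_zero ((map_ne_zero _).2 (ha'0 i)) hη)
    (fun i => by rw [star_mul', QExt.star_alg, hs, mul_neg]) with hB''
  have hBb : ∀ i j, B''.ip (v i) (v j) = if i = j then algebraMap F E (a' i) * η else 0 :=
    fun i j => k64B_apply v _ _ _ i j
  have hB''0 : ∀ i j, i ≠ j → B''.ip (v i) (v j) = 0 := fun i j hij => by
    rw [hBb, if_neg hij]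
  have hB''a : ∀ i, B''.ip (v i) (v i) = algebraMap F E (a' i) * η := fun i => by
    rw [hBb, if_pos rfl]
  have hdiag : ∀ (C : SkewH E V) (_ : ∀ i j, i ≠ j → C.ip (v i) (v j) = 0),
      (gram C v).det = ∏ i, C.ip (v i) (v i) := by
    intro C hC
    have h3 : gram C v = Matrix.diagonal fun i => C.ip (v i) (v i) := by
      ext i j
      by_cases hij : i = j
      · subst hij
        rw [Matrix.diagonal_apply_eq]
        rfl
      · rw [Matrix.diagonal_apply_ne _ hij]
        exact hC i j hij
    rw [h3, Matrix.det_diagonal]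
  have hd : (gram B'' v).det = algebraMap F E t * (gram B v).det := by
    rw [hdiag B'' hB''0, hdiag B hv1, Fin.prod_univ_succ, Fin.prod_univ_succ, hB''a, hBa]
    have h4 : ∏ i : Fin m, B''.ip (v i.succ) (v i.succ) =
        ∏ i : Fin m, B.ip (v i.succ) (v i.succ) := by
      refine Finset.prod_congr rfl fun i _ => ?_
      rw [hB''a, hBa, ha']
      simp only
      rw [if_neg (Fin.succ_ne_zero i)]
    have h5 : a' 0 = a 0 * t := by rw [ha']; simp
    rw [h4, h5, map_mul]
    ring
  obtain ⟨c1, hc1, e1⟩ := gram_change B v b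
  obtain ⟨φ, hφ⟩ := isometric_of_disc F B'' B' v b (c * c1) (mul_ne_zero hc hc1) (by
    rw [h, e1, hd, star_mul']
    ring)
  obtain ⟨m1, hm1, h5⟩ := k64_pos B'' B' η hη hs p φ hφ
  obtain ⟨m2, hm2, h6⟩ := k64_neg0 v η hη hs p t ht htn a a' ha0 (by rw [ha']; simp) (fun i => by
    rw [ha']
    simp only
    rw [if_neg (Fin.succ_ne_zero i)]) B B'' hv1 hB''0 hBa hB''a
  refine ⟨m2 / m1, div_pos hm2 hm1, ?_⟩
  have hm1' : (m1 : ℂ) ≠ 0 := by exact_mod_cast hm1.ne'
  refine mul_left_cancel₀ hm1' ?_
  rw [← h5, h6]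
  push_cast
  field_simp

end sgn

variable {K L : Type u} [NontriviallyNormedField K] [IsUltrametricDist K] [ProperSpace K]
  [CharZero K] [NontriviallyNormedField L] [NormedAlgebra K L] [ProperSpace L] [StarRing L]
  [QExt K L]  [NormedAlgebra F K] [NormedAlgebra E L]
  [Algebra F L] [KCompat F E K L]

variable (F E K L) in
include F K in
private theorem k64_fdE : FiniteDimensional E L := by
  haveI : FiniteDimensional F K := KCompat.fd (F := F) (E := E) (K := K) (L := L)
  apply FiniteDimensional.of_finrank_pos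
  rw [← KCompat.deg (F := F) (E := E) (K := K) (L := L)]
  exact Module.finrank_pos

/-- the form `η c x star y` on `L` -/
private def k64L (L : Type u) [Field L] [StarRing L] (c : L) (hc : c ≠ 0)
    (hs : star c = -c) : SkewH L L where
  ip x y := c * (x * star y)
  add_left u v w := by ring
  smul_left a v w := by rw [smul_eq_mul]; ring
  skew v w := by rw [star_mul', star_mul', star_star, hs]; ring
  nondeg v h := by
    have h1 := h (star 1)
    rw [star_star, mul_one] at h1
    exact (mul_eq_zero.1 h1).resolve_left hc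

variable (F) in
include F in
/-- its trace to `E` -/
private theorem k64_BE (η : E) (hη : η ≠ 0) (hs : star η = -η) (c : K) (hc : c ≠ 0) :
    ∃ (BL : SkewH L L) (B : SkewH E L),
      (∀ x y, BL.ip x y = algebraMap E L η * algebraMap K L c * (x * star y)) ∧
      ∀ x y, B.ip x y = Algebra.trace E L (BL.ip x y) := by
  haveI := k64_fdE F E K L
  haveI : CharZero E := charZero_of_injective_algebraMap (algebraMap F E).injective
  have hc1 : algebraMap E L η * algebraMap K L c ≠ 0 :=
    mul_ne_zero ((map_ne_zero _).2 hη) ((map_ne_zero _).2 hc)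
  have hc2 : star (algebraMap E L η * algebraMap K L c) =
      -(algebraMap E L η * algebraMap K L c) := by
    rw [star_mul', KCompat.star_comm (F := F) (E := E) (K := K) (L := L),
      QExt.star_alg (F := K) (E := L), hs, map_neg, neg_mul]
  set BL : SkewH L L := k64L L _ hc1 hc2 with hBL
  refine ⟨BL, { ip := fun x y => Algebra.trace E L (BL.ip x y)
                add_left := fun u v w => by rw [BL.add_left, map_add]
                smul_left := fun a v w => by
                  rw [← algebraMap_smul L a v, BL.smul_left, ← Algebra.smul_def, map_smul,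
                    smul_eq_mul]
                skew := fun v w => by
                  rw [BL.skew v w, map_neg, kc_trace_star F K]
                nondeg := fun v h => by
                  apply BL.nondeg
                  intro w
                  apply k64_trace_nd (F := E)
                  intro y
                  have h2 := h (star y • w)
                  rw [BL.smul_right, star_star, mul_comm] at h2
                  exact h2 }, fun _ _ => rfl, fun _ _ => rfl⟩

/-- discriminants of the trace forms -/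
private theorem k64_disc (η : E) (hη : η ≠ 0) (hs : star η = -η) (c : K) (hc : c ≠ 0)
    (BL : SkewH L L) (B : SkewH E L)
    (h1 : ∀ x y, BL.ip x y = algebraMap E L η * algebraMap K L c * (x * star y))
    (h2 : ∀ x y, B.ip x y = Algebra.trace E L (BL.ip x y)) 
    (BL1 : SkewH L L) (B1 : SkewH E L)
    (h3 : ∀ x y, BL1.ip x y = algebraMap E L η * algebraMap K L 1 * (x * star y))
    (h4 : ∀ x y, B1.ip x y = Algebra.trace E L (BL1.ip x y)) :
    ∃ (m : ℕ) (b : Module.Basis (Fin (m + 1)) E L) (k : E), k ≠ 0 ∧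
      (gram B b).det = algebraMap F E (Algebra.norm F c) * (k * star k) * (gram B1 b).det := by
  classical
  haveI := k64_fdE F E K L
  obtain ⟨D, hD, hdt⟩ := disc_transfer (F := F) (E := E) K (L := L) 1
  let b0 : Module.Basis (Fin 1) L L := Module.Basis.singleton (Fin 1) L
  have hb0 : ∀ i, b0 i = 1 := fun i => Module.Basis.singleton_apply _ _ _
  obtain ⟨n, b, hn, hb⟩ := hdt L B BL (fun v w => (h2 v w).symm) b0
  obtain ⟨n', b', hn', hb'⟩ := hdt L B1 BL1 (fun v w => (h4 v w).symm) b0
  have hpos : 0 < Module.finrank E L := Module.finrank_pos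
  obtain ⟨m, hm⟩ : ∃ m, n = m + 1 := ⟨n - 1, by omega⟩
  subst hm
  have hnn : n' = m + 1 := by omega
  subst hnn
  obtain ⟨k, hk, hk2⟩ := gram_change B b b'
  refine ⟨m, b', k, hk, ?_⟩
  rw [hk2, hb, hb']
  have e1 : (gram BL b0).det = algebraMap E L η * algebraMap K L c := by
    rw [Matrix.det_fin_one]
    show BL.ip (b0 0) (b0 0) = _
    rw [h1, hb0, star_one, mul_one, mul_one]
  have e2 : (gram BL1 b0).det = algebraMap E L η := by
    rw [Matrix.det_fin_one]
    show BL1.ip (b0 0) (b0 0) = _
    rw [h3, hb0, star_one, mul_one, mul_one, map_one, mul_one]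
  rw [e1, e2, map_mul, kc_norm_K (F := F) (E := E) (K := K) (L := L) c]
  ring

theorem norm64 (c : K) (hc : c ≠ 0) : IsNorm K L c ↔ IsNorm F E (Algebra.norm F c) := by
  classical
  haveI := KCompat.tower1 (F := F) (E := E) (K := K) (L := L)
  haveI := KCompat.tower2 (F := F) (E := E) (K := K) (L := L)
  haveI hKfd : FiniteDimensional F K := KCompat.fd (F := F) (E := E) (K := K) (L := L)
  haveI : FiniteDimensional K L := qext_findim K L
  haveI : FiniteDimensional F L := FiniteDimensional.trans F K L
  haveI := k64_fdE F E K L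
  haveI : IsUltrametricDist L := ult_E K
  haveI : FiniteDimensional F E := qext_findim F E
  haveI : ContinuousSMul F L := by
    refine ⟨?_⟩
    have h : (fun p : F × L => p.1 • p.2) = fun p : F × L => (algebraMap F K p.1) • p.2 := by
      funext p
      rw [algebraMap_smul]
    rw [h]
    exact ((continuous_algebraMap F K).comp continuous_fst).smul continuous_snd
  obtain ⟨p⟩ := exists_pchar F
  obtain ⟨η, hη, hs, -, -, -⟩ := exists_eta F E
  obtain ⟨BL, B, h1, h2⟩ := k64_BE F (L := L) η hη hs c hc
  obtain ⟨BL1, B1, h3, h4⟩ := k64_BE F (K := K) (L := L) η hη hs 1 one_ne_zero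
  obtain ⟨m, b, k, hk, hd⟩ := k64_disc (F := F) η hη hs c hc BL B h1 h2 BL1 B1 h3 h4
  have hNc : Algebra.norm F c ≠ 0 := Algebra.norm_ne_zero_iff.2 hc
  -- comparison of the Gauss integrals over `F` and `K`
  have hcmp : ∀ (c : K) (hc : c ≠ 0) (BL : SkewH L L) (B : SkewH E L)
      (_ : ∀ x y, BL.ip x y = algebraMap E L η * algebraMap K L c * (x * star y))
      (_ : ∀ x y, B.ip x y = Algebra.trace E L (BL.ip x y)),
      kap (k64F (F := F) B η hη hs) p = kap (nform K L c hc) (p.ext K) := by
    intro c hc BL B h1 h2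
    obtain ⟨M, hM1, hM2, hM3⟩ := gaussapi_kap (k64F (F := F) B η hη hs) p
    obtain ⟨M', hM1', hM2', hM3'⟩ := gaussapi_kap (nform K L c hc) (p.ext K)
    obtain ⟨N, hNo, hNc, hNs⟩ := uc_U F L _ (hM2.union hM2')
    rw [← hM3 N hNo hNc (fun x hx => hNs (Or.inl hx)),
      ← hM3' N hNo hNc (fun x hx => hNs (Or.inr hx))]
    congr 1
    apply SF.ext
    intro x
    rw [gaussapi_gfun0, gaussapi_gfun0]
    congr 1
    show p.ψ (2⁻¹ * Algebra.trace F E (η⁻¹ * B.ip x x)) =
      p.ψ (Algebra.trace F K (2⁻¹ * (c * Algebra.trace K L (x * star x))))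
    congr 1
    have e1 : η⁻¹ * B.ip x x = Algebra.trace E L (algebraMap K L c * (x * star x)) := by
      rw [h2, h1, mul_assoc, ← Algebra.smul_def, map_smul, smul_eq_mul, ← mul_assoc,
        inv_mul_cancel₀ hη, one_mul]
    have e2 : c * Algebra.trace K L (x * star x) =
        Algebra.trace K L (algebraMap K L c * (x * star x)) := by
      rw [← Algebra.smul_def, map_smul, smul_eq_mul]
    have e3 : ∀ y : K, (2 : K)⁻¹ * y = (2 : F)⁻¹ • y := by
      intro y
      rw [Algebra.smul_def, map_inv₀, map_ofNat]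
    rw [e1, e2, e3, map_smul, smul_eq_mul,
      kc_trace (F := F) (E := E) (K := K) (L := L) (algebraMap K L c * (x * star x))]
  have hK1 := hcmp 1 one_ne_zero BL1 B1 h3 h4
  have hKc := hcmp c hc BL B h1 h2
  have hone : kap (nform K L (1 * c) (mul_ne_zero one_ne_zero hc)) (p.ext K) =
      kap (nform K L c hc) (p.ext K) := by
    refine kap_ext _ _ _ fun v w => ?_
    show 1 * c * Algebra.trace K L (v * star w) = c * Algebra.trace K L (v * star w)
    rw [one_mul]
  have hne := kap_ne_zero (nform K L 1 one_ne_zero) (p.ext K)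
  have hpos : 0 < hmod (mulT K c hc) := hmod_pos _
  constructor
  · intro hn
    by_contra hnn
    obtain ⟨m', hm', e1⟩ := k64_neg b η hη hs p _ hNc hnn B1 B k hk hd
    have e2 := kap_norm K L (p.ext K) 1 c one_ne_zero hc hn
    rw [hKc, hK1, ← hone, e2] at e1
    have e3 := mul_right_cancel₀ hne e1
    have e4 : hmod (mulT K c hc) = -m' := by exact_mod_cast e3
    linarith
  · intro hn
    by_contra hnn
    obtain ⟨z, hz, hz2⟩ := hn
    obtain ⟨φ, hφ⟩ := isometric_of_disc F B1 B b b (z * k) (mul_ne_zero hz hk) (by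
      rw [hd, ← hz2, star_mul']
      ring)
    obtain ⟨m', hm', e1⟩ := k64_pos B1 B η hη hs p φ hφ
    have e2 := kap_nonnorm K L (p.ext K) 1 c one_ne_zero hc hnn
    rw [hKc, hK1, ← hone, e2] at e1
    have e3 : (1 : ℂ) = m' * -(hmod (mulT K c hc) : ℂ) := by
      refine mul_right_cancel₀ hne ?_
      rw [one_mul]
      rw [mul_assoc]
      exact e1
    have e4 : (1 : ℝ) = m' * -(hmod (mulT K c hc)) := by exact_mod_cast e3
    nlinarith [mul_pos hm' hpos]

end

end Pool.Agent.Work.MP_dd0ddf_al
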