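import Pool.Agent.Work.MP_dd0ddf_al.GrpLoc
import Pool.Agent.Work.MP_dd0ddf_al.DescThm
import Pool.Agent.Work.MP_dd0ddf_al.NoPos

/-!
# MP_dd0ddf_al, module GDefs: the closed subset G_P = {g : charpoly(g g^*) = P} of GL(V) and functionals on it

`gp_closed`: continuous_sg and continuity of the coefficients of the characteristic polynomial (continuous_charcoef).  `gp_gC`: sg_act.  `gp_thG`: sg_theta, charpoly_conjτ, charpoly(g^* g) = charpoly(g g^*) and the fact that
this polynomial has coefficients in F.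
`inGP_of_inG`: supp_on_factor + restr_surjective.  `grp_of_pgood`: grp_loc and inGP_of_inG.
`inGP_tau`: as Theta_indep: `τ' = τ h0` (tau_change), `θ'(g) = θ(h0 g h0⁻¹)`, `tneg τ' = geo(h0⁻¹) tneg τ`, so the operator for `τ'` is the composition of the one for `τ` with `op (h0⁻¹, h0⁻¹)`.
-/

set_option linter.unusedSectionVars false
set_option linter.style.haveILetI false

namespace Pool.Agent.Work.MP_dd0ddf_al

noncomputable section

universe u

/-- pull back of a positive character -/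
def PosChar.comap {Γ Γ' : Type*} [Group Γ] [TopologicalSpace Γ] [Group Γ'] [TopologicalSpace Γ']
    (δ : PosChar Γ) (j : Γ' →* Γ) (hj : Continuous j) : PosChar Γ' where
  δ γ := δ.δ (j γ)
  pos γ := δ.pos _
  mul γ γ' := by rw [map_mul, δ.mul]
  lc := by
    obtain ⟨U, hU, h1, h⟩ := δ.lc
    exact ⟨j ⁻¹' U, hU.preimage hj, by
      show j 1 ∈ U
      rw [map_one]
      exact h1, fun γ hγ => h _ hγ⟩

variable {F E : Type u} [NontriviallyNormedField F] [IsUltrametricDist F] [ProperSpace F]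
  [CharZero F] [NontriviallyNormedField E] [NormedAlgebra F E] [ProperSpace E] [StarRing E]
  [QExt F E] [MeasurableSpace E] [BorelSpace E]
variable {V : Type u} [AddCommGroup V] [Module E V] [Module.Finite E V] [TopologicalSpace V]
  [IsTopologicalAddGroup V] [T2Space V] [ContinuousSMul E V]

/-- `G_P = {g : charpoly (g g^*) = P}` -/
def GP (B : SkewH E V) (P : Polynomial F) : Set (GV E V) :=
  {g | LinearMap.charpoly (sg B g).1 = P.map (algebraMap F E)}

theorem gp_closed (B : SkewH E V) (P : Polynomial F) : IsClosed (GP B P) := by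
  have h : GP B P = ⋂ i : ℕ, {g : GV E V | (LinearMap.charpoly (sg B g).1).coeff i =
      (P.map (algebraMap F E)).coeff i} := by
    ext g
    simp only [Set.mem_iInter]
    exact Polynomial.ext_iff
  rw [h]
  exact isClosed_iInter fun i => isClosed_eq
    ((continuous_charcoef i).comp (continuous_subtype_val.comp (continuous_sg F B)))
    continuous_const

private theorem gdefs_comm (g h : Module.End E V) :
    LinearMap.charpoly (g * h) = LinearMap.charpoly (h * g) := by
  classical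
  let b := Module.finBasis E V
  rw [← LinearMap.charpoly_toMatrix (g * h) b, ← LinearMap.charpoly_toMatrix (h * g) b,
    LinearMap.toMatrix_mul, LinearMap.toMatrix_mul, Matrix.charpoly_mul_comm]

private theorem gdefs_conj (h : GV E V) (X : Module.End E V) :
    LinearMap.charpoly (h.1 * X * h⁻¹.1) = LinearMap.charpoly X := by
  rw [gdefs_comm]
  have h1 : h⁻¹.1 * h.1 = 1 := h.inv_mul
  rw [← mul_assoc, h1, one_mul]

theorem gp_gC (B : SkewH E V) (P : Polynomial F) (γ : UU B × UU B) (g : GV E V)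
    (hg : g ∈ GP B P) : (gC B).act γ g ∈ GP B P := by
  have h1 : sg B ((gC B).act γ g) = saConj B γ.1 (sg B g) := sg_act B γ.1 γ.2 g
  show LinearMap.charpoly (sg B ((gC B).act γ g)).1 = _
  rw [h1]
  show LinearMap.charpoly (γ.1.1.1 * (sg B g).1 * γ.1.1⁻¹.1) = _
  rw [gdefs_conj]
  exact hg

theorem gp_thG {B : SkewH E V} (τ : AntiU B) (P : Polynomial F) (g : GV E V)
    (hg : g ∈ GP B P) : thG τ g ∈ GP B P := by
  show LinearMap.charpoly (sg B (thG τ g)).1 = _
  have hg' : LinearMap.charpoly (g.1 * adj B g.1) = P.map (algebraMap F E) := hg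
  rw [sg_theta, charpoly_conjτ, gdefs_comm, hg', Polynomial.map_map]
  congr 1
  ext x
  exact QExt.star_alg x

theorem lc_GP (B : SkewH E V) (P : Polynomial F) : LocallyCompactSpace (GP B P) :=
  (gp_closed B P).isClosedEmbedding_subtypeVal.locallyCompactSpace

theorem td_GP (B : SkewH E V) (P : Polynomial F) : TotallyDisconnectedSpace (GP B P) := by
  haveI := td_GV F E V
  exact inferInstance

/-- the action of `U(V) × U(V)` on `G_P` -/
def gpC (B : SkewH E V) (P : Polynomial F) : CAct (UU B × UU B) (GP B P) :=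
  (gC B).sub (GP B P) (gp_gC B P)

/-- the anti-automorphism `θ` on `G_P` -/
def gpTh {B : SkewH E V} (τ : AntiU B) (P : Polynomial F) : GP B P ≃ₜ GP B P where
  toFun g := ⟨thG τ g.1, gp_thG τ P g.1 g.2⟩
  invFun g := ⟨thG τ g.1, gp_thG τ P g.1 g.2⟩
  left_inv g := Subtype.ext (thG_thG τ g.1)
  right_inv g := Subtype.ext (thG_thG τ g.1)
  continuous_toFun := ((continuous_thG F τ).comp continuous_subtype_val).subtype_mk _
  continuous_invFun := ((continuous_thG F τ).comp continuous_subtype_val).subtype_mk _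

/-- invariant antisymmetric functionals on `G_P` -/
structure InGP {B : SkewH E V} {p : PChar F} (W : WeilRep B p) (τ : AntiU B) (P : Polynomial F)
    (T : SF (GP B P) (SF V ℂ) →ₗ[ℂ] ℂ) : Prop where
  inv : ∀ (γ : UU B × UU B) (f : SF (GP B P) (SF V ℂ)), T ((gpC B P).op (wRep W) γ f) = T f
  anti : ∀ f : SF (GP B P) (SF V ℂ), T (SF.opr (gpTh τ P) (tneg F τ) f) = - T f

/-- all such functionals vanish -/
def PGood {B : SkewH E V} {p : PChar F} (W : WeilRep B p) (P : Polynomial F) : Prop :=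
  ∀ (τ : AntiU B) (T : SF (GP B P) (SF V ℂ) →ₗ[ℂ] ℂ), InGP W τ P T → T = 0

theorem inGP_of_inG {B : SkewH E V} {p : PChar F} (W : WeilRep B p) (τ : AntiU B)
    (P : Polynomial F) (T : SF (GV E V) (SF V ℂ) →ₗ[ℂ] ℂ) (hT : InG W τ P T) :
    ∃ T' : SF (GP B P) (SF V ℂ) →ₗ[ℂ] ℂ, InGP W τ P T' ∧
      ∀ G, T G = T' (SF.restr (GP B P) (gp_closed B P) G) := by
  haveI := td_GV F E V
  obtain ⟨S, hS⟩ := supp_on_factor (GP B P) (gp_closed B P) T
    (fun f hf => hT.supp f fun g hg => hf g hg)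
  refine ⟨S, ⟨fun γ f => ?_, fun f => ?_⟩, hS⟩
  · obtain ⟨G, rfl⟩ := restr_surjective (GP B P) (gp_closed B P) f
    have h1 : (gpC B P).op (wRep W) γ (SF.restr (GP B P) (gp_closed B P) G) =
        SF.restr (GP B P) (gp_closed B P) ((gC B).op (wRep W) γ G) := rfl
    have h2 : W.act γ.1 γ.2 G = (gC B).op (wRep W) γ G := act_eq W γ.1 γ.2 G
    rw [h1, ← hS, ← hS, ← h2]
    exact hT.inv γ.1 γ.2 G
  · obtain ⟨G, rfl⟩ := restr_surjective (GP B P) (gp_closed B P) f
    have h1 : SF.opr (gpTh τ P) (tneg F τ) (SF.restr (GP B P) (gp_closed B P) G) =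
        SF.restr (GP B P) (gp_closed B P) (Theta F τ G) := rfl
    rw [h1, ← hS, ← hS]
    exact hT.anti G

theorem inGP_tau {B : SkewH E V} {p : PChar F} (W : WeilRep B p) (τ τ' : AntiU B)
    (P : Polynomial F) (T : SF (GP B P) (SF V ℂ) →ₗ[ℂ] ℂ) (hT : InGP W τ P T) :
    InGP W τ' P T := by
  obtain ⟨h0, hh⟩ := tau_change B τ τ'
  have hi1 : ∀ v, h0.1⁻¹.1 (h0.1.1 v) = v := fun v =>
    congrArg (fun f : Module.End E V => f v) h0.1.inv_mul
  have hh' : ∀ v, τ'.t v = h0.1⁻¹.1 (τ.t v) := by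
    intro v
    have h1 : h0.1.1 (τ'.t v) = τ.t v := by
      rw [← τ.inv (h0.1.1 (τ'.t v)), ← hh, τ'.inv]
    rw [← h1, hi1]
  refine ⟨hT.inv, fun f => ?_⟩
  have key : SF.opr (gpTh τ' P) (tneg F τ') f =
      (gpC B P).op (wRep W) (h0⁻¹, h0⁻¹) (SF.opr (gpTh τ P) (tneg F τ) f) := by
    apply SF.ext
    intro x
    rw [CAct.op_apply, SF.opr_apply, SF.opr_apply]
    have e1 : gpTh τ' P x = gpTh τ P ((gpC B P).act (h0⁻¹, h0⁻¹)⁻¹ x) := by
      apply Subtype.ext
      apply Units.ext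
      ext v
      show τ'.t (adj B x.1.1 (τ'.t v)) =
        τ.t (adj B (((h0⁻¹, h0⁻¹)⁻¹ : UU B × UU B).1.1.1 * x.1.1 *
          ((h0⁻¹, h0⁻¹)⁻¹ : UU B × UU B).2.1⁻¹.1) (τ.t v))
      rw [Prod.inv_mk, inv_inv]
      show τ'.t (adj B x.1.1 (τ'.t v)) = τ.t (adj B (h0.1.1 * x.1.1 * h0.1⁻¹.1) (τ.t v))
      rw [adj_mul, adj_mul, uu_adj, uu_adj_inv, hh, hh']
      rfl
    have e2 : (wRep W).β (h0⁻¹, h0⁻¹) = geo (h0⁻¹).1 := (geo_eq W h0⁻¹).symm
    rw [e1, e2]
    apply SF.ext
    intro v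
    show (f (gpTh τ P ((gpC B P).act (h0⁻¹, h0⁻¹)⁻¹ x))) (- τ'.t v) =
      (f (gpTh τ P ((gpC B P).act (h0⁻¹, h0⁻¹)⁻¹ x))) (- τ.t (((h0⁻¹).1)⁻¹.1 v))
    rw [hh]
    congr 3
  rw [key, hT.inv, hT.anti]

theorem grp_of_pgood {B : SkewH E V} {p : PChar F} (W : WeilRep B p)
    (h : ∀ P : Polynomial F, P.Monic → P.natDegree = Module.finrank E V → P.coeff 0 ≠ 0 →
      PGood W P) : GrpGood W := by
  refine grp_loc W fun τ P T hPm hPd hP0 hT => ?_
  obtain ⟨T', hT', hTT⟩ := inGP_of_inG W τ P T hT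
  have h0 := h P hPm hPd hP0 τ T' hT'
  refine LinearMap.ext fun G => ?_
  rw [hTT, h0, LinearMap.zero_apply, LinearMap.zero_apply]

variable (F) in
include F in
/-- `U(V) × U(V)` has no positive characters -/
theorem noPos_prod (F' : Type u) {E' V' : Type u} [NontriviallyNormedField F'] [IsUltrametricDist F']
    [ProperSpace F'] [CharZero F'] [NontriviallyNormedField E'] [NormedAlgebra F' E']
    [ProperSpace E'] [StarRing E'] [QExt F' E'] [AddCommGroup V'] [Module E' V']
    [Module.Finite E' V'] [TopologicalSpace V'] [IsTopologicalAddGroup V'] [T2Space V']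
    [ContinuousSMul E' V'] (B : SkewH E V) (B' : SkewH E' V')
    (δ : PosChar (UU B × UU B')) (γ : UU B × UU B') : δ.δ γ = 1 := by
  have h1 := noPos F B (δ.comap (MonoidHom.inl (UU B) (UU B'))
    (continuous_id.prodMk continuous_const)) γ.1
  have h2 := noPos F' B' (δ.comap (MonoidHom.inr (UU B) (UU B'))
    (continuous_const.prodMk continuous_id)) γ.2
  have h3 : δ.δ (γ.1, 1) = 1 := h1
  have h4 : δ.δ (1, γ.2) = 1 := h2
  have h5 : γ = (γ.1, 1) * (1, γ.2) := by
    rw [Prod.mk_mul_mk, mul_one, one_mul]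
  rw [h5, δ.mul, h3, h4, one_mul]

end

end Pool.Agent.Work.MP_dd0ddf_al
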