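import Pool.Agent.Work.MP_dd0ddf_al.NiE1

/-!
# MP_dd0ddf_al, module NiMain: the norm index of a quadratic extension is 2

Let `H = N(E^×) ≤ F^×` (N x = x star x ∈ F).  `[F^× : F^{×2}] = [F^× : H] [H : F^{×2}]` (F^{×2} ⊆ H: N(c) = c²).
`[H : F^{×2}] = [E^× : F^× E^1]` (surjection `N : E^× → H`; `N⁻¹(F^{×2}) = F^× E^1`).  The homomorphism `E^× → E^1`, `x ↦ x/star x` is surjective (Hilbert 90:
`z ∈ E^1`: take `x = 1 + z` if `z ≠ -1` (x/star x = (1+z)/(1+z⁻¹) = z), `x = η` if `z = -1`), with kernel `F^×`, and maps `E^1` onto `(E^1)²`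
(`z/star z = z²`), so `[E^× : F^× E^1] = [E^1 : (E^1)²] = 2 m_F`.  With `[F^× : F^{×2}] = 4 m_F` this gives `[F^× : H] = 2`.
-/

set_option linter.unusedSectionVars false
set_option linter.style.haveILetI false

namespace Pool.Agent.Work.MP_dd0ddf_al

noncomputable section

universe u

variable {F E : Type u} [NontriviallyNormedField F] [IsUltrametricDist F] [ProperSpace F]
  [CharZero F] [NontriviallyNormedField E] [NormedAlgebra F E] [ProperSpace E] [StarRing E]
  [QExt F E]

variable (F E) in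
/-- the subgroup of norms -/
def normSub : Subgroup Fˣ where
  carrier := {c | IsNorm F E (c : F)}
  one_mem' := ⟨1, one_ne_zero, by simp⟩
  mul_mem' := by
    rintro a b ⟨x, hx, hxa⟩ ⟨y, hy, hyb⟩
    refine ⟨x * y, mul_ne_zero hx hy, ?_⟩
    rw [star_mul', Units.val_mul, map_mul, ← hxa, ← hyb]
    ring
  inv_mem' := by
    rintro a ⟨x, hx, hxa⟩
    refine ⟨x⁻¹, inv_ne_zero hx, ?_⟩
    rw [star_inv₀, Units.val_inv_eq_inv_val, map_inv₀, ← hxa, mul_inv]

variable (E) in
/-- the norm as an endomorphism of `E^×` -/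
private def nimN : Eˣ →* Eˣ where
  toFun x := x * star x
  map_one' := by rw [star_one, mul_one]
  map_mul' x y := by rw [star_mul, mul_comm (star y)]; exact mul_mul_mul_comm x y (star x) (star y)

variable (E) in
/-- the homomorphism `x / star x` -/
private def nimQ : Eˣ →* E1 E where
  toFun x := ⟨x * (star x)⁻¹, by
    show ((x * (star x)⁻¹ : Eˣ) : E) * star ((x * (star x)⁻¹ : Eˣ) : E) = 1
    have h0 : (x : E) ≠ 0 := x.ne_zero
    have h1 : star (x : E) ≠ 0 := by
      intro h
      apply h0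
      rw [← star_star (x : E), h, star_zero]
    rw [Units.val_mul, Units.val_inv_eq_inv_val, Units.coe_star, star_mul', star_inv₀, star_star]
    field_simp⟩
  map_one' := by
    apply Subtype.ext
    show (1 : Eˣ) * (star (1 : Eˣ))⁻¹ = 1
    rw [star_one, inv_one, mul_one]
  map_mul' x y := by
    apply Subtype.ext
    show (x * y) * (star (x * y))⁻¹ = (x * (star x)⁻¹) * (y * (star y)⁻¹)
    rw [star_mul, mul_inv_rev, mul_mul_mul_comm]

variable (F E) in
private def nimI : Fˣ →* Eˣ := Units.map (algebraMap F E).toMonoidHom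

variable (F E) in
private theorem nimI_inj : Function.Injective (nimI F E) :=
  Units.map_injective (algebraMap F E).injective

variable (F E) in
private theorem nimI_mem (x : Eˣ) : x ∈ (nimI F E).range ↔ star (x : E) = x := by
  constructor
  · rintro ⟨c, rfl⟩
    show star (algebraMap F E (c : F)) = algebraMap F E (c : F)
    exact QExt.star_alg _
  · intro hx
    obtain ⟨-, -, -, -, -, hfix⟩ := exists_eta F E
    obtain ⟨f, hf⟩ := hfix (x : E) hx
    have hf0 : f ≠ 0 := by
      rintro rfl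
      rw [map_zero] at hf
      exact x.ne_zero hf
    refine ⟨Units.mk0 f hf0, ?_⟩
    apply Units.ext
    exact hf.symm

variable (F E) in
private theorem nim_mapH : (normSub F E).map (nimI F E) = (⊤ : Subgroup Eˣ).map (nimN E) := by
  ext y
  constructor
  · rintro ⟨c, hc, rfl⟩
    obtain ⟨x, hx0, hx⟩ : IsNorm F E (c : F) := hc
    refine ⟨Units.mk0 x hx0, Subgroup.mem_top _, ?_⟩
    apply Units.ext
    exact hx
  · rintro ⟨x, -, rfl⟩
    have h1 : nimN E x ∈ (nimI F E).range := by
      rw [nimI_mem]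
      show star ((x : E) * star (x : E)) = (x : E) * star (x : E)
      rw [star_mul', star_star, mul_comm]
    obtain ⟨c, hc⟩ := h1
    refine ⟨c, ?_, hc⟩
    refine ⟨(x : E), x.ne_zero, ?_⟩
    have := congrArg (fun u : Eˣ => (u : E)) hc
    exact this.symm

variable (F E) in
private theorem nim_mapS : (sqSub (⊤ : Subgroup Fˣ)).map (nimI F E) =
    ((nimI F E).range).map (nimN E) := by
  ext y
  constructor
  · rintro ⟨-, ⟨c, -, rfl⟩, rfl⟩
    refine ⟨nimI F E c, ⟨c, rfl⟩, ?_⟩
    apply Units.ext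
    show algebraMap F E (c : F) * star (algebraMap F E (c : F)) = algebraMap F E (((c ^ 2 : Fˣ)) : F)
    rw [QExt.star_alg, Units.val_pow_eq_pow_val, map_pow]
    ring
  · rintro ⟨-, ⟨c, rfl⟩, rfl⟩
    refine ⟨c ^ 2, ⟨c, Subgroup.mem_top _, rfl⟩, ?_⟩
    apply Units.ext
    show algebraMap F E (((c ^ 2 : Fˣ)) : F) = algebraMap F E (c : F) * star (algebraMap F E (c : F))
    rw [QExt.star_alg, Units.val_pow_eq_pow_val, map_pow]
    ring

private theorem nim_kerN : (nimN E).ker = E1 E := by
  ext x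
  rw [MonoidHom.mem_ker]
  constructor
  · intro h
    have := congrArg (fun u : Eˣ => (u : E)) h
    exact this
  · intro h
    apply Units.ext
    exact h

variable (F E) in
private theorem nim_kerQ : (nimQ E).ker = (nimI F E).range := by
  ext x
  rw [MonoidHom.mem_ker, nimI_mem]
  constructor
  · intro h
    have h1 : x * (star x)⁻¹ = 1 := congrArg Subtype.val h
    rw [mul_inv_eq_one] at h1
    have h2 := congrArg (fun u : Eˣ => (u : E)) h1
    rw [← Units.coe_star]
    exact h2.symm
  · intro h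
    apply Subtype.ext
    show x * (star x)⁻¹ = 1
    rw [mul_inv_eq_one]
    apply Units.ext
    rw [Units.coe_star]
    exact h.symm

variable (F E) in
include F in
private theorem nim_surjQ : Function.Surjective (nimQ E) := by
  rintro ⟨z, hz⟩
  have hz' : (z : E) * star (z : E) = 1 := hz
  by_cases h : (z : E) = -1
  · obtain ⟨η, hη0, hηs, -⟩ := exists_eta F E
    refine ⟨Units.mk0 η hη0, ?_⟩
    apply Subtype.ext
    show Units.mk0 η hη0 * (star (Units.mk0 η hη0))⁻¹ = z
    rw [mul_inv_eq_iff_eq_mul]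
    apply Units.ext
    rw [Units.val_mul, Units.coe_star, Units.val_mk0, hηs, h]
    ring
  · have h1 : 1 + (z : E) ≠ 0 := by
      intro h0
      apply h
      linear_combination h0
    refine ⟨Units.mk0 (1 + (z : E)) h1, ?_⟩
    apply Subtype.ext
    show Units.mk0 (1 + (z : E)) h1 * (star (Units.mk0 (1 + (z : E)) h1))⁻¹ = z
    rw [mul_inv_eq_iff_eq_mul]
    apply Units.ext
    rw [Units.val_mul, Units.coe_star, Units.val_mk0, star_add, star_one]
    linear_combination -hz'

private theorem nim_mapE1 : (E1 E).map (nimQ E) = sqSub (⊤ : Subgroup (E1 E)) := by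
  have key : ∀ z : E1 E, nimQ E (z : Eˣ) = z ^ 2 := by
    intro z
    apply Subtype.ext
    show (z : Eˣ) * (star (z : Eˣ))⁻¹ = (z : Eˣ) ^ 2
    have hz : (z : Eˣ) * star (z : Eˣ) = 1 := by
      apply Units.ext
      exact z.2
    rw [inv_eq_of_mul_eq_one_left hz, sq]
  ext y
  constructor
  · rintro ⟨x, hx, rfl⟩
    exact ⟨⟨x, hx⟩, Subgroup.mem_top _, (key ⟨x, hx⟩).symm⟩
  · rintro ⟨z, -, rfl⟩
    exact ⟨(z : Eˣ), z.2, key z⟩

variable (F E) in
theorem norm_index_two : (normSub F E).index = 2 := by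
  have hm : mTwo F ≠ 0 := mTwo_ne_zero F
  have hSH : sqSub (⊤ : Subgroup Fˣ) ≤ normSub F E := by
    rintro x ⟨c, -, rfl⟩
    refine ⟨algebraMap F E (c : F), ?_, ?_⟩
    · intro h0
      exact c.ne_zero ((map_eq_zero _).1 h0)
    · show algebraMap F E (c : F) * star (algebraMap F E (c : F)) =
        algebraMap F E (((c ^ 2 : Fˣ)) : F)
      rw [QExt.star_alg, Units.val_pow_eq_pow_val, map_pow]
      ring
  have e1 := Subgroup.relIndex_mul_index hSH
  have e2 : (sqSub (⊤ : Subgroup Fˣ)).relIndex (normSub F E) = 2 * mTwo F := by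
    rw [← Subgroup.relIndex_map_map_of_injective _ _ (nimI_inj F E), nim_mapH, nim_mapS,
      Subgroup.relIndex_map_map, top_sup_eq, Subgroup.relIndex_top_right, nim_kerN]
    have e3 := Subgroup.index_map (E1 E) (nimQ E)
    rw [nim_mapE1, nim_kerQ F E, MonoidHom.range_eq_top.2 (nim_surjQ F E), Subgroup.index_top,
      mul_one, index_sq_E1 F E] at e3
    rw [sup_comm, ← e3]
  rw [e2, index_sq_field] at e1
  have e4 : (2 * mTwo F) * (normSub F E).index = (2 * mTwo F) * 2 := by
    rw [e1]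
    ring
  exact Nat.eq_of_mul_eq_mul_left (by positivity) e4

variable (F E) in
theorem exists_nonnorm : ∃ c : F, c ≠ 0 ∧ ¬ IsNorm F E c := by
  by_contra hcon
  push Not at hcon
  have h1 : normSub F E = ⊤ := by
    rw [Subgroup.eq_top_iff']
    intro c
    exact hcon (c : F) c.ne_zero
  have h2 := norm_index_two F E
  rw [h1, Subgroup.index_top] at h2
  omega

variable (F E) in
theorem nonnorm_mul {c c' : F} (hc : c ≠ 0) (hc' : c' ≠ 0) (h : ¬ IsNorm F E c)
    (h' : ¬ IsNorm F E c') : IsNorm F E (c * c') := by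
  have h1 := (Subgroup.mul_mem_iff_of_index_two (norm_index_two F E)
    (a := Units.mk0 c hc) (b := Units.mk0 c' hc')).2 (by
      constructor
      · intro h2
        exact absurd h2 h
      · intro h2
        exact absurd h2 h')
  exact h1

variable (F E) in
theorem norm_mul_iff {c c' : F} (hc : c ≠ 0) (hc' : c' ≠ 0) (h : IsNorm F E c) :
    IsNorm F E (c * c') ↔ IsNorm F E c' :=
  (normSub F E).mul_mem_cancel_left (x := Units.mk0 c hc) (y := Units.mk0 c' hc') h

variable (F E) in
/-- norms are open -/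
theorem isNorm_near_one : ∃ r : ℝ, 0 < r ∧ ∀ x : F, ‖x - 1‖ < r → IsNorm F E x := by
  have h2 : 0 < ‖(2 : F)‖ := norm_pos_iff.2 two_ne_zero
  obtain ⟨ρ, hρ0, hρ⟩ := NormedField.exists_norm_lt F h2
  refine ⟨‖(2 : F)‖ * ‖ρ‖, by positivity, fun x hx => ?_⟩
  obtain ⟨y, ⟨hy1, hy2⟩, -⟩ := sqrt_near hρ0 hρ hx.le
  have h2le : ‖(2 : F)‖ ≤ 1 := by
    have := IsUltrametricDist.norm_add_le_max (1 : F) 1
    rw [one_add_one_eq_two, norm_one, max_self] at this
    exact this
  have hy0 : y ≠ 0 := by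
    rintro rfl
    rw [zero_sub, norm_neg, norm_one] at hy1
    linarith
  refine ⟨algebraMap F E y, (map_ne_zero _).2 hy0, ?_⟩
  rw [QExt.star_alg, ← map_mul, ← hy2]
  congr 1
  ring

end

end Pool.Agent.Work.MP_dd0ddf_al
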