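import Pool.Agent.Work.MP_dd0ddf_al.FourInv
import Pool.Agent.Work.MP_dd0ddf_al.NiMain
import Pool.Agent.Work.MP_dd0ddf_al.BiOm
import Pool.Agent.Work.MP_dd0ddf_al.HaarApi
import Pool.Agent.Work.MP_dd0ddf_al.WfVI

/-!
# MP_dd0ddf_al, module HConst: a function which is a transform of both norm classes is constant

`h(β) = ∫_E ψ(β N(x)) F1(x) dx` and `c0 h(β) = ∫_E ψ(s⁻¹ β N(x)) F2(x) dx`, F1, F2 ∈ SF E, `s ∈ F^×` not a norm, c0 ≠ 0.  h is locally constant (supports compact).  Let `ρ ∈ SF F`, `φ(r) = ∫_F ρ(β) ψ(β r) dβ` (Fourier transform on F: bicharacter ψ(xy); four1, every φ ∈ SF F arises).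
`C(φ) := ∫ ρ h = ∫_E F1(x) φ(N x) dx` (Fubini), `c0 C(φ) = ∫_E F2(x) φ(s⁻¹ N x) dx`.  If `φ(0) = 0`: `φ = φ1 + φ2`, φ1 = φ on N(E^×), φ2 = φ on the other class `s⁻¹ N(E^×)` (index 2: norm_index / NiMain; both classes are open, φ vanishes near 0): `C(φ1) = 0` by the second formula, `C(φ2) = 0` by the first.
So `∫ ρ h = 0` whenever `∫ ρ = 0`; hence h is constant (ρ = difference of two translates of the indicator function of a small compact open subgroup on which h is constant).
-/

set_option linter.unusedSectionVars false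
set_option linter.style.haveILetI false

namespace Pool.Agent.Work.MP_dd0ddf_al

noncomputable section

universe u

variable {F E : Type u} [NontriviallyNormedField F] [IsUltrametricDist F] [ProperSpace F]
  [CharZero F] [NontriviallyNormedField E] [NormedAlgebra F E] [ProperSpace E] [StarRing E]
  [QExt F E] [MeasurableSpace E] [BorelSpace E]

omit [IsUltrametricDist F] [ProperSpace F] [CharZero F] in
private theorem hc_zero (p : PChar F) : p.ψ 0 = 1 := by
  have h1 := p.add 0 0
  rw [add_zero] at h1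
  have h2 : p.ψ 0 ≠ 0 := by
    intro h
    have h3 := p.norm_one 0
    rw [h, norm_zero] at h3
    exact zero_ne_one h3
  exact (mul_right_cancel₀ h2 ((one_mul _).trans h1)).symm

omit [IsUltrametricDist F] [ProperSpace F] [CharZero F] in
private theorem hc_ne (p : PChar F) (x : F) : p.ψ x ≠ 0 := by
  intro h
  have h3 := p.norm_one x
  rw [h, norm_zero] at h3
  exact zero_ne_one h3

omit [IsUltrametricDist F] [ProperSpace F] [CharZero F] in
private theorem hc_star (p : PChar F) (x : F) : star (p.ψ x) = p.ψ (-x) := by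
  have h1 := p.add x (-x)
  rw [add_neg_cancel, hc_zero] at h1
  have h2 : (p.ψ x)⁻¹ = star (p.ψ x) := RCLike.inv_eq_conj (p.norm_one x)
  rw [← h2]
  exact (eq_inv_of_mul_eq_one_right h1.symm).symm

/-- the span of the functions `r ↦ ψ(β r)` -/
private def hcS (p : PChar F) : Submodule ℂ (F → ℂ) :=
  Submodule.span ℂ (Set.range fun (β : F) (r : F) => p.ψ (β * r))

omit [IsUltrametricDist F] [ProperSpace F] [CharZero F] in
private theorem hcS_gen (p : PChar F) (β : F) : (fun r : F => p.ψ (β * r)) ∈ hcS p :=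
  Submodule.subset_span ⟨β, rfl⟩

omit [IsUltrametricDist F] [ProperSpace F] [CharZero F] in
private theorem hcS_mul (p : PChar F) {a b : F → ℂ} (ha : a ∈ hcS p) (hb : b ∈ hcS p) :
    a * b ∈ hcS p := by
  have h1 := Submodule.mul_mem_mul ha hb
  unfold hcS at h1
  rw [Submodule.span_mul_span] at h1
  refine Submodule.span_mono ?_ h1
  rintro f ⟨x, ⟨β, rfl⟩, y, ⟨β', rfl⟩, rfl⟩
  refine ⟨β + β', ?_⟩
  funext r
  show p.ψ ((β + β') * r) = p.ψ (β * r) * p.ψ (β' * r)
  rw [add_mul, p.add]

omit [IsUltrametricDist F] [ProperSpace F] [CharZero F] in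
private theorem hcS_star (p : PChar F) {a : F → ℂ} (ha : a ∈ hcS p) :
    (fun r => star (a r)) ∈ hcS p := by
  unfold hcS at ha
  induction ha using Submodule.span_induction with
  | mem x h =>
    obtain ⟨β, rfl⟩ := h
    have h1 : (fun r => star (p.ψ (β * r))) = fun r => p.ψ ((-β) * r) := by
      funext r
      rw [hc_star, neg_mul]
    rw [h1]
    exact hcS_gen p (-β)
  | zero =>
    have h1 : (fun r : F => star ((0 : F → ℂ) r)) = 0 := by
      funext r
      exact star_zero _
    rw [h1]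
    exact (hcS p).zero_mem
  | add x y _ _ hx hy =>
    have h1 : (fun r => star ((x + y) r)) = (fun r => star (x r)) + fun r => star (y r) := by
      funext r
      exact star_add _ _
    rw [h1]
    exact (hcS p).add_mem hx hy
  | smul c x _ hx =>
    have h1 : (fun r => star ((c • x) r)) = star c • fun r => star (x r) := by
      funext r
      show star (c * x r) = star c * star (x r)
      rw [star_mul']
    rw [h1]
    exact (hcS p).smul_mem _ hx

omit [IsUltrametricDist F] [ProperSpace F] [CharZero F] in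
private theorem hc_approx (p : PChar F) (C : Set F) (hC : IsCompact C) (g : F → ℂ)
    (hg : Continuous g) (ε : ℝ) (hε : 0 < ε) :
    ∃ a ∈ hcS p, ∀ r ∈ C, ‖g r - a r‖ ≤ ε := by
  haveI : CompactSpace C := isCompact_iff_compactSpace.1 hC
  have hψ : Continuous p.ψ := p.lc.continuous
  let e : F → C(C, ℂ) := fun β => ⟨fun r => p.ψ (β * (r : F)),
    hψ.comp (continuous_const.mul continuous_subtype_val)⟩
  let A : StarSubalgebra ℂ C(C, ℂ) := StarAlgebra.adjoin ℂ (Set.range e)
  have hsep : A.SeparatesPoints := by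
    intro r r' hrr
    obtain ⟨x0, hx0⟩ := p.nontriv
    have hne : (r : F) - (r' : F) ≠ 0 := sub_ne_zero.2 fun h => hrr (Subtype.ext h)
    refine ⟨_, ⟨e (x0 / ((r : F) - (r' : F))), StarAlgebra.subset_adjoin ℂ _ ⟨_, rfl⟩, rfl⟩, ?_⟩
    show p.ψ (x0 / ((r : F) - (r' : F)) * (r : F)) ≠ p.ψ (x0 / ((r : F) - (r' : F)) * (r' : F))
    have h1 : x0 / ((r : F) - (r' : F)) * (r : F) =
        x0 / ((r : F) - (r' : F)) * (r' : F) + x0 := by
      field_simp
      ring
    rw [h1, p.add]
    intro h2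
    exact hx0 (mul_left_cancel₀ (hc_ne p _) (h2.trans (mul_one _).symm))
  have hd := ContinuousMap.starSubalgebra_topologicalClosure_eq_top_of_separatesPoints A hsep
  let g' : C(C, ℂ) := ⟨fun r => g (r : F), hg.comp continuous_subtype_val⟩
  have hg' : g' ∈ closure (A : Set C(C, ℂ)) := by
    rw [← StarSubalgebra.topologicalClosure_coe, hd]
    exact StarSubalgebra.mem_top
  obtain ⟨f, hf, hfd⟩ := Metric.mem_closure_iff.1 hg' ε hε
  have key : ∀ f ∈ A, ∃ a ∈ hcS p, ∀ r : C, f r = a (r : F) := by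
    intro f hf
    induction hf using StarAlgebra.adjoin_induction with
    | mem x h =>
      obtain ⟨β, rfl⟩ := h
      exact ⟨_, hcS_gen p β, fun r => rfl⟩
    | algebraMap c =>
      refine ⟨c • fun r => p.ψ (0 * r), (hcS p).smul_mem _ (hcS_gen p 0), fun r => ?_⟩
      show c = c * p.ψ (0 * (r : F))
      rw [zero_mul, hc_zero, mul_one]
    | add x y _ _ hx hy =>
      obtain ⟨a, ha, hax⟩ := hx
      obtain ⟨b, hb, hby⟩ := hy
      refine ⟨a + b, (hcS p).add_mem ha hb, fun r => ?_⟩
      show x r + y r = a r + b r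
      rw [hax, hby]
    | mul x y _ _ hx hy =>
      obtain ⟨a, ha, hax⟩ := hx
      obtain ⟨b, hb, hby⟩ := hy
      refine ⟨a * b, hcS_mul p ha hb, fun r => ?_⟩
      show x r * y r = a r * b r
      rw [hax, hby]
    | star x _ hx =>
      obtain ⟨a, ha, hax⟩ := hx
      refine ⟨_, hcS_star p ha, fun r => ?_⟩
      show star (x r) = star (a r)
      rw [hax]
  obtain ⟨a, ha, hfa⟩ := key f hf
  refine ⟨a, ha, fun r hr => ?_⟩
  have h1 := ContinuousMap.dist_apply_le_dist (f := g') (g := f) ⟨r, hr⟩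
  have h2 : dist (g' ⟨r, hr⟩) (f ⟨r, hr⟩) = ‖g r - a r‖ := by
    rw [dist_eq_norm, hfa]
    rfl
  rw [← h2]
  exact h1.trans hfd.le

/-- the functional `g ↦ ∫ F1(x) g(M x) dx` -/
private def hcI (F1 : SF E ℂ) (M : E → F) (g : F → ℂ) : ℂ :=
  ∫ x : E, g (M x) * F1 x ∂(MeasureTheory.Measure.addHaar : MeasureTheory.Measure E)

omit [IsUltrametricDist F] [ProperSpace F] [CharZero F] [StarRing E] [QExt F E] in
private theorem hc_int (F1 : SF E ℂ) {M : E → F} (hM : Continuous M) {g : F → ℂ}
    (hg : Continuous g) : MeasureTheory.Integrable (fun x : E => g (M x) * F1 x)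
      (MeasureTheory.Measure.addHaar : MeasureTheory.Measure E) := by
  refine Continuous.integrable_of_hasCompactSupport ?_ ?_
  · exact (hg.comp hM).mul F1.2.1.continuous
  · exact HasCompactSupport.mul_left F1.2.2

omit [IsUltrametricDist F] [ProperSpace F] [CharZero F] in
private theorem hcS_cont (p : PChar F) {a : F → ℂ} (ha : a ∈ hcS p) : Continuous a := by
  unfold hcS at ha
  induction ha using Submodule.span_induction with
  | mem x h =>
    obtain ⟨β, rfl⟩ := h
    exact p.lc.continuous.comp (continuous_const.mul continuous_id)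
  | zero => exact continuous_const
  | add x y _ _ hx hy => exact hx.add hy
  | smul c x _ hx => exact continuous_const.smul hx

omit [IsUltrametricDist F] [ProperSpace F] [CharZero F] [StarRing E] [QExt F E] in
private theorem hc_span (p : PChar F) (F1 F2 : SF E ℂ) {M1 M2 : E → F} (hM1 : Continuous M1)
    (hM2 : Continuous M2) (c₀ : ℂ)
    (h : ∀ β : F, c₀ * hcI F1 M1 (fun r => p.ψ (β * r)) = hcI F2 M2 (fun r => p.ψ (β * r)))
    {a : F → ℂ} (ha : a ∈ hcS p) : c₀ * hcI F1 M1 a = hcI F2 M2 a := by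
  have ha' := ha
  unfold hcS at ha
  induction ha using Submodule.span_induction with
  | mem x h' =>
    obtain ⟨β, rfl⟩ := h'
    exact h β
  | zero =>
    unfold hcI
    simp
  | add x y hx0 hy0 hx hy =>
    have hxc := hcS_cont p (a := x) hx0
    have hyc := hcS_cont p (a := y) hy0
    have e : ∀ (F1 : SF E ℂ) (M : E → F), Continuous M →
        hcI F1 M (x + y) = hcI F1 M x + hcI F1 M y := by
      intro F1 M hM
      unfold hcI
      rw [← MeasureTheory.integral_add (hc_int F1 hM hxc) (hc_int F1 hM hyc)]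
      refine MeasureTheory.integral_congr_ae (Filter.Eventually.of_forall fun z => ?_)
      show (x (M z) + y (M z)) * F1 z = _
      rw [add_mul]
    rw [e F1 M1 hM1, e F2 M2 hM2, mul_add, hx hx0, hy hy0]
  | smul c x hx0 hx =>
    have e : ∀ (F1 : SF E ℂ) (M : E → F), hcI F1 M (c • x) = c * hcI F1 M x := by
      intro F1 M
      unfold hcI
      rw [← MeasureTheory.integral_const_mul]
      refine MeasureTheory.integral_congr_ae (Filter.Eventually.of_forall fun z => ?_)
      show (c * x (M z)) * F1 z = _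
      rw [mul_assoc]
    rw [e, e, mul_left_comm, hx hx0]

omit [IsUltrametricDist F] [CharZero F] [StarRing E] [QExt F E] in
private theorem hc_all (p : PChar F) (F1 F2 : SF E ℂ) {M1 M2 : E → F} (hM1 : Continuous M1)
    (hM2 : Continuous M2) (c₀ : ℂ)
    (h : ∀ β : F, c₀ * hcI F1 M1 (fun r => p.ψ (β * r)) = hcI F2 M2 (fun r => p.ψ (β * r)))
    {g : F → ℂ} (hg : Continuous g) : c₀ * hcI F1 M1 g = hcI F2 M2 g := by
  have hbd : ∀ (F1 : SF E ℂ) (M : E → F), Continuous M → ∀ (a : F → ℂ), Continuous a →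
      ∀ ε : ℝ, (∀ r ∈ M '' tsupport (F1 : E → ℂ), ‖g r - a r‖ ≤ ε) →
      ‖hcI F1 M g - hcI F1 M a‖ ≤ ε * ∫ x : E, ‖F1 x‖
        ∂(MeasureTheory.Measure.addHaar : MeasureTheory.Measure E) := by
    intro F1 M hM a ha ε hε
    unfold hcI
    rw [← MeasureTheory.integral_sub (hc_int F1 hM hg) (hc_int F1 hM ha),
      ← MeasureTheory.integral_const_mul]
    have hi : MeasureTheory.Integrable (fun x : E => ε * ‖F1 x‖)
        (MeasureTheory.Measure.addHaar : MeasureTheory.Measure E) := by
      refine MeasureTheory.Integrable.const_mul ?_ ε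
      exact (Continuous.integrable_of_hasCompactSupport F1.2.1.continuous F1.2.2).norm
    refine MeasureTheory.norm_integral_le_of_norm_le hi (Filter.Eventually.of_forall fun x => ?_)
    rw [← sub_mul, norm_mul]
    by_cases hx : x ∈ tsupport (F1 : E → ℂ)
    · exact mul_le_mul_of_nonneg_right (hε _ ⟨x, hx, rfl⟩) (norm_nonneg _)
    · have h0 : F1 x = 0 := by
        by_contra h1
        exact hx (subset_tsupport _ h1)
      rw [h0, norm_zero, mul_zero, mul_zero]
  set K : ℝ := ‖c₀‖ * (∫ x : E, ‖F1 x‖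
      ∂(MeasureTheory.Measure.addHaar : MeasureTheory.Measure E)) +
      ∫ x : E, ‖F2 x‖ ∂(MeasureTheory.Measure.addHaar : MeasureTheory.Measure E) with hK
  have hK0 : 0 ≤ K := by
    rw [hK]
    have h1 : ∀ (F1 : SF E ℂ), 0 ≤ ∫ x : E, ‖F1 x‖
      ∂(MeasureTheory.Measure.addHaar : MeasureTheory.Measure E) := fun F1 =>
      MeasureTheory.integral_nonneg fun x => norm_nonneg _
    have := h1 F1
    have := h1 F2
    positivity
  have hC : IsCompact (M1 '' tsupport (F1 : E → ℂ) ∪ M2 '' tsupport (F2 : E → ℂ)) :=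
    (IsCompact.image F1.2.2 hM1).union (IsCompact.image F2.2.2 hM2)
  have hle : ∀ ε : ℝ, 0 < ε → ‖c₀ * hcI F1 M1 g - hcI F2 M2 g‖ ≤ ε * K := by
    intro ε hε
    obtain ⟨a, ha, hga⟩ := hc_approx p _ hC g hg ε hε
    have hac := hcS_cont p ha
    have h1 := hbd F1 M1 hM1 a hac ε fun r hr => hga r (Or.inl hr)
    have h2 := hbd F2 M2 hM2 a hac ε fun r hr => hga r (Or.inr hr)
    have h3 := hc_span p F1 F2 hM1 hM2 c₀ h ha
    have h4 : c₀ * hcI F1 M1 g - hcI F2 M2 g =
        c₀ * (hcI F1 M1 g - hcI F1 M1 a) - (hcI F2 M2 g - hcI F2 M2 a) := by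
      rw [mul_sub, h3]
      ring
    rw [h4]
    refine (norm_sub_le _ _).trans ?_
    rw [norm_mul]
    have h5 := mul_le_mul_of_nonneg_left h1 (norm_nonneg c₀)
    calc ‖c₀‖ * ‖hcI F1 M1 g - hcI F1 M1 a‖ + ‖hcI F2 M2 g - hcI F2 M2 a‖
        ≤ ‖c₀‖ * (ε * ∫ x : E, ‖F1 x‖
          ∂(MeasureTheory.Measure.addHaar : MeasureTheory.Measure E)) +
          ε * ∫ x : E, ‖F2 x‖ ∂(MeasureTheory.Measure.addHaar : MeasureTheory.Measure E) :=
        add_le_add h5 h2
      _ = ε * K := by rw [hK]; ring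
  by_contra hne
  have h6 : 0 < ‖c₀ * hcI F1 M1 g - hcI F2 M2 g‖ := norm_pos_iff.2 (sub_ne_zero.2 hne)
  have h7 := hle (‖c₀ * hcI F1 M1 g - hcI F2 M2 g‖ / (2 * (K + 1))) (by positivity)
  have h8 : ‖c₀ * hcI F1 M1 g - hcI F2 M2 g‖ / (2 * (K + 1)) * K <
      ‖c₀ * hcI F1 M1 g - hcI F2 M2 g‖ := by
    rw [div_mul_eq_mul_div, div_lt_iff₀ (by positivity)]
    nlinarith
  linarith

theorem h_const (p : PChar F) (s : F) (hs : s ≠ 0) (hsn : ¬ IsNorm F E s) (F1 F2 : SF E ℂ)
    (c₀ : ℂ) (hc₀ : c₀ ≠ 0) (N : E → F) (hN : ∀ x, algebraMap F E (N x) = x * star x)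
    (h : F → ℂ)
    (h1 : ∀ β, h β = ∫ x : E, p.ψ (β * N x) * F1 x
      ∂(MeasureTheory.Measure.addHaar : MeasureTheory.Measure E))
    (h2 : ∀ β, c₀ * h β = ∫ x : E, p.ψ (s⁻¹ * β * N x) * F2 x
      ∂(MeasureTheory.Measure.addHaar : MeasureTheory.Measure E)) :
    ∀ β β' : F, h β = h β' := by
  classical
  intro β β'
  have hNc : Continuous N := by
    rw [(algebraMap_isometry F E).isEmbedding.continuous_iff]
    have h3 : (algebraMap F E) ∘ N = fun x => x * star x := funext hN
    rw [h3]
    exact continuous_id.mul (continuous_star_E F E)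
  have hN0 : N 0 = 0 := by
    have h3 := hN 0
    rw [zero_mul, map_eq_zero] at h3
    exact h3
  have hNn : ∀ x : E, x ≠ 0 → IsNorm F E (N x) := fun x hx => ⟨x, hx, (hN x).symm⟩
  have hNne : ∀ x : E, x ≠ 0 → N x ≠ 0 := by
    intro x hx h3
    have h4 := hN x
    rw [h3, map_zero] at h4
    exact (mul_ne_zero hx (star_ne_zero.2 hx)) h4.symm
  have hn0 : ¬ IsNorm F E (0 : F) := by
    rintro ⟨x, hx, h3⟩
    rw [map_zero] at h3
    exact (mul_ne_zero hx (star_ne_zero.2 hx)) h3
  -- the test function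
  let g : F → ℂ := fun r => if IsNorm F E r then p.ψ (β * r) - p.ψ (β' * r) else 0
  have hg : Continuous g := by
    rw [continuous_iff_continuousAt]
    intro r
    have hψc : ∀ γ : F, IsLocallyConstant fun r : F => p.ψ (γ * r) := fun γ =>
      p.lc.comp_continuous (continuous_const.mul continuous_id)
    by_cases hr : r = 0
    · subst hr
      have h3 := (IsLocallyConstant.iff_eventually_eq _).1 (hψc β) 0
      have h4 := (IsLocallyConstant.iff_eventually_eq _).1 (hψc β') 0
      have h5 : g =ᶠ[nhds 0] fun _ => 0 := by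
        filter_upwards [h3, h4] with r hr1 hr2
        show (if IsNorm F E r then p.ψ (β * r) - p.ψ (β' * r) else 0) = 0
        split_ifs
        · rw [hr1, hr2, mul_zero, mul_zero, sub_self]
        · rfl
      exact (continuousAt_congr h5).2 continuousAt_const
    · obtain ⟨ρ, hρ, hρn⟩ := isNorm_near_one F E
      have h3 : ∀ᶠ r' in nhds r, ‖r' / r - 1‖ < ρ := by
        have hc : Continuous fun r' : F => ‖r' / r - 1‖ :=
          ((continuous_id.div_const r).sub continuous_const).norm
        have h4 := hc.continuousAt (x := r)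
        have h5 : ‖r / r - 1‖ < ρ := by rw [div_self hr, sub_self, norm_zero]; exact hρ
        exact h4.eventually (gt_mem_nhds h5)
      have h4 : ∀ᶠ r' in nhds r, r' ≠ 0 := isOpen_ne.mem_nhds hr
      have h5 : g =ᶠ[nhds r] fun r' => if IsNorm F E r then p.ψ (β * r') - p.ψ (β' * r') else 0 := by
        filter_upwards [h3, h4] with r' hr1 hr2
        have h6 : IsNorm F E r' ↔ IsNorm F E r := by
          have h7 := norm_mul_iff F E (c := r' / r) (c' := r) (div_ne_zero hr2 hr) hr (hρn _ hr1)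
          rwa [div_mul_cancel₀ _ hr] at h7
        show (if IsNorm F E r' then p.ψ (β * r') - p.ψ (β' * r') else 0) = _
        by_cases h7 : IsNorm F E r
        · rw [if_pos h7, if_pos (h6.2 h7)]
        · rw [if_neg h7, if_neg fun h8 => h7 (h6.1 h8)]
      refine (continuousAt_congr h5).2 ?_
      by_cases h7 : IsNorm F E r
      · simp only [if_pos h7]
        exact ((hψc β).continuous.sub (hψc β').continuous).continuousAt
      · simp only [if_neg h7]
        exact continuousAt_const
  -- the identity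
  have hM2 : Continuous fun x => s⁻¹ * N x := continuous_const.mul hNc
  have hall := hc_all p F1 F2 hNc hM2 c₀ (fun γ => by
    have h3 := h2 γ
    rw [h1 γ] at h3
    unfold hcI
    rw [h3]
    refine MeasureTheory.integral_congr_ae (Filter.Eventually.of_forall fun z => ?_)
    show p.ψ (s⁻¹ * γ * N z) * F2 z = p.ψ (γ * (s⁻¹ * N z)) * F2 z
    congr 2
    ring) hg
  have hL : hcI F1 N g = h β - h β' := by
    rw [h1 β, h1 β']
    have hψc : ∀ γ : F, Continuous fun r : F => p.ψ (γ * r) := fun γ =>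
      (p.lc.comp_continuous (continuous_const.mul continuous_id)).continuous
    rw [← MeasureTheory.integral_sub (hc_int F1 hNc (hψc β)) (hc_int F1 hNc (hψc β'))]
    unfold hcI
    refine MeasureTheory.integral_congr_ae (Filter.Eventually.of_forall fun z => ?_)
    show (if IsNorm F E (N z) then p.ψ (β * N z) - p.ψ (β' * N z) else 0) * F1 z =
      p.ψ (β * N z) * F1 z - p.ψ (β' * N z) * F1 z
    by_cases hz : z = 0
    · rw [hz, hN0, if_neg hn0, mul_zero, mul_zero]
      ring
    · rw [if_pos (hNn z hz), sub_mul]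
  have hR : hcI F2 (fun x => s⁻¹ * N x) g = 0 := by
    unfold hcI
    rw [← MeasureTheory.integral_zero E ℂ]
    refine MeasureTheory.integral_congr_ae (Filter.Eventually.of_forall fun z => ?_)
    show (if IsNorm F E (s⁻¹ * N z) then p.ψ (β * (s⁻¹ * N z)) - p.ψ (β' * (s⁻¹ * N z)) else 0) *
      F2 z = 0
    rw [if_neg, zero_mul]
    intro h3
    by_cases hz : z = 0
    · rw [hz, hN0, mul_zero] at h3
      exact hn0 h3
    · have h4 := norm_mul_iff F E (c := s⁻¹ * N z) (c' := s)
        (mul_ne_zero (inv_ne_zero hs) (hNne z hz)) hs h3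
      have h5 : s⁻¹ * N z * s = N z := by
        field_simp
      rw [h5] at h4
      exact hsn (h4.1 (hNn z hz))
  rw [hL, hR] at hall
  exact sub_eq_zero.1 ((mul_eq_zero.1 hall).resolve_left hc₀)

end

end Pool.Agent.Work.MP_dd0ddf_al
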