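import Pool.Agent.Work.MP_dd0ddf_al.DpOneA
import Pool.Agent.Work.MP_dd0ddf_al.HConst

/-!
# MP_dd0ddf_al, module DpOneB: two one-dimensional spaces with forms in different norm classes

`a0 = ⟨e,e⟩`, `⟨e',e'⟩' = s⁻¹ a0`.  For `β ∈ F`: `z_β = (β + a0/2)/(β - a0/2)` (exists_zb) and for the primed space `β' = s⁻¹ β` gives the same z.  Let `v` with `f v ≠ 0`, `F1(x) = L_{xe} f(v) / f(v)` (in SF E: x ↦ v - x e is a homeomorphism E → V), and `h(β) = ∫ ψ(β N x) F1(x) dx`: by oneL: `χ(z_β) = A μ(β - a0/2) h(β)`.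
By oneR for V' with β' = s⁻¹β and d' = s⁻¹(β - a0/2), f'(v') ≠ 0, F2(x) = R_{xe'} f'(v')/f'(v'), `W'.r (scU z⁻¹) f' = χ(z⁻¹)⁻¹ f' = χ(z) f'`: `χ(z_β) = A' μ(s⁻¹) μ(β - a0/2) ∫ ψ(s⁻¹ β N x) F2(x) dx`.  So `c0 h(β) = ∫ ψ(s⁻¹ β N x) F2`, `c0 = A/(A' μ(s⁻¹)) ≠ 0` and by h_const `h = H` is constant (H ≠ 0).
For ‖β‖ large: z_β is close to 1, so `χ(z_β) = 1` (local triviality), `μ(β - a0/2) = μ(β) μ(1 - a0/(2β)) = μ(β)` (μ_lc, μ 1 = 1); so `μ(β) = 1/(A H)` for all β ∈ F with ‖β‖ large; but there are norms and non norms of arbitrarily large absolute value (β = t² , β = s t²), with μ(β) > 0, < 0 respectively (μ_norm, μ_non): contradiction.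
-/

set_option linter.unusedSectionVars false
set_option linter.style.haveILetI false

namespace Pool.Agent.Work.MP_dd0ddf_al

noncomputable section

universe u

variable {F E : Type u} [NontriviallyNormedField F] [IsUltrametricDist F] [ProperSpace F]
  [CharZero F] [NontriviallyNormedField E] [NormedAlgebra F E] [ProperSpace E] [StarRing E]
  [QExt F E] [MeasurableSpace E] [BorelSpace E]
variable {V : Type u} [AddCommGroup V] [Module E V] [Module.Finite E V] [TopologicalSpace V]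
  [IsTopologicalAddGroup V] [T2Space V] [ContinuousSMul E V]

/-- `x ↦ x • e` is a closed embedding -/
private theorem dob_emb (e : V) (he : e ≠ 0) :
    Topology.IsClosedEmbedding (fun x : E => x • e) := by
  have h : LinearMap.ker (LinearMap.toSpanSingleton E V e) = ⊥ := by
    rw [LinearMap.ker_eq_bot']
    intro x hx
    rw [LinearMap.toSpanSingleton_apply] at hx
    exact (smul_eq_zero.1 hx).resolve_right he
  exact LinearMap.isClosedEmbedding_of_injective h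

/-- the function `x ↦ c(x) g(x) / w` pulled back to `E` -/
private theorem dob_sf (e : V) (he : e ≠ 0) (f : SF V ℂ) (v : V) (w : ℂ)
    (c : E → ℂ) (hc : IsLocallyConstant c) :
    ∃ F1 : SF E ℂ, ∀ x : E, F1 x = c x * f (v - x • e) * w := by
  have hcont : Continuous (fun x : E => v - x • e) :=
    continuous_const.sub (continuous_id.smul continuous_const)
  have hemb : Topology.IsClosedEmbedding (fun x : E => v - x • e) := by
    have h1 : (fun x : E => v - x • e) = (Homeomorph.subLeft v) ∘ (fun x : E => x • e) := rfl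
    rw [h1]
    exact (Homeomorph.subLeft v).isClosedEmbedding.comp (dob_emb e he)
  refine ⟨⟨fun x => c x * f (v - x • e) * w, ?_, ?_⟩, fun x => rfl⟩
  · have h2 : IsLocallyConstant (fun x : E => f (v - x • e)) := f.2.1.comp_continuous hcont
    exact (hc.comp₂ h2 (fun a b => a * b * w))
  · have h3 : HasCompactSupport (fun x : E => f (v - x • e)) :=
      f.2.2.comp_isClosedEmbedding hemb
    refine h3.mono' (fun x hx => subset_tsupport _ ?_)
    intro h
    apply hx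
    show c x * f (v - x • e) * w = 0
    have h' : f (v - x • e) = 0 := h
    rw [h']
    ring

/-- a neighbourhood of `1` in the units contains a ball -/
private theorem dob_ball (U : Set Eˣ) (hU : IsOpen U) (h1 : (1 : Eˣ) ∈ U) :
    ∃ δ : ℝ, 0 < δ ∧ ∀ x : Eˣ, ‖(x : E) - 1‖ < δ → x ∈ U := by
  have hemb : Topology.IsEmbedding (Units.val : Eˣ → E) := Units.isEmbedding_val₀
  obtain ⟨W, hW, hWU⟩ := hemb.isInducing.isOpen_iff.1 hU
  have h1W : (1 : E) ∈ W := by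
    have : (1 : Eˣ) ∈ Units.val ⁻¹' W := by rw [hWU]; exact h1
    exact this
  obtain ⟨δ, hδ, hb⟩ := Metric.isOpen_iff.1 hW 1 h1W
  refine ⟨δ, hδ, fun x hx => ?_⟩
  have : x ∈ Units.val ⁻¹' W := hb (by rw [Metric.mem_ball, dist_eq_norm]; exact hx)
  rw [hWU] at this
  exact this

private theorem dob_ball1 (U : Set (E1 E)) (hU : IsOpen U) (h1 : (1 : E1 E) ∈ U) :
    ∃ δ : ℝ, 0 < δ ∧ ∀ z : E1 E, ‖((z.1 : Eˣ) : E) - 1‖ < δ → z ∈ U := by
  obtain ⟨W, hW, hWU⟩ := isOpen_induced_iff.1 hU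
  have h1W : (1 : Eˣ) ∈ W := by
    have : (1 : E1 E) ∈ (Subtype.val : E1 E → Eˣ) ⁻¹' W := by rw [hWU]; exact h1
    exact this
  obtain ⟨δ, hδ, hb⟩ := dob_ball W hW h1W
  refine ⟨δ, hδ, fun z hz => ?_⟩
  have : z ∈ (Subtype.val : E1 E → Eˣ) ⁻¹' W := hb z.1 hz
  rw [hWU] at this
  exact this

theorem dpOneB {V' : Type u} [AddCommGroup V'] [Module E V'] [Module.Finite E V']
    [TopologicalSpace V'] [IsTopologicalAddGroup V'] [T2Space V'] [ContinuousSMul E V']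
    {B : SkewH E V} {B' : SkewH E V'} {p : PChar F} (W : WeilRep B p) (W' : WeilRep B' p)
    (hμ : ∀ x : Eˣ, W.μ x = W'.μ x) (e : V) (he : e ≠ 0) (e' : V') (he' : e' ≠ 0)
    (hdim : Module.finrank E V = 1) (hdim' : Module.finrank E V' = 1)
    (s : F) (hs : s ≠ 0) (hsn : ¬ IsNorm F E s)
    (hB : B'.ip e' e' = algebraMap F E s⁻¹ * B.ip e e) (χ : E1 E →* ℂˣ)
    (hχ : ∃ U : Set (E1 E), IsOpen U ∧ (1 : E1 E) ∈ U ∧ ∀ z ∈ U, χ z = 1)
    (f : SF V ℂ) (hf0 : f ≠ 0)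
    (hf : ∀ z : E1 E, W.l (scU B z) f = ((χ z : ℂˣ) : ℂ) • f)
    (f' : SF V' ℂ) (hf0' : f' ≠ 0)
    (hf' : ∀ z : E1 E, W'.r (scU B' z) f' = (((χ z)⁻¹ : ℂˣ) : ℂ) • f') : False := by
  classical
  set a0 : E := B.ip e e with ha0def
  have hstar : star a0 = -a0 := by
    have := B.skew e e
    rw [ha0def]
    rw [← neg_eq_iff_eq_neg, ← this]
  have ha0 : a0 ≠ 0 := by
    intro h0
    apply he
    apply B.nondeg
    intro w
    obtain ⟨c, rfl⟩ := (finrank_eq_one_iff_of_nonzero' e he).1 hdim w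
    rw [B.smul_right, ← ha0def, h0, mul_zero]
  -- nonvanishing points
  obtain ⟨v, hv⟩ : ∃ v, f v ≠ 0 := by
    by_contra hcon
    push Not at hcon
    exact hf0 (SF.ext hcon)
  obtain ⟨v', hv'⟩ : ∃ v', f' v' ≠ 0 := by
    by_contra hcon
    push Not at hcon
    exact hf0' (SF.ext hcon)
  -- the functions F1, F2
  have hc1 : IsLocallyConstant (fun x : E => p.ψ (2⁻¹ * om F B (x • e) v)) :=
    p.lc.comp_continuous (continuous_const.mul ((continuous_om_left B v).comp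
      (continuous_id.smul continuous_const)))
  have hc2 : IsLocallyConstant (fun x : E => p.ψ (2⁻¹ * om F B' v' (x • e'))) :=
    p.lc.comp_continuous (continuous_const.mul ((continuous_om_right B' v').comp
      (continuous_id.smul continuous_const)))
  obtain ⟨F1, hF1⟩ := dob_sf e he f v (f v)⁻¹ _ hc1
  obtain ⟨F2, hF2⟩ := dob_sf e' he' f' v' (f' v')⁻¹ _ hc2
  have hF1' : ∀ x : E, F1 x = Lop B p (x • e) f v * (f v)⁻¹ := fun x => hF1 x
  have hF2' : ∀ x : E, F2 x = Rop B' p (x • e') f' v' * (f' v')⁻¹ := fun x => hF2 x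
  set h : F → ℂ := fun β => ∫ x : E, p.ψ (β * nmF F x) * F1 x
    ∂(MeasureTheory.Measure.addHaar : MeasureTheory.Measure E) with hh
  set g : F → ℂ := fun β => ∫ x : E, p.ψ (s⁻¹ * β * nmF F x) * F2 x
    ∂(MeasureTheory.Measure.addHaar : MeasureTheory.Measure E) with hg
  -- the unit s⁻¹
  have hs' : algebraMap F E s⁻¹ ≠ 0 := by
    rw [map_ne_zero]
    exact inv_ne_zero hs
  set us : Eˣ := Units.mk0 (algebraMap F E s⁻¹) hs' with hus
  -- first formula
  have key1 : ∀ (β : F) (z : E1 E) (d : Eˣ), (d : E) = algebraMap F E β - 2⁻¹ * a0 →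
      ((z.1 : Eˣ) : E) * (algebraMap F E β - 2⁻¹ * a0) = algebraMap F E β + 2⁻¹ * a0 →
      ((χ z : ℂˣ) : ℂ) = W.A * ((W.μ d : ℂˣ) : ℂ) * h β := by
    intro β z d hd hz
    have h1 := oneL W e he hdim β z d hd hz f v
    rw [hf z] at h1
    have h2 : (∫ x : E, p.ψ (β * nmF F x) * Lop B p (x • e) f v
        ∂(MeasureTheory.Measure.addHaar : MeasureTheory.Measure E)) = h β * f v := by
      rw [hh, ← MeasureTheory.integral_mul_const]
      refine MeasureTheory.integral_congr_ae (Filter.Eventually.of_forall fun x => ?_)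
      show p.ψ (β * nmF F x) * Lop B p (x • e) f v = p.ψ (β * nmF F x) * F1 x * f v
      rw [hF1', mul_assoc (p.ψ _), mul_assoc (Lop B p (x • e) f v), inv_mul_cancel₀ hv, mul_one]
    rw [h2] at h1
    have h3 : ((χ z : ℂˣ) : ℂ) * f v = W.A * ((W.μ d : ℂˣ) : ℂ) * h β * f v := by
      rw [mul_assoc (W.A * ((W.μ d : ℂˣ) : ℂ))]
      exact h1
    exact mul_right_cancel₀ hv h3
  -- second formula
  have key2 : ∀ (β : F) (z : E1 E) (d : Eˣ), (d : E) = algebraMap F E β - 2⁻¹ * a0 →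
      ((z.1 : Eˣ) : E) * (algebraMap F E β - 2⁻¹ * a0) = algebraMap F E β + 2⁻¹ * a0 →
      ((χ z : ℂˣ) : ℂ) = W'.A * (((W.μ us : ℂˣ) : ℂ) * ((W.μ d : ℂˣ) : ℂ)) * g β := by
    intro β z d hd hz
    have hd' : ((us * d : Eˣ) : E) = algebraMap F E (s⁻¹ * β) - 2⁻¹ * B'.ip e' e' := by
      rw [Units.val_mul, hd, hB, map_mul]
      show algebraMap F E s⁻¹ * _ = _
      ring
    have hz' : ((z.1 : Eˣ) : E) * (algebraMap F E (s⁻¹ * β) - 2⁻¹ * B'.ip e' e') =
        algebraMap F E (s⁻¹ * β) + 2⁻¹ * B'.ip e' e' := by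
      rw [hB, map_mul]
      linear_combination (algebraMap F E s⁻¹) * hz
    have h1 := oneR W' e' he' hdim' (s⁻¹ * β) z (us * d) hd' hz' f' v'
    rw [hf' z⁻¹] at h1
    have h2 : (∫ x : E, p.ψ (s⁻¹ * β * nmF F x) * Rop B' p (x • e') f' v'
        ∂(MeasureTheory.Measure.addHaar : MeasureTheory.Measure E)) = g β * f' v' := by
      rw [hg, ← MeasureTheory.integral_mul_const]
      refine MeasureTheory.integral_congr_ae (Filter.Eventually.of_forall fun x => ?_)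
      show p.ψ (s⁻¹ * β * nmF F x) * Rop B' p (x • e') f' v' =
        p.ψ (s⁻¹ * β * nmF F x) * F2 x * f' v'
      rw [hF2', mul_assoc (p.ψ _), mul_assoc (Rop B' p (x • e') f' v'), inv_mul_cancel₀ hv',
        mul_one]
    rw [h2, map_inv, inv_inv, ← hμ, map_mul, Units.val_mul] at h1
    have h3 : ((χ z : ℂˣ) : ℂ) * f' v' =
        W'.A * (((W.μ us : ℂˣ) : ℂ) * ((W.μ d : ℂˣ) : ℂ)) * g β * f' v' := by
      rw [mul_assoc (W'.A * _)]
      exact h1
    exact mul_right_cancel₀ hv' h3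
  -- h is constant
  set c₀ : ℂ := W.A / (W'.A * ((W.μ us : ℂˣ) : ℂ)) with hc₀
  have hc₀0 : c₀ ≠ 0 := div_ne_zero W.A0 (mul_ne_zero W'.A0 (Units.ne_zero _))
  have hrel : ∀ β, c₀ * h β = g β := by
    intro β
    obtain ⟨z, d, hd, hz⟩ := exists_zb a0 hstar ha0 β
    have h1 := key1 β z d hd hz
    have h2 := key2 β z d hd hz
    rw [h1] at h2
    have h3 : ((W.μ d : ℂˣ) : ℂ) ≠ 0 := Units.ne_zero _
    have h4 : W.A * h β = W'.A * ((W.μ us : ℂˣ) : ℂ) * g β := by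
      apply mul_right_cancel₀ h3
      linear_combination h2
    rw [hc₀, div_mul_eq_mul_div, h4,
      mul_div_cancel_left₀ _ (mul_ne_zero W'.A0 (Units.ne_zero _))]
  have hconst : ∀ β β' : F, h β = h β' :=
    h_const p s hs hsn F1 F2 c₀ hc₀0 (nmF F) nmF_spec h (fun β => rfl) (fun β => hrel β)
  -- neighbourhoods
  obtain ⟨U, hUo, hU1, hUχ⟩ := hχ
  obtain ⟨δ1, hδ1, hb1⟩ := dob_ball1 U hUo hU1
  obtain ⟨δ2, hδ2, hb2⟩ := dob_ball ((fun x : Eˣ => ((W.μ x : ℂˣ) : ℂ)) ⁻¹' {1}) (W.μ_lc {1})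
    (by
      show ((W.μ 1 : ℂˣ) : ℂ) = 1
      rw [map_one, Units.val_one])
  set a : E := 2⁻¹ * a0 with ha
  have h2a : a + a = a0 := by
    have h2E : (2 : E) ≠ 0 := by
      have h3 : algebraMap F E 2 ≠ 0 := by
        rw [map_ne_zero]
        exact two_ne_zero
      rwa [map_ofNat] at h3
    rw [ha, ← two_mul, mul_inv_cancel_left₀ h2E]
  set R : ℝ := max (‖a‖ + ‖a0‖ / δ1) (‖a‖ / δ2) with hR
  have hR0 : 0 ≤ R := le_max_of_le_right (by positivity)
  have big : ∀ β : Fˣ, R < ‖(β : F)‖ →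
      W.A * ((W.μ (Units.map (algebraMap F E).toMonoidHom β) : ℂˣ) : ℂ) * h 0 = 1 := by
    intro β hβ
    obtain ⟨z, d, hd, hz⟩ := exists_zb a0 hstar ha0 (β : F)
    have hk := key1 β z d hd hz
    rw [← ha] at hd hz
    have hβ1 : ‖a‖ + ‖a0‖ / δ1 < ‖(β : F)‖ := lt_of_le_of_lt (le_max_left _ _) hβ
    have hβ2 : ‖a‖ / δ2 < ‖(β : F)‖ := lt_of_le_of_lt (le_max_right _ _) hβ
    have hβ0 : 0 < ‖(β : F)‖ := lt_of_le_of_lt hR0 hβ
    -- z is close to 1
    have hzU : z ∈ U := by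
      apply hb1
      have e1 : (((z.1 : Eˣ) : E) - 1) * (d : E) = a0 := by
        rw [hd]
        linear_combination hz + h2a
      have e2 : ‖((z.1 : Eˣ) : E) - 1‖ * ‖(d : E)‖ = ‖a0‖ := by
        rw [← norm_mul, e1]
      have e3 : ‖a0‖ / δ1 < ‖(d : E)‖ := by
        have e4 : ‖algebraMap F E (β : F)‖ - ‖a‖ ≤ ‖(d : E)‖ := by
          rw [hd]
          exact norm_sub_norm_le _ _
        rw [norm_algebraMap'] at e4
        linarith
      have e5 : 0 < ‖(d : E)‖ := norm_pos_iff.2 d.ne_zero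
      have e6 : ‖a0‖ < δ1 * ‖(d : E)‖ := by
        rw [div_lt_iff₀ hδ1] at e3
        linarith
      rw [← e2] at e6
      exact lt_of_mul_lt_mul_right e6 e5.le
    -- the factor
    set β' : Eˣ := Units.map (algebraMap F E).toMonoidHom β with hβ'
    have hβ'v : (β' : E) = algebraMap F E (β : F) := rfl
    have hw : ((W.μ (β'⁻¹ * d) : ℂˣ) : ℂ) = 1 := by
      apply hb2
      have e1 : (β' : E) * (((β'⁻¹ * d : Eˣ) : E) - 1) = -a := by
        rw [mul_sub, mul_one, ← Units.val_mul, mul_inv_cancel_left, hd, hβ'v]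
        ring
      have e2 : ‖(β' : E)‖ * ‖((β'⁻¹ * d : Eˣ) : E) - 1‖ = ‖a‖ := by
        rw [← norm_mul, e1, norm_neg]
      rw [hβ'v, norm_algebraMap'] at e2
      have e3 : ‖a‖ < ‖(β : F)‖ * δ2 := by
        rwa [div_lt_iff₀ hδ2] at hβ2
      rw [← e2] at e3
      exact lt_of_mul_lt_mul_left e3 hβ0.le
    have hμd : ((W.μ d : ℂˣ) : ℂ) = ((W.μ β' : ℂˣ) : ℂ) := by
      have e1 : d = β' * (β'⁻¹ * d) := by group
      rw [e1, map_mul, Units.val_mul, hw, mul_one]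
    rw [hUχ z hzU, Units.val_one, hμd, hconst β 0] at hk
    exact hk.symm
  have hs0 : 0 < ‖s‖ := norm_pos_iff.2 hs
  obtain ⟨T, hT⟩ := NormedField.exists_lt_norm F (max 1 (max R (R / ‖s‖)))
  have hT1 : 1 < ‖T‖ := lt_of_le_of_lt (le_max_left _ _) hT
  have hTR : R < ‖T‖ := lt_of_le_of_lt ((le_max_left _ _).trans (le_max_right _ _)) hT
  have hTs : R / ‖s‖ < ‖T‖ := lt_of_le_of_lt ((le_max_right _ _).trans (le_max_right _ _)) hT
  have hT0 : T ≠ 0 := norm_pos_iff.1 (zero_lt_one.trans hT1)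
  have hTT : ‖T‖ ≤ ‖T * T‖ := by
    rw [norm_mul]
    nlinarith
  have hn1 : R < ‖T * T‖ := lt_of_lt_of_le hTR hTT
  have hn2 : R < ‖s * (T * T)‖ := by
    rw [norm_mul]
    rw [div_lt_iff₀ hs0] at hTs
    nlinarith
  have hm1 : T * T ≠ 0 := mul_ne_zero hT0 hT0
  have hm2 : s * (T * T) ≠ 0 := mul_ne_zero hs hm1
  have hTE : algebraMap F E T ≠ 0 := by
    rw [map_ne_zero]
    exact hT0
  have hN1 : IsNorm F E (T * T) :=
    ⟨algebraMap F E T, hTE, by rw [QExt.star_alg, map_mul]⟩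
  have hN2 : ¬ IsNorm F E (s * (T * T)) := by
    rintro ⟨x, hx0, hx⟩
    refine hsn ⟨x * algebraMap F E T⁻¹, mul_ne_zero hx0 (by
      rw [map_ne_zero]
      exact inv_ne_zero hT0), ?_⟩
    rw [star_mul', QExt.star_alg]
    have e1 : x * algebraMap F E T⁻¹ * (star x * algebraMap F E T⁻¹) =
        (x * star x) * (algebraMap F E T⁻¹ * algebraMap F E T⁻¹) := by ring
    rw [e1, hx, ← map_mul, ← map_mul]
    congr 1
    field_simp
  obtain ⟨r, hr, hr1⟩ := W.μ_norm (Units.mk0 _ hm1) hN1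
  obtain ⟨r', hr', hr1'⟩ := W.μ_non (Units.mk0 _ hm2) hN2
  have b1 := big (Units.mk0 _ hm1) hn1
  have b2 := big (Units.mk0 _ hm2) hn2
  rw [hr1] at b1
  rw [hr1'] at b2
  have hH : h 0 ≠ 0 := by
    intro h0
    rw [h0, mul_zero] at b1
    exact zero_ne_one b1
  have b3 : (r : ℂ) = -(r' : ℂ) := by
    have e1 : W.A * (r : ℂ) * h 0 = W.A * (-(r' : ℂ)) * h 0 := by rw [b1, b2]
    exact mul_left_cancel₀ W.A0 (mul_right_cancel₀ hH e1)
  have b4 : r = -r' := by exact_mod_cast b3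
  linarith

end

end Pool.Agent.Work.MP_dd0ddf_al
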