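import Pool.Agent.Work.MP_dd0ddf_al.JDefs

/-!
# MP_dd0ddf_al, module JContr: contraction of the unipotent radical

`D : IsoD B`.  `V1^⊥ ⊇ Y` is nondegenerate (ndeg_orth) and `Y` is its own orthogonal in it; choose an isotropic complement `Y'` of Y in V1^⊥: `V = Y ⊕ V1 ⊕ Y'`, Y' isotropic, orthogonal to V1 (existence of a Lagrangian complement: e.g. take any complement C of Y in V1^⊥; the pairing Y × C → E is perfect; correct each c ∈ C by an element
of Y: c ↦ c + φ(c), φ : C → Y with ⟨φ(c), c'⟩ = -½⟨c, c'⟩).  For `t ∈ F^×` let `m_t = t` on Y, `1` on V1, `t⁻¹` on Y': an isometry (star t = t).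
`n` with `n y = y` on Y, `n w - w ∈ Y` for w ∈ V1: then `n` is unipotent: for z ∈ Y': `n z = z + a(z) + b(z)`, `a(z) ∈ V1`, `b(z) ∈ Y` (n z - z ∈ Y^⊥ since ⟨n z, y⟩ = ⟨n z, n y⟩ = ⟨z, y⟩).  `m_t n m_t⁻¹`: on V1: w + t(nw - w); on Y': z + t a(z) + t² b(z).  It tends to 1 (also its inverse m_t n⁻¹ m_t⁻¹) as t → 0.
-/

set_option linter.unusedSectionVars false
set_option linter.style.haveILetI false

namespace Pool.Agent.Work.MP_dd0ddf_al

noncomputable section

universe u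

section Alg

variable {E V : Type*} [Field E] [StarRing E] [AddCommGroup V] [Module E V]
  [Module.Finite E V] {B : SkewH E V} (D : IsoD B)

private theorem jc_adj_add (B : SkewH E V) (g h : Module.End E V) :
    adj B (g + h) = adj B g + adj B h := by
  symm
  apply adj_unique
  intro v w
  show B.ip (g v + h v) w = B.ip v (adj B g w + adj B h w)
  rw [B.add_left, B.add_right, adj_spec, adj_spec]

private theorem jc_adj_smul (B : SkewH E V) (a : E) (g : Module.End E V) :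
    adj B (a • g) = star a • adj B g := by
  symm
  apply adj_unique
  intro v w
  show B.ip (a • g v) w = B.ip v (star a • adj B g w)
  rw [B.smul_left, B.smul_right, star_star, adj_spec]

/-- the idempotent `Q` with range `Y`, `Q + Q^* = 1 - pr` -/
private theorem jc_Q (h2 : (2 : E) ≠ 0) (D : IsoD B) : ∃ Q : Module.End E V,
    (∀ v, Q v ∈ D.Y) ∧ (∀ y ∈ D.Y, Q y = y) ∧ (∀ w ∈ D.V1, Q w = 0) ∧
    Q + adj B Q = 1 - prO B D.V1 D.nd := by
  set P1 := prO B D.V1 D.nd with hP1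
  obtain ⟨π, hπ⟩ := LinearMap.exists_leftInverse_of_injective D.Y.subtype (by
    rw [Submodule.ker_subtype])
  have hπ' : ∀ y : D.Y, π (y : V) = y := fun y => congrArg (fun f : _ →ₗ[E] _ => f y) hπ
  set Q0 : Module.End E V := (D.Y.subtype ∘ₗ π) * (1 - P1) with hQ0
  have hQ0a : ∀ v, Q0 v = (π (v - P1 v) : V) := fun v => rfl
  have hQ0Y : ∀ v, Q0 v ∈ D.Y := fun v => by
    rw [hQ0a]
    exact (π _).2
  have hQ0y : ∀ y ∈ D.Y, Q0 y = y := by
    intro y hy
    rw [hQ0a, hP1, D.pr_Y hy, sub_zero]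
    exact congrArg Subtype.val (hπ' ⟨y, hy⟩)
  have hQ0w : ∀ w ∈ D.V1, Q0 w = 0 := by
    intro w hw
    rw [hQ0a, hP1, prO_of_mem B D.V1 D.nd hw, sub_self, map_zero]
    rfl
  set R : Module.End E V := 1 - P1 - (Q0 + adj B Q0) with hR
  have hP1a : adj B P1 = P1 := (adj_unique B (prO_SA B D.V1 D.nd)).symm
  have hneg : ∀ g : Module.End E V, adj B (-g) = - adj B g := by
    intro g
    have h := jc_adj_smul B (-1) g
    rw [star_neg, star_one, neg_smul, neg_smul, one_smul, one_smul] at h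
    exact h
  have hsub : ∀ g h : Module.End E V, adj B (g - h) = adj B g - adj B h := by
    intro g h
    rw [sub_eq_add_neg, jc_adj_add, hneg, sub_eq_add_neg]
  have hRa : adj B R = R := by
    rw [hR, hsub, hsub, jc_adj_add, adj_adj, adj_one, hP1a, add_comm (adj B Q0)]
  have hQ0s : ∀ v ∈ orth B D.Y, adj B Q0 v = 0 := by
    intro v hv
    apply ip_ext B
    intro u
    rw [← adj_spec, B.skew v (Q0 u), hv _ (hQ0Y u), star_zero, neg_zero]
    have := B.smul_right 0 u 0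
    rw [zero_smul, star_zero, zero_mul] at this
    exact this.symm
  have hR0 : ∀ v ∈ orth B D.Y, R v = 0 := by
    intro v hv
    show v - P1 v - (Q0 v + adj B Q0 v) = 0
    rw [hQ0s v hv, add_zero]
    have h3 := D.sub_pr hv
    have h4 : Q0 v = v - P1 v := by
      have h5 : v = (v - P1 v) + P1 v := by abel
      have h6 : Q0 v = Q0 ((v - P1 v) + P1 v) := by rw [← h5]
      rw [h6, map_add, hQ0y _ h3, hQ0w _ (prO_mem B D.V1 D.nd v), add_zero]
    rw [h4, sub_self]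
  have hRY : ∀ v, R v ∈ D.Y := by
    intro v
    rw [← orth_orth B D.Y]
    intro u hu
    rw [adj_spec, hRa, hR0 u hu]
    have := B.smul_right 0 v 0
    rw [zero_smul, star_zero, zero_mul] at this
    exact this
  have hYle : ∀ y ∈ D.Y, y ∈ orth B D.Y := fun y hy y' hy' => D.iso y hy y' hy'
  have hhalf : (2⁻¹ : E) + 2⁻¹ = 1 := by
    rw [← two_mul, mul_inv_cancel₀ h2]
  have hstar : star (2⁻¹ : E) = 2⁻¹ := by
    rw [star_inv₀, star_ofNat]
  refine ⟨Q0 + (2⁻¹ : E) • R, fun v => ?_, fun y hy => ?_, fun w hw => ?_, ?_⟩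
  · exact D.Y.add_mem (hQ0Y v) (D.Y.smul_mem _ (hRY v))
  · show Q0 y + (2⁻¹ : E) • R y = y
    rw [hR0 y (hYle y hy), smul_zero, add_zero, hQ0y y hy]
  · show Q0 w + (2⁻¹ : E) • R w = 0
    rw [hR0 w (D.V1_le hw), smul_zero, add_zero, hQ0w w hw]
  · rw [jc_adj_add, jc_adj_smul, hRa, hstar]
    have h3 : Q0 + (2⁻¹ : E) • R + (adj B Q0 + (2⁻¹ : E) • R) =
        Q0 + adj B Q0 + ((2⁻¹ : E) • R + (2⁻¹ : E) • R) := by abel
    rw [h3, ← add_smul, hhalf, one_smul, hR]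
    abel

/-- the idempotent relations -/
private structure JcQ (D : IsoD B) (Q Q' : Module.End E V) : Prop where
  rng : ∀ v, Q v ∈ D.Y
  idY : ∀ y ∈ D.Y, Q y = y
  adj : adj B Q = Q'
  qq : Q * Q = Q
  qp : Q * prO B D.V1 D.nd = 0
  pq : prO B D.V1 D.nd * Q = 0
  pp : prO B D.V1 D.nd * prO B D.V1 D.nd = prO B D.V1 D.nd
  q'q' : Q' * Q' = Q'
  q'p : Q' * prO B D.V1 D.nd = 0
  pq' : prO B D.V1 D.nd * Q' = 0
  qq' : Q * Q' = 0
  q'q : Q' * Q = 0
  sum : Q + prO B D.V1 D.nd + Q' = 1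

private theorem jc_exQ (h2 : (2 : E) ≠ 0) (D : IsoD B) : ∃ Q Q' : Module.End E V, JcQ D Q Q' := by
  obtain ⟨Q, hQ1, hQ2, hQ3, hQ4⟩ := jc_Q h2 D
  set P1 := prO B D.V1 D.nd with hP1
  have hP1a : adj B P1 = P1 := (adj_unique B (prO_SA B D.V1 D.nd)).symm
  have hz : adj B (0 : Module.End E V) = 0 := by
    have h := jc_adj_smul B (0 : E) 0
    rw [zero_smul, star_zero, zero_smul] at h
    exact h
  have hqq : Q * Q = Q := by
    ext v
    exact hQ2 _ (hQ1 v)
  have hqp : Q * P1 = 0 := by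
    ext v
    exact hQ3 _ (prO_mem B D.V1 D.nd v)
  have hpq : P1 * Q = 0 := by
    ext v
    exact D.pr_Y (hQ1 v)
  have hpp : P1 * P1 = P1 := by
    ext v
    exact prO_of_mem B D.V1 D.nd (prO_mem B D.V1 D.nd v)
  have hQ' : adj B Q = 1 - P1 - Q := by
    rw [← hQ4]
    abel
  refine ⟨Q, adj B Q, ⟨hQ1, hQ2, rfl, hqq, hqp, hpq, hpp, ?_, ?_, ?_, ?_, ?_, ?_⟩⟩
  · rw [← adj_mul, hqq]
  · have h3 : adj B (P1 * Q) = 0 := by rw [hpq, hz]
    rw [adj_mul, hP1a] at h3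
    exact h3
  · have h3 : adj B (Q * P1) = 0 := by rw [hqp, hz]
    rw [adj_mul, hP1a] at h3
    exact h3
  · rw [hQ', mul_sub, mul_sub, mul_one, hqp, hqq, sub_zero, sub_self]
  · rw [hQ', sub_mul, sub_mul, one_mul, hpq, hqq, sub_zero, sub_self]
  · rw [hQ']
    abel

/-- `m_s = s Q + P1 + s⁻¹ Q'` -/
private theorem jc_m {Q Q' : Module.End E V} (h : JcQ D Q Q') (s : E) (hs : s ≠ 0)
    (hs' : star s = s) : ∃ m : UU B, m.1.1 = s • Q + prO B D.V1 D.nd + s⁻¹ • Q' ∧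
      (m⁻¹).1.1 = s⁻¹ • Q + prO B D.V1 D.nd + s • Q' := by
  have key : ∀ a b : E, a * b = 1 →
      (a • Q + prO B D.V1 D.nd + b • Q') * (b • Q + prO B D.V1 D.nd + a • Q') = 1 := by
    intro a b hab
    simp only [mul_add, add_mul, smul_mul_assoc, mul_smul_comm, h.qq, h.qp, h.pq, h.pp, h.q'q',
      h.q'p, h.pq', h.qq', h.q'q, smul_zero, add_zero, zero_add]
    rw [smul_smul, smul_smul, mul_comm b a, hab, one_smul, one_smul]
    exact h.sum
  have h1 : s * s⁻¹ = 1 := mul_inv_cancel₀ hs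
  have h1' : s⁻¹ * s = 1 := inv_mul_cancel₀ hs
  have hP1a : adj B (prO B D.V1 D.nd) = prO B D.V1 D.nd :=
    (adj_unique B (prO_SA B D.V1 D.nd)).symm
  have hadj : adj B (s • Q + prO B D.V1 D.nd + s⁻¹ • Q') =
      s⁻¹ • Q + prO B D.V1 D.nd + s • Q' := by
    have h3 : adj B Q' = Q := by rw [← h.adj, adj_adj]
    rw [jc_adj_add, jc_adj_add, jc_adj_smul, jc_adj_smul, h.adj, h3, hP1a, star_inv₀, hs']
    abel
  refine ⟨⟨⟨s • Q + prO B D.V1 D.nd + s⁻¹ • Q', s⁻¹ • Q + prO B D.V1 D.nd + s • Q',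
    key s s⁻¹ h1, key s⁻¹ s h1'⟩, ?_⟩, rfl, rfl⟩
  intro v w
  show B.ip ((s • Q + prO B D.V1 D.nd + s⁻¹ • Q') v)
    ((s • Q + prO B D.V1 D.nd + s⁻¹ • Q') w) = B.ip v w
  rw [adj_spec, hadj]
  have h3 := congrArg (fun f : Module.End E V => f w) (key s⁻¹ s h1')
  exact congrArg (B.ip v) h3

/-- the conjugate of a unipotent element -/
private theorem jc_conj {Q Q' : Module.End E V} (h : JcQ D Q Q') (n : UU B)
    (hn : ∀ y ∈ D.Y, n.1.1 y = y) (hn1 : ∀ w ∈ D.V1, n.1.1 w - w ∈ D.Y) :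
    ∃ A C : Module.End E V, ∀ s : E, s ≠ 0 →
      (s • Q + prO B D.V1 D.nd + s⁻¹ • Q') * n.1.1 * (s⁻¹ • Q + prO B D.V1 D.nd + s • Q') =
        1 + s • A + (s * s) • C := by
  set P1 := prO B D.V1 D.nd with hP1
  set N : Module.End E V := n.1.1 - 1 with hN
  have hNQ : N * Q = 0 := by
    ext v
    show n.1.1 (Q v) - Q v = 0
    rw [hn _ (h.rng v), sub_self]
  have hinv : ∀ v, (n⁻¹).1.1 (n.1.1 v) = v := fun v =>
    congrArg (fun f : Module.End E V => f v) n.1.inv_mul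
  have hadjn : adj B n.1.1 = (n⁻¹).1.1 := by
    symm
    apply adj_unique
    intro v w
    have h3 : n.1.1 ((n⁻¹).1.1 w) = w := congrArg (fun f : Module.End E V => f w) n.1.mul_inv
    calc B.ip (n.1.1 v) w = B.ip (n.1.1 v) (n.1.1 ((n⁻¹).1.1 w)) := by rw [h3]
      _ = B.ip v ((n⁻¹).1.1 w) := n.2 _ _
  have hnq : (n⁻¹).1.1 * Q = Q := by
    ext v
    show (n⁻¹).1.1 (Q v) = Q v
    have h3 := hinv (Q v)
    rw [hn _ (h.rng v)] at h3
    exact h3
  have hQ'n : Q' * n.1.1 = Q' := by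
    have h3 : adj B ((n⁻¹).1.1 * Q) = adj B Q := by rw [hnq]
    rw [adj_mul, h.adj] at h3
    have h4 : adj B ((n⁻¹).1.1) = n.1.1 := by rw [← hadjn, adj_adj]
    rw [h4] at h3
    exact h3
  have hQ'N : Q' * N = 0 := by rw [hN, mul_sub, mul_one, hQ'n, sub_self]
  have hPNP : P1 * N * P1 = 0 := by
    ext v
    show P1 (n.1.1 (P1 v) - P1 v) = 0
    exact D.pr_Y (hn1 _ (prO_mem B D.V1 D.nd v))
  have hnN : n.1.1 = 1 + N := by rw [hN]; abel
  refine ⟨Q * N * P1 + P1 * N * Q', Q * N * Q', fun s hs => ?_⟩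
  have h1 : s * s⁻¹ = 1 := mul_inv_cancel₀ hs
  have h1' : s⁻¹ * s = 1 := inv_mul_cancel₀ hs
  have key : (s • Q + P1 + s⁻¹ • Q') * (s⁻¹ • Q + P1 + s • Q') = 1 := by
    rw [hP1]
    simp only [mul_add, add_mul, smul_mul_assoc, mul_smul_comm, h.qq, h.qp, h.pq, h.pp, h.q'q',
      h.q'p, h.pq', h.qq', h.q'q, smul_zero, add_zero, zero_add]
    rw [smul_smul, smul_smul, h1, h1', one_smul, one_smul]
    exact h.sum
  have h9 : (s • Q + P1 + s⁻¹ • Q') * (1 + N) * (s⁻¹ • Q + P1 + s • Q') =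
      1 + (s • Q + P1 + s⁻¹ • Q') * N * (s⁻¹ • Q + P1 + s • Q') := by
    rw [mul_add (s • Q + P1 + s⁻¹ • Q') 1 N, mul_one,
      add_mul (s • Q + P1 + s⁻¹ • Q') _ (s⁻¹ • Q + P1 + s • Q'), key]
  rw [hnN, h9]
  have h5 : (s • Q + P1 + s⁻¹ • Q') * N = s • (Q * N) + P1 * N := by
    rw [add_mul, add_mul, smul_mul_assoc, smul_mul_assoc, hQ'N, smul_zero, add_zero]
  have h6 : (s • (Q * N) + P1 * N) * (s⁻¹ • Q + P1 + s • Q') =
      s • (Q * N * P1 + P1 * N * Q') + (s * s) • (Q * N * Q') := by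
    have h7 : Q * N * Q = 0 := by rw [mul_assoc, hNQ, mul_zero]
    have h8 : P1 * N * Q = 0 := by rw [mul_assoc, hNQ, mul_zero]
    simp only [mul_add, add_mul, smul_mul_assoc, mul_smul_comm, h7, h8, hPNP, smul_zero,
      add_zero, zero_add, smul_add, smul_smul]
    abel
  rw [h5, h6]
  abel

end Alg

variable {F E : Type u} [NontriviallyNormedField F] [IsUltrametricDist F] [ProperSpace F]
  [CharZero F] [NontriviallyNormedField E] [NormedAlgebra F E] [ProperSpace E] [StarRing E]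
  [QExt F E]
variable {V : Type u} [AddCommGroup V] [Module E V] [Module.Finite E V] [TopologicalSpace V]
  [IsTopologicalAddGroup V] [T2Space V] [ContinuousSMul E V]

private theorem jc_tendsto (A C : Module.End E V) : Filter.Tendsto
    (fun t : F => (1 : Module.End E V) + (algebraMap F E t) • A +
      (algebraMap F E t * algebraMap F E t) • C) (nhds 0) (nhds 1) := by
  have hc : Continuous (fun t : F => (1 : Module.End E V) + (algebraMap F E t) • A +
      (algebraMap F E t * algebraMap F E t) • C) := by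
    refine continuous_induced_rng.mpr (continuous_pi fun v => ?_)
    show Continuous (fun t : F => v + (algebraMap F E t) • A v +
      (algebraMap F E t * algebraMap F E t) • C v)
    have h1 : Continuous (fun t : F => algebraMap F E t) := continuous_algebraMap F E
    exact (continuous_const.add (h1.smul continuous_const)).add
      ((h1.mul h1).smul continuous_const)
  have h := hc.tendsto 0
  simp only [map_zero, zero_smul, zero_mul, add_zero] at h
  exact h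

variable (F) in
include F in
theorem exists_contr {B : SkewH E V} (D : IsoD B) (n : UU B) (hn : ∀ y ∈ D.Y, n.1.1 y = y)
    (hn1 : ∀ w ∈ D.V1, n.1.1 w - w ∈ D.Y) (W : Set (UU B)) (hW : IsOpen W)
    (h1 : (1 : UU B) ∈ W) : ∃ m : UU B, (∀ y ∈ D.Y, m.1.1 y ∈ D.Y) ∧
      (∀ w ∈ D.V1, m.1.1 w = w) ∧ m * n * m⁻¹ ∈ W := by
  have h2F : (2 : F) ≠ 0 := two_ne_zero
  have h2 : (2 : E) ≠ 0 := by
    rw [← map_ofNat (algebraMap F E) 2]
    exact (map_ne_zero _).2 h2F
  obtain ⟨Q, Q', hQ⟩ := jc_exQ h2 D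
  have hinv : ∀ v, (n⁻¹).1.1 (n.1.1 v) = v := fun v =>
    congrArg (fun f : Module.End E V => f v) n.1.inv_mul
  have hn' : ∀ y ∈ D.Y, (n⁻¹).1.1 y = y := by
    intro y hy
    have h3 := hinv y
    rw [hn y hy] at h3
    exact h3
  have hn1' : ∀ w ∈ D.V1, (n⁻¹).1.1 w - w ∈ D.Y := by
    intro w hw
    have h3 := hn1 w hw
    have h4 := hn' _ h3
    rw [map_sub, hinv] at h4
    have h5 : (n⁻¹).1.1 w - w = -(n.1.1 w - w) := by
      rw [← h4]
      abel
    rw [h5]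
    exact D.Y.neg_mem h3
  obtain ⟨A, C, hAC⟩ := jc_conj D hQ n hn hn1
  obtain ⟨A', C', hAC'⟩ := jc_conj D hQ n⁻¹ hn' hn1'
  have hex : ∀ t : F, ∃ m : UU B, t ≠ 0 →
      m.1.1 = (algebraMap F E t) • Q + prO B D.V1 D.nd + (algebraMap F E t)⁻¹ • Q' ∧
      (m⁻¹).1.1 = (algebraMap F E t)⁻¹ • Q + prO B D.V1 D.nd + (algebraMap F E t) • Q' := by
    intro t
    by_cases ht : t = 0
    · exact ⟨1, fun h => absurd ht h⟩
    · obtain ⟨m, hm⟩ := jc_m D hQ (algebraMap F E t) ((map_ne_zero _).2 ht) (QExt.star_alg t)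
      exact ⟨m, fun _ => hm⟩
  choose mm hmm using hex
  have hval : ∀ t : F, t ≠ 0 → (mm t * n * (mm t)⁻¹).1.1 =
      1 + (algebraMap F E t) • A + (algebraMap F E t * algebraMap F E t) • C := by
    intro t ht
    rw [← hAC _ ((map_ne_zero _).2 ht)]
    show (mm t).1.1 * n.1.1 * ((mm t)⁻¹).1.1 = _
    rw [(hmm t ht).1, (hmm t ht).2]
  have hval' : ∀ t : F, t ≠ 0 → (mm t * n * (mm t)⁻¹).1⁻¹.1 =
      1 + (algebraMap F E t) • A' + (algebraMap F E t * algebraMap F E t) • C' := by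
    intro t ht
    rw [← hAC' _ ((map_ne_zero _).2 ht)]
    have h3 : (mm t * n * (mm t)⁻¹)⁻¹ = mm t * n⁻¹ * (mm t)⁻¹ := by group
    show ((mm t * n * (mm t)⁻¹)⁻¹).1.1 = _
    rw [h3]
    show (mm t).1.1 * (n⁻¹).1.1 * ((mm t)⁻¹).1.1 = _
    rw [(hmm t ht).1, (hmm t ht).2]
  have hT : Filter.Tendsto (fun t : F => mm t * n * (mm t)⁻¹) (nhdsWithin 0 {0}ᶜ) (nhds 1) := by
    rw [tendsto_subtype_rng, Units.isEmbedding_embedProduct.tendsto_nhds_iff]
    have hev : ∀ᶠ t : F in nhdsWithin 0 {0}ᶜ, t ≠ 0 := self_mem_nhdsWithin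
    refine Filter.Tendsto.prodMk_nhds ?_ ?_
    · show Filter.Tendsto (fun t : F => (mm t * n * (mm t)⁻¹).1.1) _ (nhds 1)
      refine ((jc_tendsto A C).mono_left nhdsWithin_le_nhds).congr' ?_
      filter_upwards [hev] with t ht
      exact (hval t ht).symm
    · show Filter.Tendsto (fun t : F => MulOpposite.op ((mm t * n * (mm t)⁻¹).1⁻¹.1)) _ (nhds 1)
      refine (MulOpposite.continuous_op.tendsto _).comp ?_
      refine ((jc_tendsto A' C').mono_left nhdsWithin_le_nhds).congr' ?_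
      filter_upwards [hev] with t ht
      exact (hval' t ht).symm
  have hev : ∀ᶠ t : F in nhdsWithin 0 {0}ᶜ, mm t * n * (mm t)⁻¹ ∈ W :=
    hT.eventually (hW.mem_nhds h1)
  have hev2 : ∀ᶠ t : F in nhdsWithin 0 {0}ᶜ, t ≠ 0 := self_mem_nhdsWithin
  obtain ⟨t, htW, ht⟩ := (hev.and hev2).exists
  refine ⟨mm t, fun y hy => ?_, fun w hw => ?_, htW⟩
  · rw [(hmm t ht).1]
    show (algebraMap F E t) • Q y + prO B D.V1 D.nd y + (algebraMap F E t)⁻¹ • Q' y ∈ D.Y
    have h3 : Q' y = 0 := by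
      have h4 := congrArg (fun f : Module.End E V => f y) hQ.q'q
      have h5 : Q' (Q y) = 0 := h4
      rw [hQ.idY y hy] at h5
      exact h5
    rw [D.pr_Y hy, h3, smul_zero, add_zero, add_zero]
    exact D.Y.smul_mem _ (hQ.rng y)
  · rw [(hmm t ht).1]
    show (algebraMap F E t) • Q w + prO B D.V1 D.nd w + (algebraMap F E t)⁻¹ • Q' w = w
    have hw' : prO B D.V1 D.nd w = w := prO_of_mem B D.V1 D.nd hw
    have h3 : Q w = 0 := by
      have h4 : Q (prO B D.V1 D.nd w) = 0 := congrArg (fun f : Module.End E V => f w) hQ.qp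
      rw [hw'] at h4
      exact h4
    have h3' : Q' w = 0 := by
      have h4 : Q' (prO B D.V1 D.nd w) = 0 := congrArg (fun f : Module.End E V => f w) hQ.q'p
      rw [hw'] at h4
      exact h4
    rw [h3, h3', hw', smul_zero, smul_zero, zero_add, add_zero]

end

end Pool.Agent.Work.MP_dd0ddf_al
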