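import Pool.Agent.Work.MP_dd0ddf_al.DpSpec
import Pool.Agent.Work.MP_dd0ddf_al.DpInd
import Pool.Agent.Work.MP_dd0ddf_al.JChar
import Pool.Agent.Work.MP_dd0ddf_al.CUPos

/-!
# MP_dd0ddf_al, module DpStep: the step k to k - 2

Let `lam` satisfy DpHyp for k ≥ 3.  By dp_norm and dpHyp_mul we may assume `g y = y` on Y (sg B (g h₀) = sg B g; `lam ∘ W.r h₀ = 0` implies lam = 0).  `D` from exists_isoD (qs_iso, 2(k-1) ≥ k).  dp_spec and jMap_factor: `lam = lam1 ∘ J`.  W1 from weil_sub; jChar; dp_ind gives g1, e1.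
For `c1 ∈ CU B1 s1 U1`, `c1' = g1⁻¹ c1 g1`, lifts c, c': `lam (l(c) r(c') f) = lam f` and `J (l(c) r(c') f) = C(c) C'(c') l1(c1) r1(c1') J f`, with `C(c) = C(c')`, so `C(c) C'(c') = C(c') C'(c') =: ρ > 0`; hence `lam1 (l1(c1) r1(c1') φ) = ρ⁻¹ lam1 φ` for all φ ∈ SF V1.
Suppose lam1 ≠ 0.  Then `δ(c1) := ρ⁻¹` depends only on c1, is multiplicative and locally trivial (smoothness of l1, r1 at a φ with lam1 φ ≠ 0; c1 ↦ g1⁻¹ c1 g1 continuous), so it is a PosChar on CU B1 s1 U1, trivial by cuPos (length k - 2 ≥ 1).  So lam1 satisfies DpHyp for (W1, q, k-2, g1, e1) and `lam1 = 0` by hypothesis.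
-/

set_option linter.unusedSectionVars false
set_option linter.style.haveILetI false

namespace Pool.Agent.Work.MP_dd0ddf_al

noncomputable section

universe u

variable {F E : Type u} [NontriviallyNormedField F] [IsUltrametricDist F] [ProperSpace F]
  [CharZero F] [NontriviallyNormedField E] [NormedAlgebra F E] [ProperSpace E] [StarRing E]
  [QExt F E] [MeasurableSpace E] [BorelSpace E]

section Priv

variable {V : Type u} [AddCommGroup V] [Module E V] [Module.Finite E V] [TopologicalSpace V]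
  [IsTopologicalAddGroup V] [T2Space V] [ContinuousSMul E V]

private theorem dps_conj (B : SkewH E V) (g : GV E V) (c : UU B)
    (hc : c.1.1 * (sg B g).1 = (sg B g).1 * c.1.1) : g⁻¹ * c.1 * g ∈ UU B := by
  have hgg : ∀ x, g.1 (g⁻¹.1 x) = x := fun x =>
    congrArg (fun f : Module.End E V => f x) g.mul_inv
  have hgg' : ∀ x, g⁻¹.1 (g.1 x) = x := fun x =>
    congrArg (fun f : Module.End E V => f x) g.inv_mul
  have hadj : ∀ x, adj B g.1 (adj B g⁻¹.1 x) = x := by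
    intro x
    have h1 : adj B g.1 * adj B g⁻¹.1 = 1 := by
      rw [← adj_mul, g.inv_mul, adj_one]
    exact congrArg (fun f : Module.End E V => f x) h1
  have hs : ∀ x, c.1.1 (g.1 (adj B g.1 x)) = g.1 (adj B g.1 (c.1.1 x)) := fun x =>
    congrArg (fun f : Module.End E V => f x) hc
  intro v w
  show B.ip (g⁻¹.1 (c.1.1 (g.1 v))) (g⁻¹.1 (c.1.1 (g.1 w))) = B.ip v w
  obtain ⟨a, ha⟩ : ∃ a, g.1 (adj B g.1 a) = g.1 v := ⟨adj B g⁻¹.1 v, by rw [hadj]⟩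
  have ha' : adj B g.1 a = v := by rw [← hgg' (adj B g.1 a), ha, hgg']
  rw [← ha, hs, hgg', ← ip_adj_right, hgg, c.2, ip_adj_right, ha']

private theorem dps_main (q : Polynomial F) (k : ℕ) (hk : 3 ≤ k)
    (ih : DpGood F E q (k - 2)) {B : SkewH E V} {p : PChar F} {W : WeilRep B p}
    {g : GV E V} {e : V} {lam : SF V ℂ →ₗ[ℂ] ℂ} (h : DpHyp W q k g e lam)
    (hg : ∀ y ∈ qSub F (sg B g).1 e q (k - 1), g.1 y = y) : lam = 0 := by
  classical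
  obtain ⟨D, hD⟩ := exists_isoD B (qSub F (sg B g).1 e q (k - 1))
    (qs_iso B (sg B g) e q k (k - 1) (by omega) h.ann)
  have hg' : ∀ y ∈ D.Y, g.1 y = y := by
    rw [hD]
    exact hg
  obtain ⟨hL, hR⟩ := dp_spec (by omega) h D hD hg'
  obtain ⟨lam1, hlam1⟩ := jMap_factor D p lam hL hR
  obtain ⟨W1, hW1l, -⟩ := weil_sub W D.V1 D.nd
  obtain ⟨C, C', hC, hC', hCC, hCY⟩ := jChar W D W1 hW1l
  obtain ⟨g1, e1, hann1, hnd1, hlift⟩ := dp_ind q k hk h.bad g e h.ann h.nd D hD hg'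
  -- equivariance up to a positive scalar
  have key : ∀ c1 ∈ CU (B.restrict D.V1 D.nd) (sg (B.restrict D.V1 D.nd) g1)
      (cyc (sg (B.restrict D.V1 D.nd) g1).1 e1), ∀ c1' : UU (B.restrict D.V1 D.nd),
      c1'.1 = g1⁻¹ * c1.1 * g1 → ∃ ρ : ℝ, 0 < ρ ∧
        ∀ φ, lam1 (W1.l c1 (W1.r c1' φ)) = (ρ : ℂ) * lam1 φ := by
    intro c1 hc1 c1' hc1'
    obtain ⟨c, hc, c', hc', hcs, hcs', hi, hi', hY⟩ := hlift c1 hc1 c1' hc1'
    obtain ⟨r, hr, hrr⟩ := hCC ⟨c', hcs'⟩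
    have hCc : C ⟨c, hcs⟩ = C ⟨c', hcs'⟩ := hCY ⟨c, hcs⟩ ⟨c', hcs'⟩ hY
    refine ⟨r⁻¹, inv_pos.2 hr, fun φ => ?_⟩
    obtain ⟨f, rfl⟩ := jMap_surjective (F := F) D φ
    have h1 := h.inv c hc c' hc' f
    have h2 : jMap F D (W.l c (W.r c' f)) =
        (r : ℂ) • W1.l c1 (W1.r c1' (jMap F D f)) := by
      have h3 := hC ⟨c, hcs⟩ (W.r c' f)
      have h4 := hC' ⟨c', hcs'⟩ f
      rw [hi] at h3
      rw [hi'] at h4
      have h3' : jMap F D (W.l c (W.r c' f)) =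
        C ⟨c, hcs⟩ • W1.l c1 (jMap F D (W.r c' f)) := h3
      have h4' : jMap F D (W.r c' f) = C' ⟨c', hcs'⟩ • W1.r c1' (jMap F D f) := h4
      rw [h3', h4', map_smul, smul_smul, hCc, hrr]
    rw [hlam1, h2, map_smul, hlam1, smul_eq_mul] at h1
    have hr0 : (r : ℂ) ≠ 0 := Complex.ofReal_ne_zero.2 hr.ne'
    rw [← h1, Complex.ofReal_inv, ← mul_assoc, inv_mul_cancel₀ hr0, one_mul]
  by_cases h0 : lam1 = 0
  · apply LinearMap.ext
    intro f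
    rw [hlam1, h0]
    rfl
  -- the conjugate
  have hconj : ∀ c : CU (B.restrict D.V1 D.nd) (sg (B.restrict D.V1 D.nd) g1)
      (cyc (sg (B.restrict D.V1 D.nd) g1).1 e1), g1⁻¹ * c.1.1 * g1 ∈
        UU (B.restrict D.V1 D.nd) := fun c => dps_conj _ g1 c.1 c.2.1
  let cj : CU (B.restrict D.V1 D.nd) (sg (B.restrict D.V1 D.nd) g1)
      (cyc (sg (B.restrict D.V1 D.nd) g1).1 e1) → UU (B.restrict D.V1 D.nd) :=
    fun c => ⟨g1⁻¹ * c.1.1 * g1, hconj c⟩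
  have hcj : Continuous cj := by
    refine Continuous.subtype_mk ?_ _
    exact (continuous_const.mul (continuous_subtype_val.comp continuous_subtype_val)).mul
      continuous_const
  have hcj1 : cj 1 = 1 := by
    apply Subtype.ext
    show g1⁻¹ * 1 * g1 = 1
    rw [mul_one, inv_mul_cancel]
  have hcjm : ∀ c d, cj (c * d) = cj c * cj d := by
    intro c d
    apply Subtype.ext
    show g1⁻¹ * (c.1.1 * d.1.1) * g1 = (g1⁻¹ * c.1.1 * g1) * (g1⁻¹ * d.1.1 * g1)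
    group
  have key' : ∀ c : CU (B.restrict D.V1 D.nd) (sg (B.restrict D.V1 D.nd) g1)
      (cyc (sg (B.restrict D.V1 D.nd) g1).1 e1), ∃ ρ : ℝ, 0 < ρ ∧
        ∀ φ, lam1 (W1.l c.1 (W1.r (cj c) φ)) = (ρ : ℂ) * lam1 φ :=
    fun c => key c.1 c.2 (cj c) rfl
  choose ρ hρ hρl using key'
  obtain ⟨φ0, hφ0⟩ : ∃ φ0, lam1 φ0 ≠ 0 := by
    by_contra hcon
    push Not at hcon
    exact h0 (LinearMap.ext hcon)
  have hcan : ∀ a b : ℝ, (a : ℂ) * lam1 φ0 = (b : ℂ) * lam1 φ0 → a = b := by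
    intro a b hab
    exact Complex.ofReal_injective (mul_right_cancel₀ hφ0 hab)
  have hmul : ∀ c d, ρ (c * d) = ρ c * ρ d := by
    intro c d
    apply hcan
    rw [← hρl]
    have h1 : W1.l (c * d).1 (W1.r (cj (c * d)) φ0) =
        W1.l c.1 (W1.r (cj c) (W1.l d.1 (W1.r (cj d) φ0))) := by
      have h2 : W1.r (cj c) (W1.l d.1 (W1.r (cj d) φ0)) =
          W1.l d.1 (W1.r (cj c) (W1.r (cj d) φ0)) :=
        (congrArg (fun T : SF D.V1 ℂ →ₗ[ℂ] SF D.V1 ℂ => T (W1.r (cj d) φ0))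
          (l_r_comm W1 d.1 (cj c))).symm
      have h3 : W1.r (cj (c * d)) φ0 = W1.r (cj c) (W1.r (cj d) φ0) := by
        rw [hcjm, r_mul]
        rfl
      have h4 : ∀ f, W1.l (c * d).1 f = W1.l c.1 (W1.l d.1 f) := by
        intro f
        show W1.l (c.1 * d.1) f = _
        rw [map_mul]
        rfl
      rw [h2, h3, h4]
    rw [h1, hρl, hρl, Complex.ofReal_mul, mul_assoc]
  have hlc : ∃ U : Set (CU (B.restrict D.V1 D.nd) (sg (B.restrict D.V1 D.nd) g1)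
      (cyc (sg (B.restrict D.V1 D.nd) g1).1 e1)), IsOpen U ∧ 1 ∈ U ∧ ∀ c ∈ U, ρ c = 1 := by
    obtain ⟨U1, hU1, h11, hU1'⟩ := l_smooth W1 φ0
    obtain ⟨U2, hU2, h12, hU2'⟩ := r_smooth W1 φ0
    refine ⟨Subtype.val ⁻¹' U1 ∩ cj ⁻¹' U2, (hU1.preimage continuous_subtype_val).inter
      (hU2.preimage hcj), ⟨h11, ?_⟩, ?_⟩
    · show cj 1 ∈ U2
      rw [hcj1]
      exact h12
    · rintro c ⟨hc1, hc2⟩
      apply hcan
      rw [← hρl, hU2' _ hc2, hU1' _ hc1, Complex.ofReal_one, one_mul]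
  have hone : ∀ c, ρ c = 1 := fun c =>
    cuPos (B.restrict D.V1 D.nd) (sg (B.restrict D.V1 D.nd) g1) e1 q (k - 2) h.bad.1 h.bad.2.1
      hann1 hnd1 ⟨ρ, hρ, hmul, hlc⟩ c
  exact absurd (ih D.V1 (B.restrict D.V1 D.nd) p W1 g1 e1 lam1
    ⟨h.bad, hann1, hnd1, fun c hc c' hc' φ => by
      have h1 : c' = cj ⟨c, hc⟩ := Subtype.ext hc'
      rw [h1, hρl ⟨c, hc⟩ φ, hone, Complex.ofReal_one, one_mul]⟩) h0

end Priv

theorem dp_step (q : Polynomial F) (k : ℕ) (hk : 3 ≤ k) (ih : DpGood F E q (k - 2)) :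
    DpGood F E q k := by
  intro V _ _ _ _ _ _ _ B p W g e lam h
  obtain ⟨h₀, hh⟩ := dp_norm (by omega) h
  have hsg : sg B (g * h₀.1) = sg B g := by
    apply Subtype.ext
    show (g.1 * h₀.1.1) * adj B (g.1 * h₀.1.1) = g.1 * adj B g.1
    rw [adj_mul, uu_adj]
    have h1 : h₀.1.1 * h₀.1⁻¹.1 = 1 := h₀.1.mul_inv
    calc g.1 * h₀.1.1 * (h₀.1⁻¹.1 * adj B g.1)
        = g.1 * (h₀.1.1 * h₀.1⁻¹.1) * adj B g.1 := by simp only [mul_assoc]
      _ = g.1 * adj B g.1 := by rw [h1, mul_one]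
  have h1 : lam ∘ₗ W.r h₀ = 0 := by
    apply dps_main q k hk ih (dpHyp_mul h h₀)
    rw [hsg]
    exact hh
  apply LinearMap.ext
  intro φ
  have h2 : W.r h₀ (W.r h₀⁻¹ φ) = φ := by
    have h3 : W.r (h₀ * h₀⁻¹) φ = W.r h₀ (W.r h₀⁻¹ φ) :=
      congrArg (fun T : SF V ℂ →ₗ[ℂ] SF V ℂ => T φ) (r_mul W h₀ h₀⁻¹)
    rw [← h3, mul_inv_cancel, r_one]
    rfl
  have h3 : lam (W.r h₀ (W.r h₀⁻¹ φ)) = 0 :=
    congrArg (fun T : SF V ℂ →ₗ[ℂ] ℂ => T (W.r h₀⁻¹ φ)) h1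
  rw [h2] at h3
  exact h3

end

end Pool.Agent.Work.MP_dd0ddf_al
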