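import Pool.Agent.Work.MP_dd0ddf_al.FdOrbit
import Pool.Agent.Work.MP_dd0ddf_al.FdLoc
import Pool.Agent.Work.MP_dd0ddf_al.DescThm

/-!
# MP_dd0ddf_al, module FdCount: an invariant functional on a space with countably many orbits vanishes if all the point functionals do

Suppose `T ≠ 0`.  `Z = {x : every open W containing x supports some f with T f ≠ 0}` is closed, Γ-stable, `T` is supported on `Z` (vanish_local), `Z ≠ ∅`.  `T = T_Z ∘ restr` (supp_on_factor).  The action on `Z` (locally compact) has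
countably many orbits, so some orbit `O = Z ∩ W`, W open, is open in `Z` (exists_open_orbit).  `T_O = T_Z ∘ ext0` on `SF O B` is Γ-invariant; use `descent` with `X = O`, `π = id : O → O` (orbit map open by orbit_map_open, O locally compact), base
point `x`: the fibre is a point, `SF Fib B ≅ B` (evaluation), `S` becomes `lam : B → ℂ` with `lam (β γ b) = δ γ lam b` for γ in the stabiliser; `lam = 0` by `h`, so `T_O = 0`, so `T` kills the functions supported in `W`
(restricted to Z they are extensions by zero from O): contradiction with `x ∈ Z`.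
-/

set_option linter.unusedSectionVars false
set_option linter.style.haveILetI false

namespace Pool.Agent.Work.MP_dd0ddf_al

noncomputable section

/-- the stabiliser of a point -/
def CAct.stab {Γ X : Type*} [Group Γ] [TopologicalSpace Γ] [TopologicalSpace X] (A : CAct Γ X)
    (x : X) : Subgroup Γ where
  carrier := {γ | A.act γ x = x}
  mul_mem' := fun {a b} ha hb => by
    show A.act (a * b) x = x
    rw [A.mul, show A.act b x = x from hb]
    exact ha
  one_mem' := A.one x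
  inv_mem' := fun {a} ha => by
    show A.act a⁻¹ x = x
    conv_lhs => rw [← show A.act a x = x from ha]
    exact A.inv_act a x

private theorem fdcount_ext0 {X B : Type*} [TopologicalSpace X] [T2Space X] [AddCommGroup B]
    [Module ℂ B] (W : Set X) (hW : IsOpen W) (f : SF X B) (hf : ∀ x, x ∉ W → f x = 0) :
    ∃ g : SF W B, SF.ext0 W hW g = f := by
  have hs : IsClosed (Function.support f.1) := by
    have h : (Function.support f.1)ᶜ = f.1 ⁻¹' {0} := by
      ext x
      simp [Function.mem_support]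
    exact ⟨by
      rw [h]
      exact f.2.1 _⟩
  have hc : IsCompact (Function.support f.1) := by
    have h1 : tsupport f.1 = Function.support f.1 := hs.closure_eq
    rw [← h1]
    exact f.2.2
  have hsW : Function.support f.1 ⊆ W := by
    intro x hx
    by_contra hn
    exact hx (hf x hn)
  refine ⟨⟨fun x => f x.1, f.2.1.comp_continuous continuous_subtype_val, ?_⟩, ?_⟩
  · refine HasCompactSupport.of_support_subset_isCompact
      (K := (Subtype.val : W → X) ⁻¹' (Function.support f.1)) ?_ (fun x hx => hx)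
    refine Topology.IsEmbedding.subtypeVal.isCompact_preimage_iff ?_ |>.2 hc
    rw [Subtype.range_val]
    exact hsW
  · apply SF.ext
    intro x
    by_cases hx : x ∈ W
    · rw [SF.ext0_apply_mem _ _ _ _ hx]
    · rw [SF.ext0_apply_not_mem _ _ _ _ hx, hf x hx]

/-- homogeneous case -/
private theorem fdcount_hom {Γ X B : Type*} [Group Γ] [TopologicalSpace Γ]
    [IsTopologicalGroup Γ] [LocallyCompactSpace Γ] [T2Space Γ] [TotallyDisconnectedSpace Γ]
    [SigmaCompactSpace Γ] [TopologicalSpace X] [T2Space X] [LocallyCompactSpace X]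
    [TotallyDisconnectedSpace X] [AddCommGroup B] [Module ℂ B] (A : CAct Γ X) (R : SRep Γ B)
    (x : X) (htr : ∀ y, ∃ γ, A.act γ x = y)
    (h : ∀ (lam : B →ₗ[ℂ] ℂ), (∃ δ : PosChar (A.stab x), ∀ (γ : A.stab x) (b : B),
      lam (R.β γ.1 b) = δ.δ γ * lam b) → lam = 0)
    (T : SF X B →ₗ[ℂ] ℂ) (hT : ∀ γ f, T (A.op R γ f) = T f) : T = 0 := by
  let D : DescData Γ X X B :=
    { A := A
      C := A
      R := R
      π := id
      hπ := continuous_id
      eqv := fun _ _ => rfl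
      o := x
      tr := htr
      opn := orbit_map_open A x htr }
  obtain ⟨S, hS, ⟨δ, hδ⟩, -⟩ := descent D T hT
  refine hS ?_
  haveI : Subsingleton D.Fib := ⟨fun a b => Subtype.ext (a.2.trans b.2.symm)⟩
  haveI : CompactSpace D.Fib := ⟨(Set.subsingleton_of_subsingleton).isCompact⟩
  let pt : D.Fib := ⟨x, rfl⟩
  let c : B →ₗ[ℂ] SF D.Fib B :=
    { toFun := fun b => ⟨fun _ => b, IsLocallyConstant.const b,
        HasCompactSupport.of_compactSpace _⟩
      map_add' := fun _ _ => rfl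
      map_smul' := fun _ _ => rfl }
  have hc : ∀ f : SF D.Fib B, c (f pt) = f := by
    intro f
    apply SF.ext
    intro y
    show f pt = f y
    rw [Subsingleton.elim y pt]
  have h0 : S ∘ₗ c = 0 := by
    refine h _ ⟨⟨fun γ => δ.δ ⟨γ.1, γ.2⟩, fun γ => δ.pos _, fun γ γ' => δ.mul _ _, ?_⟩,
      fun γ b => ?_⟩
    · obtain ⟨U, hU, h1, h2⟩ := δ.lc
      exact ⟨(fun γ : A.stab x => (⟨γ.1, γ.2⟩ : D.stab)) ⁻¹' U,
        hU.preimage (continuous_subtype_val.subtype_mk _), h1, fun γ hγ => h2 _ hγ⟩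
    · have e := hδ ⟨γ.1, γ.2⟩ (c b)
      have e1 : D.fop ⟨γ.1, γ.2⟩ (c b) = c (R.β γ.1 b) := rfl
      rw [e1] at e
      exact e
  refine LinearMap.ext fun f => ?_
  rw [← hc f]
  exact congrArg (fun l : B →ₗ[ℂ] ℂ => l (f pt)) h0

theorem orbit_principle {Γ X B : Type*} [Group Γ] [TopologicalSpace Γ] [IsTopologicalGroup Γ]
    [LocallyCompactSpace Γ] [T2Space Γ] [TotallyDisconnectedSpace Γ] [SigmaCompactSpace Γ]
    [TopologicalSpace X] [T2Space X] [LocallyCompactSpace X] [TotallyDisconnectedSpace X]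
    [AddCommGroup B] [Module ℂ B] (A : CAct Γ X) (R : SRep Γ B)
    (s : Set X) (hs : s.Countable) (hcov : ∀ x, ∃ y ∈ s, ∃ γ, A.act γ y = x)
    (h : ∀ (x : X) (lam : B →ₗ[ℂ] ℂ), (∃ δ : PosChar (A.stab x), ∀ (γ : A.stab x) (b : B),
      lam (R.β γ.1 b) = δ.δ γ * lam b) → lam = 0)
    (T : SF X B →ₗ[ℂ] ℂ) (hT : ∀ γ f, T (A.op R γ f) = T f) : T = 0 := by
  classical
  by_contra hT0
  let Z : Set X := {x | ∀ W : Set X, IsOpen W → x ∈ W →
    ∃ f : SF X B, (∀ y, y ∉ W → f y = 0) ∧ T f ≠ 0}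
  have hZc : IsClosed Z := by
    rw [← isOpen_compl_iff, isOpen_iff_forall_mem_open]
    intro x hx
    have hx' : ¬ ∀ W : Set X, IsOpen W → x ∈ W →
      ∃ f : SF X B, (∀ y, y ∉ W → f y = 0) ∧ T f ≠ 0 := hx
    push Not at hx'
    obtain ⟨W, hW, hxW, h1⟩ := hx'
    refine ⟨W, fun y hy hyZ => ?_, hW, hxW⟩
    obtain ⟨f, hf, hf'⟩ := hyZ W hW hy
    exact hf' (h1 f hf)
  have hsupp : SF.SuppOn T Z := by
    intro f hf
    refine vanish_local T f fun x hx => ?_
    have hx' : ¬ ∀ W : Set X, IsOpen W → x ∈ W →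
      ∃ f : SF X B, (∀ y, y ∉ W → f y = 0) ∧ T f ≠ 0 := fun h1 => hx (hf x h1)
    push Not at hx'
    exact hx'
  have hZne : Z.Nonempty := by
    by_contra hne
    rw [Set.not_nonempty_iff_eq_empty] at hne
    refine hT0 (LinearMap.ext fun f => ?_)
    exact hsupp f fun z hz => absurd hz (by rw [hne]; exact Set.notMem_empty z)
  have hZs : ∀ γ x, x ∈ Z → A.act γ x ∈ Z := by
    intro γ x hx W hW hxW
    obtain ⟨f, hf, hf'⟩ := hx (A.act γ ⁻¹' W) (hW.preimage (A.homeo γ).continuous) hxW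
    refine ⟨A.op R γ f, fun y hy => ?_, by rw [hT]; exact hf'⟩
    rw [CAct.op_apply, hf _ (fun h1 => hy (by
      have h2 : A.act γ (A.act γ⁻¹ y) ∈ W := h1
      rwa [A.act_inv] at h2)), map_zero]
  haveI : LocallyCompactSpace Z := hZc.isClosedEmbedding_subtypeVal.locallyCompactSpace
  haveI : Nonempty Z := hZne.to_subtype
  let AZ := A.sub Z hZs
  obtain ⟨x0, hO⟩ := exists_open_orbit AZ {z : Z | z.1 ∈ s}
    (hs.preimage Subtype.val_injective) (fun x => by
      obtain ⟨y, hy, γ, hγ⟩ := hcov x.1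
      have hyZ : y ∈ Z := by
        have h1 := hZs γ⁻¹ x.1 x.2
        rw [← hγ, A.inv_act] at h1
        exact h1
      exact ⟨⟨y, hyZ⟩, hy, γ, Subtype.ext hγ⟩)
  let O : Set Z := {y | ∃ γ, AZ.act γ x0 = y}
  have hOs : ∀ γ y, y ∈ O → AZ.act γ y ∈ O := by
    rintro γ y ⟨γ', rfl⟩
    exact ⟨γ * γ', AZ.mul _ _ _⟩
  let AO := AZ.sub O hOs
  haveI : LocallyCompactSpace O := hO.locallyCompactSpace
  obtain ⟨TZ, hTZ⟩ := supp_on_factor Z hZc T hsupp
  have hx0 : x0 ∈ O := ⟨1, AZ.one _⟩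
  have hTO : TZ ∘ₗ SF.ext0 O hO = 0 := by
    refine fdcount_hom AO R ⟨x0, hx0⟩ ?_ ?_ _ ?_
    · rintro ⟨y, γ, hγ⟩
      exact ⟨γ, Subtype.ext hγ⟩
    · intro lam ⟨δ, hδ⟩
      have hmem : ∀ γ : Γ, γ ∈ A.stab x0.1 → γ ∈ AO.stab ⟨x0, hx0⟩ := fun γ hγ =>
        Subtype.ext (Subtype.ext hγ)
      refine h x0.1 lam ⟨⟨fun γ => δ.δ ⟨γ.1, hmem γ.1 γ.2⟩, fun γ => δ.pos _,
        fun γ γ' => δ.mul ⟨γ.1, hmem γ.1 γ.2⟩ ⟨γ'.1, hmem γ'.1 γ'.2⟩, ?_⟩,
        fun γ b => hδ ⟨γ.1, hmem γ.1 γ.2⟩ b⟩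
      obtain ⟨U, hU, h1, h2⟩ := δ.lc
      exact ⟨(fun γ : A.stab x0.1 => (⟨γ.1, hmem γ.1 γ.2⟩ : AO.stab ⟨x0, hx0⟩)) ⁻¹' U,
        hU.preimage (continuous_subtype_val.subtype_mk _), h1, fun γ hγ => h2 _ hγ⟩
    · intro γ f
      obtain ⟨f', hf'⟩ := restr_surjective Z hZc (SF.ext0 O hO f)
      have e1 : SF.ext0 O hO (AO.op R γ f) = SF.restr Z hZc (A.op R γ f') := by
        apply SF.ext
        intro z
        have e2 : SF.restr Z hZc (A.op R γ f') z =
            R.β γ (SF.restr Z hZc f' (AZ.act γ⁻¹ z)) := rfl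
        rw [e2, hf']
        by_cases hz : z ∈ O
        · rw [SF.ext0_apply_mem _ _ _ _ hz, SF.ext0_apply_mem _ _ _ _ (hOs γ⁻¹ z hz)]
          rfl
        · have hz' : AZ.act γ⁻¹ z ∉ O := fun h1 => hz (by
            have h2 := hOs γ _ h1
            rwa [AZ.act_inv] at h2)
          rw [SF.ext0_apply_not_mem _ _ _ _ hz, SF.ext0_apply_not_mem _ _ _ _ hz', map_zero]
      show TZ (SF.ext0 O hO (AO.op R γ f)) = TZ (SF.ext0 O hO f)
      rw [e1, ← hTZ, hT, hTZ, hf']
  obtain ⟨W, hW, hWO⟩ := isOpen_induced_iff.1 hO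
  have hx0W : x0.1 ∈ W := by
    have h1 : x0 ∈ Subtype.val ⁻¹' W := by
      rw [hWO]
      exact hx0
    exact h1
  obtain ⟨f, hf, hf'⟩ := x0.2 W hW hx0W
  apply hf'
  obtain ⟨g, hg⟩ := fdcount_ext0 O hO (SF.restr Z hZc f) (fun z hz => hf z.1 (fun h1 => hz (by
    have h2 : z ∈ Subtype.val ⁻¹' W := h1
    rw [hWO] at h2
    exact h2)))
  rw [hTZ, ← hg]
  exact congrArg (fun l : SF O B →ₗ[ℂ] ℂ => l g) hTO

end

end Pool.Agent.Work.MP_dd0ddf_al
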