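import Pool.Agent.Work.MP_dd0ddf_al.Defs2

/-!
# Foundations: restriction, extension by zero, group actions on `SF X B`
-/

set_option linter.unusedSectionVars false
set_option linter.style.haveILetI false

namespace Pool.Agent.Work.MP_dd0ddf_al

noncomputable section

open MeasureTheory

namespace SF

variable {X Y B B' : Type*} [TopologicalSpace X] [TopologicalSpace Y]
  [AddCommGroup B] [Module ℂ B] [AddCommGroup B'] [Module ℂ B']

/-- restriction to a closed subset -/
def restr (Z : Set X) (hZ : IsClosed Z) : SF X B →ₗ[ℂ] SF Z B where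
  toFun f := ⟨fun z => f z.1, f.2.1.comp_continuous continuous_subtype_val,
    f.2.2.comp_isClosedEmbedding hZ.isClosedEmbedding_subtypeVal⟩
  map_add' _ _ := rfl
  map_smul' _ _ := rfl

@[simp] theorem restr_apply (Z : Set X) (hZ : IsClosed Z) (f : SF X B) (z : Z) :
    restr Z hZ f z = f z.1 := rfl

open Classical in
/-- extension by zero from an open subset, as a function -/
def ext0Fun (U : Set X) (f : U → B) : X → B :=
  fun x => if h : x ∈ U then f ⟨x, h⟩ else 0

theorem ext0_mem [T2Space X] (U : Set X) (hU : IsOpen U) (f : SF U B) :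
    ext0Fun U f.1 ∈ SF X B := by
  classical
  have hc : HasCompactSupport f.1 := f.2.2
  have hK : IsCompact ((↑) '' tsupport f.1 : Set X) := hc.image continuous_subtype_val
  have hKc : IsClosed ((↑) '' tsupport f.1 : Set X) := hK.isClosed
  have hsub : Function.support (ext0Fun U f.1) ⊆ (↑) '' tsupport f.1 := by
    intro x hx
    rw [Function.mem_support] at hx
    unfold ext0Fun at hx
    by_cases h : x ∈ U
    · rw [dif_pos h] at hx
      exact ⟨⟨x, h⟩, subset_tsupport _ hx, rfl⟩
    · rw [dif_neg h] at hx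
      exact absurd rfl hx
  refine ⟨?_, HasCompactSupport.of_support_subset_isCompact hK hsub⟩
  rw [IsLocallyConstant.iff_eventually_eq]
  intro x
  by_cases h : x ∈ U
  · have h1 := (IsLocallyConstant.iff_eventually_eq _).mp f.2.1 ⟨x, h⟩
    have h2 : ∀ᶠ y in nhds x, y ∈ U := hU.mem_nhds h
    have h3 : Filter.map ((↑) : U → X) (nhds ⟨x, h⟩) = nhds x :=
      map_nhds_subtype_coe_eq_nhds h (hU.mem_nhds h)
    rw [← h3, Filter.eventually_map]
    filter_upwards [h1] with y hy
    show ext0Fun U f.1 y.1 = ext0Fun U f.1 x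
    unfold ext0Fun
    rw [dif_pos y.2, dif_pos h]
    exact hy
  · have h1 : x ∈ ((↑) '' tsupport f.1 : Set X)ᶜ := by
      rintro ⟨y, _, rfl⟩
      exact h y.2
    filter_upwards [hKc.isOpen_compl.mem_nhds h1] with y hy
    have h2 : ∀ z, z ∉ ((↑) '' tsupport f.1 : Set X) → ext0Fun U f.1 z = 0 := by
      intro z hz
      by_contra h3
      exact hz (hsub h3)
    rw [h2 y hy, h2 x h1]

/-- extension by zero from an open subset -/
def ext0 [T2Space X] (U : Set X) (hU : IsOpen U) : SF U B →ₗ[ℂ] SF X B where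
  toFun f := ⟨ext0Fun U f.1, ext0_mem U hU f⟩
  map_add' f g := by
    apply Subtype.ext
    funext x
    show ext0Fun U (f.1 + g.1) x = ext0Fun U f.1 x + ext0Fun U g.1 x
    unfold ext0Fun
    by_cases h : x ∈ U
    · simp [h]
    · simp [h]
  map_smul' c f := by
    apply Subtype.ext
    funext x
    show ext0Fun U (c • f.1) x = c • ext0Fun U f.1 x
    unfold ext0Fun
    by_cases h : x ∈ U
    · simp [h]
    · simp [h]

theorem ext0_apply_mem [T2Space X] (U : Set X) (hU : IsOpen U) (f : SF U B) (x : X) (h : x ∈ U) :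
    ext0 U hU f x = f ⟨x, h⟩ := dif_pos h

theorem ext0_apply_not_mem [T2Space X] (U : Set X) (hU : IsOpen U) (f : SF U B) (x : X)
    (h : x ∉ U) : ext0 U hU f x = 0 := dif_neg h

open Classical in
/-- multiplication by the indicator function of a clopen set -/
def ind (K : Set X) (hK : IsClopen K) : SF X B →ₗ[ℂ] SF X B :=
  mulc (fun x => if x ∈ K then (1 : ℂ) else 0) (by
    have h := IsLocallyConstant.const (X := X) (0 : ℂ)
    rw [IsLocallyConstant.iff_eventually_eq]
    intro x
    by_cases hx : x ∈ K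
    · filter_upwards [hK.isOpen.mem_nhds hx] with y hy
      rw [if_pos hy, if_pos hx]
    · filter_upwards [hK.compl.isOpen.mem_nhds hx] with y hy
      rw [if_neg hy, if_neg hx])

theorem ind_apply_mem (K : Set X) (hK : IsClopen K) (f : SF X B) (x : X) (h : x ∈ K) :
    ind K hK f x = f x := by
  classical
  show (if x ∈ K then (1 : ℂ) else 0) • f x = f x
  rw [if_pos h, one_smul]

theorem ind_apply_not_mem (K : Set X) (hK : IsClopen K) (f : SF X B) (x : X) (h : x ∉ K) :
    ind K hK f x = 0 := by
  classical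
  show (if x ∈ K then (1 : ℂ) else 0) • f x = 0
  rw [if_neg h, zero_smul]

open Classical in
/-- the function with value `b` on the compact open set `K` and `0` elsewhere -/
def single [T2Space X] (K : Set X) (hK : IsCompact K) (hK' : IsOpen K) (b : B) : SF X B :=
  ⟨fun x => if x ∈ K then b else 0, by
    constructor
    · rw [IsLocallyConstant.iff_eventually_eq]
      intro x
      by_cases hx : x ∈ K
      · filter_upwards [hK'.mem_nhds hx] with y hy
        rw [if_pos hy, if_pos hx]
      · filter_upwards [hK.isClosed.isOpen_compl.mem_nhds hx] with y hy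
        rw [if_neg hy, if_neg hx]
    · refine HasCompactSupport.of_support_subset_isCompact hK ?_
      intro x hx
      by_contra h
      apply hx
      show (if x ∈ K then b else 0) = 0
      rw [if_neg h]⟩

theorem single_apply_mem [T2Space X] (K : Set X) (hK : IsCompact K) (hK' : IsOpen K) (b : B)
    (x : X) (h : x ∈ K) : single K hK hK' b x = b := if_pos h

theorem single_apply_not_mem [T2Space X] (K : Set X) (hK : IsCompact K) (hK' : IsOpen K) (b : B)
    (x : X) (h : x ∉ K) : single K hK hK' b x = 0 := if_neg h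

/-- `(op φ m f)(x) = m (f (φ x))` -/
def opr (φ : X ≃ₜ X) (m : B →ₗ[ℂ] B) : SF X B →ₗ[ℂ] SF X B := map m ∘ₗ comp φ

@[simp] theorem opr_apply (φ : X ≃ₜ X) (m : B →ₗ[ℂ] B) (f : SF X B) (x : X) :
    opr φ m f x = m (f (φ x)) := rfl

/-- `T` kills all functions which vanish on `Z`: `T` is supported on `Z` -/
def SuppOn (T : SF X B →ₗ[ℂ] ℂ) (Z : Set X) : Prop := ∀ f : SF X B, (∀ z ∈ Z, f z = 0) → T f = 0

/-- `T` kills all functions supported in the set `W` -/
def VanishOn (T : SF X B →ₗ[ℂ] ℂ) (W : Set X) : Prop := ∀ f : SF X B, (∀ x, x ∉ W → f x = 0) →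
  T f = 0

end SF

/-- restriction of a fibre preserving homeomorphism to a fibre -/
def fibH {X Y : Type*} [TopologicalSpace X] (π : X → Y) (φ : X ≃ₜ X)
    (h : ∀ x, π (φ x) = π x) (y : Y) : {x // π x = y} ≃ₜ {x // π x = y} where
  toFun x := ⟨φ x.1, (h x.1).trans x.2⟩
  invFun x := ⟨φ.symm x.1, by
    have h1 := h (φ.symm x.1)
    rw [φ.apply_symm_apply] at h1
    rw [← h1]
    exact x.2⟩
  left_inv x := Subtype.ext (φ.symm_apply_apply x.1)
  right_inv x := Subtype.ext (φ.apply_symm_apply x.1)
  continuous_toFun := (φ.continuous.comp continuous_subtype_val).subtype_mk _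
  continuous_invFun := (φ.symm.continuous.comp continuous_subtype_val).subtype_mk _

/-- a continuous action of a topological group -/
structure CAct (Γ X : Type*) [Group Γ] [TopologicalSpace Γ] [TopologicalSpace X] where
  act : Γ → X → X
  one : ∀ x, act 1 x = x
  mul : ∀ γ δ x, act (γ * δ) x = act γ (act δ x)
  cont : Continuous fun q : Γ × X => act q.1 q.2

namespace CAct

variable {Γ X : Type*} [Group Γ] [TopologicalSpace Γ] [TopologicalSpace X] (A : CAct Γ X)

theorem inv_act (γ : Γ) (x : X) : A.act γ⁻¹ (A.act γ x) = x := by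
  rw [← A.mul, inv_mul_cancel, A.one]

theorem act_inv (γ : Γ) (x : X) : A.act γ (A.act γ⁻¹ x) = x := by
  rw [← A.mul, mul_inv_cancel, A.one]

/-- `x ↦ γ x` as a homeomorphism -/
def homeo (γ : Γ) : X ≃ₜ X where
  toFun := A.act γ
  invFun := A.act γ⁻¹
  left_inv := A.inv_act γ
  right_inv := A.act_inv γ
  continuous_toFun := A.cont.comp (continuous_const.prodMk continuous_id)
  continuous_invFun := A.cont.comp (continuous_const.prodMk continuous_id)

@[simp] theorem homeo_apply (γ : Γ) (x : X) : A.homeo γ x = A.act γ x := rfl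

/-- the action on an invariant subset -/
def sub (S : Set X) (hS : ∀ γ x, x ∈ S → A.act γ x ∈ S) : CAct Γ S where
  act γ x := ⟨A.act γ x.1, hS γ x.1 x.2⟩
  one x := Subtype.ext (A.one x.1)
  mul γ δ x := Subtype.ext (A.mul γ δ x.1)
  cont := (A.cont.comp (continuous_fst.prodMk
    (continuous_subtype_val.comp continuous_snd))).subtype_mk _

end CAct

/-- a smooth representation -/
structure SRep (Γ B : Type*) [Group Γ] [TopologicalSpace Γ] [AddCommGroup B] [Module ℂ B] where
  β : Γ →* Module.End ℂ B
  smooth : ∀ b : B, ∃ U : Set Γ, IsOpen U ∧ (1 : Γ) ∈ U ∧ ∀ γ ∈ U, β γ b = b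

/-- the trivial representation -/
def SRep.triv (Γ B : Type*) [Group Γ] [TopologicalSpace Γ] [AddCommGroup B] [Module ℂ B] :
    SRep Γ B where
  β := 1
  smooth _ := ⟨Set.univ, isOpen_univ, Set.mem_univ _, fun _ _ => rfl⟩

/-- the action of `γ` on `SF X B`: `F ↦ (x ↦ β(γ) F(γ⁻¹ x))` -/
def CAct.op {Γ X B : Type*} [Group Γ] [TopologicalSpace Γ] [TopologicalSpace X] [AddCommGroup B]
    [Module ℂ B] (A : CAct Γ X) (R : SRep Γ B) (γ : Γ) : SF X B →ₗ[ℂ] SF X B :=
  SF.opr (A.homeo γ⁻¹) (R.β γ)

theorem CAct.op_apply {Γ X B : Type*} [Group Γ] [TopologicalSpace Γ] [TopologicalSpace X]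
    [AddCommGroup B] [Module ℂ B] (A : CAct Γ X) (R : SRep Γ B) (γ : Γ) (f : SF X B) (x : X) :
    A.op R γ f x = R.β γ (f (A.act γ⁻¹ x)) := rfl

/-! ## integration of `B`-valued functions -/

section Int

variable {X B : Type*} [TopologicalSpace X] [MeasurableSpace X] [BorelSpace X]
  [AddCommGroup B] [Module ℂ B] (μ : Measure X) [IsFiniteMeasureOnCompacts μ]

theorem SF.continuous (f : SF X ℂ) : Continuous f.1 := f.2.1.continuous

theorem SF.finite_range (f : SF X B) : Set.Finite (Set.range f.1) := by
  letI : TopologicalSpace B := ⊥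
  haveI : DiscreteTopology B := ⟨rfl⟩
  have h4 : Continuous f.1 := f.2.1.continuous
  have h3 : Set.Finite (f.1 '' tsupport f.1) :=
    (f.2.2.image_of_continuousOn h4.continuousOn).finite_of_discrete
  refine (h3.union (Set.finite_singleton 0)).subset ?_
  rintro _ ⟨x, rfl⟩
  by_cases hx : x ∈ tsupport f.1
  · exact Or.inl ⟨x, hx, rfl⟩
  · exact Or.inr (image_eq_zero_of_notMem_tsupport hx)

theorem SF.isClopen_preimage (f : SF X B) (s : Set B) : IsClopen (f.1 ⁻¹' s) :=
  ⟨⟨by rw [← Set.preimage_compl]; exact f.2.1 _⟩, f.2.1 _⟩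

theorem SF.measure_preimage_lt (f : SF X B) {y : B} (hy : y ≠ 0) : μ (f.1 ⁻¹' {y}) < ⊤ := by
  refine lt_of_le_of_lt (measure_mono (μ := μ) (t := tsupport f.1) ?_) f.2.2.measure_lt_top
  intro x hx
  apply subset_tsupport
  rw [Function.mem_support]
  intro h
  apply hy
  have : f.1 x = y := hx
  rw [← this, h]

theorem SF.integrable (f : SF X ℂ) : Integrable f.1 μ := by
  obtain ⟨C, hC⟩ := (SF.finite_range f).isBounded.exists_norm_le
  have h5 : IntegrableOn f.1 (tsupport f.1) μ := by
    refine Measure.integrableOn_of_bounded (M := C) ?_ ?_ ?_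
    · exact (f.2.2.measure_lt_top).ne
    · exact f.2.1.continuous.aestronglyMeasurable
    · exact Filter.Eventually.of_forall fun x => hC _ ⟨x, rfl⟩
  exact (integrableOn_iff_integrable_of_support_subset (subset_tsupport _)).mp h5

theorem SF.exists_vint (f : SF X B) :
    ∃ b : B, ∀ l : B →ₗ[ℂ] ℂ, l b = ∫ x, l (f x) ∂μ := by
  classical
  have hfin := SF.finite_range f
  let s : Finset B := hfin.toFinset.erase 0
  have hs0 : ∀ y ∈ s, y ≠ 0 := fun y hy => (Finset.mem_erase.mp hy).1
  refine ⟨∑ y ∈ s, ((μ.real (f.1 ⁻¹' {y}) : ℝ) : ℂ) • y, fun l => ?_⟩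
  rw [map_sum]
  have h1 : ∀ x, l (f x) = ∑ y ∈ s, (f.1 ⁻¹' {y}).indicator (fun _ => l y) x := by
    intro x
    by_cases h0 : f x = 0
    · rw [h0, map_zero]
      symm
      refine Finset.sum_eq_zero fun y hy => ?_
      rw [Set.indicator_of_notMem]
      intro h2
      apply hs0 y hy
      have : f x = y := h2
      rw [← this, h0]
    · have h2 : f x ∈ s := Finset.mem_erase.mpr ⟨h0, hfin.mem_toFinset.mpr ⟨x, rfl⟩⟩
      rw [Finset.sum_eq_single (f x)]
      · rw [Set.indicator_of_mem]
        rfl
      · intro y _ hy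
        rw [Set.indicator_of_notMem]
        intro h3
        exact hy (show y = f x from (show f x = y from h3).symm)
      · intro h3
        exact absurd h2 h3
  have h3 : ∀ y ∈ s, Integrable ((f.1 ⁻¹' {y}).indicator (fun _ => l y)) μ := by
    intro y hy
    rw [integrable_indicator_iff (SF.isClopen_preimage f _).isOpen.measurableSet]
    exact integrableOn_const (SF.measure_preimage_lt μ f (hs0 y hy)).ne
  simp_rw [h1]
  rw [integral_finsetSum _ h3]
  refine Finset.sum_congr rfl fun y hy => ?_
  rw [integral_indicator (SF.isClopen_preimage f _).isOpen.measurableSet, setIntegral_const,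
    map_smul]
  simp

/-- the integral of a `B`-valued function -/
def SF.vintFun (f : SF X B) : B := (SF.exists_vint μ f).choose

theorem SF.vintFun_spec (f : SF X B) (l : B →ₗ[ℂ] ℂ) :
    l (SF.vintFun μ f) = ∫ x, l (f x) ∂μ := (SF.exists_vint μ f).choose_spec l

/-- functionals separate points -/
theorem eq_of_functionals {b b' : B} (h : ∀ l : B →ₗ[ℂ] ℂ, l b = l b') : b = b' := by
  rw [← sub_eq_zero]
  refine (Module.forall_dual_apply_eq_zero_iff ℂ (b - b')).mp fun l => ?_
  rw [map_sub, h l, sub_self]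

/-- the integral of a `B`-valued function as a linear map -/
def SF.vint : SF X B →ₗ[ℂ] B where
  toFun f := SF.vintFun μ f
  map_add' f g := by
    apply eq_of_functionals
    intro l
    rw [map_add, SF.vintFun_spec, SF.vintFun_spec, SF.vintFun_spec]
    refine Eq.trans ?_
      (integral_add (SF.integrable μ (SF.map l f)) (SF.integrable μ (SF.map l g)))
    refine integral_congr_ae (Filter.Eventually.of_forall fun x => ?_)
    exact map_add l _ _
  map_smul' c f := by
    apply eq_of_functionals
    intro l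
    rw [map_smul, SF.vintFun_spec, SF.vintFun_spec, RingHom.id_apply, smul_eq_mul]
    refine Eq.trans ?_ (integral_const_mul c _)
    refine integral_congr_ae (Filter.Eventually.of_forall fun x => ?_)
    exact map_smul l _ _

theorem SF.vint_spec (f : SF X B) (l : B →ₗ[ℂ] ℂ) :
    l (SF.vint μ f) = ∫ x, l (f x) ∂μ := SF.vintFun_spec μ f l

end Int

end

end Pool.Agent.Work.MP_dd0ddf_al
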