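import Pool.Agent.Work.MP_dd0ddf_al.BlkAux
import Pool.Agent.Work.MP_dd0ddf_al.NiE1

/-!
# MP_dd0ddf_al, module SplAux: algebra of one cyclic block, split case

Auxiliary file for `FxSplit`.
-/

set_option linter.unusedSectionVars false
set_option linter.style.haveILetI false

namespace Pool.Agent.Work.MP_dd0ddf_al

noncomputable section

open Polynomial

universe u

variable {F E : Type u} [NontriviallyNormedField F] [IsUltrametricDist F] [ProperSpace F]
  [CharZero F] [NontriviallyNormedField E] [NormedAlgebra F E] [ProperSpace E] [StarRing E]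
  [QExt F E]
variable {V : Type u} [AddCommGroup V] [Module E V] [Module.Finite E V] [TopologicalSpace V]
  [IsTopologicalAddGroup V] [T2Space V] [ContinuousSMul E V]

theorem bar_irr {r : Polynomial E} (hr : Irreducible r) : Irreducible (bar r) := by
  let e : Polynomial E ≃* Polynomial E :=
    { toFun := bar
      invFun := bar
      left_inv := bar_bar
      right_inv := bar_bar
      map_mul' := bar_mul }
  exact (MulEquiv.irreducible_iff e).2 hr

variable (F) in
include F in
theorem bar_descent {n : Polynomial E} (h : bar n = n) :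
    ∃ m : Polynomial F, m.map (algebraMap F E) = n := by
  obtain ⟨-, -, -, -, -, hfix⟩ := exists_eta F E
  have h1 : n ∈ Polynomial.lifts (algebraMap F E) := by
    rw [Polynomial.lifts_iff_coeff_lifts]
    intro i
    obtain ⟨f, hf⟩ := hfix (n.coeff i) (by
      conv_rhs => rw [← h]
      unfold bar
      rw [Polynomial.coeff_map]
      rfl)
    exact ⟨f, hf.symm⟩
  exact (Polynomial.mem_lifts n).1 h1

/-- `q = r rbar` -/
theorem split_factor (q : Polynomial F) (hq : q.Monic) (hirr : Irreducible q)
    (hred : ¬ Irreducible (q.map (algebraMap F E))) :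
    ∃ r : Polynomial E, Irreducible r ∧ q.map (algebraMap F E) = r * bar r ∧
      IsCoprime r (bar r) := by
  have hinj : Function.Injective (algebraMap F E) := (algebraMap F E).injective
  have hQm : (q.map (algebraMap F E)).Monic := hq.map _
  have hQu : ¬ IsUnit (q.map (algebraMap F E)) := by
    intro hu
    have h1 := Polynomial.natDegree_eq_zero_of_isUnit hu
    rw [Polynomial.natDegree_map] at h1
    have h2 := Polynomial.natDegree_pos_iff_degree_pos.2
      (Polynomial.degree_pos_of_irreducible hirr)
    omega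
  obtain ⟨r, hrm, hr, hdvd⟩ := Polynomial.exists_monic_irreducible_factor _ hQu
  have hbm : (bar r).Monic := hrm.map _
  have hbr : Irreducible (bar r) := bar_irr hr
  by_cases hrr : r = bar r
  · exfalso
    obtain ⟨r0, hr0⟩ := bar_descent F hrr.symm
    rw [← hr0] at hdvd
    have h1 : r0 ∣ q := (Polynomial.map_dvd_map' (algebraMap F E)).1 hdvd
    obtain ⟨c, hc⟩ := h1
    rcases hirr.isUnit_or_isUnit hc with h2 | h2
    · apply hr.not_isUnit
      rw [← hr0]
      exact h2.map (Polynomial.mapRingHom (algebraMap F E))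
    · apply hred
      have h3 : q.map (algebraMap F E) = r * c.map (algebraMap F E) := by
        rw [hc, Polynomial.map_mul, hr0]
      have h4 : IsUnit (c.map (algebraMap F E)) :=
        h2.map (Polynomial.mapRingHom (algebraMap F E))
      rw [h3]
      exact (irreducible_mul_isUnit h4).2 hr
  · have hcop : IsCoprime r (bar r) := by
      rw [hr.coprime_iff_not_dvd]
      intro h1
      obtain ⟨c, hc⟩ := h1
      rcases hbr.isUnit_or_isUnit hc with h2 | h2
      · exact hr.not_isUnit h2
      · apply hrr
        refine Polynomial.eq_of_monic_of_associated hrm hbm ?_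
        exact ⟨h2.unit, by rw [IsUnit.unit_spec, ← hc]⟩
    refine ⟨r, hr, ?_, hcop⟩
    have hdvd2 : bar r ∣ q.map (algebraMap F E) := by
      have h1 := bar_dvd hdvd
      rwa [bar_base] at h1
    have h1 : r * bar r ∣ q.map (algebraMap F E) := hcop.mul_dvd hdvd hdvd2
    have h2 : bar (r * bar r) = r * bar r := by
      rw [bar_mul, bar_bar, mul_comm]
    obtain ⟨n, hn⟩ := bar_descent F h2
    rw [← hn] at h1
    obtain ⟨c, hc⟩ := (Polynomial.map_dvd_map' (algebraMap F E)).1 h1
    have hnm : n.Monic := Polynomial.monic_of_injective hinj (by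
      rw [hn]
      exact hrm.mul hbm)
    rcases hirr.isUnit_or_isUnit hc with h3 | h3
    · exfalso
      apply hr.not_isUnit
      have h4 : IsUnit (n.map (algebraMap F E)) :=
        h3.map (Polynomial.mapRingHom (algebraMap F E))
      rw [hn] at h4
      exact isUnit_of_mul_isUnit_left h4
    · rw [← hn]
      congr 1
      symm
      refine Polynomial.eq_of_monic_of_associated hnm hq ?_
      exact ⟨h3.unit, by rw [IsUnit.unit_spec, ← hc]⟩

/-- `s(X) U` -/
def blkL (X : Module.End E V) (e : V) (s : Polynomial E) : Submodule E V :=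
  (cyc X e).map (aeval X s)

theorem mem_blkL (X : Module.End E V) (e v : V) (s : Polynomial E) :
    v ∈ blkL X e s ↔ ∃ g : Polynomial E, v = aeval X (s * g) e := by
  constructor
  · rintro ⟨w, hw, rfl⟩
    obtain ⟨g, rfl⟩ := (mem_cyc X e w).1 hw
    exact ⟨g, (aeval_mul' _ _ _ _).symm⟩
  · rintro ⟨g, rfl⟩
    exact ⟨aeval X g e, (mem_cyc X e _).2 ⟨g, rfl⟩, (aeval_mul' _ _ _ _).symm⟩

theorem aeval_mem_blkL (X : Module.End E V) (e : V) (Q : Polynomial E)
    (hann : ∀ f : Polynomial E, aeval X f e = 0 ↔ Q ∣ f) (s : Polynomial E) (hs : s ∣ Q)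
    (f : Polynomial E) : aeval X f e ∈ blkL X e s ↔ s ∣ f := by
  rw [mem_blkL]
  constructor
  · rintro ⟨g, hg⟩
    have h1 : aeval X (f - s * g) e = 0 := by
      rw [map_sub]
      exact sub_eq_zero.2 hg
    rw [hann] at h1
    have h2 := dvd_add (hs.trans h1) (Dvd.intro g rfl : s ∣ s * g)
    rwa [sub_add_cancel] at h2
  · rintro ⟨g, rfl⟩
    exact ⟨g, rfl⟩

theorem finrank_blkL (X : Module.End E V) (e : V) (Q : Polynomial E)
    (hann : ∀ f : Polynomial E, aeval X f e = 0 ↔ Q ∣ f) (hQ : Q ≠ 0) (s t : Polynomial E)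
    (hst : s * t = Q) : Module.finrank E (blkL X e s) = t.natDegree := by
  have hs0 : s ≠ 0 := by
    rintro rfl
    exact hQ (by rw [← hst, zero_mul])
  let φ : Polynomial E →ₗ[E] V :=
    { toFun := fun g => aeval X (s * g) e
      map_add' := fun g g' => by
        rw [mul_add, map_add]
        rfl
      map_smul' := fun c g => by
        rw [mul_smul_comm, map_smul]
        rfl }
  have hr : LinearMap.range φ = blkL X e s := by
    ext v
    rw [mem_blkL]
    constructor
    · rintro ⟨g, rfl⟩
      exact ⟨g, rfl⟩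
    · rintro ⟨g, rfl⟩
      exact ⟨g, rfl⟩
  have hk : LinearMap.ker φ = (Ideal.span {t}).restrictScalars E := by
    ext g
    rw [LinearMap.mem_ker, Submodule.restrictScalars_mem, Ideal.mem_span_singleton]
    show aeval X (s * g) e = 0 ↔ t ∣ g
    rw [hann, ← hst]
    exact mul_dvd_mul_iff_left hs0
  rw [← hr, ← (LinearMap.quotKerEquivRange φ).finrank_eq, hk,
    (Submodule.Quotient.restrictScalarsEquiv E (Ideal.span {t})).finrank_eq]
  exact finrank_quotient_span_eq_natDegree

end

end Pool.Agent.Work.MP_dd0ddf_al
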