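import Pool.Agent.Work.MP_dd0ddf_al.LinTau

/-!
# MP_dd0ddf_al, module LinFour: the Fourier transform in v preserves invariance and antisymmetry

`(fourL f)(X, w) = ∫ f(X, v) ψ(om v w) dv` (`slice_four2`).  `fourL (f ∘ (Ad h, h)) = (fourL f) ∘ (Ad h, h)`: substitution `v → h v`, `om (hv) (hw) = om v w`, and the modulus of `h` is 1:
`h ↦ hmod(h)` is a `PosChar` of `UU B` (hmod_mul, hmod_pos; locally trivial: `h` near 1 preserves a compact open subgroup), use `noPos`.
`τ`: `fourL (f ∘ τ)(X, w) = ∫ f(τXτ, τ v) ψ(om v w) dv`, `τ` preserves the Haar measure up to a positive constant whose square is 1, and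
`om v w = - om (τ v) (τ w)` (trace of `⟨τv,τw⟩ = ⟨w,v⟩ = -conj⟨v,w⟩`), so it equals `(fourL f)(τXτ, -τ w)`: composition of `linTau τ` with `-1 ∈ U(V)` (acting trivially by
conjugation on SA).  `fourV` on `SF V`: same statements.
-/

set_option linter.unusedSectionVars false
set_option linter.style.haveILetI false

namespace Pool.Agent.Work.MP_dd0ddf_al

noncomputable section

universe u

variable {F E : Type u} [NontriviallyNormedField F] [IsUltrametricDist F] [ProperSpace F]
  [CharZero F] [NontriviallyNormedField E] [NormedAlgebra F E] [ProperSpace E] [StarRing E]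
  [QExt F E]
variable {V : Type u} [AddCommGroup V] [Module E V] [Module.Finite E V] [TopologicalSpace V]
  [IsTopologicalAddGroup V] [T2Space V] [ContinuousSMul E V]

/-- `h` as an automorphism -/
private def linfour_aut (B : SkewH E V) (h : UU B) : TAut V :=
  ⟨gvHomeo h.1, fun x y => map_add h.1.1 x y⟩

private theorem linfour_near (B : SkewH E V) (L : AddSubgroup V) (hL : IsOpen (L : Set V))
    (hLc : IsCompact (L : Set V)) : ∀ᶠ h in nhds (1 : UU B), ∀ x ∈ (L : Set V),
      h.1.1 x ∈ (L : Set V) := by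
  refine hLc.eventually_forall_of_forall_eventually ?_
  intro x hx
  have hc : Continuous fun q : UU B × V => q.1.1.1 q.2 :=
    continuous_end_eval.comp (((Units.continuous_val.comp continuous_subtype_val).comp
      continuous_fst).prodMk continuous_snd)
  exact hc.continuousAt.eventually (hL.mem_nhds hx)

/-- the modulus character -/
private def linfour_char (B : SkewH E V) [LocallyCompactSpace V] [TotallyDisconnectedSpace V] :
    PosChar (UU B) where
  δ h := hmod (linfour_aut B h)
  pos h := hmod_pos _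
  mul g h := hmod_mul _ _ _ fun _ => rfl
  lc := by
    obtain ⟨L, hL, hLc, -⟩ :=
      exists_co_addSubgroup (Set.univ : Set V) isOpen_univ (Set.mem_univ _)
    have h1 := linfour_near B L hL hLc
    have h2 : ∀ᶠ h in nhds (1 : UU B), ∀ x ∈ (L : Set V), h⁻¹.1.1 x ∈ (L : Set V) := by
      have hc : Continuous fun h : UU B => h⁻¹ := continuous_inv
      have h3 : Filter.Tendsto (fun h : UU B => h⁻¹) (nhds 1) (nhds 1) := by
        have h4 := hc.tendsto 1
        rwa [inv_one] at h4
      exact h3.eventually h1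
    obtain ⟨W, hW, hWo, hW1⟩ := eventually_nhds_iff.1 (h1.and h2)
    refine ⟨W, hWo, hW1, fun h hh => ?_⟩
    obtain ⟨h3, h4⟩ := hW h hh
    have e1 : (linfour_aut B h).h ⁻¹' (L : Set V) = (L : Set V) := by
      ext x
      constructor
      · intro hx
        have h5 := h4 _ hx
        have h6 : h⁻¹.1.1 (h.1.1 x) = x := congrArg (fun f : Module.End E V => f x) h.1.inv_mul
        have h7 : h⁻¹.1.1 (h.1.1 x) ∈ (L : Set V) := h5
        rwa [h6] at h7
      · intro hx
        exact h3 x hx
    have e2 : hvol ((linfour_aut B h).h ⁻¹' (L : Set V)) =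
        hmod (linfour_aut B h) * hvol (L : Set V) := (exists_hmod _).choose_spec.2 _ hLc hL
    rw [e1] at e2
    have p0 : 0 < hvol (L : Set V) := hvol_pos _ hLc hL ⟨0, L.zero_mem⟩
    exact (mul_right_cancel₀ p0.ne' (by rw [one_mul]; exact e2)).symm

variable (F) in
include F in
theorem hmod_UU (B : SkewH E V) (h : UU B) [LocallyCompactSpace V] [TotallyDisconnectedSpace V] :
    hmod (⟨gvHomeo h.1, fun x y => map_add h.1.1 x y⟩ : TAut V) = 1 :=
  noPos F B (linfour_char B) h

theorem slice_fourL (B : SkewH E V) (p : PChar F) (f : SF (SA B × V) ℂ) (X : SA B) :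
    SF.slice X (fourL B p f) = fourV B p (SF.slice X f) := by
  haveI := lc_V E V
  haveI := td_V F E V
  haveI := lc_SA F B
  haveI := td_SA F B
  exact slice_four2 (omBi B p) f X

private theorem linfour_tr (x : E) : Algebra.trace F E (star x) = Algebra.trace F E x := by
  let e : E ≃ₐ[F] E :=
    { toFun := fun x => star x
      invFun := fun x => star x
      left_inv := star_star
      right_inv := star_star
      map_mul' := star_mul'
      map_add' := star_add
      commutes' := QExt.star_alg }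
  exact Algebra.trace_eq_of_algEquiv e x

theorem fourV_UU (B : SkewH E V) (p : PChar F) (h : UU B) (f : SF V ℂ) :
    fourV B p (SF.comp (gvHomeo h.1) f) = SF.comp (gvHomeo h.1) (fourV B p f) := by
  haveI := lc_V E V
  haveI := td_V F E V
  apply SF.ext
  intro w
  have e1 : h.1⁻¹.1 (h.1.1 w) = w := congrArg (fun f : Module.End E V => f w) h.1.inv_mul
  have e2 := four1_aut (omBi B p) (linfour_aut B h) (fun w => h.1⁻¹.1 w) (fun v w => by
    show p.ψ (om F B (h.1.1 v) w) = p.ψ (om F B v (h.1⁻¹.1 w))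
    have e3 : h.1.1 (h.1⁻¹.1 w) = w := congrArg (fun f : Module.End E V => f w) h.1.mul_inv
    have e4 := h.2 v (h.1⁻¹.1 w)
    rw [e3] at e4
    unfold om
    rw [e4]) f (h.1.1 w)
  have e5 : hmod (linfour_aut B h) = 1 := hmod_UU F B h
  rw [e5, Complex.ofReal_one, one_smul] at e2
  have e6 : four1 (omBi B p) (SF.comp (gvHomeo h.1) f) (h.1⁻¹.1 (h.1.1 w)) =
      four1 (omBi B p) f (h.1.1 w) := e2
  rw [e1] at e6
  exact e6

private theorem linfour_neg {B : SkewH E V} (τ : AntiU B) (v : V) : τ.t (-v) = - τ.t v := by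
  have h := τ.smul (-1) v
  rw [neg_smul, one_smul, star_neg, star_one, neg_smul, one_smul] at h
  exact h

theorem fourV_tau {B : SkewH E V} (p : PChar F) (τ : AntiU B) (f : SF V ℂ) (w : V) :
    fourV B p (SF.comp (tauH F τ) f) w = fourV B p f (- τ.t w) := by
  haveI := lc_V E V
  haveI := td_V F E V
  let α : TAut V := ⟨tauH F τ, τ.add⟩
  have hα : hmod α = 1 := by
    have h1 := hmod_mul α α ⟨Homeomorph.refl V, fun _ _ => rfl⟩ (fun x => (τ.inv x).symm)
    have h2 : hmod (⟨Homeomorph.refl V, fun _ _ => rfl⟩ : TAut V) = 1 := by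
      have h3 := hmod_mul (⟨Homeomorph.refl V, fun _ _ => rfl⟩ : TAut V)
        ⟨Homeomorph.refl V, fun _ _ => rfl⟩ ⟨Homeomorph.refl V, fun _ _ => rfl⟩ (fun _ => rfl)
      have h4 := (hmod_pos (⟨Homeomorph.refl V, fun _ _ => rfl⟩ : TAut V)).ne'
      exact (mul_right_cancel₀ h4 (by rw [one_mul]; exact h3)).symm
    rw [h2] at h1
    have h5 := hmod_pos α
    nlinarith
  have e2 := four1_aut (omBi B p) α (fun w => - τ.t w) (fun v w => by
    show p.ψ (om F B (τ.t v) w) = p.ψ (om F B v (- τ.t w))
    have e3 : B.ip (τ.t v) w = B.ip (τ.t w) v := by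
      have := τ.ip v (τ.t w)
      rwa [τ.inv] at this
    have e4 : B.ip v (- τ.t w) = - B.ip v (τ.t w) := by
      have := B.smul_right (-1) v (τ.t w)
      rwa [neg_smul, one_smul, star_neg, star_one, neg_one_mul] at this
    unfold om
    rw [e3, e4, B.skew v (τ.t w), map_neg, map_neg, linfour_tr]) f (- τ.t w)
  rw [hα, Complex.ofReal_one, one_smul] at e2
  have e6 : four1 (omBi B p) (SF.comp (tauH F τ) f) (- τ.t (- τ.t w)) =
      four1 (omBi B p) f (- τ.t w) := e2
  rw [linfour_neg, τ.inv, neg_neg] at e6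
  exact e6

private theorem linfour_act {B : SkewH E V} (p : PChar F) (h : UU B) (f : SF (SA B × V) ℂ) :
    fourL B p (linAct B h f) = linAct B h (fourL B p f) := by
  apply SF.ext
  rintro ⟨X, w⟩
  have e1 := congrArg (fun g : SF V ℂ => g w) (slice_fourL B p (linAct B h f) X)
  have e2 := congrArg (fun g : SF V ℂ => g (h.1.1 w)) (slice_fourL B p f (saConj B h X))
  have e3 : SF.slice X (linAct B h f) = SF.comp (gvHomeo h.1) (SF.slice (saConj B h X) f) :=
    SF.ext fun _ => rfl
  have e4 : fourL B p (linAct B h f) (X, w) = fourV B p (SF.slice X (linAct B h f)) w := e1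
  have e5 : fourL B p f (saConj B h X, h.1.1 w) =
    fourV B p (SF.slice (saConj B h X) f) (h.1.1 w) := e2
  rw [e4, e3, fourV_UU]
  exact e5.symm

theorem fourL_inv {B : SkewH E V} (p : PChar F) (T : SF (SA B × V) ℂ →ₗ[ℂ] ℂ)
    (hT : LinInv B T) : LinInv B (T ∘ₗ fourL B p) := by
  intro h f
  show T (fourL B p (linAct B h f)) = T (fourL B p f)
  rw [linfour_act, hT]

/-- `-1` -/
private def linfour_m (B : SkewH E V) : UU B :=
  ⟨-1, fun v w => by
    show B.ip (-v) (-w) = B.ip v w
    have h1 := B.smul_left (-1) v (-w)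
    have h2 := B.smul_right (-1) v w
    rw [neg_smul, one_smul, neg_one_mul] at h1
    rw [neg_smul, one_smul, star_neg, star_one, neg_one_mul] at h2
    rw [h1, h2, neg_neg]⟩

private theorem linfour_taul {B : SkewH E V} (p : PChar F) (τ : AntiU B)
    (f : SF (SA B × V) ℂ) : fourL B p (linTau F τ f) =
      linTau F τ (linAct B (linfour_m B) (fourL B p f)) := by
  apply SF.ext
  rintro ⟨X, w⟩
  have e1 := congrArg (fun g : SF V ℂ => g w) (slice_fourL B p (linTau F τ f) X)
  have e2 := congrArg (fun g : SF V ℂ => g (- τ.t w)) (slice_fourL B p f (saTau F τ X))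
  have e3 : SF.slice X (linTau F τ f) = SF.comp (tauH F τ) (SF.slice (saTau F τ X) f) :=
    SF.ext fun _ => rfl
  have e4 : fourL B p (linTau F τ f) (X, w) = fourV B p (SF.slice X (linTau F τ f)) w := e1
  have e5 : fourL B p f (saTau F τ X, - τ.t w) =
    fourV B p (SF.slice (saTau F τ X) f) (- τ.t w) := e2
  rw [e4, e3, fourV_tau, ← e5]
  have e6 : saConj B (linfour_m B) (saTau F τ X) = saTau F τ X := by
    apply Subtype.ext
    show (-1 : GV E V).1 * (saTau F τ X).1 * ((-1 : GV E V)⁻¹).1 = (saTau F τ X).1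
    rw [inv_neg, inv_one, Units.val_neg, Units.val_one, neg_one_mul, neg_mul_neg, mul_one]
  show fourL B p f (saTau F τ X, - τ.t w) =
    fourL B p f (saConj B (linfour_m B) (saTau F τ X), - τ.t w)
  rw [e6]

theorem fourL_anti {B : SkewH E V} (p : PChar F) (τ : AntiU B) (T : SF (SA B × V) ℂ →ₗ[ℂ] ℂ)
    (hT : LinInv B T) (hT' : LinAnti F τ T) : LinAnti F τ (T ∘ₗ fourL B p) := by
  intro f
  show T (fourL B p (linTau F τ f)) = - T (fourL B p f)
  rw [linfour_taul, hT', hT]

theorem fourL_InD {B : SkewH E V} (p : PChar F) (τ : AntiU B) (P : Polynomial E)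
    (T : SF (SA B × V) ℂ →ₗ[ℂ] ℂ) (hT : InD F τ P T) : InD F τ P (T ∘ₗ fourL B p) := by
  refine ⟨fourL_inv p T hT.inv, fourL_anti p τ T hT.inv hT.anti, ?_⟩
  intro f hf
  refine hT.supp _ ?_
  rintro ⟨X, w⟩ hX
  have e1 : fourL B p f (X, w) = fourV B p (SF.slice X f) w :=
    congrArg (fun g : SF V ℂ => g w) (slice_fourL B p f X)
  have e2 : SF.slice X f = 0 := SF.ext fun v => hf (X, v) hX
  rw [e1, e2, map_zero]
  rfl

end

end Pool.Agent.Work.MP_dd0ddf_al
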