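import Pool.Agent.Work.MP_dd0ddf_al.FxDefs
import Pool.Agent.Work.MP_dd0ddf_al.HmodDil
import Pool.Agent.Work.MP_dd0ddf_al.CurAux

/-!
# MP_dd0ddf_al, module FxSplA: the comparison of dilations (abstract form)

`V = W ⊕ W' ⊕ Z`, `P, P'` the projections onto `W = range P` and `W' = range P'`; `A1 ≤ W`, `A' ≤ W'`, `α = dim_E A'`, `N = dim_E W' = dim_E W`, `2α < N`.
Let `φ` be supported in `{v : P v ∉ A1}` (open).  On this open set `S` is supported on `{P' v ∈ A'}` and is invariant under translations by `A'`; so `S φ` depends only on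
`φ~ : (w, z) ↦ ∫_{A'} φ(w + a + z) da` (w ∈ W \ A1, z ∈ Z): i.e. if `φ~ = 0` then `S φ = 0`.  [The set `{P' v ∈ A'} = W ⊕ A' ⊕ Z` is a closed subspace of V; `S` restricted to functions on the
open subset `{P v ∉ A1}` of it is translation invariant in the A'-direction; use `supp_on_factor`, and `hI_unique` with values: the map φ ↦ φ~ on `SF((W\A1) × Z × A')` has kernel the span of
`f(· + a) - f`.]
Let `a = hmod (dil F t)`.  With `D = v ↦ v + (t⁻²-1)(P+P')v` and `C = v ↦ v + (t⁻²-1) P v + (t²-1) P' v` (hypothesis hc, with t replaced by 1/t): `(φ∘D)~(w,z) = a^{-4α} φ~(t⁻²w, z)` and `(φ∘C)~(w,z) = a^{4α} φ~(t⁻²w,z)`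
(`dim_F A' = 2α`, hmod_dil).  So `S(φ∘D) = a^{-8α} S(φ∘C) = a^{-8α} S φ`, while `hD` says `S(φ∘D) = a^{-4N} S φ` (`dim_F (W+W') = 4N`).  Take `t` with `a ≠ 1` (hmod_dil_small): `a^{4N - 8α} ≠ 1`, so `S φ = 0`.
-/

set_option linter.unusedSectionVars false
set_option linter.style.haveILetI false

namespace Pool.Agent.Work.MP_dd0ddf_al

noncomputable section

universe u

variable {F E : Type u} [NontriviallyNormedField F] [IsUltrametricDist F] [ProperSpace F]
  [CharZero F] [NontriviallyNormedField E] [NormedAlgebra F E] [ProperSpace E] [StarRing E]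
  [QExt F E]
variable {V : Type u} [AddCommGroup V] [Module E V] [Module.Finite E V] [TopologicalSpace V]
  [IsTopologicalAddGroup V] [T2Space V] [ContinuousSMul E V]

private def fxspla_d (P P' : Module.End E V) (s s' : F) (v : V) : V :=
  v + (algebraMap F E (s - 1)) • P v + (algebraMap F E (s' - 1)) • P' v

private theorem fxspla_P (P P' : Module.End E V) (hP : P * P = P) (h1 : P * P' = 0) (s s' : F)
    (v : V) : P (fxspla_d P P' s s' v) = (algebraMap F E s) • P v := by
  have e1 : P (P v) = P v := congrArg (fun f : Module.End E V => f v) hP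
  have e2 : P (P' v) = 0 := congrArg (fun f : Module.End E V => f v) h1
  unfold fxspla_d
  rw [map_add, map_add, map_smul, map_smul, e1, e2, smul_zero, add_zero, map_sub, map_one,
    sub_smul, one_smul, add_sub_cancel]

private theorem fxspla_P' (P P' : Module.End E V) (hP' : P' * P' = P') (h2 : P' * P = 0)
    (s s' : F) (v : V) : P' (fxspla_d P P' s s' v) = (algebraMap F E s') • P' v := by
  have e1 : P' (P' v) = P' v := congrArg (fun f : Module.End E V => f v) hP'
  have e2 : P' (P v) = 0 := congrArg (fun f : Module.End E V => f v) h2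
  unfold fxspla_d
  rw [map_add, map_add, map_smul, map_smul, e1, e2, smul_zero, add_zero, map_sub, map_one,
    sub_smul, one_smul, add_sub_cancel]

private theorem fxspla_dd (P P' : Module.End E V) (hP : P * P = P) (hP' : P' * P' = P')
    (h1 : P * P' = 0) (h2 : P' * P = 0) (s s' r r' : F) (v : V) :
    fxspla_d P P' r r' (fxspla_d P P' s s' v) = fxspla_d P P' (r * s) (r' * s') v := by
  have e : fxspla_d P P' r r' (fxspla_d P P' s s' v) = fxspla_d P P' s s' v +
      (algebraMap F E (r - 1)) • P (fxspla_d P P' s s' v) +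
      (algebraMap F E (r' - 1)) • P' (fxspla_d P P' s s' v) := rfl
  rw [e, fxspla_P P P' hP h1, fxspla_P' P P' hP' h2]
  unfold fxspla_d
  simp only [map_sub, map_mul, map_one, smul_smul]
  module

private theorem fxspla_inv (P P' : Module.End E V) (hP : P * P = P) (hP' : P' * P' = P')
    (h1 : P * P' = 0) (h2 : P' * P = 0) (s s' r r' : F) (hr : r * s = 1) (hr' : r' * s' = 1)
    (v : V) : fxspla_d P P' r r' (fxspla_d P P' s s' v) = v := by
  rw [fxspla_dd P P' hP hP' h1 h2, hr, hr']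
  unfold fxspla_d
  rw [sub_self, map_zero, zero_smul, zero_smul, add_zero, add_zero]

private theorem fxspla_cont (P P' : Module.End E V) (s s' : F) :
    Continuous (fxspla_d P P' s s') := by
  unfold fxspla_d
  exact (continuous_id.add (continuous_const.smul P.continuous_of_finiteDimensional)).add
    (continuous_const.smul P'.continuous_of_finiteDimensional)

/-- `v ↦ v + (s - 1) P v + (s' - 1) P' v` for commuting orthogonal projections -/
def dil2 (P P' : Module.End E V) (hP : P * P = P) (hP' : P' * P' = P') (h1 : P * P' = 0)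
    (h2 : P' * P = 0) (s s' : F) (hs : s ≠ 0) (hs' : s' ≠ 0) : V ≃ₜ V where
  toFun v := v + (algebraMap F E (s - 1)) • P v + (algebraMap F E (s' - 1)) • P' v
  invFun v := v + (algebraMap F E (s⁻¹ - 1)) • P v + (algebraMap F E (s'⁻¹ - 1)) • P' v
  left_inv := fxspla_inv P P' hP hP' h1 h2 s s' s⁻¹ s'⁻¹ (inv_mul_cancel₀ hs)
    (inv_mul_cancel₀ hs')
  right_inv := fxspla_inv P P' hP hP' h1 h2 s⁻¹ s'⁻¹ s s' (mul_inv_cancel₀ hs)
    (mul_inv_cancel₀ hs')
  continuous_toFun := fxspla_cont P P' s s'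
  continuous_invFun := fxspla_cont P P' s⁻¹ s'⁻¹

/-- the open set `P v ∉ A1` -/
private def fxspla_U (P : Module.End E V) (A1 : Submodule E V) : Set V := {v | P v ∉ A1}

private theorem fxspla_U_open (P : Module.End E V) (A1 : Submodule E V) :
    IsOpen (fxspla_U P A1) := by
  have h1 : IsClosed (A1 : Set V) := A1.closed_of_finiteDimensional
  exact (h1.preimage P.continuous_of_finiteDimensional).isOpen_compl

/-- a homeomorphism preserving the open set, restricted to it -/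
private def fxspla_res (P : Module.End E V) (A1 : Submodule E V) (a : V ≃ₜ V)
    (ha : ∀ v, P (a v) ∈ A1 ↔ P v ∈ A1) : fxspla_U P A1 ≃ₜ fxspla_U P A1 :=
  a.subtype fun v => by
    show P v ∉ A1 ↔ P (a v) ∉ A1
    rw [ha]

private theorem fxspla_ext (P : Module.End E V) (A1 : Submodule E V) (a : V ≃ₜ V)
    (ha : ∀ v, P (a v) ∈ A1 ↔ P v ∈ A1) (f : SF (fxspla_U P A1) ℂ) :
    SF.ext0 (fxspla_U P A1) (fxspla_U_open P A1) (SF.comp (fxspla_res P A1 a ha) f) =
      SF.comp a (SF.ext0 (fxspla_U P A1) (fxspla_U_open P A1) f) := by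
  apply SF.ext
  intro v
  show _ = SF.ext0 (fxspla_U P A1) (fxspla_U_open P A1) f (a v)
  by_cases hv : v ∈ fxspla_U P A1
  · have hv' : a v ∈ fxspla_U P A1 := fun h => hv ((ha v).1 h)
    rw [SF.ext0_apply_mem _ _ _ _ hv, SF.ext0_apply_mem _ _ _ _ hv']
    rfl
  · have hv' : a v ∉ fxspla_U P A1 := fun h => hv fun h1 => h ((ha v).2 h1)
    rw [SF.ext0_apply_not_mem _ _ _ _ hv, SF.ext0_apply_not_mem _ _ _ _ hv']

private theorem fxspla_ext0 {X : Type*} [TopologicalSpace X] [T2Space X] (W : Set X)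
    (hW : IsOpen W) (f : SF X ℂ) (hf : ∀ x, x ∉ W → f x = 0) :
    ∃ g : SF W ℂ, SF.ext0 W hW g = f := by
  have hs : IsClosed (Function.support f.1) := by
    have h : (Function.support f.1)ᶜ = f.1 ⁻¹' {0} := by
      ext x
      simp [Function.mem_support]
    exact ⟨by
      rw [h]
      exact f.2.1 _⟩
  have hc : IsCompact (Function.support f.1) := by
    have h1 : tsupport f.1 = Function.support f.1 := hs.closure_eq
    rw [← h1]
    exact f.2.2
  have hsW : Function.support f.1 ⊆ W := by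
    intro x hx
    by_contra hn
    exact hx (hf x hn)
  refine ⟨⟨fun x => f x.1, f.2.1.comp_continuous continuous_subtype_val, ?_⟩, ?_⟩
  · refine HasCompactSupport.of_support_subset_isCompact
      (K := (Subtype.val : W → X) ⁻¹' (Function.support f.1)) ?_ (fun x hx => hx)
    refine Topology.IsEmbedding.subtypeVal.isCompact_preimage_iff ?_ |>.2 hc
    rw [Subtype.range_val]
    exact hsW
  · apply SF.ext
    intro x
    by_cases hx : x ∈ W
    · rw [SF.ext0_apply_mem _ _ _ _ hx]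
    · rw [SF.ext0_apply_not_mem _ _ _ _ hx, hf x hx]

/-- the closed subset `P' v ∈ A'` of the open set -/
private def fxspla_Z (P P' : Module.End E V) (A1 A' : Submodule E V) :
    Set (fxspla_U P A1) := {v | P' v.1 ∈ A'}

private theorem fxspla_Z_closed (P P' : Module.End E V) (A1 A' : Submodule E V) :
    IsClosed (fxspla_Z P P' A1 A') := by
  have h1 : IsClosed (A' : Set V) := A'.closed_of_finiteDimensional
  exact h1.preimage (P'.continuous_of_finiteDimensional.comp continuous_subtype_val)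

/-- `P' r = 0`, `P r ∉ A1` -/
private def fxspla_R (P P' : Module.End E V) (A1 : Submodule E V) : Set V :=
  {r | P' r = 0 ∧ P r ∉ A1}

private theorem fxspla_rng (P : Module.End E V) (hP : P * P = P) {v : V}
    (h : v ∈ LinearMap.range P) : P v = v := by
  obtain ⟨w, rfl⟩ := h
  exact congrArg (fun f : Module.End E V => f w) hP

private theorem fxspla_rng' (P P' : Module.End E V) (h12 : P * P' = 0) {v : V}
    (h : v ∈ LinearMap.range P') : P v = 0 := by
  obtain ⟨w, rfl⟩ := h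
  exact congrArg (fun f : Module.End E V => f w) h12

private def fxspla_th (P P' : Module.End E V) (hP' : P' * P' = P')
    (h12 : P * P' = 0) (A1 A' : Submodule E V)
    (hA' : A' ≤ LinearMap.range P') :
    fxspla_Z P P' A1 A' ≃ₜ A' × fxspla_R P P' A1 where
  toFun z := (⟨P' z.1.1, z.2⟩, ⟨z.1.1 - P' z.1.1, by
    have e1 : P' (P' z.1.1) = P' z.1.1 := congrArg (fun f : Module.End E V => f z.1.1) hP'
    have e2 : P (P' z.1.1) = 0 := congrArg (fun f : Module.End E V => f z.1.1) h12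
    refine ⟨?_, ?_⟩
    · rw [map_sub, e1, sub_self]
    · rw [map_sub, e2, sub_zero]
      exact z.1.2⟩)
  invFun q := ⟨⟨q.1.1 + q.2.1, by
    show P (q.1.1 + q.2.1) ∉ A1
    rw [map_add, fxspla_rng' P P' h12 (hA' q.1.2), zero_add]
    exact q.2.2.2⟩, by
    show P' (q.1.1 + q.2.1) ∈ A'
    rw [map_add, fxspla_rng P' hP' (hA' q.1.2), q.2.2.1, add_zero]
    exact q.1.2⟩
  left_inv z := by
    apply Subtype.ext
    apply Subtype.ext
    show P' z.1.1 + (z.1.1 - P' z.1.1) = z.1.1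
    rw [add_sub_cancel]
  right_inv q := by
    refine Prod.ext (Subtype.ext ?_) (Subtype.ext ?_)
    · show P' (q.1.1 + q.2.1) = q.1.1
      rw [map_add, fxspla_rng P' hP' (hA' q.1.2), q.2.2.1, add_zero]
    · show (q.1.1 + q.2.1) - P' (q.1.1 + q.2.1) = q.2.1
      rw [map_add, fxspla_rng P' hP' (hA' q.1.2), q.2.2.1, add_zero, add_sub_cancel_left]
  continuous_toFun := by
    have h1 : Continuous fun z : fxspla_Z P P' A1 A' => z.1.1 :=
      continuous_subtype_val.comp continuous_subtype_val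
    exact (((P'.continuous_of_finiteDimensional.comp h1)).subtype_mk _).prodMk
      ((h1.sub (P'.continuous_of_finiteDimensional.comp h1)).subtype_mk _)
  continuous_invFun := by
    have h1 : Continuous fun q : A' × fxspla_R P P' A1 => q.1.1 + q.2.1 :=
      (continuous_subtype_val.comp continuous_fst).add
        (continuous_subtype_val.comp continuous_snd)
    exact (h1.subtype_mk _).subtype_mk _

/-- the key: dilation by `s` on `W'` multiplies `S` by the modulus of `s` on `A'` -/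
private theorem fxspla_key (P P' : Module.End E V) (hP' : P' * P' = P')
    (h12 : P * P' = 0) (A1 A' : Submodule E V)
    (hA' : A' ≤ LinearMap.range P')
    (S : SF V ℂ →ₗ[ℂ] ℂ) (hsupp : SF.SuppOn S {v | P v ∉ A1 → P' v ∈ A'})
    (htr : ∀ y ∈ A', ∀ φ : SF V ℂ, S (SF.comp (Homeomorph.addRight y) φ) = S φ)
    [LocallyCompactSpace V] [TotallyDisconnectedSpace V] [LocallyCompactSpace A']
    [TotallyDisconnectedSpace A'] (α : TAut A') (β : V ≃ₜ V)
    (hβ : ∀ v, P (β v) = P v)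
    (hβ' : ∀ (a : A') (r : V), P' r = 0 → β (a.1 + r) = (α.h a).1 + r)
    (ψ : SF V ℂ) (hψ : ∀ v, P v ∈ A1 → ψ v = 0) :
    S (SF.comp β ψ) = (hmod α : ℂ) * S ψ := by
  have hU := fxspla_U_open P A1
  haveI : LocallyCompactSpace (fxspla_U P A1) := hU.locallyCompactSpace
  have hZ := fxspla_Z_closed P P' A1 A'
  have hS : SF.SuppOn (S ∘ₗ SF.ext0 (fxspla_U P A1) hU) (fxspla_Z P P' A1 A') := by
    intro f hf
    refine hsupp _ ?_
    intro v hv
    by_cases h1 : v ∈ fxspla_U P A1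
    · rw [SF.ext0_apply_mem _ _ _ _ h1]
      exact hf ⟨v, h1⟩ (hv h1)
    · exact SF.ext0_apply_not_mem _ _ _ _ h1
  obtain ⟨S', hS'⟩ := supp_on_factor _ hZ _ hS
  let θ := fxspla_th P P' hP' h12 A1 A' hA'
  -- translation invariance
  have key : ∀ (a : V ≃ₜ V) (ha : ∀ v, P (a v) = P v) (a' : A' ≃ₜ A')
      (_ : ∀ (x : A') (r : V), P' r = 0 → a (x.1 + r) = (a' x).1 + r)
      (g : SF (A' × fxspla_R P P' A1) ℂ), ∃ f : SF (fxspla_U P A1) ℂ,
        S' (SF.comp θ g) = S (SF.ext0 (fxspla_U P A1) hU f) ∧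
        S' (SF.comp θ (SF.comp (a'.prodCongr (Homeomorph.refl _)) g)) =
          S (SF.comp a (SF.ext0 (fxspla_U P A1) hU f)) ∧
        ∀ f' : SF (fxspla_U P A1) ℂ, SF.restr _ hZ f' = SF.comp θ g →
          S (SF.comp a (SF.ext0 (fxspla_U P A1) hU f')) =
          S (SF.comp a (SF.ext0 (fxspla_U P A1) hU f)) ∧
          S (SF.ext0 (fxspla_U P A1) hU f') = S (SF.ext0 (fxspla_U P A1) hU f) := by
    intro a ha a' haa g
    obtain ⟨f, hf⟩ := restr_surjective _ hZ (SF.comp θ g)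
    have hres : ∀ f : SF (fxspla_U P A1) ℂ, SF.restr _ hZ f = SF.comp θ g →
        S (SF.comp a (SF.ext0 (fxspla_U P A1) hU f)) =
          S' (SF.comp θ (SF.comp (a'.prodCongr (Homeomorph.refl _)) g)) := by
      intro f hf
      have h1 := hS' (SF.comp (fxspla_res P A1 a (fun v => by rw [ha])) f)
      have h2 : SF.restr (fxspla_Z P P' A1 A') hZ
          (SF.comp (fxspla_res P A1 a (fun v => by rw [ha])) f) =
          SF.comp θ (SF.comp (a'.prodCongr (Homeomorph.refl _)) g) := by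
        apply SF.ext
        intro z
        have h3 : ∀ z' : fxspla_Z P P' A1 A', f z'.1 = g (θ z') := fun z' =>
          congrArg (fun k : SF (fxspla_Z P P' A1 A') ℂ => k z') hf
        have h4 : P' (z.1.1 - P' z.1.1) = 0 := (θ z).2.2.1
        have h5 := haa (θ z).1 (z.1.1 - P' z.1.1) h4
        have h6 : (θ z).1.1 + (z.1.1 - P' z.1.1) = z.1.1 := add_sub_cancel _ _
        rw [h6] at h5
        have h7 := h3 (θ.symm (a' (θ z).1, (θ z).2))
        rw [Homeomorph.apply_symm_apply] at h7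
        have h8 : (θ.symm (a' (θ z).1, (θ z).2)).1 =
            fxspla_res P A1 a (fun v => by rw [ha]) z.1 := by
          apply Subtype.ext
          show (a' (θ z).1).1 + (z.1.1 - P' z.1.1) = a z.1.1
          exact h5.symm
        rw [h8] at h7
        exact h7
      rw [h2] at h1
      rw [← h1]
      show _ = S (SF.ext0 (fxspla_U P A1) hU (SF.comp (fxspla_res P A1 a _) f))
      rw [fxspla_ext]
    refine ⟨f, ?_, (hres f hf).symm, fun f' hf' => ⟨(hres f' hf').trans (hres f hf).symm, ?_⟩⟩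
    · rw [← hf]
      exact (hS' f).symm
    · have h1 := hS' f'
      have h2 := hS' f
      rw [hf'] at h1
      rw [hf] at h2
      exact h1.trans h2.symm
  have hinv : ∀ (x : A') (g : SF (A' × fxspla_R P P' A1) ℂ),
      (S' ∘ₗ SF.comp θ) (SF.comp ((Homeomorph.addRight x).prodCongr (Homeomorph.refl _)) g) =
      (S' ∘ₗ SF.comp θ) g := by
    intro x g
    obtain ⟨f, h1, h2, -⟩ := key (Homeomorph.addRight (x : V)) (fun v => by
      show P (v + x) = P v
      rw [map_add, fxspla_rng' P P' h12 (hA' x.2), add_zero]) (Homeomorph.addRight x)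
      (fun y r _ => by
        show (y.1 + r) + x.1 = (y.1 + x.1) + r
        abel) g
    have h3 := htr x x.2 (SF.ext0 (fxspla_U P A1) hU f)
    show S' (SF.comp θ _) = S' (SF.comp θ g)
    rw [h1, h2, h3]
  obtain ⟨f', hf'⟩ := fxspla_ext0 (fxspla_U P A1) hU ψ (fun v hv => hψ v (by
    by_contra h
    exact hv h))
  let g : SF (A' × fxspla_R P P' A1) ℂ := SF.comp θ.symm (SF.restr _ hZ f')
  have hg : SF.restr _ hZ f' = SF.comp θ g := by
    apply SF.ext
    intro z
    show f' z.1 = f' (θ.symm (θ z)).1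
    rw [Homeomorph.symm_apply_apply]
  obtain ⟨f, h1, h2, h3⟩ := key β hβ α.h hβ' g
  obtain ⟨h4, h5⟩ := h3 f' hg
  have h6 := curaux_aut (S' ∘ₗ SF.comp θ) hinv α g
  have h7 : S' (SF.comp θ (SF.comp (α.h.prodCongr (Homeomorph.refl _)) g)) =
      (hmod α : ℂ) * S' (SF.comp θ g) := h6
  rw [h2, h1, ← h4, ← h5, hf'] at h7
  exact h7

private theorem fxspla_mul [LocallyCompactSpace F] [TotallyDisconnectedSpace F] (x y z : F)
    (hx : x ≠ 0) (hy : y ≠ 0) (hz : z ≠ 0) (h : z = x * y) :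
    hmod (dil F z hz) = hmod (dil F x hx) * hmod (dil F y hy) :=
  hmod_mul _ _ _ fun v => by
    show z * v = x * (y * v)
    rw [h, mul_assoc]

private theorem fxspla_four [LocallyCompactSpace F] [TotallyDisconnectedSpace F] (t s : F)
    (ht : t ≠ 0) (hs : s ≠ 0) (h : s * t ^ 4 = 1) :
    hmod (dil F s hs) * hmod (dil F t ht) ^ 4 = 1 := by
  have h2 : t ^ 2 ≠ 0 := pow_ne_zero 2 ht
  have h4 : t ^ 4 ≠ 0 := pow_ne_zero 4 ht
  have e1 := fxspla_mul t t (t ^ 2) ht ht h2 (by ring)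
  have e2 := fxspla_mul (t ^ 2) (t ^ 2) (t ^ 4) h2 h2 h4 (by ring)
  have e3 := fxspla_mul s (t ^ 4) 1 hs h4 one_ne_zero h.symm
  have e4 := fxspla_mul (1 : F) 1 1 one_ne_zero one_ne_zero one_ne_zero (by ring)
  have e5 : hmod (dil F (1 : F) one_ne_zero) = 1 := by
    have h3 := (hmod_pos (dil F (1 : F) one_ne_zero)).ne'
    exact (mul_right_cancel₀ h3 (by rw [one_mul]; exact e4)).symm
  rw [e5, e2, e1] at e3
  rw [e3]
  ring

theorem fx_spl_abs (P P' : Module.End E V) (hP : P * P = P) (hP' : P' * P' = P')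
    (h12 : P * P' = 0) (h21 : P' * P = 0) (A1 A' : Submodule E V)
    (hA1 : A1 ≤ LinearMap.range P) (hA' : A' ≤ LinearMap.range P')
    (hdim : Module.finrank E (LinearMap.range P) = Module.finrank E (LinearMap.range P'))
    (hlt : 2 * Module.finrank E A' < Module.finrank E (LinearMap.range P'))
    (S : SF V ℂ →ₗ[ℂ] ℂ) (hsupp : SF.SuppOn S {v | P v ∉ A1 → P' v ∈ A'})
    (htr : ∀ y ∈ A', ∀ φ : SF V ℂ, S (SF.comp (Homeomorph.addRight y) φ) = S φ)
    [LocallyCompactSpace F] [TotallyDisconnectedSpace F]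
    (hc : ∀ (t : F) (ht : t ≠ 0) (φ : SF V ℂ),
      S (SF.comp (dil2 P P' hP hP' h12 h21 (t ^ 2) (t ^ 2)⁻¹ (pow_ne_zero 2 ht)
        (inv_ne_zero (pow_ne_zero 2 ht))) φ) = S φ)
    (hD : ∀ (t : F) (ht : t ≠ 0) (φ : SF V ℂ),
      ((hmod (dil F t ht) : ℂ)) ^ (4 * Module.finrank E (LinearMap.range P')) *
        S (SF.comp (dil2 P P' hP hP' h12 h21 (t ^ 2)⁻¹ (t ^ 2)⁻¹
          (inv_ne_zero (pow_ne_zero 2 ht)) (inv_ne_zero (pow_ne_zero 2 ht))) φ) = S φ) :
    SF.SuppOn S {v | P v ∈ A1} := by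
  haveI := lc_V E V
  haveI := td_V F E V
  letI : Module F A' := Module.compHom A' (algebraMap F E)
  haveI : IsScalarTower F E A' := by
    refine ⟨fun a x v => ?_⟩
    show (a • x) • v = (algebraMap F E a) • (x • v)
    rw [Algebra.smul_def, mul_smul]
  haveI : FiniteDimensional F E := qext_findim F E
  haveI : Module.Finite F A' := Module.Finite.trans E A'
  haveI : ContinuousSMul F A' := by
    refine ⟨?_⟩
    have h : (fun p : F × A' => p.1 • p.2) = fun p : F × A' => (algebraMap F E p.1) • p.2 := rfl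
    rw [h]
    exact ((continuous_algebraMap F E).comp continuous_fst).smul continuous_snd
  haveI : LocallyCompactSpace A' := lc_V E A'
  haveI : TotallyDisconnectedSpace A' := td_V F E A'
  have hfin : Module.finrank F A' = 2 * Module.finrank E A' := by
    rw [← Module.finrank_mul_finrank F E A', QExt.finrank_two]
  intro φ hφ
  obtain ⟨t, ht0, ht1⟩ := NormedField.exists_norm_lt F one_pos
  have ht : t ≠ 0 := norm_pos_iff.1 ht0
  have ht2 : t ^ 2 ≠ 0 := pow_ne_zero 2 ht
  have ha1 : 1 < hmod (dil F t ht) := hmod_dil_small t ht ht1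
  have hs : (t ^ 2)⁻¹ * (t ^ 2)⁻¹ ≠ 0 := mul_ne_zero (inv_ne_zero ht2) (inv_ne_zero ht2)
  have hs4 : ((t ^ 2)⁻¹ * (t ^ 2)⁻¹) * t ^ 4 = 1 := by field_simp
  have e4 := fxspla_four t _ ht hs hs4
  have hti : (t⁻¹ : F) ≠ 0 := inv_ne_zero ht
  have ec := hc t⁻¹ hti φ
  have eD := hD t ht φ
  have ek := fxspla_key P P' hP' h12 A1 A' hA' S hsupp htr
    (dil A' ((t ^ 2)⁻¹ * (t ^ 2)⁻¹) hs)
    (dil2 P P' hP hP' h12 h21 1 ((t ^ 2)⁻¹ * (t ^ 2)⁻¹) one_ne_zero hs) (fun v => by
      have h1 := fxspla_P P P' hP h12 1 ((t ^ 2)⁻¹ * (t ^ 2)⁻¹) v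
      rw [map_one, one_smul] at h1
      exact h1) (fun a r hr => by
      show a.1 + r + (algebraMap F E (1 - 1)) • P (a.1 + r) +
        (algebraMap F E ((t ^ 2)⁻¹ * (t ^ 2)⁻¹ - 1)) • P' (a.1 + r) =
        (algebraMap F E ((t ^ 2)⁻¹ * (t ^ 2)⁻¹)) • a.1 + r
      rw [sub_self, map_zero, zero_smul, add_zero, map_add, fxspla_rng P' hP' (hA' a.2), hr,
        add_zero, map_sub, map_one, sub_smul, one_smul]
      abel)
    (SF.comp (dil2 P P' hP hP' h12 h21 (t⁻¹ ^ 2) (t⁻¹ ^ 2)⁻¹ (pow_ne_zero 2 hti)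
        (inv_ne_zero (pow_ne_zero 2 hti))) φ) (fun v hv => hφ _ (by
      have h1 := fxspla_P P P' hP h12 (t⁻¹ ^ 2) (t⁻¹ ^ 2)⁻¹ v
      have h2 : P ((dil2 P P' hP hP' h12 h21 (t⁻¹ ^ 2) (t⁻¹ ^ 2)⁻¹ (pow_ne_zero 2 hti)
        (inv_ne_zero (pow_ne_zero 2 hti))) v) = (algebraMap F E (t⁻¹ ^ 2)) • P v := h1
      show P _ ∈ A1
      rw [h2]
      exact A1.smul_mem _ hv))
  rw [ec] at ek
  have eDM : SF.comp (dil2 P P' hP hP' h12 h21 1 ((t ^ 2)⁻¹ * (t ^ 2)⁻¹) one_ne_zero hs)
      (SF.comp (dil2 P P' hP hP' h12 h21 (t⁻¹ ^ 2) (t⁻¹ ^ 2)⁻¹ (pow_ne_zero 2 hti)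
        (inv_ne_zero (pow_ne_zero 2 hti))) φ) =
      SF.comp (dil2 P P' hP hP' h12 h21 (t ^ 2)⁻¹ (t ^ 2)⁻¹
          (inv_ne_zero (pow_ne_zero 2 ht)) (inv_ne_zero (pow_ne_zero 2 ht))) φ := by
    apply SF.ext
    intro v
    show φ (fxspla_d P P' (t⁻¹ ^ 2) (t⁻¹ ^ 2)⁻¹ (fxspla_d P P' 1 ((t ^ 2)⁻¹ * (t ^ 2)⁻¹) v)) =
      φ (fxspla_d P P' (t ^ 2)⁻¹ (t ^ 2)⁻¹ v)
    rw [fxspla_dd P P' hP hP' h12 h21]
    have h1 : t⁻¹ ^ 2 * 1 = (t ^ 2)⁻¹ := by rw [mul_one, inv_pow]
    have h2 : (t⁻¹ ^ 2)⁻¹ * ((t ^ 2)⁻¹ * (t ^ 2)⁻¹) = (t ^ 2)⁻¹ := by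
      rw [inv_pow, inv_inv, ← mul_assoc, mul_inv_cancel₀ ht2, one_mul]
    rw [h1, h2]
  rw [eDM, hmod_dil, hfin] at ek
  rw [ek] at eD
  set a : ℝ := hmod (dil F t ht) with ha
  set b : ℝ := hmod (dil F ((t ^ 2)⁻¹ * (t ^ 2)⁻¹) hs) with hb
  have hab : (b : ℂ) * (a : ℂ) ^ 4 = 1 := by exact_mod_cast e4
  have hfin2 : ((a : ℂ) ^ (4 * Module.finrank E (LinearMap.range P')) -
      (a : ℂ) ^ (8 * Module.finrank E A')) * S φ = 0 := by
    have h1 : (a : ℂ) ^ (4 * Module.finrank E (LinearMap.range P')) *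
        (((b ^ (2 * Module.finrank E A') : ℝ) : ℂ) * S φ) * (a : ℂ) ^ (8 * Module.finrank E A') =
        S φ * (a : ℂ) ^ (8 * Module.finrank E A') := by rw [eD]
    have h2 : ((b ^ (2 * Module.finrank E A') : ℝ) : ℂ) * (a : ℂ) ^ (8 * Module.finrank E A') =
        1 := by
      rw [Complex.ofReal_pow, show 8 * Module.finrank E A' = 4 * (2 * Module.finrank E A') by ring,
        pow_mul (a : ℂ) 4, ← mul_pow, hab, one_pow]
    linear_combination h1 - (a : ℂ) ^ (4 * Module.finrank E (LinearMap.range P')) * S φ * h2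
  have hne : (a : ℂ) ^ (4 * Module.finrank E (LinearMap.range P')) -
      (a : ℂ) ^ (8 * Module.finrank E A') ≠ 0 := by
    intro h0
    have h1 : a ^ (4 * Module.finrank E (LinearMap.range P')) =
        a ^ (8 * Module.finrank E A') := by
      have h2 := sub_eq_zero.1 h0
      exact_mod_cast h2
    have h3 := (pow_right_injective₀ (zero_lt_one.trans ha1) ha1.ne') h1
    have h4 : 4 * Module.finrank E (LinearMap.range P') = 8 * Module.finrank E A' := h3
    omega
  exact (mul_eq_zero.1 hfin2).resolve_left hne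

end

end Pool.Agent.Work.MP_dd0ddf_al
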