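import Pool.Agent.Work.MP_dd0ddf_al.NiGauss
import Pool.Agent.Work.MP_dd0ddf_al.Gauss71

/-!
# MP_dd0ddf_al, module Gauss72: Lemma W (7.2): odd dimension

Suppose `S ≠ 0`.  By `lemma71`: `κ(cβ) S(f(·/c)) = κ(β) S(f)` for all `c ≠ 0`.  Applying it for `c`, `d` and `c d` (composition of dilations) with `S f ≠ 0`:
`κ(cβ) κ(dβ) = κ(β) κ(cdβ)` for all `c, d ≠ 0` (all `κ ≠ 0`).
Diagonalise `β`: `U ≅ F^m`, `b = ∑ a_i x_i y_i` (Mathlib: orthogonal basis of a symmetric bilinear form, `LinearMap.BilinForm.exists_orthogonal_basis`), so by `kap_isom`, `kap_prod`: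
`κ(cβ) = (positive) ∏ k(c a_i)` with `k(a) = κ` of the form `a x y` on `F`, the positive constant independent of c.
Let `δ = η²` (exists_eta), `E ≅ F²` via `(x, y) ↦ x + η y`: `c Tr((x+ηy) star(x'+ηy')) = 2c x x' - 2cδ y y'`, so `κ(nform c) = (positive) k(2c) k(-2cδ)
= (positive) k(2c) conj (k(2cδ))` (kap_conj).  Replacing `c` by `c/2`: `k(c) conj(k(cδ)) = (positive constant) κ(nform (c/2))`.
Let `s(c) = ±1`, `+1` iff `c` is a norm.  For all `a, c ≠ 0`: `κ(nform(ac/2)) / κ(nform(a/2)) = s(c)·(positive)` (kap_norm, kap_nonnorm).  So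
`k(ca) conj(k(caδ)) / (k(a) conj(k(aδ))) ∈ s(c) ℝ_{>0}`; as `conj z = |z|²/z`: `k(ca) k(aδ) / (k(caδ) k(a)) ∈ s(c) ℝ_{>0}`.
Take the product over `a = a_1, …, a_m`: `κ(cβ) κ(δβ) / (κ(cδβ) κ(β)) ∈ s(c)^m ℝ_{>0}`; by the multiplicativity above (d = δ) it is `1`; take `c` not a norm, m odd: contradiction.
-/

set_option linter.unusedSectionVars false
set_option linter.style.haveILetI false

namespace Pool.Agent.Work.MP_dd0ddf_al

noncomputable section

universe u

variable {F E : Type u} [NontriviallyNormedField F] [IsUltrametricDist F] [ProperSpace F]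
  [CharZero F] [NontriviallyNormedField E] [NormedAlgebra F E] [ProperSpace E] [StarRing E]
  [QExt F E]
variable {U : Type u} [AddCommGroup U] [Module F U] [Module.Finite F U] [TopologicalSpace U]
  [IsTopologicalAddGroup U] [T2Space U] [ContinuousSMul F U] [LocallyCompactSpace U]
  [TotallyDisconnectedSpace U]

/-- the form `a x y` on `F` -/
private def gauss72_ln (a : F) (ha : a ≠ 0) : SForm F F where
  b x y := a * (x * y)
  add_left u v w := by ring
  smul_left a' v w := by rw [smul_eq_mul]; ring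
  symm v w := by ring
  nondeg v h := by
    have := h 1
    rw [mul_one] at this
    exact (mul_eq_zero.1 this).resolve_left ha

/-- the diagonal form -/
private def gauss72_dg {m : ℕ} (a : Fin m → F) (ha : ∀ i, a i ≠ 0) : SForm F (Fin m → F) where
  b x y := ∑ i, a i * (x i * y i)
  add_left u v w := by
    rw [← Finset.sum_add_distrib]
    refine Finset.sum_congr rfl fun i _ => ?_
    rw [Pi.add_apply]
    ring
  smul_left a' v w := by
    rw [Finset.mul_sum]
    refine Finset.sum_congr rfl fun i _ => ?_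
    rw [Pi.smul_apply, smul_eq_mul]
    ring
  symm v w := by
    refine Finset.sum_congr rfl fun i _ => ?_
    ring
  nondeg v h := by
    classical
    funext i
    have h1 := h (Pi.single i 1)
    rw [Finset.sum_eq_single i] at h1
    · rw [Pi.single_eq_same, mul_one] at h1
      exact (mul_eq_zero.1 h1).resolve_left (ha i)
    · intro j _ hj
      rw [Pi.single_eq_of_ne hj, mul_zero, mul_zero]
    · intro hi
      exact absurd (Finset.mem_univ i) hi

variable (F E) in
/-- the norm form as a product of two lines -/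
private theorem gauss72_norm [LocallyCompactSpace E] [TotallyDisconnectedSpace E]
    [FiniteDimensional F E] : ∃ (δ : F) (_ : δ ≠ 0) (m : ℝ), 0 < m ∧
    ∀ (p : PChar F) (c : F) (hc : c ≠ 0) (hcd : c * δ ≠ 0) (hc2 : c / 2 ≠ 0),
      kap (nform F E (c / 2) hc2) p =
        m * (kap (gauss72_ln c hc) p * star (kap (gauss72_ln (c * δ) hcd) p)) := by
  obtain ⟨η, hη0, hηs, ⟨d, hd0, hd⟩, hη1, hη2⟩ := exists_eta F E
  haveI : CharZero E := charZero_of_injective_algebraMap (algebraMap F E).injective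
  set l : F × F →ₗ[F] E :=
    { toFun := fun x => algebraMap F E x.1 + algebraMap F E x.2 * η
      map_add' := fun x y => by
        show algebraMap F E (x.1 + y.1) + algebraMap F E (x.2 + y.2) * η = _
        rw [map_add, map_add]
        ring
      map_smul' := fun a x => by
        show algebraMap F E (a * x.1) + algebraMap F E (a * x.2) * η = a • _
        rw [map_mul, map_mul, Algebra.smul_def]
        ring } with hl
  have hlx : ∀ x : F × F, l x = algebraMap F E x.1 + algebraMap F E x.2 * η := fun x => rfl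
  have hinj : Function.Injective l := by
    rw [← LinearMap.ker_eq_bot, LinearMap.ker_eq_bot']
    intro x hx
    rw [hlx] at hx
    have h1 := congrArg star hx
    rw [star_add, star_mul', QExt.star_alg, QExt.star_alg, hηs, star_zero] at h1
    have h2 : (2 : E) * algebraMap F E x.1 = 0 := by linear_combination hx + h1
    have h3 : (2 : E) * (algebraMap F E x.2 * η) = 0 := by linear_combination hx - h1
    have h4 := (mul_eq_zero.1 h2).resolve_left two_ne_zero
    have h5 := (mul_eq_zero.1 ((mul_eq_zero.1 h3).resolve_left two_ne_zero)).resolve_right hη0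
    exact Prod.ext ((map_eq_zero _).1 h4) ((map_eq_zero _).1 h5)
  have hsurj : Function.Surjective l := by
    apply (LinearMap.injective_iff_surjective_of_finrank_eq_finrank ?_).1 hinj
    rw [QExt.finrank_two (F := F) (E := E), Module.finrank_prod, Module.finrank_self]
  have htr : Algebra.trace F E η = 0 := by
    have h1 : Algebra.trace F E (star η) = Algebra.trace F E η :=
      Algebra.trace_eq_of_algEquiv
        ({ toFun := star
           invFun := star
           left_inv := star_star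
           right_inv := star_star
           map_mul' := fun x y => by rw [star_mul']
           map_add' := fun x y => star_add x y
           commutes' := fun a => QExt.star_alg a } : E ≃ₐ[F] E) η
    rw [hηs, map_neg] at h1
    have h2 : (2 : F) * Algebra.trace F E η = 0 := by linear_combination -h1
    exact (mul_eq_zero.1 h2).resolve_left two_ne_zero
  obtain ⟨m1, hm1, hk1⟩ := kap_isom (F := F) (LinearEquiv.ofBijective l ⟨hinj, hsurj⟩)
  obtain ⟨m2, hm2, hk2⟩ := kap_prod (F := F) (U := F) (U' := F)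
  refine ⟨d, hd0, m1⁻¹ * m2, by positivity, fun p c hc hcd hc2 => ?_⟩
  have hncd : -(c * d) ≠ 0 := neg_ne_zero.2 hcd
  have h1 := hk1 ((gauss72_ln c hc).prod (gauss72_ln (-(c * d)) hncd)) (nform F E (c / 2) hc2) p
    (fun v w => by
      show c / 2 * Algebra.trace F E (l v * star (l w)) = c * (v.1 * w.1) + -(c * d) * (v.2 * w.2)
      have e1 : l v * star (l w) = algebraMap F E (v.1 * w.1 - d * (v.2 * w.2)) +
          (v.2 * w.1 - v.1 * w.2) • η := by
        rw [hlx, hlx, star_add, star_mul', QExt.star_alg, QExt.star_alg, hηs, Algebra.smul_def]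
        simp only [map_sub, map_mul]
        linear_combination (-(algebraMap F E v.2 * algebraMap F E w.2)) * hd
      rw [e1, map_add, map_smul, htr, Algebra.trace_algebraMap, QExt.finrank_two (F := F) (E := E),
        nsmul_eq_mul, Nat.cast_ofNat, smul_zero, add_zero]
      have h2 : (2 : F) ≠ 0 := two_ne_zero
      field_simp
      ring)
  have h2 := kap_conj (gauss72_ln (c * d) hcd) (gauss72_ln (-(c * d)) hncd) p (fun v w => by
    show -(c * d) * (v * w) = -(c * d * (v * w))
    ring)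
  rw [hk2, h2] at h1
  have hm1' : (m1 : ℂ) ≠ 0 := by exact_mod_cast hm1.ne'
  push_cast
  rw [mul_assoc (m1 : ℂ)⁻¹, h1, inv_mul_cancel_left₀ hm1']

variable (F E) in
/-- the line case -/
private theorem gauss72_line [LocallyCompactSpace E] [TotallyDisconnectedSpace E]
    [FiniteDimensional F E] : ∃ (δ : F) (_ : δ ≠ 0), ∀ (p : PChar F) (c : F) (_ : c ≠ 0)
    (_ : ¬ IsNorm F E c) (a : F) (ha : a ≠ 0) (h1 : c * a ≠ 0) (h2 : δ * a ≠ 0)
    (h3 : c * δ * a ≠ 0), ∃ K : ℝ, 0 < K ∧
      kap (gauss72_ln (c * a) h1) p * kap (gauss72_ln (δ * a) h2) p =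
        -(K : ℂ) * (kap (gauss72_ln (c * δ * a) h3) p * kap (gauss72_ln a ha) p) := by
  obtain ⟨δ, hδ, m, hm, hk⟩ := gauss72_norm F E
  refine ⟨δ, hδ, fun p c hc hnc a ha h1 h2 h3 => ?_⟩
  have h2' : a * δ ≠ 0 := mul_ne_zero ha hδ
  have h3' : c * a * δ ≠ 0 := mul_ne_zero h1 hδ
  have ha2 : a / 2 ≠ 0 := div_ne_zero ha two_ne_zero
  have hca2 : c * a / 2 ≠ 0 := div_ne_zero h1 two_ne_zero
  have k1 := hk p a ha h2' ha2
  have k2 := hk p (c * a) h1 h3' hca2
  have k3 := kap_nonnorm F E p (a / 2) c ha2 hc hnc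
  have k4 : kap (nform F E (a / 2 * c) (mul_ne_zero ha2 hc)) p =
      kap (nform F E (c * a / 2) hca2) p := kap_ext _ _ p fun v w => by
    show a / 2 * c * _ = c * a / 2 * _
    ring
  rw [k4, k1, k2] at k3
  have k5 : kap (gauss72_ln (δ * a) h2) p = kap (gauss72_ln (a * δ) h2') p :=
    kap_ext _ _ p fun v w => by
      show δ * a * _ = a * δ * _
      ring
  have k6 : kap (gauss72_ln (c * δ * a) h3) p = kap (gauss72_ln (c * a * δ) h3') p :=
    kap_ext _ _ p fun v w => by
      show c * δ * a * _ = c * a * δ * _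
      ring
  rw [k5, k6]
  set A : ℂ := kap (gauss72_ln (a * δ) h2') p with hA
  set B : ℂ := kap (gauss72_ln (c * a * δ) h3') p with hB
  set X : ℂ := kap (gauss72_ln (c * a) h1) p with hX
  set Y : ℂ := kap (gauss72_ln a ha) p with hY
  have hA0 : A ≠ 0 := kap_ne_zero _ p
  have hB0 : B ≠ 0 := kap_ne_zero _ p
  have nA : A * star A = ((Complex.normSq A : ℝ) : ℂ) := Complex.mul_conj A
  have nB : B * star B = ((Complex.normSq B : ℝ) : ℂ) := Complex.mul_conj B
  have pA : 0 < Complex.normSq A := Complex.normSq_pos.2 hA0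
  have pB : 0 < Complex.normSq B := Complex.normSq_pos.2 hB0
  set μ : ℝ := hmod (mulT F c hc) with hμ
  have hμ0 : 0 < μ := hmod_pos _
  refine ⟨μ * Complex.normSq A / Complex.normSq B, by positivity, ?_⟩
  have hm' : (m : ℂ) ≠ 0 := by exact_mod_cast hm.ne'
  have hnB : ((Complex.normSq B : ℝ) : ℂ) ≠ 0 := by exact_mod_cast pB.ne'
  have e1 : X * star B = -(μ : ℂ) * (Y * star A) :=
    mul_left_cancel₀ hm' (by rw [k3]; ring)
  have e2 : X * A * ((Complex.normSq B : ℝ) : ℂ) =
      -((μ : ℂ) * ((Complex.normSq A : ℝ) : ℂ)) * (B * Y) := by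
    rw [← nB, ← nA]
    linear_combination (A * B) * e1
  rw [Complex.ofReal_div, Complex.ofReal_mul]
  field_simp
  linear_combination e2

/-- the splitting of a diagonal form -/
private theorem gauss72_split (m : ℕ) : ∃ M : ℝ, 0 < M ∧ ∀ (p : PChar F) (a : Fin (m + 1) → F)
    (ha : ∀ i, a i ≠ 0) (t : F) (ht : t ≠ 0) (h0 : t * a 0 ≠ 0) (ha' : ∀ i : Fin m, a i.succ ≠ 0),
      kap ((gauss72_dg a ha).scale t ht) p = M * (kap (gauss72_ln (t * a 0) h0) p *
        kap ((gauss72_dg (fun i : Fin m => a i.succ) ha').scale t ht) p) := by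
  obtain ⟨m1, hm1, hk1⟩ := kap_isom (F := F) (Fin.consLinearEquiv F (fun _ : Fin (m + 1) => F))
  obtain ⟨m2, hm2, hk2⟩ := kap_prod (F := F) (U := F) (U' := Fin m → F)
  refine ⟨m1⁻¹ * m2, by positivity, fun p a ha t ht h0 ha' => ?_⟩
  have h1 := hk1 ((gauss72_ln (t * a 0) h0).prod
    ((gauss72_dg (fun i : Fin m => a i.succ) ha').scale t ht)) ((gauss72_dg a ha).scale t ht) p
    (fun v w => by
      show t * ∑ i, a i * ((Fin.cons v.1 v.2 : Fin (m + 1) → F) i *
        (Fin.cons w.1 w.2 : Fin (m + 1) → F) i) = t * a 0 * (v.1 * w.1) +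
          t * ∑ i : Fin m, a i.succ * (v.2 i * w.2 i)
      rw [Fin.sum_univ_succ]
      simp only [Fin.cons_zero, Fin.cons_succ]
      ring)
  rw [hk2] at h1
  have hm1' : (m1 : ℂ) ≠ 0 := by exact_mod_cast hm1.ne'
  push_cast
  rw [mul_assoc (m1 : ℂ)⁻¹, h1, inv_mul_cancel_left₀ hm1']

private theorem gauss72_diag (p : PChar F) (c δ : F) (hc : c ≠ 0) (hδ : δ ≠ 0)
    (hcδ : c * δ ≠ 0)
    (hline : ∀ (a : F) (ha : a ≠ 0) (h1 : c * a ≠ 0) (h2 : δ * a ≠ 0) (h3 : c * δ * a ≠ 0),
      ∃ K : ℝ, 0 < K ∧ kap (gauss72_ln (c * a) h1) p * kap (gauss72_ln (δ * a) h2) p =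
        -(K : ℂ) * (kap (gauss72_ln (c * δ * a) h3) p * kap (gauss72_ln a ha) p)) :
    ∀ (m : ℕ) (a : Fin m → F) (ha : ∀ i, a i ≠ 0), ∃ K : ℝ, 0 < K ∧
      kap ((gauss72_dg a ha).scale c hc) p * kap ((gauss72_dg a ha).scale δ hδ) p =
        (-1) ^ m * (K : ℂ) * (kap ((gauss72_dg a ha).scale (c * δ) hcδ) p *
          kap ((gauss72_dg a ha).scale 1 one_ne_zero) p) := by
  intro m
  induction m with
  | zero =>
    intro a ha
    have h0 : ∀ (t : F) (ht : t ≠ 0) (v w : Fin 0 → F), ((gauss72_dg a ha).scale t ht).b v w =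
        0 := by
      intro t ht v w
      show t * ∑ i, a i * (v i * w i) = 0
      rw [Finset.univ_eq_empty, Finset.sum_empty, mul_zero]
    refine ⟨1, one_pos, ?_⟩
    rw [kap_ext ((gauss72_dg a ha).scale c hc) ((gauss72_dg a ha).scale 1 one_ne_zero) p
      (fun v w => by rw [h0, h0]),
      kap_ext ((gauss72_dg a ha).scale δ hδ) ((gauss72_dg a ha).scale 1 one_ne_zero) p
      (fun v w => by rw [h0, h0]),
      kap_ext ((gauss72_dg a ha).scale (c * δ) hcδ) ((gauss72_dg a ha).scale 1 one_ne_zero) p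
      (fun v w => by rw [h0, h0])]
    rw [pow_zero, Complex.ofReal_one]
    ring
  | succ m ih =>
    intro a ha
    obtain ⟨M, hM, hsp⟩ := gauss72_split (F := F) m
    have ha' : ∀ i : Fin m, a i.succ ≠ 0 := fun i => ha _
    obtain ⟨K, hK, hKe⟩ := ih (fun i : Fin m => a i.succ) ha'
    obtain ⟨K', hK', hKe'⟩ := hline (a 0) (ha 0) (mul_ne_zero hc (ha 0)) (mul_ne_zero hδ (ha 0))
      (mul_ne_zero hcδ (ha 0))
    refine ⟨K * K', by positivity, ?_⟩
    have h10 : (1 : F) * a 0 ≠ 0 := by rw [one_mul]; exact ha 0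
    rw [hsp p a ha c hc (mul_ne_zero hc (ha 0)) ha', hsp p a ha δ hδ (mul_ne_zero hδ (ha 0)) ha',
      hsp p a ha (c * δ) hcδ (mul_ne_zero hcδ (ha 0)) ha', hsp p a ha 1 one_ne_zero h10 ha']
    have e1 : kap (gauss72_ln (1 * a 0) h10) p = kap (gauss72_ln (a 0) (ha 0)) p :=
      kap_ext _ _ p fun v w => by
        show 1 * a 0 * _ = a 0 * _
        rw [one_mul]
    rw [e1, pow_succ, Complex.ofReal_mul]
    linear_combination ((M : ℂ) ^ 2 * (kap ((gauss72_dg (fun i : Fin m => a i.succ) ha').scale c hc)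
      p * kap ((gauss72_dg (fun i : Fin m => a i.succ) ha').scale δ hδ) p)) * hKe' +
      (-(M : ℂ) ^ 2 * K' * (kap (gauss72_ln (c * δ * a 0) (mul_ne_zero hcδ (ha 0))) p *
        kap (gauss72_ln (a 0) (ha 0)) p)) * hKe

/-- diagonalisation -/
private theorem gauss72_exists_diag (β : SForm F U) : ∃ (a : Fin (Module.finrank F U) → F)
    (ha : ∀ i, a i ≠ 0) (M : ℝ), 0 < M ∧ ∀ (p : PChar F) (t : F) (ht : t ≠ 0),
      kap (β.scale t ht) p = M * kap ((gauss72_dg a ha).scale t ht) p := by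
  haveI : Invertible (2 : F) := invertibleOfNonzero two_ne_zero
  set B : LinearMap.BilinForm F U :=
    LinearMap.mk₂ F β.b β.add_left β.smul_left β.add_right (fun a v w => β.smul_right a v w) with hB
  have hBv : ∀ v w, B v w = β.b v w := fun v w => rfl
  obtain ⟨v, hv⟩ := LinearMap.BilinForm.exists_orthogonal_basis (B := B)
    ⟨fun x y => by
      show β.b x y = β.b y x
      rw [β.symm]⟩
  have hv' : ∀ i j, i ≠ j → β.b (v i) (v j) = 0 := fun i j hij => hv hij
  have hexp : ∀ x y, β.b x y = ∑ i, β.b (v i) (v i) * (v.repr x i * v.repr y i) := by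
    intro x y
    have h1 : B x y = B (∑ i, v.repr x i • v i) (∑ j, v.repr y j • v j) := by
      rw [v.sum_repr, v.sum_repr]
    rw [← hBv, h1, LinearMap.map_sum₂]
    refine Finset.sum_congr rfl fun i _ => ?_
    rw [map_sum, Finset.sum_eq_single i]
    · rw [hBv, β.smul_left, β.smul_right]
      ring
    · intro j _ hj
      rw [hBv, β.smul_left, β.smul_right, hv' i j (Ne.symm hj), mul_zero, mul_zero]
    · intro hi
      exact absurd (Finset.mem_univ i) hi
  have ha : ∀ i, β.b (v i) (v i) ≠ 0 := by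
    intro i h0
    have h1 : v i = 0 := by
      apply β.nondeg
      intro w
      rw [hexp]
      refine Finset.sum_eq_zero fun j _ => ?_
      by_cases hj : i = j
      · rw [← hj, h0, zero_mul]
      · rw [Module.Basis.repr_self, Finsupp.single_eq_of_ne (fun h => hj h.symm), zero_mul,
          mul_zero]
    exact v.ne_zero i h1
  obtain ⟨m1, hm1, hk1⟩ := kap_isom (F := F) v.equivFun
  refine ⟨fun i => β.b (v i) (v i), ha, m1, hm1, fun p t ht => ?_⟩
  exact hk1 (β.scale t ht) ((gauss72_dg (fun i => β.b (v i) (v i)) ha).scale t ht) p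
    (fun x y => by
      show t * ∑ i, β.b (v i) (v i) * (v.repr x i * v.repr y i) = t * β.b x y
      rw [hexp])

include E in
variable (E) in
theorem lemma72 (β : SForm F U) (p : PChar F) (hodd : Odd (Module.finrank F U))
    (S : SF U ℂ →ₗ[ℂ] ℂ) (h1 : SF.SuppOn S {v | β.b v v = 0})
    (h2 : SF.SuppOn (S ∘ₗ four1 (β.bi p)) {v | β.b v v = 0}) : S = 0 := by
  haveI : FiniteDimensional F E := qext_findim F E
  haveI : TotallyDisconnectedSpace E := td_E F
  by_contra hS
  obtain ⟨f, hf⟩ : ∃ f, S f ≠ 0 := by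
    by_contra h
    push Not at h
    exact hS (LinearMap.ext h)
  obtain ⟨δ, hδ, hline⟩ := gauss72_line F E
  obtain ⟨c, hc, hnc⟩ := exists_nonnorm F E
  have hcδ : c * δ ≠ 0 := mul_ne_zero hc hδ
  have hβ1 : kap (β.scale 1 one_ne_zero) p = kap β p := kap_ext _ _ p fun v w => by
    show 1 * β.b v w = β.b v w
    rw [one_mul]
  -- multiplicativity
  have hmul : kap (β.scale c hc) p * kap (β.scale δ hδ) p =
      kap (β.scale (c * δ) hcδ) p * kap β p := by
    have k1 := lemma71 β p S h1 h2 c hc (SF.comp (dil U δ⁻¹ (inv_ne_zero hδ)).h f)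
    have k2 := lemma71 β p S h1 h2 δ hδ f
    have k3 := lemma71 β p S h1 h2 (c * δ) hcδ f
    have e1 : SF.comp (dil U c⁻¹ (inv_ne_zero hc)).h
        (SF.comp (dil U δ⁻¹ (inv_ne_zero hδ)).h f) =
        SF.comp (dil U (c * δ)⁻¹ (inv_ne_zero hcδ)).h f := by
      apply SF.ext
      intro x
      show f (δ⁻¹ • c⁻¹ • x) = f ((c * δ)⁻¹ • x)
      rw [smul_smul, mul_inv_rev]
    rw [e1] at k1
    have hk := kap_ne_zero β p
    have hne : kap β p * S f ≠ 0 := mul_ne_zero hk hf
    apply mul_left_cancel₀ hne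
    linear_combination (-(kap (β.scale c hc) p * kap (β.scale δ hδ) p)) * k3 +
      (kap (β.scale (c * δ) hcδ) p * kap (β.scale δ hδ) p) * k1 +
      (kap (β.scale (c * δ) hcδ) p * kap β p) * k2
  -- the diagonal form
  obtain ⟨a, ha, M, hM, hdiag⟩ := gauss72_exists_diag β
  obtain ⟨K, hK, hKe⟩ := gauss72_diag p c δ hc hδ hcδ
    (fun a ha h1 h2 h3 => hline p c hc hnc a ha h1 h2 h3) _ a ha
  rw [hodd.neg_one_pow] at hKe
  have e2 : kap (β.scale c hc) p * kap (β.scale δ hδ) p =
      -(K : ℂ) * (kap (β.scale (c * δ) hcδ) p * kap β p) := by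
    rw [← hβ1, hdiag p c hc, hdiag p δ hδ, hdiag p (c * δ) hcδ, hdiag p 1 one_ne_zero]
    linear_combination ((M : ℂ) ^ 2) * hKe
  rw [hmul] at e2
  have e3 : kap (β.scale (c * δ) hcδ) p * kap β p ≠ 0 :=
    mul_ne_zero (kap_ne_zero _ p) (kap_ne_zero _ p)
  have e4 : (kap (β.scale (c * δ) hcδ) p * kap β p) * ((1 : ℂ) + K) = 0 := by
    linear_combination e2
  have e5 := (mul_eq_zero.1 e4).resolve_left e3
  have e6 : (1 : ℝ) + K = 0 := by exact_mod_cast e5
  linarith

end

end Pool.Agent.Work.MP_dd0ddf_al
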