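import Pool.Agent.Work.MP_dd0ddf_al.ConjInv

/-!
# MP_dd0ddf_al, module GkJ: the contragredient is the twist by θ⁻¹

`hOp_thetaV`: hOp_theta and conj_inv for θ = thHomeo F τ.
`exists_J`: fix w0 ≠ 0.  For ξ ∈ sdual choose f_ξ with π(f_ξ) = ξ ⊗ w0 (rank_one).  π(f_ξ ∘ θ) does not depend on the choice (hOp_thetaV), is linear in ξ.  If ξ ≠ 0 then π(f_ξ ∘ θ) ≠ 0 (apply hOp_thetaV to f_ξ ∘ θ, θ² = 1; π(f_ξ) ≠ 0).  Fix ξ1 ≠ 0 and w1 with π(f_{ξ1} ∘ θ) w1 ≠ 0; `J ξ = π(f_ξ ∘ θ) w1`.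
`π(f_ξ)∘π(g⁻¹) = π(f_ξ(· g))` corresponds to sdAct g ξ; `f_ξ(θ(x) g) = (f_ξ ∘ θ)(θ(g) x)`: `J (sdAct g ξ) = π(θ(g)⁻¹) J ξ` (hOp_right, hOp_left).
J ≠ 0; its kernel is stable under sdAct, so 0 (sd_irrAdm); its range is stable under π, so everything.
-/

set_option linter.unusedSectionVars false
set_option linter.style.haveILetI false

namespace Pool.Agent.Work.MP_dd0ddf_al

noncomputable section

universe u

variable {F E : Type u} [NontriviallyNormedField F] [IsUltrametricDist F] [ProperSpace F]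
  [CharZero F] [NontriviallyNormedField E] [NormedAlgebra F E] [ProperSpace E] [StarRing E]
  [QExt F E]
variable {V : Type u} [AddCommGroup V] [Module E V] [Module.Finite E V] [TopologicalSpace V]
  [IsTopologicalAddGroup V] [T2Space V] [ContinuousSMul E V]
variable {P : Type*} [AddCommGroup P] [Module ℂ P]

private theorem gkj_anti {B : SkewH E V} (τ : AntiU B) (a b : GV E V) :
    thG τ (a * b) = thG τ b * thG τ a := by
  apply Units.ext
  show conjτ τ (adj B (a.1 * b.1)) = conjτ τ (adj B b.1) * conjτ τ (adj B a.1)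
  rw [adj_mul, conjτ_mul]

private theorem gkj_inv {B : SkewH E V} (τ : AntiU B) (a : GV E V) :
    thG τ a⁻¹ = (thG τ a)⁻¹ := by
  have h1 : thG τ (1 : GV E V) = 1 := by
    apply Units.ext
    show conjτ τ (adj B 1) = 1
    rw [adj_one, conjτ_one]
  rw [eq_inv_iff_mul_eq_one, ← gkj_anti, mul_inv_cancel, h1]

theorem hOp_thetaV {B : SkewH E V} (τ : AntiU B) (π : GV E V →* Module.End ℂ P)
    (hπ : IrrAdm π) (f : SF (GV E V) ℂ) (h0 : hOp π hπ.smooth f = 0) :
    hOp π hπ.smooth (SF.comp (thHomeo F τ) f) = 0 := by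
  haveI : IsUltrametricDist E := IsUltrametricDist.of_normedAlgebra F
  exact hOp_theta π hπ (thHomeo F τ) (gkj_anti τ) (thG_thG τ)
    (fun T hT f => conj_inv τ T hT f) f h0

variable (F) in
include F in
theorem exists_J {B : SkewH E V} (τ : AntiU B) (π : GV E V →* Module.End ℂ P)
    (hπ : IrrAdm π) : ∃ J : sdual π ≃ₗ[ℂ] P, ∀ (g : GV E V) (ξ : sdual π),
      J (sdAct π g ξ) = π (thG τ g)⁻¹ (J ξ) := by
  haveI : IsUltrametricDist E := IsUltrametricDist.of_normedAlgebra F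
  obtain ⟨w0, hw0⟩ := hπ.nontriv
  have hth : ∀ f f' : SF (GV E V) ℂ, hOp π hπ.smooth f = hOp π hπ.smooth f' →
      hOp π hπ.smooth (SF.comp (thHomeo F τ) f) = hOp π hπ.smooth (SF.comp (thHomeo F τ) f') := by
    intro f f' h
    have h1 : hOp π hπ.smooth (f - f') = 0 := by rw [map_sub, h, sub_self]
    have h2 := hOp_thetaV (F := F) τ π hπ (f - f') h1
    rw [map_sub, map_sub] at h2
    exact sub_eq_zero.1 h2
  have hch : ∀ ξ : sdual π, ∃ f, ∀ w, hOp π hπ.smooth f w = ξ.1 w • w0 :=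
    fun ξ => rank_one π hπ w0 ξ
  choose fx hfx using hch
  have huniq : ∀ (ξ : sdual π) (f : SF (GV E V) ℂ), (∀ w, hOp π hπ.smooth f w = ξ.1 w • w0) →
      hOp π hπ.smooth (SF.comp (thHomeo F τ) (fx ξ)) =
        hOp π hπ.smooth (SF.comp (thHomeo F τ) f) := by
    intro ξ f hf
    apply hth
    apply LinearMap.ext
    intro w
    rw [hf, hfx]
  have hne : ∀ ξ : sdual π, ξ ≠ 0 → hOp π hπ.smooth (SF.comp (thHomeo F τ) (fx ξ)) ≠ 0 := by
    intro ξ hξ h0
    apply hξ
    have h1 := hOp_thetaV (F := F) τ π hπ _ h0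
    have e : SF.comp (thHomeo F τ) (SF.comp (thHomeo F τ) (fx ξ)) = fx ξ := by
      apply SF.ext
      intro x
      show fx ξ (thG τ (thG τ x)) = fx ξ x
      rw [thG_thG]
    rw [e] at h1
    apply Subtype.ext
    apply LinearMap.ext
    intro w
    have h2 := hfx ξ w
    rw [h1, LinearMap.zero_apply] at h2
    rcases smul_eq_zero.1 h2.symm with h3 | h3
    · exact h3
    · exact absurd h3 hw0
  obtain ⟨ξ1, hξ1⟩ := (sd_irrAdm π hπ).nontriv
  obtain ⟨w1, hw1⟩ : ∃ w1, hOp π hπ.smooth (SF.comp (thHomeo F τ) (fx ξ1)) w1 ≠ 0 := by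
    by_contra hcon
    push Not at hcon
    exact hne ξ1 hξ1 (LinearMap.ext hcon)
  let J : sdual π →ₗ[ℂ] P :=
    { toFun := fun ξ => hOp π hπ.smooth (SF.comp (thHomeo F τ) (fx ξ)) w1
      map_add' := fun ξ ξ' => by
        rw [huniq (ξ + ξ') (fx ξ + fx ξ') (fun w => by
          rw [map_add, LinearMap.add_apply, hfx, hfx, ← add_smul]
          rfl), map_add, map_add, LinearMap.add_apply]
      map_smul' := fun c ξ => by
        rw [huniq (c • ξ) (c • fx ξ) (fun w => by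
          rw [map_smul, LinearMap.smul_apply, hfx, smul_smul]
          rfl), map_smul, map_smul, LinearMap.smul_apply, RingHom.id_apply] }
  have hJ : ∀ ξ, J ξ = hOp π hπ.smooth (SF.comp (thHomeo F τ) (fx ξ)) w1 := fun _ => rfl
  have hJg : ∀ (g : GV E V) (ξ : sdual π), J (sdAct π g ξ) = π (thG τ g)⁻¹ (J ξ) := by
    intro g ξ
    rw [hJ, hJ, huniq (sdAct π g ξ) (SF.comp (Homeomorph.mulRight g) (fx ξ)) (fun w => by
      rw [hOp_right, Module.End.mul_apply, hfx]
      rfl)]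
    have e : SF.comp (thHomeo F τ) (SF.comp (Homeomorph.mulRight g) (fx ξ)) =
        SF.comp (Homeomorph.mulLeft (thG τ g)) (SF.comp (thHomeo F τ) (fx ξ)) := by
      apply SF.ext
      intro x
      show fx ξ (thG τ x * g) = fx ξ (thG τ (thG τ g * x))
      rw [gkj_anti, thG_thG]
    rw [e, hOp_left]
    rfl
  have hinj : Function.Injective J := by
    rw [← LinearMap.ker_eq_bot]
    rcases (sd_irrAdm π hπ).irr (LinearMap.ker J) (fun g ξ hξ => by
      rw [LinearMap.mem_ker] at hξ ⊢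
      rw [hJg, hξ, map_zero]) with h | h
    · exact h
    · exfalso
      apply hw1
      have h1 : ξ1 ∈ LinearMap.ker J := by rw [h]; trivial
      exact h1
  have hsurj : Function.Surjective J := by
    rw [← LinearMap.range_eq_top]
    rcases hπ.irr (LinearMap.range J) (fun g w hw => by
      obtain ⟨ξ, rfl⟩ := hw
      refine ⟨sdAct π (thG τ g⁻¹) ξ, ?_⟩
      rw [hJg, thG_thG, inv_inv]) with h | h
    · exfalso
      apply hw1
      have h1 : J ξ1 ∈ LinearMap.range J := ⟨ξ1, rfl⟩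
      rw [h, Submodule.mem_bot] at h1
      exact h1
    · exact h
  exact ⟨LinearEquiv.ofBijective J ⟨hinj, hsurj⟩, hJg⟩

end

end Pool.Agent.Work.MP_dd0ddf_al
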