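import Pool.Agent.Work.MP_dd0ddf_al.GrpB1
import Pool.Agent.Work.MP_dd0ddf_al.SFCurry
import Pool.Agent.Work.MP_dd0ddf_al.PolyB
import Pool.Agent.Work.MP_dd0ddf_al.LinMain

/-!
# MP_dd0ddf_al, module GrpB2: the case without bad factors: conclusion from the linear theorem

`grpB2`: `T1 f := S (restr (curry f))` on `SF (SA B × V) ℂ` (restr to the closed set SAP B P).  `T1 (linAct B h f) = T1 f`: `curry (linAct h f) X = geo h⁻¹ (curry f (h X h⁻¹))`.  So `T1 (linTau F τ f) = T1 f` (linear_thm).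
With `f' = linAct B (-1) f` (`-1 ∈ UU B`): `curry (linTau F τ f') X = tneg F τ (curry f (τ X τ))`.  So `S (opr (sapTau τ P) (tneg F τ) g) = S g` for all `g` (curry bijective, restr surjective), hence `(1 + c) S = 0`.
`grpB`: exists_b, grpB1, grpB2.
-/

set_option linter.unusedSectionVars false
set_option linter.style.haveILetI false

namespace Pool.Agent.Work.MP_dd0ddf_al

noncomputable section

universe u

variable {F E : Type u} [NontriviallyNormedField F] [IsUltrametricDist F] [ProperSpace F]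
  [CharZero F] [NontriviallyNormedField E] [NormedAlgebra F E] [ProperSpace E] [StarRing E]
  [QExt F E] [MeasurableSpace E] [BorelSpace E]
variable {V : Type u} [AddCommGroup V] [Module E V] [Module.Finite E V] [TopologicalSpace V]
  [IsTopologicalAddGroup V] [T2Space V] [ContinuousSMul E V]

/-- `-1 ∈ U(V)` -/
private def grpb2_neg (B : SkewH E V) : UU B := ⟨-1, fun v w => by
  show B.ip (-v) (-w) = B.ip v w
  have h1 := B.smul_left (-1) v (-w)
  have h2 := B.smul_right (-1) v w
  rw [neg_smul, one_smul] at h1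
  rw [neg_smul, one_smul, star_neg, star_one] at h2
  rw [h1, h2]
  ring⟩

theorem grpB2 {B : SkewH E V} (τ : AntiU B) (P : Polynomial F)
    (S : SF (SAP B P) (SF V ℂ) →ₗ[ℂ] ℂ)
    (h1 : ∀ (h : UU B) (f : SF (SAP B P) (SF V ℂ)),
        S (SF.opr (sapConj B P h) (geo h.1⁻¹) f) = S f)
    (h2 : ∃ c : ℝ, 0 < c ∧ ∀ f : SF (SAP B P) (SF V ℂ),
        S (SF.opr (sapTau τ P) (tneg F τ) f) = -(c : ℂ) * S f) : S = 0 := by
  haveI := lc_V E V
  haveI := td_V F E V
  haveI := lc_SA F B
  haveI := td_SA F B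
  obtain ⟨c, hc, h2⟩ := h2
  let T1 : SF (SA B × V) ℂ →ₗ[ℂ] ℂ := S ∘ₗ SF.restr (SAP B P) (sap_closed B P) ∘ₗ SF.curry
  have hT1 : ∀ (h : UU B) (f : SF (SA B × V) ℂ), T1 (linAct B h f) = T1 f := by
    intro h f
    have h3 : SF.restr (SAP B P) (sap_closed B P) (SF.curry (linAct B h f)) =
        SF.opr (sapConj B P h) (geo h.1⁻¹)
          (SF.restr (SAP B P) (sap_closed B P) (SF.curry f)) := by
      apply SF.ext
      intro X
      apply SF.ext
      intro v
      rfl
    show S (SF.restr (SAP B P) (sap_closed B P) (SF.curry (linAct B h f))) = _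
    rw [h3, h1]
    rfl
  have h3 : ∀ f : SF (SA B × V) ℂ, T1 (linTau F τ (linAct B (grpb2_neg B) f)) = T1 f := by
    intro f
    rw [linear_thm B τ T1 hT1, hT1]
  have h4 : ∀ g : SF (SAP B P) (SF V ℂ), S (SF.opr (sapTau τ P) (tneg F τ) g) = S g := by
    intro g
    obtain ⟨g', hg'⟩ := restr_surjective (B := SF V ℂ) (SAP B P) (sap_closed B P) g
    obtain ⟨f, hf⟩ := (SF.curry_bijective (X := SA B) (Y := V) (B := ℂ)).2 g'
    have h5 : SF.restr (SAP B P) (sap_closed B P)
        (SF.curry (linTau F τ (linAct B (grpb2_neg B) f))) =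
        SF.opr (sapTau τ P) (tneg F τ)
          (SF.restr (SAP B P) (sap_closed B P) (SF.curry f)) := by
      apply SF.ext
      intro X
      apply SF.ext
      intro v
      show f (saConj B (grpb2_neg B) (saTau F τ X.1), -(τ.t v)) = f (saTau F τ X.1, -(τ.t v))
      have h6 : saConj B (grpb2_neg B) (saTau F τ X.1) = saTau F τ X.1 := by
        apply Subtype.ext
        show (-1 : Module.End E V) * (saTau F τ X.1).1 * (-1 : GV E V)⁻¹.1 = _
        have h7 : (-1 : GV E V)⁻¹ = -1 := by rw [inv_neg, inv_one]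
        rw [h7]
        show (-1 : Module.End E V) * (saTau F τ X.1).1 * (-1 : Module.End E V) = _
        rw [neg_mul, one_mul, neg_mul_neg, mul_one]
      rw [h6]
    have h6 := h3 f
    have h7 : T1 (linTau F τ (linAct B (grpb2_neg B) f)) = S (SF.opr (sapTau τ P) (tneg F τ)
        (SF.restr (SAP B P) (sap_closed B P) (SF.curry f))) := congrArg S h5
    have h8 : T1 f = S (SF.restr (SAP B P) (sap_closed B P) (SF.curry f)) := rfl
    rw [h7, h8, hf, hg'] at h6
    exact h6
  apply LinearMap.ext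
  intro g
  have h5 := h2 g
  rw [h4] at h5
  have h6 : (1 + (c : ℂ)) * S g = 0 := by linear_combination h5
  have h7 : (1 + (c : ℂ)) ≠ 0 := by
    have h8 : ((1 + c : ℝ) : ℂ) ≠ 0 := Complex.ofReal_ne_zero.2 (by positivity)
    rwa [Complex.ofReal_add, Complex.ofReal_one] at h8
  exact (mul_eq_zero.1 h6).resolve_left h7

theorem grpB {B : SkewH E V} {p : PChar F} (W : WeilRep B p) (P : Polynomial F)
    (hP : P.Monic) (h0 : P.coeff 0 ≠ 0) (hbad : ∀ q : Polynomial F, Bad F E q → ¬ q ∣ P) :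
    PGood W P := by
  intro τ T hT
  obtain ⟨b, hb⟩ := exists_b (E := E) P hP h0 hbad
  obtain ⟨S, hS, h1, h2⟩ := grpB1 W τ P hP h0 b hb T hT
  exact hS (grpB2 τ P S h1 h2)

end

end Pool.Agent.Work.MP_dd0ddf_al
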