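import Pool.Agent.Work.MP_dd0ddf_al.GrpD1
import Pool.Agent.Work.MP_dd0ddf_al.KWeil
import Pool.Agent.Work.MP_dd0ddf_al.GHyp

/-!
# MP_dd0ddf_al, module GrpD2: case P = q^m, deg q > 1: transfer to the field L

`grpD2`: `X0` = multiplication by `s ∈ K`.  `resG : GV L V → GV E V` is a closed embedding with image the elements commuting with `X0` (hgen).  `S' G' := S (G)` for any `G ∈ SF (GV E V)(SF V)` with `G ∘ resG = G'` (supp_on_factor / SF.pull).
An anti-unitary involution `τL` of `BL` (exists_tau over (K, L)) is one of `B` (trace commutes with star: kc_trace_star; E-semilinear) commuting with `X0` (star s = s), and `thG τ (resG g) = resG (thG τL g)`, since `adj B (resG g) = resG (adj BL g)`.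
`S'` is invariant: `WL.act k k' ` corresponds to `W.act (resU k) (resU k')`; δ trivial: pull back along `UU BL × UU BL → centX × centX` and `noPos_prod K K`.  `S' (Θ G) = -c S' G`, and `Θ² = 1` gives `c = 1`.  So `S' = 0` by `hgood`, `S = 0`.
`grpD`: T ≠ 0: then `G_P` is nonempty, so `SigQ` is nonempty: `X0 = r(g g^*)`; KData D (exists_KData), L-structure (exists_LMod), `BL` (exists_BL), `WL` (weil_K; measurable structure borel D.L), `dim_L V < dim_E V` (finrank_L), induction hypothesis; `X0` = multiplication by s.
-/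

set_option linter.unusedSectionVars false
set_option linter.style.haveILetI false

namespace Pool.Agent.Work.MP_dd0ddf_al

noncomputable section

universe u

variable {F E : Type u} [NontriviallyNormedField F] [IsUltrametricDist F] [ProperSpace F]
  [CharZero F] [NontriviallyNormedField E] [NormedAlgebra F E] [ProperSpace E] [StarRing E]
  [QExt F E] [MeasurableSpace E] [BorelSpace E]
variable {K L : Type u} [NontriviallyNormedField K] [IsUltrametricDist K] [ProperSpace K]
  [CharZero K] [NontriviallyNormedField L] [NormedAlgebra K L] [ProperSpace L] [StarRing L]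
  [QExt K L] [MeasurableSpace L] [BorelSpace L] [NormedAlgebra F K] [NormedAlgebra E L]
  [Algebra F L] [KCompat F E K L]
variable {V : Type u} [AddCommGroup V] [Module E V] [Module L V] [IsScalarTower E L V]
  [Module.Finite E V] [Module.Finite L V] [TopologicalSpace V]
  [IsTopologicalAddGroup V] [T2Space V] [ContinuousSMul E V] [ContinuousSMul L V]

private theorem grpd2_res_inducing : Topology.IsInducing
    (fun f : Module.End L V => (f.restrictScalars E : Module.End E V)) :=
  ⟨(induced_compose (f := fun f : Module.End L V => (f.restrictScalars E : Module.End E V))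
    (g := fun f : Module.End E V => (f : V → V))).symm⟩

private theorem grpd2_pair {R : Type*} [Monoid R] [TopologicalSpace R] :
    Topology.IsEmbedding (fun g : Rˣ => (g.1, g⁻¹.1)) := by
  have h1 : Topology.IsEmbedding (Prod.map (id : R → R) (MulOpposite.unop : Rᵐᵒᵖ → R)) :=
    Topology.IsEmbedding.id.prodMap MulOpposite.opHomeomorph.symm.isEmbedding
  exact h1.comp Units.isEmbedding_embedProduct

private theorem grpd2_embedding : Topology.IsEmbedding (resG E : GV L V → GV E V) := by
  have hi := grpd2_res_inducing (E := E) (L := L) (V := V)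
  have hinj : Function.Injective
      (fun f : Module.End L V => (f.restrictScalars E : Module.End E V)) := by
    intro f g h
    ext v
    exact LinearMap.congr_fun h v
  have hc : Continuous (resG E : GV L V → GV E V) := by
    rw [Units.continuous_iff]
    exact ⟨hi.continuous.comp Units.continuous_val,
      hi.continuous.comp (Units.continuous_val.comp continuous_inv)⟩
  have hK : Continuous (fun g : GV E V => (g.1, g⁻¹.1)) :=
    Units.continuous_val.prodMk (Units.continuous_val.comp continuous_inv)
  refine Topology.IsEmbedding.of_comp hc hK ?_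
  have h0 : Topology.IsEmbedding
      (fun f : Module.End L V => (f.restrictScalars E : Module.End E V)) := ⟨hi, hinj⟩
  exact (h0.prodMap h0).comp grpd2_pair

private theorem grpd2_commute (X : Module.End E V) (g : Module.End E V) (h : g * X = X * g)
    (f : Polynomial E) : g * Polynomial.aeval X f = Polynomial.aeval X f * g := by
  have h1 : Commute g X := h
  have h2 : Commute g (Polynomial.aeval X f) := by
    induction f using Polynomial.induction_on' with
    | add f g hf hg => rw [map_add]; exact hf.add_right hg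
    | monomial n b =>
      rw [Polynomial.aeval_monomial]
      exact (Algebra.commute_algebraMap_right b _).mul_right (h1.pow_right n)
  exact h2

private theorem grpd2_smul (s : L) (X : Module.End E V) (hX : ∀ v : V, X v = s • v)
    (f : Polynomial E) (v : V) : Polynomial.aeval s f • v = Polynomial.aeval X f v := by
  have hpow : ∀ (n : ℕ) (v : V), (X ^ n) v = s ^ n • v := by
    intro n
    induction n with
    | zero => intro v; rw [pow_zero, pow_zero, one_smul]; rfl
    | succ n ih =>
      intro v
      rw [pow_succ, pow_succ]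
      show (X ^ n) (X v) = _
      rw [ih, hX, smul_smul]
  induction f using Polynomial.induction_on' with
  | add f g hf hg => rw [map_add, map_add, add_smul, hf, hg, LinearMap.add_apply]
  | monomial n b =>
    rw [Polynomial.aeval_monomial, Polynomial.aeval_monomial, mul_smul, ← hpow,
      algebraMap_smul]
    rfl

private theorem grpd2_range (s : L)
    (hgen : ∀ x : L, ∃ f : Polynomial E, x = Polynomial.aeval s f)
    (X : Module.End E V) (hX : ∀ v : V, X v = s • v) (g : GV E V) :
    g.1 * X = X * g.1 ↔ ∃ a : GV L V, resG E a = g := by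
  constructor
  · intro h
    have hlin : ∀ (k : Module.End E V), k * X = X * k → ∀ (x : L) (v : V),
        k (x • v) = x • k v := by
      intro k hk x v
      obtain ⟨f, rfl⟩ := hgen x
      rw [grpd2_smul s X hX, grpd2_smul s X hX]
      exact LinearMap.congr_fun (grpd2_commute X k hk f) v
    have h' : g⁻¹.1 * X = X * g⁻¹.1 := by
      have e1 : g⁻¹.1 * g.1 = 1 := g.inv_mul
      have e2 : g.1 * g⁻¹.1 = 1 := g.mul_inv
      calc g⁻¹.1 * X = g⁻¹.1 * X * (g.1 * g⁻¹.1) := by rw [e2, mul_one]
        _ = g⁻¹.1 * (X * g.1) * g⁻¹.1 := by simp only [mul_assoc]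
        _ = g⁻¹.1 * (g.1 * X) * g⁻¹.1 := by rw [h]
        _ = (g⁻¹.1 * g.1) * X * g⁻¹.1 := by simp only [mul_assoc]
        _ = X * g⁻¹.1 := by rw [e1, one_mul]
    let a : GV L V :=
      { val :=
          { toFun := g.1
            map_add' := map_add g.1
            map_smul' := hlin g.1 h }
        inv :=
          { toFun := g⁻¹.1
            map_add' := map_add g⁻¹.1
            map_smul' := hlin g⁻¹.1 h' }
        val_inv := by
          ext v
          exact congrArg (fun f : Module.End E V => f v) g.mul_inv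
        inv_val := by
          ext v
          exact congrArg (fun f : Module.End E V => f v) g.inv_mul }
    refine ⟨a, Units.ext ?_⟩
    ext v
    rfl
  · rintro ⟨a, rfl⟩
    ext v
    show a.1 (X v) = X (a.1 v)
    rw [hX, hX, map_smul]

private theorem grpd2_adj {B : SkewH E V} {BL : SkewH L V}
    (h : ∀ v w, Algebra.trace E L (BL.ip v w) = B.ip v w) (f : Module.End L V) :
    adj B (f.restrictScalars E : Module.End E V) = (adj BL f).restrictScalars E := by
  symm
  apply adj_unique
  intro v w
  show B.ip (f v) w = B.ip v (adj BL f w)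
  rw [← h, ← h, adj_spec]

theorem grpD2 {B : SkewH E V} {p : PChar F} (W : WeilRep B p) [FiniteDimensional F K] (s : K)
    (hgen : ∀ x : L, ∃ f : Polynomial E, x = Polynomial.aeval (algebraMap K L s) f)
    (X₀ : SA B) (hX₀ : ∀ v : V, X₀.1 v = (algebraMap K L s) • v)
    {BL : SkewH L V} (h : ∀ v w, Algebra.trace E L (BL.ip v w) = B.ip v w)
    (WL : WeilRep BL (p.ext K)) (hl : ∀ g : UU BL, WL.l g = W.l (resU h g))
    (hr : ∀ g : UU BL, WL.r g = W.r (resU h g)) (hgood : GrpGood WL)
    (S : SF (GV E V) (SF V ℂ) →ₗ[ℂ] ℂ)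
    (h1 : SF.SuppOn S {g | g.1 * X₀.1 = X₀.1 * g.1})
    (h2 : ∃ δ : PosChar (centX B X₀ × centX B X₀), ∀ (h₁ h₂ : centX B X₀)
        (G : SF (GV E V) (SF V ℂ)), S (W.act h₁.1 h₂.1 G) = δ.δ (h₁, h₂) * S G)
    (h3 : ∀ τ : AntiU B, conjτ τ X₀.1 = X₀.1 → ∃ c : ℝ, 0 < c ∧
      ∀ G : SF (GV E V) (SF V ℂ), S (Theta F τ G) = -(c : ℂ) * S G) : S = 0 := by
  classical
  haveI := td_GV F E V
  obtain ⟨δ, hδ⟩ := h2
  have hJ : Topology.IsClosedEmbedding (resG E : GV L V → GV E V) := by
    refine ⟨grpd2_embedding, ?_⟩
    have h4 : Set.range (resG E : GV L V → GV E V) = {g : GV E V | g.1 * X₀.1 = X₀.1 * g.1} := by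
      ext g
      exact (grpd2_range (algebraMap K L s) hgen X₀.1 hX₀ g).symm
    rw [h4]
    exact isClosed_eq (Units.continuous_val.mul continuous_const)
      (continuous_const.mul Units.continuous_val)
  obtain ⟨S', hS'⟩ : ∃ S' : SF (GV L V) (SF V ℂ) →ₗ[ℂ] ℂ,
      ∀ G, S G = S' (SF.pull (resG E) hJ G) := by
    have hs := SF.pull_surjective (B := SF V ℂ) (resG E : GV L V → GV E V) hJ
    let r : SF (GV E V) (SF V ℂ) →ₗ[ℂ] SF (GV L V) (SF V ℂ) := SF.pull (resG E) hJ
    have hker : ∀ f f' : SF (GV E V) (SF V ℂ), r f = r f' → S f = S f' := by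
      intro f f' h'
      rw [← sub_eq_zero, ← map_sub]
      apply h1
      intro g hg
      obtain ⟨a, rfl⟩ := (grpd2_range (algebraMap K L s) hgen X₀.1 hX₀ g).1 hg
      have h2 : f (resG E a) = f' (resG E a) :=
        congrArg (fun f : SF (GV L V) (SF V ℂ) => f a) h'
      show f (resG E a) - f' (resG E a) = 0
      rw [h2, sub_self]
    have hinv : ∀ g, r (Function.surjInv hs g) = g := Function.surjInv_eq hs
    refine ⟨{ toFun := fun g => S (Function.surjInv hs g)
              map_add' := ?_
              map_smul' := ?_ }, ?_⟩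
    · intro g g'
      rw [← map_add]
      apply hker
      rw [hinv, map_add, hinv, hinv]
    · intro c g
      rw [RingHom.id_apply, ← map_smul]
      apply hker
      rw [hinv, map_smul, hinv]
    · intro f
      change S f = S (Function.surjInv hs (r f))
      apply hker
      rw [hinv]
  -- invariance
  have hinv : ∀ (k k' : UU BL) (G : SF (GV E V) (SF V ℂ)),
      S (W.act (resU h k) (resU h k') G) = S G := by
    intro k k' G
    let j0 : UU BL →* centX B X₀ :=
      { toFun := fun k => ⟨resU h k,
          (grpd2_range (algebraMap K L s) hgen X₀.1 hX₀ (resU h k).1).2 ⟨k.1, rfl⟩⟩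
        map_one' := rfl
        map_mul' := fun _ _ => rfl }
    have hj0 : Continuous j0 :=
      ((hJ.continuous.comp continuous_subtype_val).subtype_mk _).subtype_mk _
    have h4 := noPos_prod K K BL BL
      (δ.comap (MonoidHom.prodMap j0 j0) ((hj0.comp continuous_fst).prodMk
        (hj0.comp continuous_snd))) (k, k')
    have h5 : δ.δ (j0 k, j0 k') = 1 := h4
    have h6 := hδ (j0 k) (j0 k') G
    rw [h5, Complex.ofReal_one, one_mul] at h6
    exact h6
  have hSinv : GInv WL S' := by
    intro k k' f
    obtain ⟨G, hG⟩ := SF.pull_surjective (resG E : GV L V → GV E V) hJ f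
    have h4 := hinv k k' G
    rw [hS', hS', hG] at h4
    have h5 : SF.pull (resG E) hJ (W.act (resU h k) (resU h k') G) = WL.act k k' f := by
      rw [← hG]
      apply SF.ext
      intro a
      show W.l (resU h k) (W.r (resU h k') (G ((resU h k).1⁻¹ * resG E a * (resU h k').1))) =
        WL.l k (WL.r k' (G (resG E (k.1⁻¹ * a * k'.1))))
      rw [hl, hr, map_mul, map_mul, map_inv]
      rfl
    rw [h5] at h4
    exact h4
  -- the involution
  obtain ⟨τL⟩ := exists_tau BL (QExt.nontriv (F := K) (E := L))
  let τ : AntiU B :=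
    { t := τL.t
      add := τL.add
      smul := fun a v => by
        have h4 := τL.smul (algebraMap E L a) v
        rw [algebraMap_smul, KCompat.star_comm (F := F) (E := E) (K := K) (L := L),
          algebraMap_smul] at h4
        exact h4
      ip := fun v w => by rw [← h, ← h, τL.ip]
      inv := τL.inv }
  have hτX : conjτ τ X₀.1 = X₀.1 := by
    ext v
    show τL.t (X₀.1 (τL.t v)) = X₀.1 v
    rw [hX₀, hX₀, τL.smul, τL.inv, QExt.star_alg (F := K) (E := L)]
  have hth : ∀ a : GV L V, thG τ (resG E a) = resG E (thG τL a) := by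
    intro a
    apply Units.ext
    ext v
    show τL.t (adj B (a.1.restrictScalars E : Module.End E V) (τL.t v)) =
      τL.t (adj BL a.1 (τL.t v))
    rw [grpd2_adj h]
    rfl
  obtain ⟨c, hc, hcS⟩ := h3 τ hτX
  refine LinearMap.ext fun G => ?_
  have h4 := hcS G
  have h5 : SF.pull (resG E) hJ (Theta F τ G) = Theta K τL (SF.pull (resG E) hJ G) := by
    apply SF.ext
    intro a
    show SF.comp (negτ F τ) (G (thG τ (resG E a))) =
      SF.comp (negτ K τL) (G (resG E (thG τL a)))
    rw [hth]
    rfl
  rw [hS' (Theta F τ G), h5, group_of_good hgood τL S' hSinv, ← hS'] at h4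
  have h6 : ((1 + c : ℝ) : ℂ) * S G = 0 := by
    push_cast
    linear_combination h4
  have h7 : ((1 + c : ℝ) : ℂ) ≠ 0 := by
    rw [Ne, Complex.ofReal_eq_zero]
    positivity
  exact (mul_eq_zero.1 h6).resolve_left h7

section

variable {F E : Type u} [NontriviallyNormedField F] [IsUltrametricDist F] [ProperSpace F]
  [CharZero F] [NontriviallyNormedField E] [NormedAlgebra F E] [ProperSpace E] [StarRing E]
  [QExt F E] [MeasurableSpace E] [BorelSpace E]
variable {V : Type u} [AddCommGroup V] [Module E V] [Module.Finite E V] [TopologicalSpace V]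
  [IsTopologicalAddGroup V] [T2Space V] [ContinuousSMul E V]

theorem grpD {B : SkewH E V} {p : PChar F} (W : WeilRep B p) (q : Polynomial F) (m : ℕ)
    (hm : 0 < m) (hq : q.Monic) (hirr : Irreducible (q.map (algebraMap F E)))
    (hd : 1 < q.natDegree) (hdim : m * q.natDegree = Module.finrank E V)
    (IH : GrpHyp.{u} (Module.finrank E V - 1)) : PGood W (q ^ m) := by
  classical
  intro τ T hT
  obtain ⟨a1, a2, a3, a4⟩ := inG_of_inGP W τ (q ^ m) T hT
  by_cases hne : ∃ g₀ : GV E V, g₀ ∈ GP B (q ^ m)
  swap
  · refine LinearMap.ext fun f => ?_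
    have h1 : f = 0 := by
      apply SF.ext
      intro z
      exact absurd ⟨z.1, z.2⟩ hne
    rw [h1, map_zero, map_zero]
  obtain ⟨g₀, hg₀⟩ := hne
  apply a4
  have hirrF : Irreducible q := Polynomial.Monic.irreducible_of_irreducible_map _ q hq hirr
  obtain ⟨r, -, hr⟩ := exists_pi q hirrF m
  have hX₀ : eL B r g₀ ∈ SigQ B q := by
    have hs : LinearMap.charpoly (g₀.1 * adj B g₀.1) = (q ^ m).map (algebraMap F E) := hg₀
    show Polynomial.aeval (Polynomial.aeval (g₀.1 * adj B g₀.1) (r.map (algebraMap F E)))
      (q.map (algebraMap F E)) = 0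
    rw [← Polynomial.aeval_comp, ← Polynomial.map_comp]
    obtain ⟨c, hc⟩ := hr
    rw [hc, Polynomial.map_mul, ← hs, map_mul, LinearMap.aeval_self_charpoly, zero_mul]
  obtain ⟨S, hS0, hS1, hS2, hS3⟩ := grpD1 W τ q m hq hirr (eL B r g₀) hX₀ _ a1 a2 a3
  apply hS0
  obtain ⟨D⟩ := exists_KData q hq hirr
  obtain ⟨M, hT1, hC1, hF1, hs1, hadj⟩ := exists_LMod D B (eL B r g₀) hX₀
  letI := M
  haveI := hT1
  haveI := hC1
  haveI := hF1
  haveI : FiniteDimensional F D.K := KCompat.fd (F := F) (E := E) (K := D.K) (L := D.L)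
  obtain ⟨BL, hBL⟩ := exists_BL F D.K (L := D.L) B hadj
  letI : MeasurableSpace D.L := borel D.L
  haveI : BorelSpace D.L := ⟨rfl⟩
  obtain ⟨WL, hl, hr'⟩ := weil_K (K := D.K) (L := D.L) W hBL
  refine grpD2 W D.s D.genL (eL B r g₀) (fun v => (hs1 v).symm) hBL WL hl hr' ?_ S hS1 hS2 hS3
  refine IH D.K D.L V BL (p.ext D.K) WL ?_
  have h1 := finrank_L (V := V) D
  rw [← hdim] at h1
  have h2 : Module.finrank D.L V = m := by
    rw [mul_comm] at h1
    exact (Nat.eq_of_mul_eq_mul_left (by omega) h1).symm
  rw [h2, ← hdim]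
  have h3 : m * 2 ≤ m * q.natDegree := Nat.mul_le_mul_left m hd
  omega

end

end

end Pool.Agent.Work.MP_dd0ddf_al
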