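import Pool.Agent.Work.MP_dd0ddf_al.SFormDefs
import Pool.Agent.Work.MP_dd0ddf_al.FourInv

/-!
# MP_dd0ddf_al, module HmodIsom: isometries of a quadratic space have modulus 1

`β.b (α v) (α w) = β.b v w`: apply `four1_aut` for `χ = β.bi p` (p from exists_pchar... here p is given) with `α' = α⁻¹`: `four1 (f ∘ α)(w) = m four1 f (α w)`, m = hmod α; the same for `χ.dual`; with `four_inv`: `C (f ∘ α) = four1 χ.dual (four1 χ (f ∘ α)) = m four1 χ.dual ((four1 f) ∘ α) = m² (C f) ∘ α`,
so `m² = 1`, `m = 1`.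
-/

set_option linter.unusedSectionVars false
set_option linter.style.haveILetI false

namespace Pool.Agent.Work.MP_dd0ddf_al

noncomputable section

universe u

variable {F : Type u} [NontriviallyNormedField F] [IsUltrametricDist F] [ProperSpace F]
  [CharZero F]
variable {U : Type u} [AddCommGroup U] [Module F U] [Module.Finite F U] [TopologicalSpace U]
  [IsTopologicalAddGroup U] [T2Space U] [ContinuousSMul F U] [LocallyCompactSpace U]
  [TotallyDisconnectedSpace U]

private theorem hmodisom_four {M : Type*} [AddCommGroup M] [Module ℂ M] (χ : BiChar U)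
    (α : TAut U) (h : ∀ v w, χ.χ (α.h v) (α.h w) = χ.χ v w) (f : SF U M) :
    four1 χ (SF.comp α.h f) = (hmod α : ℂ) • SF.comp α.h (four1 χ f) := by
  apply SF.ext
  intro w
  have h1 := four1_aut χ α α.h.symm (fun v w => by
    rw [← h v (α.h.symm w), α.h.apply_symm_apply]) f (α.h w)
  rw [α.h.symm_apply_apply] at h1
  exact h1

theorem hmod_isom (β : SForm F U) (p : PChar F) (α : TAut U)
    (h : ∀ v w, β.b (α.h v) (α.h w) = β.b v w) : hmod α = 1 := by
  have hχ : ∀ v w, (β.bi p).χ (α.h v) (α.h w) = (β.bi p).χ v w := fun v w => by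
    rw [SForm.bi_apply, SForm.bi_apply, h]
  have hχ' : ∀ v w, (β.bi p).dual.χ (α.h v) (α.h w) = (β.bi p).dual.χ v w := fun v w => by
    show star ((β.bi p).χ (α.h w) (α.h v)) = star ((β.bi p).χ w v)
    rw [hχ]
  obtain ⟨K, hK, hK', h0K, -⟩ := exists_compact_open (0 : U) Set.univ isOpen_univ trivial
  have hU := uc_U F U
  have h1 := four_inv (β.bi p) hU (SF.comp α.h (SF.single K hK hK' (1 : ℂ)))
  have h2 := four_inv (β.bi p) hU (SF.single K hK hK' (1 : ℂ))
  rw [hmodisom_four _ α hχ, map_smul, hmodisom_four _ α hχ', h2, map_smul] at h1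
  have h3 := congrArg (fun f : SF U ℂ => f (α.h.symm 0)) h1
  have h4 : (hmod α : ℂ) * ((hmod α : ℂ) * ((fourC (β.bi p) hU : ℂ) *
      SF.single K hK hK' (1 : ℂ) (α.h (α.h.symm 0)))) =
      (fourC (β.bi p) hU : ℂ) * SF.single K hK hK' (1 : ℂ) (α.h (α.h.symm 0)) := h3
  rw [α.h.apply_symm_apply, SF.single_apply_mem K hK hK' 1 0 h0K, mul_one] at h4
  have hC := fourC_pos (β.bi p) hU
  have h5 : hmod α * (hmod α * fourC (β.bi p) hU) = fourC (β.bi p) hU := by exact_mod_cast h4
  have h6 : hmod α * hmod α = 1 := by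
    have : (hmod α * hmod α - 1) * fourC (β.bi p) hU = 0 := by linear_combination h5
    rcases mul_eq_zero.mp this with h7 | h7
    · linarith
    · exact absurd h7 hC.ne'
  nlinarith [hmod_pos α]

/-- the Fourier transform commutes with isometries, vector valued -/
theorem four1_isom (β : SForm F U) (p : PChar F) (α : TAut U)
    (h : ∀ v w, β.b (α.h v) (α.h w) = β.b v w) {M : Type*} [AddCommGroup M] [Module ℂ M]
    (m : M →ₗ[ℂ] M) (f : SF U M) :
    four1 (β.bi p) (SF.opr α.h m f) = SF.opr α.h m (four1 (β.bi p) f) := by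
  have hχ : ∀ v w, (β.bi p).χ (α.h v) (α.h w) = (β.bi p).χ v w := fun v w => by
    rw [SForm.bi_apply, SForm.bi_apply, h]
  show four1 (β.bi p) (SF.map m (SF.comp α.h f)) = SF.map m (SF.comp α.h (four1 (β.bi p) f))
  rw [four1_map, hmodisom_four _ α hχ, hmod_isom β p α h]
  simp

end

end Pool.Agent.Work.MP_dd0ddf_al
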