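import Pool.Agent.Work.MP_dd0ddf_al.SimDefs
import Pool.Agent.Work.MP_dd0ddf_al.HmodIsom
import Pool.Agent.Work.MP_dd0ddf_al.Gauss72

/-!
# MP_dd0ddf_al, module GrpE2: case P = (x - c)^n: Fourier transform and conclusion

`fourS_EInv`: four1_isom with trS_conj, trS_sim.
`grpE2`: if S and `S ∘ fourS` are supported on nilpotent operators and the dimension n is even, then S = 0: for `b ∈ SF V ℂ` let `S_b f = S (SF.map (c ↦ c • b) f)` on `SF (SA0 B) ℂ`; `S_b` and `S_b ∘ four1` (four1_map) are supported on `{(trS).b X X = 0}` (trS_nil); `lemma72 E` with `finrank_SA0`: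
`n² - 1` is odd.  The functions `SF.map (c ↦ c • b) f` span (sf_induction).
-/

set_option linter.unusedSectionVars false
set_option linter.style.haveILetI false

namespace Pool.Agent.Work.MP_dd0ddf_al

noncomputable section

universe u

variable {F E : Type u} [NontriviallyNormedField F] [IsUltrametricDist F] [ProperSpace F]
  [CharZero F] [NontriviallyNormedField E] [NormedAlgebra F E] [ProperSpace E] [StarRing E]
  [QExt F E] [MeasurableSpace E] [BorelSpace E]
variable {V : Type u} [AddCommGroup V] [Module E V] [Module.Finite E V] [TopologicalSpace V]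
  [IsTopologicalAddGroup V] [T2Space V] [ContinuousSMul E V]

theorem fourS_EInv {B : SkewH E V} {p : PChar F} (W : WeilRep B p) {c : F} {g : GV E V}
    (hg : IsSim B c g) (τ : AntiU B) (S : SF (SA0 B) (SF V ℂ) →ₗ[ℂ] ℂ) (hS : EInv W hg τ S) :
    EInv W hg τ (S ∘ₗ fourS B p) := by
  haveI := lc_SA0 F B
  haveI := td_SA0 F B
  constructor
  · intro h f
    show S (four1 ((trS F B).bi p) (SF.opr (sa0Conj B h⁻¹).h (W.l h ∘ₗ W.r (simC hg h)) f)) =
      S (four1 ((trS F B).bi p) f)
    rw [four1_isom (trS F B) p (sa0Conj B h⁻¹) (trS_conj B h⁻¹)]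
    exact hS.inv h _
  · intro f
    show S (four1 ((trS F B).bi p) (SF.opr (sa0Sim hg τ).h (tneg F τ ∘ₗ W.r (simK hg τ)⁻¹) f)) =
      - S (four1 ((trS F B).bi p) f)
    rw [four1_isom (trS F B) p (sa0Sim hg τ) (trS_sim hg τ)]
    exact hS.anti _

theorem grpE2 {B : SkewH E V} (p : PChar F) (hn : Even (Module.finrank E V))
    (hpos : 0 < Module.finrank E V) (N : ℕ) (S : SF (SA0 B) (SF V ℂ) →ₗ[ℂ] ℂ)
    (h1 : SF.SuppOn S {X : SA0 B | X.1 ^ N = 0})
    (h2 : SF.SuppOn (S ∘ₗ fourS B p) {X : SA0 B | X.1 ^ N = 0}) : S = 0 := by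
  haveI := lc_SA0 F B
  haveI := td_SA0 F B
  have hodd : Odd (Module.finrank F (SA0 B)) := by
    have h := finrank_SA0 (F := F) B hpos
    have h3 : Even (Module.finrank F (SA0 B) + 1) := by
      rw [h]
      exact hn.pow_of_ne_zero two_ne_zero
    rw [Nat.even_add_one] at h3
    exact Nat.not_even_iff_odd.1 h3
  have hz : ∀ b : SF V ℂ, S ∘ₗ SF.map (LinearMap.toSpanSingleton ℂ (SF V ℂ) b) = 0 := by
    intro b
    refine lemma72 E (trS F B) p hodd _ ?_ ?_
    · intro f hf
      refine h1 _ fun z hz => ?_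
      show f z • b = 0
      rw [hf z (trS_nil B z N hz), zero_smul]
    · intro f hf
      show S (SF.map (LinearMap.toSpanSingleton ℂ (SF V ℂ) b) (four1 ((trS F B).bi p) f)) = 0
      rw [← four1_map]
      refine h2 _ fun z hz => ?_
      show f z • b = 0
      rw [hf z (trS_nil B z N hz), zero_smul]
  apply LinearMap.ext
  intro f
  refine sf_induction (fun f => S f = 0) (map_zero S) (fun f g hf hg => ?_) (fun x => ?_) f
  · show S (f + g) = 0
    rw [map_add, hf, hg, add_zero]
  · refine ⟨Set.univ, isOpen_univ, Set.mem_univ x, fun K hK hK' b _ => ?_⟩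
    have h3 : SF.single K hK hK' b = SF.map (LinearMap.toSpanSingleton ℂ (SF V ℂ) b)
        (SF.single K hK hK' (1 : ℂ)) := by
      apply SF.ext
      intro y
      show _ = SF.single K hK hK' (1 : ℂ) y • b
      by_cases hy : y ∈ K
      · rw [SF.single_apply_mem _ _ _ _ _ hy, SF.single_apply_mem _ _ _ _ _ hy, one_smul]
      · rw [SF.single_apply_not_mem _ _ _ _ _ hy, SF.single_apply_not_mem _ _ _ _ _ hy,
          zero_smul]
    show S (SF.single K hK hK' b) = 0
    rw [h3]
    exact congrArg (fun T => T (SF.single K hK hK' (1 : ℂ))) (hz b)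

end

end Pool.Agent.Work.MP_dd0ddf_al
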