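import Pool.Agent.Work.MP_dd0ddf_al.WrRep
import Pool.Agent.Work.MP_dd0ddf_al.SA0Defs
import Pool.Agent.Work.MP_dd0ddf_al.GDefs

/-!
# MP_dd0ddf_al, module SimDefs: similitudes (definitions)

`IsSim B c g`: `⟨g v, g w⟩ = c ⟨v, w⟩`, c ∈ F^×; equivalently `g g^* = c`.  `simC h = g⁻¹ h g` (unitary).  `θ(g)` is a similitude with the same factor (`thG τ g = τ g^* τ = c τ g⁻¹ τ`).  `simK = g⁻¹ θ(g)` is unitary.
`sa0Conj B h`: `X ↦ h X h⁻¹`; `sa0Sim τ`: `X ↦ θ(g) (τ X τ) θ(g)⁻¹` on SA0 B (self-adjoint: θ(g)^* = c θ(g)⁻¹; trace: conj of the trace, 0).  Both are isometries of the trace form (tr(τXτ τYτ) = star tr(XY), and Tr_{E/F} star = Tr_{E/F}).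
-/

set_option linter.unusedSectionVars false
set_option linter.style.haveILetI false

namespace Pool.Agent.Work.MP_dd0ddf_al

noncomputable section

universe u

variable {F E : Type u} [NontriviallyNormedField F] [IsUltrametricDist F] [ProperSpace F]
  [CharZero F] [NontriviallyNormedField E] [NormedAlgebra F E] [ProperSpace E] [StarRing E]
  [QExt F E] [MeasurableSpace E] [BorelSpace E]
variable {V : Type u} [AddCommGroup V] [Module E V] [Module.Finite E V] [TopologicalSpace V]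
  [IsTopologicalAddGroup V] [T2Space V] [ContinuousSMul E V]

/-- similitudes -/
def IsSim (B : SkewH E V) (c : F) (g : GV E V) : Prop :=
  c ≠ 0 ∧ ∀ v w, B.ip (g.1 v) (g.1 w) = algebraMap F E c * B.ip v w

private theorem sim_c0 {c : F} (hc : c ≠ 0) : algebraMap F E c ≠ 0 := by
  intro h
  exact hc ((algebraMap F E).injective (by rw [h, map_zero]))

private theorem sim_adj' {B : SkewH E V} {c : F} {g : GV E V} (h : IsSim B c g) :
    adj B g.1 * g.1 = algebraMap F E c • (1 : Module.End E V) := by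
  ext w
  apply ip_ext B
  intro v
  show B.ip v (adj B g.1 (g.1 w)) = B.ip v (algebraMap F E c • w)
  rw [← adj_spec, h.2, B.smul_right, QExt.star_alg]

private theorem sim_adj_eq {B : SkewH E V} {c : F} {g : GV E V} (h : IsSim B c g) :
    adj B g.1 = algebraMap F E c • g⁻¹.1 := by
  have h1 := congrArg (fun Z => Z * g⁻¹.1) (sim_adj' h)
  have h2 : g.1 * g⁻¹.1 = 1 := g.mul_inv
  simp only [mul_assoc] at h1
  rw [h2, mul_one, smul_mul_assoc, one_mul] at h1
  exact h1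

theorem sim_adj {B : SkewH E V} {c : F} {g : GV E V} (h : IsSim B c g) :
    g.1 * adj B g.1 = algebraMap F E c • (1 : Module.End E V) := by
  have h2 : g.1 * g⁻¹.1 = 1 := g.mul_inv
  rw [sim_adj_eq h, mul_smul_comm, h2]

theorem sim_of_adj {B : SkewH E V} {c : F} {g : GV E V} (hc : c ≠ 0)
    (h : g.1 * adj B g.1 = algebraMap F E c • (1 : Module.End E V)) : IsSim B c g := by
  refine ⟨hc, fun v w => ?_⟩
  have h1 : g⁻¹.1 * g.1 = 1 := g.inv_mul
  have h2 : adj B g.1 = algebraMap F E c • g⁻¹.1 := by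
    have h3 := congrArg (fun Z => g⁻¹.1 * Z) h
    simp only [← mul_assoc] at h3
    rw [h1, one_mul, mul_smul_comm, mul_one] at h3
    exact h3
  have h4 : adj B g.1 (g.1 w) = algebraMap F E c • w := by
    rw [h2]
    show algebraMap F E c • (g⁻¹.1 * g.1) w = _
    rw [h1]
    rfl
  rw [adj_spec, h4, B.smul_right, QExt.star_alg]

private theorem sim_conj_smul {B : SkewH E V} (τ : AntiU B) (a : E) (X : Module.End E V) :
    conjτ τ (a • X) = star a • conjτ τ X := by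
  ext v
  show τ.t (a • X (τ.t v)) = star a • τ.t (X (τ.t v))
  rw [τ.smul]

theorem sim_th {B : SkewH E V} {c : F} {g : GV E V} (h : IsSim B c g) (τ : AntiU B) :
    IsSim B c (thG τ g) := by
  apply sim_of_adj h.1
  show conjτ τ (adj B g.1) * adj B (conjτ τ (adj B g.1)) = _
  rw [adj_conjτ, adj_adj, ← conjτ_mul, sim_adj' h, sim_conj_smul, QExt.star_alg, conjτ_one]

private theorem sim_inv {B : SkewH E V} {c : F} {g : GV E V} (h : IsSim B c g) :
    IsSim B c⁻¹ g⁻¹ := by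
  refine ⟨inv_ne_zero h.1, fun v w => ?_⟩
  have h1 : ∀ x, g.1 (g⁻¹.1 x) = x := fun x =>
    congrArg (fun f : Module.End E V => f x) g.mul_inv
  have h2 := h.2 (g⁻¹.1 v) (g⁻¹.1 w)
  rw [h1, h1] at h2
  rw [h2, map_inv₀, inv_mul_cancel_left₀ (sim_c0 h.1)]

private theorem sim_mul {B : SkewH E V} {c d : F} {g k : GV E V} (h : IsSim B c g)
    (h' : IsSim B d k) : IsSim B (c * d) (g * k) := by
  refine ⟨mul_ne_zero h.1 h'.1, fun v w => ?_⟩
  show B.ip (g.1 (k.1 v)) (g.1 (k.1 w)) = _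
  rw [h.2, h'.2, map_mul, mul_assoc]

private theorem sim_uu {B : SkewH E V} {g : GV E V} (h : IsSim B (1 : F) g) : g ∈ UU B := by
  intro v w
  rw [h.2, map_one, one_mul]

private theorem uu_sim {B : SkewH E V} (k : UU B) : IsSim B (1 : F) k.1 :=
  ⟨one_ne_zero, fun v w => by rw [k.2, map_one, one_mul]⟩

/-- conjugation `h ↦ g⁻¹ h g` -/
def simC {B : SkewH E V} {c : F} {g : GV E V} (h : IsSim B c g) : UU B →* UU B where
  toFun k := ⟨g⁻¹ * k.1 * g, by
    have h1 := sim_mul (sim_mul (sim_inv h) (uu_sim (F := F) k)) h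
    rw [mul_one, inv_mul_cancel₀ h.1] at h1
    exact sim_uu h1⟩
  map_one' := by
    apply Subtype.ext
    show g⁻¹ * 1 * g = 1
    rw [mul_one, inv_mul_cancel]
  map_mul' a b := by
    apply Subtype.ext
    show g⁻¹ * (a.1 * b.1) * g = (g⁻¹ * a.1 * g) * (g⁻¹ * b.1 * g)
    group

theorem continuous_simC {B : SkewH E V} {c : F} {g : GV E V} (h : IsSim B c g) :
    Continuous (simC h) := by
  refine Continuous.subtype_mk ?_ _
  exact (continuous_const.mul continuous_subtype_val).mul continuous_const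

theorem simC_surj {B : SkewH E V} {c : F} {g : GV E V} (h : IsSim B c g) (k : UU B) :
    ∃ k' : UU B, k'.1 = g * k.1 * g⁻¹ ∧ simC h k' = k := by
  have h1 := sim_mul (sim_mul h (uu_sim (F := F) k)) (sim_inv h)
  rw [mul_one, mul_inv_cancel₀ h.1] at h1
  refine ⟨⟨g * k.1 * g⁻¹, sim_uu h1⟩, rfl, ?_⟩
  apply Subtype.ext
  show g⁻¹ * (g * k.1 * g⁻¹) * g = k.1
  group

/-- `g⁻¹ θ(g)` -/
def simK {B : SkewH E V} {c : F} {g : GV E V} (h : IsSim B c g) (τ : AntiU B) : UU B :=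
  ⟨g⁻¹ * thG τ g, by
    have h1 := sim_mul (sim_inv h) (sim_th h τ)
    rw [inv_mul_cancel₀ h.1] at h1
    exact sim_uu h1⟩

private theorem sim_sa0 {B : SkewH E V} {c : F} {g : GV E V} (h : IsSim B c g)
    {X : Module.End E V} (hX : X ∈ SA0 B) : g.1 * X * g⁻¹.1 ∈ SA0 B := by
  have h1 : g⁻¹.1 * g.1 = 1 := g.inv_mul
  refine ⟨?_, ?_⟩
  · apply sa_of_adj
    have h2 : adj B g⁻¹.1 = algebraMap F E c⁻¹ • g.1 := by
      have h3 := sim_adj_eq (sim_inv h)
      rw [inv_inv] at h3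
      exact h3
    rw [adj_mul, adj_mul, h2, sim_adj_eq h, sa_adj B hX.1, smul_mul_assoc, mul_smul_comm,
      mul_smul_comm, smul_smul, ← map_mul, inv_mul_cancel₀ h.1, map_one, one_smul, mul_assoc]
  · rw [LinearMap.trace_mul_comm, ← mul_assoc, h1, one_mul, hX.2]

private theorem sim_sa0_uu {B : SkewH E V} (h : UU B)
    {X : Module.End E V} (hX : X ∈ SA0 B) : h.1.1 * X * h.1⁻¹.1 ∈ SA0 B := by
  have h1 : h.1⁻¹.1 * h.1.1 = 1 := h.1.inv_mul
  refine ⟨?_, ?_⟩
  · apply sa_of_adj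
    rw [adj_mul, adj_mul, uu_adj, uu_adj_inv, sa_adj B hX.1, mul_assoc]
  · rw [LinearMap.trace_mul_comm, ← mul_assoc, h1, one_mul, hX.2]

private theorem sim_sa0_uu' {B : SkewH E V} (h : UU B)
    {X : Module.End E V} (hX : X ∈ SA0 B) : h.1⁻¹.1 * X * h.1.1 ∈ SA0 B := by
  have h1 := sim_sa0_uu h⁻¹ hX
  have h2 : ((h⁻¹ : UU B).1)⁻¹ = h.1 := inv_inv h.1
  rw [h2] at h1
  exact h1

private theorem sim_conj_sa0 {B : SkewH E V} (τ : AntiU B) {X : Module.End E V}
    (hX : X ∈ SA0 B) : conjτ τ X ∈ SA0 B :=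
  ⟨conjτ_mem_SA τ hX.1, by rw [sa0_trace_conjτ, hX.2, star_zero]⟩

private theorem sim_cancel (g : GV E V) (X : Module.End E V) :
    g⁻¹.1 * (g.1 * X * g⁻¹.1) * g.1 = X := by
  have h1 : g⁻¹.1 * g.1 = 1 := g.inv_mul
  calc g⁻¹.1 * (g.1 * X * g⁻¹.1) * g.1 = (g⁻¹.1 * g.1) * X * (g⁻¹.1 * g.1) := by
        simp only [mul_assoc]
    _ = X := by rw [h1, one_mul, mul_one]

private theorem sim_cancel' (g : GV E V) (X : Module.End E V) :
    g.1 * (g⁻¹.1 * X * g.1) * g⁻¹.1 = X := by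
  have h1 : g.1 * g⁻¹.1 = 1 := g.mul_inv
  calc g.1 * (g⁻¹.1 * X * g.1) * g⁻¹.1 = (g.1 * g⁻¹.1) * X * (g.1 * g⁻¹.1) := by
        simp only [mul_assoc]
    _ = X := by rw [h1, one_mul, mul_one]

/-- `X ↦ h X h⁻¹` -/
def sa0Conj (B : SkewH E V) (h : UU B) : TAut (SA0 B) where
  h :=
    { toFun := fun X => ⟨h.1.1 * X.1 * h.1⁻¹.1, sim_sa0_uu h X.2⟩
      invFun := fun X => ⟨h.1⁻¹.1 * X.1 * h.1.1, sim_sa0_uu' h X.2⟩
      left_inv := fun X => Subtype.ext (sim_cancel h.1 X.1)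
      right_inv := fun X => Subtype.ext (sim_cancel' h.1 X.1)
      continuous_toFun := by
        refine Continuous.subtype_mk ?_ _
        exact (continuous_const.mul continuous_subtype_val).mul continuous_const
      continuous_invFun := by
        refine Continuous.subtype_mk ?_ _
        exact (continuous_const.mul continuous_subtype_val).mul continuous_const }
  add := fun X Y => Subtype.ext (by
    show h.1.1 * (X.1 + Y.1) * h.1⁻¹.1 = h.1.1 * X.1 * h.1⁻¹.1 + h.1.1 * Y.1 * h.1⁻¹.1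
    rw [mul_add, add_mul])

/-- `X ↦ θ(g) (τ X τ) θ(g)⁻¹` -/
def sa0Sim {B : SkewH E V} {c : F} {g : GV E V} (h : IsSim B c g) (τ : AntiU B) :
    TAut (SA0 B) where
  h :=
    { toFun := fun X => ⟨(thG τ g).1 * conjτ τ X.1 * (thG τ g)⁻¹.1,
        sim_sa0 (sim_th h τ) (sim_conj_sa0 τ X.2)⟩
      invFun := fun X => ⟨conjτ τ ((thG τ g)⁻¹.1 * X.1 * (thG τ g).1), by
        have h1 := sim_sa0 (sim_inv (sim_th h τ)) X.2
        rw [inv_inv] at h1
        exact sim_conj_sa0 τ h1⟩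
      left_inv := fun X => Subtype.ext (by
        show conjτ τ ((thG τ g)⁻¹.1 * ((thG τ g).1 * conjτ τ X.1 * (thG τ g)⁻¹.1) *
          (thG τ g).1) = X.1
        rw [sim_cancel, conjτ_conjτ])
      right_inv := fun X => Subtype.ext (by
        show (thG τ g).1 * conjτ τ (conjτ τ ((thG τ g)⁻¹.1 * X.1 * (thG τ g).1)) *
          (thG τ g)⁻¹.1 = X.1
        rw [conjτ_conjτ, sim_cancel'])
      continuous_toFun := by
        refine Continuous.subtype_mk ?_ _
        exact (continuous_const.mul ((continuous_conjτ F τ).comp continuous_subtype_val)).mul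
          continuous_const
      continuous_invFun := by
        refine Continuous.subtype_mk ?_ _
        exact (continuous_conjτ F τ).comp
          ((continuous_const.mul continuous_subtype_val).mul continuous_const) }
  add := fun X Y => Subtype.ext (by
    show (thG τ g).1 * conjτ τ (X.1 + Y.1) * (thG τ g)⁻¹.1 =
      (thG τ g).1 * conjτ τ X.1 * (thG τ g)⁻¹.1 + (thG τ g).1 * conjτ τ Y.1 * (thG τ g)⁻¹.1
    have h1 : conjτ τ (X.1 + Y.1) = conjτ τ X.1 + conjτ τ Y.1 := by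
      ext v
      show τ.t (X.1 (τ.t v) + Y.1 (τ.t v)) = τ.t (X.1 (τ.t v)) + τ.t (Y.1 (τ.t v))
      rw [τ.add]
    rw [h1, mul_add, add_mul])

private theorem sim_tr (g : GV E V) (X Y : Module.End E V) :
    LinearMap.trace E V ((g.1 * X * g⁻¹.1) * (g.1 * Y * g⁻¹.1)) =
      LinearMap.trace E V (X * Y) := by
  have h1 : g⁻¹.1 * g.1 = 1 := g.inv_mul
  have h2 : (g.1 * X * g⁻¹.1) * (g.1 * Y * g⁻¹.1) = g.1 * (X * Y * g⁻¹.1) := by
    calc (g.1 * X * g⁻¹.1) * (g.1 * Y * g⁻¹.1) = g.1 * X * (g⁻¹.1 * g.1) * Y * g⁻¹.1 := by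
          simp only [mul_assoc]
      _ = g.1 * (X * Y * g⁻¹.1) := by
          rw [h1]
          simp only [mul_assoc, mul_one]
  rw [h2, LinearMap.trace_mul_comm, mul_assoc, h1, mul_one]

theorem trS_conj (B : SkewH E V) (h : UU B) (X Y : SA0 B) :
    (trS F B).b ((sa0Conj B h).h X) ((sa0Conj B h).h Y) = (trS F B).b X Y :=
  congrArg (fun z : E => Algebra.trace F E z) (sim_tr h.1 X.1 Y.1)

theorem trS_sim {B : SkewH E V} {c : F} {g : GV E V} (h : IsSim B c g) (τ : AntiU B)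
    (X Y : SA0 B) : (trS F B).b ((sa0Sim h τ).h X) ((sa0Sim h τ).h Y) = (trS F B).b X Y := by
  show Algebra.trace F E (LinearMap.trace E V (((thG τ g).1 * conjτ τ X.1 * (thG τ g)⁻¹.1) *
    ((thG τ g).1 * conjτ τ Y.1 * (thG τ g)⁻¹.1))) =
    Algebra.trace F E (LinearMap.trace E V (X.1 * Y.1))
  rw [sim_tr, ← conjτ_mul, sa0_trace_conjτ]
  obtain ⟨f, hf⟩ := sa0_trace_mem F B X.2.1 Y.2.1
  rw [hf, QExt.star_alg]

/-- symmetries of functionals on `SF (SA0 B) (SF V ℂ)` -/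
structure EInv {B : SkewH E V} {p : PChar F} (W : WeilRep B p) {c : F} {g : GV E V}
    (hg : IsSim B c g) (τ : AntiU B) (S : SF (SA0 B) (SF V ℂ) →ₗ[ℂ] ℂ) : Prop where
  inv : ∀ (h : UU B) (f : SF (SA0 B) (SF V ℂ)),
    S (SF.opr (sa0Conj B h⁻¹).h (W.l h ∘ₗ W.r (simC hg h)) f) = S f
  anti : ∀ f : SF (SA0 B) (SF V ℂ),
    S (SF.opr (sa0Sim hg τ).h (tneg F τ ∘ₗ W.r (simK hg τ)⁻¹) f) = - S f

/-- the Fourier transform on `SF (SA0 B) (SF V ℂ)` -/
def fourS (B : SkewH E V) (p : PChar F) : SF (SA0 B) (SF V ℂ) →ₗ[ℂ] SF (SA0 B) (SF V ℂ) :=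
  haveI := lc_SA0 F B
  haveI := td_SA0 F B
  four1 ((trS F B).bi p)

end

end Pool.Agent.Work.MP_dd0ddf_al
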