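import Pool.Agent.Work.MP_dd0ddf_al.Found

/-!
# MP_dd0ddf_al, module NiSq: squares near 1 in a complete ultrametric field

`‖2‖ ≠ 0`, `r < ‖2‖`.  If `‖x - 1‖ ≤ r` then `‖x² - 1‖ ≤ ‖2‖ r` (`x = 1 + t`, `x² - 1 = 2t + t²`).
If `‖y - 1‖ ≤ ‖2‖ r` there is a unique `x` with `‖x - 1‖ ≤ r`, `x² = y`: contraction `t ↦ (s - t²)/2` on the closed ball of radius `r` (complete; y = 1 + s;
Lipschitz constant `r/‖2‖ < 1`; `ContractingWith` or an explicit Cauchy sequence).
-/

set_option linter.unusedSectionVars false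
set_option linter.style.haveILetI false

namespace Pool.Agent.Work.MP_dd0ddf_al

noncomputable section

theorem sq_near {L : Type*} [NontriviallyNormedField L] [IsUltrametricDist L] [CharZero L]
    {r : ℝ} (hr : 0 < r) (hr2 : r < ‖(2 : L)‖) {x : L} (hx : ‖x - 1‖ ≤ r) :
    ‖x ^ 2 - 1‖ ≤ ‖(2 : L)‖ * r := by
  have e : x ^ 2 - 1 = (2 + (x - 1)) * (x - 1) := by ring
  rw [e, norm_mul]
  have h1 : ‖2 + (x - 1)‖ ≤ ‖(2 : L)‖ := by
    refine (IsUltrametricDist.norm_add_le_max _ _).trans ?_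
    exact max_le le_rfl (hx.trans hr2.le)
  exact mul_le_mul h1 hx (norm_nonneg _) (norm_nonneg _)

theorem sqrt_near {L : Type*} [NontriviallyNormedField L] [IsUltrametricDist L] [CharZero L]
    [CompleteSpace L] {r : ℝ} (hr : 0 < r) (hr2 : r < ‖(2 : L)‖) {y : L}
    (hy : ‖y - 1‖ ≤ ‖(2 : L)‖ * r) : ∃! x : L, ‖x - 1‖ ≤ r ∧ x ^ 2 = y := by
  have h2 : (0 : ℝ) < ‖(2 : L)‖ := hr.trans hr2
  have h20 : (2 : L) ≠ 0 := norm_pos_iff.1 h2
  -- the contraction
  set T : L → L := fun t => ((y - 1) - t ^ 2) / 2 with hT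
  set s : Set L := Metric.closedBall 0 r with hs
  have hmem : ∀ t : L, t ∈ s ↔ ‖t‖ ≤ r := by
    intro t
    rw [hs, mem_closedBall_zero_iff]
  have hmaps : Set.MapsTo T s s := by
    intro t ht
    rw [hmem] at ht ⊢
    simp only [hT]
    rw [norm_div, div_le_iff₀ h2]
    have h3 : ‖(y - 1) - t ^ 2‖ ≤ max ‖y - 1‖ ‖t ^ 2‖ := by
      have := IsUltrametricDist.norm_add_le_max (y - 1) (-(t ^ 2))
      rwa [norm_neg, ← sub_eq_add_neg] at this
    refine h3.trans (max_le ?_ ?_)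
    · linarith [mul_comm r ‖(2 : L)‖]
    · rw [norm_pow]
      nlinarith [norm_nonneg t]
  have hK : r / ‖(2 : L)‖ < 1 := by
    rw [div_lt_one h2]
    exact hr2
  have hK0 : 0 ≤ r / ‖(2 : L)‖ := by positivity
  have hcon : ContractingWith (Real.toNNReal (r / ‖(2 : L)‖)) (hmaps.restrict T s s) := by
    refine ⟨by rw [← NNReal.coe_lt_coe, Real.coe_toNNReal _ hK0]; exact hK, ?_⟩
    apply LipschitzWith.of_dist_le_mul
    rintro ⟨t, ht⟩ ⟨t', ht'⟩
    rw [hmem] at ht ht'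
    rw [Subtype.dist_eq, Subtype.dist_eq, dist_eq_norm, dist_eq_norm]
    rw [Real.coe_toNNReal _ hK0]
    simp only [Set.MapsTo.val_restrict_apply, hT]
    have e : ((y - 1) - t ^ 2) / 2 - ((y - 1) - t' ^ 2) / 2 = -((t + t') * (t - t')) / 2 := by
      ring
    rw [e, norm_div, norm_neg, norm_mul, div_mul_eq_mul_div r]
    have h3 : ‖t + t'‖ ≤ r := (IsUltrametricDist.norm_add_le_max t t').trans (max_le ht ht')
    gcongr
  have hcomp : IsComplete s := Metric.isClosed_closedBall.isComplete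
  obtain ⟨t, hts, hfix, -⟩ := ContractingWith.exists_fixedPoint' hcomp hmaps hcon
    (x := 0) (by rw [hmem]; simp [hr.le]) (edist_ne_top _ _)
  rw [hmem] at hts
  have hfix' : ((y - 1) - t ^ 2) / 2 = t := hfix
  have hsol : (1 + t) ^ 2 = y := by
    have h3 : (y - 1) - t ^ 2 = t * 2 := by
      rw [← hfix', div_mul_cancel₀ _ h20, hfix']
    linear_combination -h3
  refine ⟨1 + t, ⟨by simpa using hts, hsol⟩, ?_⟩
  rintro x ⟨hx1, hx2⟩
  have h4 : (x - (1 + t)) * (x + (1 + t)) = 0 := by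
    linear_combination hx2 - hsol
  rcases mul_eq_zero.1 h4 with h5 | h5
  · exact sub_eq_zero.1 h5
  · exfalso
    have h6 : (2 : L) = -((x - 1) + t) := by linear_combination h5
    have h7 : ‖(2 : L)‖ ≤ r := by
      rw [h6, norm_neg]
      exact (IsUltrametricDist.norm_add_le_max _ _).trans (max_le hx1 hts)
    linarith

end

end Pool.Agent.Work.MP_dd0ddf_al
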