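import Pool.Agent.Work.MP_dd0ddf_al.FdPoly
import Pool.Agent.Work.MP_dd0ddf_al.NiSq

/-!
# MP_dd0ddf_al, module TPoly: square roots of 1 + x modulo polynomials

`exists_t_nil`: from `sqrt_mod` with `q = x`, `w = 1 + x`.
`exists_t`: let `P ∈ F[x]` be monic.  There is `w0 ≠ 0` in F and `t ∈ F[x]` with `P ∣ t² - (1 + w0 x)`, and `1 + w0 x` coprime to P.  Either by the binomial series: let A = F[x]/(P) (finite dimensional commutative algebra over F; norm it as a subalgebra of matrices: companion matrix) the squaring map of A is a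
local homeomorphism at 1 (inverse function theorem `HasStrictFDerivAt`, derivative 2·id), so all elements close to 1 are squares; `1 + w0 x̄` is close to 1 for small `w0`.  Coprimality: `1 + w0 x` does not vanish at the roots of P in an algebraic closure for small `w0`: or: `1 + w0 x̄` is a unit in A for small w0 (units are open in the
complete normed algebra A, or: -1/w0 is not a root of P, all but finitely many w0 work: choose w0 with P(-1/w0) ≠ 0).
-/

set_option linter.unusedSectionVars false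
set_option linter.style.haveILetI false

namespace Pool.Agent.Work.MP_dd0ddf_al

noncomputable section

universe u

open Polynomial

theorem exists_t_nil {F : Type*} [Field F] (h2 : (2 : F) ≠ 0) (n : ℕ) :
    ∃ t : F[X], X ^ n ∣ t ^ 2 - (1 + X) ∧ X ∣ t - 1 :=
  sqrt_mod h2 X (1 + X) irreducible_X (by rw [add_sub_cancel_left]) n

/-- square roots near 1 in a complete normed algebra, inside a closed subalgebra -/
private theorem tpoly_sqrt {F R : Type*} [NontriviallyNormedField F] [CharZero F] [NormedRing R]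
    [NormedAlgebra F R] [CompleteSpace F] [FiniteDimensional F R] (S : Subalgebra F R) (s : R)
    (hsS : s ∈ S) (hs : ‖s‖ ≤ ‖(2 : F)‖ ^ 2 / 8) : ∃ a ∈ S, (1 + a) ^ 2 = 1 + s := by
  haveI : CompleteSpace R := FiniteDimensional.complete F R
  have hS : IsClosed (S : Set R) := (Subalgebra.toSubmodule S).closed_of_finiteDimensional
  have h20 : (2 : F) ≠ 0 := two_ne_zero
  have h2 : (0 : ℝ) < ‖(2 : F)‖ := norm_pos_iff.mpr h20
  set r : ℝ := ‖(2 : F)‖ / 4 with hr
  have hr0 : 0 < r := by positivity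
  set T : R → R := fun t => (2 : F)⁻¹ • (s - t * t) with hT
  set B : Set R := Metric.closedBall 0 r ∩ (S : Set R) with hB
  have hn : ∀ t : R, ‖(2 : F)⁻¹ • t‖ = ‖(2 : F)‖⁻¹ * ‖t‖ := fun t => by
    rw [norm_smul, norm_inv]
  have hmaps : Set.MapsTo T B B := by
    rintro t ⟨ht, htS⟩
    rw [mem_closedBall_zero_iff] at ht
    refine ⟨?_, S.smul_mem (S.sub_mem hsS (S.mul_mem htS htS)) _⟩
    rw [mem_closedBall_zero_iff]
    simp only [hT]
    rw [hn, inv_mul_le_iff₀ h2]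
    have h3 : ‖s - t * t‖ ≤ ‖s‖ + ‖t * t‖ := norm_sub_le _ _
    have h4 : ‖t * t‖ ≤ ‖t‖ * ‖t‖ := norm_mul_le _ _
    have h5 : ‖t‖ * ‖t‖ ≤ r * r := mul_le_mul ht ht (norm_nonneg _) hr0.le
    have h6 : ‖(2 : F)‖ * r = ‖(2 : F)‖ ^ 2 / 4 := by rw [hr]; ring
    have h7 : r * r = ‖(2 : F)‖ ^ 2 / 16 := by rw [hr]; ring
    rw [h6]
    have h8 : 0 ≤ ‖(2 : F)‖ ^ 2 := by positivity
    linarith
  have hcon : ContractingWith (Real.toNNReal (1 / 2)) (hmaps.restrict T B B) := by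
    refine ⟨by
      rw [← NNReal.coe_lt_coe, Real.coe_toNNReal _ (by norm_num)]
      norm_num, ?_⟩
    apply LipschitzWith.of_dist_le_mul
    rintro ⟨t, ht, htS⟩ ⟨t', ht', htS'⟩
    rw [mem_closedBall_zero_iff] at ht ht'
    rw [Subtype.dist_eq, Subtype.dist_eq, dist_eq_norm, dist_eq_norm]
    rw [Real.coe_toNNReal _ (by norm_num)]
    simp only [Set.MapsTo.val_restrict_apply, hT]
    have e : (2 : F)⁻¹ • (s - t * t) - (2 : F)⁻¹ • (s - t' * t') =
        (2 : F)⁻¹ • (t * (t' - t) + (t' - t) * t') := by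
      rw [← smul_sub]
      congr 1
      noncomm_ring
    rw [e, hn, inv_mul_le_iff₀ h2]
    have h3 : ‖t * (t' - t) + (t' - t) * t'‖ ≤ ‖t‖ * ‖t' - t‖ + ‖t' - t‖ * ‖t'‖ :=
      (norm_add_le _ _).trans (add_le_add (norm_mul_le _ _) (norm_mul_le _ _))
    have h4 : ‖t' - t‖ = ‖t - t'‖ := norm_sub_rev _ _
    rw [h4] at h3
    have h5 : ‖t‖ * ‖t - t'‖ ≤ r * ‖t - t'‖ := mul_le_mul_of_nonneg_right ht (norm_nonneg _)
    have h6 : ‖t - t'‖ * ‖t'‖ ≤ ‖t - t'‖ * r := mul_le_mul_of_nonneg_left ht' (norm_nonneg _)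
    have h7 : ‖(2 : F)‖ * (1 / 2 * ‖t - t'‖) = r * ‖t - t'‖ + ‖t - t'‖ * r := by
      rw [hr]; ring
    rw [h7]
    linarith
  have hcomp : IsComplete B := (Metric.isClosed_closedBall.inter hS).isComplete
  obtain ⟨a, haB, hfix, -⟩ := ContractingWith.exists_fixedPoint' hcomp hmaps hcon
    (x := 0) ⟨by rw [mem_closedBall_zero_iff, norm_zero]; exact hr0.le, S.zero_mem⟩
    (edist_ne_top _ _)
  have hfix' : (2 : F)⁻¹ • (s - a * a) = a := hfix
  refine ⟨a, haB.2, ?_⟩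
  have h3 : s - a * a = (2 : F) • a := by
    rw [← hfix', smul_smul, mul_inv_cancel₀ h20, one_smul, hfix']
  have h4 : (2 : F) • a = a + a := by rw [two_smul]
  have h5 : (1 + a) ^ 2 = 1 + (a + a) + a * a := by noncomm_ring
  rw [h5, ← h4, ← h3]
  noncomm_ring

section

attribute [local instance] Matrix.linftyOpNormedRing Matrix.linftyOpNormedAlgebra

private theorem tpoly_matrix {F : Type u} [NontriviallyNormedField F] [ProperSpace F] [CharZero F]
    {ι : Type*} [Fintype ι] [DecidableEq ι] (S : Subalgebra F (Matrix ι ι F)) :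
    ∃ c : ℝ, 0 < c ∧ ∀ (s : Matrix ι ι F), s ∈ S → ∀ w : F, ‖w‖ * ‖s‖ ≤ c →
      ∃ a ∈ S, (1 + a) ^ 2 = 1 + w • s := by
  have h2 : (0 : ℝ) < ‖(2 : F)‖ := norm_pos_iff.mpr two_ne_zero
  refine ⟨‖(2 : F)‖ ^ 2 / 8, by positivity, fun s hs w hw => ?_⟩
  exact tpoly_sqrt S (w • s) (S.smul_mem hs w) (by rw [norm_smul]; exact hw)

private theorem tpoly_adj {F : Type u} [NontriviallyNormedField F] [ProperSpace F] [CharZero F]
    (P : F[X]) (hP : P.Monic) :
    ∀ᶠ w : F in nhds 0, ∃ t : F[X], P ∣ t ^ 2 - (1 + C w * X) := by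
  classical
  let pb := AdjoinRoot.powerBasis hP.ne_zero
  let φ : AdjoinRoot P →ₐ[F] Matrix (Fin pb.dim) (Fin pb.dim) F :=
    Algebra.leftMulMatrix pb.basis
  have hφ : Function.Injective φ := Algebra.leftMulMatrix_injective pb.basis
  obtain ⟨c, hc, h1⟩ := tpoly_matrix (F := F) φ.range
  let s := φ (AdjoinRoot.root P)
  have h2 : ∀ᶠ w : F in nhds 0, ‖w‖ * ‖s‖ < c := by
    have h3 : Continuous (fun w : F => ‖w‖ * ‖s‖) := continuous_norm.mul continuous_const
    have h4 := h3.tendsto 0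
    rw [norm_zero, zero_mul] at h4
    exact h4.eventually (gt_mem_nhds hc)
  filter_upwards [h2] with w hw
  obtain ⟨a, ⟨a', ha'⟩, ha⟩ := h1 s ⟨_, rfl⟩ w hw.le
  obtain ⟨t0, rfl⟩ := AdjoinRoot.mk_surjective a'
  refine ⟨1 + t0, ?_⟩
  rw [← AdjoinRoot.mk_eq_mk]
  apply hφ
  have h5 : φ (AdjoinRoot.mk P ((1 + t0) ^ 2)) = (1 + a) ^ 2 := by
    rw [map_pow, map_add, map_one, map_pow, map_add, map_one]
    congr 2
  have h6 : φ (AdjoinRoot.mk P (1 + C w * X)) = 1 + w • s := by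
    rw [map_add, map_one, map_mul, AdjoinRoot.mk_X, AdjoinRoot.mk_C, map_add, map_one, map_mul]
    congr 1
    rw [← AdjoinRoot.algebraMap_eq, AlgHom.commutes, Algebra.smul_def]
  rw [h5, h6, ha]

end

theorem exists_t {F : Type u} [NontriviallyNormedField F] [ProperSpace F] [CharZero F] (P : F[X])
    (hP : P.Monic) : ∃ (w : F) (t : F[X]), w ≠ 0 ∧ P ∣ t ^ 2 - (1 + C w * X) ∧
      IsCoprime (1 + C w * X) P := by
  classical
  have h1 := tpoly_adj P hP
  let Z : Set F := (fun x : F => -x⁻¹) '' {x | IsRoot P x}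
  have hZ : Z.Finite := by
    refine Set.Finite.image _ ?_
    exact (P.roots.toFinset.finite_toSet).subset fun x hx => by
      simpa [Multiset.mem_toFinset, mem_roots hP.ne_zero] using hx
  have h2 : ∀ᶠ w : F in nhdsWithin 0 {0}ᶜ, w ∉ Z \ {0} := by
    have h3 : ∀ᶠ w : F in nhds 0, w ∉ Z \ {0} :=
      ((hZ.subset Set.sdiff_subset).isClosed.isOpen_compl).mem_nhds (fun h => h.2 rfl)
    exact h3.filter_mono nhdsWithin_le_nhds
  have h3 : ∀ᶠ w : F in nhdsWithin 0 {0}ᶜ, ∃ t : F[X], P ∣ t ^ 2 - (1 + C w * X) :=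
    h1.filter_mono nhdsWithin_le_nhds
  obtain ⟨w, ⟨h4, t, h5⟩, h6⟩ := ((h2.and h3).and self_mem_nhdsWithin).exists
  have hw : w ≠ 0 := h6
  refine ⟨w, t, hw, h5, ?_⟩
  have h7 : (1 + C w * X : F[X]) = C w * (X - C (-w⁻¹)) := by
    rw [C_neg, sub_neg_eq_add, mul_add, ← C_mul, mul_inv_cancel₀ hw, C_1, add_comm]
  have h8 : ¬ IsRoot P (-w⁻¹) := by
    intro h9
    exact h4 ⟨⟨-w⁻¹, h9, by simp⟩, hw⟩
  rw [h7]
  refine IsCoprime.mul_left ?_ ?_
  · exact ⟨C w⁻¹, 0, by rw [← C_mul, inv_mul_cancel₀ hw, C_1]; ring⟩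
  · rw [(irreducible_X_sub_C (-w⁻¹)).coprime_iff_not_dvd]
    rwa [dvd_iff_isRoot]

end

end Pool.Agent.Work.MP_dd0ddf_al
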