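import Pool.Agent.Work.MP_dd0ddf_al.GrpE1
import Pool.Agent.Work.MP_dd0ddf_al.GrpE2
import Pool.Agent.Work.MP_dd0ddf_al.GrpE3

/-!
# MP_dd0ddf_al, module GrpE: case P = (x - c)^n: assembly

`grpE_supp`: `D` with EInv is supported on nilpotent operators: let `Ω = SA0 \ N` (open, N = {X : X^n = 0} = {charpoly X = x^n}); `D ∘ ext0` on `SF Ω (SF V)`; `localise` with `Y = ℕ → E` (ts_seqE F), π = coefficients of charpoly, operators of EInv (indexed by Option (UU B); scalars 1 and -1; they preserve Ω and π: charpoly of
`θ(g0) τXτ θ(g0)⁻¹` is conj of charpoly X = charpoly X).  A functional on a fibre (closed in SA0, since contained in Ω automatically when P' ≠ x^n) gives by composition with restr a functional as in `grpE3`, hence 0.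
`grpE`: T' InGP; inG_of_inGP; if G_P is empty T' = 0 (SF of an empty space); else exists_sim, grpE1; S and S ∘ fourS satisfy EInv (fourS_EInv) and are supported on N (grpE_supp); grpE2.
-/

set_option linter.unusedSectionVars false
set_option linter.style.haveILetI false

namespace Pool.Agent.Work.MP_dd0ddf_al

noncomputable section

universe u

variable {F E : Type u} [NontriviallyNormedField F] [IsUltrametricDist F] [ProperSpace F]
  [CharZero F] [NontriviallyNormedField E] [NormedAlgebra F E] [ProperSpace E] [StarRing E]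
  [QExt F E] [MeasurableSpace E] [BorelSpace E]
variable {V : Type u} [AddCommGroup V] [Module E V] [Module.Finite E V] [TopologicalSpace V]
  [IsTopologicalAddGroup V] [T2Space V] [ContinuousSMul E V]

private theorem grpe_ext0 {X M : Type*} [TopologicalSpace X] [T2Space X] [AddCommGroup M]
    [Module ℂ M] (W : Set X) (hW : IsOpen W) (f : SF X M) (hf : ∀ x, x ∉ W → f x = 0) :
    ∃ g : SF W M, SF.ext0 W hW g = f := by
  have hs : IsClosed (Function.support f.1) := by
    have h : (Function.support f.1)ᶜ = f.1 ⁻¹' {0} := by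
      ext x
      simp [Function.mem_support]
    exact ⟨by
      rw [h]
      exact f.2.1 _⟩
  have hc : IsCompact (Function.support f.1) := by
    have h1 : tsupport f.1 = Function.support f.1 := hs.closure_eq
    rw [← h1]
    exact f.2.2
  have hsW : Function.support f.1 ⊆ W := by
    intro x hx
    by_contra hn
    exact hx (hf x hn)
  refine ⟨⟨fun x => f x.1, f.2.1.comp_continuous continuous_subtype_val, ?_⟩, ?_⟩
  · refine HasCompactSupport.of_support_subset_isCompact
      (K := (Subtype.val : W → X) ⁻¹' (Function.support f.1)) ?_ (fun x hx => hx)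
    refine Topology.IsEmbedding.subtypeVal.isCompact_preimage_iff ?_ |>.2 hc
    rw [Subtype.range_val]
    exact hsW
  · apply SF.ext
    intro x
    by_cases hx : x ∈ W
    · rw [SF.ext0_apply_mem _ _ _ _ hx]
    · rw [SF.ext0_apply_not_mem _ _ _ _ hx, hf x hx]

/-- the fibre of the complement of a fibre -/
private def grpe_fib {X Y : Type*} [TopologicalSpace X] (π : X → Y) (y₀ y : Y) (hy : y ≠ y₀) :
    {x : {x : X | π x ≠ y₀} // π x.1 = y} ≃ₜ {x : X // π x = y} where
  toFun x := ⟨x.1.1, x.2⟩
  invFun z := ⟨⟨z.1, fun h0 => hy (z.2.symm.trans h0)⟩, z.2⟩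
  left_inv _ := rfl
  right_inv _ := rfl
  continuous_toFun := (continuous_subtype_val.comp continuous_subtype_val).subtype_mk _
  continuous_invFun := (continuous_subtype_val.subtype_mk _).subtype_mk _

/-- localisation away from one fibre -/
private theorem grpe_loc {X Y M ι : Type*} [TopologicalSpace X] [T2Space X]
    [LocallyCompactSpace X] [TotallyDisconnectedSpace X] [TopologicalSpace Y]
    [TotallySeparatedSpace Y] [AddCommGroup M] [Module ℂ M] (π : X → Y) (hπ : Continuous π)
    (y₀ : Y) (a : ι → X ≃ₜ X) (ha : ∀ i x, π (a i x) = π x) (m : ι → M →ₗ[ℂ] M) (c : ι → ℂ)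
    (h : ∀ y : Y, y ≠ y₀ → ∀ S : SF {x // π x = y} M →ₗ[ℂ] ℂ,
      (∀ i f, S (SF.opr (fibH π (a i) (ha i) y) (m i) f) = c i * S f) → S = 0)
    (T : SF X M →ₗ[ℂ] ℂ) (hT : ∀ i f, T (SF.opr (a i) (m i) f) = c i * T f) :
    SF.SuppOn T {x | π x = y₀} := by
  have hW : IsOpen {x : X | π x ≠ y₀} := isOpen_ne.preimage hπ
  haveI : LocallyCompactSpace {x : X | π x ≠ y₀} := hW.locallyCompactSpace
  let b : ι → ({x : X | π x ≠ y₀} ≃ₜ {x : X | π x ≠ y₀}) := fun i =>
    (a i).subtype fun x => by
      show π x ≠ y₀ ↔ π (a i x) ≠ y₀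
      rw [ha]
  have key : T ∘ₗ SF.ext0 {x : X | π x ≠ y₀} hW = 0 := by
    refine localise (fun x : {x : X | π x ≠ y₀} => π x.1) (hπ.comp continuous_subtype_val)
      b (fun i x => ha i x.1) m c ?_ _ ?_
    · intro y S hS
      by_cases hy : y = y₀
      · apply LinearMap.ext
        intro f
        have h0 : f = 0 := by
          apply SF.ext
          intro x
          exact absurd (x.2.trans hy) x.1.2
        rw [h0, map_zero, map_zero]
      · have h1 := h y hy (S ∘ₗ SF.comp (grpe_fib π y₀ y hy)) (fun i f =>
          hS i (SF.comp (grpe_fib π y₀ y hy) f))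
        apply LinearMap.ext
        intro f
        have h3 := congrArg (fun R : SF {x : X // π x = y} M →ₗ[ℂ] ℂ =>
          R (SF.comp (grpe_fib π y₀ y hy).symm f)) h1
        have h4 : SF.comp (grpe_fib π y₀ y hy) (SF.comp (grpe_fib π y₀ y hy).symm f) = f :=
          SF.ext fun x => rfl
        have h5 : S (SF.comp (grpe_fib π y₀ y hy) (SF.comp (grpe_fib π y₀ y hy).symm f)) = 0 :=
          h3
        rw [h4] at h5
        exact h5
    · intro i f
      have h1 := hT i (SF.ext0 {x : X | π x ≠ y₀} hW f)
      show T (SF.ext0 {x : X | π x ≠ y₀} hW (SF.opr (b i) (m i) f)) =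
        c i * T (SF.ext0 {x : X | π x ≠ y₀} hW f)
      rw [← h1]
      congr 1
      apply SF.ext
      intro x
      show _ = m i (SF.ext0 {x : X | π x ≠ y₀} hW f (a i x))
      by_cases hx : x ∈ {x : X | π x ≠ y₀}
      · have hx' : a i x ∈ {x : X | π x ≠ y₀} := by
          show π (a i x) ≠ y₀
          rw [ha]
          exact hx
        rw [SF.ext0_apply_mem _ _ _ _ hx, SF.ext0_apply_mem _ _ _ _ hx']
        rfl
      · have hx' : a i x ∉ {x : X | π x ≠ y₀} := by
          intro h3
          apply hx
          have h4 : π (a i x) ≠ y₀ := h3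
          rw [ha] at h4
          exact h4
        rw [SF.ext0_apply_not_mem _ _ _ _ hx, SF.ext0_apply_not_mem _ _ _ _ hx', map_zero]
  intro f hf
  obtain ⟨g, hg⟩ := grpe_ext0 _ hW f (fun x hx => hf x (by
    by_contra h1
    exact hx h1))
  rw [← hg]
  exact congrArg (fun R : SF {x : X | π x ≠ y₀} M →ₗ[ℂ] ℂ => R g) key

private theorem grpe_comm (g h : Module.End E V) :
    LinearMap.charpoly (g * h) = LinearMap.charpoly (h * g) := by
  classical
  let b := Module.finBasis E V
  rw [← LinearMap.charpoly_toMatrix (g * h) b, ← LinearMap.charpoly_toMatrix (h * g) b,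
    LinearMap.toMatrix_mul, LinearMap.toMatrix_mul, Matrix.charpoly_mul_comm]

private theorem grpe_conj (h : GV E V) (X : Module.End E V) :
    LinearMap.charpoly (h.1 * X * h⁻¹.1) = LinearMap.charpoly X := by
  rw [grpe_comm]
  have h1 : h⁻¹.1 * h.1 = 1 := h.inv_mul
  rw [← mul_assoc, h1, one_mul]

private theorem grpe_pi {B : SkewH E V} {c : F} {g₀ : GV E V} (hg : IsSim B c g₀) (τ : AntiU B)
    (i : Option (UU B)) (X : SA0 B) :
    LinearMap.charpoly ((i.elim (sa0Sim hg τ).h fun k => (sa0Conj B k⁻¹).h) X).1 =
      LinearMap.charpoly X.1 := by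
  cases i with
  | none =>
    show LinearMap.charpoly ((thG τ g₀).1 * conjτ τ X.1 * (thG τ g₀)⁻¹.1) = _
    rw [grpe_conj, charpoly_conjτ]
    have h1 := charpoly_adj B X.1
    rw [sa_adj B X.2.1] at h1
    exact h1.symm
  | some k =>
    show LinearMap.charpoly ((k⁻¹).1.1 * X.1 * (k⁻¹).1⁻¹.1) = _
    rw [grpe_conj]

theorem grpE_supp {B : SkewH E V} {p : PChar F} (W : WeilRep B p) {c : F} {g₀ : GV E V}
    (hg : IsSim B c g₀) (τ : AntiU B)
    (hgood : ∀ P : Polynomial F, P.Monic → P.natDegree = Module.finrank E V → P.coeff 0 ≠ 0 →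
      (∀ c' : F, P ≠ (Polynomial.X - Polynomial.C c') ^ Module.finrank E V) → PGood W P)
    (D : SF (SA0 B) (SF V ℂ) →ₗ[ℂ] ℂ) (hD : EInv W hg τ D) : SF.SuppOn D (N0 B) := by
  classical
  haveI := lc_SA0 F B
  haveI := td_SA0 F B
  haveI : TotallySeparatedSpace (ℕ → E) := ts_seqE F ℕ
  let π : SA0 B → (ℕ → E) := fun X i => (LinearMap.charpoly X.1).coeff i
  have hπ : Continuous π := continuous_pi fun i =>
    (continuous_charcoef i).comp continuous_subtype_val
  let y₀ : ℕ → E := fun i => (Polynomial.X ^ Module.finrank E V : Polynomial E).coeff i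
  let a : Option (UU B) → SA0 B ≃ₜ SA0 B := fun i =>
    i.elim (sa0Sim hg τ).h fun k => (sa0Conj B k⁻¹).h
  have ha : ∀ i x, π (a i x) = π x := by
    intro i x
    funext j
    show (LinearMap.charpoly (a i x).1).coeff j = _
    rw [grpe_pi hg τ i x]
  have hmain : SF.SuppOn D {x | π x = y₀} := by
    refine grpe_loc π hπ y₀ a ha
      (fun i => i.elim (tneg F τ ∘ₗ W.r (simK hg τ)⁻¹) fun k => W.l k ∘ₗ W.r (simC hg k))
      (fun i => i.elim (-1) fun _ => 1) ?_ D ?_
    · intro y hy S hS
      by_cases hne : ∃ X0, π X0 = y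
      · obtain ⟨X0, hX0⟩ := hne
        have hcl : IsClosed {x | π x = y} := isClosed_eq hπ continuous_const
        have hmem : ∀ X, LinearMap.charpoly X.1 = LinearMap.charpoly X0.1 → π X = y := by
          intro X hX
          rw [← hX0]
          funext i
          show (LinearMap.charpoly X.1).coeff i = _
          rw [hX]
        have hT0 : S ∘ₗ (SF.restr {x | π x = y} hcl : SF (SA0 B) (SF V ℂ) →ₗ[ℂ] _) = 0 := by
          refine grpE3 W hg τ hgood (LinearMap.charpoly X0.1) ?_ _ ⟨fun k f => ?_, fun f => ?_⟩
            fun f hf => ?_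
          · intro h1
            apply hy
            rw [← hX0]
            funext i
            show (LinearMap.charpoly X0.1).coeff i = _
            rw [h1]
          · have h1 := hS (some k) (SF.restr {x | π x = y} hcl f)
            simp only [Option.elim_some, one_mul] at h1
            refine Eq.trans ?_ h1
            show S _ = S _
            congr 1
          · have h1 := hS none (SF.restr {x | π x = y} hcl f)
            simp only [Option.elim_none, neg_mul, one_mul] at h1
            refine Eq.trans ?_ h1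
            show S _ = S _
            congr 1
          · show S _ = 0
            have h1 : SF.restr {x | π x = y} hcl f = 0 := by
              apply SF.ext
              intro z
              refine hf z.1 ?_
              have h2 : π z.1 = π X0 := z.2.trans hX0.symm
              exact Polynomial.ext fun i => congrFun h2 i
            rw [h1, map_zero]
        refine LinearMap.ext fun g => ?_
        obtain ⟨f, hf⟩ := restr_surjective {x | π x = y} hcl g
        have h2 := congrArg (fun R : SF (SA0 B) (SF V ℂ) →ₗ[ℂ] ℂ => R f) hT0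
        have h3 : S (SF.restr {x | π x = y} hcl f) = 0 := h2
        rw [hf] at h3
        exact h3
      · refine LinearMap.ext fun g => ?_
        have h1 : g = 0 := by
          apply SF.ext
          intro z
          exact absurd ⟨z.1, z.2⟩ hne
        rw [h1, map_zero, map_zero]
    · intro i f
      cases i with
      | none =>
        have h1 := hD.anti f
        show D (SF.opr (sa0Sim hg τ).h (tneg F τ ∘ₗ W.r (simK hg τ)⁻¹) f) = -1 * D f
        rw [h1]
        ring
      | some k =>
        have h1 := hD.inv k f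
        show D (SF.opr (sa0Conj B k⁻¹).h (W.l k ∘ₗ W.r (simC hg k)) f) = 1 * D f
        rw [h1, one_mul]
  intro f hf
  refine hmain f fun z hz => hf z ?_
  have h1 : LinearMap.charpoly z.1 = Polynomial.X ^ Module.finrank E V :=
    Polynomial.ext fun i => congrFun hz i
  have h2 := LinearMap.aeval_self_charpoly z.1
  rw [h1, map_pow, Polynomial.aeval_X] at h2
  exact h2

theorem grpE {B : SkewH E V} {p : PChar F} (W : WeilRep B p) (c : F) (hc : c ≠ 0)
    (hn : Even (Module.finrank E V)) (hpos : 0 < Module.finrank E V)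
    (hgood : ∀ P : Polynomial F, P.Monic → P.natDegree = Module.finrank E V → P.coeff 0 ≠ 0 →
      (∀ c' : F, P ≠ (Polynomial.X - Polynomial.C c') ^ Module.finrank E V) → PGood W P) :
    PGood W ((Polynomial.X - Polynomial.C c) ^ Module.finrank E V) := by
  intro τ T hT
  obtain ⟨h1, h2, h3, h4⟩ := inG_of_inGP W τ _ T hT
  by_cases hne : (GP B ((Polynomial.X - Polynomial.C c) ^ Module.finrank E V)).Nonempty
  · obtain ⟨g, hg⟩ := hne
    obtain ⟨g₀, hg₀⟩ := exists_sim B c hc g hg
    obtain ⟨S, hS0, hSs, hSi⟩ := grpE1 W c g₀ hg₀ τ _ h1 h2 h3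
    apply h4
    apply hS0
    exact grpE2 p hn hpos (Module.finrank E V) S hSs
      (grpE_supp W hg₀ τ hgood _ (fourS_EInv W hg₀ τ S hSi))
  · apply LinearMap.ext
    intro f
    have h5 : f = 0 := by
      apply SF.ext
      intro z
      exact absurd ⟨z.1, z.2⟩ hne
    rw [h5, map_zero, map_zero]

end

end Pool.Agent.Work.MP_dd0ddf_al
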