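import Pool.Agent.Work.MP_dd0ddf_al.Defs2

/-!
# MP_dd0ddf_al, module OrthoB: orthogonal bases, anti-unitary involutions

`exists_aniso`: if `⟨v, v⟩ = 0` for all `v` then `⟨v,w⟩ + ⟨w,v⟩ = 0`, i.e. `⟨v,w⟩ = conj ⟨v,w⟩` for all `v, w`; replacing `v` by `x v` with `star x ≠ x`
gives `⟨v,w⟩ = 0`, contradiction to nondegeneracy (V ≠ 0).
`exists_ortho`: induction on the dimension `n` (for all spaces): take `v` with `⟨v,v⟩ ≠ 0`, `V = E v ⊕ v^⊥`, the form restricted to `v^⊥` is a
nondegenerate skew-Hermitian form (structure `SkewH E (orth B (span v))`), apply the induction hypothesis.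
`exists_ortho_fst`: same with the first vector prescribed.
`exists_tau`: for an orthogonal basis `b` put `τ (∑ x_i b_i) = ∑ conj(x_i) b_i`.
`tau_change`: `τ' = τ h` with `h = τ ∘ τ'` which is `E`-linear and unitary.
-/

set_option linter.unusedSectionVars false
set_option linter.style.haveILetI false

namespace Pool.Agent.Work.MP_dd0ddf_al

noncomputable section

variable {E V : Type*} [Field E] [StarRing E] [AddCommGroup V] [Module E V]
  [Module.Finite E V] (B : SkewH E V)

/-- the restriction of the form to a subspace on which it is nondegenerate -/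
def SkewH.restrict (U : Submodule E V) (h : ∀ u ∈ U, (∀ w ∈ U, B.ip u w = 0) → u = 0) :
    SkewH E U where
  ip u w := B.ip u.1 w.1
  add_left u v w := B.add_left _ _ _
  smul_left a v w := B.smul_left _ _ _
  skew v w := B.skew _ _
  nondeg v hv := Subtype.ext (h v.1 v.2 fun w hw => hv ⟨w, hw⟩)

theorem exists_aniso (hstar : ∃ x : E, star x ≠ x) (h0 : 0 < Module.finrank E V) :
    ∃ v, B.ip v v ≠ 0 := by
  by_contra hcon
  push Not at hcon
  obtain ⟨x, hx⟩ := hstar
  have h1 : ∀ v w, star (B.ip v w) = B.ip v w := by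
    intro v w
    have h2 := hcon (v + w)
    rw [B.add_left, B.add_right, B.add_right, hcon v, hcon w, zero_add, add_zero, B.skew v w,
      ← sub_eq_add_neg, sub_eq_zero] at h2
    exact h2.symm
  have h2 : ∀ v w, B.ip v w = 0 := by
    intro v w
    have h3 := h1 (x • v) w
    rw [B.smul_left, star_mul', h1 v w] at h3
    have h4 : (star x - x) * B.ip v w = 0 := by
      rw [sub_mul, h3, sub_self]
    exact (mul_eq_zero.1 h4).resolve_left (sub_ne_zero.2 hx)
  have hnt : Nontrivial V := Module.nontrivial_of_finrank_pos (R := E) h0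
  obtain ⟨v, hv⟩ := exists_ne (0 : V)
  exact hv (B.nondeg v (h2 v))

private theorem orthob_zero_left (v : V) : B.ip 0 v = 0 := by
  have := B.smul_left 0 0 v
  rwa [zero_smul, zero_mul] at this

/-- one more vector -/
private theorem orthob_step {v : V} (hv : B.ip v v ≠ 0) {n : ℕ}
    (b : Module.Basis (Fin n) E (orth B (Submodule.span E {v})))
    (h1 : ∀ i j, i ≠ j → B.ip (b i : V) (b j : V) = 0) (h2 : ∀ i, B.ip (b i : V) (b i : V) ≠ 0) :
    ∃ b' : Module.Basis (Fin (n + 1)) E V, b' 0 = v ∧
      (∀ i j, i ≠ j → B.ip (b' i) (b' j) = 0) ∧ ∀ i, B.ip (b' i) (b' i) ≠ 0 := by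
  have hvmem : v ∈ Submodule.span E {v} := Submodule.mem_span_singleton_self v
  have hli : ∀ (c : E), ∀ x ∈ orth B (Submodule.span E {v}), c • v + x = 0 → c = 0 := by
    intro c x hx h0
    have h3 := congrArg (fun z => B.ip z v) h0
    simp only [B.add_left, B.smul_left, hx v hvmem, orthob_zero_left, add_zero] at h3
    exact (mul_eq_zero.1 h3).resolve_right hv
  have hsp : ∀ z : V, ∃ c : E, z + c • v ∈ orth B (Submodule.span E {v}) := by
    intro z
    refine ⟨-(B.ip z v / B.ip v v), fun u hu => ?_⟩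
    obtain ⟨a, rfl⟩ := Submodule.mem_span_singleton.1 hu
    rw [B.smul_right, B.add_left, B.smul_left]
    field_simp
    ring
  refine ⟨Module.Basis.mkFinCons v b hli hsp, ?_, ?_, ?_⟩
  · rw [Module.Basis.coe_mkFinCons]
    rfl
  · rw [Module.Basis.coe_mkFinCons]
    have h4 : ∀ j, B.ip (b j : V) v = 0 := fun j => (b j).2 v hvmem
    have h5 : ∀ j, B.ip v (b j : V) = 0 := fun j => by
      rw [B.skew (b j : V) v, h4, star_zero, neg_zero]
    intro i j hij
    refine Fin.cases ?_ (fun i' => ?_) i hij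
    · refine Fin.cases ?_ (fun j' => ?_) j
      · intro h
        exact absurd rfl h
      · intro _
        exact h5 j'
    · refine Fin.cases ?_ (fun j' => ?_) j
      · intro _
        exact h4 i'
      · intro h
        exact h1 i' j' (fun h' => h (by rw [h']))
  · rw [Module.Basis.coe_mkFinCons]
    intro i
    refine Fin.cases ?_ (fun i' => ?_) i
    · exact hv
    · exact h2 i'

private theorem orthob_nondeg {v : V} (hv : B.ip v v ≠ 0) :
    ∀ u ∈ orth B (Submodule.span E {v}), (∀ w ∈ orth B (Submodule.span E {v}), B.ip u w = 0) →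
      u = 0 := by
  have hvmem : v ∈ Submodule.span E {v} := Submodule.mem_span_singleton_self v
  intro u hu h
  apply B.nondeg
  intro x
  have h1 : x + (-(B.ip x v / B.ip v v)) • v ∈ orth B (Submodule.span E {v}) := by
    intro z hz
    obtain ⟨a, rfl⟩ := Submodule.mem_span_singleton.1 hz
    rw [B.smul_right, B.add_left, B.smul_left]
    field_simp
    ring
  have h2 := h _ h1
  rw [B.add_right, B.smul_right, hu v hvmem, mul_zero, add_zero] at h2
  exact h2

universe orthob_v orthob_e

private theorem orthob_ind {E : Type orthob_e} [Field E] [StarRing E]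
    (hstar : ∃ x : E, star x ≠ x) (n : ℕ) :
    ∀ (V : Type orthob_v) [AddCommGroup V] [Module E V] [Module.Finite E V] (B : SkewH E V),
    Module.finrank E V = n → ∃ b : Module.Basis (Fin n) E V,
      (∀ i j, i ≠ j → B.ip (b i) (b j) = 0) ∧ ∀ i, B.ip (b i) (b i) ≠ 0 := by
  induction n using Nat.strong_induction_on with
  | _ n ih =>
    intro V _ _ _ B hV
    rcases Nat.eq_zero_or_pos n with rfl | hn
    · exact ⟨Module.finBasisOfFinrankEq E V hV, fun i => i.elim0, fun i => i.elim0⟩
    · obtain ⟨v, hv⟩ := exists_aniso B hstar (by omega)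
      have hlt : Module.finrank E (orth B (Submodule.span E {v})) < n := by
        rw [← hV]
        apply Submodule.finrank_lt
        intro h0
        have h1 : v ∈ orth B (Submodule.span E {v}) := by
          rw [h0]
          exact Submodule.mem_top
        exact hv (h1 v (Submodule.mem_span_singleton_self v))
      obtain ⟨b, h1, h2⟩ := ih _ hlt (orth B (Submodule.span E {v}))
        (B.restrict (orth B (Submodule.span E {v})) (orthob_nondeg B hv)) rfl
      obtain ⟨b', -, h3, h4⟩ := orthob_step B hv b h1 h2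
      have h5 : Module.finrank E (orth B (Submodule.span E {v})) + 1 = n := by
        rw [← hV, Module.finrank_eq_card_basis b', Fintype.card_fin]
      subst h5
      exact ⟨b', h3, h4⟩

private theorem orthob_fst {E : Type orthob_e} [Field E] [StarRing E]
    (hstar : ∃ x : E, star x ≠ x) {V : Type orthob_v} [AddCommGroup V] [Module E V]
    [Module.Finite E V] (B : SkewH E V) (v : V) (hv : B.ip v v ≠ 0) (n : ℕ)
    (hV : Module.finrank E V = n) : ∃ b : Module.Basis (Fin n) E V,
      (∀ i j, i ≠ j → B.ip (b i) (b j) = 0) ∧ (∀ i, B.ip (b i) (b i) ≠ 0) ∧ ∃ i, b i = v := by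
  obtain ⟨b, h1, h2⟩ := orthob_ind hstar _ (orth B (Submodule.span E {v}))
        (B.restrict (orth B (Submodule.span E {v})) (orthob_nondeg B hv)) rfl
  obtain ⟨b', h0, h3, h4⟩ := orthob_step B hv b h1 h2
  have h5 : Module.finrank E (orth B (Submodule.span E {v})) + 1 = n := by
    rw [← hV, Module.finrank_eq_card_basis b', Fintype.card_fin]
  subst h5
  exact ⟨b', h3, h4, 0, h0⟩

theorem exists_ortho (hstar : ∃ x : E, star x ≠ x) :
    ∃ b : Module.Basis (Fin (Module.finrank E V)) E V,
      (∀ i j, i ≠ j → B.ip (b i) (b j) = 0) ∧ ∀ i, B.ip (b i) (b i) ≠ 0 :=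
  orthob_ind hstar _ V B rfl

theorem exists_ortho_fst (hstar : ∃ x : E, star x ≠ x) (v : V) (hv : B.ip v v ≠ 0) :
    ∃ b : Module.Basis (Fin (Module.finrank E V)) E V,
      (∀ i j, i ≠ j → B.ip (b i) (b j) = 0) ∧ (∀ i, B.ip (b i) (b i) ≠ 0) ∧ ∃ i, b i = v :=
  orthob_fst hstar B v hv _ rfl

private theorem orthob_sum_left {ι : Type*} (s : Finset ι) (c : ι → E) (g : ι → V) (v : V) :
    B.ip (∑ j ∈ s, c j • g j) v = ∑ j ∈ s, c j * B.ip (g j) v := by
  have h := map_sum (B.lin v) (fun j => c j • g j) s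
  simp only [map_smul] at h
  exact h

private theorem orthob_sum_right {ι : Type*} (s : Finset ι) (v : V) (c : ι → E) (g : ι → V) :
    B.ip v (∑ j ∈ s, c j • g j) = ∑ j ∈ s, star (c j) * B.ip v (g j) := by
  rw [B.skew (∑ j ∈ s, c j • g j) v, orthob_sum_left, star_sum, ← Finset.sum_neg_distrib]
  refine Finset.sum_congr rfl fun j _ => ?_
  rw [star_mul', B.skew (g j) v]
  ring

private theorem orthob_ip {n : ℕ} (b : Module.Basis (Fin n) E V)
    (hb : ∀ i j, i ≠ j → B.ip (b i) (b j) = 0) (x y : Fin n → E) :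
    B.ip (∑ i, x i • b i) (∑ i, y i • b i) = ∑ i, x i * star (y i) * B.ip (b i) (b i) := by
  rw [orthob_sum_left]
  refine Finset.sum_congr rfl fun i _ => ?_
  rw [orthob_sum_right, Finset.sum_eq_single i]
  · ring
  · intro j _ hj
    rw [hb i j hj.symm, mul_zero]
  · intro h
    exact absurd (Finset.mem_univ _) h

private theorem orthob_tau {n : ℕ} (b : Module.Basis (Fin n) E V)
    (hb : ∀ i j, i ≠ j → B.ip (b i) (b j) = 0) : ∃ τ : AntiU B, ∀ i, τ.t (b i) = b i := by
  classical
  refine ⟨{ t := fun v => ∑ i, star (b.repr v i) • b i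
            add := fun v w => ?_
            smul := fun a v => ?_
            ip := fun v w => ?_
            inv := fun v => ?_ }, fun i => ?_⟩
  · rw [← Finset.sum_add_distrib]
    refine Finset.sum_congr rfl fun i _ => ?_
    rw [map_add, Finsupp.add_apply, star_add, add_smul]
  · rw [Finset.smul_sum]
    refine Finset.sum_congr rfl fun i _ => ?_
    rw [map_smul, Finsupp.smul_apply, smul_eq_mul, star_mul', smul_smul]
  · rw [orthob_ip B b hb]
    conv_rhs => rw [← b.sum_repr w, ← b.sum_repr v]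
    rw [orthob_ip B b hb]
    refine Finset.sum_congr rfl fun i _ => ?_
    rw [star_star]
    ring
  · conv_rhs => rw [← b.sum_repr v]
    refine Finset.sum_congr rfl fun i _ => ?_
    have h1 : b.repr (∑ i, star (b.repr v i) • b i) i = star (b.repr v i) := by
      rw [Module.Basis.repr_sum_self]
    rw [h1, star_star]
  · change ∑ j, star (b.repr (b i) j) • b j = b i
    rw [Finset.sum_eq_single i]
    · rw [Module.Basis.repr_self, Finsupp.single_eq_same, star_one, one_smul]
    · intro j _ hj
      rw [Module.Basis.repr_self, Finsupp.single_eq_of_ne hj, star_zero, zero_smul]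
    · intro h
      exact absurd (Finset.mem_univ _) h

theorem exists_tau (hstar : ∃ x : E, star x ≠ x) : Nonempty (AntiU B) := by
  obtain ⟨b, hb, _⟩ := exists_ortho B hstar
  obtain ⟨τ, _⟩ := orthob_tau B b hb
  exact ⟨τ⟩

theorem exists_tau_fix (hstar : ∃ x : E, star x ≠ x) (v : V) (hv : B.ip v v ≠ 0) :
    ∃ τ : AntiU B, τ.t v = v := by
  obtain ⟨b, hb, _, i, hi⟩ := exists_ortho_fst B hstar v hv
  obtain ⟨τ, hτ⟩ := orthob_tau B b hb
  exact ⟨τ, hi ▸ hτ i⟩

private def orthobLin {B : SkewH E V} (τ τ' : AntiU B) : Module.End E V where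
  toFun v := τ.t (τ'.t v)
  map_add' v w := by rw [τ'.add, τ.add]
  map_smul' a v := by rw [τ'.smul, τ.smul, star_star, RingHom.id_apply]

theorem tau_change (τ τ' : AntiU B) : ∃ h : UU B, ∀ v, τ'.t v = τ.t (h.1.1 v) := by
  refine ⟨⟨⟨orthobLin τ τ', orthobLin τ' τ, ?_, ?_⟩, fun v w => ?_⟩, fun v => ?_⟩
  · ext v
    change τ.t (τ'.t (τ'.t (τ.t v))) = v
    rw [τ'.inv, τ.inv]
  · ext v
    change τ'.t (τ.t (τ.t (τ'.t v))) = v
    rw [τ.inv, τ'.inv]
  · change B.ip (τ.t (τ'.t v)) (τ.t (τ'.t w)) = B.ip v w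
    rw [τ.ip, τ'.ip]
  · change τ'.t v = τ.t (τ.t (τ'.t v))
    rw [τ.inv]

end

end Pool.Agent.Work.MP_dd0ddf_al
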