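import Pool.Agent.Work.MP_dd0ddf_al.NiBin
import Pool.Agent.Work.MP_dd0ddf_al.OrthoB
import Pool.Agent.Work.MP_dd0ddf_al.Witt

/-!
# MP_dd0ddf_al, module NiClass: classification of skew-Hermitian spaces by dimension and discriminant

Fix `η` (exists_eta).  By `skew_represents` and induction on the dimension every `V` has an orthogonal basis `v_1..v_n` with `⟨v_i,v_i⟩ = η` for `i < n` and
`⟨v_n,v_n⟩ = η d` (split off `v_1` with `⟨v_1,v_1⟩ = η`, continue in the orthogonal complement, SkewH.restrict).
The Gram determinant changes by `det P · star (det P)` under change of basis.  So if two spaces of the same dimension have Gram determinants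
differing by a norm `N(c)` (c ∈ E^×), then `d' = d N(c')`, scale `v_n'`: the spaces are isometric.
-/

set_option linter.unusedSectionVars false
set_option linter.style.haveILetI false

namespace Pool.Agent.Work.MP_dd0ddf_al

noncomputable section

universe u

variable {F E : Type u} [NontriviallyNormedField F] [IsUltrametricDist F] [ProperSpace F]
  [CharZero F] [NontriviallyNormedField E] [NormedAlgebra F E] [ProperSpace E] [StarRing E]
  [QExt F E]

/-- the Gram matrix -/
def gram {E V : Type*} [Field E] [StarRing E] [AddCommGroup V] [Module E V] (B : SkewH E V)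
    {ι : Type*} (b : ι → V) : Matrix ι ι E := fun i j => B.ip (b i) (b j)

theorem gram_change {E V : Type*} [Field E] [StarRing E] [AddCommGroup V] [Module E V]
    (B : SkewH E V) {ι : Type*} [Fintype ι] [DecidableEq ι] (b b' : Module.Basis ι E V) :
    ∃ c : E, c ≠ 0 ∧ (gram B b').det = c * star c * (gram B b).det := by
  set P : Matrix ι ι E := (b.toMatrix b').transpose with hP
  have hPu : P.det ≠ 0 := by
    rw [hP, Matrix.det_transpose]
    have h1 := b.isUnit_det b'
    rw [Module.Basis.det_apply] at h1
    exact h1.ne_zero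
  have hsum_l : ∀ (s : Finset ι) (f : ι → E) (w : V),
      B.ip (∑ j ∈ s, f j • b j) w = ∑ j ∈ s, f j * B.ip (b j) w := by
    intro s f w
    have h := map_sum (B.lin w) (fun j => f j • b j) s
    simp only [map_smul] at h
    exact h
  have hsum_r : ∀ (s : Finset ι) (f : ι → E) (v : V),
      B.ip v (∑ j ∈ s, f j • b j) = ∑ j ∈ s, star (f j) * B.ip v (b j) := by
    intro s f v
    rw [B.skew _ v, hsum_l, star_sum, ← Finset.sum_neg_distrib]
    refine Finset.sum_congr rfl fun j _ => ?_
    rw [star_mul', B.skew (b j) v]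
    ring
  have hmat : gram B b' = P * gram B b * P.conjTranspose := by
    ext i k
    rw [Matrix.mul_apply]
    have e1 : b' i = ∑ j, b.repr (b' i) j • b j := (b.sum_repr (b' i)).symm
    have e2 : b' k = ∑ j, b.repr (b' k) j • b j := (b.sum_repr (b' k)).symm
    show B.ip (b' i) (b' k) = _
    conv_lhs => rw [e2]
    rw [hsum_r]
    refine Finset.sum_congr rfl fun l _ => ?_
    rw [Matrix.mul_apply]
    conv_lhs => rw [e1]
    rw [hsum_l, mul_comm]
    rfl
  refine ⟨P.det, hPu, ?_⟩
  rw [hmat, Matrix.det_mul, Matrix.det_mul, Matrix.det_conjTranspose]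
  ring

private theorem niclass_zero_left {E V : Type*} [Field E] [StarRing E] [AddCommGroup V]
    [Module E V] (B : SkewH E V) (v : V) : B.ip 0 v = 0 := by
  have := B.smul_left 0 0 v
  rwa [zero_smul, zero_mul] at this

/-- one more vector -/
private theorem niclass_step {E V : Type*} [Field E] [StarRing E] [AddCommGroup V]
    [Module E V] (B : SkewH E V) {v : V} (hv : B.ip v v ≠ 0) {n : ℕ}
    (b : Module.Basis (Fin n) E (orth B (Submodule.span E {v})))
    (h1 : ∀ i j, i ≠ j → B.ip (b i : V) (b j : V) = 0) :
    ∃ b' : Module.Basis (Fin (n + 1)) E V, b' 0 = v ∧ (∀ i : Fin n, b' i.succ = b i) ∧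
      (∀ i j, i ≠ j → B.ip (b' i) (b' j) = 0) := by
  have hvmem : v ∈ Submodule.span E {v} := Submodule.mem_span_singleton_self v
  have hli : ∀ (c : E), ∀ x ∈ orth B (Submodule.span E {v}), c • v + x = 0 → c = 0 := by
    intro c x hx h0
    have h3 := congrArg (fun z => B.ip z v) h0
    simp only [B.add_left, B.smul_left, hx v hvmem, niclass_zero_left, add_zero] at h3
    exact (mul_eq_zero.1 h3).resolve_right hv
  have hsp : ∀ z : V, ∃ c : E, z + c • v ∈ orth B (Submodule.span E {v}) := by
    intro z
    refine ⟨-(B.ip z v / B.ip v v), fun u hu => ?_⟩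
    obtain ⟨a, rfl⟩ := Submodule.mem_span_singleton.1 hu
    rw [B.smul_right, B.add_left, B.smul_left]
    field_simp
    ring
  refine ⟨Module.Basis.mkFinCons v b hli hsp, ?_, ?_, ?_⟩
  · rw [Module.Basis.coe_mkFinCons]
    rfl
  · intro i
    rw [Module.Basis.coe_mkFinCons]
    rfl
  · rw [Module.Basis.coe_mkFinCons]
    have h4 : ∀ j, B.ip (b j : V) v = 0 := fun j => (b j).2 v hvmem
    have h5 : ∀ j, B.ip v (b j : V) = 0 := fun j => by
      rw [B.skew (b j : V) v, h4, star_zero, neg_zero]
    intro i j hij
    refine Fin.cases ?_ (fun i' => ?_) i hij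
    · refine Fin.cases ?_ (fun j' => ?_) j
      · intro h
        exact absurd rfl h
      · intro _
        exact h5 j'
    · refine Fin.cases ?_ (fun j' => ?_) j
      · intro _
        exact h4 i'
      · intro h
        exact h1 i' j' (fun h' => h (by rw [h']))

private theorem niclass_nondeg {E V : Type*} [Field E] [StarRing E] [AddCommGroup V]
    [Module E V] (B : SkewH E V) {v : V} (hv : B.ip v v ≠ 0) :
    ∀ u ∈ orth B (Submodule.span E {v}), (∀ w ∈ orth B (Submodule.span E {v}), B.ip u w = 0) →
      u = 0 := by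
  have hvmem : v ∈ Submodule.span E {v} := Submodule.mem_span_singleton_self v
  intro u hu h
  apply B.nondeg
  intro x
  have h1 : x + (-(B.ip x v / B.ip v v)) • v ∈ orth B (Submodule.span E {v}) := by
    intro z hz
    obtain ⟨a, rfl⟩ := Submodule.mem_span_singleton.1 hz
    rw [B.smul_right, B.add_left, B.smul_left]
    field_simp
    ring
  have h2 := h _ h1
  rw [B.add_right, B.smul_right, hu v hvmem, mul_zero, add_zero] at h2
  exact h2

universe niclass_v

include F in
variable (F) in
/-- normal form -/
private theorem niclass_normal (η : E) (hη0 : η ≠ 0) (hη : star η = -η) (n : ℕ) :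
    ∀ (V : Type niclass_v) [AddCommGroup V] [Module E V] [Module.Finite E V] (B : SkewH E V),
    Module.finrank E V = n + 1 → ∃ b : Module.Basis (Fin (n + 1)) E V,
      (∀ i j, i ≠ j → B.ip (b i) (b j) = 0) ∧ (∀ i : Fin n, B.ip (b i.castSucc) (b i.castSucc) = η)
      ∧ B.ip (b (Fin.last n)) (b (Fin.last n)) ≠ 0 := by
  induction n with
  | zero =>
    intro V _ _ _ B hV
    obtain ⟨v, hv⟩ := exists_aniso B (QExt.nontriv (F := F) (E := E)) (by omega)
    have hv0 : v ≠ 0 := by
      intro h0
      apply hv
      rw [h0, niclass_zero_left]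
    set b := Module.finBasisOfFinrankEq E V hV with hb
    refine ⟨b, ?_, fun i => i.elim0, ?_⟩
    · intro i j hij
      exact absurd (Fin.ext (by omega)) hij
    · intro h0
      apply hv
      have e1 : v = b.repr v 0 • b 0 := by
        have := b.sum_repr v
        rw [Fin.sum_univ_one] at this
        exact this.symm
      have h0' : B.ip (b 0) (b 0) = 0 := h0
      rw [e1, B.smul_left, B.smul_right, h0', mul_zero, mul_zero]
  | succ n ih =>
    intro V _ _ _ B hV
    obtain ⟨v, hv⟩ := skew_represents F B (by omega) η hη hη0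
    have hv0 : B.ip v v ≠ 0 := by rw [hv]; exact hη0
    have hvn : v ≠ 0 := by
      intro h0
      apply hv0
      rw [h0, niclass_zero_left]
    have h5 : Module.finrank E (orth B (Submodule.span E {v})) = n + 1 := by
      have h6 := finrank_orth B (Submodule.span E {v})
      rw [finrank_span_singleton hvn, hV] at h6
      omega
    obtain ⟨b, h1, h2, h3⟩ := ih (orth B (Submodule.span E {v}))
        (B.restrict (orth B (Submodule.span E {v})) (niclass_nondeg B hv0)) h5
    obtain ⟨b', e0, e1, e2⟩ := niclass_step B hv0 b h1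
    refine ⟨b', e2, ?_, ?_⟩
    · intro i
      refine Fin.cases ?_ (fun i' => ?_) i
      · rw [Fin.castSucc_zero, e0, hv]
      · rw [← Fin.succ_castSucc, e1]
        exact h2 i'
    · rw [← Fin.succ_last, e1]
      exact h3

private theorem niclass_ext {E V V' : Type*} [Field E] [StarRing E] [AddCommGroup V]
    [Module E V] [AddCommGroup V'] [Module E V'] (B : SkewH E V) (B' : SkewH E V')
    {ι : Type*} (b : Module.Basis ι E V) (φ : V ≃ₗ[E] V')
    (h : ∀ i j, B'.ip (φ (b i)) (φ (b j)) = B.ip (b i) (b j)) (v w : V) :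
    B'.ip (φ v) (φ w) = B.ip v w := by
  have h1 : ∀ j, (B'.lin (φ (b j))).comp φ.toLinearMap = B.lin (b j) := by
    intro j
    refine b.ext fun i => ?_
    exact h i j
  have h2 : ∀ j v, B'.ip (φ v) (φ (b j)) = B.ip v (b j) := fun j v =>
    LinearMap.congr_fun (h1 j) v
  have h3 : (B'.lin (φ w)).comp φ.toLinearMap = B.lin w := by
    refine b.ext fun i => ?_
    show B'.ip (φ (b i)) (φ w) = B.ip (b i) w
    rw [B'.skew (φ w) (φ (b i)), h2, ← B.skew w (b i)]
  exact LinearMap.congr_fun h3 v

private theorem niclass_det {E W : Type*} [Field E] [StarRing E] [AddCommGroup W] [Module E W]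
    (D : SkewH E W) {n : ℕ} (η : E) (w : Module.Basis (Fin (n + 1)) E W)
    (h1 : ∀ i j, i ≠ j → D.ip (w i) (w j) = 0)
    (h2 : ∀ i : Fin n, D.ip (w i.castSucc) (w i.castSucc) = η) :
    (gram D w).det = η ^ n * D.ip (w (Fin.last n)) (w (Fin.last n)) := by
  have h3 : gram D w = Matrix.diagonal fun i => D.ip (w i) (w i) := by
    ext i j
    by_cases hij : i = j
    · subst hij
      rw [Matrix.diagonal_apply_eq]
      rfl
    · rw [Matrix.diagonal_apply_ne _ hij]
      exact h1 i j hij
  rw [h3, Matrix.det_diagonal, Fin.prod_univ_castSucc]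
  congr 1
  rw [Finset.prod_congr rfl fun i _ => h2 i, Finset.prod_const, Finset.card_univ,
    Fintype.card_fin]

include F in
variable (F) in
theorem isometric_of_disc {V V' : Type*} [AddCommGroup V] [Module E V] [Module.Finite E V]
    [AddCommGroup V'] [Module E V'] [Module.Finite E V'] (B : SkewH E V) (B' : SkewH E V')
    {n : ℕ} (b : Module.Basis (Fin n) E V) (b' : Module.Basis (Fin n) E V') (c : E) (hc : c ≠ 0)
    (h : (gram B' b').det = c * star c * (gram B b).det) :
    ∃ φ : V ≃ₗ[E] V', ∀ v w, B'.ip (φ v) (φ w) = B.ip v w := by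
  rcases n with _ | n
  · exact ⟨b.equiv b' (Equiv.refl _), niclass_ext B B' b _ fun i => i.elim0⟩
  obtain ⟨η, hη0, hη, -, -, -⟩ := exists_eta F E
  have hV : Module.finrank E V = n + 1 := by
    rw [Module.finrank_eq_card_basis b, Fintype.card_fin]
  have hV' : Module.finrank E V' = n + 1 := by
    rw [Module.finrank_eq_card_basis b', Fintype.card_fin]
  obtain ⟨v, hv1, hv2, hv3⟩ := niclass_normal F η hη0 hη n V B hV
  obtain ⟨v', hv1', hv2', hv3'⟩ := niclass_normal F η hη0 hη n V' B' hV'
  obtain ⟨c1, hc1, e1⟩ := gram_change B b v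
  obtain ⟨c2, hc2, e2⟩ := gram_change B' b' v'
  have d1 := niclass_det B η v hv1 hv2
  have d2 := niclass_det B' η v' hv1' hv2'
  have hst : ∀ x : E, x ≠ 0 → star x ≠ 0 := fun x hx h0 => hx (by rw [← star_star x, h0, star_zero])
  set k : E := c2 * c / c1 with hk
  have hk0 : k ≠ 0 := div_ne_zero (mul_ne_zero hc2 hc) hc1
  have hrel : B'.ip (v' (Fin.last n)) (v' (Fin.last n)) =
      k * star k * B.ip (v (Fin.last n)) (v (Fin.last n)) := by
    have h3 := hst c1 hc1
    have hηn : η ^ n ≠ 0 := pow_ne_zero n hη0
    refine mul_left_cancel₀ hηn ?_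
    rw [← d2, e2, h]
    have e3 : (gram B b).det = (gram B v).det / (c1 * star c1) := by
      rw [e1]
      field_simp
    rw [e3, d1, hk, star_div₀, star_mul']
    field_simp
  set w : Fin (n + 1) → E := fun i => if i = Fin.last n then k⁻¹ else 1 with hw
  have hwu : ∀ i, IsUnit (w i) := by
    intro i
    rw [hw]
    simp only
    split_ifs
    · exact (inv_ne_zero hk0).isUnit
    · exact isUnit_one
  refine ⟨v.equiv (v'.isUnitSMul hwu) (Equiv.refl _), niclass_ext B B' v _ fun i j => ?_⟩
  rw [Module.Basis.equiv_apply, Module.Basis.equiv_apply, Equiv.refl_apply, Equiv.refl_apply,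
    Module.Basis.isUnitSMul_apply, Module.Basis.isUnitSMul_apply, B'.smul_left, B'.smul_right]
  by_cases hij : i = j
  · subst hij
    refine Fin.lastCases ?_ (fun i' => ?_) i
    · rw [hrel]
      have h4 : w (Fin.last n) = k⁻¹ := by
        rw [hw]
        simp
      have h5 := hst k hk0
      rw [h4, star_inv₀]
      field_simp
    · have h4 : w i'.castSucc = 1 := by
        rw [hw]
        simp only
        rw [if_neg (Fin.castSucc_lt_last i').ne]
      rw [h4, star_one, one_mul, one_mul, hv2', hv2]
  · rw [hv1' i j hij, hv1 i j hij, mul_zero, mul_zero]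

end

end Pool.Agent.Work.MP_dd0ddf_al
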