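import Pool.Agent.Work.MP_dd0ddf_al.KDefs
import Pool.Agent.Work.MP_dd0ddf_al.NiClass

/-!
# MP_dd0ddf_al, module KForm: transfer of skew-Hermitian forms between L and E

`exists_BL`: for `v, w ∈ V` the E-linear functional `x ↦ B.ip (x • v) w` on `L` is `x ↦ Tr_{L/E}(x c)` for a unique `c =: BL.ip v w` (the trace form of L/E is nondegenerate, char 0).  Hypothesis `hx`: multiplication by
`x ∈ L` has adjoint multiplication by `star x`.  `BL` is L-linear in v, skew-Hermitian.
`disc_transfer`: Let `b : Basis (Fin r) L V`, `c : Basis (Fin d) F K`, `c'` the corresponding basis of L/E (kc_basis); then `c'_j b_i` is an E-basis of V and the Gram determinant of `B = Tr_{L/E} BL` in it is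
`N_{L/E}(det gram BL b) D^r`, `D = det (Tr_{K/F}(c_j c_k)) ∈ F^×`.  (The E-linear endomorphism of L^r given by the matrix gram BL b has determinant N_{L/E}(det): Mathlib `LinearMap.det_restrictScalars`;
the standard form `Tr_{L/E}(∑ x_i star y_i)` has Gram determinant D^r.)
Stated as: for two forms `BL, BL'` on L-spaces V, V' of the same dimension r, the quotient of the E-Gram determinants is `N_{L/E}` of the quotient of the L-Gram determinants (in suitable bases).
-/

set_option linter.unusedSectionVars false
set_option linter.style.haveILetI false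

namespace Pool.Agent.Work.MP_dd0ddf_al

noncomputable section

universe u

variable {F E : Type u} [NontriviallyNormedField F] [IsUltrametricDist F] [ProperSpace F]
  [CharZero F] [NontriviallyNormedField E] [NormedAlgebra F E] [ProperSpace E] [StarRing E]
  [QExt F E] 
variable {K L : Type u} [NontriviallyNormedField K] [IsUltrametricDist K] [ProperSpace K]
  [CharZero K] [NontriviallyNormedField L] [NormedAlgebra K L] [ProperSpace L] [StarRing L]
  [QExt K L]  [NormedAlgebra F K] [NormedAlgebra E L]
  [Algebra F L] [KCompat F E K L]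
variable {V : Type u} [AddCommGroup V] [Module E V] [Module L V] [IsScalarTower E L V]
  [Module.Finite E V] [Module.Finite L V] [TopologicalSpace V]
  [IsTopologicalAddGroup V] [T2Space V] [ContinuousSMul E V] [ContinuousSMul L V]

variable (F E K L) in
include F K in
private theorem kform_fdE : FiniteDimensional E L := by
  haveI : FiniteDimensional F K := KCompat.fd (F := F) (E := E) (K := K) (L := L)
  apply FiniteDimensional.of_finrank_pos
  rw [← KCompat.deg (F := F) (E := E) (K := K) (L := L)]
  exact Module.finrank_pos

variable (F E K L) in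
include F K in
private theorem kform_uniq (x y : L)
    (h : ∀ z : L, Algebra.trace E L (z * x) = Algebra.trace E L (z * y)) : x = y := by
  classical
  haveI := kform_fdE F E K L
  haveI : CharZero E := charZero_of_injective_algebraMap (algebraMap F E).injective
  have h1 := traceForm_nondegenerate E L
  rw [← sub_eq_zero]
  by_contra h0
  have h2 : ∀ z : L, Algebra.trace E L (z * (x - y)) = 0 := by
    intro z
    rw [mul_sub, map_sub, h, sub_self]
  obtain ⟨w, hw⟩ := Algebra.trace_surjective E L 1
  have h3 := h2 (w * (x - y)⁻¹)
  rw [mul_assoc, inv_mul_cancel₀ h0, mul_one, hw] at h3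
  exact one_ne_zero h3

variable (F E K L) in
include F K in
private theorem kform_repr (l : L →ₗ[E] E) : ∃ c : L, ∀ x : L,
    Algebra.trace E L (x * c) = l x := by
  classical
  haveI := kform_fdE F E K L
  haveI : CharZero E := charZero_of_injective_algebraMap (algebraMap F E).injective
  let b := Module.finBasis E L
  refine ⟨∑ j, l (b j) • b.traceDual j, fun x => ?_⟩
  have h1 : (Algebra.trace E L) ∘ₗ (LinearMap.mulRight E (∑ j, l (b j) • b.traceDual j)) = l := by
    apply b.ext
    intro i
    show Algebra.trace E L (b i * ∑ j, l (b j) • b.traceDual j) = l (b i)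
    rw [Finset.mul_sum, map_sum, Finset.sum_eq_single i]
    · rw [mul_smul_comm, map_smul, b.trace_mul_traceDual, if_pos rfl, smul_eq_mul, mul_one]
    · intro j _ hj
      rw [mul_smul_comm, map_smul, b.trace_mul_traceDual, if_neg (Ne.symm hj), smul_zero]
    · intro hi
      exact absurd (Finset.mem_univ i) hi
  exact LinearMap.congr_fun h1 x

variable (F K) in
include F K in
theorem exists_BL (B : SkewH E V)
    (hx : ∀ (x : L) (v w : V), B.ip (x • v) w = B.ip v (star x • w)) :
    ∃ BL : SkewH L V, ∀ v w, Algebra.trace E L (BL.ip v w) = B.ip v w := by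
  have h0 : ∀ v w : V, ∃ c : L, ∀ x : L, Algebra.trace E L (x * c) = B.ip (x • v) w := by
    intro v w
    refine kform_repr F E K L
      { toFun := fun x => B.ip (x • v) w
        map_add' := fun x y => by rw [add_smul, B.add_left]
        map_smul' := fun a x => by rw [smul_assoc, B.smul_left, RingHom.id_apply, smul_eq_mul] }
  choose c hc using h0
  refine ⟨{ ip := c
            add_left := fun u v w => ?_
            smul_left := fun a v w => ?_
            skew := fun v w => ?_
            nondeg := fun v hv => ?_ }, fun v w => ?_⟩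
  · apply kform_uniq F E K L
    intro z
    rw [hc, mul_add, map_add, hc, hc, smul_add, B.add_left]
  · apply kform_uniq F E K L
    intro z
    rw [hc, ← mul_assoc, hc, smul_smul]
  · apply kform_uniq F E K L
    intro z
    rw [hc, B.skew v (z • w), mul_neg, map_neg]
    congr 1
    have h1 : B.ip v (z • w) = B.ip (star z • v) w := by
      rw [hx, star_star]
    rw [h1, ← hc, ← kc_trace_star F K, star_mul', star_star]
  · apply B.nondeg
    intro w
    have h1 := hc v w 1
    rw [hv w, mul_zero, map_zero, one_smul] at h1
    exact h1.symm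
  · have h1 := hc v w 1
    rw [one_mul, one_smul] at h1
    exact h1

variable (F E K L) in
private theorem kform_alg (f : F) : algebraMap E L (algebraMap F E f) =
    algebraMap K L (algebraMap F K f) := by
  haveI := KCompat.tower1 (F := F) (E := E) (K := K) (L := L)
  haveI := KCompat.tower2 (F := F) (E := E) (K := K) (L := L)
  rw [← IsScalarTower.algebraMap_apply F E L, ← IsScalarTower.algebraMap_apply F K L]

variable (E L) in
/-- for `c ∈ K`: `Tr_{L/E}(c) = Tr_{K/F}(c)` -/
private theorem kform_trace_K (c : K) : Algebra.trace E L (algebraMap K L c) =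
    algebraMap F E (Algebra.trace F K c) := by
  classical
  haveI : FiniteDimensional F K := KCompat.fd (F := F) (E := E) (K := K) (L := L)
  obtain ⟨b', hb⟩ := kc_basis (E := E) (L := L) (Module.finBasis F K)
  rw [Algebra.trace_eq_matrix_trace b', Algebra.trace_eq_matrix_trace (Module.finBasis F K),
    Matrix.trace, Matrix.trace, map_sum]
  refine Finset.sum_congr rfl fun j _ => ?_
  rw [Matrix.diag_apply, Matrix.diag_apply, Algebra.leftMulMatrix_eq_repr_mul,
    Algebra.leftMulMatrix_eq_repr_mul]
  have h1 : algebraMap K L c * b' j =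
      ∑ i, algebraMap F E ((Module.finBasis F K).repr (c * Module.finBasis F K j) i) • b' i := by
    have h2 := congrArg (algebraMap K L)
      ((Module.finBasis F K).sum_repr (c * Module.finBasis F K j))
    rw [map_mul (algebraMap K L), ← hb, map_sum] at h2
    rw [← h2]
    refine Finset.sum_congr rfl fun i _ => ?_
    rw [Algebra.smul_def, Algebra.smul_def, map_mul (algebraMap K L), ← hb, kform_alg F E K L]
  rw [h1, b'.repr_sum_self]

variable (K) in
include K in
/-- the Gram determinant of the trace form, up to the fixed factor `D^r` -/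
theorem disc_transfer (r : ℕ) : ∃ D : F, D ≠ 0 ∧ ∀ (V : Type u) [AddCommGroup V] [Module E V]
    [Module L V] [IsScalarTower E L V] (B : SkewH E V) (BL : SkewH L V)
    (_ : ∀ v w, Algebra.trace E L (BL.ip v w) = B.ip v w) (b : Module.Basis (Fin r) L V),
    ∃ (n : ℕ) (b' : Module.Basis (Fin n) E V), n = r * Module.finrank E L ∧
      (gram B b').det = algebraMap F E D * Algebra.norm E (gram BL b).det := by
  classical
  haveI : FiniteDimensional F K := KCompat.fd (F := F) (E := E) (K := K) (L := L)
  let c := Module.finBasis F K
  obtain ⟨c', hc'⟩ := kc_basis (E := E) (L := L) c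
  have hstar : ∀ i, star (c' i) = c' i := fun i => by
    rw [hc', QExt.star_alg (F := K) (E := L)]
  refine ⟨(Algebra.traceMatrix F c).det ^ r, pow_ne_zero r ?_, ?_⟩
  · rw [Algebra.traceMatrix_of_basis]
    exact det_traceForm_ne_zero c
  intro V _ _ _ _ B BL h b
  let b0 : Module.Basis (Fin r × Fin (Module.finrank F K)) E V := c'.smulTower' b
  have hb0 : ∀ p, b0 p = c' p.2 • b p.1 := fun p => Module.Basis.smulTower'_apply _ _ _
  refine ⟨r * Module.finrank F K, b0.reindex finProdFinEquiv, ?_, ?_⟩
  · rw [KCompat.deg (F := F) (E := E) (K := K) (L := L)]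
  set T0 : Matrix (Fin (Module.finrank F K)) (Fin (Module.finrank F K)) E :=
    (Algebra.traceMatrix F c).map (algebraMap F E) with hT0
  set f : L →+* Matrix (Fin (Module.finrank F K)) (Fin (Module.finrank F K)) E :=
    (Algebra.leftMulMatrix c').toRingHom with hf
  have h1 : gram B (b0.reindex finProdFinEquiv) =
      (gram B b0).submatrix finProdFinEquiv.symm finProdFinEquiv.symm := by
    ext i j
    show B.ip (b0.reindex finProdFinEquiv i) (b0.reindex finProdFinEquiv j) =
      B.ip (b0 (finProdFinEquiv.symm i)) (b0 (finProdFinEquiv.symm j))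
    rw [Module.Basis.reindex_apply, Module.Basis.reindex_apply]
  have h2 : gram B b0 = Matrix.kroneckerMap (· * ·) (1 : Matrix (Fin r) (Fin r) E) T0 *
      ((gram BL b).map f).comp (Fin r) (Fin r) (Fin (Module.finrank F K))
        (Fin (Module.finrank F K)) E := by
    ext ⟨i, j⟩ ⟨k, l⟩
    rw [Matrix.mul_apply, Fintype.sum_prod_type, Finset.sum_eq_single i]
    · show B.ip (b0 (i, j)) (b0 (k, l)) = ∑ m, (1 : Matrix (Fin r) (Fin r) E) i i * T0 j m *
        (Algebra.leftMulMatrix c' (BL.ip (b i) (b k))) m l
      rw [hb0, hb0, ← h, BL.smul_left, BL.smul_right, hstar]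
      have h3 : BL.ip (b i) (b k) * c' l =
          ∑ m, (Algebra.leftMulMatrix c' (BL.ip (b i) (b k))) m l • c' m := by
        conv_lhs => rw [← c'.sum_repr (BL.ip (b i) (b k) * c' l)]
        refine Finset.sum_congr rfl fun m _ => ?_
        rw [Algebra.leftMulMatrix_eq_repr_mul]
      rw [mul_comm (c' l), h3, Finset.mul_sum, map_sum]
      refine Finset.sum_congr rfl fun m _ => ?_
      rw [mul_smul_comm, map_smul, Matrix.one_apply_eq, one_mul, smul_eq_mul, mul_comm (T0 j m)]
      congr 1
      rw [hc', hc', ← map_mul, kform_trace_K (F := F) E L]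
      rfl
    · intro i' _ hi'
      refine Finset.sum_eq_zero fun m _ => ?_
      rw [Matrix.kroneckerMap_apply, Matrix.one_apply_ne (Ne.symm hi'), zero_mul, zero_mul]
    · intro hi
      exact absurd (Finset.mem_univ i) hi
  rw [h1, Matrix.det_submatrix_equiv_self, h2, Matrix.det_mul, Matrix.det_kronecker,
    Matrix.det_one, one_pow, one_mul, ← Matrix.det_det]
  congr 1
  · rw [map_pow, hT0, Fintype.card_fin, RingHom.map_det]
    rfl
  · rw [Algebra.norm_eq_matrix_det c']
    rfl

end

end Pool.Agent.Work.MP_dd0ddf_al
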