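import Pool.Agent.Work.MP_dd0ddf_al.PrjOrb
import Pool.Agent.Work.MP_dd0ddf_al.PrimDec
import Pool.Agent.Work.MP_dd0ddf_al.GDefs

/-!
# MP_dd0ddf_al, module PrjGP: the projectors e(g g^*) and e(g^* g) are conjugate under U(V)

`P = q^m P'`, `m` even, `e ∈ F[x]` with `q^m ∣ e - 1`, `P' ∣ e`.  `eSA`: `e(g g^*)`, `e(g^* g)` are self-adjoint (e ∈ F[x]), idempotents of rank `m deg q` (prim_idem, prim_charpoly; charpoly(g^* g) = charpoly(g g^*) = P).
Let `u` be a basis of `range e(g^* g)`; `g u` is a basis of `range e(g g^*)` (`g e(g^* g) = e(g g^*) g`), `⟨g u_i, g u_j⟩ = ⟨g^* g u_i, u_j⟩`, so the Gram determinants differ by the factor `det(g^* g | range) = (-1)^{m d} q(0)^m = (q(0)^{m/2})²` (charpoly of the restriction is q^m, m even) `= c star c` with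
`c = q(0)^{m/2} ∈ F^×`.  Then `prj_disc`.
-/

set_option linter.unusedSectionVars false
set_option linter.style.haveILetI false

namespace Pool.Agent.Work.MP_dd0ddf_al

noncomputable section

universe u

variable {F E : Type u} [NontriviallyNormedField F] [IsUltrametricDist F] [ProperSpace F]
  [CharZero F] [NontriviallyNormedField E] [NormedAlgebra F E] [ProperSpace E] [StarRing E]
  [QExt F E] [MeasurableSpace E] [BorelSpace E]
variable {V : Type u} [AddCommGroup V] [Module E V] [Module.Finite E V] [TopologicalSpace V]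
  [IsTopologicalAddGroup V] [T2Space V] [ContinuousSMul E V]

private theorem prjgp_zl (B : SkewH E V) (w : V) : B.ip 0 w = 0 := by
  have h := B.smul_left 0 0 w
  rwa [zero_smul, zero_mul] at h

private theorem prjgp_sa (B : SkewH E V) (X : Module.End E V) (hX : adj B X = X)
    (e : Polynomial F) : Polynomial.aeval X (e.map (algebraMap F E)) ∈ SA B := by
  have hX' : X ∈ SA B := sa_of_adj B hX
  induction e using Polynomial.induction_on' with
  | add f g hf hg =>
    rw [Polynomial.map_add, map_add]
    exact (SA B).add_mem hf hg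
  | monomial k c =>
    rw [Polynomial.map_monomial, Polynomial.aeval_monomial, ← Algebra.smul_def]
    have hpow : ∀ (k : ℕ) (v w : V), B.ip ((X ^ k) v) w = B.ip v ((X ^ k) w) := by
      intro k
      induction k with
      | zero => intro v w; rfl
      | succ k ih =>
        intro v w
        rw [pow_succ', Module.End.mul_apply, hX', ih, ← Module.End.mul_apply, ← pow_succ,
          pow_succ']
    intro v w
    rw [LinearMap.smul_apply, LinearMap.smul_apply, B.smul_left, B.smul_right, hpow,
      QExt.star_alg]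

private theorem prjgp_conj (h : GV E V) (X : Module.End E V) (P : Polynomial E) :
    Polynomial.aeval (h.1 * X * h⁻¹.1) P = h.1 * Polynomial.aeval X P * h⁻¹.1 := by
  have h1 : h⁻¹.1 * h.1 = 1 := h.inv_mul
  have h2 : h.1 * h⁻¹.1 = 1 := h.mul_inv
  induction P using Polynomial.induction_on' with
  | add f g hf hg => rw [map_add, map_add, hf, hg, mul_add, add_mul]
  | monomial k c =>
    have hpow : (h.1 * X * h⁻¹.1) ^ k = h.1 * X ^ k * h⁻¹.1 := by
      induction k with
      | zero => rw [pow_zero, pow_zero, mul_one, h2]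
      | succ k ih =>
        rw [pow_succ, ih, pow_succ]
        calc h.1 * X ^ k * h⁻¹.1 * (h.1 * X * h⁻¹.1)
            = h.1 * X ^ k * (h⁻¹.1 * h.1) * X * h⁻¹.1 := by simp only [mul_assoc]
          _ = h.1 * (X ^ k * X) * h⁻¹.1 := by rw [h1, mul_one]; simp only [mul_assoc]
    rw [Polynomial.aeval_monomial, Polynomial.aeval_monomial, hpow, ← Algebra.smul_def,
      ← Algebra.smul_def, mul_smul_comm, smul_mul_assoc]

private theorem prjgp_tau {B : SkewH E V} (τ : AntiU B) (X : Module.End E V)
    (e : Polynomial F) : Polynomial.aeval (conjτ τ X) (e.map (algebraMap F E)) =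
      conjτ τ (Polynomial.aeval X (e.map (algebraMap F E))) := by
  induction e using Polynomial.induction_on' with
  | add f g hf hg =>
    rw [Polynomial.map_add, map_add, map_add, hf, hg]
    ext v
    show τ.t _ + τ.t _ = τ.t (_ + _)
    rw [τ.add]
  | monomial k c =>
    rw [Polynomial.map_monomial, Polynomial.aeval_monomial, Polynomial.aeval_monomial,
      ← Algebra.smul_def, ← Algebra.smul_def]
    have hpow : (conjτ τ X) ^ k = conjτ τ (X ^ k) := by
      induction k with
      | zero => rw [pow_zero, pow_zero, conjτ_one]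
      | succ k ih => rw [pow_succ, pow_succ, conjτ_mul, ih]
    rw [hpow]
    ext v
    show algebraMap F E c • τ.t ((X ^ k) (τ.t v)) = τ.t (algebraMap F E c • (X ^ k) (τ.t v))
    rw [τ.smul, QExt.star_alg]

private theorem prjgp_cont (P : Polynomial E) :
    Continuous (fun X : Module.End E V => Polynomial.aeval X P) := by
  haveI : IsTopologicalSemiring (Module.End E V) := {}
  exact P.continuous_aeval

private theorem prjgp_comm (g h : Module.End E V) (P : Polynomial E) :
    g * Polynomial.aeval (h * g) P = Polynomial.aeval (g * h) P * g := by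
  induction P using Polynomial.induction_on' with
  | add f f' hf hf' => rw [map_add, map_add, mul_add, add_mul, hf, hf']
  | monomial k c =>
    have hpow : g * (h * g) ^ k = (g * h) ^ k * g := by
      induction k with
      | zero => rw [pow_zero, pow_zero, mul_one, one_mul]
      | succ k ih =>
        rw [pow_succ, ← mul_assoc, ih, pow_succ]
        simp only [mul_assoc]
    rw [Polynomial.aeval_monomial, Polynomial.aeval_monomial, ← Algebra.smul_def,
      ← Algebra.smul_def, mul_smul_comm, smul_mul_assoc, hpow]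

private theorem prjgp_charpoly (g h : Module.End E V) :
    LinearMap.charpoly (g * h) = LinearMap.charpoly (h * g) := by
  classical
  let b := Module.finBasis E V
  rw [← LinearMap.charpoly_toMatrix (g * h) b, ← LinearMap.charpoly_toMatrix (h * g) b,
    LinearMap.toMatrix_mul, LinearMap.toMatrix_mul, Matrix.charpoly_mul_comm]

/-- `e(g g^*)` -/
def eL (B : SkewH E V) (e : Polynomial F) (g : GV E V) : SA B :=
  ⟨Polynomial.aeval (g.1 * adj B g.1) (e.map (algebraMap F E)), by
    apply prjgp_sa
    rw [adj_mul, adj_adj]⟩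

/-- `e(g^* g)` -/
def eR (B : SkewH E V) (e : Polynomial F) (g : GV E V) : SA B :=
  ⟨Polynomial.aeval (adj B g.1 * g.1) (e.map (algebraMap F E)), by
    apply prjgp_sa
    rw [adj_mul, adj_adj]⟩

theorem continuous_eL (B : SkewH E V) (e : Polynomial F) : Continuous (eL B e) := by
  refine Continuous.subtype_mk ?_ _
  exact (prjgp_cont _).comp (Units.continuous_val.mul
    ((continuous_adj F B).comp Units.continuous_val))

theorem continuous_eR (B : SkewH E V) (e : Polynomial F) : Continuous (eR B e) := by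
  refine Continuous.subtype_mk ?_ _
  exact (prjgp_cont _).comp (((continuous_adj F B).comp Units.continuous_val).mul
    Units.continuous_val)

theorem eL_act (B : SkewH E V) (e : Polynomial F) (γ : UU B × UU B) (g : GV E V) :
    eL B e ((gC B).act γ g) = saConj B γ.1 (eL B e g) := by
  have h1 := congrArg Subtype.val (sg_act B γ.1 γ.2 g)
  apply Subtype.ext
  show Polynomial.aeval (sg B ((gC B).act γ g)).1 (e.map (algebraMap F E)) = _
  have h2 : (sg B ((gC B).act γ g)).1 = γ.1.1.1 * (g.1 * adj B g.1) * γ.1.1⁻¹.1 := h1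
  rw [h2, prjgp_conj]
  rfl

theorem eR_act (B : SkewH E V) (e : Polynomial F) (γ : UU B × UU B) (g : GV E V) :
    eR B e ((gC B).act γ g) = saConj B γ.2 (eR B e g) := by
  apply Subtype.ext
  show Polynomial.aeval (adj B (γ.1.1.1 * g.1 * γ.2.1⁻¹.1) * (γ.1.1.1 * g.1 * γ.2.1⁻¹.1))
    (e.map (algebraMap F E)) = _
  have h2 : adj B (γ.1.1.1 * g.1 * γ.2.1⁻¹.1) * (γ.1.1.1 * g.1 * γ.2.1⁻¹.1) =
      γ.2.1.1 * (adj B g.1 * g.1) * γ.2.1⁻¹.1 := by
    rw [adj_mul, adj_mul, uu_adj, uu_adj_inv]
    have h3 : γ.1.1⁻¹.1 * γ.1.1.1 = 1 := γ.1.1.inv_mul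
    calc γ.2.1.1 * (adj B g.1 * γ.1.1⁻¹.1) * (γ.1.1.1 * g.1 * γ.2.1⁻¹.1)
        = γ.2.1.1 * adj B g.1 * (γ.1.1⁻¹.1 * γ.1.1.1) * (g.1 * γ.2.1⁻¹.1) := by
          simp only [mul_assoc]
      _ = γ.2.1.1 * (adj B g.1 * g.1) * γ.2.1⁻¹.1 := by
          rw [h3, mul_one]
          simp only [mul_assoc]
  rw [h2, prjgp_conj]
  rfl

theorem eL_thG {B : SkewH E V} (τ : AntiU B) (e : Polynomial F) (g : GV E V) :
    (eL B e (thG τ g)).1 = conjτ τ (eR B e g).1 := by
  show Polynomial.aeval (conjτ τ (adj B g.1) * adj B (conjτ τ (adj B g.1)))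
    (e.map (algebraMap F E)) = _
  rw [adj_conjτ, adj_adj, ← conjτ_mul, prjgp_tau]
  rfl

theorem eR_thG {B : SkewH E V} (τ : AntiU B) (e : Polynomial F) (g : GV E V) :
    (eR B e (thG τ g)).1 = conjτ τ (eL B e g).1 := by
  show Polynomial.aeval (adj B (conjτ τ (adj B g.1)) * conjτ τ (adj B g.1))
    (e.map (algebraMap F E)) = _
  rw [adj_conjτ, adj_adj, ← conjτ_mul, prjgp_tau]
  rfl

theorem eL_comm (B : SkewH E V) (e : Polynomial F) (g : GV E V) :
    g.1 * (eR B e g).1 = (eL B e g).1 * g.1 :=
  prjgp_comm g.1 (adj B g.1) _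

theorem eL_prj (B : SkewH E V) (q P' e : Polynomial F) (m : ℕ) (hq : q.Monic) (hP' : P'.Monic)
    (hco : IsCoprime (q ^ m) P') (he : q ^ m ∣ e - 1) (he' : P' ∣ e) (g : GV E V)
    (hg : g ∈ GP B (q ^ m * P')) :
    eL B e g ∈ Prj B (m * q.natDegree) ∧ eR B e g ∈ Prj B (m * q.natDegree) := by
  have hQ : ((q ^ m).map (algebraMap F E)).Monic := (hq.pow m).map _
  have hR : (P'.map (algebraMap F E)).Monic := hP'.map _
  have hco' : IsCoprime ((q ^ m).map (algebraMap F E)) (P'.map (algebraMap F E)) :=
    hco.map (Polynomial.mapRingHom (algebraMap F E))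
  have h1 : (q ^ m).map (algebraMap F E) ∣ e.map (algebraMap F E) - 1 := by
    have := Polynomial.map_dvd (algebraMap F E) he
    rwa [Polynomial.map_sub, Polynomial.map_one] at this
  have h2 : P'.map (algebraMap F E) ∣ e.map (algebraMap F E) := Polynomial.map_dvd _ he'
  have hdeg : ((q ^ m).map (algebraMap F E)).natDegree = m * q.natDegree := by
    rw [Polynomial.natDegree_map, hq.natDegree_pow]
  have key : ∀ s : Module.End E V, LinearMap.charpoly s = (q ^ m * P').map (algebraMap F E) →
      Polynomial.aeval s (e.map (algebraMap F E)) * Polynomial.aeval s (e.map (algebraMap F E)) =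
        Polynomial.aeval s (e.map (algebraMap F E)) ∧
      Module.finrank E (LinearMap.range (Polynomial.aeval s (e.map (algebraMap F E)))) =
        m * q.natDegree := by
    intro s hs
    rw [Polynomial.map_mul] at hs
    refine ⟨prim_idem s _ _ _ hs h1 h2, ?_⟩
    rw [(prim_charpoly s _ _ _ hQ hR hco' hs h1 h2).2, hdeg]
  have hg' : LinearMap.charpoly (g.1 * adj B g.1) = (q ^ m * P').map (algebraMap F E) := hg
  exact ⟨key _ hg', key _ (by rw [prjgp_charpoly]; exact hg')⟩

theorem eLR_conj (B : SkewH E V) (q P' e : Polynomial F) (m : ℕ) (hm : Even m) (hq : q.Monic)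
    (hq0 : q.coeff 0 ≠ 0) (hP' : P'.Monic)
    (hco : IsCoprime (q ^ m) P') (he : q ^ m ∣ e - 1) (he' : P' ∣ e) (g : GV E V)
    (hg : g ∈ GP B (q ^ m * P')) : ∃ h : UU B, saConj B h (eL B e g) = eR B e g := by
  classical
  obtain ⟨hX, hY⟩ := eL_prj B q P' e m hq hP' hco he he' g hg
  have hQ : ((q ^ m).map (algebraMap F E)).Monic := (hq.pow m).map _
  have hR : (P'.map (algebraMap F E)).Monic := hP'.map _
  have hco' : IsCoprime ((q ^ m).map (algebraMap F E)) (P'.map (algebraMap F E)) :=
    hco.map (Polynomial.mapRingHom (algebraMap F E))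
  have h1 : (q ^ m).map (algebraMap F E) ∣ e.map (algebraMap F E) - 1 := by
    have := Polynomial.map_dvd (algebraMap F E) he
    rwa [Polynomial.map_sub, Polynomial.map_one] at this
  have h2 : P'.map (algebraMap F E) ∣ e.map (algebraMap F E) := Polynomial.map_dvd _ he'
  set s : Module.End E V := adj B g.1 * g.1 with hs
  have hg' : LinearMap.charpoly s = (q ^ m).map (algebraMap F E) * P'.map (algebraMap F E) := by
    rw [hs, prjgp_charpoly, ← Polynomial.map_mul]
    exact hg
  set N := s.restrict (prim_stable s (e.map (algebraMap F E))) with hN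
  have hNc : LinearMap.charpoly N = (q ^ m).map (algebraMap F E) :=
    (prim_charpoly s _ _ _ hQ hR hco' hg' h1 h2).1
  have hfin : Module.finrank E (LinearMap.range (Polynomial.aeval s (e.map (algebraMap F E)))) =
      m * q.natDegree := hY.2
  have bw : Module.Basis (Fin (m * q.natDegree)) E
      (LinearMap.range (Polynomial.aeval s (e.map (algebraMap F E)))) :=
    Module.finBasisOfFinrankEq _ _ hfin
  set M := LinearMap.toMatrix bw bw N with hM
  have hdetM : M.det = (algebraMap F E) (q.coeff 0 ^ m) := by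
    rw [hM, LinearMap.det_toMatrix, LinearMap.det_eq_sign_charpoly_coeff, hNc, hfin,
      Polynomial.coeff_map, Polynomial.coeff_zero_eq_eval_zero, Polynomial.eval_pow,
      ← Polynomial.coeff_zero_eq_eval_zero]
    obtain ⟨k, hk⟩ := hm
    have h3 : (-1 : E) ^ (m * q.natDegree) = 1 := by
      rw [hk, ← two_mul, mul_assoc, pow_mul]
      norm_num
    rw [h3, one_mul]
  have hw : ∀ i, (eR B e g).1 (bw i : V) = (bw i : V) := by
    intro i
    obtain ⟨a, ha⟩ := (bw i).2
    rw [← ha]
    exact LinearMap.congr_fun hY.1 a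
  have hu : ∀ i, (eL B e g).1 (g.1 (bw i : V)) = g.1 (bw i : V) := by
    intro i
    have h4 := LinearMap.congr_fun (eL_comm B e g) (bw i : V)
    rw [Module.End.mul_apply, Module.End.mul_apply, hw] at h4
    exact h4.symm
  have hwi : LinearIndependent E (fun i => (bw i : V)) := by
    have := bw.linearIndependent.map' (Submodule.subtype _) (Submodule.ker_subtype _)
    exact this
  have hui : LinearIndependent E (fun i => g.1 (bw i : V)) := by
    refine hwi.map' g.1 ?_
    rw [LinearMap.ker_eq_bot]
    intro a b hab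
    have h5 : ∀ a, g⁻¹.1 (g.1 a) = a := fun a =>
      congrArg (fun f : Module.End E V => f a) g.inv_mul
    rw [← h5 a, ← h5 b]
    exact congrArg _ hab
  have hsw : ∀ j, s (bw j : V) = ∑ k, M k j • (bw k : V) := by
    intro j
    have h6 : N (bw j) = ∑ k, bw.repr (N (bw j)) k • bw k := (bw.sum_repr _).symm
    have h7 : s (bw j : V) = (N (bw j) : V) := rfl
    rw [h7, h6, Submodule.coe_sum]
    refine Finset.sum_congr rfl fun k _ => ?_
    rw [hM, LinearMap.toMatrix_apply]
    rfl
  have hsr : ∀ (v : V) (c : Fin (m * q.natDegree) → E) (f : Fin (m * q.natDegree) → V),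
      B.ip v (∑ k, c k • f k) = ∑ k, star (c k) * B.ip v (f k) := by
    intro v c f
    have h8 := map_sum (B.lin v) (fun k => c k • f k) Finset.univ
    simp only [map_smul] at h8
    have h9 : B.ip (∑ k, c k • f k) v = ∑ k, c k * B.ip (f k) v := h8
    rw [B.skew _ v, h9, star_sum, ← Finset.sum_neg_distrib]
    refine Finset.sum_congr rfl fun k _ => ?_
    rw [star_mul', B.skew (f k) v]
    ring
  have hgram : gram B (fun i => g.1 (bw i : V)) =
      gram B (fun i => (bw i : V)) * M.map (starRingEnd E) := by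
    ext i j
    rw [Matrix.mul_apply]
    show B.ip (g.1 (bw i : V)) (g.1 (bw j : V)) = _
    rw [adj_spec]
    have h10 : adj B g.1 (g.1 (bw j : V)) = s (bw j : V) := rfl
    rw [h10, hsw, hsr]
    refine Finset.sum_congr rfl fun k _ => ?_
    rw [Matrix.map_apply, mul_comm]
    rfl
  have hdetM' : (M.map (starRingEnd E)).det = (algebraMap F E) (q.coeff 0 ^ m) := by
    have h11 := RingHom.map_det (starRingEnd E) M
    rw [RingHom.mapMatrix_apply] at h11
    rw [← h11, hdetM]
    exact QExt.star_alg _
  obtain ⟨k, hk⟩ := hm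
  set c : E := (algebraMap F E) ((q.coeff 0 ^ k)⁻¹) with hc
  have hqk : q.coeff 0 ^ k ≠ 0 := pow_ne_zero k hq0
  have hc0 : c ≠ 0 := (map_ne_zero (algebraMap F E)).2 (inv_ne_zero hqk)
  refine prj_disc F B (m * q.natDegree) (eL B e g) (eR B e g) hX hY
    (fun i => g.1 (bw i : V)) (fun i => (bw i : V)) hui hwi hu hw c hc0 ?_
  rw [hgram, Matrix.det_mul, hdetM', hc, QExt.star_alg, mul_comm (gram B _).det, ← mul_assoc,
    ← map_mul, ← map_mul]
  have h12 : (q.coeff 0 ^ k)⁻¹ * (q.coeff 0 ^ k)⁻¹ * q.coeff 0 ^ m = 1 := by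
    rw [hk, pow_add]
    field_simp
  rw [h12, map_one, one_mul]

end

end Pool.Agent.Work.MP_dd0ddf_al
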