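import Pool.Agent.Work.MP_dd0ddf_al.FourSpan

/-!
# MP_dd0ddf_al, module SchurSF: operators on `SF U` commuting with translations and modulations are scalars

`P` commutes with multiplication by every locally constant function (`mod_span` on a compact set containing the supports of `f` and
`P f`).  Hence `(P f) 0 = 0` if `f 0 = 0` (multiply `f` by the indicator function of `f ≠ 0`), so `(P f) 0 = c (f 0)`, and
`(P f) a = c (f a)` by translation.
`spans`: a nonzero subspace `N` of `SF U ℂ` stable under translations and modulations is everything: stable under multiplication by locally constant functions by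
`mod_span`; contains for every `x` some `f` with `f = 1` near `x`, hence all `single K b`, `K` small near `x`.
-/

set_option linter.unusedSectionVars false
set_option linter.style.haveILetI false

namespace Pool.Agent.Work.MP_dd0ddf_al

noncomputable section

variable {U : Type*} [AddCommGroup U] [TopologicalSpace U] [IsTopologicalAddGroup U]
  [LocallyCompactSpace U] [T2Space U] [TotallyDisconnectedSpace U]
  {X : Type*} [TopologicalSpace X] [T2Space X] [LocallyCompactSpace X]
  [TotallyDisconnectedSpace X]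
  {B B' : Type*} [AddCommGroup B] [Module ℂ B] [AddCommGroup B'] [Module ℂ B']

/-- on a compact set multiplication by `c` is a combination of modulations -/
private theorem schursf_comb (χ : BiChar U) (s : Finset U) (a : U → ℂ) (f : SF U ℂ) (x : U) :
    (∑ w ∈ s, a w • SF.mulc (fun v => χ.χ v w) (χ.lcl w) f : SF U ℂ) x =
      (∑ w ∈ s, a w * χ.χ x w) * f x := by
  show (∑ w ∈ s, a w • SF.mulc (fun v => χ.χ v w) (χ.lcl w) f : SF U ℂ).1 x = _
  rw [Submodule.coe_sum, Finset.sum_apply, Finset.sum_mul]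
  refine Finset.sum_congr rfl fun w _ => ?_
  show a w • (χ.χ x w • f x) = a w * χ.χ x w * f x
  rw [smul_eq_mul, smul_eq_mul, mul_assoc]

private theorem schursf_supp (f : SF U ℂ) {x : U} (hx : x ∉ tsupport f.1) : f x = 0 :=
  image_eq_zero_of_notMem_tsupport hx

private theorem schursf_mulc (χ : BiChar U) (c : U → ℂ) (hc : IsLocallyConstant c)
    (K : Set U) (f : SF U ℂ) (hf : tsupport f.1 ⊆ K) (s : Finset U) (a : U → ℂ)
    (h : ∀ v ∈ K, c v = ∑ w ∈ s, a w * χ.χ v w) :
    SF.mulc c hc f = ∑ w ∈ s, a w • SF.mulc (fun v => χ.χ v w) (χ.lcl w) f := by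
  apply SF.ext
  intro x
  rw [schursf_comb]
  show c x • f x = _
  by_cases hx : x ∈ tsupport f.1
  · rw [h x (hf hx), smul_eq_mul]
  · rw [schursf_supp f hx, smul_zero, mul_zero]

private theorem schursf_comm (χ : BiChar U) (hU : UnionCompact U) (P : SF U ℂ →ₗ[ℂ] SF U ℂ)
    (h2 : ∀ w f, P (SF.mulc (fun v => χ.χ v w) (χ.lcl w) f) =
      SF.mulc (fun v => χ.χ v w) (χ.lcl w) (P f)) (c : U → ℂ) (hc : IsLocallyConstant c)
    (f : SF U ℂ) : P (SF.mulc c hc f) = SF.mulc c hc (P f) := by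
  have hK : IsCompact (tsupport f.1 ∪ tsupport (P f).1) := f.2.2.isCompact.union (P f).2.2.isCompact
  obtain ⟨s, a, h⟩ := mod_span χ hU c hc _ hK
  rw [schursf_mulc χ c hc _ f Set.subset_union_left s a h,
    schursf_mulc χ c hc _ (P f) Set.subset_union_right s a h, map_sum]
  refine Finset.sum_congr rfl fun w _ => ?_
  rw [map_smul, h2]

private theorem schursf_lc (f : SF U ℂ) :
    IsLocallyConstant (fun x => if f x = 0 then (0 : ℂ) else 1) :=
  f.2.1.comp (fun z => if z = 0 then (0 : ℂ) else 1)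

private theorem schursf_exists : ∃ f : SF U ℂ, f 0 = 1 := by
  obtain ⟨L0, hL0, hL0c, -⟩ :=
    exists_co_addSubgroup (Set.univ : Set U) isOpen_univ (Set.mem_univ _)
  exact ⟨SF.single (L0 : Set U) hL0c hL0 1, SF.single_apply_mem _ _ _ _ _ L0.zero_mem⟩

theorem schur_sf (χ : BiChar U) (hU : UnionCompact U) (P : SF U ℂ →ₗ[ℂ] SF U ℂ)
    (h1 : ∀ a f, P (SF.comp (Homeomorph.addRight a) f) = SF.comp (Homeomorph.addRight a) (P f))
    (h2 : ∀ w f, P (SF.mulc (fun v => χ.χ v w) (χ.lcl w) f) =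
      SF.mulc (fun v => χ.χ v w) (χ.lcl w) (P f)) : ∃ c : ℂ, ∀ f, P f = c • f := by
  have hz : ∀ f : SF U ℂ, f 0 = 0 → P f 0 = 0 := by
    intro f hf
    have e : SF.mulc (fun x => if f x = 0 then (0 : ℂ) else 1) (schursf_lc f) f = f := by
      apply SF.ext
      intro x
      show (if f x = 0 then (0 : ℂ) else 1) • f x = f x
      by_cases hx : f x = 0
      · rw [if_pos hx, zero_smul, hx]
      · rw [if_neg hx, one_smul]
    have e2 := schursf_comm χ hU P h2 _ (schursf_lc f) f
    rw [e] at e2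
    rw [e2]
    show (if f 0 = 0 then (0 : ℂ) else 1) • P f 0 = 0
    rw [if_pos hf, zero_smul]
  obtain ⟨f0, hf0⟩ := schursf_exists (U := U)
  have hc : ∀ f : SF U ℂ, P f 0 = P f0 0 * f 0 := by
    intro f
    have h3 := hz (f - f 0 • f0) (by
      show f 0 - f 0 * f0 0 = 0
      rw [hf0, mul_one, sub_self])
    rw [map_sub, map_smul] at h3
    have h4 : P f 0 - f 0 * P f0 0 = 0 := h3
    rw [sub_eq_zero.1 h4, mul_comm]
  refine ⟨P f0 0, fun f => ?_⟩
  apply SF.ext
  intro a
  have h3 := hc (SF.comp (Homeomorph.addRight a) f)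
  rw [h1] at h3
  have h4 : P f (0 + a) = P f0 0 * f (0 + a) := h3
  rw [zero_add] at h4
  exact h4

theorem spans_sf (χ : BiChar U) (hU : UnionCompact U) (N : Submodule ℂ (SF U ℂ)) (hN : N ≠ ⊥)
    (h1 : ∀ a, ∀ f ∈ N, SF.comp (Homeomorph.addRight a) f ∈ N)
    (h2 : ∀ w, ∀ f ∈ N, SF.mulc (fun v => χ.χ v w) (χ.lcl w) f ∈ N) : N = ⊤ := by
  classical
  have hm : ∀ (c : U → ℂ) (hc : IsLocallyConstant c), ∀ f ∈ N, SF.mulc c hc f ∈ N := by
    intro c hc f hf
    obtain ⟨s, a, h⟩ := mod_span χ hU c hc _ f.2.2.isCompact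
    rw [schursf_mulc χ c hc _ f subset_rfl s a h]
    exact N.sum_mem fun w _ => N.smul_mem _ (h2 w f hf)
  obtain ⟨f, hf, hne⟩ := N.ne_bot_iff.1 hN
  have hx : ∃ x, f x ≠ 0 := by
    by_contra hcon
    push Not at hcon
    exact hne (SF.ext hcon)
  obtain ⟨x, hx⟩ := hx
  rw [eq_top_iff]
  intro g _
  refine sf_induction (fun g => g ∈ N) N.zero_mem (fun a b ha hb => N.add_mem ha hb) ?_ g
  intro y
  obtain ⟨g, hg, hgy⟩ : ∃ g ∈ N, g y = 1 := by
    refine ⟨(f x)⁻¹ • SF.comp (Homeomorph.addRight (x - y)) f, N.smul_mem _ (h1 _ f hf), ?_⟩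
    show (f x)⁻¹ * f (y + (x - y)) = 1
    rw [add_sub_cancel, inv_mul_cancel₀ hx]
  refine ⟨{z | g z = 1}, g.2.1.isOpen_fiber 1, hgy, fun K hK hK' b hKW => ?_⟩
  have e : SF.single K hK hK' b = b • SF.ind K ⟨hK.isClosed, hK'⟩ g := by
    apply SF.ext
    intro z
    show SF.single K hK hK' b z = b * SF.ind K ⟨hK.isClosed, hK'⟩ g z
    by_cases hz : z ∈ K
    · rw [SF.single_apply_mem _ _ _ _ _ hz, SF.ind_apply_mem _ _ _ _ hz,
        show g z = 1 from hKW hz, mul_one]
    · rw [SF.single_apply_not_mem _ _ _ _ _ hz, SF.ind_apply_not_mem _ _ _ _ hz, mul_zero]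
  rw [e]
  exact N.smul_mem _ (hm _ _ g hg)

end

end Pool.Agent.Work.MP_dd0ddf_al
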