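import Pool.Agent.Work.MP_dd0ddf_al.Defs2
import Pool.Agent.Work.MP_dd0ddf_al.HaarApi
import Pool.Agent.Work.MP_dd0ddf_al.BiOm
import Pool.Agent.Work.MP_dd0ddf_al.SchurSF
import Pool.Agent.Work.MP_dd0ddf_al.Topo

/-!
# MP_dd0ddf_al, module WfLR: algebra of the Weyl operators

Direct computations with `om` (bilinear over F, `om y x = - om x y`: `⟨y,x⟩ = -conj⟨x,y⟩`, trace is conj-invariant), `2⁻¹ + 2⁻¹ = 1` in F, `ψ` additive.
`L_x f(v) = ψ(½ om(x,v)) f(v-x)`, `R_x f(v) = ψ(½ om(v,x)) f(v-x)`.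
`lop_smooth`: f is invariant under translation by a small subgroup `N`, has compact support `K`; `ψ(½ om(x, v)) = 1` for `v ∈ K + N`, `x` small.
`schur_lr`: an operator commuting with all `L_x, R_x` commutes with translations `L_{x/2}R_{x/2}` and modulations `L_x R_{-x}`: `schur_sf` for `omBi` (`uc_V`).
-/

set_option linter.unusedSectionVars false
set_option linter.style.haveILetI false

namespace Pool.Agent.Work.MP_dd0ddf_al

noncomputable section

universe u

variable {F E : Type u} [NontriviallyNormedField F] [IsUltrametricDist F] [ProperSpace F]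
  [CharZero F] [NontriviallyNormedField E] [NormedAlgebra F E] [ProperSpace E] [StarRing E]
  [QExt F E]
variable {V : Type u} [AddCommGroup V] [Module E V] [Module.Finite E V] [TopologicalSpace V]
  [IsTopologicalAddGroup V] [T2Space V] [ContinuousSMul E V]

theorem om_add_left (B : SkewH E V) (x y z : V) : om F B (x + y) z = om F B x z + om F B y z := by
  unfold om
  rw [B.add_left, map_add]

theorem om_add_right (B : SkewH E V) (x y z : V) : om F B x (y + z) = om F B x y + om F B x z := by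
  unfold om
  rw [B.add_right, map_add]

private theorem wflr_trace_star (x : E) : Algebra.trace F E (star x) = Algebra.trace F E x := by
  let e : E ≃ₐ[F] E :=
    { toFun := fun x => star x
      invFun := fun x => star x
      left_inv := star_star
      right_inv := star_star
      map_mul' := star_mul'
      map_add' := star_add
      commutes' := QExt.star_alg }
  exact Algebra.trace_eq_of_algEquiv e x

theorem om_swap (B : SkewH E V) (x y : V) : om F B y x = - om F B x y := by
  unfold om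
  rw [B.skew x y, map_neg, wflr_trace_star]

theorem om_UU (B : SkewH E V) (h : UU B) (x y : V) :
    om F B (h.1.1 x) (h.1.1 y) = om F B x y := by
  unfold om
  rw [h.2 x y]

theorem om_smul (B : SkewH E V) (t : F) (x y : V) :
    om F B (algebraMap F E t • x) y = t * om F B x y := by
  unfold om
  rw [B.smul_left, ← Algebra.smul_def, map_smul, smul_eq_mul]

private theorem wflr_zero_left (B : SkewH E V) (x : V) : om F B 0 x = 0 := by
  have h := om_add_left (F := F) B 0 0 x
  rw [add_zero] at h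
  exact left_eq_add.1 h

private theorem wflr_zero_right (B : SkewH E V) (x : V) : om F B x 0 = 0 := by
  have h := om_add_right (F := F) B x 0 0
  rw [add_zero] at h
  exact left_eq_add.1 h

private theorem wflr_neg_left (B : SkewH E V) (x y : V) : om F B (-x) y = - om F B x y := by
  have h := om_add_left (F := F) B x (-x) y
  rw [add_neg_cancel, wflr_zero_left] at h
  linear_combination -h

private theorem wflr_neg_right (B : SkewH E V) (x y : V) : om F B x (-y) = - om F B x y := by
  have h := om_add_right (F := F) B x y (-y)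
  rw [add_neg_cancel, wflr_zero_right] at h
  linear_combination -h

private theorem wflr_sub_left (B : SkewH E V) (x y z : V) :
    om F B (x - y) z = om F B x z - om F B y z := by
  rw [sub_eq_add_neg, om_add_left, wflr_neg_left, sub_eq_add_neg]

private theorem wflr_sub_right (B : SkewH E V) (x y z : V) :
    om F B x (y - z) = om F B x y - om F B x z := by
  rw [sub_eq_add_neg, om_add_right, wflr_neg_right, sub_eq_add_neg]

private theorem wflr_self (B : SkewH E V) (x : V) : om F B x x = 0 := by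
  have h := om_swap (F := F) B x x
  have h2 : (2 : F) * om F B x x = 0 := by linear_combination h
  exact (mul_eq_zero.1 h2).resolve_left two_ne_zero

private theorem wflr_psi_zero (p : PChar F) : p.ψ 0 = 1 := by
  have h := p.add 0 0
  rw [add_zero] at h
  have hn : p.ψ 0 ≠ 0 := by
    intro h0
    have := p.norm_one 0
    rw [h0, norm_zero] at this
    exact zero_ne_one this
  exact (mul_right_cancel₀ hn (by rw [one_mul]; exact h)).symm

private theorem wflr_L (B : SkewH E V) (p : PChar F) (x : V) (f : SF V ℂ) (v : V) :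
    Lop B p x f v = p.ψ (2⁻¹ * om F B x v) * f (v - x) := rfl

private theorem wflr_R (B : SkewH E V) (p : PChar F) (x : V) (f : SF V ℂ) (v : V) :
    Rop B p x f v = p.ψ (2⁻¹ * om F B v x) * f (v - x) := rfl

theorem lop_lop (B : SkewH E V) (p : PChar F) (x y : V) :
    Lop B p x ∘ₗ Lop B p y = p.ψ (2⁻¹ * om F B x y) • Lop B p (x + y) := by
  apply LinearMap.ext
  intro f
  apply SF.ext
  intro v
  show Lop B p x (Lop B p y f) v = p.ψ (2⁻¹ * om F B x y) * Lop B p (x + y) f v
  rw [wflr_L, wflr_L, wflr_L, ← mul_assoc, ← mul_assoc, ← p.add, ← p.add, wflr_sub_right,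
    om_add_left, om_swap B x y, sub_sub]
  congr 2
  ring

theorem rop_rop (B : SkewH E V) (p : PChar F) (x y : V) :
    Rop B p x ∘ₗ Rop B p y = p.ψ (-(2⁻¹ * om F B x y)) • Rop B p (x + y) := by
  apply LinearMap.ext
  intro f
  apply SF.ext
  intro v
  show Rop B p x (Rop B p y f) v = p.ψ (-(2⁻¹ * om F B x y)) * Rop B p (x + y) f v
  rw [wflr_R, wflr_R, wflr_R, ← mul_assoc, ← mul_assoc, ← p.add, ← p.add, wflr_sub_left,
    om_add_right, sub_sub]
  congr 2
  ring

theorem lop_rop (B : SkewH E V) (p : PChar F) (x y : V) :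
    Lop B p x ∘ₗ Rop B p y = Rop B p y ∘ₗ Lop B p x := by
  apply LinearMap.ext
  intro f
  apply SF.ext
  intro v
  show Lop B p x (Rop B p y f) v = Rop B p y (Lop B p x f) v
  rw [wflr_L, wflr_R, wflr_R, wflr_L, ← mul_assoc, ← mul_assoc, ← p.add, ← p.add,
    wflr_sub_left, wflr_sub_right, sub_sub, sub_sub, add_comm x y]
  congr 2
  ring

theorem lop_zero (B : SkewH E V) (p : PChar F) : Lop B p (0 : V) = LinearMap.id := by
  apply LinearMap.ext
  intro f
  apply SF.ext
  intro v
  show Lop B p 0 f v = f v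
  rw [wflr_L, wflr_zero_left, mul_zero, wflr_psi_zero, one_mul, sub_zero]

theorem rop_zero (B : SkewH E V) (p : PChar F) : Rop B p (0 : V) = LinearMap.id := by
  apply LinearMap.ext
  intro f
  apply SF.ext
  intro v
  show Rop B p 0 f v = f v
  rw [wflr_R, wflr_zero_right, mul_zero, wflr_psi_zero, one_mul, sub_zero]

/-- `L_{x/2} R_{x/2}` is translation by `x` -/
theorem lop_rop_half (B : SkewH E V) (p : PChar F) (x : V) (f : SF V ℂ) (v : V) :
    Lop B p x (Rop B p x f) v = f (v - x - x) := by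
  rw [wflr_L, wflr_R, ← mul_assoc, ← p.add, wflr_sub_left, wflr_self, om_swap B x v]
  have h : 2⁻¹ * om F B x v + 2⁻¹ * (- om F B x v - 0) = 0 := by ring
  rw [h, wflr_psi_zero, one_mul]

/-- `L_x R_{-x}` is multiplication by `ψ(om(x, v))` -/
theorem lop_rop_neg (B : SkewH E V) (p : PChar F) (x : V) (f : SF V ℂ) (v : V) :
    Lop B p x (Rop B p (-x) f) v = p.ψ (om F B x v) * f v := by
  rw [wflr_L, wflr_R, ← mul_assoc, ← p.add, wflr_sub_left, wflr_neg_right, wflr_neg_right,
    wflr_self, om_swap B x v, sub_neg_eq_add (v - x), sub_add_cancel]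
  have h2 : (2 : F) ≠ 0 := two_ne_zero
  have h3 : 2⁻¹ * om F B x v + 2⁻¹ * (- -om F B x v - -0) = om F B x v := by
    field_simp
    ring
  rw [h3]

theorem geo_lop (B : SkewH E V) (p : PChar F) (h : UU B) (x : V) :
    geo h.1 ∘ₗ Lop B p x = Lop B p (h.1.1 x) ∘ₗ geo h.1 := by
  apply LinearMap.ext
  intro f
  apply SF.ext
  intro v
  show p.ψ (2⁻¹ * om F B x (h.1⁻¹.1 v)) * f (h.1⁻¹.1 v - x) =
    p.ψ (2⁻¹ * om F B (h.1.1 x) v) * f (h.1⁻¹.1 (v - h.1.1 x))
  have h1 : h.1.1 (h.1⁻¹.1 v) = v := congrArg (fun f : Module.End E V => f v) h.1.mul_inv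
  have h2 : h.1⁻¹.1 (h.1.1 x) = x := congrArg (fun f : Module.End E V => f x) h.1.inv_mul
  have h3 := om_UU (F := F) B h x (h.1⁻¹.1 v)
  rw [h1] at h3
  rw [map_sub, h2, h3]

theorem geo_rop (B : SkewH E V) (p : PChar F) (h : UU B) (x : V) :
    geo h.1 ∘ₗ Rop B p x = Rop B p (h.1.1 x) ∘ₗ geo h.1 := by
  apply LinearMap.ext
  intro f
  apply SF.ext
  intro v
  show p.ψ (2⁻¹ * om F B (h.1⁻¹.1 v) x) * f (h.1⁻¹.1 v - x) =
    p.ψ (2⁻¹ * om F B v (h.1.1 x)) * f (h.1⁻¹.1 (v - h.1.1 x))
  have h1 : h.1.1 (h.1⁻¹.1 v) = v := congrArg (fun f : Module.End E V => f v) h.1.mul_inv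
  have h2 : h.1⁻¹.1 (h.1.1 x) = x := congrArg (fun f : Module.End E V => f x) h.1.inv_mul
  have h3 := om_UU (F := F) B h (h.1⁻¹.1 v) x
  rw [h1] at h3
  rw [map_sub, h2, h3]

theorem geo_mul (g h : GV E V) : geo (g * h) = geo g ∘ₗ geo h := by
  apply LinearMap.ext
  intro f
  apply SF.ext
  intro v
  show f ((g * h)⁻¹.1 v) = f (h⁻¹.1 (g⁻¹.1 v))
  rw [mul_inv_rev]
  rfl

theorem geo_one : geo (1 : GV E V) = LinearMap.id := by
  apply LinearMap.ext
  intro f
  apply SF.ext
  intro v
  show f ((1 : GV E V)⁻¹.1 v) = f v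
  rw [inv_one]
  rfl

private theorem wflr_smooth [LocallyCompactSpace V] [TotallyDisconnectedSpace V]
    (c : V × V → ℂ) (hc : IsLocallyConstant c)
    (h0 : ∀ v, c (0, v) = 1) (f : SF V ℂ) :
    ∃ U : Set V, IsOpen U ∧ (0 : V) ∈ U ∧ ∀ x ∈ U, ∀ v, c (x, v) * f (v - x) = f v := by
  obtain ⟨N, hN, hNc, -⟩ := exists_co_addSubgroup (Set.univ : Set V) isOpen_univ (Set.mem_univ _)
  have hK : IsCompact ((fun q : V × V => q.1 + q.2) '' (tsupport f.1 ×ˢ (N : Set V))) :=
    (f.2.2.isCompact.prod hNc).image (continuous_fst.add continuous_snd)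
  have hev : ∀ᶠ x in nhds (0 : V), ∀ v ∈ ((fun q : V × V => q.1 + q.2) ''
      (tsupport f.1 ×ˢ (N : Set V))), c (x, v) * f (v - x) = f v := by
    refine hK.eventually_forall_of_forall_eventually ?_
    intro v _
    have h1 : IsLocallyConstant (fun q : V × V => c q * f (q.2 - q.1)) :=
      hc.mul (f.2.1.comp_continuous (continuous_snd.sub continuous_fst))
    have h2 : IsLocallyConstant (fun q : V × V => f q.2) :=
      f.2.1.comp_continuous continuous_snd
    have h3 := (IsLocallyConstant.iff_eventually_eq _).mp h1 (0, v)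
    have h4 := (IsLocallyConstant.iff_eventually_eq _).mp h2 (0, v)
    filter_upwards [h3, h4] with q hq1 hq2
    have e1 : c q * f (q.2 - q.1) = c (0, v) * f (v - 0) := hq1
    have e2 : f q.2 = f v := hq2
    rw [h0, sub_zero, one_mul] at e1
    rw [e2]
    exact e1
  obtain ⟨U, hU, hUo, hU0⟩ := eventually_nhds_iff.1 hev
  refine ⟨U ∩ N, hUo.inter hN, ⟨hU0, N.zero_mem⟩, ?_⟩
  rintro x ⟨hx, hxN⟩ v
  by_cases hv : v ∈ ((fun q : V × V => q.1 + q.2) '' (tsupport f.1 ×ˢ (N : Set V)))
  · exact hU x hx v hv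
  · have h1 : f v = 0 := by
      refine image_eq_zero_of_notMem_tsupport fun hv' => hv ⟨(v, 0), ⟨hv', N.zero_mem⟩, ?_⟩
      exact add_zero v
    have h2 : f (v - x) = 0 := by
      refine image_eq_zero_of_notMem_tsupport fun hv' => hv ⟨(v - x, x), ⟨hv', hxN⟩, ?_⟩
      exact sub_add_cancel v x
    rw [h1, h2, mul_zero]

private theorem wflr_half (B : SkewH E V) (t : F) (p : PChar F) :
    IsLocallyConstant (fun q : V × V => p.ψ (t * om F B q.1 q.2)) := by
  have h := (omBi B p).lc.comp_continuous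
    (show Continuous (fun q : V × V => ((algebraMap F E t) • q.1, q.2)) from
      (continuous_const.smul continuous_fst).prodMk continuous_snd)
  have e : (fun q : V × V => p.ψ (t * om F B q.1 q.2)) =
      (fun q : V × V => (omBi B p).χ q.1 q.2) ∘ fun q : V × V => ((algebraMap F E t) • q.1, q.2) := by
    funext q
    show p.ψ (t * om F B q.1 q.2) = p.ψ (om F B ((algebraMap F E t) • q.1) q.2)
    rw [om_smul]
  rw [e]
  exact h

theorem lop_smooth (B : SkewH E V) (p : PChar F) (f : SF V ℂ) :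
    ∃ U : Set V, IsOpen U ∧ (0 : V) ∈ U ∧ ∀ x ∈ U, Lop B p x f = f := by
  haveI := lc_V E V
  haveI := td_V F E V
  obtain ⟨U, hU, hU0, h⟩ := wflr_smooth (fun q : V × V => p.ψ (2⁻¹ * om F B q.1 q.2))
    (wflr_half B 2⁻¹ p) (fun v => by
      show p.ψ (2⁻¹ * om F B 0 v) = 1
      rw [wflr_zero_left, mul_zero, wflr_psi_zero]) f
  exact ⟨U, hU, hU0, fun x hx => SF.ext fun v => h x hx v⟩

theorem rop_smooth (B : SkewH E V) (p : PChar F) (f : SF V ℂ) :
    ∃ U : Set V, IsOpen U ∧ (0 : V) ∈ U ∧ ∀ x ∈ U, Rop B p x f = f := by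
  haveI := lc_V E V
  haveI := td_V F E V
  obtain ⟨U, hU, hU0, h⟩ := wflr_smooth (fun q : V × V => p.ψ (-2⁻¹ * om F B q.1 q.2))
    (wflr_half B (-2⁻¹) p) (fun v => by
      show p.ψ (-2⁻¹ * om F B 0 v) = 1
      rw [wflr_zero_left, mul_zero, wflr_psi_zero]) f
  refine ⟨U, hU, hU0, fun x hx => SF.ext fun v => ?_⟩
  rw [wflr_R, om_swap B x v, mul_neg, ← neg_mul]
  exact h x hx v

/-- `x ↦ L_x f` is locally constant -/
theorem lop_lc (B : SkewH E V) (p : PChar F) (f : SF V ℂ) :
    IsLocallyConstant (fun x : V => Lop B p x f) := by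
  rw [IsLocallyConstant.iff_eventually_eq]
  intro x0
  obtain ⟨U, hU, hU0, h⟩ := lop_smooth B p (Lop B p x0 f)
  have h1 : ∀ᶠ x in nhds x0, x - x0 ∈ U := by
    have hc : Continuous fun x : V => x - x0 := continuous_id.sub continuous_const
    refine hc.continuousAt.eventually (hU.mem_nhds ?_)
    show x0 - x0 ∈ U
    rw [sub_self]
    exact hU0
  have h2 : IsLocallyConstant (fun x : V => p.ψ (2⁻¹ * om F B (x - x0) x0)) :=
    (wflr_half B 2⁻¹ p).comp_continuous
      (show Continuous (fun x : V => (x - x0, x0)) from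
        (continuous_id.sub continuous_const).prodMk continuous_const)
  have h3 := (IsLocallyConstant.iff_eventually_eq _).mp h2 x0
  filter_upwards [h1, h3] with x hx hx2
  have e1 : p.ψ (2⁻¹ * om F B (x - x0) x0) = 1 := by
    rw [hx2, sub_self, wflr_zero_left, mul_zero, wflr_psi_zero]
  have e2 := congrArg (fun T : SF V ℂ →ₗ[ℂ] SF V ℂ => T f) (lop_lop B p (x - x0) x0)
  have e3 : Lop B p (x - x0) (Lop B p x0 f) =
      p.ψ (2⁻¹ * om F B (x - x0) x0) • Lop B p (x - x0 + x0) f := e2
  rw [h _ hx, e1, one_smul, sub_add_cancel] at e3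
  exact e3.symm

/-- Schur's lemma -/
theorem schur_lr (B : SkewH E V) (p : PChar F) (P : SF V ℂ →ₗ[ℂ] SF V ℂ)
    (hL : ∀ x, P ∘ₗ Lop B p x = Lop B p x ∘ₗ P) (hR : ∀ x, P ∘ₗ Rop B p x = Rop B p x ∘ₗ P) :
    ∃ c : ℂ, P = c • LinearMap.id := by
  haveI := lc_V E V
  haveI := td_V F E V
  have hL' : ∀ x f, P (Lop B p x f) = Lop B p x (P f) := fun x f =>
    congrArg (fun T : SF V ℂ →ₗ[ℂ] SF V ℂ => T f) (hL x)
  have hR' : ∀ x f, P (Rop B p x f) = Rop B p x (P f) := fun x f =>
    congrArg (fun T : SF V ℂ →ₗ[ℂ] SF V ℂ => T f) (hR x)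
  obtain ⟨c, hc⟩ := schur_sf (omBi B p) (uc_V F E V) P (fun a f => by
    have hx : ∀ g : SF V ℂ, SF.comp (Homeomorph.addRight a) g =
        Lop B p (-((2 : E)⁻¹ • a)) (Rop B p (-((2 : E)⁻¹ • a)) g) := by
      intro g
      apply SF.ext
      intro v
      rw [lop_rop_half]
      show g (v + a) = _
      have h2 : (2 : E)⁻¹ • a + (2 : E)⁻¹ • a = a := by
        haveI : CharZero E := charZero_of_injective_algebraMap (algebraMap F E).injective
        rw [← add_smul, ← two_mul, mul_inv_cancel₀ (two_ne_zero : (2 : E) ≠ 0), one_smul]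
      rw [sub_neg_eq_add, sub_neg_eq_add, add_assoc, h2]
    rw [hx, hx, hL', hR']) (fun w f => by
    have hx : ∀ g : SF V ℂ, SF.mulc (fun v => (omBi B p).χ v w) ((omBi B p).lcl w) g =
        Lop B p (-w) (Rop B p (- -w) g) := by
      intro g
      apply SF.ext
      intro v
      rw [lop_rop_neg, wflr_neg_left, om_swap B v w, neg_neg]
      rfl
    rw [hx, hx, hL', hR'])
  refine ⟨c, LinearMap.ext fun f => ?_⟩
  exact hc f

end

end Pool.Agent.Work.MP_dd0ddf_al
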