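import Pool.Agent.Work.MP_dd0ddf_al.Defs2
import Pool.Agent.Work.MP_dd0ddf_al.NiMain
import Pool.Agent.Work.MP_dd0ddf_al.BiOm
import Pool.Agent.Work.MP_dd0ddf_al.NiE1

/-!
# MP_dd0ddf_al, module KDefs: compatible pairs of quadratic extensions E/F, L/K with K/F finite, L = K E
-/

set_option linter.unusedSectionVars false
set_option linter.style.haveILetI false

namespace Pool.Agent.Work.MP_dd0ddf_al

noncomputable section

universe u

/-- compatible pair of quadratic extensions `E/F`, `L/K`, `K/F` finite, `[K:F] = [L:E]` -/
class KCompat (F E K L : Type u) [NontriviallyNormedField F] [NontriviallyNormedField E]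
    [NormedAlgebra F E] [StarRing E] [NontriviallyNormedField K] [NontriviallyNormedField L]
    [NormedAlgebra K L] [StarRing L] [NormedAlgebra F K] [NormedAlgebra E L] [Algebra F L] :
    Prop where
  tower1 : IsScalarTower F K L
  tower2 : IsScalarTower F E L
  star_comm : ∀ x : E, star (algebraMap E L x) = algebraMap E L (star x)
  fd : FiniteDimensional F K
  deg : Module.finrank F K = Module.finrank E L

/-- the character `ψ ∘ Tr_{K/F}` -/
def PChar.ext {F : Type u} (K : Type u) [NontriviallyNormedField F] [ProperSpace F] [CharZero F]
    [NontriviallyNormedField K] [NormedAlgebra F K] [FiniteDimensional F K] (p : PChar F) :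
    PChar K where
  ψ x := p.ψ (Algebra.trace F K x)
  add x y := by rw [map_add, p.add]
  norm_one x := p.norm_one _
  lc := p.lc.comp_continuous (LinearMap.continuous_of_finiteDimensional (Algebra.trace F K))
  nontriv := by
    obtain ⟨y, hy⟩ := p.nontriv
    obtain ⟨x, hx⟩ := Algebra.trace_surjective F K y
    exact ⟨x, by rw [hx]; exact hy⟩

section

variable {F E : Type u} [NontriviallyNormedField F] [IsUltrametricDist F] [ProperSpace F]
  [CharZero F] [NontriviallyNormedField E] [NormedAlgebra F E] [ProperSpace E] [StarRing E]
  [QExt F E]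
variable {K L : Type u} [NontriviallyNormedField K] [IsUltrametricDist K] [ProperSpace K]
  [CharZero K] [NontriviallyNormedField L] [NormedAlgebra K L] [ProperSpace L] [StarRing L]
  [QExt K L] [NormedAlgebra F K] [NormedAlgebra E L]
  [Algebra F L] [KCompat F E K L]

variable (F E K L) in
include F K in
private theorem kdefs_fdE : FiniteDimensional E L := by
  haveI := KCompat.tower1 (F := F) (E := E) (K := K) (L := L)
  haveI := KCompat.tower2 (F := F) (E := E) (K := K) (L := L)
  haveI : FiniteDimensional F K := KCompat.fd (F := F) (E := E) (K := K) (L := L)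
  haveI : FiniteDimensional K L := qext_findim K L
  haveI : FiniteDimensional F L := FiniteDimensional.trans F K L
  exact FiniteDimensional.right F E L

/-- `Tr_{K/F} Tr_{L/K} = Tr_{E/F} Tr_{L/E}` (transitivity of the trace, both equal `Tr_{L/F}`) -/
theorem kc_trace (x : L) : Algebra.trace F K (Algebra.trace K L x) =
    Algebra.trace F E (Algebra.trace E L x) := by
  haveI := KCompat.tower1 (F := F) (E := E) (K := K) (L := L)
  haveI := KCompat.tower2 (F := F) (E := E) (K := K) (L := L)
  haveI : FiniteDimensional F K := KCompat.fd (F := F) (E := E) (K := K) (L := L)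
  haveI : FiniteDimensional K L := qext_findim K L
  haveI : FiniteDimensional F E := qext_findim F E
  haveI : FiniteDimensional E L := kdefs_fdE F E K L
  rw [Algebra.trace_trace, Algebra.trace_trace]

theorem kc_norm (x : L) : Algebra.norm F (Algebra.norm K x) =
    Algebra.norm F (Algebra.norm E x) := by
  haveI := KCompat.tower1 (F := F) (E := E) (K := K) (L := L)
  haveI := KCompat.tower2 (F := F) (E := E) (K := K) (L := L)
  haveI : FiniteDimensional F K := KCompat.fd (F := F) (E := E) (K := K) (L := L)
  haveI : FiniteDimensional K L := qext_findim K L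
  haveI : FiniteDimensional F E := qext_findim F E
  haveI : FiniteDimensional E L := kdefs_fdE F E K L
  rw [Algebra.norm_norm, Algebra.norm_norm]

variable (F E K L) in
private theorem kdefs_alg (f : F) : algebraMap E L (algebraMap F E f) =
    algebraMap K L (algebraMap F K f) := by
  haveI := KCompat.tower1 (F := F) (E := E) (K := K) (L := L)
  haveI := KCompat.tower2 (F := F) (E := E) (K := K) (L := L)
  rw [← IsScalarTower.algebraMap_apply F E L, ← IsScalarTower.algebraMap_apply F K L]

variable (E L) in
private theorem kdefs_li {ι : Type*} [Fintype ι] (b : Module.Basis ι F K) :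
    LinearIndependent E fun i => algebraMap K L (b i) := by
  haveI : CharZero E := charZero_of_injective_algebraMap (algebraMap F E).injective
  obtain ⟨η, hη0, hηs, -, -, hfix⟩ := exists_eta F E
  have hkey : ∀ y : ι → E, ∑ i, algebraMap E L (y i) * algebraMap K L (b i) = 0 →
      ∀ i, y i + star (y i) = 0 := by
    intro y hy i
    have h1 : ∑ i, algebraMap E L (star (y i)) * algebraMap K L (b i) = 0 := by
      have h2 := congrArg star hy
      rw [star_sum, star_zero] at h2
      rw [← h2]
      refine Finset.sum_congr rfl fun j _ => ?_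
      rw [star_mul', KCompat.star_comm (F := F) (E := E) (K := K) (L := L),
        QExt.star_alg (F := K) (E := L)]
    choose t ht using fun i => hfix (y i + star (y i)) (by rw [star_add, star_star, add_comm])
    have h3 : ∑ i, t i • b i = 0 := by
      apply (algebraMap K L).injective
      rw [map_sum, map_zero]
      have h4 : ∀ j, algebraMap K L (t j • b j) =
          algebraMap E L (y j) * algebraMap K L (b j) +
          algebraMap E L (star (y j)) * algebraMap K L (b j) := by
        intro j
        rw [Algebra.smul_def, map_mul, ← kdefs_alg F E K L, ← ht, map_add, add_mul]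
      rw [Finset.sum_congr rfl fun j _ => h4 j, Finset.sum_add_distrib, hy, h1, add_zero]
    have h5 := Fintype.linearIndependent_iff.1 b.linearIndependent t h3 i
    rw [ht, h5, map_zero]
  rw [Fintype.linearIndependent_iff]
  intro y hy i
  have hy' : ∑ i, algebraMap E L (y i) * algebraMap K L (b i) = 0 := by
    rw [← hy]
    exact Finset.sum_congr rfl fun j _ => (Algebra.smul_def _ _).symm
  have h6 := hkey y hy' i
  have h7 := hkey (fun i => η * y i) (by
    have h8 : ∑ i, algebraMap E L (η * y i) * algebraMap K L (b i) =
        algebraMap E L η * ∑ i, algebraMap E L (y i) * algebraMap K L (b i) := by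
      rw [Finset.mul_sum]
      refine Finset.sum_congr rfl fun j _ => ?_
      rw [map_mul, mul_assoc]
    rw [h8, hy', mul_zero]) i
  rw [star_mul', hηs] at h7
  have h9 : (2 : E) * (η * y i) = 0 := by linear_combination h7 + η * h6
  exact (mul_eq_zero.1 ((mul_eq_zero.1 h9).resolve_left two_ne_zero)).resolve_left hη0

/-- a basis of `K/F` is a basis of `L/E` -/
theorem kc_basis {ι : Type*} [Fintype ι] (b : Module.Basis ι F K) :
    ∃ b' : Module.Basis ι E L, ∀ i, b' i = algebraMap K L (b i) := by
  haveI : FiniteDimensional F K := KCompat.fd (F := F) (E := E) (K := K) (L := L)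
  have h1 := kdefs_li E L b
  have hcard : Fintype.card ι = Module.finrank F K := (Module.finrank_eq_card_basis b).symm
  haveI : Nonempty ι := by
    rw [← Fintype.card_pos_iff, hcard]
    exact Module.finrank_pos
  refine ⟨basisOfLinearIndependentOfCardEqFinrank h1 ?_, fun i => ?_⟩
  · rw [hcard]
    exact KCompat.deg
  · rw [coe_basisOfLinearIndependentOfCardEqFinrank]

private theorem kdefs_matrix {ι : Type*} [Fintype ι] [DecidableEq ι] (b : Module.Basis ι F K)
    (b' : Module.Basis ι E L) (hb : ∀ i, b' i = algebraMap K L (b i)) (x : L) :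
    Algebra.leftMulMatrix b' (star x) = (Algebra.leftMulMatrix b' x).map (starRingEnd E) := by
  ext i j
  rw [Matrix.map_apply, Algebra.leftMulMatrix_eq_repr_mul, Algebra.leftMulMatrix_eq_repr_mul]
  have h1 : star x * b' j = ∑ i, star (b'.repr (x * b' j) i) • b' i := by
    have h2 := congrArg star (b'.sum_repr (x * b' j))
    rw [star_mul', star_sum] at h2
    have h3 : ∀ i, star (b' i) = b' i := fun i => by
      rw [hb, QExt.star_alg (F := K) (E := L)]
    rw [h3] at h2
    rw [← h2]
    refine Finset.sum_congr rfl fun i _ => ?_
    rw [Algebra.smul_def, Algebra.smul_def, star_mul', h3,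
      KCompat.star_comm (F := F) (E := E) (K := K) (L := L)]
  rw [h1, b'.repr_sum_self]
  rfl

variable (F K) in
include F K in
/-- the trace `L → E` commutes with `star` -/
theorem kc_trace_star (x : L) : Algebra.trace E L (star x) = star (Algebra.trace E L x) := by
  classical
  haveI : FiniteDimensional F K := KCompat.fd (F := F) (E := E) (K := K) (L := L)
  obtain ⟨b', hb⟩ := kc_basis (E := E) (L := L) (Module.finBasis F K)
  rw [Algebra.trace_eq_matrix_trace b', Algebra.trace_eq_matrix_trace b', kdefs_matrix _ b' hb,
    Matrix.trace, Matrix.trace, star_sum]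
  rfl

variable (F K) in
include F K in
theorem kc_norm_star (x : L) : Algebra.norm E (star x) = star (Algebra.norm E x) := by
  classical
  haveI : FiniteDimensional F K := KCompat.fd (F := F) (E := E) (K := K) (L := L)
  obtain ⟨b', hb⟩ := kc_basis (E := E) (L := L) (Module.finBasis F K)
  rw [Algebra.norm_eq_matrix_det b', Algebra.norm_eq_matrix_det b', kdefs_matrix _ b' hb]
  exact (RingHom.map_det (starRingEnd E) (Algebra.leftMulMatrix b' x)).symm

/-- for `c ∈ K`: `N_{L/E}(c) = N_{K/F}(c)` -/
theorem kc_norm_K (c : K) : Algebra.norm E (algebraMap K L c) =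
    algebraMap F E (Algebra.norm F c) := by
  classical
  haveI : FiniteDimensional F K := KCompat.fd (F := F) (E := E) (K := K) (L := L)
  obtain ⟨b', hb⟩ := kc_basis (E := E) (L := L) (Module.finBasis F K)
  rw [Algebra.norm_eq_matrix_det b', Algebra.norm_eq_matrix_det (Module.finBasis F K),
    RingHom.map_det]
  congr 1
  ext i j
  rw [RingHom.mapMatrix_apply, Matrix.map_apply, Algebra.leftMulMatrix_eq_repr_mul,
    Algebra.leftMulMatrix_eq_repr_mul]
  have h1 : algebraMap K L c * b' j =
      ∑ i, algebraMap F E ((Module.finBasis F K).repr (c * Module.finBasis F K j) i) • b' i := by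
    have h2 := congrArg (algebraMap K L)
      ((Module.finBasis F K).sum_repr (c * Module.finBasis F K j))
    rw [map_mul (algebraMap K L), ← hb, map_sum] at h2
    rw [← h2]
    refine Finset.sum_congr rfl fun i _ => ?_
    rw [Algebra.smul_def, Algebra.smul_def, map_mul (algebraMap K L), ← hb, kdefs_alg F E K L]
  rw [h1, b'.repr_sum_self]

end

end

end Pool.Agent.Work.MP_dd0ddf_al
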