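import Pool.Agent.Work.MP_dd0ddf_al.LinTau

/-!
# MP_dd0ddf_al, module LinAlpha: (3.2): the support is contained in Qset

For `c ∈ F[x]` and `ε > 0` let `K = {X : ‖det c(X)‖ ≥ ε}` (clopen in `SA B`), and define the operator `α` on `SF (SA B × V) ℂ`:
`(α f)(X, v) = f(X, c(X)⁻¹ v)` for `X ∈ K`, `0` otherwise (well defined: locally constant, compact support because on the compact projection of the support `c(X)` is
bounded and the support is contained in the image of `(X, v) ↦ (X, c(X) v)` of supp f ∩ (K × V)).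
`α` commutes with `linAct h` (`c(hXh⁻¹) = h c(X) h⁻¹`, det invariant) and with `linTau τ` (`c` has coefficients in `F`: `c(τXτ) = τ c(X) τ`; the determinant of
`τ c(X) τ` is `star (det c(X))`, same norm (star is norm preserving / use K defined by `‖det c(X)‖ ≥ ε` and `‖det c(X)* ‖`; alternatively det c(X) ∈ F since c(X) is self-adjoint)).
So `T ∘ α` is invariant and antisymmetric and by `h31` it kills functions supported in `{⟨v,v⟩ ≠ 0}`.
Let `g` vanish on `Qset B`.  By `vanish_local` take `(X0, v0)` with `⟨X0^i v0, v0⟩ ≠ 0` for some `i`.  Put `c_e = 1 + e x^i`, `e ∈ F` small: `c_e(X0)` invertible (near 1), with inverse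
`C`; need `⟨C v0, C v0⟩ ≠ 0` for `u0 = C v0`: it is simpler to use `c_e(X0)` itself: let `α` be defined with `c(X)` replaced by its inverse, i.e.
`(α f)(X, v) = f(X, c(X) v)` on `K`; then for `g` supported near `(X0, v0)`: `g = α f` with `f(X, v) = g(X, c(X)⁻¹ v)`, supported near `(X0, c(X0) v0)` and
`⟨c_e(X0) v0, c_e(X0) v0⟩ = ⟨v0,v0⟩ + 2e⟨X0^i v0,v0⟩ + e²⟨X0^{2i} v0, v0⟩ ≠ 0` for some small `e ≠ 0` (a nonzero polynomial in e).  So `T g = (T ∘ α) f = 0`.
-/

set_option linter.unusedSectionVars false
set_option linter.style.haveILetI false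

namespace Pool.Agent.Work.MP_dd0ddf_al

noncomputable section

universe u

variable {F E : Type u} [NontriviallyNormedField F] [IsUltrametricDist F] [ProperSpace F]
  [CharZero F] [NontriviallyNormedField E] [NormedAlgebra F E] [ProperSpace E] [StarRing E]
  [QExt F E]
variable {V : Type u} [AddCommGroup V] [Module E V] [Module.Finite E V] [TopologicalSpace V]
  [IsTopologicalAddGroup V] [T2Space V] [ContinuousSMul E V]

/-! ### determinants and inverses of endomorphisms -/

private theorem linalpha_mat : Continuous fun A : Module.End E V =>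
    LinearMap.toMatrix (Module.finBasis E V) (Module.finBasis E V) A := by
  refine continuous_matrix fun i j => ?_
  have h : (fun A : Module.End E V =>
      LinearMap.toMatrix (Module.finBasis E V) (Module.finBasis E V) A i j) =
      fun A => (Module.finBasis E V).coord i (A (Module.finBasis E V j)) := by
    funext A
    rw [LinearMap.toMatrix_apply]
    rfl
  rw [h]
  exact ((Module.finBasis E V).coord i).continuous_of_finiteDimensional.comp
    (continuous_end_apply _)

private theorem linalpha_det : Continuous fun A : Module.End E V => LinearMap.det A := by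
  have h : (fun A : Module.End E V => LinearMap.det A) = fun A =>
      (LinearMap.toMatrix (Module.finBasis E V) (Module.finBasis E V) A).det := by
    funext A
    rw [LinearMap.det_toMatrix]
  rw [h]
  exact linalpha_mat.matrix_det

/-- the adjugate -/
private def linalpha_adj (A : Module.End E V) : Module.End E V :=
  Matrix.toLin (Module.finBasis E V) (Module.finBasis E V)
    (LinearMap.toMatrix (Module.finBasis E V) (Module.finBasis E V) A).adjugate

private theorem linalpha_adj_cont : Continuous fun A : Module.End E V => linalpha_adj A := by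
  refine continuous_induced_rng.mpr (continuous_pi fun v => ?_)
  have h : (fun A : Module.End E V => linalpha_adj A v) = fun A => ∑ i,
      ((LinearMap.toMatrix (Module.finBasis E V) (Module.finBasis E V) A).adjugate.mulVec
        ((Module.finBasis E V).repr v)) i • Module.finBasis E V i := by
    funext A
    exact Matrix.toLin_apply _ _ _ _
  show Continuous (fun A : Module.End E V => linalpha_adj A v)
  rw [h]
  refine continuous_finsetSum _ fun i _ => Continuous.smul ?_ continuous_const
  exact (continuous_apply i).comp (linalpha_mat.matrix_adjugate.matrix_mulVec continuous_const)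

private theorem linalpha_adj_mul (A : Module.End E V) :
    linalpha_adj A * A = LinearMap.det A • (1 : Module.End E V) := by
  have h1 : A = Matrix.toLin (Module.finBasis E V) (Module.finBasis E V)
    (LinearMap.toMatrix (Module.finBasis E V) (Module.finBasis E V) A) :=
    (Matrix.toLin_toMatrix _ _ _).symm
  have h2 := Matrix.adjugate_mul
    (LinearMap.toMatrix (Module.finBasis E V) (Module.finBasis E V) A)
  have h3 := congrArg (Matrix.toLin (Module.finBasis E V) (Module.finBasis E V)) h2
  rw [Matrix.toLin_mul (Module.finBasis E V) (Module.finBasis E V) (Module.finBasis E V), ← h1,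
    map_smul, Matrix.toLin_one, LinearMap.det_toMatrix] at h3
  exact h3

private theorem linalpha_mul_adj (A : Module.End E V) :
    A * linalpha_adj A = LinearMap.det A • (1 : Module.End E V) := by
  have h1 : A = Matrix.toLin (Module.finBasis E V) (Module.finBasis E V)
    (LinearMap.toMatrix (Module.finBasis E V) (Module.finBasis E V) A) :=
    (Matrix.toLin_toMatrix _ _ _).symm
  have h2 := Matrix.mul_adjugate
    (LinearMap.toMatrix (Module.finBasis E V) (Module.finBasis E V) A)
  have h3 := congrArg (Matrix.toLin (Module.finBasis E V) (Module.finBasis E V)) h2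
  rw [Matrix.toLin_mul (Module.finBasis E V) (Module.finBasis E V) (Module.finBasis E V), ← h1,
    map_smul, Matrix.toLin_one, LinearMap.det_toMatrix] at h3
  exact h3

/-- the inverse if the determinant is not zero -/
private def linalpha_inv (A : Module.End E V) : Module.End E V :=
  (LinearMap.det A)⁻¹ • linalpha_adj A

private theorem linalpha_inv_mul {A : Module.End E V} (hA : LinearMap.det A ≠ 0) (v : V) :
    linalpha_inv A (A v) = v := by
  have h := congrArg (fun f : Module.End E V => f v) (linalpha_adj_mul A)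
  have h1 : linalpha_adj A (A v) = LinearMap.det A • v := h
  show (LinearMap.det A)⁻¹ • linalpha_adj A (A v) = v
  rw [h1, smul_smul, inv_mul_cancel₀ hA, one_smul]

private theorem linalpha_mul_inv {A : Module.End E V} (hA : LinearMap.det A ≠ 0) (v : V) :
    A (linalpha_inv A v) = v := by
  have h := congrArg (fun f : Module.End E V => f v) (linalpha_mul_adj A)
  have h1 : A (linalpha_adj A v) = LinearMap.det A • v := h
  show A ((LinearMap.det A)⁻¹ • linalpha_adj A v) = v
  rw [map_smul, h1, smul_smul, inv_mul_cancel₀ hA, one_smul]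

private theorem linalpha_inv_cont {A : Module.End E V} (hA : LinearMap.det A ≠ 0) (v : V) :
    ContinuousAt (fun q : Module.End E V × V => linalpha_inv q.1 q.2) (A, v) := by
  have h1 : ContinuousAt (fun q : Module.End E V × V => (LinearMap.det q.1)⁻¹) (A, v) :=
    ContinuousAt.inv₀ (linalpha_det.comp continuous_fst).continuousAt hA
  have h2 : Continuous (fun q : Module.End E V × V => linalpha_adj q.1 q.2) :=
    continuous_end_eval.comp ((linalpha_adj_cont.comp continuous_fst).prodMk continuous_snd)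
  exact h1.smul h2.continuousAt

/-! ### fibrewise linear operators -/

open Classical in
private def linalpha_op {B : SkewH E V} (K : Set (SA B)) (hK : IsClopen K)
    (P Q : SA B → Module.End E V)
    (hP : ∀ X ∈ K, ∀ v, ContinuousAt (fun q : SA B × V => P q.1 q.2) (X, v))
    (hQ : ∀ X ∈ K, ∀ v, ContinuousAt (fun q : SA B × V => Q q.1 q.2) (X, v))
    (hQP : ∀ X ∈ K, ∀ v, Q X (P X v) = v) : SF (SA B × V) ℂ →ₗ[ℂ] SF (SA B × V) ℂ where
  toFun f := ⟨fun q => if q.1 ∈ K then f (q.1, P q.1 q.2) else 0, by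
    constructor
    · rw [IsLocallyConstant.iff_eventually_eq]
      rintro ⟨X, v⟩
      by_cases hX : X ∈ K
      · have h1 : ∀ᶠ q : SA B × V in nhds (X, v), q.1 ∈ K :=
          continuous_fst.continuousAt.eventually (hK.isOpen.mem_nhds hX)
        have h2 : ContinuousAt (fun q : SA B × V => (q.1, P q.1 q.2)) (X, v) :=
          continuous_fst.continuousAt.prodMk (hP X hX v)
        have h3 := h2.eventually ((IsLocallyConstant.iff_eventually_eq _).mp f.2.1 (X, P X v))
        filter_upwards [h1, h3] with q hq1 hq2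
        show (if q.1 ∈ K then f (q.1, P q.1 q.2) else 0) = if X ∈ K then f (X, P X v) else 0
        rw [if_pos hq1, if_pos hX]
        exact hq2
      · have h1 : ∀ᶠ q : SA B × V in nhds (X, v), q.1 ∈ Kᶜ :=
          continuous_fst.continuousAt.eventually (hK.compl.isOpen.mem_nhds hX)
        filter_upwards [h1] with q hq1
        show (if q.1 ∈ K then f (q.1, P q.1 q.2) else 0) = if X ∈ K then f (X, P X v) else 0
        rw [if_neg hq1, if_neg hX]
    · have hc1 : IsCompact ((Prod.fst '' tsupport f.1) ∩ K) :=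
        (f.2.2.isCompact.image continuous_fst).inter_right hK.isClosed
      have hc2 : IsCompact (Prod.snd '' tsupport f.1) := f.2.2.isCompact.image continuous_snd
      refine HasCompactSupport.of_support_subset_isCompact
        ((hc1.prod hc2).image_of_continuousOn
          (f := fun q : SA B × V => (q.1, Q q.1 q.2)) ?_) ?_
      · rintro ⟨X, w⟩ ⟨hX, -⟩
        exact (continuous_fst.continuousAt.prodMk (hQ X hX.2 w)).continuousWithinAt
      · rintro ⟨X, v⟩ hq
        have hX : X ∈ K := by
          by_contra hn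
          apply hq
          show (if X ∈ K then f (X, P X v) else 0) = 0
          rw [if_neg hn]
        have hne : f (X, P X v) ≠ 0 := by
          intro h0
          apply hq
          show (if X ∈ K then f (X, P X v) else 0) = 0
          rw [if_pos hX, h0]
        have hts : (X, P X v) ∈ tsupport f.1 := subset_tsupport _ hne
        refine ⟨(X, P X v), ⟨⟨⟨_, hts, rfl⟩, hX⟩, ⟨_, hts, rfl⟩⟩, ?_⟩
        show (X, Q X (P X v)) = (X, v)
        rw [hQP X hX]⟩
  map_add' f g := by
    apply SF.ext
    intro q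
    show (if q.1 ∈ K then f (q.1, P q.1 q.2) + g (q.1, P q.1 q.2) else 0) =
      (if q.1 ∈ K then f (q.1, P q.1 q.2) else 0) + (if q.1 ∈ K then g (q.1, P q.1 q.2) else 0)
    split_ifs
    · rfl
    · rw [add_zero]
  map_smul' a f := by
    apply SF.ext
    intro q
    show (if q.1 ∈ K then a • f (q.1, P q.1 q.2) else 0) =
      a • (if q.1 ∈ K then f (q.1, P q.1 q.2) else 0)
    split_ifs
    · rfl
    · rw [smul_zero]

/-! ### the operators `1 + e X^i` -/

private def linalpha_C (e : F) (i : ℕ) (X : Module.End E V) : Module.End E V :=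
  1 + ((algebraMap F E e) • (1 : Module.End E V)) * X ^ i

private theorem linalpha_C_apply (e : F) (i : ℕ) (X : Module.End E V) (v : V) :
    linalpha_C e i X v = v + (algebraMap F E e) • (X ^ i) v := rfl

private theorem linalpha_C_cont (e : F) (i : ℕ) :
    Continuous fun X : Module.End E V => linalpha_C e i X := by
  unfold linalpha_C
  exact continuous_const.add (continuous_const.mul (continuous_pow i))

private theorem linalpha_C_conj (e : F) (i : ℕ) (X a b : Module.End E V) (hab : a * b = 1)
    (hba : b * a = 1) : linalpha_C e i (a * X * b) = a * linalpha_C e i X * b := by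
  have h1 : ∀ n : ℕ, (a * X * b) ^ n = a * X ^ n * b := by
    intro n
    induction n with
    | zero => rw [pow_zero, pow_zero, mul_one, hab]
    | succ n ih =>
      rw [pow_succ, ih, pow_succ]
      calc a * X ^ n * b * (a * X * b) = a * X ^ n * (b * a) * X * b := by simp only [mul_assoc]
        _ = a * (X ^ n * X) * b := by rw [hba, mul_one, mul_assoc a]
  unfold linalpha_C
  rw [h1, mul_add, mul_one, add_mul, hab]
  congr 1
  rw [smul_mul_assoc, smul_mul_assoc, one_mul, one_mul, mul_smul_comm, smul_mul_assoc]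

private theorem linalpha_C_tau {B : SkewH E V} (τ : AntiU B) (e : F) (i : ℕ)
    (X : Module.End E V) (v : V) :
    linalpha_C e i (conjτ τ X) (τ.t v) = τ.t (linalpha_C e i X v) := by
  have h1 : ∀ n : ℕ, ∀ v, ((conjτ τ X) ^ n) (τ.t v) = τ.t ((X ^ n) v) := by
    intro n
    induction n with
    | zero => intro v; rfl
    | succ n ih =>
      intro v
      rw [pow_succ', pow_succ']
      show conjτ τ X (((conjτ τ X) ^ n) (τ.t v)) = τ.t (X ((X ^ n) v))
      rw [ih]
      show τ.t (X (τ.t (τ.t ((X ^ n) v)))) = _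
      rw [τ.inv]
  rw [linalpha_C_apply, linalpha_C_apply, h1, τ.add, τ.smul, QExt.star_alg]

private theorem linalpha_det_conj (A a b : Module.End E V) (hab : a * b = 1) :
    LinearMap.det (a * A * b) = LinearMap.det A := by
  rw [map_mul, map_mul]
  have h : LinearMap.det a * LinearMap.det b = 1 := by
    rw [← map_mul, hab, map_one]
  linear_combination LinearMap.det A * h

/-- the set where the operators are used -/
private def linalpha_K {B : SkewH E V} (τ : AntiU B) (e : F) (i : ℕ) (ε : ℝ) : Set (SA B) :=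
  {X | ε ≤ ‖LinearMap.det (linalpha_C e i X.1)‖ ∧
    ε ≤ ‖LinearMap.det (linalpha_C e i (conjτ τ X.1))‖}

private theorem linalpha_K_clopen {B : SkewH E V} (τ : AntiU B) (e : F) (i : ℕ) (ε : ℝ) :
    IsClopen (linalpha_K τ e i ε) := by
  haveI : IsUltrametricDist E := ult_E F
  have h0 : IsClopen {x : E | ε ≤ ‖x‖} := by
    have h1 : {x : E | ε ≤ ‖x‖} = (Metric.ball 0 ε)ᶜ := by
      ext x
      rw [Set.mem_compl_iff, Metric.mem_ball, dist_zero_right, not_lt]
      rfl
    rw [h1]
    exact (IsUltrametricDist.isClopen_ball _ _).compl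
  have c1 : Continuous fun X : SA B => LinearMap.det (linalpha_C e i X.1) :=
    linalpha_det.comp ((linalpha_C_cont e i).comp continuous_subtype_val)
  have c2 : Continuous fun X : SA B => LinearMap.det (linalpha_C e i (conjτ τ X.1)) :=
    linalpha_det.comp ((linalpha_C_cont e i).comp
      ((continuous_conjτ F τ).comp continuous_subtype_val))
  exact (h0.preimage c1).inter (h0.preimage c2)

private theorem linalpha_K_conj {B : SkewH E V} (τ : AntiU B) (e : F) (i : ℕ) (ε : ℝ) (h : UU B)
    (X : SA B) : saConj B h X ∈ linalpha_K τ e i ε ↔ X ∈ linalpha_K τ e i ε := by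
  have e1 : LinearMap.det (linalpha_C e i (saConj B h X).1) =
      LinearMap.det (linalpha_C e i X.1) := by
    show LinearMap.det (linalpha_C e i (h.1.1 * X.1 * h.1⁻¹.1)) = _
    rw [linalpha_C_conj e i X.1 h.1.1 h.1⁻¹.1 h.1.mul_inv h.1.inv_mul,
      linalpha_det_conj _ _ _ h.1.mul_inv]
  have e2 : LinearMap.det (linalpha_C e i (conjτ τ (saConj B h X).1)) =
      LinearMap.det (linalpha_C e i (conjτ τ X.1)) := by
    show LinearMap.det (linalpha_C e i (conjτ τ (h.1.1 * X.1 * h.1⁻¹.1))) = _
    have h1 : conjτ τ h.1.1 * conjτ τ h.1⁻¹.1 = 1 := by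
      rw [← conjτ_mul, show h.1.1 * h.1⁻¹.1 = 1 from h.1.mul_inv, conjτ_one]
    have h2 : conjτ τ h.1⁻¹.1 * conjτ τ h.1.1 = 1 := by
      rw [← conjτ_mul, show h.1⁻¹.1 * h.1.1 = 1 from h.1.inv_mul, conjτ_one]
    rw [conjτ_mul, conjτ_mul, linalpha_C_conj e i _ _ _ h1 h2, linalpha_det_conj _ _ _ h1]
  show (ε ≤ ‖LinearMap.det (linalpha_C e i (saConj B h X).1)‖ ∧
    ε ≤ ‖LinearMap.det (linalpha_C e i (conjτ τ (saConj B h X).1))‖) ↔ _
  rw [e1, e2]
  exact Iff.rfl

private theorem linalpha_K_tau {B : SkewH E V} (τ : AntiU B) (e : F) (i : ℕ) (ε : ℝ)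
    (X : SA B) : saTau F τ X ∈ linalpha_K τ e i ε ↔ X ∈ linalpha_K τ e i ε := by
  show (ε ≤ ‖LinearMap.det (linalpha_C e i (conjτ τ X.1))‖ ∧
    ε ≤ ‖LinearMap.det (linalpha_C e i (conjτ τ (conjτ τ X.1)))‖) ↔ _
  rw [conjτ_conjτ]
  exact and_comm

private theorem linalpha_K_det {B : SkewH E V} (τ : AntiU B) (e : F) (i : ℕ) (ε : ℝ)
    (hε : 0 < ε) {X : SA B} (hX : X ∈ linalpha_K τ e i ε) :
    LinearMap.det (linalpha_C e i X.1) ≠ 0 := by
  intro h
  have h1 : ε ≤ ‖LinearMap.det (linalpha_C e i X.1)‖ := hX.1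
  rw [h, norm_zero] at h1
  exact absurd hε (not_lt.2 h1)

/-- `α` -/
private def linalpha_a {B : SkewH E V} (τ : AntiU B) (e : F) (i : ℕ) (ε : ℝ) (hε : 0 < ε) :
    SF (SA B × V) ℂ →ₗ[ℂ] SF (SA B × V) ℂ :=
  linalpha_op (linalpha_K τ e i ε) (linalpha_K_clopen τ e i ε) (fun X => linalpha_C e i X.1)
    (fun X => linalpha_inv (linalpha_C e i X.1))
    (fun X _ v => (continuous_end_eval.comp ((((linalpha_C_cont e i).comp
      continuous_subtype_val).comp continuous_fst).prodMk continuous_snd)).continuousAt)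
    (fun X hX v => by
      have h1 := linalpha_inv_cont (linalpha_K_det τ e i ε hε hX) v
      have h2 : ContinuousAt (fun q : SA B × V => (linalpha_C e i q.1.1, q.2)) (X, v) :=
        ((((linalpha_C_cont e i).comp continuous_subtype_val).comp continuous_fst).prodMk
          continuous_snd).continuousAt
      exact ContinuousAt.comp (f := fun q : SA B × V => (linalpha_C e i q.1.1, q.2))
        (g := fun q : Module.End E V × V => linalpha_inv q.1 q.2) h1 h2)
    (fun X hX v => linalpha_inv_mul (linalpha_K_det τ e i ε hε hX) v)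

/-- `β` -/
private def linalpha_b {B : SkewH E V} (τ : AntiU B) (e : F) (i : ℕ) (ε : ℝ) (hε : 0 < ε) :
    SF (SA B × V) ℂ →ₗ[ℂ] SF (SA B × V) ℂ :=
  linalpha_op (linalpha_K τ e i ε) (linalpha_K_clopen τ e i ε)
    (fun X => linalpha_inv (linalpha_C e i X.1)) (fun X => linalpha_C e i X.1)
    (fun X hX v => by
      have h1 := linalpha_inv_cont (linalpha_K_det τ e i ε hε hX) v
      have h2 : ContinuousAt (fun q : SA B × V => (linalpha_C e i q.1.1, q.2)) (X, v) :=
        ((((linalpha_C_cont e i).comp continuous_subtype_val).comp continuous_fst).prodMk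
          continuous_snd).continuousAt
      exact ContinuousAt.comp (f := fun q : SA B × V => (linalpha_C e i q.1.1, q.2))
        (g := fun q : Module.End E V × V => linalpha_inv q.1 q.2) h1 h2)
    (fun X _ v => (continuous_end_eval.comp ((((linalpha_C_cont e i).comp
      continuous_subtype_val).comp continuous_fst).prodMk continuous_snd)).continuousAt)
    (fun X hX v => linalpha_mul_inv (linalpha_K_det τ e i ε hε hX) v)

private theorem linalpha_a_mem {B : SkewH E V} (τ : AntiU B) (e : F) (i : ℕ) (ε : ℝ)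
    (hε : 0 < ε) (f : SF (SA B × V) ℂ) (X : SA B) (v : V) (hX : X ∈ linalpha_K τ e i ε) :
    linalpha_a τ e i ε hε f (X, v) = f (X, linalpha_C e i X.1 v) := by
  classical
  exact if_pos hX

private theorem linalpha_a_not {B : SkewH E V} (τ : AntiU B) (e : F) (i : ℕ) (ε : ℝ)
    (hε : 0 < ε) (f : SF (SA B × V) ℂ) (X : SA B) (v : V) (hX : X ∉ linalpha_K τ e i ε) :
    linalpha_a τ e i ε hε f (X, v) = 0 := by
  classical
  exact if_neg hX

private theorem linalpha_b_mem {B : SkewH E V} (τ : AntiU B) (e : F) (i : ℕ) (ε : ℝ)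
    (hε : 0 < ε) (f : SF (SA B × V) ℂ) (X : SA B) (v : V) (hX : X ∈ linalpha_K τ e i ε) :
    linalpha_b τ e i ε hε f (X, v) = f (X, linalpha_inv (linalpha_C e i X.1) v) := by
  classical
  exact if_pos hX

private theorem linalpha_b_not {B : SkewH E V} (τ : AntiU B) (e : F) (i : ℕ) (ε : ℝ)
    (hε : 0 < ε) (f : SF (SA B × V) ℂ) (X : SA B) (v : V) (hX : X ∉ linalpha_K τ e i ε) :
    linalpha_b τ e i ε hε f (X, v) = 0 := by
  classical
  exact if_neg hX

private theorem linalpha_a_inv {B : SkewH E V} (τ : AntiU B) (e : F) (i : ℕ) (ε : ℝ)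
    (hε : 0 < ε) (h : UU B) (f : SF (SA B × V) ℂ) :
    linalpha_a τ e i ε hε (linAct B h f) = linAct B h (linalpha_a τ e i ε hε f) := by
  apply SF.ext
  rintro ⟨X, v⟩
  show _ = linalpha_a τ e i ε hε f (saConj B h X, h.1.1 v)
  by_cases hX : X ∈ linalpha_K τ e i ε
  · rw [linalpha_a_mem _ _ _ _ _ _ _ _ hX,
      linalpha_a_mem _ _ _ _ _ _ _ _ ((linalpha_K_conj τ e i ε h X).2 hX)]
    have h2 : h.1.1 (linalpha_C e i X.1 v) = linalpha_C e i (saConj B h X).1 (h.1.1 v) := by
      show _ = linalpha_C e i (h.1.1 * X.1 * h.1⁻¹.1) (h.1.1 v)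
      rw [linalpha_C_conj e i X.1 h.1.1 h.1⁻¹.1 h.1.mul_inv h.1.inv_mul]
      show _ = h.1.1 (linalpha_C e i X.1 (h.1⁻¹.1 (h.1.1 v)))
      rw [show h.1⁻¹.1 (h.1.1 v) = v from
        congrArg (fun f : Module.End E V => f v) h.1.inv_mul]
    exact congrArg (fun z => f (saConj B h X, z)) h2
  · rw [linalpha_a_not _ _ _ _ _ _ _ _ hX, linalpha_a_not _ _ _ _ _ _ _ _
      (fun h1 => hX ((linalpha_K_conj τ e i ε h X).1 h1))]

private theorem linalpha_a_tau {B : SkewH E V} (τ : AntiU B) (e : F) (i : ℕ) (ε : ℝ)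
    (hε : 0 < ε) (f : SF (SA B × V) ℂ) :
    linalpha_a τ e i ε hε (linTau F τ f) = linTau F τ (linalpha_a τ e i ε hε f) := by
  apply SF.ext
  rintro ⟨X, v⟩
  show _ = linalpha_a τ e i ε hε f (saTau F τ X, τ.t v)
  by_cases hX : X ∈ linalpha_K τ e i ε
  · rw [linalpha_a_mem _ _ _ _ _ _ _ _ hX,
      linalpha_a_mem _ _ _ _ _ _ _ _ ((linalpha_K_tau τ e i ε X).2 hX)]
    exact congrArg (fun z => f (saTau F τ X, z)) (linalpha_C_tau τ e i X.1 v).symm
  · rw [linalpha_a_not _ _ _ _ _ _ _ _ hX, linalpha_a_not _ _ _ _ _ _ _ _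
      (fun h1 => hX ((linalpha_K_tau τ e i ε X).1 h1))]

variable (F) in
include F in
private theorem linalpha_ipc (B : SkewH E V) : Continuous (fun v : V => B.ip v v) := by
  have h : (fun v : V => B.ip v v) = fun v => ∑ i, (Module.finBasis E V).coord i v *
      B.ip (Module.finBasis E V i) v := by
    funext v
    have h1 : B.lin v v = ∑ i, (Module.finBasis E V).repr v i *
      B.lin v (Module.finBasis E V i) := by
      conv_lhs => arg 2; rw [← (Module.finBasis E V).sum_repr v]
      rw [map_sum]
      refine Finset.sum_congr rfl fun i _ => ?_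
      rw [map_smul, smul_eq_mul]
    exact h1
  rw [h]
  refine continuous_finsetSum _ fun i _ => ?_
  exact ((Module.finBasis E V).coord i).continuous_of_finiteDimensional.mul
    (continuous_ip_right F B (Module.finBasis E V i))

private theorem linalpha_sa {B : SkewH E V} (X : SA B) (n : ℕ) (v w : V) :
    B.ip ((X.1 ^ n) v) w = B.ip v ((X.1 ^ n) w) := by
  induction n generalizing v w with
  | zero => rfl
  | succ n ih =>
    have h1 : (X.1 ^ (n + 1)) v = (X.1 ^ n) (X.1 v) := by rw [pow_succ]; rfl
    have h2 : (X.1 ^ (n + 1)) w = X.1 ((X.1 ^ n) w) := by rw [pow_succ']; rfl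
    rw [h1, h2, ih, X.2]

private theorem linalpha_quad {B : SkewH E V} (X : SA B) (e : F) (i : ℕ) (v : V) :
    B.ip (linalpha_C e i X.1 v) (linalpha_C e i X.1 v) =
      B.ip v v + algebraMap F E e * (2 * B.ip ((X.1 ^ i) v) v + algebraMap F E e *
        B.ip ((X.1 ^ i) v) ((X.1 ^ i) v)) := by
  rw [linalpha_C_apply, B.add_left, B.add_right, B.add_right, B.smul_left, B.smul_left,
    B.smul_right, B.smul_right, QExt.star_alg, ← linalpha_sa X i v v]
  ring

/-- a good `e` -/
private theorem linalpha_good {B : SkewH E V} (τ : AntiU B) (X : SA B) (v : V) (i : ℕ)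
    (h : B.ip ((X.1 ^ i) v) v ≠ 0) : ∃ e : F, LinearMap.det (linalpha_C e i X.1) ≠ 0 ∧
      LinearMap.det (linalpha_C e i (conjτ τ X.1)) ≠ 0 ∧
      B.ip (linalpha_C e i X.1 v) (linalpha_C e i X.1 v) ≠ 0 := by
  haveI : CharZero E := charZero_of_injective_algebraMap (algebraMap F E).injective
  have hc : ∀ Y : Module.End E V, Continuous fun e : F => LinearMap.det (linalpha_C e i Y) := by
    intro Y
    refine linalpha_det.comp ?_
    refine continuous_induced_rng.mpr (continuous_pi fun w => ?_)
    show Continuous fun e : F => linalpha_C e i Y w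
    have h1 : (fun e : F => linalpha_C e i Y w) = fun e => w + (algebraMap F E e) • (Y ^ i) w :=
      rfl
    rw [h1]
    exact continuous_const.add ((continuous_algebraMap F E).smul continuous_const)
  have h0 : ∀ Y : Module.End E V, ∀ᶠ e in nhdsWithin (0 : F) {0}ᶜ,
      LinearMap.det (linalpha_C e i Y) ≠ 0 := by
    intro Y
    refine Filter.Eventually.filter_mono nhdsWithin_le_nhds ?_
    refine (hc Y).continuousAt.eventually_ne ?_
    have h1 : linalpha_C (0 : F) i Y = 1 := by
      unfold linalpha_C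
      rw [map_zero, zero_smul, zero_mul, add_zero]
    rw [h1, map_one]
    exact one_ne_zero
  have h2 : ∀ᶠ e in nhdsWithin (0 : F) {0}ᶜ,
      B.ip (linalpha_C e i X.1 v) (linalpha_C e i X.1 v) ≠ 0 := by
    have hq : ∀ e : F, B.ip (linalpha_C e i X.1 v) (linalpha_C e i X.1 v) =
      B.ip v v + algebraMap F E e * (2 * B.ip ((X.1 ^ i) v) v + algebraMap F E e *
        B.ip ((X.1 ^ i) v) ((X.1 ^ i) v)) := fun e => linalpha_quad X e i v
    by_cases ha : B.ip v v = 0
    · have hc1 : Continuous fun e : F => 2 * B.ip ((X.1 ^ i) v) v + algebraMap F E e *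
          B.ip ((X.1 ^ i) v) ((X.1 ^ i) v) :=
        continuous_const.add ((continuous_algebraMap F E).mul continuous_const)
      have h3 : ∀ᶠ e in nhdsWithin (0 : F) {0}ᶜ, 2 * B.ip ((X.1 ^ i) v) v + algebraMap F E e *
          B.ip ((X.1 ^ i) v) ((X.1 ^ i) v) ≠ 0 := by
        refine Filter.Eventually.filter_mono nhdsWithin_le_nhds ?_
        refine hc1.continuousAt.eventually_ne ?_
        rw [map_zero, zero_mul, add_zero]
        exact mul_ne_zero two_ne_zero h
      have h4 : ∀ᶠ e in nhdsWithin (0 : F) {0}ᶜ, e ≠ 0 := eventually_mem_nhdsWithin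
      filter_upwards [h3, h4] with e he1 he2
      rw [hq, ha, zero_add]
      refine mul_ne_zero ?_ he1
      rw [Ne, map_eq_zero]
      exact he2
    · have hc1 : Continuous fun e : F => B.ip v v + algebraMap F E e *
          (2 * B.ip ((X.1 ^ i) v) v + algebraMap F E e *
          B.ip ((X.1 ^ i) v) ((X.1 ^ i) v)) :=
        continuous_const.add ((continuous_algebraMap F E).mul
          (continuous_const.add ((continuous_algebraMap F E).mul continuous_const)))
      refine Filter.Eventually.filter_mono nhdsWithin_le_nhds ?_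
      have h3 : ∀ᶠ e in nhds (0 : F), B.ip v v + algebraMap F E e *
          (2 * B.ip ((X.1 ^ i) v) v + algebraMap F E e *
          B.ip ((X.1 ^ i) v) ((X.1 ^ i) v)) ≠ 0 := by
        refine hc1.continuousAt.eventually_ne ?_
        rw [map_zero, zero_mul, add_zero]
        exact ha
      filter_upwards [h3] with e he
      rw [hq]
      exact he
  obtain ⟨e, he1, he2, he3⟩ := ((h0 X.1).and ((h0 (conjτ τ X.1)).and h2)).exists
  exact ⟨e, he1, he2, he3⟩

theorem lin32 {B : SkewH E V} (τ : AntiU B)
    (h31 : ∀ T : SF (SA B × V) ℂ →ₗ[ℂ] ℂ, LinInv B T → LinAnti F τ T →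
      SF.VanishOn T {x | ipv B x ≠ 0})
    (T : SF (SA B × V) ℂ →ₗ[ℂ] ℂ) (hT : LinInv B T) (hT' : LinAnti F τ T) :
    SF.SuppOn T (Qset B) := by
  haveI := lc_V E V
  haveI := td_V F E V
  haveI := lc_SA F B
  haveI := td_SA F B
  intro g hg
  refine vanish_local T g ?_
  rintro ⟨X0, v0⟩ hne
  have h1 : ∃ i : ℕ, B.ip ((X0.1 ^ i) v0) v0 ≠ 0 := by
    by_contra hcon
    push Not at hcon
    exact hne (hg (X0, v0) hcon)
  obtain ⟨i, hi⟩ := h1
  obtain ⟨e, he1, he2, he3⟩ := linalpha_good (F := F) τ X0 v0 i hi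
  obtain ⟨ε, hε, h2, h3⟩ : ∃ ε : ℝ, 0 < ε ∧ ε ≤ ‖LinearMap.det (linalpha_C e i X0.1)‖ ∧
      ε ≤ ‖LinearMap.det (linalpha_C e i (conjτ τ X0.1))‖ :=
    ⟨min _ _, lt_min (norm_pos_iff.2 he1) (norm_pos_iff.2 he2), min_le_left _ _, min_le_right _ _⟩
  have hcl := linalpha_K_clopen (F := F) τ e i ε
  have hc : Continuous fun q : SA B × V =>
      B.ip (linalpha_C e i q.1.1 q.2) (linalpha_C e i q.1.1 q.2) :=
    (linalpha_ipc F B).comp (continuous_end_eval.comp ((((linalpha_C_cont e i).comp
      continuous_subtype_val).comp continuous_fst).prodMk continuous_snd))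
  refine ⟨{q | q.1 ∈ linalpha_K τ e i ε ∧
    B.ip (linalpha_C e i q.1.1 q.2) (linalpha_C e i q.1.1 q.2) ≠ 0},
    (hcl.isOpen.preimage continuous_fst).inter (isOpen_ne.preimage hc), ⟨⟨h2, h3⟩, he3⟩, ?_⟩
  intro g' hg'
  have e1 : g' = linalpha_a τ e i ε hε (linalpha_b τ e i ε hε g') := by
    apply SF.ext
    rintro ⟨X, v⟩
    by_cases hX : X ∈ linalpha_K τ e i ε
    · rw [linalpha_a_mem _ _ _ _ _ _ _ _ hX, linalpha_b_mem _ _ _ _ _ _ _ _ hX,
        linalpha_inv_mul (linalpha_K_det τ e i ε hε hX)]
    · rw [linalpha_a_not _ _ _ _ _ _ _ _ hX]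
      exact hg' _ fun h => hX h.1
  rw [e1]
  refine h31 (T ∘ₗ linalpha_a τ e i ε hε) (fun h f => ?_) (fun f => ?_) _ ?_
  · show T (linalpha_a τ e i ε hε (linAct B h f)) = T (linalpha_a τ e i ε hε f)
    rw [linalpha_a_inv, hT]
  · show T (linalpha_a τ e i ε hε (linTau F τ f)) = - T (linalpha_a τ e i ε hε f)
    rw [linalpha_a_tau, hT']
  · rintro ⟨X, w⟩ hw
    by_cases hX : X ∈ linalpha_K τ e i ε
    · rw [linalpha_b_mem _ _ _ _ _ _ _ _ hX]
      refine hg' _ fun h => hw ?_
      have h5 := h.2
      rw [linalpha_mul_inv (linalpha_K_det (F := F) τ e i ε hε hX)] at h5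
      exact h5
    · exact linalpha_b_not (F := F) _ _ _ _ _ _ _ _ hX

end

end Pool.Agent.Work.MP_dd0ddf_al
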