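import Pool.Agent.Work.MP_dd0ddf_al.LinZ3

/-!
# MP_dd0ddf_al, module LinZ4: all T ∈ D_P vanish

If some `T ∈ D_P` is nonzero then `Zset` is nonempty; take `X, W` from `zset_orbit`; by `linZ3` and `hfix` every `T ∈ D_P` kills the functions supported over `W`; but
`X ∈ Zset` and `W` is a neighbourhood of `X`: contradiction with the definition of `Zset`.
-/

set_option linter.unusedSectionVars false
set_option linter.style.haveILetI false

namespace Pool.Agent.Work.MP_dd0ddf_al

noncomputable section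

universe u

variable {F E : Type u} [NontriviallyNormedField F] [IsUltrametricDist F] [ProperSpace F]
  [CharZero F] [NontriviallyNormedField E] [NormedAlgebra F E] [ProperSpace E] [StarRing E]
  [QExt F E]
variable {V : Type u} [AddCommGroup V] [Module E V] [Module.Finite E V] [TopologicalSpace V]
  [IsTopologicalAddGroup V] [T2Space V] [ContinuousSMul E V]

theorem lin_D_zero {B : SkewH E V} (p : PChar F) (τ : AntiU B) (P : Polynomial E)
    (hQ : ∀ T : SF (SA B × V) ℂ →ₗ[ℂ] ℂ, InD F τ P T → SF.SuppOn T (Qset B))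
    (hcount : ∃ s : Set (SA B), s.Countable ∧ ∀ X : SA B, LinearMap.charpoly X.1 = P →
      ∃ Y ∈ s, LinearMap.charpoly Y.1 = P ∧ ∃ h : UU B, saConj B h Y = X)
    (hfix : ∀ (X : SA B) (S : SF V ℂ →ₗ[ℂ] ℂ), FixHyp p X S → S = 0)
    (T : SF (SA B × V) ℂ →ₗ[ℂ] ℂ) (hT : InD F τ P T) : T = 0 := by
  by_contra h0
  obtain ⟨X, hX, W, hW, hXW, hWi, horb⟩ :=
    zset_orbit τ P hcount (zset_nonempty τ P T hT h0)
  obtain ⟨T', hT', f, hf, hTf⟩ := hX W hW hXW
  obtain ⟨S, hS, hS0⟩ := linZ3 p τ P hQ X hX W hW hXW hWi horb T' hT'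
  exact hTf (hS0 (hfix X S hS) f hf)

end

end Pool.Agent.Work.MP_dd0ddf_al
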