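import Pool.Agent.Work.MP_dd0ddf_al.LinZ2

/-!
# MP_dd0ddf_al, module LinZ3: the functional over the open orbit, and its fibre functional

Let `O = Zset ∩ W` (orbit of X, locally compact, open in the closed set Zset).  For `T ∈ D_P`: `T` is supported on `Zset × V` (zset_supp), so
`T f = T_Z (f restricted to Zset × V)` (supp_on_factor) and `T_O = T_Z ∘ ext0` on `SF (O × V) ℂ`.
Use `DescData (UU B) (O × V) O ℂ`, π = first projection, base point `X`, trivial representation; orbit map open by `orbit_map_open`.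
Fix one modulus `m` (`exists_mod`); it works for all `T`.  For `T ∈ D_P` let `S_T ∈ SF V` (fibre over X is V) with `T_O (E_U f) = m(U) S_T f`.
(s1) if `f ∈ SF V` vanishes on `Cset B X` then `E_U f` vanishes on all `(Y, v)`, `v ∈ Cset B Y` (equivariance), so `T_O(E_U f) = 0` by `linZ2`, and `S_T f = 0`.
(s2) `S_{T ∘ fourL} = S_T ∘ fourV`, because `fourL (E_U f) = E_U (fourV f)` (fibrewise transform, commutes with `U(V)`: slice_fourL, fourV_UU): precisely `IsEU U f Φ` implies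
`IsEU U (fourV f) (fourL Φ)` over `O × V`; and `T ∘ fourL ∈ D_P` (fourL_InD), so (s1) for it.
(s3) `desc_delta`; the stabiliser of `X` is `centX B X`; `op R h f = f ∘ h⁻¹` (replace δ by δ⁻¹: `h ↦ δ(h⁻¹)`).
(s4) `desc_sym` with `sX = (saTau τ', τ')`, τ' commuting with X, `sΓ h = τ' h τ'`, ε = -1 (T is antisymmetric for τ' by lin_tau_indep).
(nonzero) if `S_T = 0` then `T_O = 0` (`desc_zero`), i.e. `T` kills the functions supported over `W`.
-/

set_option linter.unusedSectionVars false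
set_option linter.style.haveILetI false

namespace Pool.Agent.Work.MP_dd0ddf_al

noncomputable section

universe u

section Gen

variable {Y V : Type*} [TopologicalSpace Y] [TopologicalSpace V] [T2Space Y] [T2Space V]
  [LocallyCompactSpace Y] [LocallyCompactSpace V] [TotallyDisconnectedSpace Y]
  [TotallyDisconnectedSpace V]

/-- the part of `Z × V` over `W` is `(Z ∩ W) × V` -/
private def linz3_e (Z W : Set Y) (V : Type*) [TopologicalSpace V] :
    {z : {x : Y × V | x.1 ∈ Z} | z.1.1 ∈ W} ≃ₜ (Z ∩ W : Set Y) × V where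
  toFun z := (⟨z.1.1.1, z.1.2, z.2⟩, z.1.1.2)
  invFun q := ⟨⟨(q.1.1, q.2), q.1.2.1⟩, q.1.2.2⟩
  left_inv z := rfl
  right_inv q := rfl
  continuous_toFun := by
    refine Continuous.prodMk (Continuous.subtype_mk ?_ _) ?_
    · exact continuous_fst.comp (continuous_subtype_val.comp continuous_subtype_val)
    · exact continuous_snd.comp (continuous_subtype_val.comp continuous_subtype_val)
  continuous_invFun := by
    refine Continuous.subtype_mk (Continuous.subtype_mk ?_ _) _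
    exact (continuous_subtype_val.comp continuous_fst).prodMk continuous_snd

private theorem linz3_TO (Z W : Set Y) (hZ : IsClosed Z) (hW : IsOpen W)
    (T : SF (Y × V) ℂ →ₗ[ℂ] ℂ) (hT : SF.SuppOn T {x | x.1 ∈ Z}) :
    ∃ TO : SF ((Z ∩ W : Set Y) × V) ℂ →ₗ[ℂ] ℂ,
      ∀ (f : SF (Y × V) ℂ) (g : SF ((Z ∩ W : Set Y) × V) ℂ),
        (∀ x : Y × V, x.1 ∉ W → f x = 0) → (∀ q, g q = f (q.1.1, q.2)) → TO g = T f := by
  have hZ' : IsClosed {x : Y × V | x.1 ∈ Z} := hZ.preimage continuous_fst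
  obtain ⟨S, hS⟩ := supp_on_factor _ hZ' T hT
  have hU : IsOpen {z : {x : Y × V | x.1 ∈ Z} | z.1.1 ∈ W} :=
    hW.preimage (continuous_fst.comp continuous_subtype_val)
  refine ⟨S ∘ₗ SF.ext0 _ hU ∘ₗ SF.comp (linz3_e Z W V), fun f g hf hg => ?_⟩
  rw [hS]
  show S (SF.ext0 _ hU (SF.comp (linz3_e Z W V) g)) = S (SF.restr _ hZ' f)
  congr 1
  apply SF.ext
  intro z
  by_cases hz : z.1.1 ∈ W
  · rw [SF.ext0_apply_mem _ hU _ _ hz]
    exact hg _
  · rw [SF.ext0_apply_not_mem _ hU _ _ hz]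
    exact (hf z.1 hz).symm

private theorem linz3_ext (Z W W' : Set Y) (hZ : IsClosed Z) (hW : IsOpen W) (hW' : IsOpen W')
    (h : ∀ y ∈ Z, y ∈ W → y ∈ W') (g : SF ((Z ∩ W : Set Y) × V) ℂ) :
    ∃ f : SF (Y × V) ℂ, (∀ x : Y × V, x.1 ∉ W' → f x = 0) ∧ ∀ q, g q = f (q.1.1, q.2) := by
  have hZ' : IsClosed {x : Y × V | x.1 ∈ Z} := hZ.preimage continuous_fst
  have hU : IsOpen {z : {x : Y × V | x.1 ∈ Z} | z.1.1 ∈ W} :=
    hW.preimage (continuous_fst.comp continuous_subtype_val)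
  obtain ⟨f, hf1, hf2⟩ := restr_surj {x : Y × V | x.1 ∈ Z} hZ' {x : Y × V | x.1 ∈ W'}
    (hW'.preimage continuous_fst) (SF.ext0 _ hU (SF.comp (linz3_e Z W V) g)) (fun z hz => by
      refine SF.ext0_apply_not_mem _ hU _ _ fun hzW => hz ?_
      exact h z.1.1 z.2 hzW)
  refine ⟨f, fun x hx => hf2 x hx, fun q => ?_⟩
  have h1 := congrArg (fun F : SF {x : Y × V | x.1 ∈ Z} ℂ => F ⟨(q.1.1, q.2), q.1.2.1⟩) hf1
  have h2 : SF.ext0 _ hU (SF.comp (linz3_e Z W V) g) ⟨(q.1.1, q.2), q.1.2.1⟩ = g q :=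
    SF.ext0_apply_mem _ hU _ _ q.1.2.2
  rw [← h2]
  exact h1.symm

omit [LocallyCompactSpace Y] [LocallyCompactSpace V]
  [TotallyDisconnectedSpace Y] [TotallyDisconnectedSpace V] in
private theorem linz3_res (Z W : Set Y) (hZ : IsClosed Z) (f : SF (Y × V) ℂ)
    (hf : ∀ x : Y × V, x.1 ∉ W → f x = 0) :
    ∃ g : SF ((Z ∩ W : Set Y) × V) ℂ, ∀ q, g q = f (q.1.1, q.2) := by
  let ι : (Z ∩ W : Set Y) × V → Y × V := fun q => (q.1.1, q.2)
  have hι : Topology.IsInducing ι := Topology.IsInducing.subtypeVal.prodMap Topology.IsInducing.id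
  refine ⟨⟨fun q => f (ι q), f.2.1.comp_continuous hι.continuous, ?_⟩, fun q => rfl⟩
  let K : Set (Y × V) := Function.support f.1 ∩ {x | x.1 ∈ Z}
  have hK1 : IsClosed (Function.support f.1) := by
    have h1 : Function.support f.1 = f.1 ⁻¹' {0}ᶜ := rfl
    rw [h1]
    exact ⟨by rw [← Set.preimage_compl]; exact f.2.1 _⟩
  have hK : IsCompact K := by
    refine IsCompact.of_isClosed_subset f.2.2 (hK1.inter (hZ.preimage continuous_fst)) ?_
    exact Set.inter_subset_left.trans (subset_tsupport _)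
  have hKr : K ⊆ Set.range ι := by
    rintro x ⟨hx1, hx2⟩
    have hxW : x.1 ∈ W := by
      by_contra h
      exact hx1 (hf x h)
    exact ⟨(⟨x.1, hx2, hxW⟩, x.2), rfl⟩
  have hK2 : IsCompact (ι ⁻¹' K) := (hι.isCompact_preimage_iff hKr).2 hK
  refine HasCompactSupport.of_support_subset_isCompact hK2 ?_
  intro q hq
  exact ⟨hq, q.1.2.1⟩

end Gen

variable {F E : Type u} [NontriviallyNormedField F] [IsUltrametricDist F] [ProperSpace F]
  [CharZero F] [NontriviallyNormedField E] [NormedAlgebra F E] [ProperSpace E] [StarRing E]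
  [QExt F E]
variable {V : Type u} [AddCommGroup V] [Module E V] [Module.Finite E V] [TopologicalSpace V]
  [IsTopologicalAddGroup V] [T2Space V] [ContinuousSMul E V]

private theorem linz3_mul (B : SkewH E V) (g h : UU B) (X : SA B) :
    saConj B (g * h) X = saConj B g (saConj B h X) := by
  apply Subtype.ext
  show (g.1.1 * h.1.1) * X.1 * (g * h).1⁻¹.1 = g.1.1 * (h.1.1 * X.1 * h.1⁻¹.1) * g.1⁻¹.1
  have h1 : ((g * h).1⁻¹ : GV E V) = h.1⁻¹ * g.1⁻¹ := mul_inv_rev _ _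
  rw [h1, Units.val_mul]
  simp only [mul_assoc]

private theorem linz3_one (B : SkewH E V) (X : SA B) : saConj B 1 X = X := by
  apply Subtype.ext
  show (1 : GV E V).1 * X.1 * ((1 : GV E V)⁻¹).1 = X.1
  rw [inv_one, Units.val_one, one_mul, mul_one]

private def linz3_act (B : SkewH E V) : CAct (UU B) (SA B) where
  act h X := saConj B h X
  one X := linz3_one B X
  mul g h X := linz3_mul B g h X
  cont := by
    refine Continuous.subtype_mk ?_ _
    show Continuous fun q : UU B × SA B => q.1.1.1 * q.2.1 * q.1.1⁻¹.1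
    exact ((Units.continuous_val.comp (continuous_subtype_val.comp continuous_fst)).mul
      (continuous_subtype_val.comp continuous_snd)).mul
      (Units.continuous_val.comp ((continuous_subtype_val.comp continuous_fst).inv))

/-- `τ h τ` -/
private def linz3_tg0 {B : SkewH E V} (τ : AntiU B) (h : UU B) : UU B :=
  ⟨⟨conjτ τ h.1.1, conjτ τ h.1⁻¹.1, by rw [← conjτ_mul, h.1.mul_inv, conjτ_one],
    by rw [← conjτ_mul, h.1.inv_mul, conjτ_one]⟩, fun v w => by
    show B.ip (τ.t (h.1.1 (τ.t v))) (τ.t (h.1.1 (τ.t w))) = B.ip v w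
    rw [τ.ip, h.2, τ.ip]⟩

/-- the automorphism `h ↦ τ h τ` of `U(V)` -/
private def linz3_tg {B : SkewH E V} (τ : AntiU B) : UU B ≃* UU B where
  toFun := linz3_tg0 τ
  invFun := linz3_tg0 τ
  left_inv h := Subtype.ext (Units.ext (conjτ_conjτ τ h.1.1))
  right_inv h := Subtype.ext (Units.ext (conjτ_conjτ τ h.1.1))
  map_mul' g h := Subtype.ext (Units.ext (conjτ_mul τ g.1.1 h.1.1))

variable (F) in
include F in
private theorem linz3_tg_cont {B : SkewH E V} (τ : AntiU B) :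
    Continuous (linz3_tg0 τ : UU B → UU B) := by
  refine Continuous.subtype_mk (Units.continuous_iff.2 ⟨?_, ?_⟩) _
  · exact (continuous_conjτ F τ).comp (Units.continuous_val.comp continuous_subtype_val)
  · exact (continuous_conjτ F τ).comp (Units.continuous_val.comp
      (continuous_inv.comp continuous_subtype_val))

/-- conjugation by `τ` and by `h` -/
private theorem linz3_tau_conj {B : SkewH E V} (τ : AntiU B) (h : UU B) (Y : SA B) :
    saTau F τ (saConj B h Y) = saConj B (linz3_tg0 τ h) (saTau F τ Y) := by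
  apply Subtype.ext
  show conjτ τ (h.1.1 * Y.1 * h.1⁻¹.1) = conjτ τ h.1.1 * conjτ τ Y.1 * conjτ τ h.1⁻¹.1
  rw [conjτ_mul, conjτ_mul]

section Data

variable (B : SkewH E V) (Z W : Set (SA B)) (hZi : ∀ (h : UU B) (Y : SA B), Y ∈ Z →
    saConj B h Y ∈ Z) (hWi : ∀ (h : UU B) (Y : SA B), Y ∈ W → saConj B h Y ∈ W)

/-- the action on `Z ∩ W` -/
private def linz3_C : CAct (UU B) (Z ∩ W : Set (SA B)) :=
  (linz3_act B).sub (Z ∩ W) (fun h Y hY => ⟨hZi h Y hY.1, hWi h Y hY.2⟩)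

/-- the action on `(Z ∩ W) × V` -/
private def linz3_A : CAct (UU B) ((Z ∩ W : Set (SA B)) × V) where
  act h x := ((linz3_C B Z W hZi hWi).act h x.1, h.1.1 x.2)
  one x := Prod.ext ((linz3_C B Z W hZi hWi).one x.1) rfl
  mul g h x := Prod.ext ((linz3_C B Z W hZi hWi).mul g h x.1) rfl
  cont := by
    refine Continuous.prodMk ?_ ?_
    · exact (linz3_C B Z W hZi hWi).cont.comp (continuous_fst.prodMk
        (continuous_fst.comp continuous_snd))
    · exact continuous_end_eval.comp ((Units.continuous_val.comp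
        (continuous_subtype_val.comp continuous_fst)).prodMk (continuous_snd.comp continuous_snd))

/-- the descent data -/
private def linz3_D (X : SA B) (hX : X ∈ Z ∩ W)
    (htr : ∀ Y : (Z ∩ W : Set (SA B)), ∃ h, (linz3_C B Z W hZi hWi).act h ⟨X, hX⟩ = Y)
    (hop : IsOpenMap fun h => (linz3_C B Z W hZi hWi).act h ⟨X, hX⟩) :
    DescData (UU B) ((Z ∩ W : Set (SA B)) × V) (Z ∩ W : Set (SA B)) ℂ where
  A := linz3_A B Z W hZi hWi
  C := linz3_C B Z W hZi hWi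
  R := SRep.triv (UU B) ℂ
  π := Prod.fst
  hπ := continuous_fst
  eqv _ _ := rfl
  o := ⟨X, hX⟩
  tr := htr
  opn := hop

variable (X : SA B) (hX : X ∈ Z ∩ W)
    (htr : ∀ Y : (Z ∩ W : Set (SA B)), ∃ h, (linz3_C B Z W hZi hWi).act h ⟨X, hX⟩ = Y)
    (hop : IsOpenMap fun h => (linz3_C B Z W hZi hWi).act h ⟨X, hX⟩)

/-- the fibre is `V` -/
private def linz3_eF : (linz3_D B Z W hZi hWi X hX htr hop).Fib ≃ₜ V where
  toFun x := x.1.2
  invFun v := ⟨(⟨X, hX⟩, v), rfl⟩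
  left_inv x := Subtype.ext (Prod.ext x.2.symm rfl)
  right_inv _ := rfl
  continuous_toFun := continuous_snd.comp continuous_subtype_val
  continuous_invFun := (continuous_const.prodMk continuous_id).subtype_mk _

private theorem linz3_stab (h : UU B) :
    h ∈ (linz3_D B Z W hZi hWi X hX htr hop).stab ↔ h ∈ centX B X := by
  have h1 : h ∈ (linz3_D B Z W hZi hWi X hX htr hop).stab ↔ saConj B h X = X :=
    ⟨fun h1 => congrArg Subtype.val h1, fun h1 => Subtype.ext h1⟩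
  rw [h1]
  constructor
  · intro h2
    have h3 : h.1.1 * X.1 * h.1⁻¹.1 = X.1 := congrArg Subtype.val h2
    show h.1.1 * X.1 = X.1 * h.1.1
    conv_rhs => rw [← h3]
    rw [mul_assoc, show h.1⁻¹.1 * h.1.1 = 1 from h.1.inv_mul, mul_one]
  · intro h2
    apply Subtype.ext
    show h.1.1 * X.1 * h.1⁻¹.1 = X.1
    rw [show h.1.1 * X.1 = X.1 * h.1.1 from h2, mul_assoc,
      show h.1.1 * h.1⁻¹.1 = 1 from h.1.mul_inv, mul_one]

private theorem linz3_tau_act (τ : AntiU B) (γ : UU B) (Y : SA B) :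
    saTau F τ (saConj B (linz3_tg τ γ) Y) = saConj B γ (saTau F τ Y) := by
  apply Subtype.ext
  show conjτ τ (conjτ τ γ.1.1 * Y.1 * conjτ τ γ.1⁻¹.1) = γ.1.1 * conjτ τ Y.1 * γ.1⁻¹.1
  rw [conjτ_mul, conjτ_mul, conjτ_conjτ, conjτ_conjτ]

/-- the symmetry given by `τ` -/
private def linz3_S (τ : AntiU B) (hτ : saTau F τ X = X)
    (hO : ∀ Y, Y ∈ Z ∩ W → saTau F τ Y ∈ Z ∩ W) :
    (linz3_D B Z W hZi hWi X hX htr hop).DSym where
  sX := Homeomorph.prodCongr
    { toFun := fun Y => ⟨saTau F τ Y.1, hO Y.1 Y.2⟩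
      invFun := fun Y => ⟨saTau F τ Y.1, hO Y.1 Y.2⟩
      left_inv := fun Y => Subtype.ext ((saTau F τ).left_inv Y.1)
      right_inv := fun Y => Subtype.ext ((saTau F τ).left_inv Y.1)
      continuous_toFun := ((saTau F τ).continuous.comp continuous_subtype_val).subtype_mk _
      continuous_invFun := ((saTau F τ).continuous.comp continuous_subtype_val).subtype_mk _ }
    (tauH F τ)
  sB := LinearMap.id
  sΓ := linz3_tg τ
  cont := linz3_tg_cont F τ
  cont' := linz3_tg_cont F τ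
  compX γ x := by
    refine Prod.ext (Subtype.ext (linz3_tau_act B τ γ x.1.1)) ?_
    show τ.t (τ.t (γ.1.1 (τ.t x.2))) = γ.1.1 (τ.t x.2)
    rw [τ.inv]
  compB γ b := rfl
  fib x := by
    constructor
    · intro h
      have h1 : saTau F τ x.1.1 = X := congrArg Subtype.val h
      have h2 : saTau F τ (saTau F τ x.1.1) = x.1.1 := (saTau F τ).left_inv x.1.1
      rw [h1, hτ] at h2
      exact Subtype.ext h2.symm
    · intro h
      have h1 : x.1.1 = X := congrArg Subtype.val h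
      refine Subtype.ext ?_
      show saTau F τ x.1.1 = X
      rw [h1, hτ]
  stb γ := by
    rw [linz3_stab, linz3_stab]
    have hc : conjτ τ X.1 = X.1 := congrArg Subtype.val hτ
    constructor
    · intro h
      have h1 : γ.1.1 * X.1 = X.1 * γ.1.1 := h
      have h2 := congrArg (conjτ τ) h1
      rw [conjτ_mul, conjτ_mul, hc] at h2
      exact h2
    · intro h
      have h1 : conjτ τ γ.1.1 * X.1 = X.1 * conjτ τ γ.1.1 := h
      have h2 := congrArg (conjτ τ) h1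
      rw [conjτ_mul, conjτ_mul, hc, conjτ_conjτ] at h2
      exact h2

end Data

private theorem linz3_inv_apply (B : SkewH E V) (u : UU B) (v : V) :
    u.1.1 (u.1⁻¹.1 v) = v := congrArg (fun f : Module.End E V => f v) u.1.mul_inv

private theorem linz3_Cset (B : SkewH E V) (u : UU B) (X : SA B) (v : V)
    (h : u.1.1 v ∈ Cset B (saConj B u X)) : v ∈ Cset B X := by
  intro Y hY
  have hu : u.1⁻¹.1 * u.1.1 = 1 := u.1.inv_mul
  have h1 := h (u.1.1 * Y * u.1⁻¹.1) (by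
    show (u.1.1 * Y * u.1⁻¹.1) * (u.1.1 * X.1 * u.1⁻¹.1) =
      (u.1.1 * X.1 * u.1⁻¹.1) * (u.1.1 * Y * u.1⁻¹.1)
    calc (u.1.1 * Y * u.1⁻¹.1) * (u.1.1 * X.1 * u.1⁻¹.1)
        = u.1.1 * Y * (u.1⁻¹.1 * u.1.1) * X.1 * u.1⁻¹.1 := by simp only [mul_assoc]
      _ = u.1.1 * (Y * X.1) * u.1⁻¹.1 := by rw [hu]; simp only [mul_assoc, mul_one]
      _ = u.1.1 * (X.1 * Y) * u.1⁻¹.1 := by rw [hY]
      _ = u.1.1 * X.1 * (u.1⁻¹.1 * u.1.1) * Y * u.1⁻¹.1 := by
          rw [hu]; simp only [mul_assoc, mul_one]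
      _ = (u.1.1 * X.1 * u.1⁻¹.1) * (u.1.1 * Y * u.1⁻¹.1) := by simp only [mul_assoc])
  have h2 : (u.1.1 * Y * u.1⁻¹.1) (u.1.1 v) = u.1.1 (Y v) := by
    show u.1.1 (Y (u.1⁻¹.1 (u.1.1 v))) = u.1.1 (Y v)
    rw [show u.1⁻¹.1 (u.1.1 v) = v from congrArg (fun f : Module.End E V => f v) hu]
  rw [h2, u.2] at h1
  exact h1

private theorem linz3_kill {B : SkewH E V} (τ : AntiU B) (P : Polynomial E)
    (hQ : ∀ T : SF (SA B × V) ℂ →ₗ[ℂ] ℂ, InD F τ P T → SF.SuppOn T (Qset B))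
    (X : SA B) (hX : X ∈ Zset F τ P) (W : Set (SA B)) (hW : IsOpen W) (hXW : X ∈ W)
    (hWi : ∀ (h : UU B) (Y : SA B), Y ∈ W → saConj B h Y ∈ W)
    (horb : ∀ Y ∈ Zset F τ P, Y ∈ W → ∃ h : UU B, saConj B h X = Y)
    (T : SF (SA B × V) ℂ →ₗ[ℂ] ℂ) (hT : InD F τ P T)
    (U : Subgroup (UU B)) (f : SF V ℂ) (hf : ∀ v ∈ Cset B X, f v = 0)
    (Φ : SF (SA B × V) ℂ) (h1 : ∀ x : SA B × V, x.1 ∉ W → Φ x = 0)
    (h2 : ∀ u ∈ U, ∀ v : V, Φ (saConj B u X, u.1.1 v) = f v)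
    (h3 : ∀ Y ∈ Zset F τ P, Y ∈ W → (∀ u ∈ U, saConj B u X ≠ Y) → ∀ v, Φ (Y, v) = 0) :
    T Φ = 0 := by
  haveI := lc_V E V
  haveI := td_V F E V
  haveI := lc_SA F B
  haveI := td_SA F B
  refine vanish_local T Φ fun x hx => ?_
  obtain ⟨Y, v⟩ := x
  have hYW : Y ∈ W := by
    by_contra h
    exact hx (h1 _ h)
  by_cases hYZ : Y ∈ Zset F τ P
  · refine linZ2_local τ P hQ X hX W hW hXW hWi horb T hT Y v hYW fun hC => hx ?_
    by_cases hu : ∃ u ∈ U, saConj B u X = Y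
    · obtain ⟨u, hu, rfl⟩ := hu
      have h4 := h2 u hu (u.1⁻¹.1 v)
      rw [linz3_inv_apply] at h4
      rw [h4]
      refine hf _ (linz3_Cset B u X _ ?_)
      rw [linz3_inv_apply]
      exact hC
    · push Not at hu
      exact h3 Y hYZ hYW hu v
  · exact ⟨{y | y.1 ∈ (Zset F τ P)ᶜ}, (zset_closed τ P).isOpen_compl.preimage continuous_fst,
      hYZ, fun g hg => zset_supp τ P T hT g fun z hz => hg z fun h => h hz⟩

theorem linZ3 {B : SkewH E V} (p : PChar F) (τ : AntiU B) (P : Polynomial E)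
    (hQ : ∀ T : SF (SA B × V) ℂ →ₗ[ℂ] ℂ, InD F τ P T → SF.SuppOn T (Qset B))
    (X : SA B) (hX : X ∈ Zset F τ P) (W : Set (SA B)) (hW : IsOpen W) (hXW : X ∈ W)
    (hWi : ∀ (h : UU B) (Y : SA B), Y ∈ W → saConj B h Y ∈ W)
    (horb : ∀ Y ∈ Zset F τ P, Y ∈ W → ∃ h : UU B, saConj B h X = Y)
    (T : SF (SA B × V) ℂ →ₗ[ℂ] ℂ) (hT : InD F τ P T) :
    ∃ S : SF V ℂ →ₗ[ℂ] ℂ, FixHyp p X S ∧
      (S = 0 → ∀ f : SF (SA B × V) ℂ, (∀ x : SA B × V, x.1 ∉ W → f x = 0) → T f = 0) := by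
  classical
  haveI := lc_V E V
  haveI := td_V F E V
  haveI := lc_SA F B
  haveI := td_SA F B
  haveI := lc_UU F B
  haveI := td_UU F B
  have hZ : IsClosed (Zset F τ P) := zset_closed τ P
  haveI : LocallyCompactSpace (Zset F τ P ∩ W : Set (SA B)) :=
    (hZ.isLocallyClosed.inter hW.isLocallyClosed).locallyCompactSpace
  have hZi : ∀ (h : UU B) (Y : SA B), Y ∈ Zset F τ P → saConj B h Y ∈ Zset F τ P :=
    fun h Y hY => zset_inv τ P h Y hY
  have htr : ∀ Y : (Zset F τ P ∩ W : Set (SA B)), ∃ h,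
      (linz3_C B (Zset F τ P) W hZi hWi).act h ⟨X, hX, hXW⟩ = Y := by
    rintro ⟨Y, hY1, hY2⟩
    obtain ⟨h, hh⟩ := horb Y hY1 hY2
    exact ⟨h, Subtype.ext hh⟩
  have hop := orbit_map_open (linz3_C B (Zset F τ P) W hZi hWi) ⟨X, hX, hXW⟩ htr
  let D := linz3_D B (Zset F τ P) W hZi hWi X ⟨hX, hXW⟩ htr hop
  let eF : D.Fib ≃ₜ V := linz3_eF B (Zset F τ P) W hZi hWi X ⟨hX, hXW⟩ htr hop
  obtain ⟨m, hm⟩ := exists_mod D
  obtain ⟨TO, hTO⟩ := linz3_TO (Zset F τ P) W hZ hW T (zset_supp τ P T hT)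
  have hinv : ∀ γ g, TO (D.A.op D.R γ g) = TO g := by
    intro γ g
    obtain ⟨Φ, h1, h2⟩ := linz3_ext (Zset F τ P) W W hZ hW hW (fun _ _ h => h) g
    rw [hTO Φ g h1 h2, hTO (linAct B γ⁻¹ Φ) (D.A.op D.R γ g) ?_ ?_]
    · exact hT.inv γ⁻¹ Φ
    · intro x hx
      refine h1 _ fun h => hx ?_
      have h3 := hWi γ _ h
      have h4 : saConj B γ (saConj B γ⁻¹ x.1) = x.1 := by
        rw [← linz3_mul, mul_inv_cancel, linz3_one]
      rwa [← h4]
    · intro q
      exact h2 (D.A.act γ⁻¹ q)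
  obtain ⟨S', hS'⟩ := hm.2.2 TO hinv
  have hEU : ∀ (U : Subgroup (UU B)) (f : SF V ℂ) (G : SF ((Zset F τ P ∩ W : Set (SA B)) × V) ℂ)
      (Φ : SF (SA B × V) ℂ), D.IsEU U (SF.comp eF f) G → (∀ q, G q = Φ (q.1.1, q.2)) →
      (∀ u ∈ U, ∀ v : V, Φ (saConj B u X, u.1.1 v) = f v) ∧
      (∀ Y ∈ Zset F τ P, Y ∈ W → (∀ u ∈ U, saConj B u X ≠ Y) → ∀ v, Φ (Y, v) = 0) := by
    intro U f G Φ hG h2
    constructor
    · intro u hu v
      have h3 := hG.1 u hu ⟨(⟨X, hX, hXW⟩, v), rfl⟩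
      rw [h2] at h3
      exact h3
    · intro Y hY1 hY2 hu v
      have h3 := hG.2 (⟨Y, hY1, hY2⟩, v) (fun u huU h => hu u huU (congrArg Subtype.val h))
      rw [h2] at h3
      exact h3
  have hm0 : ∀ U, DescData.CO U → (m U : ℂ) ≠ 0 := fun U hU => by
    rw [Ne, Complex.ofReal_eq_zero]
    exact (hm.1 U hU).ne'
  have hfop : ∀ (γ : D.stab) (f : SF V ℂ), D.fop γ (SF.comp eF f) =
      SF.comp eF (SF.comp (gvHomeo (γ⁻¹).1.1) f) := fun γ f => SF.ext fun _ => rfl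
  have heF : ∀ f g : SF V ℂ, SF.comp eF f = SF.comp eF g → f = g := by
    intro f g h
    apply SF.ext
    intro v
    have h1 := congrArg (fun F : SF D.Fib ℂ => F (eF.symm v)) h
    have h2 : f (eF (eF.symm v)) = g (eF (eF.symm v)) := h1
    rwa [eF.apply_symm_apply] at h2
  refine ⟨S' ∘ₗ SF.comp eF, ⟨?_, ?_, ?_, ?_⟩, ?_⟩
  · -- s1
    intro f hf
    obtain ⟨U, hU, h⟩ := eu_small D (SF.comp eF f)
    obtain ⟨G, hG⟩ := eu_exists D _ U hU h
    obtain ⟨Φ, h1, h2⟩ := linz3_ext (Zset F τ P) W W hZ hW hW (fun _ _ h => h) G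
    obtain ⟨h3, h4⟩ := hEU U f G Φ hG h2
    have h5 := linz3_kill τ P hQ X hX W hW hXW hWi horb T hT U f hf Φ h1 h3 h4
    rw [← hTO Φ G h1 h2, hS' U _ G hU hG] at h5
    exact (mul_eq_zero.1 h5).resolve_left (hm0 U hU)
  · -- s2
    intro f hf
    obtain ⟨U, hU, h⟩ := eu_small D (SF.comp eF f)
    obtain ⟨G, hG⟩ := eu_exists D _ U hU h
    obtain ⟨Φ, h1, h2⟩ := linz3_ext (Zset F τ P) W W hZ hW hW (fun _ _ h => h) G
    obtain ⟨h3, h4⟩ := hEU U f G Φ hG h2
    have h' : ∀ γ : D.stab, γ.1 ∈ U → D.fop γ (SF.comp eF (fourV B p f)) =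
        SF.comp eF (fourV B p f) := by
      intro γ hγ
      have h5 := h γ hγ
      rw [hfop] at h5
      rw [hfop, ← fourV_UU, heF _ _ h5]
    obtain ⟨G', hG'⟩ := eu_exists D _ U hU h'
    have hsl : ∀ (Y : SA B) (v : V), fourL B p Φ (Y, v) = fourV B p (SF.slice Y Φ) v :=
      fun Y v => congrArg (fun g : SF V ℂ => g v) (slice_fourL B p Φ Y)
    have hz : ∀ Y : SA B, (∀ v, Φ (Y, v) = 0) → ∀ v, fourL B p Φ (Y, v) = 0 := by
      intro Y hY v
      have h5 : SF.slice Y Φ = 0 := SF.ext fun w => hY w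
      rw [hsl, h5, map_zero]
      rfl
    have h1' : ∀ x : SA B × V, x.1 ∉ W → fourL B p Φ x = 0 := fun x hx =>
      hz x.1 (fun v => h1 (x.1, v) hx) x.2
    have h2' : ∀ q, G' q = fourL B p Φ (q.1.1, q.2) := by
      rintro ⟨⟨Y, hY1, hY2⟩, v⟩
      by_cases hu : ∃ u ∈ U, saConj B u X = Y
      · obtain ⟨u, hu, rfl⟩ := hu
        have h5 : SF.slice (saConj B u X) Φ = SF.comp (gvHomeo u⁻¹.1) f := by
          apply SF.ext
          intro w
          show Φ (saConj B u X, w) = f (u.1⁻¹.1 w)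
          rw [← h3 u hu (u.1⁻¹.1 w), linz3_inv_apply]
        have h6 := hG'.1 u hu ⟨(⟨X, hX, hXW⟩, u.1⁻¹.1 v), rfl⟩
        have h7 : G' (⟨saConj B u X, hY1, hY2⟩, u.1.1 (u.1⁻¹.1 v)) =
            fourV B p f (u.1⁻¹.1 v) := h6
        rw [linz3_inv_apply] at h7
        show G' (⟨saConj B u X, hY1, hY2⟩, v) = fourL B p Φ (saConj B u X, v)
        rw [h7, hsl, h5, fourV_UU]
        rfl
      · push Not at hu
        have h6 := hG'.2 (⟨Y, hY1, hY2⟩, v) (fun u huU h => hu u huU (congrArg Subtype.val h))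
        rw [h6]
        exact (hz Y (fun w => h4 Y hY1 hY2 hu w) v).symm
    have h5 := linz3_kill τ P hQ X hX W hW hXW hWi horb (T ∘ₗ fourL B p)
      (fourL_InD p τ P T hT) U f hf Φ h1 h3 h4
    have h6 : T (fourL B p Φ) = 0 := h5
    rw [← hTO _ G' h1' h2', hS' U _ G' hU hG'] at h6
    exact (mul_eq_zero.1 h6).resolve_left (hm0 U hU)
  · -- s3
    obtain ⟨δ, hδ⟩ := desc_delta D hm
    have hst : ∀ h : centX B X, h.1⁻¹ ∈ D.stab := fun h =>
      (linz3_stab B (Zset F τ P) W hZi hWi X ⟨hX, hXW⟩ htr hop _).2 ((centX B X).inv_mem h.2)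
    let κ : centX B X → D.stab := fun h => ⟨h.1⁻¹, hst h⟩
    have hκ : Continuous κ := (continuous_inv.comp continuous_subtype_val).subtype_mk _
    have hκ1 : κ 1 = 1 := Subtype.ext inv_one
    have hκm : ∀ g h, κ (g * h) = κ h * κ g := fun g h => Subtype.ext (mul_inv_rev g.1 h.1)
    refine ⟨⟨fun h => δ.δ (κ h), fun h => δ.pos _, fun g h => ?_, ?_⟩, fun h f => ?_⟩
    · rw [hκm, δ.mul, mul_comm]
    · obtain ⟨N, hN, h1, h2⟩ := δ.lc
      exact ⟨κ ⁻¹' N, hN.preimage hκ, by rw [Set.mem_preimage, hκ1]; exact h1,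
        fun γ hγ => h2 _ hγ⟩
    · have h1 := hδ TO S' hinv hS' (κ h) (SF.comp eF f)
      rw [hfop] at h1
      have h2 : ((κ h)⁻¹).1.1 = h.1.1 := by
        show ((h.1⁻¹)⁻¹ : UU B).1 = h.1.1
        rw [inv_inv]
      rw [h2] at h1
      exact h1
  · -- s4
    intro τ' hτ'
    have hτX : saTau F τ' X = X := Subtype.ext hτ'
    have hO : ∀ Y, Y ∈ Zset F τ P ∩ W → saTau F τ' Y ∈ Zset F τ P ∩ W := by
      rintro Y ⟨hY1, hY2⟩
      obtain ⟨h, rfl⟩ := horb Y hY1 hY2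
      rw [linz3_tau_conj, hτX]
      exact ⟨hZi _ _ hX, hWi _ _ hXW⟩
    obtain ⟨c, hc, h⟩ := desc_sym D hm
      (linz3_S B (Zset F τ P) W hZi hWi X ⟨hX, hXW⟩ htr hop τ' hτX hO)
    refine ⟨c, hc, fun f => ?_⟩
    have h1 := h TO S' hinv hS' (-1) ?_ (SF.comp eF f)
    · rw [neg_one_mul] at h1
      exact h1
    · intro g
      have hW' : IsOpen (W ∩ (saTau F τ') ⁻¹' W) :=
        hW.inter (hW.preimage (saTau F τ').continuous)
      obtain ⟨Φ, h1, h2⟩ := linz3_ext (Zset F τ P) W _ hZ hW hW'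
        (fun Y hY1 hY2 => ⟨hY2, (hO Y ⟨hY1, hY2⟩).2⟩) g
      have h3 : ∀ x : SA B × V, x.1 ∉ W → Φ x = 0 := fun x hx => h1 x fun h => hx h.1
      rw [hTO Φ g h3 h2, hTO (linTau F τ' Φ) _ ?_ ?_]
      · rw [neg_one_mul]
        exact lin_tau_indep τ τ' T hT.inv hT.anti Φ
      · intro x hx
        refine h1 _ fun h => hx ?_
        have h4 : saTau F τ' (saTau F τ' x.1) ∈ W := h.2
        rwa [show saTau F τ' (saTau F τ' x.1) = x.1 from (saTau F τ').left_inv x.1] at h4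
      · intro q
        exact h2 _
  · -- nonzero
    intro h0 f hf
    have h1 : TO = 0 := by
      refine desc_zero D TO hinv fun U f' G hU hG => ?_
      have h2 : f' = SF.comp eF (SF.comp eF.symm f') := by
        apply SF.ext
        intro x
        show f' x = f' (eF.symm (eF x))
        rw [eF.symm_apply_apply]
      rw [hS' U f' G hU hG, h2]
      have h3 := congrArg (fun S : SF V ℂ →ₗ[ℂ] ℂ => S (SF.comp eF.symm f')) h0
      have h4 : S' (SF.comp eF (SF.comp eF.symm f')) = 0 := h3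
      rw [h4, mul_zero]
    obtain ⟨g, hg⟩ := linz3_res (Zset F τ P) W hZ f hf
    rw [← hTO f g hf hg, h1, LinearMap.zero_apply]

end

end Pool.Agent.Work.MP_dd0ddf_al
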