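import Pool.Agent.Work.MP_dd0ddf_al.NiMain
import Pool.Agent.Work.MP_dd0ddf_al.OrthoB

/-!
# MP_dd0ddf_al, module NiBin: binary Hermitian forms represent everything

`a N(x) + b N(y) = c` is solvable for `a, b, c ≠ 0`.  `H = N(E^×)`, index 2.  Scale: `a = 1`.  If `-b ∈ H`: `-b = N(z)`: `N(x) - N(zy)` represents everything
(`x = (c+1)/2, zy = (c-1)/2`: difference of squares gives c).  So let `-b ∉ H`.  If `c ∈ H` take y = 0.  So `c ∉ H`.  If `c/b ∈ H` take x = 0.  So `c/b ∉ H`, `b ∈ H` (index 2), so
`-1 ∉ H`.  If for some `y`: `c - b N(y) ∈ H` done.  Otherwise `c - bN(y) ∉ H`, nonzero, for all `y`; here `-b N(y)` runs through all of the nontrivial coset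
(and 0) and `c` is in the nontrivial coset: hence the nontrivial coset `F^× \ H` is closed under addition (scale by elements of H: for `s, t` in the coset write
`s = c h`, `t = -b N(y) h`, h ∈ H), so `H` is closed under addition (multiply by a nonnorm).  Then all positive integers are in `H`;
but there are positive integers arbitrarily close to `-1` (`‖m‖ < 1` for some integer `m > 1`, `m^k - 1 → -1`; such m exists: the residue field is finite /
`F` is locally compact so the sequence n ↦ n in the compact unit ball has two close terms) and `H` is open (`isNorm_near_one`), so `-1 ∈ H`: contradiction.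
-/

set_option linter.unusedSectionVars false
set_option linter.style.haveILetI false

namespace Pool.Agent.Work.MP_dd0ddf_al

noncomputable section

universe u

variable {F E : Type u} [NontriviallyNormedField F] [IsUltrametricDist F] [ProperSpace F]
  [CharZero F] [NontriviallyNormedField E] [NormedAlgebra F E] [ProperSpace E] [StarRing E]
  [QExt F E]

variable (F E) in
private theorem nibin_inv {c : F} (h : IsNorm F E c) : IsNorm F E c⁻¹ := by
  obtain ⟨x, hx, hxc⟩ := h
  refine ⟨x⁻¹, inv_ne_zero hx, ?_⟩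
  rw [star_inv₀, map_inv₀, ← hxc, mul_inv]

variable (F E) in
private theorem nibin_ne {c : F} (h : IsNorm F E c) : c ≠ 0 := by
  obtain ⟨x, hx, hxc⟩ := h
  intro h0
  rw [h0, map_zero] at hxc
  rcases mul_eq_zero.1 hxc with h1 | h1
  · exact hx h1
  · exact hx (by rw [← star_star x, h1, star_zero])

variable (F E) in
private theorem nibin_mul {c c' : F} (h : IsNorm F E c) (h' : IsNorm F E c') :
    IsNorm F E (c * c') :=
  (norm_mul_iff F E (nibin_ne F E h) (nibin_ne F E h') h).2 h'

variable (F E) in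
private theorem nibin_one : IsNorm F E 1 := ⟨1, one_ne_zero, by simp⟩

variable (F) in
/-- an integer with small norm -/
private theorem nibin_small : ∃ m : ℕ, 1 < m ∧ ‖(m : F)‖ < 1 := by
  have hc : IsCompact (Metric.closedBall (0 : F) 1) := isCompact_closedBall 0 1
  obtain ⟨a, -, φ, hφ, hlim⟩ := hc.tendsto_subseq (x := fun n : ℕ => (n : F)) (fun n => by
    rw [mem_closedBall_zero_iff]
    exact IsUltrametricDist.norm_natCast_le_one F n)
  have hcs : CauchySeq ((fun n : ℕ => (n : F)) ∘ φ) := hlim.cauchySeq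
  obtain ⟨N, hN⟩ := Metric.cauchySeq_iff.1 hcs 1 one_pos
  have h1 := hN (N + 1) (Nat.le_succ N) N le_rfl
  have h2 : φ N < φ (N + 1) := hφ (Nat.lt_succ_self N)
  rw [dist_eq_norm] at h1
  have h3 : ((fun n : ℕ => (n : F)) ∘ φ) (N + 1) - ((fun n : ℕ => (n : F)) ∘ φ) N =
      ((φ (N + 1) - φ N : ℕ) : F) := by
    rw [Nat.cast_sub h2.le]
    rfl
  rw [h3] at h1
  refine ⟨φ (N + 1) - φ N, ?_, h1⟩
  by_contra hcon
  have h4 : φ (N + 1) - φ N = 1 := by omega
  rw [h4, Nat.cast_one, norm_one] at h1
  exact lt_irrefl _ h1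

variable (F E) in
/-- the case `a = 1` -/
private theorem nibin_one_case (b c : F) (hb : b ≠ 0) (hc : c ≠ 0) :
    ∃ x y : E, x * star x + algebraMap F E b * (y * star y) = algebraMap F E c := by
  have hstarF : ∀ t : F, star (algebraMap F E t) = algebraMap F E t := QExt.star_alg
  have h2 : (2 : F) ≠ 0 := two_ne_zero
  by_cases hbn : IsNorm F E (-b)
  · obtain ⟨z, hz, hzb⟩ := hbn
    have hsz : star z ≠ 0 := by
      intro h
      exact hz (by rw [← star_star z, h, star_zero])
    refine ⟨algebraMap F E ((c + 1) / 2), algebraMap F E ((c - 1) / 2) * z⁻¹, ?_⟩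
    have hb' : algebraMap F E b = -(z * star z) := by
      rw [hzb, map_neg, neg_neg]
    rw [star_mul', star_inv₀, hstarF, hstarF, hb']
    have e1 : -(z * star z) * (algebraMap F E ((c - 1) / 2) * z⁻¹ *
        (algebraMap F E ((c - 1) / 2) * (star z)⁻¹)) =
        -(algebraMap F E ((c - 1) / 2) * algebraMap F E ((c - 1) / 2)) := by
      field_simp
    rw [e1, ← map_mul, ← map_mul, ← map_neg, ← map_add]
    congr 1
    field_simp
    ring
  by_cases hcn : IsNorm F E c
  · obtain ⟨x, -, hx⟩ := hcn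
    exact ⟨x, 0, by rw [hx]; simp⟩
  by_cases hcb : IsNorm F E (c / b)
  · obtain ⟨y, -, hy⟩ := hcb
    refine ⟨0, y, ?_⟩
    rw [hy, ← map_mul, mul_div_cancel₀ _ hb]
    simp
  -- `b` is a norm, `-1` is not
  have hbN : IsNorm F E b := by
    have h3 : ¬ IsNorm F E (c / b)⁻¹ := fun h => hcb (by
      have := nibin_inv F E h
      rwa [inv_inv] at this)
    have h4 := nonnorm_mul F E hc (inv_ne_zero (div_ne_zero hc hb)) hcn h3
    have h5 : c * (c / b)⁻¹ = b := by field_simp
    rwa [h5] at h4
  have hm1 : ¬ IsNorm F E (-1 : F) := by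
    intro h
    apply hbn
    have := nibin_mul F E h hbN
    rwa [neg_one_mul] at this
  by_contra hcon
  push Not at hcon
  -- all values are nonnorms
  have hval : ∀ y : E, ∀ t : F, algebraMap F E t = y * star y → ¬ IsNorm F E (c - b * t) := by
    intro y t ht hN
    obtain ⟨x, -, hx⟩ := hN
    refine hcon x y ?_
    rw [hx, ← ht, ← map_mul, ← map_add]
    congr 1
    ring
  have hne : ∀ t : F, IsNorm F E t → c - b * t ≠ 0 := by
    intro t ht h0
    apply hcb
    have h5 : c / b = t := by
      rw [div_eq_iff hb]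
      linear_combination h0
    rwa [h5]
  -- the coset is closed under addition
  have hcos : ∀ s t : F, s ≠ 0 → t ≠ 0 → ¬ IsNorm F E s → ¬ IsNorm F E t →
      (s + t ≠ 0 ∧ ¬ IsNorm F E (s + t)) := by
    intro s t hs ht hsn htn
    -- s = c h
    have hh : IsNorm F E (s / c) := by
      have h3 : ¬ IsNorm F E c⁻¹ := fun h => hcn (by
        have := nibin_inv F E h
        rwa [inv_inv] at this)
      have := nonnorm_mul F E hs (inv_ne_zero hc) hsn h3
      rwa [← div_eq_mul_inv] at this
    have hh0 : s / c ≠ 0 := div_ne_zero hs hc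
    -- t = - b h τ
    have hτ : IsNorm F E (t / (-b * (s / c))) := by
      have h3 : ¬ IsNorm F E (-b * (s / c))⁻¹ := fun h => hbn (by
        have h4 := nibin_inv F E h
        rw [inv_inv, mul_comm] at h4
        exact (norm_mul_iff F E hh0 (neg_ne_zero.2 hb) hh).1 h4)
      have := nonnorm_mul F E ht (inv_ne_zero (mul_ne_zero (neg_ne_zero.2 hb) hh0)) htn h3
      rwa [← div_eq_mul_inv] at this
    obtain ⟨y, hy, hyt⟩ := hτ
    have h4 := hval y _ hyt.symm
    have h5 := hne _ ⟨y, hy, hyt⟩
    have h6 : s + t = (s / c) * (c - b * (t / (-b * (s / c)))) := by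
      field_simp
      ring
    rw [h6]
    exact ⟨mul_ne_zero hh0 h5, fun h => h4 ((norm_mul_iff F E hh0 h5 hh).1 h)⟩
  -- norms are closed under addition
  have hadd : ∀ s t : F, IsNorm F E s → IsNorm F E t → IsNorm F E (s + t) := by
    intro s t hs ht
    have hs0 := nibin_ne F E hs
    have ht0 := nibin_ne F E ht
    have h3 : ¬ IsNorm F E (c * s) := fun h => hcn (by
      rw [mul_comm] at h
      exact (norm_mul_iff F E hs0 hc hs).1 h)
    have h4 : ¬ IsNorm F E (c * t) := fun h => hcn (by
      rw [mul_comm] at h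
      exact (norm_mul_iff F E ht0 hc ht).1 h)
    obtain ⟨h5, h6⟩ := hcos _ _ (mul_ne_zero hc hs0) (mul_ne_zero hc ht0) h3 h4
    have h7 : ¬ IsNorm F E c⁻¹ := fun h => hcn (by
        have := nibin_inv F E h
        rwa [inv_inv] at this)
    have h8 := nonnorm_mul F E h5 (inv_ne_zero hc) h6 h7
    have h9 : (c * s + c * t) * c⁻¹ = s + t := by field_simp
    rwa [h9] at h8
  have hnat : ∀ n : ℕ, 0 < n → IsNorm F E (n : F) := by
    intro n hn
    induction n with
    | zero => exact absurd hn (lt_irrefl _)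
    | succ n ih =>
      rcases Nat.eq_zero_or_pos n with h0 | h0
      · subst h0
        simpa using nibin_one F E
      · rw [Nat.cast_succ]
        exact hadd _ _ (ih h0) (nibin_one F E)
  -- approximation of `-1`
  obtain ⟨m, hm1', hmn⟩ := nibin_small F
  obtain ⟨r, hr, hopen⟩ := isNorm_near_one F E
  obtain ⟨k, hk⟩ := exists_pow_lt_of_lt_one hr hmn
  have hk1 : ∃ k : ℕ, 0 < k ∧ ‖(m : F)‖ ^ k < r := by
    refine ⟨k + 1, Nat.succ_pos k, lt_of_le_of_lt ?_ hk⟩
    rw [pow_succ]
    exact mul_le_of_le_one_right (pow_nonneg (norm_nonneg _) _) hmn.le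
  obtain ⟨k, hk0, hk⟩ := hk1
  have h3 : IsNorm F E (1 - (m : F) ^ k) := by
    apply hopen
    have : (1 : F) - (m : F) ^ k - 1 = -((m : F) ^ k) := by ring
    rw [this, norm_neg, norm_pow]
    exact hk
  have h4 : IsNorm F E ((m ^ k - 1 : ℕ) : F) := by
    apply hnat
    have : 1 < m ^ k := Nat.one_lt_pow hk0.ne' hm1'
    omega
  have h5 : ((m ^ k - 1 : ℕ) : F) = (m : F) ^ k - 1 := by
    rw [Nat.cast_sub (Nat.one_le_pow _ _ (by omega))]
    push_cast
    ring
  rw [h5] at h4
  have h6 := nibin_mul F E h3 (nibin_inv F E h4)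
  have h7 : (m : F) ^ k - 1 ≠ 0 := nibin_ne F E h4
  have h8 : (1 - (m : F) ^ k) * ((m : F) ^ k - 1)⁻¹ = -1 := by
    field_simp
    ring
  rw [h8] at h6
  exact hm1 h6

variable (F E) in
theorem binary_universal (a b c : F) (ha : a ≠ 0) (hb : b ≠ 0) (hc : c ≠ 0) :
    ∃ x y : E, algebraMap F E a * (x * star x) + algebraMap F E b * (y * star y) =
      algebraMap F E c := by
  obtain ⟨x, y, h⟩ := nibin_one_case F E (b / a) (c / a) (div_ne_zero hb ha)
    (div_ne_zero hc ha)
  refine ⟨x, y, ?_⟩
  have h1 : algebraMap F E a ≠ 0 := by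
    rw [Ne, map_eq_zero]; exact ha
  rw [map_div₀, map_div₀] at h
  have h2 := congrArg (fun t => algebraMap F E a * t) h
  simp only [mul_add] at h2
  rw [mul_div_cancel₀ _ h1] at h2
  rw [← h2]
  field_simp

include F in
variable (F) in
/-- a skew-Hermitian space of dimension at least 2 represents every `ηc`, `c ∈ F^×` -/
theorem skew_represents {V : Type*} [AddCommGroup V] [Module E V] [Module.Finite E V]
    (B : SkewH E V) (h2 : 2 ≤ Module.finrank E V) (z : E) (hz : star z = -z) (hz0 : z ≠ 0) :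
    ∃ v, B.ip v v = z := by
  obtain ⟨b, hb1, hb2⟩ := exists_ortho B (QExt.nontriv (F := F) (E := E))
  obtain ⟨η, -, -, -, -, hfix⟩ := exists_eta F E
  set i : Fin (Module.finrank E V) := ⟨0, by omega⟩ with hi
  set j : Fin (Module.finrank E V) := ⟨1, by omega⟩ with hj
  have hij : i ≠ j := by
    rw [hi, hj]
    intro h
    have := congrArg Fin.val h
    simp at this
  have hF : ∀ k, ∃ f : F, f ≠ 0 ∧ B.ip (b k) (b k) = algebraMap F E f * z := by
    intro k
    have h3 : star (B.ip (b k) (b k)) = - B.ip (b k) (b k) := by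
      have := B.skew (b k) (b k)
      rw [eq_comm, neg_eq_iff_eq_neg] at this
      exact this
    obtain ⟨f, hf⟩ := hfix (B.ip (b k) (b k) / z) (by
      rw [star_div₀, h3, hz, neg_div_neg_eq])
    refine ⟨f, ?_, ?_⟩
    · intro h0
      rw [h0, map_zero, div_eq_zero_iff] at hf
      rcases hf with h4 | h4
      · exact hb2 k h4
      · exact hz0 h4
    · rw [← hf, div_mul_cancel₀ _ hz0]
  obtain ⟨f1, hf1, e1⟩ := hF i
  obtain ⟨f2, hf2, e2⟩ := hF j
  obtain ⟨x, y, hxy⟩ := binary_universal F E f1 f2 1 hf1 hf2 one_ne_zero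
  refine ⟨x • b i + y • b j, ?_⟩
  rw [B.add_left, B.add_right, B.add_right, B.smul_left, B.smul_left, B.smul_left, B.smul_left,
    B.smul_right, B.smul_right, B.smul_right, B.smul_right, hb1 i j hij, hb1 j i hij.symm, e1, e2]
  rw [map_one] at hxy
  linear_combination z * hxy

end

end Pool.Agent.Work.MP_dd0ddf_al
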