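import Pool.Agent.Work.MP_dd0ddf_al.OC.MultOne
import Pool.Agent.Work.MP_dd0ddf_al.OC.AdMain

/-!
# MP_dd0ddf_al: multiplicity one for Weil representation periods of U(V) in GL(V), nonarchimedean case

`F` is a nonarchimedean local field of characteristic not 2 (a locally compact ultrametric field;
characteristic 0 or an odd prime), `E / F` a quadratic extension with conjugation `star`, `V` a finite dimensional `E`-vector
space with its Hausdorff vector space topology, `B` a nondegenerate skew-Hermitian form on `V`,
`p` a nontrivial smooth unitary additive character of `F`.

`H : Heis B p S` is an irreducible smooth representation of the Heisenberg group of `V` with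
central character `p`, and `O : OmRep H` a smooth action of the isometry group `U(V)` on the same
space compatible with it, `ω(h) ρ(v) = ρ(h v) ω(h)`, for instance the Weil representation
`ω_{V,ψ,μ}` for any conjugate-symplectic character `μ`.

For every irreducible smooth representation `π` of `GL(V)`, `dim V ≥ 3`, the space
`Hom_{U(V)}(π, ω)` of all equivariant linear maps has dimension at most one.
-/

set_option linter.unusedSectionVars false

namespace Pool.Agent.Work.MP_dd0ddf_al.NonarchResult

open Pool.Agent.Work.MP_dd0ddf_al.OC

universe u v w

/-- **multiplicity one** for `U(V)` in `GL(V)` and the Weil representation: `F` nonarchimedean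
local of characteristic not 2, `dim V ≥ 3` -/
theorem result {F E : Type u} [NontriviallyNormedField F] [IsUltrametricDist F] [ProperSpace F]
    [NeZero (2 : F)] [NontriviallyNormedField E] [NormedAlgebra F E] [ProperSpace E] [StarRing E]
    [QExt F E]
    {V : Type u} [AddCommGroup V] [Module E V] [Module.Finite E V] [TopologicalSpace V]
    [IsTopologicalAddGroup V] [T2Space V] [ContinuousSMul E V]
    (hn : 3 ≤ Module.finrank E V) (B : SkewH E V) (p : PChar F)
    {S : Type v} [AddCommGroup S] [Module ℂ S] (H : Heis B p S) (O : OmRep H)
    {P : Type w} [AddCommGroup P] [Module ℂ P] (π : GV E V →* Module.End ℂ P)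
    (hπ : IrrSm π) : Module.rank ℂ (HomU π O.ω) ≤ 1 := by
  have : IsUltrametricDist E := IsUltrametricDist.of_normedAlgebra F
  exact mult_one H O hn π (adm_GV π hπ)

end Pool.Agent.Work.MP_dd0ddf_al.NonarchResult
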