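import Pool.Agent.Work.MP_dd0ddf_al.NiClass
import Pool.Agent.Work.MP_dd0ddf_al.ExtU
import Pool.Agent.Work.MP_dd0ddf_al.NiSq

/-!
# MP_dd0ddf_al, module PrjOrb: self-adjoint idempotents: U(V)-orbits are open and closed

`Prj B r`: self-adjoint idempotents of rank r.  `prj_closed`: the trace of an idempotent is its rank (char 0), the trace is continuous.
`prj_disc`: `range X` is nondegenerate (`X` is the orthogonal projection onto it).  If bases `u` of range X and `w` of range Y have Gram determinants differing by a norm `c star c`, then range X and range Y are isometric (`isometric_of_disc` for `B.restrict`), the isometry extends to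
`h ∈ U(V)` (Witt), and `h X h⁻¹ = Y`.
`prj_open`: for Y ∈ Prj r close to X, `w_i = Y u_i` is close to `u_i`; its Gram determinant `d'` is close to `d ≠ 0`, so w is a basis of range Y; `star d = (-1)^r d`, same for d', so `d'/d ∈ F` is close to 1, hence a square in F (NiSq: elements close to 1 are squares) `= c²`, `c ∈ F`, `c² = c star c`.
`prj_orb_closed`: the complement of an orbit in Prj r is a union of orbits, which are open in Prj r.
-/

set_option linter.unusedSectionVars false
set_option linter.style.haveILetI false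

namespace Pool.Agent.Work.MP_dd0ddf_al

noncomputable section

universe u

variable {F E : Type u} [NontriviallyNormedField F] [IsUltrametricDist F] [ProperSpace F]
  [CharZero F] [NontriviallyNormedField E] [NormedAlgebra F E] [ProperSpace E] [StarRing E]
  [QExt F E]
variable {V : Type u} [AddCommGroup V] [Module E V] [Module.Finite E V] [TopologicalSpace V]
  [IsTopologicalAddGroup V] [T2Space V] [ContinuousSMul E V]

/-- self-adjoint idempotents of rank `r` -/
def Prj (B : SkewH E V) (r : ℕ) : Set (SA B) :=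
  {X | X.1 * X.1 = X.1 ∧ Module.finrank E (LinearMap.range X.1) = r}


private theorem prjorb_zl (B : SkewH E V) (w : V) : B.ip 0 w = 0 := by
  have h := B.smul_left 0 0 w
  rwa [zero_smul, zero_mul] at h

private theorem prjorb_zr (B : SkewH E V) (w : V) : B.ip w 0 = 0 := by
  have h := B.smul_right 0 w 0
  rwa [zero_smul, star_zero, zero_mul] at h

private theorem prjorb_sum (B : SkewH E V) {ι : Type*} (s : Finset ι) (c : ι → E) (g : ι → V)
    (v : V) : B.ip (∑ i ∈ s, c i • g i) v = ∑ i ∈ s, c i * B.ip (g i) v := by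
  have h := map_sum (B.lin v) (fun i => c i • g i) s
  simp only [map_smul] at h
  exact h

private theorem prjorb_fix (X : Module.End E V) (hX : X * X = X) {u : V}
    (hu : u ∈ LinearMap.range X) : X u = u := by
  obtain ⟨a, rfl⟩ := hu
  exact LinearMap.congr_fun hX a

private theorem prjorb_mul (B : SkewH E V) (h h' : UU B) (X : SA B) :
    saConj B h (saConj B h' X) = saConj B (h * h') X := by
  apply Subtype.ext
  show h.1.1 * (h'.1.1 * X.1 * h'.1⁻¹.1) * h.1⁻¹.1 = (h.1 * h'.1).1 * X.1 * (h.1 * h'.1)⁻¹.1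
  rw [mul_inv_rev, Units.val_mul, Units.val_mul]
  simp only [mul_assoc]

private theorem prjorb_one (B : SkewH E V) (X : SA B) : saConj B 1 X = X := by
  apply Subtype.ext
  show (1 : GV E V).1 * X.1 * (1 : GV E V)⁻¹.1 = X.1
  rw [inv_one, Units.val_one, one_mul, mul_one]

private theorem prjorb_inv (B : SkewH E V) (h : UU B) (X Y : SA B) (hXY : saConj B h X = Y) :
    saConj B h⁻¹ Y = X := by
  rw [← hXY, prjorb_mul, inv_mul_cancel, prjorb_one]

private theorem prjorb_range (X : Module.End E V) (h : GV E V) :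
    LinearMap.range (h.1 * X * h⁻¹.1) = (LinearMap.range X).map h.1 := by
  ext x
  constructor
  · rintro ⟨a, rfl⟩
    exact ⟨X (h⁻¹.1 a), ⟨_, rfl⟩, rfl⟩
  · rintro ⟨_, ⟨a, rfl⟩, rfl⟩
    refine ⟨h.1 a, ?_⟩
    show h.1 (X (h⁻¹.1 (h.1 a))) = h.1 (X a)
    have h1 : h⁻¹.1 (h.1 a) = a := congrArg (fun f : Module.End E V => f a) h.inv_mul
    rw [h1]

private theorem prjorb_inj (h : GV E V) : Function.Injective h.1 := by
  intro a b hab
  have h1 : ∀ a, h⁻¹.1 (h.1 a) = a := fun a =>
    congrArg (fun f : Module.End E V => f a) h.inv_mul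
  rw [← h1 a, ← h1 b]
  exact congrArg _ hab

private theorem prjorb_prO (B : SkewH E V) (U U' : Submodule E V) (h : NDeg B U)
    (h' : NDeg B U') (e : U = U') : prO B U h = prO B U' h' := by
  subst e
  rfl

variable (F) in
include F in
private theorem prjorb_trace (X : Module.End E V) (hX : X * X = X) (r : ℕ) :
    Module.finrank E (LinearMap.range X) = r ↔ LinearMap.trace E V X = (r : E) := by
  haveI : CharZero E := charZero_of_injective_algebraMap (algebraMap F E).injective
  have h1 : LinearMap.trace E V X = (Module.finrank E (LinearMap.range X) : E) := by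
    apply LinearMap.IsProj.trace (p := LinearMap.range X)
    exact ⟨fun x => ⟨x, rfl⟩, fun x hx => prjorb_fix X hX hx⟩
  rw [h1]
  constructor
  · intro h
    rw [h]
  · intro h
    exact_mod_cast h

private theorem prjorb_ctrace : Continuous (fun X : Module.End E V => LinearMap.trace E V X) := by
  classical
  let b := Module.finBasis E V
  have h : (fun X : Module.End E V => LinearMap.trace E V X) =
      fun X => ∑ i, b.coord i (X (b i)) := by
    funext X
    rw [LinearMap.trace_eq_matrix_trace E b X, Matrix.trace]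
    refine Finset.sum_congr rfl fun i _ => ?_
    rw [Matrix.diag_apply, LinearMap.toMatrix_apply]
    rfl
  rw [h]
  exact continuous_finsetSum _ fun i _ =>
    (b.coord i).continuous_of_finiteDimensional.comp (continuous_end_apply _)

/-- nonzero Gram determinant implies independence -/
private theorem prjorb_indep (B : SkewH E V) {r : ℕ} (w : Fin r → V)
    (h : (gram B w).det ≠ 0) : LinearIndependent E w := by
  rw [Fintype.linearIndependent_iff]
  intro c hc
  have h1 : Matrix.vecMul c (gram B w) = 0 := by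
    funext j
    have h2 : B.ip (∑ i, c i • w i) (w j) = 0 := by rw [hc, prjorb_zl]
    rw [prjorb_sum] at h2
    exact h2
  by_contra hcon
  push Not at hcon
  apply h
  rw [← Matrix.exists_vecMul_eq_zero_iff]
  refine ⟨c, ?_, h1⟩
  intro h0
  obtain ⟨i, hi⟩ := hcon
  exact hi (by rw [h0]; rfl)

/-- a basis of a nondegenerate subspace has nonzero Gram determinant -/
private theorem prjorb_gram (B : SkewH E V) (X : SA B) (hX : X.1 * X.1 = X.1) {r : ℕ}
    (b : Module.Basis (Fin r) E (LinearMap.range X.1)) :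
    (gram B (fun i => (b i : V))).det ≠ 0 := by
  intro h
  rw [← Matrix.exists_vecMul_eq_zero_iff] at h
  obtain ⟨c, hc0, hc⟩ := h
  apply hc0
  have h1 : ∑ i, c i • (b i : V) = 0 := by
    apply B.nondeg
    intro v
    have h2 : X.1 (∑ i, c i • (b i : V)) = ∑ i, c i • (b i : V) := by
      rw [map_sum]
      refine Finset.sum_congr rfl fun i _ => ?_
      rw [map_smul, prjorb_fix X.1 hX (b i).2]
    rw [← h2, X.2]
    have h3 : X.1 v = ∑ j, b.repr ⟨X.1 v, ⟨v, rfl⟩⟩ j • (b j : V) := by
      have h4 := congrArg (Subtype.val) (b.sum_repr ⟨X.1 v, ⟨v, rfl⟩⟩).symm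
      rw [Submodule.coe_sum] at h4
      exact h4
    rw [B.skew, h3, prjorb_sum, Finset.sum_eq_zero, star_zero, neg_zero]
    intro j _
    have h5 := congrFun hc j
    have h6 : B.ip (∑ i, c i • (b i : V)) (b j : V) = 0 := by
      rw [prjorb_sum]
      exact h5
    rw [B.skew _ (b j : V), h6, star_zero, neg_zero, mul_zero]
  have h7 : ∑ i, c i • b i = 0 := by
    apply Subtype.ext
    rw [Submodule.coe_sum]
    exact h1
  funext i
  exact Fintype.linearIndependent_iff.1 b.linearIndependent c h7 i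

private theorem prjorb_star (B : SkewH E V) {r : ℕ} (w : Fin r → V) :
    star (gram B w).det = (-1) ^ r * (gram B w).det := by
  rw [← Matrix.det_conjTranspose]
  have h1 : (gram B w).conjTranspose = - gram B w := by
    ext i j
    rw [Matrix.conjTranspose_apply, Matrix.neg_apply]
    show star (B.ip (w j) (w i)) = - B.ip (w i) (w j)
    rw [B.skew (w j) (w i), neg_neg]
  rw [h1, Matrix.det_neg, Fintype.card_fin]

variable (F) in
include F in
theorem prj_closed (B : SkewH E V) (r : ℕ) : IsClosed (Prj B r) := by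
  have h : Prj B r = {X : SA B | X.1 * X.1 = X.1} ∩
      {X : SA B | LinearMap.trace E V X.1 = (r : E)} := by
    ext X
    constructor
    · rintro ⟨h1, h2⟩
      exact ⟨h1, (prjorb_trace F X.1 h1 r).1 h2⟩
    · rintro ⟨h1, h2⟩
      exact ⟨h1, (prjorb_trace F X.1 h1 r).2 h2⟩
  rw [h]
  exact (isClosed_eq (continuous_subtype_val.mul continuous_subtype_val)
    continuous_subtype_val).inter
    (isClosed_eq (prjorb_ctrace.comp continuous_subtype_val) continuous_const)

theorem prj_conj (B : SkewH E V) (r : ℕ) (h : UU B) (X : SA B) (hX : X ∈ Prj B r) :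
    saConj B h X ∈ Prj B r := by
  obtain ⟨h1, h2⟩ := hX
  constructor
  · show h.1.1 * X.1 * h.1⁻¹.1 * (h.1.1 * X.1 * h.1⁻¹.1) = h.1.1 * X.1 * h.1⁻¹.1
    have h3 : h.1⁻¹.1 * h.1.1 = 1 := h.1.inv_mul
    calc h.1.1 * X.1 * h.1⁻¹.1 * (h.1.1 * X.1 * h.1⁻¹.1)
        = h.1.1 * X.1 * (h.1⁻¹.1 * h.1.1) * (X.1 * h.1⁻¹.1) := by simp only [mul_assoc]
      _ = h.1.1 * (X.1 * X.1) * h.1⁻¹.1 := by rw [h3, mul_one]; simp only [mul_assoc]
      _ = h.1.1 * X.1 * h.1⁻¹.1 := by rw [h1]
  · show Module.finrank E (LinearMap.range (h.1.1 * X.1 * h.1⁻¹.1)) = r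
    rw [prjorb_range, ← h2]
    exact (LinearEquiv.finrank_eq (Submodule.equivMapOfInjective h.1.1 (prjorb_inj h.1) _)).symm

theorem prj_ndeg (B : SkewH E V) (X : SA B) (hX : X.1 * X.1 = X.1) :
    ∃ hU : NDeg B (LinearMap.range X.1), X.1 = prO B (LinearMap.range X.1) hU := by
  have hU : NDeg B (LinearMap.range X.1) := by
    intro u hu h
    apply B.nondeg
    intro v
    rw [← prjorb_fix X.1 hX hu, X.2]
    exact h _ ⟨v, rfl⟩
  refine ⟨hU, ?_⟩
  ext v
  have h1 : X.1 v = X.1 (prO B _ hU v) + X.1 (v - prO B _ hU v) := by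
    rw [← map_add]
    congr 1
    abel
  have h2 : X.1 (v - prO B _ hU v) = 0 := by
    apply B.nondeg
    intro a
    rw [X.2]
    exact sub_prO_mem B _ hU v _ ⟨a, rfl⟩
  rw [h1, h2, add_zero]
  exact prjorb_fix X.1 hX (prO_mem B _ hU v)

variable (F) in
include F in
theorem prj_disc (B : SkewH E V) (r : ℕ) (X Y : SA B) (hX : X ∈ Prj B r) (hY : Y ∈ Prj B r)
    (u w : Fin r → V) (hu : LinearIndependent E u) (hw : LinearIndependent E w)
    (hu' : ∀ i, X.1 (u i) = u i) (hw' : ∀ i, Y.1 (w i) = w i) (c : E) (hc : c ≠ 0)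
    (h : (gram B w).det = c * star c * (gram B u).det) : ∃ h : UU B, saConj B h X = Y := by
  haveI : CharZero E := charZero_of_injective_algebraMap (algebraMap F E).injective
  obtain ⟨hU, eU⟩ := prj_ndeg B X hX.1
  obtain ⟨hU', eU'⟩ := prj_ndeg B Y hY.1
  -- bases
  have hb : ∀ (Z : SA B), Z ∈ Prj B r → ∀ u : Fin r → V, LinearIndependent E u →
      (∀ i, Z.1 (u i) = u i) → ∃ b : Module.Basis (Fin r) E (LinearMap.range Z.1),
        ∀ i, (b i : V) = u i := by
    intro Z hZ u hu hu'
    let u0 : Fin r → LinearMap.range Z.1 := fun i => ⟨u i, ⟨u i, hu' i⟩⟩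
    have h1 : LinearIndependent E u0 := by
      apply LinearIndependent.of_comp (LinearMap.range Z.1).subtype
      exact hu
    refine ⟨basisOfLinearIndependentOfCardEqFinrank' u0 h1 ?_, fun i => ?_⟩
    · rw [Fintype.card_fin, hZ.2]
    · rw [coe_basisOfLinearIndependentOfCardEqFinrank']
  obtain ⟨bu, hbu⟩ := hb X hX u hu hu'
  obtain ⟨bw, hbw⟩ := hb Y hY w hw hw'
  have g1 : gram (B.restrict (LinearMap.range X.1) hU) bu = gram B u := by
    ext i j
    show B.ip (bu i : V) (bu j : V) = B.ip (u i) (u j)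
    rw [hbu, hbu]
  have g2 : gram (B.restrict (LinearMap.range Y.1) hU') bw = gram B w := by
    ext i j
    show B.ip (bw i : V) (bw j : V) = B.ip (w i) (w j)
    rw [hbw, hbw]
  obtain ⟨φ, hφ⟩ := isometric_of_disc F (B.restrict (LinearMap.range X.1) hU)
    (B.restrict (LinearMap.range Y.1) hU') bu bw c hc (by rw [g1, g2]; exact h)
  obtain ⟨g, hg⟩ := witt B two_ne_zero (LinearMap.range X.1)
    ((LinearMap.range Y.1).subtype ∘ₗ φ.toLinearMap)
    (fun a b hab => φ.injective (Subtype.ext hab)) (fun a b => hφ a b)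
  refine ⟨g, ?_⟩
  have hZ : saConj B g X ∈ Prj B r := prj_conj B r g X hX
  obtain ⟨hZ', eZ⟩ := prj_ndeg B (saConj B g X) hZ.1
  apply Subtype.ext
  rw [eZ, eU']
  apply prjorb_prO
  show LinearMap.range (g.1.1 * X.1 * g.1⁻¹.1) = _
  rw [prjorb_range]
  ext x
  constructor
  · rintro ⟨a, ha, rfl⟩
    have h1 := hg ⟨a, ha⟩
    simp only at h1
    rw [h1]
    exact (φ ⟨a, ha⟩).2
  · intro hx
    refine ⟨(φ.symm ⟨x, hx⟩ : V), (φ.symm ⟨x, hx⟩).2, ?_⟩
    rw [hg]
    show ((φ (φ.symm ⟨x, hx⟩) : LinearMap.range Y.1) : V) = x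
    rw [LinearEquiv.apply_symm_apply]

variable (F) in
include F in
theorem prj_open (B : SkewH E V) (r : ℕ) (X : SA B) (hX : X ∈ Prj B r) :
    ∃ W : Set (SA B), IsOpen W ∧ X ∈ W ∧ ∀ Y ∈ Prj B r, Y ∈ W → ∃ h : UU B, saConj B h X = Y := by
  obtain ⟨-, -, -, -, -, hfix⟩ := exists_eta F E
  have b : Module.Basis (Fin r) E (LinearMap.range X.1) := Module.finBasisOfFinrankEq _ _ hX.2
  set u : Fin r → V := fun i => (b i : V) with hu
  have hXu : ∀ i, X.1 (u i) = u i := fun i => prjorb_fix X.1 hX.1 (b i).2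
  set d : E := (gram B u).det with hd
  have hd0 : d ≠ 0 := prjorb_gram B X hX.1 b
  set D : SA B → E := fun Y => (Matrix.of fun i j => B.ip (u i) (Y.1 (u j))).det with hD
  have hDc : Continuous D := by
    refine Continuous.matrix_det ?_
    refine continuous_pi fun i => continuous_pi fun j => ?_
    exact (continuous_ip_right F B (u i)).comp
      ((continuous_end_apply (u j)).comp continuous_subtype_val)
  have hDY : ∀ Y ∈ Prj B r, D Y = (gram B (fun i => Y.1 (u i))).det := by
    intro Y hY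
    have hm : (Matrix.of fun i j => B.ip (u i) (Y.1 (u j))) = gram B (fun i => Y.1 (u i)) := by
      ext i j
      show B.ip (u i) (Y.1 (u j)) = B.ip (Y.1 (u i)) (Y.1 (u j))
      rw [Y.2 (u i) (Y.1 (u j))]
      have h1 : Y.1 (Y.1 (u j)) = Y.1 (u j) := LinearMap.congr_fun hY.1 (u j)
      rw [h1]
    show (Matrix.of fun i j => B.ip (u i) (Y.1 (u j))).det = _
    rw [hm]
  have hDX : D X = d := by
    rw [hDY X hX]
    simp only [hXu]
    rfl
  have h20 : (0 : ℝ) < ‖(2 : F)‖ := norm_pos_iff.2 two_ne_zero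
  set ρ : ℝ := ‖(2 : F)‖ / 2 with hρ
  have hρ0 : 0 < ρ := by positivity
  have hρ2 : ρ < ‖(2 : F)‖ := by linarith
  refine ⟨{Y : SA B | ‖D Y / d - 1‖ < ‖(2 : F)‖ * ρ}, ?_, ?_, ?_⟩
  · exact isOpen_lt ((hDc.div_const d).sub continuous_const).norm continuous_const
  · show ‖D X / d - 1‖ < ‖(2 : F)‖ * ρ
    rw [hDX, div_self hd0, sub_self, norm_zero]
    positivity
  · intro Y hY hW
    have hW' : ‖D Y / d - 1‖ < ‖(2 : F)‖ * ρ := hW
    have hst : star (D Y / d) = D Y / d := by
      rw [hDY Y hY, star_div₀, prjorb_star, hd, prjorb_star]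
      rw [mul_div_mul_left]
      exact pow_ne_zero _ (neg_ne_zero.2 one_ne_zero)
    obtain ⟨f, hf⟩ := hfix _ hst
    have hf1 : ‖f - 1‖ ≤ ‖(2 : F)‖ * ρ := by
      have h1 : ‖algebraMap F E (f - 1)‖ = ‖f - 1‖ := norm_algebraMap' E (f - 1)
      rw [← h1, map_sub, map_one, ← hf]
      exact hW'.le
    obtain ⟨x, ⟨hx1, hx2⟩, -⟩ := sqrt_near hρ0 hρ2 hf1
    have hx0 : x ≠ 0 := by
      rintro rfl
      rw [zero_sub, norm_neg, norm_one] at hx1
      have h3 : ‖(2 : F)‖ ≤ 1 := by
        have := IsUltrametricDist.norm_natCast_le_one F 2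
        exact_mod_cast this
      linarith
    set c : E := algebraMap F E x with hc
    have hc0 : c ≠ 0 := (map_ne_zero (algebraMap F E)).2 hx0
    have hrel : (gram B (fun i => Y.1 (u i))).det = c * star c * (gram B u).det := by
      rw [← hDY Y hY, hc, QExt.star_alg, ← map_mul, ← pow_two, hx2, ← hf, ← hd,
        div_mul_cancel₀ _ hd0]
    refine prj_disc F B r X Y hX hY u (fun i => Y.1 (u i)) ?_ ?_ hXu ?_ c hc0 hrel
    · exact prjorb_indep B u hd0
    · apply prjorb_indep B
      rw [hrel]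
      refine mul_ne_zero (mul_ne_zero hc0 ?_) hd0
      intro h0
      apply hc0
      rw [← star_star c, h0, star_zero]
    · intro i
      exact LinearMap.congr_fun hY.1 (u i)

variable (F) in
include F in
theorem prj_orb_closed (B : SkewH E V) (r : ℕ) (X : SA B) (hX : X ∈ Prj B r) :
    IsClosed {Y : SA B | ∃ h : UU B, saConj B h X = Y} := by
  rw [← isOpen_compl_iff, isOpen_iff_forall_mem_open]
  intro Y hY
  by_cases hYP : Y ∈ Prj B r
  · obtain ⟨W, hW, hYW, h⟩ := prj_open F B r Y hYP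
    refine ⟨W, ?_, hW, hYW⟩
    rintro Z hZ ⟨k, hk⟩
    obtain ⟨k', hk'⟩ := h Z (by rw [← hk]; exact prj_conj B r k X hX) hZ
    apply hY
    refine ⟨k'⁻¹ * k, ?_⟩
    rw [← prjorb_mul, hk]
    exact prjorb_inv B k' Y Z hk'
  · refine ⟨(Prj B r)ᶜ, ?_, (prj_closed F B r).isOpen_compl, hYP⟩
    rintro Z hZ ⟨k, hk⟩
    exact hZ (by rw [← hk]; exact prj_conj B r k X hX)

variable (F) in
include F in
theorem prj_orb_open (B : SkewH E V) (r : ℕ) (X : SA B) (hX : X ∈ Prj B r) :
    ∃ W : Set (SA B), IsOpen W ∧ ∀ Y ∈ Prj B r, (Y ∈ W ↔ ∃ h : UU B, saConj B h X = Y) := by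
  have hch : ∀ h : UU B, ∃ W : Set (SA B), IsOpen W ∧ saConj B h X ∈ W ∧
      ∀ Y ∈ Prj B r, Y ∈ W → ∃ k : UU B, saConj B k (saConj B h X) = Y := fun h =>
    prj_open F B r (saConj B h X) (prj_conj B r h X hX)
  choose W hW hXW h using hch
  refine ⟨⋃ h, W h, isOpen_iUnion hW, fun Y hY => ⟨fun hYW => ?_, ?_⟩⟩
  · obtain ⟨k, hk⟩ := Set.mem_iUnion.1 hYW
    obtain ⟨k', hk'⟩ := h k Y hY hk
    exact ⟨k' * k, by rw [← prjorb_mul]; exact hk'⟩
  · rintro ⟨k, rfl⟩
    exact Set.mem_iUnion.2 ⟨k, hXW k⟩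

end

end Pool.Agent.Work.MP_dd0ddf_al
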