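import Pool.Agent.Work.MP_dd0ddf_al.SvnIso
import Pool.Agent.Work.MP_dd0ddf_al.WrBasic

/-!
# MP_dd0ddf_al, module SvnJ: the isomorphism j : S^∨ → S and the involution t

`sd_irr`: H.sd has no proper nonzero subspace stable under all rd x: if N ≠ 0 is stable then the span of {cf s lam : lam ∈ N} is stable under all L_x, R_x, nonzero, so all of SF V (spans_sf), and by injectivity of cfMap N = H.sd (a functional argument: if lam ∉ N choose a linear functional on H.sd killing N, not lam; with cf_lift).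
Fix s0, s1 ∈ S and let `j lam = T_{s1} (t (cf s0 lam))` where `T_{s1} : SF V → S`, `T_{s1} (cf s lam) = lam(s1) s` (cf_lift).  `T_{s1} L_x = ρ(x) T_{s1}`, `t R_x = L_{-τx} t`: `j (rd x lam) = T t R_{-x} cf s0 lam = T L_{τx} t cf = ρ(τx) j lam`.  For suitable s0, s1, j ≠ 0 (t cf s0 lam ≠ 0).  Kernel stable under rd x: 0; range stable under ρ: S.
κ: `t'` defined by `t' (cf s lam) = cf (j lam) (j⁻¹ s)` (cf_lift) satisfies `t' L_x = R_{-τx} t'`, `t' R_x = L_{-τx} t'` like t; `t' ∘ t` commutes with L, R (t² = 1): scalar (schur_lr), nonzero.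
-/

set_option linter.unusedSectionVars false
set_option linter.style.haveILetI false

namespace Pool.Agent.Work.MP_dd0ddf_al

noncomputable section

universe u

variable {F E : Type u} [NontriviallyNormedField F] [IsUltrametricDist F] [ProperSpace F]
  [CharZero F] [NontriviallyNormedField E] [NormedAlgebra F E] [ProperSpace E] [StarRing E]
  [QExt F E] [MeasurableSpace E] [BorelSpace E]
variable {V : Type u} [AddCommGroup V] [Module E V] [Module.Finite E V] [TopologicalSpace V]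
  [IsTopologicalAddGroup V] [T2Space V] [ContinuousSMul E V]
variable {S : Type*} [AddCommGroup S] [Module ℂ S]

private theorem svnj_tau_neg {B : SkewH E V} (τ : AntiU B) (v : V) :
    τ.t (-v) = -τ.t v := by
  have := τ.smul (-1) v
  simpa only [neg_smul, one_smul, star_neg, star_one] using this

private theorem svnj_tau_sub {B : SkewH E V} (τ : AntiU B) (v w : V) :
    τ.t (v - w) = τ.t v - τ.t w := by
  rw [sub_eq_add_neg, τ.add, svnj_tau_neg, sub_eq_add_neg]

private theorem svnj_om_neg_right (B : SkewH E V) (x y : V) :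
    om F B x (-y) = - om F B x y := by
  have h0 : om F B x 0 = 0 := by
    have := om_add_right (F := F) B x 0 0
    rw [add_zero] at this
    exact left_eq_add.1 this
  have h := om_add_right (F := F) B x y (-y)
  rw [add_neg_cancel, h0] at h
  linear_combination -h

private theorem svnj_om_neg_left (B : SkewH E V) (x y : V) :
    om F B (-x) y = - om F B x y := by
  rw [om_swap B y (-x), svnj_om_neg_right, om_swap B x y, neg_neg]

private theorem svnj_om_tau {B : SkewH E V} (τ : AntiU B) (x v : V) :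
    om F B x (τ.t v) = om F B v (τ.t x) := by
  unfold om
  have h := τ.ip (τ.t x) v
  rw [τ.inv] at h
  rw [h]

private theorem svnj_tneg_L {B : SkewH E V} (τ : AntiU B) (p : PChar F) (x : V)
    (f : SF V ℂ) : tneg F τ (Lop B p x f) = Rop B p (-τ.t x) (tneg F τ f) := by
  apply SF.ext
  intro v
  show p.ψ (2⁻¹ * om F B x (-τ.t v)) * f (-τ.t v - x) =
    p.ψ (2⁻¹ * om F B v (-τ.t x)) * f (-τ.t (v - -τ.t x))
  rw [svnj_om_neg_right, svnj_om_neg_right, svnj_om_tau, svnj_tau_sub,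
    svnj_tau_neg, τ.inv]
  congr 2
  abel_nf

private theorem svnj_tneg_R {B : SkewH E V} (τ : AntiU B) (p : PChar F) (x : V)
    (f : SF V ℂ) : tneg F τ (Rop B p x f) = Lop B p (-τ.t x) (tneg F τ f) := by
  apply SF.ext
  intro v
  show p.ψ (2⁻¹ * om F B (-τ.t v) x) * f (-τ.t v - x) =
    p.ψ (2⁻¹ * om F B (-τ.t x) v) * f (-τ.t (v - -τ.t x))
  rw [svnj_om_neg_left, svnj_om_neg_left, om_swap B x (τ.t v), svnj_om_tau,
    om_swap B (τ.t x) v, svnj_tau_sub, svnj_tau_neg, τ.inv]
  congr 2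
  · ring
  · abel_nf

/-- `cf` as a bilinear map -/
private def svnj_c2 {B : SkewH E V} {p : PChar F} (H : Heis B p S) :
    S →ₗ[ℂ] H.sd →ₗ[ℂ] SF V ℂ :=
  (TensorProduct.mk ℂ S H.sd).compr₂ (cfMap H)

private theorem svnj_c2_apply {B : SkewH E V} {p : PChar F} (H : Heis B p S) (s : S)
    (lam : H.sd) : svnj_c2 H s lam = cf H s lam := cfMap_tmul H s lam

private theorem svnj_R {B : SkewH E V} {p : PChar F} (H : Heis B p S) (x : V) (s : S)
    (lam : H.sd) : Rop B p x (cf H s lam) = cf H s (H.rd (-x) lam) := by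
  have h1 := cf_R H (-x) s lam
  rwa [neg_neg] at h1

private theorem svnj_exists_sd {B : SkewH E V} {p : PChar F} (H : Heis B p S) :
    ∃ (s : S) (lam : H.sd), lam.1 s ≠ 0 := by
  obtain ⟨s, hs⟩ := H.nontriv
  by_contra hcon
  push Not at hcon
  exact hs (sd_sep H s (hcon s))

theorem sd_irr {B : SkewH E V} {p : PChar F} (H : Heis B p S) (N : Submodule ℂ H.sd)
    (hN : ∀ x, ∀ lam ∈ N, H.rd x lam ∈ N) : N = ⊥ ∨ N = ⊤ := by
  by_cases hbot : N = ⊥
  · exact Or.inl hbot
  right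
  obtain ⟨s0, hs0⟩ := H.nontriv
  set P : Submodule ℂ (SF V ℂ) :=
    Submodule.span ℂ {f | ∃ s, ∃ lam ∈ N, f = cf H s lam} with hP
  have hPtop : P = ⊤ := by
    refine svniso_spans B p P ?_ ?_ ?_
    · obtain ⟨lam, hlam, hlam0⟩ := (Submodule.ne_bot_iff N).1 hbot
      intro hPb
      have h1 : cf H s0 lam ∈ P := Submodule.subset_span ⟨s0, lam, hlam, rfl⟩
      rw [hPb, Submodule.mem_bot] at h1
      rcases cf_eq_zero H s0 lam h1 with h2 | h2
      · exact hs0 h2
      · exact hlam0 h2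
    · intro x f hf
      induction hf using Submodule.span_induction with
      | mem f hf =>
        obtain ⟨s, lam, hlam, rfl⟩ := hf
        rw [cf_L]
        exact Submodule.subset_span ⟨_, lam, hlam, rfl⟩
      | zero => rw [map_zero]; exact Submodule.zero_mem _
      | add a b _ _ ha hb => rw [map_add]; exact Submodule.add_mem _ ha hb
      | smul c a _ ha => rw [map_smul]; exact Submodule.smul_mem _ _ ha
    · intro x f hf
      induction hf using Submodule.span_induction with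
      | mem f hf =>
        obtain ⟨s, lam, hlam, rfl⟩ := hf
        rw [svnj_R]
        exact Submodule.subset_span ⟨s, _, hN _ lam hlam, rfl⟩
      | zero => rw [map_zero]; exact Submodule.zero_mem _
      | add a b _ _ ha hb => rw [map_add]; exact Submodule.add_mem _ ha hb
      | smul c a _ ha => rw [map_smul]; exact Submodule.smul_mem _ _ ha
  rw [Submodule.eq_top_iff']
  intro lam0
  by_contra hlam0
  obtain ⟨φ, hφ0, hφN⟩ := Submodule.exists_le_ker_of_notMem hlam0
  obtain ⟨T, hT⟩ := cf_lift H ((LinearMap.lsmul ℂ S).flip.compl₂ φ)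
  have hT' : ∀ s lam, T (cf H s lam) = φ lam • s := hT
  have hPT : P ≤ LinearMap.ker T := by
    rw [hP, Submodule.span_le]
    rintro _ ⟨s, lam, hlam, rfl⟩
    show T (cf H s lam) = 0
    have h1 : φ lam = 0 := hφN hlam
    rw [hT', h1, zero_smul]
  have h2 : cf H s0 lam0 ∈ P := by
    rw [hPtop]
    exact Submodule.mem_top
  have h3 : T (cf H s0 lam0) = 0 := hPT h2
  rw [hT'] at h3
  rcases smul_eq_zero.1 h3 with h4 | h4
  · exact hφ0 h4
  · exact hs0 h4

theorem exists_j {B : SkewH E V} {p : PChar F} (H : Heis B p S) (τ : AntiU B) :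
    ∃ (j : H.sd ≃ₗ[ℂ] S) (κ : ℂ), κ ≠ 0 ∧
      (∀ (x : V) (lam : H.sd), j (H.rd x lam) = H.ρ (τ.t x) (j lam)) ∧
      ∀ (s : S) (lam : H.sd), tneg F τ (cf H s lam) = κ • cf H (j lam) (j.symm s) := by
  obtain ⟨s0, hs0⟩ := H.nontriv
  obtain ⟨sa, lam1, hlam1⟩ := svnj_exists_sd H
  have hlam10 : lam1 ≠ 0 := by
    intro h
    apply hlam1
    rw [h]
    rfl
  choose T hT using fun s1 : S =>
    cf_lift H ((LinearMap.lsmul ℂ S).flip.compl₂ (LinearMap.applyₗ s1 ∘ₗ H.sd.subtype))
  have hT' : ∀ s1 s lam, T s1 (cf H s lam) = lam.1 s1 • s := hT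
  have hTL : ∀ s1 x f, T s1 (Lop B p x f) = H.ρ x (T s1 f) := by
    intro s1 x f
    have h1 : T s1 ∘ₗ Lop B p x = H.ρ x ∘ₗ T s1 := by
      apply cf_ext H
      intro s lam
      show T s1 (Lop B p x (cf H s lam)) = H.ρ x (T s1 (cf H s lam))
      rw [cf_L, hT', hT', map_smul]
    exact congrArg (fun A : SF V ℂ →ₗ[ℂ] S => A f) h1
  have hTR : ∀ s1 x f, T s1 (Rop B p x f) = T (H.ρ x s1) f := by
    intro s1 x f
    have h1 : T s1 ∘ₗ Rop B p x = T (H.ρ x s1) := by
      apply cf_ext H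
      intro s lam
      show T s1 (Rop B p x (cf H s lam)) = T (H.ρ x s1) (cf H s lam)
      rw [svnj_R, hT', hT']
      have h2 : (H.rd (-x) lam).1 s1 = lam.1 (H.ρ (- -x) s1) := rfl
      rw [h2, neg_neg]
    exact congrArg (fun A : SF V ℂ →ₗ[ℂ] S => A f) h1
  set K : Submodule ℂ (SF V ℂ) := ⨅ s1, LinearMap.ker (T s1) with hK
  have hKmem : ∀ f, f ∈ K ↔ ∀ s1, T s1 f = 0 := by
    intro f
    rw [hK, Submodule.mem_iInf]
    rfl
  have hKbot : K = ⊥ := by
    by_contra hne
    have htop := svniso_spans B p K hne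
      (fun x f hf => (hKmem _).2 fun s1 => by
        rw [hTL, (hKmem f).1 hf s1, map_zero])
      (fun x f hf => (hKmem _).2 fun s1 => by
        rw [hTR, (hKmem f).1 hf _])
    have h1 : cf H s0 lam1 ∈ K := by
      rw [htop]
      exact Submodule.mem_top
    have h2 := (hKmem _).1 h1 sa
    rw [hT'] at h2
    rcases smul_eq_zero.1 h2 with h3 | h3
    · exact hlam1 h3
    · exact hs0 h3
  have hcfne : cf H s0 lam1 ≠ 0 := by
    intro h
    rcases cf_eq_zero H s0 lam1 h with h2 | h2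
    · exact hs0 h2
    · exact hlam10 h2
  have htne : tneg F τ (cf H s0 lam1) ≠ 0 := by
    intro h
    apply hcfne
    rw [← tneg_tneg (F := F) τ (cf H s0 lam1), h, map_zero]
  obtain ⟨s1, hs1⟩ : ∃ s1, T s1 (tneg F τ (cf H s0 lam1)) ≠ 0 := by
    by_contra hcon
    push Not at hcon
    have h1 : tneg F τ (cf H s0 lam1) ∈ K := (hKmem _).2 hcon
    rw [hKbot, Submodule.mem_bot] at h1
    exact htne h1
  obtain ⟨j0, hj0⟩ : ∃ j0 : H.sd →ₗ[ℂ] S, ∀ lam, j0 lam = T s1 (tneg F τ (cf H s0 lam)) :=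
    ⟨T s1 ∘ₗ tneg F τ ∘ₗ svnj_c2 H s0, fun lam => rfl⟩
  have hj0ρ : ∀ x lam, j0 (H.rd x lam) = H.ρ (τ.t x) (j0 lam) := by
    intro x lam
    rw [hj0, hj0, ← cf_R, svnj_tneg_R, svnj_tau_neg, neg_neg, hTL]
  have hj01 : j0 lam1 ≠ 0 := by
    rw [hj0]
    exact hs1
  have hker : LinearMap.ker j0 = ⊥ := by
    rcases sd_irr H (LinearMap.ker j0) (fun x lam hlam => by
      rw [LinearMap.mem_ker] at hlam ⊢
      rw [hj0ρ, hlam, map_zero]) with h | h
    · exact h
    · exfalso
      apply hj01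
      have h1 : lam1 ∈ LinearMap.ker j0 := by
        rw [h]
        exact Submodule.mem_top
      exact h1
  have hrange : LinearMap.range j0 = ⊤ := by
    rcases H.irr (LinearMap.range j0) (fun y s hs => by
      obtain ⟨lam, rfl⟩ := hs
      refine ⟨H.rd (τ.t y) lam, ?_⟩
      rw [hj0ρ, τ.inv]) with h | h
    · exfalso
      apply hj01
      have h1 : j0 lam1 ∈ LinearMap.range j0 := ⟨lam1, rfl⟩
      rw [h] at h1
      exact (Submodule.mem_bot ℂ).1 h1
    · exact h
  obtain ⟨j, hj⟩ : ∃ j : H.sd ≃ₗ[ℂ] S, ∀ lam, j lam = j0 lam :=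
    ⟨LinearEquiv.ofBijective j0 ⟨LinearMap.ker_eq_bot.1 hker, LinearMap.range_eq_top.1 hrange⟩,
      fun lam => rfl⟩
  have hjρ : ∀ x lam, j (H.rd x lam) = H.ρ (τ.t x) (j lam) := by
    intro x lam
    rw [hj, hj, hj0ρ]
  have hjs : ∀ x s, j.symm (H.ρ x s) = H.rd (τ.t x) (j.symm s) := by
    intro x s
    apply j.injective
    rw [hjρ, τ.inv, LinearEquiv.apply_symm_apply, LinearEquiv.apply_symm_apply]
  obtain ⟨t', ht0⟩ := cf_lift H
    ((svnj_c2 H).compl₁₂ j.toLinearMap j.symm.toLinearMap).flip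
  have ht' : ∀ s lam, t' (cf H s lam) = cf H (j lam) (j.symm s) := ht0
  have htL : ∀ x f, t' (Lop B p x f) = Rop B p (-τ.t x) (t' f) := by
    intro x f
    have h1 : t' ∘ₗ Lop B p x = Rop B p (-τ.t x) ∘ₗ t' := by
      apply cf_ext H
      intro s lam
      show t' (Lop B p x (cf H s lam)) = Rop B p (-τ.t x) (t' (cf H s lam))
      rw [cf_L, ht', ht', hjs, ← cf_R]
    exact congrArg (fun A : SF V ℂ →ₗ[ℂ] SF V ℂ => A f) h1
  have htR : ∀ x f, t' (Rop B p x f) = Lop B p (-τ.t x) (t' f) := by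
    intro x f
    have h1 : t' ∘ₗ Rop B p x = Lop B p (-τ.t x) ∘ₗ t' := by
      apply cf_ext H
      intro s lam
      show t' (Rop B p x (cf H s lam)) = Lop B p (-τ.t x) (t' (cf H s lam))
      rw [svnj_R, ht', ht', hjρ, svnj_tau_neg, cf_L]
    exact congrArg (fun A : SF V ℂ →ₗ[ℂ] SF V ℂ => A f) h1
  obtain ⟨c, hc⟩ := schur_lr B p (t' ∘ₗ tneg F τ)
    (fun x => by
      apply LinearMap.ext
      intro f
      show t' (tneg F τ (Lop B p x f)) = Lop B p x (t' (tneg F τ f))
      rw [svnj_tneg_L, htR, svnj_tau_neg, neg_neg, τ.inv])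
    (fun x => by
      apply LinearMap.ext
      intro f
      show t' (tneg F τ (Rop B p x f)) = Rop B p x (t' (tneg F τ f))
      rw [svnj_tneg_R, htL, svnj_tau_neg, neg_neg, τ.inv])
  have hc' : ∀ f, t' f = c • tneg F τ f := by
    intro f
    have h1 := congrArg (fun A : SF V ℂ →ₗ[ℂ] SF V ℂ => A (tneg F τ f)) hc
    have h2 : t' (tneg F τ (tneg F τ f)) = c • tneg F τ f := h1
    rwa [tneg_tneg] at h2
  have hc0 : c ≠ 0 := by
    intro h
    have h1 := hc' (cf H s0 lam1)
    rw [h, zero_smul, ht'] at h1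
    rcases cf_eq_zero H _ _ h1 with h2 | h2
    · exact hlam10 ((LinearEquiv.map_eq_zero_iff j).1 h2)
    · exact hs0 ((LinearEquiv.map_eq_zero_iff j.symm).1 h2)
  refine ⟨j, c⁻¹, inv_ne_zero hc0, hjρ, fun s lam => ?_⟩
  have h1 := hc' (cf H s lam)
  rw [ht'] at h1
  rw [h1, smul_smul, inv_mul_cancel₀ hc0, one_smul]

end

end Pool.Agent.Work.MP_dd0ddf_al
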