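import Pool.Agent.Work.MP_dd0ddf_al.WfT
import Pool.Agent.Work.MP_dd0ddf_al.WfEmb
import Pool.Agent.Work.MP_dd0ddf_al.HmodAux

/-!
# MP_dd0ddf_al, module WfF: the function f(β) = t(σ_{v,β}) is A μ(β)

`f_well`: `t_{(v)}(σ_{v,β})` depends only on `β`: two nonzero vectors of the same length are conjugate (witt_vec), `g (qr v β) g⁻¹ = qr (g v) β`, t_conj.
Define `fb D β` as this common value for `β ≠ 0` (a vector `v ≠ 0` with `⟨v,v⟩ = star β - β` exists, exists_value).
`fb_norm`: `qr (c v) (c star c β) = qr v β`; t_change with P = (c): `fb(β) = t_v = t_{cv} hmod(c)`, so `fb (c star c β) * hmod(mulT c) = fb β`.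
`fb_rel`: `fb β1 * fb β2 = fb β3 * fb (β1 β2/β3)` for all nonzero β1, β2, β3.
First assume the Gram determinant `(star β1 - β1)(star β2 - β2) + ζ star ζ ≠ 0`, `ζ = β1 + β2 - β3`: `exists_plane` gives `v1, v2` with `⟨v1,v1⟩ = star β1 - β1`, `⟨v2,v2⟩ = star β2 - β2`, `⟨v2,v1⟩ = ζ`.
`h = σ_{v1,β1} σ_{v2,β2}`, basis `(v1, v2)` of `R_h`; by `wall_prod`: `W_h(v1,v1) = β1, W_h(v1,v2) = 0, W_h(v2,v1) = -⟨v2,v1⟩ = -ζ, W_h(v2,v2) = β2`; `t_{(v1,v2)}(h) = fb β1 fb β2`.
`v = v1 + v2`: `W_h(v,v) = β1 + β2 - ζ = β3`.  `v'' = v2 + c v` with `star c β3 + β2 = 0`: `W_h(v,v'') = 0`, `W_h(v'',v'') = β1 β2/β3` (det of the Gram matrix, change of basis of determinant 1).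
`h = σ_{v,β3} σ_{v'',β1β2/β3}` (wall_prod + wall_determines: both have the same range and the same Wall form: for the product: `W(v,v'') = 0`, `W(v'',v) = -⟨v'',v⟩`; for h: `W_h(v'',v) = star(W_h(v,v'')) - ⟨v,v''⟩^...`, from wall_conj:
`star W(v,v'') - W(v'',v) = ⟨v'',v⟩`, so `W_h(v'',v) = -⟨v'',v⟩`).  So `t_{(v,v'')}(h) = fb β3 fb(β1β2/β3)`, and `t_{(v,v'')} = t_{(v1,v2)}` (determinant 1, hmod 1).
General case: replace `β3` by `c² β3`, `c ∈ F^×`: the right side does not change (fb_norm for c and 1/c), and `(star β1 - β1)(star β2-β2) + N(β1+β2-c²β3)` is a nonzero polynomial in `c` (coefficient of c⁴: N(β3)).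
`exists_mu`: `μ(β) = fb β/fb 1` is multiplicative.
-/

set_option linter.unusedSectionVars false
set_option linter.style.haveILetI false

namespace Pool.Agent.Work.MP_dd0ddf_al

noncomputable section

universe u

variable {F E : Type u} [NontriviallyNormedField F] [IsUltrametricDist F] [ProperSpace F]
  [CharZero F] [NontriviallyNormedField E] [NormedAlgebra F E] [ProperSpace E] [StarRing E]
  [QExt F E] [MeasurableSpace E] [BorelSpace E]
variable {V : Type u} [AddCommGroup V] [Module E V] [Module.Finite E V] [TopologicalSpace V]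
  [IsTopologicalAddGroup V] [T2Space V] [ContinuousSMul E V]

variable (F) in
include F in
private theorem wff_two : (2 : E) ≠ 0 := by
  haveI : CharZero E := charZero_of_injective_algebraMap (algebraMap F E).injective
  exact two_ne_zero

private theorem wff_congr {B : SkewH E V} {p : PChar F} (D : LData B p) {h h' : UU B} {r : ℕ}
    {b b' : Fin r → V} (hb : IsRBasis h.1 b) (hb' : IsRBasis h'.1 b') (e1 : h = h')
    (e2 : b = b') : D.t h b hb = D.t h' b' hb' := by
  subst e1
  subst e2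
  rfl

/-- `f(β)`: the scalar of a quasi-reflection -/
theorem f_well {B : SkewH E V} {p : PChar F} (D : LData B p) (β : E) (v v' : V) (hv : v ≠ 0)
    (hv' : v' ≠ 0) (h : QRok B v β) (h' : QRok B v' β) :
    D.t (qr B v β h) (fun _ : Fin 1 => v) (wall_qr v hv β h).1 =
      D.t (qr B v' β h') (fun _ : Fin 1 => v') (wall_qr v' hv' β h').1 := by
  obtain ⟨g, hg⟩ := witt_vec B (wff_two F) v v' hv hv' (by rw [← h.2, ← h'.2])
  have e1 : g * qr B v β h * g⁻¹ = qr B v' β h' := by
    apply Subtype.ext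
    apply Units.ext
    apply LinearMap.ext
    intro a
    have h1 : g.1.1 (g.1⁻¹.1 a) = a := congrArg (fun f : Module.End E V => f a) g.1.mul_inv
    have h2 : B.ip (g.1⁻¹.1 a) v = B.ip a v' := by
      rw [← g.2 (g.1⁻¹.1 a) v, h1, hg]
    show g.1.1 ((qr B v β h).1.1 (g.1⁻¹.1 a)) = (qr B v' β h').1.1 a
    rw [qr_apply, qr_apply, map_add, map_smul, hg, h1, h2]
  have hb := (wall_qr v hv β h).1
  rw [← t_conj D g (qr B v β h) (fun _ : Fin 1 => v) hb (rbasis_conjugate g _ _ hb)]
  exact wff_congr D _ _ e1 (funext fun _ => hg)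

theorem fb_exists {B : SkewH E V} {p : PChar F} (D : LData B p)
    (hn : 3 ≤ Module.finrank E V) (β : E) (hβ : β ≠ 0) : ∃ z : ℂ, z ≠ 0 ∧
      ∀ (v : V) (hv : v ≠ 0) (h : QRok B v β),
        D.t (qr B v β h) (fun _ : Fin 1 => v) (wall_qr v hv β h).1 = z := by
  obtain ⟨v, hv, hvv⟩ := exists_value F B hn (star β - β) (by
    rw [star_sub, star_star, neg_sub])
  exact ⟨D.t (qr B v β ⟨hβ, hvv.symm⟩) (fun _ : Fin 1 => v) (wall_qr v hv β ⟨hβ, hvv.symm⟩).1,
    t_ne D _ _ _, fun w hw h => f_well D β w v hw hv h ⟨hβ, hvv.symm⟩⟩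

open Classical in
/-- the function `f(β)` -/
def fb {B : SkewH E V} {p : PChar F} (D : LData B p) (hn : 3 ≤ Module.finrank E V) (β : E) : ℂ :=
  if hβ : β ≠ 0 then (fb_exists D hn β hβ).choose else 0

theorem fb_spec {B : SkewH E V} {p : PChar F} (D : LData B p) (hn : 3 ≤ Module.finrank E V)
    (β : E) (v : V) (hv : v ≠ 0) (h : QRok B v β) :
    D.t (qr B v β h) (fun _ : Fin 1 => v) (wall_qr v hv β h).1 = fb D hn β := by
  rw [fb, dif_pos h.1]
  exact (fb_exists D hn β h.1).choose_spec.2 v hv h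

theorem fb_ne {B : SkewH E V} {p : PChar F} (D : LData B p) (hn : 3 ≤ Module.finrank E V)
    (β : E) (hβ : β ≠ 0) : fb D hn β ≠ 0 := by
  rw [fb, dif_pos hβ]
  exact (fb_exists D hn β hβ).choose_spec.1

private theorem wff_star_ne {x : E} (hx : x ≠ 0) : star x ≠ 0 := star_ne_zero.2 hx

theorem fb_norm {B : SkewH E V} {p : PChar F} (D : LData B p) (hn : 3 ≤ Module.finrank E V)
    (β c : E) (hβ : β ≠ 0) (hc : c ≠ 0) [LocallyCompactSpace E] [TotallyDisconnectedSpace E] :
    fb D hn (c * star c * β) * (hmod (mulT E c hc) : ℂ) = fb D hn β := by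
  obtain ⟨v, hv, hvv⟩ := exists_value F B hn (star β - β) (by
    rw [star_sub, star_star, neg_sub])
  have hc' := wff_star_ne hc
  have h : QRok B v β := ⟨hβ, hvv.symm⟩
  have h' : QRok B (c • v) (c * star c * β) := by
    refine ⟨mul_ne_zero (mul_ne_zero hc hc') hβ, ?_⟩
    rw [B.smul_left, B.smul_right, hvv, star_mul', star_mul', star_star]
    ring
  have hcv : c • v ≠ 0 := smul_ne_zero hc hv
  have e1 : qr B (c • v) (c * star c * β) h' = qr B v β h := by
    apply Subtype.ext
    apply Units.ext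
    apply LinearMap.ext
    intro a
    show (qr B (c • v) (c * star c * β) h').1.1 a = (qr B v β h).1.1 a
    rw [qr_apply, qr_apply, B.smul_right, smul_smul]
    congr 2
    field_simp
  have hb := (wall_qr v hv β h).1
  have hb' : IsRBasis (qr B v β h).1 (fun _ : Fin 1 => c • v) := by
    rw [← e1]
    exact (wall_qr (c • v) hcv _ h').1
  have hdet : Matrix.det (fun _ _ => c : Matrix (Fin 1) (Fin 1) E) = c := Matrix.det_fin_one _
  have hmodc : ∀ (z : E) (hz : z ≠ 0), z = c → hmod (mulT E z hz) = hmod (mulT E c hc) := by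
    rintro z hz rfl
    rfl
  have h1 := t_change D (qr B v β h) (fun _ : Fin 1 => v) (fun _ : Fin 1 => c • v) hb hb'
    (fun _ _ => c) (by rw [hdet]; exact hc) (fun i => by
      rw [Fin.sum_univ_one])
  rw [fb_spec D hn β v hv h, hmodc _ _ hdet] at h1
  rw [h1, ← fb_spec D hn _ (c • v) hcv h']
  congr 1
  exact wff_congr D _ _ e1 rfl

private theorem wff_append (v1 v2 : V) :
    Fin.append (fun _ : Fin 1 => v1) (fun _ : Fin 1 => v2) = ![v1, v2] := by
  funext i
  fin_cases i
  · exact Fin.append_left (fun _ : Fin 1 => v1) (fun _ : Fin 1 => v2) 0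
  · exact Fin.append_right (fun _ : Fin 1 => v1) (fun _ : Fin 1 => v2) 0

/-- products of two quasi-reflections -/
private theorem wff_two_qr {B : SkewH E V} {p : PChar F} (D : LData B p)
    (hn : 3 ≤ Module.finrank E V) (v1 v2 : V) (hli : LinearIndependent E ![v1, v2]) (β1 β2 : E)
    (h1 : QRok B v1 β1) (h2 : QRok B v2 β2) :
    ∃ hb : IsRBasis (qr B v1 β1 h1 * qr B v2 β2 h2).1 ![v1, v2],
      D.t (qr B v1 β1 h1 * qr B v2 β2 h2) ![v1, v2] hb = fb D hn β1 * fb D hn β2 ∧
      ∀ a b a' b' : E, wall B (qr B v1 β1 h1 * qr B v2 β2 h2).1 (a • v1 + b • v2)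
        (a' • v1 + b' • v2) = a * star a' * β1 + b * star b' * β2 -
          b * star a' * B.ip v2 v1 := by
  have hv1 : v1 ≠ 0 := hli.ne_zero 0
  have hv2 : v2 ≠ 0 := hli.ne_zero 1
  have hb1 := (wall_qr v1 hv1 β1 h1).1
  have hb2 := (wall_qr v2 hv2 β2 h2).1
  have hr1 : LinearMap.range ((qr B v1 β1 h1).1.1 - 1) = Submodule.span E {v1} := by
    rw [← hb1.2, Set.range_const]
  have hr2 : LinearMap.range ((qr B v2 β2 h2).1.1 - 1) = Submodule.span E {v2} := by
    rw [← hb2.2, Set.range_const]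
  have hd : Disjoint (LinearMap.range ((qr B v1 β1 h1).1.1 - 1))
      (LinearMap.range ((qr B v2 β2 h2).1.1 - 1)) := by
    rw [hr1, hr2, Submodule.disjoint_def]
    intro x hx hx'
    obtain ⟨a, rfl⟩ := Submodule.mem_span_singleton.1 hx
    obtain ⟨b, hb⟩ := Submodule.mem_span_singleton.1 hx'
    have h3 := LinearIndependent.pair_iff.1 hli a (-b) (by rw [neg_smul, hb, add_neg_cancel])
    rw [h3.1, zero_smul]
  obtain ⟨hb, -, hw⟩ := wall_prod (qr B v1 β1 h1) (qr B v2 β2 h2) hd _ _ hb1 hb2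
  have e := wff_append v1 v2
  have hb' : IsRBasis (qr B v1 β1 h1 * qr B v2 β2 h2).1 ![v1, v2] := by
    rw [← e]
    exact hb
  refine ⟨hb', ?_, ?_⟩
  · rw [← fb_spec D hn β1 v1 hv1 h1, ← fb_spec D hn β2 v2 hv2 h2,
      ← t_prod D _ _ hd _ _ hb1 hb2 hb]
    exact wff_congr D _ _ rfl e.symm
  · intro a b a' b'
    have m1 : v1 ∈ LinearMap.range ((qr B v1 β1 h1).1.1 - 1) := by
      rw [hr1]
      exact Submodule.mem_span_singleton_self v1
    have m2 : v2 ∈ LinearMap.range ((qr B v2 β2 h2).1.1 - 1) := by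
      rw [hr2]
      exact Submodule.mem_span_singleton_self v2
    rw [hw _ (Submodule.smul_mem _ a m1) _ (Submodule.smul_mem _ b m2) _
      (Submodule.smul_mem _ a' m1) _ (Submodule.smul_mem _ b' m2),
      wall_smul_left _ a m1 (Submodule.smul_mem _ a' m1), wall_smul_right _ a' m1 m1,
      wall_smul_left _ b m2 (Submodule.smul_mem _ b' m2), wall_smul_right _ b' m2 m2,
      (wall_qr v1 hv1 β1 h1).2, (wall_qr v2 hv2 β2 h2).2, B.smul_left, B.smul_right]
    ring

/-- the relation when the Gram determinant does not vanish -/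
private theorem wff_rel {B : SkewH E V} {p : PChar F} (D : LData B p)
    (hn : 3 ≤ Module.finrank E V) (β1 β2 β3 : E) (h1 : β1 ≠ 0) (h2 : β2 ≠ 0) (h3 : β3 ≠ 0)
    (hG : (star β1 - β1) * (star β2 - β2) + (β1 + β2 - β3) * star (β1 + β2 - β3) ≠ 0) :
    fb D hn β1 * fb D hn β2 = fb D hn β3 * fb D hn (β1 * β2 / β3) := by
  haveI : TotallyDisconnectedSpace E := td_E F
  obtain ⟨v1, v2, hli, e1, e2, e3⟩ := exists_plane F B hn (star β1 - β1) (star β2 - β2)
    (β1 + β2 - β3) (by rw [star_sub, star_star, neg_sub]) (by rw [star_sub, star_star, neg_sub])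
    hG
  obtain ⟨hb, ht, hw⟩ := wff_two_qr D hn v1 v2 hli β1 β2 ⟨h1, e1.symm⟩ ⟨h2, e2.symm⟩
  have e4 : B.ip v1 v2 = -star (β1 + β2 - β3) := by rw [B.skew v2 v1, e3]
  have s3 := wff_star_ne h3
  set h := qr B v1 β1 ⟨h1, e1.symm⟩ * qr B v2 β2 ⟨h2, e2.symm⟩ with hh
  set c : E := -(star β2 / star β3) with hc
  have hsc : star c = -(β2 / β3) := by rw [hc, star_neg, star_div₀, star_star, star_star]
  set v : V := v1 + v2 with hv
  set v'' : V := v2 + c • v with hv''
  have hli' : LinearIndependent E ![v, v''] := by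
    rw [LinearIndependent.pair_iff]
    intro s t hst
    have h4 : (s + t * c) • v1 + (s + t * (1 + c)) • v2 = 0 := by
      rw [← hst, hv'', hv]
      module
    have h5 := LinearIndependent.pair_iff.1 hli _ _ h4
    have h6 : t = 0 := by linear_combination h5.2 - h5.1
    refine ⟨?_, h6⟩
    have h7 := h5.1
    rw [h6, zero_mul, add_zero] at h7
    exact h7
  have evv : B.ip v v = star β3 - β3 := by
    rw [hv, B.add_left, B.add_right, B.add_right, e1, e2, e3, e4, star_sub, star_add]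
    ring
  have ev''v : B.ip v'' v = β1 - β3 - c * β3 := by
    have h4 : c * star β3 = -star β2 := by
      rw [hc]
      field_simp
    rw [hv'', B.add_left, B.smul_left, evv, hv, B.add_right, e2, e3]
    linear_combination h4
  have evv'' : B.ip v v'' = -star (β1 - β3 - c * β3) := by rw [B.skew v'' v, ev''v]
  have h4 : β1 * β2 / β3 ≠ 0 := div_ne_zero (mul_ne_zero h1 h2) h3
  have ev''v'' : B.ip v'' v'' = star (β1 * β2 / β3) - β1 * β2 / β3 := by
    have h5 : B.ip v2 v'' = star β2 - β2 + star c * (β1 - β3 + star β2) := by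
      rw [hv'', B.add_right, B.smul_right, hv, B.add_right, e2, e3]
      ring
    conv_lhs => rw [hv'', B.add_left, B.smul_left, evv'', h5]
    rw [star_sub, star_sub, star_mul', hsc, star_div₀, star_mul', hc]
    field_simp
    ring
  obtain ⟨hb', ht', hw'⟩ := wff_two_qr D hn v v'' hli' β3 (β1 * β2 / β3) ⟨h3, evv.symm⟩
    ⟨h4, ev''v''.symm⟩
  set h' := qr B v β3 ⟨h3, evv.symm⟩ * qr B v'' (β1 * β2 / β3) ⟨h4, ev''v''.symm⟩ with hh'
  have hrange : Submodule.span E (Set.range ![v, v'']) = Submodule.span E (Set.range ![v1, v2]) := by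
    rw [Matrix.range_cons_cons_empty, Matrix.range_cons_cons_empty]
    apply le_antisymm
    · rw [Submodule.span_le]
      intro x hx
      rcases hx with rfl | hx
      · exact Submodule.mem_span_pair.2 ⟨1, 1, by rw [hv]; module⟩
      · rw [Set.mem_singleton_iff.1 hx]
        exact Submodule.mem_span_pair.2 ⟨c, 1 + c, by rw [hv'', hv]; module⟩
    · rw [Submodule.span_le]
      intro x hx
      rcases hx with rfl | hx
      · exact Submodule.mem_span_pair.2 ⟨1 + c, -1, by rw [hv'', hv]; module⟩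
      · rw [Set.mem_singleton_iff.1 hx]
        exact Submodule.mem_span_pair.2 ⟨-c, 1, by rw [hv'', hv]; module⟩
  have heq : h = h' := by
    apply wall_determines h h'
    · rw [← hb.2, ← hb'.2, hrange]
    · intro x hx y hy
      rw [← hb'.2, Matrix.range_cons_cons_empty] at hx hy
      obtain ⟨a, b, rfl⟩ := Submodule.mem_span_pair.1 hx
      obtain ⟨a', b', rfl⟩ := Submodule.mem_span_pair.1 hy
      rw [hw', ev''v]
      have f1 : a • v + b • v'' = (a + b * c) • v1 + (a + b * (1 + c)) • v2 := by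
        rw [hv'', hv]
        module
      have f2 : a' • v + b' • v'' = (a' + b' * c) • v1 + (a' + b' * (1 + c)) • v2 := by
        rw [hv'', hv]
        module
      rw [f1, f2, hw, e3, star_add, star_add, star_mul', star_mul', star_add, star_one, hsc, hc]
      field_simp
      ring
  rw [← ht, ← ht']
  have hb'' : IsRBasis h.1 ![v, v''] := by
    rw [heq]
    exact hb'
  have hdet : Matrix.det !![1, 1; c, 1 + c] = 1 := by
    rw [Matrix.det_fin_two_of]
    ring
  have hm : hmod (mulT E (Matrix.det !![1, 1; c, 1 + c]) (by rw [hdet]; exact one_ne_zero)) = 1 :=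
    hmod_id _ fun x => by
      show Matrix.det !![1, 1; c, 1 + c] * x = x
      rw [hdet, one_mul]
  rw [t_change D h ![v1, v2] ![v, v''] hb hb'' !![1, 1; c, 1 + c]
    (by rw [hdet]; exact one_ne_zero) (fun i => by
      fin_cases i
      · show v = _
        rw [Fin.sum_univ_two]
        show v = (1 : E) • v1 + (1 : E) • v2
        rw [hv]
        module
      · show v'' = _
        rw [Fin.sum_univ_two]
        show v'' = c • v1 + (1 + c) • v2
        rw [hv'', hv]
        module), hm, Complex.ofReal_one, mul_one]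
  exact wff_congr D _ _ heq rfl

theorem fb_rel {B : SkewH E V} {p : PChar F} (D : LData B p) (hn : 3 ≤ Module.finrank E V)
    (β1 β2 β3 : E) (h1 : β1 ≠ 0) (h2 : β2 ≠ 0) (h3 : β3 ≠ 0) :
    fb D hn β1 * fb D hn β2 = fb D hn β3 * fb D hn (β1 * β2 / β3) := by
  haveI : TotallyDisconnectedSpace E := td_E F
  haveI : CharZero E := charZero_of_injective_algebraMap (algebraMap F E).injective
  -- choose `t ∈ {1, 2, 3}`
  obtain ⟨t, ht0, hts, hG⟩ : ∃ t : E, t ≠ 0 ∧ star t = t ∧
      (star β1 - β1) * (star β2 - β2) +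
        (β1 + β2 - t * star t * β3) * star (β1 + β2 - t * star t * β3) ≠ 0 := by
    by_contra hcon
    push Not at hcon
    have k1 := hcon 1 one_ne_zero (star_one E)
    have k2 := hcon 2 two_ne_zero (star_ofNat 2)
    have k3 := hcon 3 three_ne_zero (star_ofNat 3)
    rw [star_sub, star_mul', star_mul', star_star, star_one] at k1
    rw [star_sub, star_mul', star_mul', star_star, star_ofNat] at k2 k3
    have k4 : (40 : E) * (β3 * star β3) = 0 := by
      linear_combination (5/3) * k1 - (8/3) * k2 + k3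
    exact (mul_ne_zero (by norm_num) (mul_ne_zero h3 (wff_star_ne h3))) k4
  have h3' : t * star t * β3 ≠ 0 := mul_ne_zero (mul_ne_zero ht0 (wff_star_ne ht0)) h3
  rw [wff_rel D hn β1 β2 (t * star t * β3) h1 h2 h3' hG]
  have e1 := fb_norm D hn β3 t h3 ht0
  have h4 : β1 * β2 / (t * star t * β3) ≠ 0 := div_ne_zero (mul_ne_zero h1 h2) h3'
  have e2 := fb_norm D hn (β1 * β2 / (t * star t * β3)) t h4 ht0
  have e3 : t * star t * (β1 * β2 / (t * star t * β3)) = β1 * β2 / β3 := by
    have := wff_star_ne ht0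
    field_simp
  rw [e3] at e2
  rw [← e2, ← e1]
  ring

theorem exists_mu {B : SkewH E V} {p : PChar F} (D : LData B p)
    (hn : 3 ≤ Module.finrank E V) : ∃ μ : Eˣ →* ℂˣ, ∀ z : Eˣ,
      ((μ z : ℂˣ) : ℂ) = fb D hn z / fb D hn 1 := by
  have h1 := fb_ne D hn 1 one_ne_zero
  refine ⟨MonoidHom.mk' (fun z : Eˣ => Units.mk0 (fb D hn z / fb D hn 1)
    (div_ne_zero (fb_ne D hn z z.ne_zero) h1)) ?_, fun z => rfl⟩
  intro z w
  apply Units.ext
  show fb D hn ((z * w : Eˣ) : E) / fb D hn 1 = fb D hn z / fb D hn 1 * (fb D hn w / fb D hn 1)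
  have h2 := fb_rel D hn z w 1 z.ne_zero w.ne_zero one_ne_zero
  rw [div_one] at h2
  rw [Units.val_mul]
  field_simp
  rw [h2, mul_comm]

end

end Pool.Agent.Work.MP_dd0ddf_al
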