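import Pool.Agent.Work.MP_dd0ddf_al.WfF
import Pool.Agent.Work.MP_dd0ddf_al.NiGauss
import Pool.Agent.Work.MP_dd0ddf_al.HmodAux

/-!
# MP_dd0ddf_al, module WfG: A G(c) μ(c) = 1

`G(c) = κ(nform c)` computed with the measure `addHaar` of `E` in `vI 1`; hI on E and vI 1 agree up to the identification Fin 1 → E (constant `m`, positive).
Let `v ≠ 0` be isotropic (exists_value, z = 0), `β = β' = c/2 ∈ F^×`.  `QRok v β`.  `σ = qr v β`: `σ σ = qr v (ββ'/c) = qr v (c/4)` (same line: `β'^{-1} + β^{-1} = c/(ββ')`).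
`M_σ M_σ f = ∫∫ ψ(β N(x) + β' N(y)) L_{xv} L_{yv} f`, `L_{xv}L_{yv} = L_{(x+y)v}` (om(xv,yv) = 0).  Substituting `z = x + y`: exponent `β N(x) + β' N(z-x) = c N(x - x0) + (ββ'/c) N(z)`, `x0 = β' z/c`.  So
`M_σ M_σ = G(c) M_{σσ}` (truncate to a large compact open subgroup `L × L`; the inner integral is `κ` by kap_spec).  With `l(σ)² = l(σ²)`: `fb(β)² G(c) = fb(c/4)`.
With `A = fb 1`, `fb β = A μ(β)`: `A² μ(c/2)² G(c) = A μ(c/4)`, so `A μ(c) G(c) = 1`.
Statement: there is a positive real `m` (depending on the measure only) with `fb 1 · μ(c) · m · κ(nform c) = 1`, i.e. `fb c * m * kap (nform c) = 1`.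
Conclusions: `mu_norm` etc.: `μ(c') = fb(c')/fb(1) = κ(nform 1)/κ(nform c')`, and `κ(nform c') = ± hmod(c') κ(nform 1)` (kap_norm, kap_nonnorm with c = 1).
`A4`: `κ(nform (-1)) = conj κ(nform 1)` (kap_conj) and `κ(nform(-1)) = ± κ(nform 1)` (hmod(mulT (-1)) = 1): so `κ(nform 1)² = ± |κ|²`, hence `A⁴ = (m κ)^{-4} > 0`.
-/

set_option linter.unusedSectionVars false
set_option linter.style.haveILetI false

namespace Pool.Agent.Work.MP_dd0ddf_al

noncomputable section

universe u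

variable {F E : Type u} [NontriviallyNormedField F] [IsUltrametricDist F] [ProperSpace F]
  [CharZero F] [NontriviallyNormedField E] [NormedAlgebra F E] [ProperSpace E] [StarRing E]
  [QExt F E] [MeasurableSpace E] [BorelSpace E]
variable {V : Type u} [AddCommGroup V] [Module E V] [Module.Finite E V] [TopologicalSpace V]
  [IsTopologicalAddGroup V] [T2Space V] [ContinuousSMul E V]

open MeasureTheory in
variable (F E) in
include F in
private theorem wfg_m : haveI : TotallyDisconnectedSpace E := td_E F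
    ∃ m : ℝ, 0 < m ∧ ∀ h : SF E ℂ,
      ∫ x : Fin 1 → E, h (x 0) ∂(Measure.pi fun _ => (Measure.addHaar : Measure E)) =
        m * hI h := by
  haveI : TotallyDisconnectedSpace E := td_E F
  obtain ⟨c, hc, h1⟩ := vI_hI F (E := E) (W := ℂ) 1
  obtain ⟨c', hc', h2⟩ := hI_transfer (Homeomorph.funUnique (Fin 1) E) (fun _ _ => rfl)
  refine ⟨c * c', mul_pos hc hc', fun h => ?_⟩
  have h3 := vI_integral 1 (SF.comp (Homeomorph.funUnique (Fin 1) E) h)
  have h4 : ∫ x : Fin 1 → E, h (x 0) ∂(Measure.pi fun _ => (Measure.addHaar : Measure E)) =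
      vI 1 (SF.comp (Homeomorph.funUnique (Fin 1) E) h) := h3.symm
  rw [h4, h1, h2, smul_smul, smul_eq_mul, Complex.ofReal_mul]

private theorem wfg_L (B : SkewH E V) (p : PChar F) (x : V) (f : SF V ℂ) (v : V) :
    Lop B p x f v = p.ψ (2⁻¹ * om F B x v) * f (v - x) := rfl

open MeasureTheory in
private theorem wfg_M [FiniteDimensional F E] {m : ℝ} [TotallyDisconnectedSpace E]
    (hm : ∀ h : SF E ℂ, ∫ x : Fin 1 → E, h (x 0)
      ∂(Measure.pi fun _ => (Measure.addHaar : Measure E)) = m * hI h)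
    (B : SkewH E V) (p : PChar F) (v : V) (hv : v ≠ 0) (β : F) (hβ : β ≠ 0)
    (h : QRok B v (algebraMap F E β)) (f : SF V ℂ) (w : V) (k : SF E ℂ)
    (hk : ∀ x, k x = p.ψ (2⁻¹ * (nform F E β hβ).b x x) * Lop B p (x • v) f w) :
    Mop B p (qr B v _ h) (fun _ : Fin 1 => v) (wall_qr v hv _ h).1 f w = m * hI k := by
  rw [Mop_apply, ← hm]
  refine integral_congr_ae (Filter.Eventually.of_forall fun x => ?_)
  show _ = k (x 0)
  rw [hk]
  simp only [Fin.sum_univ_one]
  rw [(wall_qr v hv _ h).2]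
  congr 3
  show Algebra.trace F E (x 0 * star (x 0) * algebraMap F E β) =
    β * Algebra.trace F E (x 0 * star (x 0))
  rw [mul_comm, ← Algebra.smul_def, map_smul, smul_eq_mul]

/-- integral of a character over a compact open subgroup -/
private theorem wfg_char [TotallyDisconnectedSpace E] (χ : BiChar E) (K : AddSubgroup E)
    (hK : IsOpen (K : Set E)) (hK' : IsCompact (K : Set E)) (w : E) (g : SF E ℂ)
    (hg : ∀ z, g z = χ.χ z w * SF.single (K : Set E) hK' hK (1 : ℂ) z) :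
    ((∀ z ∈ K, χ.χ z w = 1) → hI g = hvol (K : Set E)) ∧
    (¬ (∀ z ∈ K, χ.χ z w = 1) → hI g = 0) := by
  constructor
  · intro h
    have e1 : g = SF.single (K : Set E) hK' hK (1 : ℂ) := by
      apply SF.ext
      intro z
      rw [hg]
      by_cases hz : z ∈ K
      · rw [h z hz, one_mul]
      · rw [SF.single_apply_not_mem _ _ _ _ _ hz, mul_zero]
    rw [e1, hI_single, smul_eq_mul, mul_one]
  · intro h
    push Not at h
    obtain ⟨a, ha, ha'⟩ := h
    have e1 : SF.comp (Homeomorph.addRight a) g = χ.χ a w • g := by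
      apply SF.ext
      intro z
      show g (z + a) = χ.χ a w * g z
      rw [hg, hg, χ.addl]
      have e2 : SF.single (K : Set E) hK' hK (1 : ℂ) (z + a) =
          SF.single (K : Set E) hK' hK (1 : ℂ) z := by
        by_cases hz : z ∈ K
        · rw [SF.single_apply_mem _ _ _ _ _ hz,
            SF.single_apply_mem _ _ _ _ _ (K.add_mem hz ha)]
        · rw [SF.single_apply_not_mem _ _ _ _ _ hz, SF.single_apply_not_mem]
          intro h1
          apply hz
          have h2 := K.sub_mem h1 ha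
          rwa [add_sub_cancel_right] at h2
      rw [e2]
      ring
    have e2 : hI g = χ.χ a w * hI g := by
      conv_lhs => rw [← hI_trans a g, e1, map_smul, smul_eq_mul]
    have e3 : (1 - χ.χ a w) * hI g = 0 := by
      rw [sub_mul, one_mul, ← e2, sub_self]
    exact (mul_eq_zero.1 e3).resolve_left (sub_ne_zero.2 (Ne.symm ha'))

private theorem wfg_key {B : SkewH E V} {p : PChar F} (D : LData B p)
    (hn : 3 ≤ Module.finrank E V) [FiniteDimensional F E] [TotallyDisconnectedSpace E]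
    {m : ℝ} (hm0 : 0 < m)
    (hm : ∀ h : SF E ℂ, ∫ x : Fin 1 → E, h (x 0)
      ∂(MeasureTheory.Measure.pi fun _ => (MeasureTheory.Measure.addHaar :
        MeasureTheory.Measure E)) = m * hI h) (β : F) (hβ : β ≠ 0)
    (h2β : 2 * β ≠ 0) :
    fb D hn (algebraMap F E β) ^ 2 * m * kap (nform F E (2 * β) h2β) p =
      fb D hn (algebraMap F E (β / 2)) := by
  have hβ2 : β / 2 ≠ 0 := div_ne_zero hβ two_ne_zero
  obtain ⟨v, hv, hvv⟩ := exists_value F B hn 0 (by rw [star_zero, neg_zero])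
  have hinj := (algebraMap F E).injective
  have ok : ∀ t : F, t ≠ 0 → QRok B v (algebraMap F E t) := fun t ht =>
    ⟨fun h => ht (hinj (by rw [h, map_zero])), by rw [QExt.star_alg, sub_self, hvv]⟩
  set b := nform F E β hβ with hb
  set b' := nform F E (β / 2) hβ2 with hb'
  set b'' := nform F E (2 * β) h2β with hb''
  have r' : ∀ z, p.ψ (2⁻¹ * b.b z z) = p.ψ (2⁻¹ * b'.b z z) * p.ψ (2⁻¹ * b'.b z z) := fun z => by
    rw [← p.add]
    congr 1
    show 2⁻¹ * (β * _) = 2⁻¹ * (β / 2 * _) + 2⁻¹ * (β / 2 * _)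
    ring
  have r'' : ∀ z, p.ψ (2⁻¹ * b''.b z z) = p.ψ (2⁻¹ * b.b z z) * p.ψ (2⁻¹ * b.b z z) := fun z => by
    rw [← p.add]
    congr 1
    show 2⁻¹ * (2 * β * _) = 2⁻¹ * (β * _) + 2⁻¹ * (β * _)
    ring
  obtain ⟨L0, hL0o, hL0c, hL0⟩ := gaussapi_kap b'' p
  -- the small open set
  have hW : IsOpen ({z : E | p.ψ (2⁻¹ * b'.b z z) = 1} ∩
      {z | ∀ x ∈ L0, (b.bi p).χ x z = 1}) :=
    ((b'.lcq p).isOpen_fiber 1).inter (isOpen_perp (b.bi p) L0 hL0c)
  have hb0 : ∀ (γ : SForm F E) (z : E), γ.b z 0 = 0 := fun γ z => by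
    have h1 := γ.smul_right 0 z 0
    rwa [zero_smul, zero_mul] at h1
  have hψ0 : p.ψ 0 = 1 := gaussdefs_psi_zero p
  have hj : Topology.IsClosedEmbedding (LinearMap.toSpanSingleton E V v) :=
    LinearMap.isClosedEmbedding_of_injective (by
      rw [LinearMap.ker_eq_bot']
      intro x hx
      rw [LinearMap.toSpanSingleton_apply] at hx
      exact (smul_eq_zero.1 hx).resolve_right hv)
  obtain ⟨O, hO, hOW⟩ := hj.isInducing.isOpen_iff.1 hW
  haveI := lc_V E V
  haveI := td_V F E V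
  obtain ⟨N, hNo, hNc, hNO⟩ := exists_co_addSubgroup O hO (by
    have h0 : (0 : E) ∈ (LinearMap.toSpanSingleton E V v) ⁻¹' O := by
      rw [hOW]
      refine ⟨?_, fun x _ => ?_⟩
      · show p.ψ (2⁻¹ * b'.b 0 0) = 1
        rw [hb0, mul_zero, hψ0]
      · rw [SForm.bi_apply, hb0, hψ0]
    have h1 : (LinearMap.toSpanSingleton E V v) 0 ∈ O := h0
    rwa [map_zero] at h1)
  set K : AddSubgroup E := N.comap (LinearMap.toSpanSingleton E V v).toAddMonoidHom with hKdef
  have hKm : ∀ z : E, z ∈ K ↔ z • v ∈ N := fun z => Iff.rfl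
  have hKo : IsOpen (K : Set E) := hNo.preimage hj.continuous
  have hKc : IsCompact (K : Set E) := hj.isCompact_preimage hNc
  have hKW : ∀ z ∈ K, p.ψ (2⁻¹ * b'.b z z) = 1 ∧ ∀ x ∈ L0, (b.bi p).χ x z = 1 := by
    intro z hz
    have h1 : z ∈ (LinearMap.toSpanSingleton E V v) ⁻¹' O := hNO ((hKm z).1 hz)
    rw [hOW] at h1
    exact h1
  have hvK := hvol_pos (K : Set E) hKc hKo ⟨0, K.zero_mem⟩
  -- the dual group
  set K' : AddSubgroup E :=
    { carrier := {w | ∀ z ∈ K, (b.bi p).χ z w = 1}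
      zero_mem' := fun z _ => by rw [SForm.bi_apply, hb0, hψ0]
      add_mem' := fun {x y} hx hy z hz => by rw [(b.bi p).addr, hx z hz, hy z hz, mul_one]
      neg_mem' := fun {x} hx z hz => by
        have h1 := (b.bi p).addr z x (-x)
        rw [add_neg_cancel, SForm.bi_apply b p z 0, hb0, hψ0, hx z hz, one_mul] at h1
        exact h1.symm } with hK'def
  have hK'm : ∀ w : E, w ∈ K' ↔ ∀ z ∈ K, (b.bi p).χ z w = 1 := fun w => Iff.rfl
  have hK'o : IsOpen (K' : Set E) := isOpen_perp (b.bi p) K hKc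
  have hK'c : IsCompact (K' : Set E) := (b.bi p).perp K hKo
  have hLK : L0 ≤ K' := fun x hx z hz => by
    rw [SForm.bi_apply, b.symm]
    exact (hKW z hz).2 x hx
  have hkap := hL0 K' hK'o hK'c hLK
  -- the test function
  set f : SF V ℂ := SF.single (N : Set V) hNc hNo (1 : ℂ) with hf
  have hfv : ∀ z : E, f (-(z • v)) = SF.single (K : Set E) hKc hKo (1 : ℂ) z := by
    intro z
    by_cases hz : z ∈ K
    · rw [SF.single_apply_mem _ _ _ _ _ hz, hf, SF.single_apply_mem]
      exact N.neg_mem ((hKm z).1 hz)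
    · rw [SF.single_apply_not_mem _ _ _ _ _ hz, hf, SF.single_apply_not_mem]
      intro h1
      exact hz ((hKm z).2 (by
        have h2 := N.neg_mem h1
        rwa [neg_neg] at h2))
  have hom0 : ∀ x y : E, om F B (x • v) (-(y • v)) = 0 := by
    intro x y
    show Algebra.trace F E (B.ip (x • v) (-(y • v))) = 0
    rw [← neg_smul, B.smul_left, B.smul_right, hvv, mul_zero, mul_zero, map_zero]
  have hom00 : ∀ x : E, om F B (x • v) 0 = 0 := by
    intro x
    have h1 := hom0 x 0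
    rwa [zero_smul, neg_zero] at h1
  -- the square
  set σ := qr B v (algebraMap F E β) (ok β hβ) with hσ
  set τ := qr B v (algebraMap F E (β / 2)) (ok _ hβ2) with hτ
  have hστ : σ * σ = τ := by
    apply Subtype.ext
    apply Units.ext
    apply LinearMap.ext
    intro a
    show σ.1.1 (σ.1.1 a) = τ.1.1 a
    rw [hσ, hτ, qr_apply, qr_apply, qr_apply, B.add_left, B.smul_left, hvv, mul_zero, add_zero,
      add_assoc, ← add_smul]
    congr 2
    rw [map_div₀, map_ofNat]
    have h1 : algebraMap F E β ≠ 0 := (ok β hβ).1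
    have h2 : (2 : E) ≠ 0 := by
      haveI : CharZero E := charZero_of_injective_algebraMap (algebraMap F E).injective
      exact two_ne_zero
    field_simp
    ring
  have hbσ := (wall_qr v hv _ (ok β hβ)).1
  have hbτ := (wall_qr v hv _ (ok _ hβ2)).1
  -- the value for τ
  have e1 : Mop B p τ (fun _ : Fin 1 => v) hbτ f 0 = m * hvol (K : Set E) := by
    rw [wfg_M hm B p v hv (β / 2) hβ2 (ok _ hβ2) f 0 (SF.single (K : Set E) hKc hKo (1 : ℂ)) ?_,
      hI_single, smul_eq_mul, mul_one]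
    intro x
    rw [wfg_L, hom00, mul_zero, hψ0, one_mul, zero_sub, hfv]
    by_cases hx : x ∈ K
    · rw [(hKW x hx).1, one_mul]
    · rw [SF.single_apply_not_mem _ _ _ _ _ hx, mul_zero]
  -- the inner integral
  have e2 : ∀ x : E, Mop B p σ (fun _ : Fin 1 => v) hbσ f (-(x • v)) =
      m * (p.ψ (2⁻¹ * b.b x x) * (hvol (K : Set E) *
        SF.single (K' : Set E) hK'c hK'o (1 : ℂ) x)) := by
    intro x
    rw [wfg_M hm B p v hv β hβ (ok β hβ) f (-(x • v))
      (SF.mulc (fun y => p.ψ (2⁻¹ * b.b y y)) (b.lcq p) (SF.comp (Homeomorph.addRight x)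
        (SF.single (K : Set E) hKc hKo (1 : ℂ)))) ?_]
    · congr 1
      set g : SF E ℂ := SF.mulc (fun z => (b.bi p).χ z (-x)) ((b.bi p).lcl (-x))
        (SF.single (K : Set E) hKc hKo (1 : ℂ)) with hg
      rw [← hI_trans (-x)]
      have e3 : SF.comp (Homeomorph.addRight (-x))
          (SF.mulc (fun y => p.ψ (2⁻¹ * b.b y y)) (b.lcq p) (SF.comp (Homeomorph.addRight x)
          (SF.single (K : Set E) hKc hKo (1 : ℂ)))) = p.ψ (2⁻¹ * b.b x x) • g := by
        apply SF.ext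
        intro z
        show p.ψ (2⁻¹ * b.b (z + -x) (z + -x)) * SF.single (K : Set E) hKc hKo (1 : ℂ) (z + -x + x) =
          p.ψ (2⁻¹ * b.b x x) * ((b.bi p).χ z (-x) * SF.single (K : Set E) hKc hKo (1 : ℂ) z)
        rw [neg_add_cancel_right]
        by_cases hz : z ∈ K
        · have e4 : b.b (-x) (-x) = b.b x x := by
            have h1 := b.smul_left (-1) x (-x)
            have h2 := b.smul_right (-1) x x
            rw [neg_smul, one_smul] at h1 h2
            rw [h1, h2]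
            ring
          rw [gaussdefs_add_self, r' z, (hKW z hz).1, e4, SForm.bi_apply]
          ring
        · rw [SF.single_apply_not_mem _ _ _ _ _ hz]
          ring
      rw [e3, map_smul, smul_eq_mul]
      congr 1
      have hgz := wfg_char (b.bi p) K hKo hKc (-x) g fun z => rfl
      by_cases hx : x ∈ K'
      · rw [SF.single_apply_mem _ _ _ _ _ hx, mul_one]
        exact hgz.1 (K'.neg_mem hx)
      · rw [SF.single_apply_not_mem _ _ _ _ _ hx, mul_zero]
        apply hgz.2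
        intro h1
        apply hx
        have h2 := K'.neg_mem ((hK'm (-x)).2 h1)
        rwa [neg_neg] at h2
    · intro y
      show p.ψ (2⁻¹ * b.b y y) * SF.single (K : Set E) hKc hKo (1 : ℂ) (y + x) = _
      rw [wfg_L, hom0, mul_zero, hψ0, one_mul, ← hfv]
      congr 2
      rw [add_smul]
      abel_nf
  -- the outer integral
  have e3 : Mop B p σ (fun _ : Fin 1 => v) hbσ (Mop B p σ (fun _ : Fin 1 => v) hbσ f) 0 =
      m * ((m * hvol (K : Set E)) * kap b'' p) := by
    rw [wfg_M hm B p v hv β hβ (ok β hβ) _ 0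
      (((m : ℂ) * hvol (K : Set E)) • gfun b'' p K' hK'o hK'c 0) ?_, map_smul, smul_eq_mul, hkap]
    intro x
    show (m : ℂ) * hvol (K : Set E) * gfun b'' p K' hK'o hK'c 0 x = _
    rw [wfg_L, hom00, mul_zero, hψ0, one_mul, zero_sub, e2, gaussapi_gfun0, r'']
    ring
  -- conclusion
  have e4 : D.l τ f 0 = fb D hn (algebraMap F E (β / 2)) * (m * hvol (K : Set E)) := by
    rw [t_spec D τ _ hbτ, fb_spec D hn _ v hv (ok _ hβ2)]
    show fb D hn (algebraMap F E (β / 2)) * Mop B p τ (fun _ : Fin 1 => v) hbτ f 0 = _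
    rw [e1]
  have e5 : D.l τ f 0 = fb D hn (algebraMap F E β) * (fb D hn (algebraMap F E β) *
      (m * ((m * hvol (K : Set E)) * kap b'' p))) := by
    rw [← hστ, map_mul]
    show D.l σ (D.l σ f) 0 = _
    rw [t_spec D σ _ hbσ, fb_spec D hn _ v hv (ok _ hβ)]
    show fb D hn (algebraMap F E β) * Mop B p σ (fun _ : Fin 1 => v) hbσ
      (fb D hn (algebraMap F E β) • Mop B p σ (fun _ : Fin 1 => v) hbσ f) 0 = _
    rw [map_smul]
    show fb D hn (algebraMap F E β) * (fb D hn (algebraMap F E β) *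
      Mop B p σ (fun _ : Fin 1 => v) hbσ (Mop B p σ (fun _ : Fin 1 => v) hbσ f) 0) = _
    rw [e3]
  rw [e4] at e5
  have h6 : ((m : ℂ) * hvol (K : Set E)) ≠ 0 := by
    rw [← Complex.ofReal_mul, Ne, Complex.ofReal_eq_zero]
    exact (mul_pos hm0 hvK).ne'
  refine mul_right_cancel₀ h6 ?_
  rw [e5]
  ring

theorem fb_gauss {B : SkewH E V} {p : PChar F} (D : LData B p) (hn : 3 ≤ Module.finrank E V)
    [FiniteDimensional F E] [LocallyCompactSpace E] [TotallyDisconnectedSpace E]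
    [LocallyCompactSpace F] [TotallyDisconnectedSpace F] [ContinuousSMul F E] :
    ∃ m : ℝ, 0 < m ∧ ∀ (c : F) (hc : c ≠ 0),
      fb D hn (algebraMap F E c) * m * kap (nform F E c hc) p = 1 := by
  obtain ⟨m, hm0, hm⟩ := wfg_m F E
  refine ⟨m, hm0, fun c hc => ?_⟩
  have hc2 : c / 2 ≠ 0 := div_ne_zero hc two_ne_zero
  have hc4 : c / 2 / 2 ≠ 0 := div_ne_zero hc2 two_ne_zero
  have hcc : 2 * (c / 2) = c := by field_simp
  have h2 : 2 * (c / 2) ≠ 0 := by rw [hcc]; exact hc
  have hinj := (algebraMap F E).injective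
  have hne : ∀ t : F, t ≠ 0 → algebraMap F E t ≠ 0 := fun t ht h => ht (hinj (by rw [h, map_zero]))
  have h1 := wfg_key D hn hm0 hm (c / 2) hc2 h2
  have h3 := fb_rel D hn (algebraMap F E (c / 2)) (algebraMap F E (c / 2))
    (algebraMap F E (c / 2 / 2)) (hne _ hc2) (hne _ hc2) (hne _ hc4)
  have h4 : algebraMap F E (c / 2) * algebraMap F E (c / 2) / algebraMap F E (c / 2 / 2) =
      algebraMap F E c := by
    rw [← map_mul, ← map_div₀]
    congr 1
    field_simp
  rw [h4, ← sq] at h3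
  have h5 : kap (nform F E (2 * (c / 2)) h2) p = kap (nform F E c hc) p :=
    kap_ext _ _ _ fun x y => by
      show 2 * (c / 2) * _ = c * _
      rw [hcc]
  rw [h5, h3] at h1
  have h6 := fb_ne D hn _ (hne _ hc4)
  refine mul_left_cancel₀ h6 ?_
  rw [mul_one]
  conv_rhs => rw [← h1]
  ring

private theorem wfg_one {B : SkewH E V} {p : PChar F} (D : LData B p)
    (hn : 3 ≤ Module.finrank E V) : haveI : FiniteDimensional F E := qext_findim F E
    haveI : TotallyDisconnectedSpace E := td_E F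
    ∃ m : ℝ, 0 < m ∧ (∀ (c : F) (hc : c ≠ 0),
      fb D hn (algebraMap F E c) * m * kap (nform F E c hc) p = 1) ∧
      fb D hn 1 * m * kap (nform F E (1 : F) one_ne_zero) p = 1 := by
  haveI : FiniteDimensional F E := qext_findim F E
  haveI : TotallyDisconnectedSpace E := td_E F
  obtain ⟨m, hm, h1⟩ := fb_gauss D hn
  refine ⟨m, hm, h1, ?_⟩
  have h2 := h1 1 one_ne_zero
  rwa [map_one] at h2

theorem mu_norm_pos {B : SkewH E V} {p : PChar F} (D : LData B p)
    (hn : 3 ≤ Module.finrank E V) (c : F) (hc : c ≠ 0) (h : IsNorm F E c) :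
    ∃ r : ℝ, 0 < r ∧ fb D hn (algebraMap F E c) / fb D hn 1 = r := by
  haveI : FiniteDimensional F E := qext_findim F E
  haveI : TotallyDisconnectedSpace E := td_E F
  obtain ⟨m, hm, h1, h2⟩ := wfg_one D hn
  have h3 := h1 c hc
  have h4 := kap_norm F E p 1 c one_ne_zero hc h
  rw [kap_ext _ (nform F E c hc) p (fun x y => by show 1 * c * _ = c * _; rw [one_mul])] at h4
  rw [h4] at h3
  have hκ : kap (nform F E (1 : F) one_ne_zero) p ≠ 0 := by
    intro h5
    rw [h5, mul_zero] at h2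
    exact zero_ne_one h2
  have hm' : (m : ℂ) ≠ 0 := by rw [Ne, Complex.ofReal_eq_zero]; exact hm.ne'
  have hh := hmod_pos (mulT F c hc)
  have hh' : (hmod (mulT F c hc) : ℂ) ≠ 0 := by rw [Ne, Complex.ofReal_eq_zero]; exact hh.ne'
  have hf := fb_ne D hn 1 one_ne_zero
  refine ⟨(hmod (mulT F c hc))⁻¹, inv_pos.2 hh, ?_⟩
  rw [Complex.ofReal_inv, div_eq_iff hf]
  have h6 : fb D hn (algebraMap F E c) * (hmod (mulT F c hc) : ℂ) = fb D hn 1 :=
    mul_right_cancel₀ (mul_ne_zero hm' hκ) (by linear_combination h3 - h2)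
  rw [← h6]
  field_simp

theorem mu_nonnorm_neg {B : SkewH E V} {p : PChar F} (D : LData B p)
    (hn : 3 ≤ Module.finrank E V) (c : F) (hc : c ≠ 0) (h : ¬ IsNorm F E c) :
    ∃ r : ℝ, 0 < r ∧ fb D hn (algebraMap F E c) / fb D hn 1 = -r := by
  haveI : FiniteDimensional F E := qext_findim F E
  haveI : TotallyDisconnectedSpace E := td_E F
  obtain ⟨m, hm, h1, h2⟩ := wfg_one D hn
  have h3 := h1 c hc
  have h4 := kap_nonnorm F E p 1 c one_ne_zero hc h
  rw [kap_ext _ (nform F E c hc) p (fun x y => by show 1 * c * _ = c * _; rw [one_mul])] at h4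
  rw [h4] at h3
  have hκ : kap (nform F E (1 : F) one_ne_zero) p ≠ 0 := by
    intro h5
    rw [h5, mul_zero] at h2
    exact zero_ne_one h2
  have hm' : (m : ℂ) ≠ 0 := by rw [Ne, Complex.ofReal_eq_zero]; exact hm.ne'
  have hh := hmod_pos (mulT F c hc)
  have hh' : (hmod (mulT F c hc) : ℂ) ≠ 0 := by rw [Ne, Complex.ofReal_eq_zero]; exact hh.ne'
  have hf := fb_ne D hn 1 one_ne_zero
  refine ⟨(hmod (mulT F c hc))⁻¹, inv_pos.2 hh, ?_⟩
  rw [Complex.ofReal_inv, div_eq_iff hf]
  have h6 : fb D hn (algebraMap F E c) * -(hmod (mulT F c hc) : ℂ) = fb D hn 1 :=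
    mul_right_cancel₀ (mul_ne_zero hm' hκ) (by linear_combination h3 - h2)
  rw [← h6]
  field_simp

theorem fb_A4 {B : SkewH E V} {p : PChar F} (D : LData B p)
    (hn : 3 ≤ Module.finrank E V) : ∃ c : ℝ, 0 < c ∧ fb D hn 1 ^ 4 = c := by
  haveI : FiniteDimensional F E := qext_findim F E
  haveI : TotallyDisconnectedSpace E := td_E F
  obtain ⟨m, hm, -, h2⟩ := wfg_one D hn
  set κ := kap (nform F E (1 : F) one_ne_zero) p with hκdef
  have hκ : κ ≠ 0 := by
    intro h5
    rw [h5, mul_zero] at h2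
    exact zero_ne_one h2
  have hn1 : (-1 : F) ≠ 0 := neg_ne_zero.2 one_ne_zero
  have h3 : kap (nform F E (-1 : F) hn1) p = star κ :=
    kap_conj _ _ p fun v w => by show -1 * _ = -(1 * _); ring
  have hh : hmod (mulT F (-1) hn1) = 1 := by
    have e1 := hmod_mul (mulT F (-1) hn1) (mulT F (-1) hn1) (mulT F 1 one_ne_zero) (fun x => by
      show 1 * x = -1 * (-1 * x)
      ring)
    rw [hmod_id (mulT F 1 one_ne_zero) (fun x => one_mul x)] at e1
    have e2 := hmod_pos (mulT F (-1) hn1)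
    nlinarith
  have h4 : star κ = κ ∨ star κ = -κ := by
    by_cases h : IsNorm F E (-1 : F)
    · left
      have h5 := kap_norm F E p 1 (-1) one_ne_zero hn1 h
      rw [kap_ext _ (nform F E (-1) hn1) p (fun x y => by show 1 * -1 * _ = -1 * _; rw [one_mul]),
        h3, hh, Complex.ofReal_one, one_mul] at h5
      exact h5
    · right
      have h5 := kap_nonnorm F E p 1 (-1) one_ne_zero hn1 h
      rw [kap_ext _ (nform F E (-1) hn1) p (fun x y => by show 1 * -1 * _ = -1 * _; rw [one_mul]),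
        h3, hh, Complex.ofReal_one, neg_mul, one_mul] at h5
      exact h5
  have h6 : κ * star κ = ((‖κ‖ ^ 2 : ℝ) : ℂ) := by
    rw [Complex.star_def, Complex.mul_conj, Complex.normSq_eq_norm_sq]
  have h7 : κ ^ 4 = ((‖κ‖ ^ 4 : ℝ) : ℂ) := by
    have h8 : κ ^ 4 = (κ * star κ) ^ 2 := by
      rcases h4 with h | h <;> rw [h] <;> ring
    rw [h8, h6, ← Complex.ofReal_pow]
    congr 1
    ring
  have hpos : 0 < m ^ 4 * ‖κ‖ ^ 4 := mul_pos (pow_pos hm 4) (pow_pos (norm_pos_iff.2 hκ) 4)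
  refine ⟨(m ^ 4 * ‖κ‖ ^ 4)⁻¹, inv_pos.2 hpos, ?_⟩
  have h8 : fb D hn 1 ^ 4 * ((m ^ 4 * ‖κ‖ ^ 4 : ℝ) : ℂ) = 1 := by
    rw [Complex.ofReal_mul, ← h7, Complex.ofReal_pow]
    calc fb D hn 1 ^ 4 * ((m : ℂ) ^ 4 * κ ^ 4) = (fb D hn 1 * m * κ) ^ 4 := by ring
      _ = 1 := by rw [h2, one_pow]
  rw [Complex.ofReal_inv]
  exact eq_inv_of_mul_eq_one_left h8

end

end Pool.Agent.Work.MP_dd0ddf_al
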