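import Pool.Agent.Work.MP_dd0ddf_al.WfTri
import Pool.Agent.Work.MP_dd0ddf_al.WfG

/-!
# MP_dd0ddf_al, module WfLc: μ is locally constant

Let `v1, v2` be a hyperbolic pair (`exists_plane` with z1 = z2 = 0, ζ = -1: `⟨v2,v1⟩ = -1`, `⟨v1,v2⟩ = 1`), and for `z ∈ E^×` let `h_z ∈ U(V)` be `v1 ↦ z v1`, `v2 ↦ (star z)⁻¹ v2`, identity on `{v1,v2}^⊥`
(`extU` of the corresponding isometry of the plane).  For `z ≠ 1`, `(v1, v2)` is a basis of `R_{h_z}`, `W(v1,v1) = W(v2,v2) = 0`, `W(v1,v2) = 1/(z-1)`, `W(v2,v1) = -1/((star z)⁻¹ - 1)`,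
`det = -star z/((z-1) star(z-1))`.  Fix `z0 ≠ 1` (e.g. z0 = -1... or 2; note char 0).  By smoothness (and `h_z = h_{z/z0} h_{z0}`): for every `f`, `l(h_z) f = l(h_{z0}) f` for `z` near `z0`.
By `t_general`: `l(h_z) f(v) = A² μ(det_z) ∫∫ ψ(½Tr(x star y W_z(v1,v2) + y star x W_z(v2,v1))) L_{xv1+yv2} f(v)`; for fixed `f, v` the integrand has compact support in `(x,y)` independent of `z` and the phase is
constant in `z` near `z0` uniformly on that support; choose `f, v` with `l(h_{z0}) f (v) ≠ 0`: so the integral is nonzero and constant, whence `μ(det_z) = μ(det_{z0})` for `z` near `z0`.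
`μ(N(c)) = hmod(c)⁻¹` is locally constant in c (hmod is 1 on units near 1: preserves the ball), `N(z-1)/N(z0-1) → 1`; so `μ(star z/star z0) = 1` for `z` near `z0`, i.e. `μ = 1` near 1.
-/

set_option linter.unusedSectionVars false
set_option linter.style.haveILetI false

namespace Pool.Agent.Work.MP_dd0ddf_al

noncomputable section

universe u

variable {F E : Type u} [NontriviallyNormedField F] [IsUltrametricDist F] [ProperSpace F]
  [CharZero F] [NontriviallyNormedField E] [NormedAlgebra F E] [ProperSpace E] [StarRing E]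
  [QExt F E] [MeasurableSpace E] [BorelSpace E]
variable {V : Type u} [AddCommGroup V] [Module E V] [Module.Finite E V] [TopologicalSpace V]
  [IsTopologicalAddGroup V] [T2Space V] [ContinuousSMul E V]

open Filter Topology MeasureTheory in
/-- the function `f` is constant along small translations by `F` -/
private theorem wflc_near {B : SkewH E V} {p : PChar F} (D : LData B p)
    (hn : 3 ≤ Module.finrank E V) (β : E) (hβ : β ≠ 0) :
    ∀ᶠ s in 𝓝 (0 : F), fb D hn (β + algebraMap F E s) = fb D hn β := by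
  obtain ⟨v, hv, hvv⟩ := exists_value F B hn (star β - β) (by
    rw [star_sub, star_star, neg_sub])
  have ok0 : QRok B v β := ⟨hβ, hvv.symm⟩
  have ok : ∀ s : F, β + algebraMap F E s ≠ 0 → QRok B v (β + algebraMap F E s) := fun s hs =>
    ⟨hs, by rw [star_add, QExt.star_alg, hvv]; ring⟩
  set σ := qr B v β ok0 with hσ
  have hbσ := (wall_qr v hv β ok0).1
  obtain ⟨f, w, hfw⟩ : ∃ f w, Mop B p σ (fun _ : Fin 1 => v) hbσ f w ≠ 0 := by
    by_contra hcon
    push Not at hcon
    exact Mop_ne B p σ _ hbσ (LinearMap.ext fun f => SF.ext fun w => hcon f w)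
  have hcalg : Continuous (algebraMap F E) := algebraMap_isometry F E |>.continuous
  have c1 : ∀ᶠ s in 𝓝 (0 : F), β + algebraMap F E s ≠ 0 := by
    have h1 : ContinuousAt (fun s : F => β + algebraMap F E s) 0 :=
      (continuous_const.add hcalg).continuousAt
    refine h1.eventually_ne ?_
    rw [map_zero, add_zero]
    exact hβ
  -- the relevant compact set
  have hj : Topology.IsClosedEmbedding (LinearMap.toSpanSingleton E V v) :=
    LinearMap.isClosedEmbedding_of_injective (by
      rw [LinearMap.ker_eq_bot']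
      intro x hx
      rw [LinearMap.toSpanSingleton_apply] at hx
      exact (smul_eq_zero.1 hx).resolve_right hv)
  have hC : IsCompact ((LinearMap.toSpanSingleton E V v) ⁻¹'
      ((fun u : V => w - u) '' tsupport f.1)) :=
    hj.isCompact_preimage (f.2.2.isCompact.image (continuous_const.sub continuous_id))
  have hψ0 : p.ψ 0 = 1 := gaussdefs_psi_zero p
  have c2 : ∀ᶠ s in 𝓝 (0 : F), ∀ x ∈ (LinearMap.toSpanSingleton E V v) ⁻¹'
      ((fun u : V => w - u) '' tsupport f.1),
      p.ψ (2⁻¹ * Algebra.trace F E (x * star x * algebraMap F E s)) = 1 := by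
    refine hC.eventually_forall_of_forall_eventually fun x _ => ?_
    have h1 : Continuous (fun q : F × E =>
        2⁻¹ * Algebra.trace F E (q.2 * star q.2 * algebraMap F E q.1)) :=
      continuous_const.mul ((continuous_trace F E).comp ((continuous_snd.mul
        ((continuous_star_E F E).comp continuous_snd)).mul (hcalg.comp continuous_fst)))
    have h2 : IsOpen {t : F | p.ψ t = 1} := p.lc.isOpen_fiber 1
    have h3 := h2.preimage h1
    refine h3.mem_nhds ?_
    show p.ψ (2⁻¹ * Algebra.trace F E (x * star x * algebraMap F E 0)) = 1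
    rw [map_zero, mul_zero, map_zero, mul_zero, hψ0]
  obtain ⟨U, hU, hU1, hUf⟩ := D.smooth (D.l σ f)
  have hσi : ∀ a, σ.1.1 (σ.1⁻¹.1 a) = a := fun a =>
    congrArg (fun f : Module.End E V => f a) σ.1.mul_inv
  have c3 : ∀ᶠ s in 𝓝 (0 : F), qrLin B v (β + algebraMap F E s)⁻¹ * σ.1⁻¹.1 ∈ U := by
    have h1 : ContinuousAt (fun s : F => qrLin B v (β + algebraMap F E s)⁻¹ * σ.1⁻¹.1) 0 := by
      have hind : Topology.IsInducing (fun f : Module.End E V => (f : V → V)) := ⟨rfl⟩
      rw [hind.continuousAt_iff, continuousAt_pi]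
      intro a
      show ContinuousAt (fun s : F => σ.1⁻¹.1 a +
        ((β + algebraMap F E s)⁻¹ * B.ip (σ.1⁻¹.1 a) v) • v) 0
      refine continuousAt_const.add (ContinuousAt.smul (ContinuousAt.mul
        (ContinuousAt.inv₀ (continuous_const.add hcalg).continuousAt ?_) continuousAt_const)
          continuousAt_const)
      rw [map_zero, add_zero]
      exact hβ
    refine h1.eventually (hU.mem_nhds ?_)
    show qrLin B v (β + algebraMap F E 0)⁻¹ * σ.1⁻¹.1 ∈ U
    rw [map_zero, add_zero]
    have h2 : qrLin B v β⁻¹ * σ.1⁻¹.1 = 1 := σ.1.mul_inv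
    rw [h2]
    exact hU1
  filter_upwards [c1, c2, c3] with s h1 h2 h3
  set τ := qr B v (β + algebraMap F E s) (ok s h1) with hτ
  have hbτ := (wall_qr v hv _ (ok s h1)).1
  have e1 : D.l τ f = D.l σ f := by
    have e2 : D.l (τ * σ⁻¹) (D.l σ f) = D.l σ f := hUf (τ * σ⁻¹) h3
    rw [← e2]
    show D.l τ f = (D.l (τ * σ⁻¹) * D.l σ) f
    rw [← map_mul, inv_mul_cancel_right]
  have e3 : Mop B p τ (fun _ : Fin 1 => v) hbτ f w = Mop B p σ (fun _ : Fin 1 => v) hbσ f w := by
    rw [Mop_apply, Mop_apply]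
    refine integral_congr_ae (Filter.Eventually.of_forall fun x => ?_)
    simp only [Fin.sum_univ_one]
    rw [(wall_qr v hv _ (ok s h1)).2, (wall_qr v hv β ok0).2]
    by_cases hx : x 0 ∈ (LinearMap.toSpanSingleton E V v) ⁻¹'
      ((fun u : V => w - u) '' tsupport f.1)
    · rw [mul_add, map_add, mul_add, p.add, h2 _ hx, mul_one]
    · have h4 : Lop B p (x 0 • v) f w = 0 := by
        show p.ψ (2⁻¹ * om F B (x 0 • v) w) * f (w - x 0 • v) = 0
        rw [show f (w - x 0 • v) = 0 from image_eq_zero_of_notMem_tsupport fun h5 => hx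
          ⟨_, h5, sub_sub_cancel w _⟩, mul_zero]
      rw [h4, mul_zero, mul_zero]
  have e4 : D.l τ f w = fb D hn (β + algebraMap F E s) *
      Mop B p σ (fun _ : Fin 1 => v) hbσ f w := by
    rw [t_spec D τ _ hbτ, fb_spec D hn _ v hv (ok s h1)]
    show _ * Mop B p τ (fun _ : Fin 1 => v) hbτ f w = _
    rw [e3]
  have e5 : D.l σ f w = fb D hn β * Mop B p σ (fun _ : Fin 1 => v) hbσ f w := by
    rw [t_spec D σ _ hbσ, fb_spec D hn _ v hv ok0]
    rfl
  rw [e1, e5] at e4
  exact (mul_right_cancel₀ hfw e4).symm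

open Filter Topology in
theorem mu_lc {B : SkewH E V} {p : PChar F} (D : LData B p) (hn : 3 ≤ Module.finrank E V)
    (μ : Eˣ →* ℂˣ) (hμ : ∀ z : Eˣ, ((μ z : ℂˣ) : ℂ) = fb D hn z / fb D hn 1) :
    IsLocallyConstant (fun x : Eˣ => ((μ x : ℂˣ) : ℂ)) := by
  haveI : CharZero E := charZero_of_injective_algebraMap (algebraMap F E).injective
  have hA := fb_ne D hn 1 one_ne_zero
  obtain ⟨η, hη0, hηs, -, hηf, hfix⟩ := exists_eta F E
  have h2 : (2 : E) ≠ 0 := two_ne_zero
  -- `μ(1 + s γ) = 1` for small `s`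
  have key : ∀ γ : E, γ ≠ 0 → ∃ ε : ℝ, 0 < ε ∧ ∀ s : F, ‖s‖ < ε → ∀ u : Eˣ,
      (u : E) = 1 + algebraMap F E s * γ → μ u = 1 := by
    intro γ hγ
    obtain ⟨ε, hε, h3⟩ := Metric.eventually_nhds_iff.1 (wflc_near D hn γ⁻¹ (inv_ne_zero hγ))
    refine ⟨ε, hε, fun s hs u hu => ?_⟩
    have h4 := h3 (show dist s 0 < ε by rwa [dist_zero_right])
    have h5 : γ⁻¹ + algebraMap F E s = ((Units.mk0 γ hγ)⁻¹ * u : Eˣ) := by
      rw [Units.val_mul, hu]
      show γ⁻¹ + algebraMap F E s = γ⁻¹ * (1 + algebraMap F E s * γ)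
      field_simp
    have h6 : μ ((Units.mk0 γ hγ)⁻¹ * u) = μ (Units.mk0 γ hγ)⁻¹ := by
      apply Units.ext
      rw [hμ, hμ, ← h5, h4]
      rfl
    rw [map_mul] at h6
    exact mul_left_cancel (by rw [h6, mul_one])
  obtain ⟨ε1, hε1, k1⟩ := key 1 one_ne_zero
  obtain ⟨ε2, hε2, k2⟩ := key η hη0
  have hst := continuous_star_E F E
  -- near 1
  have hnear : ∀ᶠ u : Eˣ in 𝓝 (1 : Eˣ), μ u = 1 := by
    have g1 : ContinuousAt (fun u : Eˣ => ((u : E) + star (u : E)) / 2 - 1) 1 :=
      ((((Units.continuous_val.add (hst.comp Units.continuous_val))).div_const 2).sub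
        continuous_const).continuousAt
    have v1 : (((1 : Eˣ) : E) + star ((1 : Eˣ) : E)) / 2 = 1 := by
      rw [Units.val_one, star_one]
      norm_num
    have g2 : ContinuousAt (fun u : Eˣ => (((u : E) - star (u : E)) / (2 * η)) /
        (((u : E) + star (u : E)) / 2)) 1 := by
      refine ContinuousAt.div ?_ ?_ ?_
      · exact ((Units.continuous_val.sub (hst.comp Units.continuous_val)).div_const _).continuousAt
      · exact ((Units.continuous_val.add (hst.comp Units.continuous_val)).div_const _).continuousAt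
      · rw [v1]
        exact one_ne_zero
    have g3 : ContinuousAt (fun u : Eˣ => ((u : E) + star (u : E)) / 2) 1 :=
      ((Units.continuous_val.add (hst.comp Units.continuous_val)).div_const _).continuousAt
    have f1 : ∀ᶠ u : Eˣ in 𝓝 (1 : Eˣ), ‖((u : E) + star (u : E)) / 2 - 1‖ < ε1 := by
      refine g1.norm.eventually_lt continuousAt_const ?_
      rw [v1, sub_self, norm_zero]
      exact hε1
    have f2 : ∀ᶠ u : Eˣ in 𝓝 (1 : Eˣ), ‖(((u : E) - star (u : E)) / (2 * η)) /
        (((u : E) + star (u : E)) / 2)‖ < ε2 := by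
      refine g2.norm.eventually_lt continuousAt_const ?_
      rw [Units.val_one, star_one, sub_self, zero_div, zero_div, norm_zero]
      exact hε2
    have f3 : ∀ᶠ u : Eˣ in 𝓝 (1 : Eˣ), ((u : E) + star (u : E)) / 2 ≠ 0 := by
      refine g3.eventually_ne ?_
      rw [v1]
      exact one_ne_zero
    filter_upwards [f1, f2, f3] with u hu1 hu2 hu3
    obtain ⟨a, ha⟩ := hfix (((u : E) + star (u : E)) / 2) (by
      rw [star_div₀, star_add, star_star, star_ofNat]
      ring)
    obtain ⟨b, hb⟩ := hfix ((((u : E) - star (u : E)) / (2 * η)) /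
        (((u : E) + star (u : E)) / 2)) (by
      rw [star_div₀, star_div₀, star_div₀, star_add, star_sub, star_star, star_mul', star_ofNat,
        hηs]
      have h7 : (u : E) + star (u : E) ≠ 0 := fun h => hu3 (by rw [h, zero_div])
      have h8 : star (u : E) + (u : E) ≠ 0 := by rwa [add_comm]
      field_simp
      ring)
    rw [ha] at hu1 hu3
    rw [hb] at hu2
    have n1 : ‖a - 1‖ < ε1 := by
      rw [← norm_algebraMap' E (a - 1), map_sub, map_one]
      exact hu1
    have n2 : ‖b‖ < ε2 := by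
      rw [← norm_algebraMap' E b]
      exact hu2
    have hu : (u : E) = algebraMap F E a * (1 + algebraMap F E b * η) := by
      rw [← hb, ha]
      have h7 : algebraMap F E a * (1 + (((u : E) - star (u : E)) / (2 * η)) /
          algebraMap F E a * η) = algebraMap F E a + ((u : E) - star (u : E)) / 2 := by
        field_simp
      rw [h7, ← ha]
      ring
    have hw : 1 + algebraMap F E b * η ≠ 0 := by
      intro h
      rw [h, mul_zero] at hu
      exact u.ne_zero hu
    have m1 := k1 (a - 1) n1 (Units.mk0 (algebraMap F E a) hu3) (by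
      show algebraMap F E a = _
      rw [map_sub, map_one]
      ring)
    have m2 := k2 b n2 (Units.mk0 (1 + algebraMap F E b * η) hw) rfl
    have hu' : u = Units.mk0 (algebraMap F E a) hu3 * Units.mk0 (1 + algebraMap F E b * η) hw :=
      Units.ext hu
    rw [hu', map_mul, m1, m2, mul_one]
  rw [IsLocallyConstant.iff_eventually_eq]
  intro x
  have t1 : Tendsto (fun y : Eˣ => y * x⁻¹) (𝓝 x) (𝓝 1) := by
    have t2 : ContinuousAt (fun y : Eˣ => y * x⁻¹) x := (continuous_mul_const x⁻¹).continuousAt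
    have t3 := t2.tendsto
    simp only [mul_inv_cancel] at t3
    exact t3
  filter_upwards [t1.eventually hnear] with y hy
  rw [map_mul, map_inv, mul_inv_eq_one] at hy
  rw [hy]

end

end Pool.Agent.Work.MP_dd0ddf_al
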