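import Pool.Agent.Work.MP_dd0ddf_al.WfVI
import Pool.Agent.Work.MP_dd0ddf_al.WfWall

/-!
# MP_dd0ddf_al, module WfMDefs: the operators M_{h,b} (definition)

`trf L f` is the function `x ↦ ψ(½ Tr ∑ x_i conj(x_j) W_h(b_i, b_j)) L_{∑ x_i b_i} f` on the compact open subgroup `L` of `E^r`, zero outside (values in `SF V`).
`exists_M`: for given `f` the integral over `L` does not depend on `L ⊇ L0(f)`.  Let `N ≤ E^r` be a compact open subgroup such that `L_{y·b} f = f` for `y ∈ N` (lop_smooth) and
`ψ(½ Tr W(y·b,y·b)) = 1` for `y ∈ N`.  For `y ∈ N`, `u = x·b`, `w = y·b`: `L_{u+w} f = ψ(-½ om(u,w)) L_u L_w f = ψ(-½ om(u,w)) L_u f`, and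
`½Tr W(u+w,u+w) - ½ om(u,w) = ½ Tr W(u,u) + ½ Tr W(w,w) + Tr W(u,w)` because `⟨u,w⟩ = conj W(w,u) - W(u,w)` (wall_conj), so `½ Tr(W(u,w)+W(w,u)) - ½ Tr⟨u,w⟩ = Tr W(u,w)`.
So the integral over a coset `x + N` is `0` unless `ψ(Tr W(x·b, y·b)) = 1` for all `y ∈ N`, i.e. unless `x` is in the dual of `N` for the nondegenerate pairing `Tr W` (wall_det ≠ 0), a compact
set `C` (bounded).  Take `L0 ⊇ N ∪ C`.  Linearity of `M`: use a common `L`.
-/

set_option linter.unusedSectionVars false
set_option linter.style.haveILetI false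

namespace Pool.Agent.Work.MP_dd0ddf_al

noncomputable section

universe u

/-! ### the sesquilinear form of a matrix -/

section ses

variable {E : Type*} [Field E] [StarRing E]

/-- the form `∑ x_i conj(y_j) w_ij` -/
def wfmdefsSes {r : ℕ} (w : Matrix (Fin r) (Fin r) E) (x y : Fin r → E) : E :=
  ∑ i, ∑ j, x i * star (y j) * w i j

theorem wfmdefs_ses_add_left {r : ℕ} (w : Matrix (Fin r) (Fin r) E) (x x' y : Fin r → E) :
    wfmdefsSes w (x + x') y = wfmdefsSes w x y + wfmdefsSes w x' y := by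
  unfold wfmdefsSes
  rw [← Finset.sum_add_distrib]
  refine Finset.sum_congr rfl fun i _ => ?_
  rw [← Finset.sum_add_distrib]
  refine Finset.sum_congr rfl fun j _ => ?_
  rw [Pi.add_apply]
  ring

theorem wfmdefs_ses_add_right {r : ℕ} (w : Matrix (Fin r) (Fin r) E) (x y y' : Fin r → E) :
    wfmdefsSes w x (y + y') = wfmdefsSes w x y + wfmdefsSes w x y' := by
  unfold wfmdefsSes
  rw [← Finset.sum_add_distrib]
  refine Finset.sum_congr rfl fun i _ => ?_
  rw [← Finset.sum_add_distrib]
  refine Finset.sum_congr rfl fun j _ => ?_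
  rw [Pi.add_apply, star_add]
  ring

theorem wfmdefs_ses_smul_left {r : ℕ} (w : Matrix (Fin r) (Fin r) E) (a : E)
    (x y : Fin r → E) : wfmdefsSes w (a • x) y = a * wfmdefsSes w x y := by
  unfold wfmdefsSes
  rw [Finset.mul_sum]
  refine Finset.sum_congr rfl fun i _ => ?_
  rw [Finset.mul_sum]
  refine Finset.sum_congr rfl fun j _ => ?_
  rw [Pi.smul_apply, smul_eq_mul]
  ring

theorem wfmdefs_ses_smul_right {r : ℕ} (w : Matrix (Fin r) (Fin r) E) (a : E)
    (x y : Fin r → E) : wfmdefsSes w x (a • y) = star a * wfmdefsSes w x y := by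
  unfold wfmdefsSes
  rw [Finset.mul_sum]
  refine Finset.sum_congr rfl fun i _ => ?_
  rw [Finset.mul_sum]
  refine Finset.sum_congr rfl fun j _ => ?_
  rw [Pi.smul_apply, smul_eq_mul, star_mul']
  ring

theorem wfmdefs_ses_single_left {r : ℕ} (w : Matrix (Fin r) (Fin r) E) (i : Fin r) (z : E)
    (y : Fin r → E) : wfmdefsSes w (Pi.single i z) y = z * ∑ j, w i j * star (y j) := by
  classical
  unfold wfmdefsSes
  rw [Finset.sum_eq_single i, Finset.mul_sum]
  · refine Finset.sum_congr rfl fun j _ => ?_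
    rw [Pi.single_eq_same]
    ring
  · intro k _ hk
    refine Finset.sum_eq_zero fun j _ => ?_
    rw [Pi.single_eq_of_ne hk]
    ring
  · intro hi
    exact absurd (Finset.mem_univ i) hi

theorem wfmdefs_ses_single_right {r : ℕ} (w : Matrix (Fin r) (Fin r) E) (j : Fin r) (z : E)
    (x : Fin r → E) : wfmdefsSes w x (Pi.single j z) = star z * ∑ i, x i * w i j := by
  classical
  unfold wfmdefsSes
  rw [Finset.mul_sum]
  refine Finset.sum_congr rfl fun i _ => ?_
  rw [Finset.sum_eq_single j]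
  · rw [Pi.single_eq_same]
    ring
  · intro k _ hk
    rw [Pi.single_eq_of_ne hk, star_zero]
    ring
  · intro hi
    exact absurd (Finset.mem_univ j) hi

/-- the Wall form in coordinates -/
theorem wfmdefs_wall {V : Type*} [AddCommGroup V] [Module E V] [Module.Finite E V]
    {B : SkewH E V} (h : UU B) {r : ℕ} (b : Fin r → V) (hb : IsRBasis h.1 b)
    (x y : Fin r → E) : wall B h.1 (∑ i, x i • b i) (∑ i, y i • b i) =
      wfmdefsSes (wallM B h.1 b) x y := by
  classical
  have hmem : ∀ i, b i ∈ LinearMap.range (h.1.1 - 1) := fun i => by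
    rw [← hb.2]
    exact Submodule.subset_span ⟨i, rfl⟩
  have hm : ∀ (s : Finset (Fin r)) (x : Fin r → E),
      ∑ i ∈ s, x i • b i ∈ LinearMap.range (h.1.1 - 1) := fun s x =>
    Submodule.sum_mem _ fun k _ => Submodule.smul_mem _ _ (hmem k)
  have h0l : ∀ y ∈ LinearMap.range (h.1.1 - 1), wall B h.1 0 y = 0 := by
    intro y hy
    have h2 := wall_smul_left h 0 hy hy
    rw [zero_smul, zero_mul] at h2
    exact h2
  have h0r : ∀ y ∈ LinearMap.range (h.1.1 - 1), wall B h.1 y 0 = 0 := by
    intro y hy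
    have h2 := wall_smul_right h 0 hy hy
    rw [zero_smul, star_zero, zero_mul] at h2
    exact h2
  have hr : ∀ (s : Finset (Fin r)) (u : V), u ∈ LinearMap.range (h.1.1 - 1) →
      wall B h.1 u (∑ i ∈ s, y i • b i) = ∑ i ∈ s, star (y i) * wall B h.1 u (b i) := by
    intro s u hu
    induction s using Finset.induction_on with
    | empty => rw [Finset.sum_empty, Finset.sum_empty, h0r u hu]
    | insert a s ha ih =>
      rw [Finset.sum_insert ha, Finset.sum_insert ha,
        wall_add_right h hu (Submodule.smul_mem _ _ (hmem a)) (hm s y),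
        wall_smul_right h _ hu (hmem a), ih]
  have hl : ∀ (s : Finset (Fin r)) (u : V), u ∈ LinearMap.range (h.1.1 - 1) →
      wall B h.1 (∑ i ∈ s, x i • b i) u = ∑ i ∈ s, x i * wall B h.1 (b i) u := by
    intro s u hu
    induction s using Finset.induction_on with
    | empty => rw [Finset.sum_empty, Finset.sum_empty, h0l u hu]
    | insert a s ha ih =>
      rw [Finset.sum_insert ha, Finset.sum_insert ha,
        wall_add_left h (Submodule.smul_mem _ _ (hmem a)) (hm s x) hu,
        wall_smul_left h _ (hmem a) hu, ih]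
  rw [hl _ _ (hm _ y)]
  unfold wfmdefsSes
  refine Finset.sum_congr rfl fun i _ => ?_
  rw [hr _ _ (hmem i), Finset.mul_sum]
  refine Finset.sum_congr rfl fun j _ => ?_
  show x i * (star (y j) * wall B h.1 (b i) (b j)) = x i * star (y j) * wall B h.1 (b i) (b j)
  ring

end ses

variable {F E : Type u} [NontriviallyNormedField F] [IsUltrametricDist F] [ProperSpace F]
  [CharZero F] [NontriviallyNormedField E] [NormedAlgebra F E] [ProperSpace E] [StarRing E]
  [QExt F E] [MeasurableSpace E] [BorelSpace E]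
variable {V : Type u} [AddCommGroup V] [Module E V] [Module.Finite E V] [TopologicalSpace V]
  [IsTopologicalAddGroup V] [T2Space V] [ContinuousSMul E V]

theorem wfmdefs_psi_zero (p : PChar F) : p.ψ 0 = 1 := by
  have h := p.add 0 0
  rw [add_zero] at h
  have hn : p.ψ 0 ≠ 0 := by
    intro h0
    have := p.norm_one 0
    rw [h0, norm_zero] at this
    exact zero_ne_one this
  exact (mul_right_cancel₀ hn (by rw [one_mul]; exact h)).symm

theorem wfmdefs_trace_star (x : E) :
    Algebra.trace F E (star x) = Algebra.trace F E x :=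
  Algebra.trace_eq_of_algEquiv
    ({ toFun := star
       invFun := star
       left_inv := star_star
       right_inv := star_star
       map_mul' := fun x y => by rw [star_mul']
       map_add' := fun x y => star_add x y
       commutes' := fun a => QExt.star_alg a } : E ≃ₐ[F] E) x

variable (F) in
/-- `Tr ∑ x_i conj(y_j) w_ij` as an `F`-bilinear form -/
private def wfmdefs_bil {r : ℕ} (w : Matrix (Fin r) (Fin r) E) :
    (Fin r → E) →ₗ[F] (Fin r → E) →ₗ[F] F :=
  LinearMap.mk₂ F (fun x y => Algebra.trace F E (wfmdefsSes w x y))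
    (fun x x' y => by rw [wfmdefs_ses_add_left, map_add])
    (fun a x y => by
      have e : a • x = algebraMap F E a • x := by
        funext i
        rw [Pi.smul_apply, Pi.smul_apply, Algebra.smul_def, smul_eq_mul]
      rw [e, wfmdefs_ses_smul_left, ← Algebra.smul_def, map_smul])
    (fun x y y' => by rw [wfmdefs_ses_add_right, map_add])
    (fun a x y => by
      have e : a • y = algebraMap F E a • y := by
        funext i
        rw [Pi.smul_apply, Pi.smul_apply, Algebra.smul_def, smul_eq_mul]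
      rw [e, wfmdefs_ses_smul_right, QExt.star_alg, ← Algebra.smul_def, map_smul])

variable (F) in
private theorem wfmdefs_bil_apply {r : ℕ} (w : Matrix (Fin r) (Fin r) E) (x y : Fin r → E) :
    wfmdefs_bil F w x y = Algebra.trace F E (wfmdefsSes w x y) := rfl

private theorem wfmdefs_trace (x : E) (h : ∀ y : E, Algebra.trace F E (y * x) = 0) : x = 0 := by
  haveI : FiniteDimensional F E := qext_findim F E
  have hnd := traceForm_nondegenerate F E
  refine hnd.1 x fun y => ?_
  rw [Algebra.traceForm_apply, mul_comm]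
  exact h y

private theorem wfmdefs_nd {r : ℕ} (w : Matrix (Fin r) (Fin r) E) (hw : w.det ≠ 0)
    (y : Fin r → E) (h : ∀ x, wfmdefs_bil F w x y = 0) : y = 0 := by
  classical
  have h1 : w.mulVec (fun j => star (y j)) = 0 := by
    funext i
    show ∑ j, w i j * star (y j) = 0
    apply wfmdefs_trace (F := F)
    intro z
    have h2 := h (Pi.single i z)
    rw [wfmdefs_bil_apply, wfmdefs_ses_single_left] at h2
    exact h2
  by_contra hy
  have h2 : (fun j => star (y j)) ≠ 0 := by
    intro h3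
    apply hy
    funext j
    have h4 : star (y j) = 0 := congrFun h3 j
    rw [← star_star (y j), h4]
    exact star_zero E
  exact hw (Matrix.exists_mulVec_eq_zero_iff.1 ⟨_, h2, h1⟩)

private theorem wfmdefs_nd' {r : ℕ} (w : Matrix (Fin r) (Fin r) E) (hw : w.det ≠ 0)
    (x : Fin r → E) (h : ∀ y, (wfmdefs_bil F w).flip y x = 0) : x = 0 := by
  classical
  have h1 : Matrix.vecMul x w = 0 := by
    funext j
    show ∑ i, x i * w i j = 0
    apply wfmdefs_trace (F := F)
    intro z
    have h2 := h (Pi.single j (star z))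
    rw [LinearMap.flip_apply, wfmdefs_bil_apply, wfmdefs_ses_single_right, star_star] at h2
    exact h2
  by_contra hx
  exact hw (Matrix.exists_vecMul_eq_zero_iff.1 ⟨_, hx, h1⟩)

/-- the bicharacter `ψ(Tr ∑ x_i conj(y_j) w_ij)` -/
def wfmdefsBi (p : PChar F) {r : ℕ} (w : Matrix (Fin r) (Fin r) E) (hw : w.det ≠ 0) :
    BiChar (Fin r → E) :=
  haveI : FiniteDimensional F E := qext_findim F E
  { χ := fun x y => p.ψ (Algebra.trace F E (wfmdefsSes w x y))
    addl := fun a b c => by rw [wfmdefs_ses_add_left, map_add, p.add]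
    addr := fun v a b => by rw [wfmdefs_ses_add_right, map_add, p.add]
    norm := fun v w => p.norm_one _
    lc := biaux_lcc (wfmdefs_bil F w) p
    nd := fun v h => biaux_nd (wfmdefs_bil F w).flip (wfmdefs_nd' w hw) p v h
    nd' := fun v h => biaux_nd (wfmdefs_bil F w) (wfmdefs_nd w hw) p v h
    perp := fun L hL => biaux_perp (wfmdefs_bil F w) (wfmdefs_nd w hw) p L hL
    perp' := fun L hL => biaux_perp (wfmdefs_bil F w).flip (wfmdefs_nd' w hw) p L hL }

theorem wfmdefs_bi_apply (p : PChar F) {r : ℕ} (w : Matrix (Fin r) (Fin r) E) (hw : w.det ≠ 0)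
    (x y : Fin r → E) :
    (wfmdefsBi p w hw).χ x y = p.ψ (Algebra.trace F E (wfmdefsSes w x y)) := rfl

/-- the phase `ψ(½ Tr ∑ x_i conj(x_j) w_ij)` -/
def wphase (p : PChar F) {r : ℕ} (w : Matrix (Fin r) (Fin r) E) (x : Fin r → E) : ℂ :=
  p.ψ (2⁻¹ * Algebra.trace F E (∑ i, ∑ j, x i * star (x j) * w i j))

theorem wfmdefs_wphase (p : PChar F) {r : ℕ} (w : Matrix (Fin r) (Fin r) E) (x : Fin r → E) :
    wphase p w x = p.ψ (2⁻¹ * Algebra.trace F E (wfmdefsSes w x x)) := rfl

theorem wfmdefs_wphase_lc (p : PChar F) {r : ℕ} (w : Matrix (Fin r) (Fin r) E) :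
    IsLocallyConstant (wphase p w) := by
  refine p.lc.comp_continuous (continuous_const.mul ((continuous_trace F E).comp ?_))
  refine continuous_finsetSum _ fun i _ => continuous_finsetSum _ fun j _ => ?_
  exact ((continuous_apply i).mul ((continuous_star_E F E).comp (continuous_apply j))).mul
    continuous_const

omit [ProperSpace E] [MeasurableSpace E] [BorelSpace E] [Module.Finite E V] [T2Space V] in
theorem wfmdefs_comb {r : ℕ} (b : Fin r → V) : Continuous (fun x : Fin r → E => ∑ i, x i • b i) :=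
  continuous_finsetSum _ fun i _ => (continuous_apply i).smul continuous_const

/-- the integrand is locally constant -/
theorem wfmdefs_lc (B : SkewH E V) (p : PChar F) {r : ℕ} (w : Matrix (Fin r) (Fin r) E)
    (b : Fin r → V) (f : SF V ℂ) :
    IsLocallyConstant (fun x : Fin r → E => wphase p w x • Lop B p (∑ i, x i • b i) f) :=
  (wfmdefs_wphase_lc p w).comp₂ ((lop_lc B p f).comp_continuous (wfmdefs_comb b)) (· • ·)

open Classical in
/-- truncated integrand with values in `SF V` -/
def trf (B : SkewH E V) (p : PChar F) {r : ℕ} (w : Matrix (Fin r) (Fin r) E) (b : Fin r → V)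
    (L : AddSubgroup (Fin r → E)) (hL : IsOpen (L : Set (Fin r → E)))
    (hL' : IsCompact (L : Set (Fin r → E))) (f : SF V ℂ) : SF (Fin r → E) (SF V ℂ) :=
  ⟨fun x => if x ∈ L then wphase p w x • Lop B p (∑ i, x i • b i) f else 0, by
    have h1 : (fun x : Fin r → E => if x ∈ L then wphase p w x • Lop B p (∑ i, x i • b i) f
        else 0) = fun x => SF.single (L : Set (Fin r → E)) hL' hL (1 : ℂ) x •
          (wphase p w x • Lop B p (∑ i, x i • b i) f) := by
      funext x
      by_cases hx : x ∈ L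
      · rw [if_pos hx, SF.single_apply_mem _ _ _ _ _ hx, one_smul]
      · rw [if_neg hx, SF.single_apply_not_mem _ _ _ _ _ hx, zero_smul]
    refine ⟨?_, HasCompactSupport.intro hL' fun x hx => if_neg hx⟩
    rw [h1]
    exact (SF.single (L : Set (Fin r → E)) hL' hL (1 : ℂ)).2.1.comp₂ (wfmdefs_lc B p w b f)
      (· • ·)⟩

open Classical in
theorem wfmdefs_trf_apply (B : SkewH E V) (p : PChar F) {r : ℕ} (w : Matrix (Fin r) (Fin r) E)
    (b : Fin r → V) (L : AddSubgroup (Fin r → E)) (hL : IsOpen (L : Set (Fin r → E)))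
    (hL' : IsCompact (L : Set (Fin r → E))) (f : SF V ℂ) (x : Fin r → E) :
    trf B p w b L hL hL' f x =
      if x ∈ L then wphase p w x • Lop B p (∑ i, x i • b i) f else 0 := rfl

/-- the quasi-invariance of the integrand -/
theorem wfmdefs_shift (B : SkewH E V) (p : PChar F) (h : UU B) {r : ℕ} (b : Fin r → V)
    (hb : IsRBasis h.1 b) (f : SF V ℂ) (x y : Fin r → E)
    (h1 : Lop B p (∑ i, y i • b i) f = f) (h2 : wphase p (wallM B h.1 b) y = 1) :
    wphase p (wallM B h.1 b) (x + y) • Lop B p (∑ i, (x + y) i • b i) f =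
      p.ψ (Algebra.trace F E (wfmdefsSes (wallM B h.1 b) x y)) •
        (wphase p (wallM B h.1 b) x • Lop B p (∑ i, x i • b i) f) := by
  have hmem : ∀ i, b i ∈ LinearMap.range (h.1.1 - 1) := fun i => by
    rw [← hb.2]
    exact Submodule.subset_span ⟨i, rfl⟩
  have hm : ∀ (x : Fin r → E), ∑ i, x i • b i ∈ LinearMap.range (h.1.1 - 1) := fun x =>
    Submodule.sum_mem _ fun k _ => Submodule.smul_mem _ _ (hmem k)
  set w := wallM B h.1 b with hw
  set ux := ∑ i, x i • b i with hux
  set uy := ∑ i, y i • b i with huy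
  have e1 : ∑ i, (x + y) i • b i = ux + uy := by
    rw [hux, huy, ← Finset.sum_add_distrib]
    refine Finset.sum_congr rfl fun i _ => ?_
    rw [Pi.add_apply, add_smul]
  -- composition
  have e2 := congrArg (fun T : SF V ℂ →ₗ[ℂ] SF V ℂ => T f) (lop_lop B p ux uy)
  have e3 : Lop B p ux (Lop B p uy f) = p.ψ (2⁻¹ * om F B ux uy) • Lop B p (ux + uy) f := e2
  rw [h1] at e3
  have e4 : Lop B p (ux + uy) f = p.ψ (-(2⁻¹ * om F B ux uy)) • Lop B p ux f := by
    rw [e3, smul_smul, ← p.add, neg_add_cancel, wfmdefs_psi_zero, one_smul]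
  -- the pairing
  have e5 : om F B ux uy = Algebra.trace F E (wfmdefsSes w y x) -
      Algebra.trace F E (wfmdefsSes w x y) := by
    unfold om
    rw [← wall_conj h (hm x) (hm y), wfmdefs_wall h b hb, wfmdefs_wall h b hb, map_sub,
      wfmdefs_trace_star]
  have e6 : wfmdefsSes w (x + y) (x + y) = wfmdefsSes w x x + wfmdefsSes w y y +
      (wfmdefsSes w x y + wfmdefsSes w y x) := by
    rw [wfmdefs_ses_add_left, wfmdefs_ses_add_right, wfmdefs_ses_add_right]
    ring
  rw [e1, e4, smul_smul, smul_smul]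
  congr 1
  rw [wfmdefs_wphase] at h2
  rw [wfmdefs_wphase, wfmdefs_wphase, ← p.add, ← p.add, e6, e5]
  have e7 : 2⁻¹ * Algebra.trace F E (wfmdefsSes w x x + wfmdefsSes w y y +
      (wfmdefsSes w x y + wfmdefsSes w y x)) + -(2⁻¹ * (Algebra.trace F E (wfmdefsSes w y x) -
      Algebra.trace F E (wfmdefsSes w x y))) =
      (Algebra.trace F E (wfmdefsSes w x y) + 2⁻¹ * Algebra.trace F E (wfmdefsSes w x x)) +
      2⁻¹ * Algebra.trace F E (wfmdefsSes w y y) := by
    rw [map_add, map_add, map_add]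
    have h2 : (2 : F) ≠ 0 := two_ne_zero
    field_simp
    ring
  rw [e7, p.add _ (2⁻¹ * Algebra.trace F E (wfmdefsSes w y y)), h2, mul_one]

theorem exists_M (B : SkewH E V) (p : PChar F) (h : UU B) {r : ℕ} (b : Fin r → V)
    (hb : IsRBasis h.1 b) : ∃ M : SF V ℂ →ₗ[ℂ] SF V ℂ, ∀ f : SF V ℂ,
      ∃ L0 : AddSubgroup (Fin r → E), IsOpen (L0 : Set (Fin r → E)) ∧
        IsCompact (L0 : Set (Fin r → E)) ∧ ∀ (L : AddSubgroup (Fin r → E))
          (hL : IsOpen (L : Set (Fin r → E))) (hL' : IsCompact (L : Set (Fin r → E))), L0 ≤ L →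
          M f = vI r (trf B p (wallM B h.1 b) b L hL hL' f) := by
  classical
  haveI : TotallyDisconnectedSpace E := td_E F
  haveI : FiniteDimensional F E := qext_findim F E
  set w := wallM B h.1 b with hw
  have hwd : w.det ≠ 0 := wall_det h b hb
  set χ := wfmdefsBi p w hwd with hχ
  -- stabilisation
  have hst : ∀ f : SF V ℂ, ∃ L0 : AddSubgroup (Fin r → E), ∃ (h1 : IsOpen (L0 : Set (Fin r → E)))
      (h2 : IsCompact (L0 : Set (Fin r → E))), ∀ (L : AddSubgroup (Fin r → E))
          (hL : IsOpen (L : Set (Fin r → E))) (hL' : IsCompact (L : Set (Fin r → E))), L0 ≤ L →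
          vI r (trf B p w b L0 h1 h2 f) = vI r (trf B p w b L hL hL' f) := by
    intro f
    obtain ⟨U, hU, hU0, hUf⟩ := lop_smooth B p f
    have hW1 : IsOpen {x : Fin r → E | ∑ i, x i • b i ∈ U} := hU.preimage (wfmdefs_comb b)
    have hW2 : IsOpen {x : Fin r → E | wphase p w x = 1} :=
      (wfmdefs_wphase_lc p w).isOpen_fiber 1
    have hb1 : IsOpen {q : (Fin r → E) × (Fin r → E) | χ.χ q.1 q.2 = 1} := χ.lc.isOpen_fiber 1
    have hb0 : ((0 : Fin r → E), (0 : Fin r → E)) ∈
        {q : (Fin r → E) × (Fin r → E) | χ.χ q.1 q.2 = 1} := by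
      show p.ψ (Algebra.trace F E (wfmdefsSes w 0 0)) = 1
      have h1 := wfmdefs_ses_smul_left w 0 (0 : Fin r → E) 0
      rw [zero_smul, zero_mul] at h1
      rw [h1, map_zero, wfmdefs_psi_zero]
    obtain ⟨W3, W4, hW3, hW4, h03, h04, hW34⟩ := isOpen_prod_iff.1 hb1 _ _ hb0
    obtain ⟨N, hNo, hNc, hNs⟩ := exists_co_addSubgroup
      (({x : Fin r → E | ∑ i, x i • b i ∈ U} ∩ {x : Fin r → E | wphase p w x = 1}) ∩ (W3 ∩ W4))
      ((hW1.inter hW2).inter (hW3.inter hW4)) (by
        refine ⟨⟨?_, ?_⟩, h03, h04⟩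
        · show ∑ i, (0 : Fin r → E) i • b i ∈ U
          rw [Finset.sum_eq_zero fun i _ => by rw [Pi.zero_apply, zero_smul]]
          exact hU0
        · show wphase p w 0 = 1
          rw [wfmdefs_wphase]
          have h1 := wfmdefs_ses_smul_left w 0 (0 : Fin r → E) 0
          rw [zero_smul, zero_mul] at h1
          rw [h1, map_zero, mul_zero, wfmdefs_psi_zero])
    have hN1 : ∀ x ∈ N, Lop B p (∑ i, x i • b i) f = f := fun x hx => hUf _ (hNs hx).1.1
    have hN2 : ∀ x ∈ N, wphase p w x = 1 := fun x hx => (hNs hx).1.2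
    have hNN : ∀ x ∈ N, ∀ y ∈ N, χ.χ x y = 1 := by
      intro x hx y hy
      have h5 := hW34 (show (x, y) ∈ W3 ×ˢ W4 from ⟨(hNs hx).2.1, (hNs hy).2.2⟩)
      rw [Set.mem_ofPred_eq] at h5
      exact h5
    obtain ⟨L0, hL0o, hL0c, hL0s⟩ := biaux_uc F (Fin r → E) _ (hNc.union (χ.perp' N hNo))
    refine ⟨L0, hL0o, hL0c, fun L hL hL' hLL => ?_⟩
    apply eq_of_functionals
    intro l
    obtain ⟨c, hc, hvh⟩ := vI_hI F r (W := ℂ) (E := E)
    rw [← vI_map, ← vI_map, hvh, hvh]
    congr 1
    rw [← sub_eq_zero, ← map_sub]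
    have hsub : ∀ x, (SF.map l (trf B p w b L0 hL0o hL0c f) -
        SF.map l (trf B p w b L hL hL' f) : SF (Fin r → E) ℂ) x =
        (SF.single (L0 : Set (Fin r → E)) hL0c hL0o (1 : ℂ) x -
          SF.single (L : Set (Fin r → E)) hL' hL (1 : ℂ) x) *
        l (wphase p w x • Lop B p (∑ i, x i • b i) f) := by
      intro x
      show l (trf B p w b L0 hL0o hL0c f x) - l (trf B p w b L hL hL' f x) = _
      rw [wfmdefs_trf_apply, wfmdefs_trf_apply]
      by_cases h0 : x ∈ L0
      · rw [if_pos h0, if_pos (hLL h0), SF.single_apply_mem _ _ _ _ _ h0,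
          SF.single_apply_mem _ _ _ _ _ (hLL h0)]
        ring
      · rw [if_neg h0, SF.single_apply_not_mem _ _ _ _ _ h0]
        by_cases h1 : x ∈ L
        · rw [if_pos h1, SF.single_apply_mem _ _ _ _ _ h1, map_zero]
          ring
        · rw [if_neg h1, SF.single_apply_not_mem _ _ _ _ _ h1]
          ring
    have hadd : ∀ (K : AddSubgroup (Fin r → E)) (hK : IsOpen (K : Set (Fin r → E)))
        (hK' : IsCompact (K : Set (Fin r → E))), (∀ y ∈ N, y ∈ K) → ∀ x, ∀ y ∈ N,
        SF.single (K : Set (Fin r → E)) hK' hK (1 : ℂ) (x + y) =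
          SF.single (K : Set (Fin r → E)) hK' hK (1 : ℂ) x := by
      intro K hK hK' hNK x y hy
      by_cases hv : x ∈ K
      · rw [SF.single_apply_mem _ _ _ _ _ (K.add_mem hv (hNK y hy)),
          SF.single_apply_mem _ _ _ _ _ hv]
      · rw [SF.single_apply_not_mem _ _ _ _ _ hv, SF.single_apply_not_mem]
        intro h
        exact hv ((K.add_mem_cancel_right (hNK y hy)).1 h)
    have hNL0 : ∀ y ∈ N, y ∈ L0 := fun y hy => hL0s (Or.inl hy)
    refine gaussdefs_vanish' χ N hNN _ ?_ ?_
    · intro x y hy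
      rw [hsub, hsub, hadd L0 hL0o hL0c hNL0 x y hy,
        hadd L hL hL' (fun y hy => hLL (hNL0 y hy)) x y hy,
        wfmdefs_shift B p h b hb f x y (hN1 y hy) (hN2 y hy), map_smul, smul_eq_mul]
      show _ = p.ψ (Algebra.trace F E (wfmdefsSes w x y)) * _
      ring
    · intro x hx
      by_contra hcon
      push Not at hcon
      have hxL0 : x ∈ L0 := hL0s (Or.inr hcon)
      rw [hsub, SF.single_apply_mem _ _ _ _ _ hxL0, SF.single_apply_mem _ _ _ _ _ (hLL hxL0),
        sub_self, zero_mul] at hx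
      exact hx rfl
  choose L0 hL0o hL0c hL0 using hst
  refine ⟨{ toFun := fun f => vI r (trf B p w b (L0 f) (hL0o f) (hL0c f) f)
            map_add' := fun f g => ?_
            map_smul' := fun c f => ?_ }, fun f => ⟨L0 f, hL0o f, hL0c f, hL0 f⟩⟩
  · obtain ⟨L, hL, hL', hLs⟩ := biaux_uc F (Fin r → E) _
      (((hL0c f).union (hL0c g)).union (hL0c (f + g)))
    rw [hL0 f L hL hL' (fun x hx => hLs (Or.inl (Or.inl hx))),
      hL0 g L hL hL' (fun x hx => hLs (Or.inl (Or.inr hx))),
      hL0 (f + g) L hL hL' (fun x hx => hLs (Or.inr hx)), ← map_add]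
    congr 1
    apply SF.ext
    intro x
    show trf B p w b L hL hL' (f + g) x = trf B p w b L hL hL' f x + trf B p w b L hL hL' g x
    rw [wfmdefs_trf_apply, wfmdefs_trf_apply, wfmdefs_trf_apply]
    split_ifs
    · rw [map_add, smul_add]
    · rw [add_zero]
  · obtain ⟨L, hL, hL', hLs⟩ := biaux_uc F (Fin r → E) _ ((hL0c f).union (hL0c (c • f)))
    rw [hL0 f L hL hL' (fun x hx => hLs (Or.inl hx)),
      hL0 (c • f) L hL hL' (fun x hx => hLs (Or.inr hx)), RingHom.id_apply, ← map_smul]
    congr 1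
    apply SF.ext
    intro x
    show trf B p w b L hL hL' (c • f) x = c • trf B p w b L hL hL' f x
    rw [wfmdefs_trf_apply, wfmdefs_trf_apply]
    split_ifs
    · rw [map_smul, smul_comm]
    · rw [smul_zero]

/-- the operator `M_{h,b}` -/
def Mop (B : SkewH E V) (p : PChar F) (h : UU B) {r : ℕ} (b : Fin r → V)
    (hb : IsRBasis h.1 b) : SF V ℂ →ₗ[ℂ] SF V ℂ := (exists_M B p h b hb).choose

theorem Mop_spec (B : SkewH E V) (p : PChar F) (h : UU B) {r : ℕ} (b : Fin r → V)
    (hb : IsRBasis h.1 b) (f : SF V ℂ) :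
      ∃ L0 : AddSubgroup (Fin r → E), IsOpen (L0 : Set (Fin r → E)) ∧
        IsCompact (L0 : Set (Fin r → E)) ∧ ∀ (L : AddSubgroup (Fin r → E))
          (hL : IsOpen (L : Set (Fin r → E))) (hL' : IsCompact (L : Set (Fin r → E))), L0 ≤ L →
          Mop B p h b hb f = vI r (trf B p (wallM B h.1 b) b L hL hL' f) :=
  (exists_M B p h b hb).choose_spec f

end

end Pool.Agent.Work.MP_dd0ddf_al
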