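import Pool.Agent.Work.MP_dd0ddf_al.WfM
import Pool.Agent.Work.MP_dd0ddf_al.NiClass
import Pool.Agent.Work.MP_dd0ddf_al.NiGauss

/-!
# MP_dd0ddf_al, module WfT: the scalars t_b(h)

`LData`: a lift `l` as in `weil_formula`.  `wf_exists_t`: `l(h)⁻¹ ∘ M_{h,b}` (l(h) is invertible with inverse `l(h⁻¹)`) commutes with all `L_x, R_x` (Mop_L, L_comm, ...), so is a scalar (schur_lr), nonzero by `Mop_ne`.
`t_change`, `t_prod`, `t_conj`: from `Mop_change`, `Mop_prod`, `Mop_conj` (A = l(g)), cancelling the nonzero operator.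
(`Mop_change`: `l(h) = t_b M_b = t_{b'} M_{b'} = t_{b'} hmod(det P) M_b`.)
-/

set_option linter.unusedSectionVars false
set_option linter.style.haveILetI false

namespace Pool.Agent.Work.MP_dd0ddf_al

noncomputable section

universe u

variable {F E : Type u} [NontriviallyNormedField F] [IsUltrametricDist F] [ProperSpace F]
  [CharZero F] [NontriviallyNormedField E] [NormedAlgebra F E] [ProperSpace E] [StarRing E]
  [QExt F E] [MeasurableSpace E] [BorelSpace E]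
variable {V : Type u} [AddCommGroup V] [Module E V] [Module.Finite E V] [TopologicalSpace V]
  [IsTopologicalAddGroup V] [T2Space V] [ContinuousSMul E V]

/-- a smooth action of `U(V)` on `SF V` compatible with the Weyl operators -/
structure LData (B : SkewH E V) (p : PChar F) where
  l : UU B →* Module.End ℂ (SF V ℂ)
  L_comm : ∀ (h : UU B) (x : V), l h ∘ₗ Lop B p x = Lop B p (h.1.1 x) ∘ₗ l h
  R_comm : ∀ (h : UU B) (x : V), l h ∘ₗ Rop B p x = Rop B p x ∘ₗ l h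
  smooth : ∀ f : SF V ℂ, ∃ U : Set (Module.End E V), IsOpen U ∧ (1 : Module.End E V) ∈ U ∧
    ∀ h : UU B, h.1.1 ∈ U → l h f = f

private theorem wft_inv {B : SkewH E V} {p : PChar F} (D : LData B p) (h : UU B) (f : SF V ℂ) :
    D.l h (D.l h⁻¹ f) = f := by
  have h1 : D.l (h * h⁻¹) f = D.l h (D.l h⁻¹ f) := by
    rw [map_mul]
    rfl
  rw [← h1, mul_inv_cancel, map_one]
  rfl

private theorem wft_inv' {B : SkewH E V} {p : PChar F} (D : LData B p) (h : UU B) (f : SF V ℂ) :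
    D.l h⁻¹ (D.l h f) = f := by
  have h1 := wft_inv D h⁻¹ f
  rwa [inv_inv] at h1

private theorem wft_smul_cancel {M : SF V ℂ →ₗ[ℂ] SF V ℂ} (hM : M ≠ 0) {s t : ℂ}
    (h : s • M = t • M) : s = t := by
  obtain ⟨f, v, hf⟩ : ∃ f v, M f v ≠ 0 := by
    by_contra hcon
    push Not at hcon
    exact hM (LinearMap.ext fun f => SF.ext fun v => hcon f v)
  have h1 : s * M f v = t * M f v := by
    have h2 := congrArg (fun T : SF V ℂ →ₗ[ℂ] SF V ℂ => T f v) h
    exact h2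
  exact mul_right_cancel₀ hf h1

theorem wf_exists_t {B : SkewH E V} {p : PChar F} (D : LData B p) (h : UU B) {r : ℕ}
    (b : Fin r → V) (hb : IsRBasis h.1 b) :
    ∃ t : ℂ, t ≠ 0 ∧ D.l h = t • Mop B p h b hb := by
  have hL : ∀ x f, D.l h⁻¹ (Lop B p x f) = Lop B p (h⁻¹.1.1 x) (D.l h⁻¹ f) := fun x f =>
    congrArg (fun T : SF V ℂ →ₗ[ℂ] SF V ℂ => T f) (D.L_comm h⁻¹ x)
  have hR : ∀ x f, D.l h⁻¹ (Rop B p x f) = Rop B p x (D.l h⁻¹ f) := fun x f =>
    congrArg (fun T : SF V ℂ →ₗ[ℂ] SF V ℂ => T f) (D.R_comm h⁻¹ x)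
  have hL' : ∀ x f, Mop B p h b hb (Lop B p x f) = Lop B p (h.1.1 x) (Mop B p h b hb f) :=
    fun x f => congrArg (fun T : SF V ℂ →ₗ[ℂ] SF V ℂ => T f) (Mop_L B p h b hb x)
  have hR' : ∀ x f, Mop B p h b hb (Rop B p x f) = Rop B p x (Mop B p h b hb f) :=
    fun x f => congrArg (fun T : SF V ℂ →ₗ[ℂ] SF V ℂ => T f) (Mop_R B p h b hb x)
  have him : ∀ x, h⁻¹.1.1 (h.1.1 x) = x := fun x =>
    congrArg (fun f : Module.End E V => f x) h.1.inv_mul
  obtain ⟨c, hc⟩ := schur_lr B p ((D.l h⁻¹ : SF V ℂ →ₗ[ℂ] SF V ℂ) ∘ₗ Mop B p h b hb)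
    (fun x => LinearMap.ext fun f => by
      show D.l h⁻¹ (Mop B p h b hb (Lop B p x f)) = Lop B p x (D.l h⁻¹ (Mop B p h b hb f))
      rw [hL', hL, him])
    (fun x => LinearMap.ext fun f => by
      show D.l h⁻¹ (Mop B p h b hb (Rop B p x f)) = Rop B p x (D.l h⁻¹ (Mop B p h b hb f))
      rw [hR', hR])
  have hc' : ∀ f, D.l h⁻¹ (Mop B p h b hb f) = c • f := fun f =>
    congrArg (fun T : SF V ℂ →ₗ[ℂ] SF V ℂ => T f) hc
  have hM : ∀ f, Mop B p h b hb f = c • D.l h f := by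
    intro f
    rw [← map_smul, ← hc' f, wft_inv]
  have hc0 : c ≠ 0 := by
    intro h0
    apply Mop_ne B p h b hb
    apply LinearMap.ext
    intro f
    rw [hM f, h0, zero_smul]
    rfl
  refine ⟨c⁻¹, inv_ne_zero hc0, ?_⟩
  apply LinearMap.ext
  intro f
  show D.l h f = c⁻¹ • Mop B p h b hb f
  rw [hM f, smul_smul, inv_mul_cancel₀ hc0, one_smul]

/-- the scalar `t_b(h)` -/
def LData.t {B : SkewH E V} {p : PChar F} (D : LData B p) (h : UU B) {r : ℕ}
    (b : Fin r → V) (hb : IsRBasis h.1 b) : ℂ := (wf_exists_t D h b hb).choose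

theorem t_ne {B : SkewH E V} {p : PChar F} (D : LData B p) (h : UU B) {r : ℕ}
    (b : Fin r → V) (hb : IsRBasis h.1 b) : D.t h b hb ≠ 0 := (wf_exists_t D h b hb).choose_spec.1

theorem t_spec {B : SkewH E V} {p : PChar F} (D : LData B p) (h : UU B) {r : ℕ}
    (b : Fin r → V) (hb : IsRBasis h.1 b) : D.l h = D.t h b hb • Mop B p h b hb :=
  (wf_exists_t D h b hb).choose_spec.2

theorem t_unique {B : SkewH E V} {p : PChar F} (D : LData B p) (h : UU B) {r : ℕ}
    (b : Fin r → V) (hb : IsRBasis h.1 b) (t : ℂ) (ht : D.l h = t • Mop B p h b hb) :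
    t = D.t h b hb := by
  apply wft_smul_cancel (Mop_ne B p h b hb)
  rw [← ht, ← t_spec]

theorem t_change {B : SkewH E V} {p : PChar F} (D : LData B p) (h : UU B) {r : ℕ}
    (b b' : Fin r → V) (hb : IsRBasis h.1 b) (hb' : IsRBasis h.1 b')
    (P : Matrix (Fin r) (Fin r) E) (hP : P.det ≠ 0) (hbb : ∀ i, b' i = ∑ j, P i j • b j)
    [LocallyCompactSpace E] [TotallyDisconnectedSpace E] :
    D.t h b hb = D.t h b' hb' * (hmod (mulT E P.det hP) : ℂ) := by
  apply wft_smul_cancel (Mop_ne B p h b hb)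
  rw [← t_spec, mul_smul, ← Mop_change B p h b b' hb hb' P hP hbb, ← t_spec]

theorem t_prod {B : SkewH E V} {p : PChar F} (D : LData B p) (g h : UU B)
    (hd : Disjoint (LinearMap.range (g.1.1 - 1)) (LinearMap.range (h.1.1 - 1)))
    {r s : ℕ} (b : Fin r → V) (b' : Fin s → V) (hb : IsRBasis g.1 b) (hb' : IsRBasis h.1 b')
    (hbb : IsRBasis (g * h).1 (Fin.append b b')) :
    D.t (g * h) (Fin.append b b') hbb = D.t g b hb * D.t h b' hb' := by
  symm
  apply t_unique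
  rw [map_mul, t_spec D g b hb, t_spec D h b' hb', Mop_prod B p g h hd b b' hb hb' hbb]
  apply LinearMap.ext
  intro f
  show D.t g b hb • Mop B p g b hb (D.t h b' hb' • Mop B p h b' hb' f) =
    (D.t g b hb * D.t h b' hb') • Mop B p g b hb (Mop B p h b' hb' f)
  rw [map_smul, smul_smul]

theorem t_conj {B : SkewH E V} {p : PChar F} (D : LData B p) (g h : UU B) {r : ℕ}
    (b : Fin r → V) (hb : IsRBasis h.1 b)
    (hb' : IsRBasis (g * h * g⁻¹).1 (fun i => g.1.1 (b i))) :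
    D.t (g * h * g⁻¹) (fun i => g.1.1 (b i)) hb' = D.t h b hb := by
  symm
  apply t_unique
  have h1 := Mop_conj B p g h b hb hb' (D.l g) (fun x => D.L_comm g x)
  have h1' : ∀ f, D.l g (Mop B p h b hb f) =
      Mop B p (g * h * g⁻¹) (fun i => g.1.1 (b i)) hb' (D.l g f) := fun f =>
    congrArg (fun T : SF V ℂ →ₗ[ℂ] SF V ℂ => T f) h1
  have h2 : ∀ f, D.l h f = D.t h b hb • Mop B p h b hb f := fun f =>
    congrArg (fun T : SF V ℂ →ₗ[ℂ] SF V ℂ => T f) (t_spec D h b hb)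
  apply LinearMap.ext
  intro f
  show D.l (g * h * g⁻¹) f =
    D.t h b hb • Mop B p (g * h * g⁻¹) (fun i => g.1.1 (b i)) hb' f
  rw [map_mul, map_mul]
  show D.l g (D.l h (D.l g⁻¹ f)) = _
  rw [h2, map_smul, h1', wft_inv]

end

end Pool.Agent.Work.MP_dd0ddf_al
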